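import Pool.Agent.H310R3.Part

/-!
# A set with a finite-to-one map from its permutations to the natural numbers times it is
Dedekind finite
-/

set_option maxHeartbeats 400000
set_option linter.all false

namespace Pool.Agent.H310

open FirstOrder FirstOrder.Language
open Pool.Agent.Helper672.ZFA

universe u u₁ u₂ u₃ u₄

variable {M : Type u} [L.Structure M] [hM : IsModel M]
variable {α : Type u₁} {β : Type u₂} {γ : Type u₃} {δ : Type u₄}
  [ITy M α] [ITy M β] [ITy M γ] [ITy M δ]

/-! ### Parity -/

theorem dbl_inj {m n : INat M} (h : m + m = n + n) : m = n := by
  have key : ∀ m c : INat M, m + m = (m + c) + (m + c) → c = 0 := by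
    intro m c h1
    have h2 : (m + m) + 0 = (m + m) + (c + c) := by
      rw [add_zero]
      exact h1.trans (by ring)
    exact INat.eq_zero_of_add (add_left_cancel h2).symm
  rcases INat.total m n with ⟨c, hc⟩ | ⟨c, hc⟩
  · rw [hc] at h
    rw [hc, key m c h, add_zero]
  · rw [hc] at h
    rw [hc, key n c h.symm, add_zero]

theorem dbl_ne {m n : INat M} : m + m ≠ INat.succ (n + n) := by
  intro h
  rw [INat.succ_eq] at h
  rcases INat.total m n with ⟨c, hc⟩ | ⟨c, hc⟩
  · have h2 : (m + m) + 0 = (m + m) + ((c + c) + 1) := by
      rw [add_zero]
      refine h.trans ?_
      rw [hc]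
      ring
    have h3 := add_left_cancel h2
    rw [← INat.succ_eq] at h3
    exact INat.succ_ne_zero _ h3.symm
  · rcases INat.eq_zero_or_succ c with rfl | ⟨d, rfl⟩
    · rw [add_zero] at hc
      rw [hc] at h
      have h2 : (n + n) + 0 = (n + n) + 1 := by rw [add_zero]; exact h
      have h3 := add_left_cancel h2
      rw [INat.one_def] at h3
      exact INat.succ_ne_zero _ h3.symm
    · rw [hc, INat.succ_eq] at h
      have h2 : ((n + n) + 1) + ((d + d) + 1) = ((n + n) + 1) + 0 := by
        rw [add_zero]
        refine Eq.trans ?_ h
        ring
      have h3 := add_left_cancel h2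
      rw [← INat.succ_eq] at h3
      exact INat.succ_ne_zero _ h3

/-! ### Injective sequences -/

theorem int_isSq : Int M (fun f : IFun M (INat M) α => ∀ m n, f m = f n → m = n) := by (repeat' (first | with_reducible exact IntF.id | with_reducible exact IntF.fst' | with_reducible exact IntF.snd' | with_reducible exact IntF.const _ | with_reducible exact Int.const _ | assumption | with_reducible apply Int.and | with_reducible apply Int.or | with_reducible apply Int.not | with_reducible apply Int.imp | with_reducible apply Int.iff | with_reducible apply Int.ne | with_reducible apply Int.eq | with_reducible apply Int.mem | with_reducible apply Int.subset | with_reducible apply Int.ltN | with_reducible apply Int.leN | with_reducible apply Int.fin | with_reducible apply Int.unique | with_reducible apply Int.all | with_reducible apply Int.ex | with_reducible apply IntF.fst | with_reducible apply IntF.snd | with_reducible apply IntF.app | with_reducible apply IntF.ite | with_reducible apply IntF.sep | with_reducible apply IntF.lam | with_reducible apply IntF.insert | with_reducible apply IntF.singleton | with_reducible apply IntF.union | with_reducible apply IntF.inter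 | with_reducible apply IntF.sdiff | with_reducible apply IntF.isUnion | with_reducible apply IntF.iimage | with_reducible apply IntF.the | with_reducible apply IntF.irec | with_reducible_and_instances apply IntF.add | with_reducible_and_instances apply IntF.mul | with_reducible apply IntF.succ | with_reducible apply IntF.val | (with_reducible refine Int.comp ?_ ?_; assumption) | (with_reducible refine Int.comp₂ ?_ ?_ ?_; assumption) | (with_reducible refine Int.comp₃ ?_ ?_ ?_ ?_; assumption) | (with_reducible refine IntF.comp ?_ ?_; assumption) | (with_reducible refine IntF.comp₂ ?_ ?_ ?_; assumption) | (with_reducible refine IntF.comp₃ ?_ ?_ ?_ ?_; assumption) | with_reducible apply IntF.pair))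

instance instFactSq : Fact (Int M (fun f : IFun M (INat M) α => ∀ m n, f m = f n → m = n)) :=
  ⟨int_isSq⟩

variable (M α) in
/-- Injective sequences. -/
abbrev ISq : Type _ := {f : IFun M (INat M) α // ∀ m n, f m = f n → m = n}

/-- Sets of sequences with pairwise disjoint ranges. -/
def Vld (E : IPow M (ISq M α)) : Prop :=
  ∀ e e' m n, e ∈ E → e' ∈ E → e.1 m = e'.1 n → e = e'

theorem int_Vld : Int M (fun E : IPow M (ISq M α) => Vld E) := by
  unfold Vld
  (repeat' (first | with_reducible exact IntF.id | with_reducible exact IntF.fst' | with_reducible exact IntF.snd' | with_reducible exact IntF.const _ | with_reducible exact Int.const _ | assumption | with_reducible apply Int.and | with_reducible apply Int.or | with_reducible apply Int.not | with_reducible apply Int.imp | with_reducible apply Int.iff | with_reducible apply Int.ne | with_reducible apply Int.eq | with_reducible apply Int.mem | with_reducible apply Int.subset | with_reducible apply Int.ltN | with_reducible apply Int.leN | with_reducible apply Int.fin | with_reducible apply Int.unique | with_reducible apply Int.all | with_reducible apply Int.ex | with_reducible apply IntF.fst | with_reducible apply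 IntF.snd | with_reducible apply IntF.app | with_reducible apply IntF.ite | with_reducible apply IntF.sep | with_reducible apply IntF.lam | with_reducible apply IntF.insert | with_reducible apply IntF.singleton | with_reducible apply IntF.union | with_reducible apply IntF.inter | with_reducible apply IntF.sdiff | with_reducible apply IntF.isUnion | with_reducible apply IntF.iimage | with_reducible apply IntF.the | with_reducible apply IntF.irec | with_reducible_and_instances apply IntF.add | with_reducible_and_instances apply IntF.mul | with_reducible apply IntF.succ | with_reducible apply IntF.val | (with_reducible refine Int.comp ?_ ?_; assumption) | (with_reducible refine Int.comp₂ ?_ ?_ ?_; assumption) | (with_reducible refine Int.comp₃ ?_ ?_ ?_ ?_; assumption) | (with_reducible refine IntF.comp ?_ ?_; assumption) | (with_reducible refine IntF.comp₂ ?_ ?_ ?_; assumption) | (with_reducible refine IntF.comp₃ ?_ ?_ ?_ ?_; assumption) | with_reducible apply IntF.pair))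

/-- The swapping relation. -/
def Sw (E : IPow M (ISq M α)) (D : IPow M (INat M × ISq M α)) (x y : α) : Prop :=
  ∃ e n, e ∈ E ∧ (n, e) ∈ D ∧
    ((x = e.1 (n + n) ∧ y = e.1 (INat.succ (n + n))) ∨
      (x = e.1 (INat.succ (n + n)) ∧ y = e.1 (n + n)))

/-- The swapping function. -/
noncomputable def swf (E : IPow M (ISq M α)) (D : IPow M (INat M × ISq M α)) (x : α) : α :=
  the (fun y => Sw E D x y) x

theorem int_swf : IntF M (fun q : (IPow M (ISq M α) × IPow M (INat M × ISq M α)) × α =>
    swf q.1.1 q.1.2 q.2) := by
  unfold swf Sw
  (repeat' (first | with_reducible exact IntF.id | with_reducible exact IntF.fst' | with_reducible exact IntF.snd' | with_reducible exact IntF.const _ | with_reducible exact Int.const _ | assumption | with_reducible apply Int.and | with_reducible apply Int.or | with_reducible apply Int.not | with_reducible apply Int.imp | with_reducible apply Int.iff | with_reducible apply Int.ne | with_reducible apply Int.eq | with_reducible apply Int.mem | with_reducible apply Int.subset | with_reducible apply Int.ltN | with_reducible apply Int.leN | with_reducible apply Int.fin | with_reducible apply Int.unique | with_reducible apply Int.all | with_reducible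 apply Int.ex | with_reducible apply IntF.fst | with_reducible apply IntF.snd | with_reducible apply IntF.app | with_reducible apply IntF.ite | with_reducible apply IntF.sep | with_reducible apply IntF.lam | with_reducible apply IntF.insert | with_reducible apply IntF.singleton | with_reducible apply IntF.union | with_reducible apply IntF.inter | with_reducible apply IntF.sdiff | with_reducible apply IntF.isUnion | with_reducible apply IntF.iimage | with_reducible apply IntF.the | with_reducible apply IntF.irec | with_reducible_and_instances apply IntF.add | with_reducible_and_instances apply IntF.mul | with_reducible apply IntF.succ | with_reducible apply IntF.val | (with_reducible refine Int.comp ?_ ?_; assumption) | (with_reducible refine Int.comp₂ ?_ ?_ ?_; assumption) | (with_reducible refine Int.comp₃ ?_ ?_ ?_ ?_; assumption) | (with_reducible refine IntF.comp ?_ ?_; assumption) | (with_reducible refine IntF.comp₂ ?_ ?_ ?_; assumption) | (with_reducible refine IntF.comp₃ ?_ ?_ ?_ ?_; assumption) | with_reducible apply IntF.pair))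

theorem Sw.symm {E : IPow M (ISq M α)} {D : IPow M (INat M × ISq M α)} {x y : α}
    (h : Sw E D x y) : Sw E D y x := by
  obtain ⟨e, n, h1, h2, h3⟩ := h
  exact ⟨e, n, h1, h2, h3.elim (fun h => Or.inr ⟨h.2, h.1⟩) fun h => Or.inl ⟨h.2, h.1⟩⟩

theorem Sw.unique {E : IPow M (ISq M α)} (hE : Vld E) {D : IPow M (INat M × ISq M α)}
    {x y y' : α} (h : Sw E D x y) (h' : Sw E D x y') : y = y' := by
  obtain ⟨e, n, h1, h2, h3⟩ := h
  obtain ⟨e', n', h1', h2', h3'⟩ := h'
  rcases h3 with ⟨h3, h4⟩ | ⟨h3, h4⟩ <;> rcases h3' with ⟨h3', h4'⟩ | ⟨h3', h4'⟩
  · rw [h3] at h3'
    obtain rfl := hE _ _ _ _ h1 h1' h3'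
    obtain rfl := dbl_inj (e.2 _ _ h3')
    rw [h4, h4']
  · rw [h3] at h3'
    obtain rfl := hE _ _ _ _ h1 h1' h3'
    exact absurd (e.2 _ _ h3') dbl_ne
  · rw [h3] at h3'
    obtain rfl := hE _ _ _ _ h1 h1' h3'
    exact absurd (e.2 _ _ h3').symm dbl_ne
  · rw [h3] at h3'
    obtain rfl := hE _ _ _ _ h1 h1' h3'
    obtain rfl := dbl_inj (INat.succ_inj (e.2 _ _ h3'))
    rw [h4, h4']

theorem swf_eq {E : IPow M (ISq M α)} (hE : Vld E) {D : IPow M (INat M × ISq M α)}
    {x y : α} (h : Sw E D x y) : swf E D x = y :=
  the_eq ⟨y, h, fun _ h' => Sw.unique hE h' h⟩ h

theorem swf_eq' {E : IPow M (ISq M α)} {D : IPow M (INat M × ISq M α)}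
    {x : α} (h : ∀ y, ¬ Sw E D x y) : swf E D x = x := by
  unfold swf the
  rw [dif_neg]
  rintro ⟨y, h1, _⟩
  exact h y h1

theorem swf_swf {E : IPow M (ISq M α)} (hE : Vld E) {D : IPow M (INat M × ISq M α)}
    (x : α) : swf E D (swf E D x) = x := by
  by_cases h : ∃ y, Sw E D x y
  · obtain ⟨y, h⟩ := h
    rw [swf_eq hE h, swf_eq hE h.symm]
  · push Not at h
    rw [swf_eq' h, swf_eq' h]

/-- The swapping permutation. -/
noncomputable def swp (E : IPow M (ISq M α)) (D : IPow M (INat M × ISq M α)) : IPm M α :=
  the (fun σ : IPm M α => ∀ x, σ.1 x = swf E D x) (IPm.one M α)

theorem int_swp : IntF M (fun q : IPow M (ISq M α) × IPow M (INat M × ISq M α) =>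
    swp q.1 q.2) := by
  have h := int_swf (M := M) (α := α)
  unfold swp
  (repeat' (first | with_reducible exact IntF.id | with_reducible exact IntF.fst' | with_reducible exact IntF.snd' | with_reducible exact IntF.const _ | with_reducible exact Int.const _ | assumption | with_reducible apply Int.and | with_reducible apply Int.or | with_reducible apply Int.not | with_reducible apply Int.imp | with_reducible apply Int.iff | with_reducible apply Int.ne | with_reducible apply Int.eq | with_reducible apply Int.mem | with_reducible apply Int.subset | with_reducible apply Int.ltN | with_reducible apply Int.leN | with_reducible apply Int.fin | with_reducible apply Int.unique | with_reducible apply Int.all | with_reducible apply Int.ex | with_reducible apply IntF.fst | with_reducible apply IntF.snd | with_reducible apply IntF.app | with_reducible apply IntF.ite | with_reducible apply IntF.sep | with_reducible apply IntF.lam | with_reducible apply IntF.insert | with_reducible apply IntF.singleton | with_reducible apply IntF.union | with_reducible apply IntF.inter | with_reducible apply IntF.sdiff | with_reducible apply IntF.isUnion | with_reducible apply IntF.iimage | with_reducible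 apply IntF.the | with_reducible apply IntF.irec | with_reducible_and_instances apply IntF.add | with_reducible_and_instances apply IntF.mul | with_reducible apply IntF.succ | with_reducible apply IntF.val | (with_reducible refine Int.comp ?_ ?_; assumption) | (with_reducible refine Int.comp₂ ?_ ?_ ?_; assumption) | (with_reducible refine Int.comp₃ ?_ ?_ ?_ ?_; assumption) | (with_reducible refine IntF.comp ?_ ?_; assumption) | (with_reducible refine IntF.comp₂ ?_ ?_ ?_; assumption) | (with_reducible refine IntF.comp₃ ?_ ?_ ?_ ?_; assumption) | with_reducible apply IntF.pair))

theorem swp_apply {E : IPow M (ISq M α)} (hE : Vld E) (D : IPow M (INat M × ISq M α)) (x : α) :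
    (swp E D).1 x = swf E D x := by
  have hi : IntF M (fun x => swf E D x) :=
    IntF.comp₃ (p := fun (E : IPow M (ISq M α)) D x => swf E D x) int_swf (IntF.const E)
      (IntF.const D) IntF.id
  have h : ∃! σ : IPm M α, ∀ x, σ.1 x = swf E D x := by
    refine ⟨IPm.of (fun x => swf E D x) hi (fun a b hab => ?_) fun b => ⟨_, swf_swf hE b⟩,
      fun x => rfl, fun σ hσ => IPm.ext fun x => hσ x⟩
    rw [← swf_swf hE (D := D) a, hab, swf_swf hE]
  exact the_spec (p := fun σ : IPm M α => ∀ x, σ.1 x = swf E D x) h x

theorem swp_moves {E : IPow M (ISq M α)} (hE : Vld E) (D : IPow M (INat M × ISq M α))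
    {e : ISq M α} (he : e ∈ E) (n : INat M) :
    (swp E D).1 (e.1 (n + n)) ≠ e.1 (n + n) ↔ (n, e) ∈ D := by
  rw [swp_apply hE]
  constructor
  · intro h
    by_contra hn
    refine h (swf_eq' fun y hy => ?_)
    obtain ⟨e', n', h1, h2, h3⟩ := hy
    rcases h3 with ⟨h3, _⟩ | ⟨h3, _⟩
    · obtain rfl := hE _ _ _ _ he h1 h3
      obtain rfl := dbl_inj (e.2 _ _ h3)
      exact hn h2
    · obtain rfl := hE _ _ _ _ he h1 h3
      exact absurd (e.2 _ _ h3) dbl_ne
  · intro h
    have h1 : swf E D (e.1 (n + n)) = e.1 (INat.succ (n + n)) :=
      swf_eq hE ⟨e, n, he, h, Or.inl ⟨rfl, rfl⟩⟩
    rw [h1]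
    intro h2
    exact dbl_ne (e.2 _ _ h2).symm

section

variable {i : IPm M α → INat M × α}

/-- The block function. -/
noncomputable def blk (m l j : INat M) : INat M := pr (pr m l) j

theorem int_blk : IntF M (fun q : (INat M × INat M) × INat M => blk q.1.1 q.1.2 q.2) := by
  have hp := int_pr (M := M)
  unfold blk
  (repeat' (first | with_reducible exact IntF.id | with_reducible exact IntF.fst' | with_reducible exact IntF.snd' | with_reducible exact IntF.const _ | with_reducible exact Int.const _ | assumption | with_reducible apply Int.and | with_reducible apply Int.or | with_reducible apply Int.not | with_reducible apply Int.imp | with_reducible apply Int.iff | with_reducible apply Int.ne | with_reducible apply Int.eq | with_reducible apply Int.mem | with_reducible apply Int.subset | with_reducible apply Int.ltN | with_reducible apply Int.leN | with_reducible apply Int.fin | with_reducible apply Int.unique | with_reducible apply Int.all | with_reducible apply Int.ex | with_reducible apply IntF.fst | with_reducible apply IntF.snd | with_reducible apply IntF.app | with_reducible apply IntF.ite | with_reducible apply IntF.sep | with_reducible apply IntF.lam | with_reducible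 apply IntF.insert | with_reducible apply IntF.singleton | with_reducible apply IntF.union | with_reducible apply IntF.inter | with_reducible apply IntF.sdiff | with_reducible apply IntF.isUnion | with_reducible apply IntF.iimage | with_reducible apply IntF.the | with_reducible apply IntF.irec | with_reducible_and_instances apply IntF.add | with_reducible_and_instances apply IntF.mul | with_reducible apply IntF.succ | with_reducible apply IntF.val | (with_reducible refine Int.comp ?_ ?_; assumption) | (with_reducible refine Int.comp₂ ?_ ?_ ?_; assumption) | (with_reducible refine Int.comp₃ ?_ ?_ ?_ ?_; assumption) | (with_reducible refine IntF.comp ?_ ?_; assumption) | (with_reducible refine IntF.comp₂ ?_ ?_ ?_; assumption) | (with_reducible refine IntF.comp₃ ?_ ?_ ?_ ?_; assumption) | with_reducible apply IntF.pair))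

theorem blk_inj {m l j m' l' j' : INat M} (h : blk m l j = blk m' l' j') :
    m = m' ∧ l = l' ∧ j = j' := by
  obtain ⟨h1, h2⟩ := pr_inj h
  obtain ⟨h3, h4⟩ := pr_inj h1
  exact ⟨h3, h4, h2⟩

/-- The permutations with value `(m, e l)` do not have the pattern `k`. -/
def Aw (i : IPm M α → INat M × α) (e : ISq M α) (m l k : INat M) : Prop :=
  ∀ σ : IPm M α, i σ = (m, e.1 l) → ¬ ∀ j,
    (σ.1 (e.1 (blk m l j + blk m l j)) ≠ e.1 (blk m l j + blk m l j) ↔ j = k)

/-- The least such `k`. -/
def LAw (i : IPm M α → INat M × α) (e : ISq M α) (m l k : INat M) : Prop :=
  Aw i e m l k ∧ ∀ k', Aw i e m l k' → k ≤ k'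

theorem int_Aw (hi : IntF M i) :
    Int M (fun q : ((ISq M α × INat M) × INat M) × INat M => Aw i q.1.1.1 q.1.1.2 q.1.2 q.2) := by
  have hb := int_blk (M := M)
  unfold Aw
  (repeat' (first | with_reducible exact IntF.id | with_reducible exact IntF.fst' | with_reducible exact IntF.snd' | with_reducible exact IntF.const _ | with_reducible exact Int.const _ | assumption | with_reducible apply Int.and | with_reducible apply Int.or | with_reducible apply Int.not | with_reducible apply Int.imp | with_reducible apply Int.iff | with_reducible apply Int.ne | with_reducible apply Int.eq | with_reducible apply Int.mem | with_reducible apply Int.subset | with_reducible apply Int.ltN | with_reducible apply Int.leN | with_reducible apply Int.fin | with_reducible apply Int.unique | with_reducible apply Int.all | with_reducible apply Int.ex | with_reducible apply IntF.fst | with_reducible apply IntF.snd | with_reducible apply IntF.app | with_reducible apply IntF.ite | with_reducible apply IntF.sep | with_reducible apply IntF.lam | with_reducible apply IntF.insert | with_reducible apply IntF.singleton | with_reducible apply IntF.union | with_reducible apply IntF.inter | with_reducible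 apply IntF.sdiff | with_reducible apply IntF.isUnion | with_reducible apply IntF.iimage | with_reducible apply IntF.the | with_reducible apply IntF.irec | with_reducible_and_instances apply IntF.add | with_reducible_and_instances apply IntF.mul | with_reducible apply IntF.succ | with_reducible apply IntF.val | (with_reducible refine Int.comp ?_ ?_; assumption) | (with_reducible refine Int.comp₂ ?_ ?_ ?_; assumption) | (with_reducible refine Int.comp₃ ?_ ?_ ?_ ?_; assumption) | (with_reducible refine IntF.comp ?_ ?_; assumption) | (with_reducible refine IntF.comp₂ ?_ ?_ ?_; assumption) | (with_reducible refine IntF.comp₃ ?_ ?_ ?_ ?_; assumption) | with_reducible apply IntF.pair))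

theorem int_LAw (hi : IntF M i) :
    Int M (fun q : ((ISq M α × INat M) × INat M) × INat M => LAw i q.1.1.1 q.1.1.2 q.1.2 q.2) := by
  have hA := int_Aw hi
  unfold LAw
  refine Int.and hA (Int.all (Int.imp (Int.comp₄ hA ?_ ?_ ?_ ?_) ?_)) <;> (repeat' (first | with_reducible exact IntF.id | with_reducible exact IntF.fst' | with_reducible exact IntF.snd' | with_reducible exact IntF.const _ | with_reducible exact Int.const _ | assumption | with_reducible apply Int.and | with_reducible apply Int.or | with_reducible apply Int.not | with_reducible apply Int.imp | with_reducible apply Int.iff | with_reducible apply Int.ne | with_reducible apply Int.eq | with_reducible apply Int.mem | with_reducible apply Int.subset | with_reducible apply Int.ltN | with_reducible apply Int.leN | with_reducible apply Int.fin | with_reducible apply Int.unique | with_reducible apply Int.all | with_reducible apply Int.ex | with_reducible apply IntF.fst | with_reducible apply IntF.snd | with_reducible apply IntF.app | with_reducible apply IntF.ite | with_reducible apply IntF.sep | with_reducible apply IntF.lam | with_reducible apply IntF.insert | with_reducible apply IntF.singleton | with_reducible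 apply IntF.union | with_reducible apply IntF.inter | with_reducible apply IntF.sdiff | with_reducible apply IntF.isUnion | with_reducible apply IntF.iimage | with_reducible apply IntF.the | with_reducible apply IntF.irec | with_reducible_and_instances apply IntF.add | with_reducible_and_instances apply IntF.mul | with_reducible apply IntF.succ | with_reducible apply IntF.val | (with_reducible refine Int.comp ?_ ?_; assumption) | (with_reducible refine Int.comp₂ ?_ ?_ ?_; assumption) | (with_reducible refine Int.comp₃ ?_ ?_ ?_ ?_; assumption) | (with_reducible refine IntF.comp ?_ ?_; assumption) | (with_reducible refine IntF.comp₂ ?_ ?_ ?_; assumption) | (with_reducible refine IntF.comp₃ ?_ ?_ ?_ ?_; assumption) | with_reducible apply IntF.pair))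

theorem exists_LAw (hi : IntF M i) (hfib : ∀ q, FinP M (fun σ => i σ = q)) (e : ISq M α)
    (m l : INat M) : ∃ k, LAw i e m l k := by
  have hb := int_blk (M := M)
  have hA := int_Aw hi
  refine INat.exists_least (p := fun k => Aw i e m l k) (by
    unfold Aw
    (repeat' (first | with_reducible exact IntF.id | with_reducible exact IntF.fst' | with_reducible exact IntF.snd' | with_reducible exact IntF.const _ | with_reducible exact Int.const _ | assumption | with_reducible apply Int.and | with_reducible apply Int.or | with_reducible apply Int.not | with_reducible apply Int.imp | with_reducible apply Int.iff | with_reducible apply Int.ne | with_reducible apply Int.eq | with_reducible apply Int.mem | with_reducible apply Int.subset | with_reducible apply Int.ltN | with_reducible apply Int.leN | with_reducible apply Int.fin | with_reducible apply Int.unique | with_reducible apply Int.all | with_reducible apply Int.ex | with_reducible apply IntF.fst | with_reducible apply IntF.snd | with_reducible apply IntF.app | with_reducible apply IntF.ite | with_reducible apply IntF.sep | with_reducible apply IntF.lam | with_reducible apply IntF.insert | with_reducible apply IntF.singleton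 | with_reducible apply IntF.union | with_reducible apply IntF.inter | with_reducible apply IntF.sdiff | with_reducible apply IntF.isUnion | with_reducible apply IntF.iimage | with_reducible apply IntF.the | with_reducible apply IntF.irec | with_reducible_and_instances apply IntF.add | with_reducible_and_instances apply IntF.mul | with_reducible apply IntF.succ | with_reducible apply IntF.val | (with_reducible refine Int.comp ?_ ?_; assumption) | (with_reducible refine Int.comp₂ ?_ ?_ ?_; assumption) | (with_reducible refine Int.comp₃ ?_ ?_ ?_ ?_; assumption) | (with_reducible refine IntF.comp ?_ ?_; assumption) | (with_reducible refine IntF.comp₂ ?_ ?_ ?_; assumption) | (with_reducible refine IntF.comp₃ ?_ ?_ ?_ ?_; assumption) | with_reducible apply IntF.pair))) ?_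
  by_contra h
  have hf : IntF M (fun σ : IPm M α => the (fun k => ∀ j,
      (σ.1 (e.1 (blk m l j + blk m l j)) ≠ e.1 (blk m l j + blk m l j) ↔ j = k)) 0) := by (repeat' (first | with_reducible exact IntF.id | with_reducible exact IntF.fst' | with_reducible exact IntF.snd' | with_reducible exact IntF.const _ | with_reducible exact Int.const _ | assumption | with_reducible apply Int.and | with_reducible apply Int.or | with_reducible apply Int.not | with_reducible apply Int.imp | with_reducible apply Int.iff | with_reducible apply Int.ne | with_reducible apply Int.eq | with_reducible apply Int.mem | with_reducible apply Int.subset | with_reducible apply Int.ltN | with_reducible apply Int.leN | with_reducible apply Int.fin | with_reducible apply Int.unique | with_reducible apply Int.all | with_reducible apply Int.ex | with_reducible apply IntF.fst | with_reducible apply IntF.snd | with_reducible apply IntF.app | with_reducible apply IntF.ite | with_reducible apply IntF.sep | with_reducible apply IntF.lam | with_reducible apply IntF.insert | with_reducible apply IntF.singleton | with_reducible apply IntF.union | with_reducible apply IntF.inter | with_reducible apply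 IntF.sdiff | with_reducible apply IntF.isUnion | with_reducible apply IntF.iimage | with_reducible apply IntF.the | with_reducible apply IntF.irec | with_reducible_and_instances apply IntF.add | with_reducible_and_instances apply IntF.mul | with_reducible apply IntF.succ | with_reducible apply IntF.val | (with_reducible refine Int.comp ?_ ?_; assumption) | (with_reducible refine Int.comp₂ ?_ ?_ ?_; assumption) | (with_reducible refine Int.comp₃ ?_ ?_ ?_ ?_; assumption) | (with_reducible refine IntF.comp ?_ ?_; assumption) | (with_reducible refine IntF.comp₂ ?_ ?_ ?_; assumption) | (with_reducible refine IntF.comp₃ ?_ ?_ ?_ ?_; assumption) | with_reducible apply IntF.pair))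
  refine not_finP_nat (M := M) (((hfib (m, e.1 l)).image hf).mono fun k _ => ?_)
  have h1 : ¬ Aw i e m l k := fun h1 => h ⟨k, h1⟩
  unfold Aw at h1
  push Not at h1
  obtain ⟨σ, h2, h3⟩ := h1
  refine ⟨σ, h2, the_eq ⟨k, h3, fun k' hk' => ?_⟩ h3⟩
  exact (h3 k').1 ((hk' k').2 rfl)

/-- The diagonal set. -/
noncomputable def dgw (i : IPm M α → INat M × α) : IPow M (INat M × ISq M α) :=
  sep M fun q => ∃ m l k, q.1 = blk m l k ∧ LAw i q.2 m l k

theorem mem_dgw (hi : IntF M i) {m l k : INat M} {e : ISq M α} :
    (blk m l k, e) ∈ dgw i ↔ LAw i e m l k := by
  have hb := int_blk (M := M)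
  have hL := int_LAw hi
  have hI : Int M (fun q : INat M × ISq M α => ∃ m l k, q.1 = blk m l k ∧ LAw i q.2 m l k) := by
    refine Int.ex (Int.ex (Int.ex (Int.and ?_ (Int.comp₄ hL ?_ ?_ ?_ ?_)))) <;> (repeat' (first | with_reducible exact IntF.id | with_reducible exact IntF.fst' | with_reducible exact IntF.snd' | with_reducible exact IntF.const _ | with_reducible exact Int.const _ | assumption | with_reducible apply Int.and | with_reducible apply Int.or | with_reducible apply Int.not | with_reducible apply Int.imp | with_reducible apply Int.iff | with_reducible apply Int.ne | with_reducible apply Int.eq | with_reducible apply Int.mem | with_reducible apply Int.subset | with_reducible apply Int.ltN | with_reducible apply Int.leN | with_reducible apply Int.fin | with_reducible apply Int.unique | with_reducible apply Int.all | with_reducible apply Int.ex | with_reducible apply IntF.fst | with_reducible apply IntF.snd | with_reducible apply IntF.app | with_reducible apply IntF.ite | with_reducible apply IntF.sep | with_reducible apply IntF.lam | with_reducible apply IntF.insert | with_reducible apply IntF.singleton | with_reducible apply IntF.union | with_reducible apply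 IntF.inter | with_reducible apply IntF.sdiff | with_reducible apply IntF.isUnion | with_reducible apply IntF.iimage | with_reducible apply IntF.the | with_reducible apply IntF.irec | with_reducible_and_instances apply IntF.add | with_reducible_and_instances apply IntF.mul | with_reducible apply IntF.succ | with_reducible apply IntF.val | (with_reducible refine Int.comp ?_ ?_; assumption) | (with_reducible refine Int.comp₂ ?_ ?_ ?_; assumption) | (with_reducible refine Int.comp₃ ?_ ?_ ?_ ?_; assumption) | (with_reducible refine IntF.comp ?_ ?_; assumption) | (with_reducible refine IntF.comp₂ ?_ ?_ ?_; assumption) | (with_reducible refine IntF.comp₃ ?_ ?_ ?_ ?_; assumption) | with_reducible apply IntF.pair))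
  unfold dgw
  rw [mem_sep hI]
  constructor
  · rintro ⟨m', l', k', h1, h2⟩
    obtain ⟨rfl, rfl, rfl⟩ := blk_inj h1
    exact h2
  · intro h1
    exact ⟨m, l, k, rfl, h1⟩

/-- The new element. -/
noncomputable def nel (i : IPm M α → INat M × α) (E : IPow M (ISq M α)) : α :=
  (i (swp E (dgw i))).2

theorem int_nel (hi : IntF M i) : IntF M (fun E : IPow M (ISq M α) => nel i E) := by
  have hs := int_swp (M := M) (α := α)
  unfold nel
  (repeat' (first | with_reducible exact IntF.id | with_reducible exact IntF.fst' | with_reducible exact IntF.snd' | with_reducible exact IntF.const _ | with_reducible exact Int.const _ | assumption | with_reducible apply Int.and | with_reducible apply Int.or | with_reducible apply Int.not | with_reducible apply Int.imp | with_reducible apply Int.iff | with_reducible apply Int.ne | with_reducible apply Int.eq | with_reducible apply Int.mem | with_reducible apply Int.subset | with_reducible apply Int.ltN | with_reducible apply Int.leN | with_reducible apply Int.fin | with_reducible apply Int.unique | with_reducible apply Int.all | with_reducible apply Int.ex | with_reducible apply IntF.fst | with_reducible apply IntF.snd | with_reducible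 apply IntF.app | with_reducible apply IntF.ite | with_reducible apply IntF.sep | with_reducible apply IntF.lam | with_reducible apply IntF.insert | with_reducible apply IntF.singleton | with_reducible apply IntF.union | with_reducible apply IntF.inter | with_reducible apply IntF.sdiff | with_reducible apply IntF.isUnion | with_reducible apply IntF.iimage | with_reducible apply IntF.the | with_reducible apply IntF.irec | with_reducible_and_instances apply IntF.add | with_reducible_and_instances apply IntF.mul | with_reducible apply IntF.succ | with_reducible apply IntF.val | (with_reducible refine Int.comp ?_ ?_; assumption) | (with_reducible refine Int.comp₂ ?_ ?_ ?_; assumption) | (with_reducible refine Int.comp₃ ?_ ?_ ?_ ?_; assumption) | (with_reducible refine IntF.comp ?_ ?_; assumption) | (with_reducible refine IntF.comp₂ ?_ ?_ ?_; assumption) | (with_reducible refine IntF.comp₃ ?_ ?_ ?_ ?_; assumption) | with_reducible apply IntF.pair))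

theorem nel_new (hi : IntF M i) (hfib : ∀ q, FinP M (fun σ => i σ = q)) {E : IPow M (ISq M α)}
    (hE : Vld E) {e : ISq M α} (he : e ∈ E) (l : INat M) : nel i E ≠ e.1 l := by
  intro h
  obtain ⟨k, hk⟩ := exists_LAw hi hfib e (i (swp E (dgw i))).1 l
  refine hk.1 (swp E (dgw i)) (Prod.ext rfl h) fun j => ?_
  rw [swp_moves hE _ he, mem_dgw hi]
  exact ⟨fun h => le_antisymm (h.2 k hk.1) (hk.2 j h.1), fun h => h ▸ hk⟩

/-- Adding an element in front of a sequence. -/
noncomputable def cns (x : α) (g : ISq M α) : ISq M α :=
  the (fun g' : ISq M α => g'.1 0 = x ∧ ∀ n, g'.1 (INat.succ n) = g.1 n) g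

theorem int_cns : IntF M (fun q : α × ISq M α => cns q.1 q.2) := by
  unfold cns
  (repeat' (first | with_reducible exact IntF.id | with_reducible exact IntF.fst' | with_reducible exact IntF.snd' | with_reducible exact IntF.const _ | with_reducible exact Int.const _ | assumption | with_reducible apply Int.and | with_reducible apply Int.or | with_reducible apply Int.not | with_reducible apply Int.imp | with_reducible apply Int.iff | with_reducible apply Int.ne | with_reducible apply Int.eq | with_reducible apply Int.mem | with_reducible apply Int.subset | with_reducible apply Int.ltN | with_reducible apply Int.leN | with_reducible apply Int.fin | with_reducible apply Int.unique | with_reducible apply Int.all | with_reducible apply Int.ex | with_reducible apply IntF.fst | with_reducible apply IntF.snd | with_reducible apply IntF.app | with_reducible apply IntF.ite | with_reducible apply IntF.sep | with_reducible apply IntF.lam | with_reducible apply IntF.insert | with_reducible apply IntF.singleton | with_reducible apply IntF.union | with_reducible apply IntF.inter | with_reducible apply IntF.sdiff | with_reducible apply IntF.isUnion | with_reducible apply IntF.iimage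 | with_reducible apply IntF.the | with_reducible apply IntF.irec | with_reducible_and_instances apply IntF.add | with_reducible_and_instances apply IntF.mul | with_reducible apply IntF.succ | with_reducible apply IntF.val | (with_reducible refine Int.comp ?_ ?_; assumption) | (with_reducible refine Int.comp₂ ?_ ?_ ?_; assumption) | (with_reducible refine Int.comp₃ ?_ ?_ ?_ ?_; assumption) | (with_reducible refine IntF.comp ?_ ?_; assumption) | (with_reducible refine IntF.comp₂ ?_ ?_ ?_; assumption) | (with_reducible refine IntF.comp₃ ?_ ?_ ?_ ?_; assumption) | with_reducible apply IntF.pair))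

theorem cns_spec {x : α} {g : ISq M α} (hx : ∀ n, g.1 n ≠ x) :
    (cns x g).1 0 = x ∧ ∀ n, (cns x g).1 (INat.succ n) = g.1 n := by
  have h0 : IntF M (fun n : INat M => the (fun y => (n = 0 ∧ y = x) ∨
    ∃ m, n = INat.succ m ∧ y = g.1 m) x) := by (repeat' (first | with_reducible exact IntF.id | with_reducible exact IntF.fst' | with_reducible exact IntF.snd' | with_reducible exact IntF.const _ | with_reducible exact Int.const _ | assumption | with_reducible apply Int.and | with_reducible apply Int.or | with_reducible apply Int.not | with_reducible apply Int.imp | with_reducible apply Int.iff | with_reducible apply Int.ne | with_reducible apply Int.eq | with_reducible apply Int.mem | with_reducible apply Int.subset | with_reducible apply Int.ltN | with_reducible apply Int.leN | with_reducible apply Int.fin | with_reducible apply Int.unique | with_reducible apply Int.all | with_reducible apply Int.ex | with_reducible apply IntF.fst | with_reducible apply IntF.snd | with_reducible apply IntF.app | with_reducible apply IntF.ite | with_reducible apply IntF.sep | with_reducible apply IntF.lam | with_reducible apply IntF.insert | with_reducible apply IntF.singleton | with_reducible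 apply IntF.union | with_reducible apply IntF.inter | with_reducible apply IntF.sdiff | with_reducible apply IntF.isUnion | with_reducible apply IntF.iimage | with_reducible apply IntF.the | with_reducible apply IntF.irec | with_reducible_and_instances apply IntF.add | with_reducible_and_instances apply IntF.mul | with_reducible apply IntF.succ | with_reducible apply IntF.val | (with_reducible refine Int.comp ?_ ?_; assumption) | (with_reducible refine Int.comp₂ ?_ ?_ ?_; assumption) | (with_reducible refine Int.comp₃ ?_ ?_ ?_ ?_; assumption) | (with_reducible refine IntF.comp ?_ ?_; assumption) | (with_reducible refine IntF.comp₂ ?_ ?_ ?_; assumption) | (with_reducible refine IntF.comp₃ ?_ ?_ ?_ ?_; assumption) | with_reducible apply IntF.pair))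
  have h1 : the (fun y => ((0 : INat M) = 0 ∧ y = x) ∨ ∃ m, (0 : INat M) = INat.succ m ∧
      y = g.1 m) x = x := by
    refine the_eq ⟨x, Or.inl ⟨rfl, rfl⟩, ?_⟩ (Or.inl ⟨rfl, rfl⟩)
    rintro y (⟨_, h⟩ | ⟨m, h, _⟩)
    · exact h
    · exact absurd h.symm (INat.succ_ne_zero m)
  have h2 : ∀ n : INat M, the (fun y => (INat.succ n = 0 ∧ y = x) ∨
      ∃ m, INat.succ n = INat.succ m ∧ y = g.1 m) x = g.1 n := by
    intro n
    refine the_eq ⟨g.1 n, Or.inr ⟨n, rfl, rfl⟩, ?_⟩ (Or.inr ⟨n, rfl, rfl⟩)
    rintro y (⟨h, _⟩ | ⟨m, h, h'⟩)
    · exact absurd h (INat.succ_ne_zero n)
    · rw [h', INat.succ_inj h]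
  refine the_spec (p := fun g' : ISq M α => g'.1 0 = x ∧ ∀ n, g'.1 (INat.succ n) = g.1 n) ?_
  refine ⟨⟨⟨_, h0⟩, ?_⟩, ⟨h1, h2⟩, ?_⟩
  · intro m n hmn
    change the (fun y => (m = 0 ∧ y = x) ∨ ∃ k, m = INat.succ k ∧ y = g.1 k) x =
      the (fun y => (n = 0 ∧ y = x) ∨ ∃ k, n = INat.succ k ∧ y = g.1 k) x at hmn
    rcases INat.eq_zero_or_succ m with rfl | ⟨m, rfl⟩ <;>
      rcases INat.eq_zero_or_succ n with rfl | ⟨n, rfl⟩
    · rfl
    · rw [h1, h2] at hmn
      exact absurd hmn.symm (hx n)
    · rw [h1, h2] at hmn
      exact absurd hmn (hx m)
    · rw [h2, h2] at hmn
      rw [g.2 _ _ hmn]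
  · rintro g' ⟨h3, h4⟩
    refine Subtype.ext (IFun.ext' fun n => ?_)
    change g'.1 n = the (fun y => (n = 0 ∧ y = x) ∨ ∃ k, n = INat.succ k ∧ y = g.1 k) x
    rcases INat.eq_zero_or_succ n with rfl | ⟨n, rfl⟩
    · rw [h3, h1]
    · rw [h4, h2]

/-- The stages. -/
noncomputable def stg (i : IPm M α → INat M × α) (g₀ : ISq M α) (R : IPow M (ISq M α))
    (n : INat M) : ISq M α := irec g₀ (fun _ g => cns (nel i (insert g R)) g) n

theorem int_stg (hi : IntF M i) (g₀ : ISq M α) :
    IntF M (fun q : IPow M (ISq M α) × INat M => stg i g₀ q.1 q.2) := by
  have h1 := int_nel hi
  have h2 := int_cns (M := M) (α := α)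
  unfold stg
  (repeat' (first | with_reducible exact IntF.id | with_reducible exact IntF.fst' | with_reducible exact IntF.snd' | with_reducible exact IntF.const _ | with_reducible exact Int.const _ | assumption | with_reducible apply Int.and | with_reducible apply Int.or | with_reducible apply Int.not | with_reducible apply Int.imp | with_reducible apply Int.iff | with_reducible apply Int.ne | with_reducible apply Int.eq | with_reducible apply Int.mem | with_reducible apply Int.subset | with_reducible apply Int.ltN | with_reducible apply Int.leN | with_reducible apply Int.fin | with_reducible apply Int.unique | with_reducible apply Int.all | with_reducible apply Int.ex | with_reducible apply IntF.fst | with_reducible apply IntF.snd | with_reducible apply IntF.app | with_reducible apply IntF.ite | with_reducible apply IntF.sep | with_reducible apply IntF.lam | with_reducible apply IntF.insert | with_reducible apply IntF.singleton | with_reducible apply IntF.union | with_reducible apply IntF.inter | with_reducible apply IntF.sdiff | with_reducible apply IntF.isUnion | with_reducible apply IntF.iimage | with_reducible apply IntF.the | with_reducible apply IntF.irec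 | with_reducible_and_instances apply IntF.add | with_reducible_and_instances apply IntF.mul | with_reducible apply IntF.succ | with_reducible apply IntF.val | (with_reducible refine Int.comp ?_ ?_; assumption) | (with_reducible refine Int.comp₂ ?_ ?_ ?_; assumption) | (with_reducible refine Int.comp₃ ?_ ?_ ?_ ?_; assumption) | (with_reducible refine IntF.comp ?_ ?_; assumption) | (with_reducible refine IntF.comp₂ ?_ ?_ ?_; assumption) | (with_reducible refine IntF.comp₃ ?_ ?_ ?_ ?_; assumption) | with_reducible apply IntF.pair))

theorem stg_zero (hi : IntF M i) (g₀ : ISq M α) (R : IPow M (ISq M α)) :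
    stg i g₀ R 0 = g₀ := by
  have h1 := int_nel hi
  have h2 := int_cns (M := M) (α := α)
  exact irec_zero (by (repeat' (first | with_reducible exact IntF.id | with_reducible exact IntF.fst' | with_reducible exact IntF.snd' | with_reducible exact IntF.const _ | with_reducible exact Int.const _ | assumption | with_reducible apply Int.and | with_reducible apply Int.or | with_reducible apply Int.not | with_reducible apply Int.imp | with_reducible apply Int.iff | with_reducible apply Int.ne | with_reducible apply Int.eq | with_reducible apply Int.mem | with_reducible apply Int.subset | with_reducible apply Int.ltN | with_reducible apply Int.leN | with_reducible apply Int.fin | with_reducible apply Int.unique | with_reducible apply Int.all | with_reducible apply Int.ex | with_reducible apply IntF.fst | with_reducible apply IntF.snd | with_reducible apply IntF.app | with_reducible apply IntF.ite | with_reducible apply IntF.sep | with_reducible apply IntF.lam | with_reducible apply IntF.insert | with_reducible apply IntF.singleton | with_reducible apply IntF.union | with_reducible apply IntF.inter | with_reducible apply IntF.sdiff | with_reducible apply IntF.isUnion |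 with_reducible apply IntF.iimage | with_reducible apply IntF.the | with_reducible apply IntF.irec | with_reducible_and_instances apply IntF.add | with_reducible_and_instances apply IntF.mul | with_reducible apply IntF.succ | with_reducible apply IntF.val | (with_reducible refine Int.comp ?_ ?_; assumption) | (with_reducible refine Int.comp₂ ?_ ?_ ?_; assumption) | (with_reducible refine Int.comp₃ ?_ ?_ ?_ ?_; assumption) | (with_reducible refine IntF.comp ?_ ?_; assumption) | (with_reducible refine IntF.comp₂ ?_ ?_ ?_; assumption) | (with_reducible refine IntF.comp₃ ?_ ?_ ?_ ?_; assumption) | with_reducible apply IntF.pair)))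

theorem stg_succ (hi : IntF M i) (g₀ : ISq M α) (R : IPow M (ISq M α)) (n : INat M) :
    stg i g₀ R n.succ = cns (nel i (insert (stg i g₀ R n) R)) (stg i g₀ R n) := by
  have h1 := int_nel hi
  have h2 := int_cns (M := M) (α := α)
  exact irec_succ (f := fun _ g => cns (nel i (insert g R)) g) (by (repeat' (first | with_reducible exact IntF.id | with_reducible exact IntF.fst' | with_reducible exact IntF.snd' | with_reducible exact IntF.const _ | with_reducible exact Int.const _ | assumption | with_reducible apply Int.and | with_reducible apply Int.or | with_reducible apply Int.not | with_reducible apply Int.imp | with_reducible apply Int.iff | with_reducible apply Int.ne | with_reducible apply Int.eq | with_reducible apply Int.mem | with_reducible apply Int.subset | with_reducible apply Int.ltN | with_reducible apply Int.leN | with_reducible apply Int.fin | with_reducible apply Int.unique | with_reducible apply Int.all | with_reducible apply Int.ex | with_reducible apply IntF.fst | with_reducible apply IntF.snd | with_reducible apply IntF.app | with_reducible apply IntF.ite | with_reducible apply IntF.sep | with_reducible apply IntF.lam | with_reducible apply IntF.insert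 | with_reducible apply IntF.singleton | with_reducible apply IntF.union | with_reducible apply IntF.inter | with_reducible apply IntF.sdiff | with_reducible apply IntF.isUnion | with_reducible apply IntF.iimage | with_reducible apply IntF.the | with_reducible apply IntF.irec | with_reducible_and_instances apply IntF.add | with_reducible_and_instances apply IntF.mul | with_reducible apply IntF.succ | with_reducible apply IntF.val | (with_reducible refine Int.comp ?_ ?_; assumption) | (with_reducible refine Int.comp₂ ?_ ?_ ?_; assumption) | (with_reducible refine Int.comp₃ ?_ ?_ ?_ ?_; assumption) | (with_reducible refine IntF.comp ?_ ?_; assumption) | (with_reducible refine IntF.comp₂ ?_ ?_ ?_; assumption) | (with_reducible refine IntF.comp₃ ?_ ?_ ?_ ?_; assumption) | with_reducible apply IntF.pair))) n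

/-- Disjointness. -/
def Dsj (R : IPow M (ISq M α)) (g : ISq M α) : Prop := ∀ e m n, e ∈ R → e.1 m ≠ g.1 n

theorem vld_insert {R : IPow M (ISq M α)} (hR : Vld R) {g : ISq M α} (hg : Dsj R g) :
    Vld (insert g R) := by
  intro e e' m n he he' h
  rcases mem_insert.1 he with h1 | h1 <;> rcases mem_insert.1 he' with h2 | h2
  · rw [h1, h2]
  · rw [h1] at h
    exact absurd h.symm (hg _ _ _ h2)
  · rw [h2] at h
    exact absurd h (hg _ _ _ h1)
  · exact hR _ _ _ _ h1 h2 h

theorem stg_spec (hi : IntF M i) (hfib : ∀ q, FinP M (fun σ => i σ = q)) {g₀ : ISq M α}
    {R : IPow M (ISq M α)} (hR : Vld R) (hg : Dsj R g₀) (n : INat M) :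
    Dsj R (stg i g₀ R n) ∧ (∀ k, (stg i g₀ R n).1 k ≠ nel i (insert (stg i g₀ R n) R)) ∧
      (∀ e k, e ∈ R → e.1 k ≠ nel i (insert (stg i g₀ R n) R)) := by
  have h1 := int_nel hi
  have hs := int_stg hi g₀
  have key : ∀ g, Dsj R g → (∀ k, g.1 k ≠ nel i (insert g R)) ∧
      ∀ e k, e ∈ R → e.1 k ≠ nel i (insert g R) := by
    intro g hg
    have hv := vld_insert hR hg
    exact ⟨fun k h => nel_new hi hfib hv (mem_insert.2 (Or.inl rfl)) k h.symm,
      fun e k he h => nel_new hi hfib hv (mem_insert.2 (Or.inr he)) k h.symm⟩
  have h2 : Dsj R (stg i g₀ R n) := by
    refine INat.ind (p := fun n => Dsj R (stg i g₀ R n)) (by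
      unfold Dsj
      (repeat' (first | with_reducible exact IntF.id | with_reducible exact IntF.fst' | with_reducible exact IntF.snd' | with_reducible exact IntF.const _ | with_reducible exact Int.const _ | assumption | with_reducible apply Int.and | with_reducible apply Int.or | with_reducible apply Int.not | with_reducible apply Int.imp | with_reducible apply Int.iff | with_reducible apply Int.ne | with_reducible apply Int.eq | with_reducible apply Int.mem | with_reducible apply Int.subset | with_reducible apply Int.ltN | with_reducible apply Int.leN | with_reducible apply Int.fin | with_reducible apply Int.unique | with_reducible apply Int.all | with_reducible apply Int.ex | with_reducible apply IntF.fst | with_reducible apply IntF.snd | with_reducible apply IntF.app | with_reducible apply IntF.ite | with_reducible apply IntF.sep | with_reducible apply IntF.lam | with_reducible apply IntF.insert | with_reducible apply IntF.singleton | with_reducible apply IntF.union | with_reducible apply IntF.inter | with_reducible apply IntF.sdiff | with_reducible apply IntF.isUnion | with_reducible apply IntF.iimage | with_reducible apply IntF.the | with_reducible apply IntF.irec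 | with_reducible_and_instances apply IntF.add | with_reducible_and_instances apply IntF.mul | with_reducible apply IntF.succ | with_reducible apply IntF.val | (with_reducible refine Int.comp ?_ ?_; assumption) | (with_reducible refine Int.comp₂ ?_ ?_ ?_; assumption) | (with_reducible refine Int.comp₃ ?_ ?_ ?_ ?_; assumption) | (with_reducible refine IntF.comp ?_ ?_; assumption) | (with_reducible refine IntF.comp₂ ?_ ?_ ?_; assumption) | (with_reducible refine IntF.comp₃ ?_ ?_ ?_ ?_; assumption) | with_reducible apply IntF.pair))) ?_ ?_ n
    · rw [stg_zero hi]
      exact hg
    · intro n ih e m k he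
      rw [stg_succ hi]
      obtain ⟨h3, h4⟩ := cns_spec (key _ ih).1
      rcases INat.eq_zero_or_succ k with rfl | ⟨k, rfl⟩
      · rw [h3]
        exact (key _ ih).2 e m he
      · rw [h4]
        exact ih e m k he
  exact ⟨h2, (key _ h2).1, (key _ h2).2⟩

/-- The new sequence. -/
noncomputable def nsq (i : IPm M α → INat M × α) (g₀ : ISq M α) (R : IPow M (ISq M α)) :
    ISq M α :=
  the (fun g : ISq M α => ∀ n, g.1 n = nel i (insert (stg i g₀ R n) R)) g₀

theorem int_nsq (hi : IntF M i) (g₀ : ISq M α) : IntF M (fun R => nsq i g₀ R) := by
  have h1 := int_nel hi
  have hs := int_stg hi g₀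
  unfold nsq
  (repeat' (first | with_reducible exact IntF.id | with_reducible exact IntF.fst' | with_reducible exact IntF.snd' | with_reducible exact IntF.const _ | with_reducible exact Int.const _ | assumption | with_reducible apply Int.and | with_reducible apply Int.or | with_reducible apply Int.not | with_reducible apply Int.imp | with_reducible apply Int.iff | with_reducible apply Int.ne | with_reducible apply Int.eq | with_reducible apply Int.mem | with_reducible apply Int.subset | with_reducible apply Int.ltN | with_reducible apply Int.leN | with_reducible apply Int.fin | with_reducible apply Int.unique | with_reducible apply Int.all | with_reducible apply Int.ex | with_reducible apply IntF.fst | with_reducible apply IntF.snd | with_reducible apply IntF.app | with_reducible apply IntF.ite | with_reducible apply IntF.sep | with_reducible apply IntF.lam | with_reducible apply IntF.insert | with_reducible apply IntF.singleton | with_reducible apply IntF.union | with_reducible apply IntF.inter | with_reducible apply IntF.sdiff | with_reducible apply IntF.isUnion | with_reducible apply IntF.iimage | with_reducible apply IntF.the | with_reducible apply IntF.irec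 | with_reducible_and_instances apply IntF.add | with_reducible_and_instances apply IntF.mul | with_reducible apply IntF.succ | with_reducible apply IntF.val | (with_reducible refine Int.comp ?_ ?_; assumption) | (with_reducible refine Int.comp₂ ?_ ?_ ?_; assumption) | (with_reducible refine Int.comp₃ ?_ ?_ ?_ ?_; assumption) | (with_reducible refine IntF.comp ?_ ?_; assumption) | (with_reducible refine IntF.comp₂ ?_ ?_ ?_; assumption) | (with_reducible refine IntF.comp₃ ?_ ?_ ?_ ?_; assumption) | with_reducible apply IntF.pair))

theorem nsq_spec (hi : IntF M i) (hfib : ∀ q, FinP M (fun σ => i σ = q)) {g₀ : ISq M α}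
    {R : IPow M (ISq M α)} (hR : Vld R) (hg : Dsj R g₀) :
    Dsj (insert g₀ R) (nsq i g₀ R) := by
  have h1 := int_nel hi
  have hs := int_stg hi g₀
  have h2 := stg_spec hi hfib hR hg
  -- the ranges increase
  have up : ∀ n k, ∃ l, (stg i g₀ R n.succ).1 l = (stg i g₀ R n).1 k := by
    intro n k
    rw [stg_succ hi]
    exact ⟨k.succ, (cns_spec (h2 n).2.1).2 k⟩
  have up' : ∀ m k n, m ≤ n → ∃ l, (stg i g₀ R n).1 l = (stg i g₀ R m).1 k := by
    intro m k n
    refine INat.ind (p := fun n => m ≤ n → ∃ l, (stg i g₀ R n).1 l = (stg i g₀ R m).1 k)
      (by (repeat' (first | with_reducible exact IntF.id | with_reducible exact IntF.fst' | with_reducible exact IntF.snd' | with_reducible exact IntF.const _ | with_reducible exact Int.const _ | assumption | with_reducible apply Int.and | with_reducible apply Int.or | with_reducible apply Int.not | with_reducible apply Int.imp | with_reducible apply Int.iff | with_reducible apply Int.ne | with_reducible apply Int.eq | with_reducible apply Int.mem | with_reducible apply Int.subset | with_reducible apply Int.ltN | with_reducible apply Int.leN | with_reducible apply Int.fin | with_reducible apply Int.unique | with_reducible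 apply Int.all | with_reducible apply Int.ex | with_reducible apply IntF.fst | with_reducible apply IntF.snd | with_reducible apply IntF.app | with_reducible apply IntF.ite | with_reducible apply IntF.sep | with_reducible apply IntF.lam | with_reducible apply IntF.insert | with_reducible apply IntF.singleton | with_reducible apply IntF.union | with_reducible apply IntF.inter | with_reducible apply IntF.sdiff | with_reducible apply IntF.isUnion | with_reducible apply IntF.iimage | with_reducible apply IntF.the | with_reducible apply IntF.irec | with_reducible_and_instances apply IntF.add | with_reducible_and_instances apply IntF.mul | with_reducible apply IntF.succ | with_reducible apply IntF.val | (with_reducible refine Int.comp ?_ ?_; assumption) | (with_reducible refine Int.comp₂ ?_ ?_ ?_; assumption) | (with_reducible refine Int.comp₃ ?_ ?_ ?_ ?_; assumption) | (with_reducible refine IntF.comp ?_ ?_; assumption) | (with_reducible refine IntF.comp₂ ?_ ?_ ?_; assumption) | (with_reducible refine IntF.comp₃ ?_ ?_ ?_ ?_; assumption) | with_reducible apply IntF.pair))) ?_ ?_ n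
    · intro h
      have : m = 0 := le_antisymm h (INat.zero_le m)
      subst this
      exact ⟨k, rfl⟩
    · intro n ih h
      rcases h.lt_or_eq with h | rfl
      · obtain ⟨l, hl⟩ := ih (INat.lt_succ_iff.1 h)
        obtain ⟨l', hl'⟩ := up n l
        exact ⟨l', hl'.trans hl⟩
      · exact ⟨k, rfl⟩
  have hx : ∀ m n, m < n → ∃ l, (stg i g₀ R n).1 l = nel i (insert (stg i g₀ R m) R) := by
    intro m n hmn
    obtain ⟨l, hl⟩ := up' m.succ 0 n (INat.succ_le_iff.2 hmn)
    refine ⟨l, hl.trans ?_⟩
    rw [stg_succ hi]
    exact (cns_spec (h2 m).2.1).1
  have hI : IntF M (fun n => nel i (insert (stg i g₀ R n) R)) := by (repeat' (first | with_reducible exact IntF.id | with_reducible exact IntF.fst' | with_reducible exact IntF.snd' | with_reducible exact IntF.const _ | with_reducible exact Int.const _ | assumption | with_reducible apply Int.and | with_reducible apply Int.or | with_reducible apply Int.not | with_reducible apply Int.imp | with_reducible apply Int.iff | with_reducible apply Int.ne | with_reducible apply Int.eq | with_reducible apply Int.mem | with_reducible apply Int.subset | with_reducible apply Int.ltN | with_reducible apply Int.leN | with_reducible apply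 Int.fin | with_reducible apply Int.unique | with_reducible apply Int.all | with_reducible apply Int.ex | with_reducible apply IntF.fst | with_reducible apply IntF.snd | with_reducible apply IntF.app | with_reducible apply IntF.ite | with_reducible apply IntF.sep | with_reducible apply IntF.lam | with_reducible apply IntF.insert | with_reducible apply IntF.singleton | with_reducible apply IntF.union | with_reducible apply IntF.inter | with_reducible apply IntF.sdiff | with_reducible apply IntF.isUnion | with_reducible apply IntF.iimage | with_reducible apply IntF.the | with_reducible apply IntF.irec | with_reducible_and_instances apply IntF.add | with_reducible_and_instances apply IntF.mul | with_reducible apply IntF.succ | with_reducible apply IntF.val | (with_reducible refine Int.comp ?_ ?_; assumption) | (with_reducible refine Int.comp₂ ?_ ?_ ?_; assumption) | (with_reducible refine Int.comp₃ ?_ ?_ ?_ ?_; assumption) | (with_reducible refine IntF.comp ?_ ?_; assumption) | (with_reducible refine IntF.comp₂ ?_ ?_ ?_; assumption) | (with_reducible refine IntF.comp₃ ?_ ?_ ?_ ?_; assumption) | with_reducible apply IntF.pair))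
  have h3 : ∀ n, (nsq i g₀ R).1 n = nel i (insert (stg i g₀ R n) R) := by
    refine the_spec (p := fun g : ISq M α => ∀ n, g.1 n = nel i (insert (stg i g₀ R n) R))
      ⟨⟨⟨_, hI⟩, ?_⟩, fun n => rfl, fun g hg => Subtype.ext (IFun.ext' hg)⟩
    intro m n hmn
    replace hmn : nel i (insert (stg i g₀ R m) R) = nel i (insert (stg i g₀ R n) R) := hmn
    rcases lt_trichotomy m n with h | h | h
    · obtain ⟨l, hl⟩ := hx m n h
      exact absurd (hl.trans hmn) ((h2 n).2.1 l)
    · exact h
    · obtain ⟨l, hl⟩ := hx n m h
      exact absurd (hl.trans hmn.symm) ((h2 m).2.1 l)
  intro e m n he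
  rw [h3]
  rcases mem_insert.1 he with rfl | he
  · obtain ⟨l, hl⟩ := up' 0 m n (INat.zero_le n)
    rw [stg_zero hi] at hl
    rw [← hl]
    exact (h2 n).2.1 l
  · exact (h2 n).2.2 e m he

/-- A set with a finite-to-one map from its permutations to the natural numbers times the set is
Dedekind finite. -/
theorem dedekind_finite (hi : IntF M i) (hfib : ∀ q, FinP M (fun σ => i σ = q)) :
    DF M α (fun _ => True) := by
  rintro ⟨g, h1, _, h3⟩
  let g₀ : ISq M α := ⟨⟨g, h1⟩, h3⟩
  have hs := int_nsq hi g₀
  have hV := int_Vld (M := M) (α := α)
  obtain ⟨E, ⟨h4, h5⟩, h6⟩ := bw_up (F := fun E => insert (nsq i g₀ (E \ {g₀})) E)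
    (Q := fun E => Vld E ∧ g₀ ∈ E) (bot := {g₀}) (by (repeat' (first | with_reducible exact IntF.id | with_reducible exact IntF.fst' | with_reducible exact IntF.snd' | with_reducible exact IntF.const _ | with_reducible exact Int.const _ | assumption | with_reducible apply Int.and | with_reducible apply Int.or | with_reducible apply Int.not | with_reducible apply Int.imp | with_reducible apply Int.iff | with_reducible apply Int.ne | with_reducible apply Int.eq | with_reducible apply Int.mem | with_reducible apply Int.subset | with_reducible apply Int.ltN | with_reducible apply Int.leN | with_reducible apply Int.fin | with_reducible apply Int.unique | with_reducible apply Int.all | with_reducible apply Int.ex | with_reducible apply IntF.fst | with_reducible apply IntF.snd | with_reducible apply IntF.app | with_reducible apply IntF.ite | with_reducible apply IntF.sep | with_reducible apply IntF.lam | with_reducible apply IntF.insert | with_reducible apply IntF.singleton | with_reducible apply IntF.union | with_reducible apply IntF.inter | with_reducible apply IntF.sdiff | with_reducible apply IntF.isUnion | with_reducible apply IntF.iimage | with_reducible apply IntF.the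 | with_reducible apply IntF.irec | with_reducible_and_instances apply IntF.add | with_reducible_and_instances apply IntF.mul | with_reducible apply IntF.succ | with_reducible apply IntF.val | (with_reducible refine Int.comp ?_ ?_; assumption) | (with_reducible refine Int.comp₂ ?_ ?_ ?_; assumption) | (with_reducible refine Int.comp₃ ?_ ?_ ?_ ?_; assumption) | (with_reducible refine IntF.comp ?_ ?_; assumption) | (with_reducible refine IntF.comp₂ ?_ ?_ ?_; assumption) | (with_reducible refine IntF.comp₃ ?_ ?_ ?_ ?_; assumption) | with_reducible apply IntF.pair))) (by (repeat' (first | with_reducible exact IntF.id | with_reducible exact IntF.fst' | with_reducible exact IntF.snd' | with_reducible exact IntF.const _ | with_reducible exact Int.const _ | assumption | with_reducible apply Int.and | with_reducible apply Int.or | with_reducible apply Int.not | with_reducible apply Int.imp | with_reducible apply Int.iff | with_reducible apply Int.ne | with_reducible apply Int.eq | with_reducible apply Int.mem | with_reducible apply Int.subset | with_reducible apply Int.ltN | with_reducible apply Int.leN | with_reducible apply Int.fin | with_reducible apply Int.unique | with_reducible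 apply Int.all | with_reducible apply Int.ex | with_reducible apply IntF.fst | with_reducible apply IntF.snd | with_reducible apply IntF.app | with_reducible apply IntF.ite | with_reducible apply IntF.sep | with_reducible apply IntF.lam | with_reducible apply IntF.insert | with_reducible apply IntF.singleton | with_reducible apply IntF.union | with_reducible apply IntF.inter | with_reducible apply IntF.sdiff | with_reducible apply IntF.isUnion | with_reducible apply IntF.iimage | with_reducible apply IntF.the | with_reducible apply IntF.irec | with_reducible_and_instances apply IntF.add | with_reducible_and_instances apply IntF.mul | with_reducible apply IntF.succ | with_reducible apply IntF.val | (with_reducible refine Int.comp ?_ ?_; assumption) | (with_reducible refine Int.comp₂ ?_ ?_ ?_; assumption) | (with_reducible refine Int.comp₃ ?_ ?_ ?_ ?_; assumption) | (with_reducible refine IntF.comp ?_ ?_; assumption) | (with_reducible refine IntF.comp₂ ?_ ?_ ?_; assumption) | (with_reducible refine IntF.comp₃ ?_ ?_ ?_ ?_; assumption) | with_reducible apply IntF.pair)))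
    ⟨fun e e' _ _ he he' _ => by
      rw [mem_singleton] at he he'
      rw [he, he'], mem_singleton.2 rfl⟩
    (fun E ⟨hE, h0⟩ => by
      refine ⟨⟨vld_insert hE ?_, mem_insert.2 (Or.inr h0)⟩, fun x hx => mem_insert.2 (Or.inr hx)⟩
      have h7 : insert g₀ (E \ {g₀}) = E := IPow.ext' fun x => by
        rw [mem_insert, mem_sdiff, mem_singleton]
        by_cases hx : x = g₀
        · rw [hx]
          exact ⟨fun _ => h0, fun _ => Or.inl rfl⟩
        · exact ⟨fun h => (h.resolve_left hx).1, fun h => Or.inr ⟨h, hx⟩⟩
      have h8 : Vld (E \ {g₀}) := fun e e' m n he he' =>
        hE e e' m n (mem_sdiff.1 he).1 (mem_sdiff.1 he').1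
      have h9 := nsq_spec hi hfib h8 (g₀ := g₀) (fun e m n he h => by
        rw [mem_sdiff, mem_singleton] at he
        exact he.2 (hE _ _ _ _ he.1 h0 h))
      rwa [h7] at h9)
    (fun C ⟨s, hs⟩ hC hch => by
      refine ⟨fun e e' m n he he' h => ?_, mem_isUnion.2 ⟨s, hs, (hC s hs).2⟩⟩
      rw [mem_isUnion] at he he'
      obtain ⟨t, ht, he⟩ := he
      obtain ⟨t', ht', he'⟩ := he'
      rcases hch t t' ht ht' with h7 | h7
      · exact (hC t' ht').1 e e' m n (h7 _ he) he' h
      · exact (hC t ht).1 e e' m n he (h7 _ he') h)
  have h7 : insert g₀ (E \ {g₀}) = E := IPow.ext' fun x => by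
    rw [mem_insert, mem_sdiff, mem_singleton]
    by_cases hx : x = g₀
    · rw [hx]
      exact ⟨fun _ => h5, fun _ => Or.inl rfl⟩
    · exact ⟨fun h => (h.resolve_left hx).1, fun h => Or.inr ⟨h, hx⟩⟩
  have h8 : Vld (E \ {g₀}) := fun e e' m n he he' =>
    h4 e e' m n (mem_sdiff.1 he).1 (mem_sdiff.1 he').1
  have h9 := nsq_spec hi hfib h8 (g₀ := g₀) (fun e m n he h => by
    rw [mem_sdiff, mem_singleton] at he
    exact he.2 (h4 _ _ _ _ he.1 h5 h))
  rw [h7] at h9
  have h10 : nsq i g₀ (E \ {g₀}) ∈ E := by
    have : nsq i g₀ (E \ {g₀}) ∈ insert (nsq i g₀ (E \ {g₀})) E := mem_insert.2 (Or.inl rfl)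
    rwa [h6] at this
  exact h9 _ 0 0 h10 rfl

end

end Pool.Agent.H310
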