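import Pool.Agent.H310R3.Cards
import Pool.Agent.H310R3.StepZ
import Pool.Agent.H635R2.Tools
import Pool.Agent.Helper672.SIK.Bridge

/-!
# From models of set theory to internal types
-/

set_option maxHeartbeats 400000
set_option linter.all false

namespace Pool.Agent.H310

open FirstOrder FirstOrder.Language
open Pool.Agent.Helper672.ZFA
open Pool.Agent.H310Cards

universe u u₁ u₂ u₃ u₄

/-! ### Finite sets are in bijection with natural numbers -/

section

variable {M : Type u} [L.Structure M] [hM : IsModel M]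
variable {α : Type u₁} {β : Type u₂} {γ : Type u₃} {δ : Type u₄}
  [ITy M α] [ITy M β] [ITy M γ] [ITy M δ]

/-- `e` is a bijection from `s` to `n`. -/
def BN (e : IFun M α (INat M)) (s : IPow M α) (n : INat M) : Prop :=
  (∀ a, a ∈ s → e a < n) ∧ (∀ a b, a ∈ s → b ∈ s → e a = e b → a = b) ∧
    ∀ m, m < n → ∃ a, a ∈ s ∧ e a = m

theorem int_BN : Int M (fun q : (IFun M α (INat M) × IPow M α) × INat M =>
    BN q.1.1 q.1.2 q.2) := by
  unfold BN
  (repeat' (first | with_reducible exact IntF.id | with_reducible exact IntF.fst' | with_reducible exact IntF.snd' | with_reducible exact IntF.const _ | with_reducible exact Int.const _ | assumption | with_reducible apply Int.and | with_reducible apply Int.or | with_reducible apply Int.not | with_reducible apply Int.imp | with_reducible apply Int.iff | with_reducible apply Int.ne | with_reducible apply Int.eq | with_reducible apply Int.mem | with_reducible apply Int.subset | with_reducible apply Int.ltN | with_reducible apply Int.leN | with_reducible apply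 Int.fin | with_reducible apply Int.unique | with_reducible apply Int.all | with_reducible apply Int.ex | with_reducible apply IntF.fst | with_reducible apply IntF.snd | with_reducible apply IntF.app | with_reducible apply IntF.ite | with_reducible apply IntF.sep | with_reducible apply IntF.lam | with_reducible apply IntF.insert | with_reducible apply IntF.singleton | with_reducible apply IntF.union | with_reducible apply IntF.inter | with_reducible apply IntF.sdiff | with_reducible apply IntF.isUnion | with_reducible apply IntF.iimage | with_reducible apply IntF.the | with_reducible apply IntF.irec | with_reducible_and_instances apply IntF.add | with_reducible_and_instances apply IntF.mul | with_reducible apply IntF.succ | with_reducible apply IntF.val | (with_reducible refine Int.comp ?_ ?_; assumption) | (with_reducible refine Int.comp₂ ?_ ?_ ?_; assumption) | (with_reducible refine Int.comp₃ ?_ ?_ ?_ ?_; assumption) | (with_reducible refine IntF.comp ?_ ?_; assumption) | (with_reducible refine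 IntF.comp₂ ?_ ?_ ?_; assumption) | (with_reducible refine IntF.comp₃ ?_ ?_ ?_ ?_; assumption) | with_reducible apply IntF.pair))

theorem exists_BN {s : IPow M α} (hs : IFin s) : ∃ (e : IFun M α (INat M)) (n : INat M),
    BN e s n := by
  have hI := int_BN (M := M) (α := α)
  refine IFin.ind (p := fun s => ∃ (e : IFun M α (INat M)) (n : INat M), BN e s n) (by (repeat' (first | with_reducible exact IntF.id | with_reducible exact IntF.fst' | with_reducible exact IntF.snd' | with_reducible exact IntF.const _ | with_reducible exact Int.const _ | assumption | with_reducible apply Int.and | with_reducible apply Int.or | with_reducible apply Int.not | with_reducible apply Int.imp | with_reducible apply Int.iff | with_reducible apply Int.ne | with_reducible apply Int.eq | with_reducible apply Int.mem | with_reducible apply Int.subset | with_reducible apply Int.ltN | with_reducible apply Int.leN | with_reducible apply Int.fin | with_reducible apply Int.unique | with_reducible apply Int.all | with_reducible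 apply Int.ex | with_reducible apply IntF.fst | with_reducible apply IntF.snd | with_reducible apply IntF.app | with_reducible apply IntF.ite | with_reducible apply IntF.sep | with_reducible apply IntF.lam | with_reducible apply IntF.insert | with_reducible apply IntF.singleton | with_reducible apply IntF.union | with_reducible apply IntF.inter | with_reducible apply IntF.sdiff | with_reducible apply IntF.isUnion | with_reducible apply IntF.iimage | with_reducible apply IntF.the | with_reducible apply IntF.irec | with_reducible_and_instances apply IntF.add | with_reducible_and_instances apply IntF.mul | with_reducible apply IntF.succ | with_reducible apply IntF.val | (with_reducible refine Int.comp ?_ ?_; assumption) | (with_reducible refine Int.comp₂ ?_ ?_ ?_; assumption) | (with_reducible refine Int.comp₃ ?_ ?_ ?_ ?_; assumption) | (with_reducible refine IntF.comp ?_ ?_; assumption) | (with_reducible refine IntF.comp₂ ?_ ?_ ?_; assumption) | (with_reducible refine IntF.comp₃ ?_ ?_ ?_ ?_; assumption)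 | with_reducible apply IntF.pair)))
    ?_ ?_ s hs
  · refine ⟨⟨fun _ => 0, IntF.const _⟩, 0, fun a ha => ?_, fun a b ha => ?_, fun m hm => ?_⟩
    · simp at ha
    · simp at ha
    · exact absurd hm INat.not_lt_zero
  · rintro s a - has ⟨e, n, h1, h2, h3⟩
    have hf : IntF M (fun x : α => the (fun k => (x = a ∧ k = n) ∨ (¬ x = a ∧ k = e x)) n) := by
      (repeat' (first | with_reducible exact IntF.id | with_reducible exact IntF.fst' | with_reducible exact IntF.snd' | with_reducible exact IntF.const _ | with_reducible exact Int.const _ | assumption | with_reducible apply Int.and | with_reducible apply Int.or | with_reducible apply Int.not | with_reducible apply Int.imp | with_reducible apply Int.iff | with_reducible apply Int.ne | with_reducible apply Int.eq | with_reducible apply Int.mem | with_reducible apply Int.subset | with_reducible apply Int.ltN | with_reducible apply Int.leN | with_reducible apply Int.fin | with_reducible apply Int.unique | with_reducible apply Int.all | with_reducible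 apply Int.ex | with_reducible apply IntF.fst | with_reducible apply IntF.snd | with_reducible apply IntF.app | with_reducible apply IntF.ite | with_reducible apply IntF.sep | with_reducible apply IntF.lam | with_reducible apply IntF.insert | with_reducible apply IntF.singleton | with_reducible apply IntF.union | with_reducible apply IntF.inter | with_reducible apply IntF.sdiff | with_reducible apply IntF.isUnion | with_reducible apply IntF.iimage | with_reducible apply IntF.the | with_reducible apply IntF.irec | with_reducible_and_instances apply IntF.add | with_reducible_and_instances apply IntF.mul | with_reducible apply IntF.succ | with_reducible apply IntF.val | (with_reducible refine Int.comp ?_ ?_; assumption) | (with_reducible refine Int.comp₂ ?_ ?_ ?_; assumption) | (with_reducible refine Int.comp₃ ?_ ?_ ?_ ?_; assumption) | (with_reducible refine IntF.comp ?_ ?_; assumption) | (with_reducible refine IntF.comp₂ ?_ ?_ ?_; assumption) | (with_reducible refine IntF.comp₃ ?_ ?_ ?_ ?_; assumption)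 | with_reducible apply IntF.pair))
    have ha : the (fun k => (a = a ∧ k = n) ∨ (¬ a = a ∧ k = e a)) n = n :=
      the_eq ⟨n, Or.inl ⟨rfl, rfl⟩, fun y hy => hy.elim (fun h => h.2) fun h => absurd rfl h.1⟩
        (Or.inl ⟨rfl, rfl⟩)
    have hne : ∀ x, ¬ x = a → the (fun k => (x = a ∧ k = n) ∨ (¬ x = a ∧ k = e x)) n = e x :=
      fun x hx => the_eq ⟨e x, Or.inr ⟨hx, rfl⟩, fun y hy => hy.elim (fun h => absurd h.1 hx)
        fun h => h.2⟩ (Or.inr ⟨hx, rfl⟩)
    have hsa : ∀ x, x ∈ s → ¬ x = a := fun x hx h => has (h ▸ hx)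
    refine ⟨⟨_, hf⟩, n.succ, fun x hx => ?_, fun x y hx hy hxy => ?_, fun m hm => ?_⟩
    · change the (fun k => (x = a ∧ k = n) ∨ (¬ x = a ∧ k = e x)) n < n.succ
      rcases mem_insert.1 hx with rfl | hx
      · rw [ha]
        exact INat.lt_succ_self n
      · rw [hne x (hsa x hx)]
        exact (h1 x hx).trans (INat.lt_succ_self n)
    · change the (fun k => (x = a ∧ k = n) ∨ (¬ x = a ∧ k = e x)) n =
        the (fun k => (y = a ∧ k = n) ∨ (¬ y = a ∧ k = e y)) n at hxy
      rcases mem_insert.1 hx with hx | hx <;> rcases mem_insert.1 hy with hy | hy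
      · rw [hx, hy]
      · rw [hx, ha, hne y (hsa y hy)] at hxy
        exact absurd (h1 y hy) (by rw [← hxy]; exact lt_irrefl n)
      · rw [hy, ha, hne x (hsa x hx)] at hxy
        exact absurd (h1 x hx) (by rw [hxy]; exact lt_irrefl n)
      · rw [hne x (hsa x hx), hne y (hsa y hy)] at hxy
        exact h2 x y hx hy hxy
    · rcases (INat.lt_succ_iff.1 hm).lt_or_eq with hm | rfl
      · obtain ⟨x, hx, h⟩ := h3 m hm
        refine ⟨x, mem_insert.2 (Or.inr hx), ?_⟩
        change the (fun k => (x = a ∧ k = n) ∨ (¬ x = a ∧ k = e x)) n = m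
        rw [hne x (hsa x hx), h]
      · exact ⟨a, mem_insert.2 (Or.inl rfl), ha⟩

theorem mem_nat {n : INat M} {z : M} (h : Mem z n.val) : ∃ m : INat M, m < n ∧ m.val = z := by
  revert z
  suffices H : ∀ z, Mem z n.val → ∃ m : INat M, m < n ∧ m.val = z from fun {z} => H z
  refine INat.ind (p := fun n : INat M => ∀ z, Mem z n.val → ∃ m : INat M, m < n ∧ m.val = z)
    ?_ ?_ ?_ n
  · refine Int.of_D (S := fun v => ∀ z, Mem z (v 0) → ∃ m, Mem m (dom M (INat M)) ∧ Mem m (v 0) ∧
      m = z) ?_ fun a => ?_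
    · exact D.all (D.imp (D.memf (DF.var _) (DF.var _)) (D.ex (D.and
        (D.memf (DF.var _) (DF.const _)) (D.and (D.memf (DF.var _) (DF.var _))
          (D.eqf (DF.var _) (DF.var _))))))
    · refine forall_congr' fun z => imp_congr_right fun hz => ?_
      constructor
      · rintro ⟨m, h1, h2, rfl⟩
        obtain ⟨m, rfl⟩ := mem_dom.1 h1
        exact ⟨m, h2, rfl⟩
      · rintro ⟨m, h1, rfl⟩
        exact ⟨m.val, code_mem_dom (M := M) m, h1, rfl⟩
  · intro z hz
    exact absurd hz INat.not_mem_zero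
  · intro n ih z hz
    rcases INat.mem_succ.1 hz with h | rfl
    · obtain ⟨m, h1, rfl⟩ := ih z h
      exact ⟨m, h1.trans (INat.lt_succ_self n), rfl⟩
    · exact ⟨n, INat.lt_succ_self n, rfl⟩

end

/-! ### Functions -/

section

attribute [local instance] Helper672.Plain.toL

variable {M : Type u} [Helper672.Plain.LSet.Structure M] [hZ : Helper672.Plain.Zermelo M]
variable {α : Type u₁} {β : Type u₂}

local instance instModelL : IsModel M := Helper672.Plain.isModel_toL

variable [ITy M α] [ITy M β]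

theorem ordPair_iff {q x y : M} : Helper672.Plain.IsOrdPair q x y ↔ q = op x y :=
  Helper672.Plain.isOrdPair_toL.symm.trans isOrdPair_iff_op

theorem app_iff {f x y : M} : App f x y ↔ Mem (op x y) f := by
  unfold App
  constructor
  · rintro ⟨q, h1, h2⟩
    rw [ordPair_iff] at h1
    rw [← h1]
    exact h2
  · intro h
    exact ⟨_, ordPair_iff.2 rfl, h⟩

theorem extM {x y : M} (h : ∀ z, Mem z x ↔ Mem z y) : x = y := hZ.ext x y h

theorem mem_El {a z : M} : Mem z a ↔ ∃ x : El a, code x = z :=
  ⟨fun h => ⟨⟨z, h⟩, rfl⟩, fun ⟨x, h⟩ => h ▸ x.2⟩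

theorem ind_iff {i : M} : Ind i ↔ IsInductive i := by
  unfold Ind IsInductive
  constructor
  · rintro ⟨⟨e, h1, h2, h3⟩, h4⟩
    refine ⟨⟨e, h1, h3⟩, fun n hn => ?_⟩
    obtain ⟨s, h5, h6, h7⟩ := h4 n hn
    exact ⟨s, h5, h7⟩
  · rintro ⟨⟨e, h1, h3⟩, h4⟩
    refine ⟨⟨e, h1, trivial, h3⟩, fun n hn => ?_⟩
    obtain ⟨s, h5, h7⟩ := h4 n hn
    exact ⟨s, h5, trivial, h7⟩

theorem mem_omega {w z : M} (hw : IsOmega w) : Mem z w ↔ ∃ n : INat M, code n = z :=
  (hw z).trans ⟨fun h => ⟨⟨z, fun i hi => h i (ind_iff.1 hi)⟩, rfl⟩,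
    fun ⟨n, h⟩ i hi => h ▸ n.prop i (ind_iff.2 hi)⟩

theorem mem_prod {w a p z : M} (hw : ∀ z, Mem z w ↔ ∃ x : α, code x = z)
    (ha : ∀ z, Mem z a ↔ ∃ x : β, code x = z) (hp : IsProd p w a) :
    Mem z p ↔ ∃ q : α × β, code q = z := by
  refine (hp z).trans ⟨?_, ?_⟩
  · rintro ⟨x, y, hx, hy, h⟩
    obtain ⟨x, rfl⟩ := (hw x).1 hx
    obtain ⟨y, rfl⟩ := (ha y).1 hy
    rw [ordPair_iff] at h
    exact ⟨(x, y), h.symm⟩
  · rintro ⟨⟨x, y⟩, rfl⟩
    exact ⟨code x, code y, (hw _).2 ⟨x, rfl⟩, (ha _).2 ⟨y, rfl⟩, ordPair_iff.2 rfl⟩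

theorem mem_pow {w p z : M} (hw : ∀ z, Mem z w ↔ ∃ x : α, code x = z) (hp : IsPow p w) :
    Mem z p ↔ ∃ s : IPow M α, code s = z := by
  refine (hp z).trans ⟨fun h => ?_, ?_⟩
  · have hs : Int M (fun a : α => Mem (code a) z) := ⟨z, fun a => Iff.rfl⟩
    refine ⟨⟨_, hs⟩, extM fun t => ?_⟩
    refine (mem_code_pow (s := (⟨_, hs⟩ : IPow M α))).trans ⟨?_, fun ht => ?_⟩
    · rintro ⟨a, ha, rfl⟩
      exact ha
    · obtain ⟨a, rfl⟩ := (hw t).1 (h t ht)
      exact ⟨a, ht, rfl⟩
  · rintro ⟨s, rfl⟩ t ht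
    replace ht : Mem t (code s) := ht
    obtain ⟨a, ha, rfl⟩ := (mem_code_pow (s := s)).1 ht
    exact (hw _).2 ⟨a, rfl⟩

theorem exists_fun {f s t : M} (hf : IsFun f s t) (hs : ∀ x : α, Mem (code x) s)
    (ht : ∀ z, Mem z t → ∃ y : β, code y = z) :
    ∃ φ : α → β, IntF M φ ∧ ∀ x y, φ x = y ↔ App f (code x) (code y) := by
  have h : ∀ x : α, ∃ y : β, ∀ y', y = y' ↔ App f (code x) (code y') := by
    intro x
    obtain ⟨y, hy, hu⟩ := hf.2 (code x) (hs x)
    obtain ⟨q, h1, h2⟩ := hy
    obtain ⟨x', y', -, h4, h5⟩ := hf.1 q h2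
    rw [ordPair_iff] at h1 h5
    rw [h1] at h5
    obtain ⟨-, rfl⟩ := op_inj h5
    obtain ⟨z, rfl⟩ := ht y h4
    refine ⟨z, fun y' => ⟨?_, fun h => (ITy.inj (hu _ h)).symm⟩⟩
    rintro rfl
    exact ⟨q, ordPair_iff.2 h1, h2⟩
  choose φ hφ using h
  exact ⟨φ, ⟨f, fun q => app_iff.symm.trans (hφ q.1 q.2).symm⟩, hφ⟩

theorem mem_code_fun {f : IFun M α β} {q : M} :
    Mem q (code (M := M) f) ↔ ∃ a, q = op (code a) (code (f a)) := by
  refine (mem_code_pow (s := f.graph)).trans ⟨?_, ?_⟩
  · rintro ⟨⟨a, b⟩, h1, rfl⟩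
    have h2 : f a = b := h1
    exact ⟨a, by rw [h2]; rfl⟩
  · rintro ⟨a, rfl⟩
    exact ⟨(a, f a), rfl, rfl⟩

theorem app_code {f : IFun M α β} {x y : M} :
    App (code f) x y ↔ ∃ a : α, code a = x ∧ code (f a) = y := by
  rw [app_iff, mem_code_fun]
  constructor
  · rintro ⟨a, h⟩
    obtain ⟨h1, h2⟩ := op_inj h
    exact ⟨a, h1.symm, h2.symm⟩
  · rintro ⟨a, rfl, rfl⟩
    exact ⟨a, rfl⟩

theorem isFun_code (f : IFun M α β) {s t : M} (hs : ∀ z, Mem z s ↔ ∃ x : α, code x = z)
    (ht : ∀ a, Mem (code (f a)) t) : IsFun (code f) s t := by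
  constructor
  · intro q hq
    obtain ⟨a, rfl⟩ := mem_code_fun.1 hq
    exact ⟨code a, code (f a), (hs _).2 ⟨a, rfl⟩, ht a, ordPair_iff.2 rfl⟩
  · intro x hx
    obtain ⟨a, rfl⟩ := (hs x).1 hx
    refine ⟨code (f a), app_code.2 ⟨a, rfl, rfl⟩, fun y hy => ?_⟩
    obtain ⟨b, h1, h2⟩ := app_code.1 hy
    rw [← h2, ITy.inj h1]

theorem mem_sym {a s z : M} (hs : IsSymSet s a) : Mem z s ↔ ∃ σ : IPm M (El a), code σ = z := by
  refine (hs z).trans ⟨?_, ?_⟩
  · rintro ⟨⟨h1, h2⟩, h3⟩
    obtain ⟨φ, h4, h5⟩ := exists_fun (α := El a) (β := El a) h1 (fun x => x.2)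
      fun z => mem_El.1
    refine ⟨IPm.of φ h4 (fun x y hxy => ?_) (fun y => ?_), extM fun q => ?_⟩
    · exact Subtype.ext (h2 _ _ _ ((h5 x (φ y)).1 hxy) ((h5 y (φ y)).1 rfl))
    · obtain ⟨x, hx⟩ := h3 y.1 y.2
      obtain ⟨q, h6, h7⟩ := hx
      obtain ⟨x', y', h8, h9, h10⟩ := h1.1 q h7
      have h11 := op_inj ((ordPair_iff.1 h6).symm.trans (ordPair_iff.1 h10))
      obtain ⟨rfl, -⟩ := h11
      exact ⟨⟨x, h8⟩, (h5 ⟨x, h8⟩ y).2 ⟨q, h6, h7⟩⟩
    · refine (mem_code_fun (f := (IPm.of φ h4 _ _).1)).trans ⟨?_, fun hq => ?_⟩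
      · rintro ⟨x, rfl⟩
        exact app_iff.1 ((h5 x (φ x)).1 rfl)
      · obtain ⟨x, y, h6, h7, h8⟩ := h1.1 q hq
        have h9 := (h5 ⟨x, h6⟩ ⟨y, h7⟩).2 ⟨q, h8, hq⟩
        refine ⟨⟨x, h6⟩, (ordPair_iff.1 h8).trans ?_⟩
        change _ = op x (code (φ ⟨x, h6⟩))
        rw [h9]
        rfl
  · rintro ⟨σ, rfl⟩
    refine ⟨⟨isFun_code σ.1 (fun z => mem_El) fun x => (σ.1 x).2, fun x x' y h1 h2 => ?_⟩,
      fun y hy => ?_⟩
    · obtain ⟨b, rfl, h3⟩ := app_code.1 h1
      obtain ⟨c, rfl, h4⟩ := app_code.1 h2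
      rw [σ.inj (ITy.inj (h3.trans h4.symm))]
    · obtain ⟨b, hb⟩ := σ.2.2 ⟨y, hy⟩
      refine ⟨code b, app_code.2 ⟨b, rfl, ?_⟩⟩
      rw [hb]
      rfl

/-- A set that is not in bijection with a natural number is infinite. -/
theorem not_finP {a : M} (ha : ∀ z, Mem z a ↔ ∃ x : α, code x = z) (h : ¬ IsFinite a) :
    ¬ FinP M (fun _ : α => True) := by
  intro h1
  obtain ⟨e, n, h2, h3, h4⟩ := exists_BN (h1.fin (Int.const _))
  have hm : ∀ x : α, x ∈ sep M (fun _ : α => True) := fun x => (mem_sep (Int.const _)).2 trivial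
  refine h ⟨n.val, code e, fun i hi => n.prop i (ind_iff.2 hi), ⟨isFun_code e ha fun x => ?_,
    fun x x' y h5 h6 => ?_⟩, fun y hy => ?_⟩
  · exact h2 x (hm x)
  · obtain ⟨b, rfl, h7⟩ := app_code.1 h5
    obtain ⟨c, rfl, h8⟩ := app_code.1 h6
    rw [h3 b c (hm b) (hm c) (ITy.inj (h7.trans h8.symm))]
  · replace hy : Mem y n.val := hy
    obtain ⟨m, h5, rfl⟩ := mem_nat hy
    obtain ⟨b, -, rfl⟩ := h4 m h5
    exact ⟨code b, app_code.2 ⟨b, rfl, rfl⟩⟩

/-- A set in bijection with a natural number is finite. -/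
theorem finP_of_finite {p : α → Prop} (hp : Int M p) {t : M}
    (ht : ∀ z, Mem z t ↔ ∃ x : α, p x ∧ code x = z) (h : IsFinite t) : FinP M p := by
  obtain ⟨n, f, hn, ⟨h1, h2⟩, -⟩ := h
  let n' : INat M := ⟨n, fun i hi => hn i (ind_iff.1 hi)⟩
  have hr : Int M (fun q : α × INat M => Mem (op (code q.1) (code q.2)) f) := ⟨f, fun q => Iff.rfl⟩
  have hf : IntF M (fun x : α => the (fun k : INat M => Mem (op (code x) (code k)) f) 0) :=
    IntF.the hr (IntF.const _)
  have h3 : ∀ x, p x → ∃ k : INat M, k < n' ∧ App f (code x) (code k) ∧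
      the (fun k : INat M => Mem (op (code x) (code k)) f) 0 = k := by
    intro x hx
    obtain ⟨y, hy, hu⟩ := h1.2 (code x) ((ht _).2 ⟨x, hx, rfl⟩)
    obtain ⟨q, h4, h5⟩ := hy
    obtain ⟨x', y', h8, h9, h10⟩ := h1.1 q h5
    obtain ⟨-, rfl⟩ := op_inj ((ordPair_iff.1 h4).symm.trans (ordPair_iff.1 h10))
    obtain ⟨k, h11, rfl⟩ := mem_nat (n := n') h9
    have h12 : App f (code x) (code k) := ⟨q, h4, h5⟩
    refine ⟨k, h11, h12, the_eq ⟨k, app_iff.1 h12, fun k' hk' => ?_⟩ (app_iff.1 h12)⟩
    exact ITy.inj (hu _ (app_iff.2 hk'))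
  refine FinP.of_inj hp hf (fun x y hx hy hxy => ?_) (finP_lt n') fun x hx => ?_
  · obtain ⟨k, -, h4, h5⟩ := h3 x hx
    obtain ⟨k', -, h4', h5'⟩ := h3 y hy
    rw [h5, h5'] at hxy
    rw [← hxy] at h4'
    exact ITy.inj (h2 _ _ _ h4 h4')
  · obtain ⟨k, h4, -, h5⟩ := h3 x hx
    rw [h5]
    exact h4

end

end Pool.Agent.H310
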