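import Pool.Agent.H310R3.Gen

/-!
# Homogeneous Cantor trees
-/

set_option maxHeartbeats 400000
set_option linter.all false

namespace Pool.Agent.H310

open FirstOrder FirstOrder.Language
open Pool.Agent.Helper672.ZFA

universe u u₁ u₂ u₃ u₄

variable {M : Type u} [L.Structure M] [hM : IsModel M]
variable {α : Type u₁} [ITy M α]

variable (M) in
/-- Homogeneous Cantor trees. -/
structure CanT (D : INat M × (α × α) → Prop) : Prop where
  int : Int M D
  refl : ∀ n a, D (n, (a, a))
  symm : ∀ n a b, D (n, (a, b)) → D (n, (b, a))
  trans : ∀ n a b c, D (n, (a, b)) → D (n, (b, c)) → D (n, (a, c))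
  zero : ∀ a b, D (0, (a, b))
  mono : ∀ n a b, D (n.succ, (a, b)) → D (n, (a, b))
  sep : ∀ a b, (∀ n, D (n, (a, b))) → a = b
  split : ∀ n a, ∃ b, D (n, (a, b)) ∧ ¬ D (n.succ, (a, b))
  bin : ∀ n a b c, D (n, (a, b)) → D (n, (a, c)) →
    D (n.succ, (a, b)) ∨ D (n.succ, (a, c)) ∨ D (n.succ, (b, c))
  ne : Nonempty α
  hom : ∀ W : α × INat M → Prop, Int M W → ∃ E : IPow M α, IFin E ∧ ∀ n x y,
    (∀ e, e ∈ E → ¬ D (n, (x, e))) → D (n, (x, y)) → ∀ k, W (x, k) → W (y, k)

variable {D : INat M × (α × α) → Prop} (h : CanT M D)

include h in
theorem CanT.int' : Int M (fun q : INat M × (α × α) => D (q.1, (q.2.1, q.2.2))) := h.int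

include h in
theorem CanT.le {m n : INat M} {a b : α} (hmn : m ≤ n) : D (n, (a, b)) → D (m, (a, b)) := by
  have hI := h.int
  revert hmn
  refine INat.ind (p := fun n => m ≤ n → D (n, (a, b)) → D (m, (a, b))) (by (repeat' (first | with_reducible exact IntF.id | with_reducible exact IntF.fst' | with_reducible exact IntF.snd' | with_reducible exact IntF.const _ | with_reducible exact Int.const _ | assumption | with_reducible apply Int.and | with_reducible apply Int.or | with_reducible apply Int.not | with_reducible apply Int.imp | with_reducible apply Int.iff | with_reducible apply Int.ne | with_reducible apply Int.eq | with_reducible apply Int.mem | with_reducible apply Int.subset | with_reducible apply Int.ltN | with_reducible apply Int.leN | with_reducible apply Int.fin | with_reducible apply Int.unique | with_reducible apply Int.all | with_reducible apply Int.ex | with_reducible apply IntF.fst | with_reducible apply IntF.snd | with_reducible apply IntF.app | with_reducible apply IntF.ite | with_reducible apply IntF.sep | with_reducible apply IntF.lam | with_reducible apply IntF.insert | with_reducible apply IntF.singleton | with_reducible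 apply IntF.union | with_reducible apply IntF.inter | with_reducible apply IntF.sdiff | with_reducible apply IntF.isUnion | with_reducible apply IntF.iimage | with_reducible apply IntF.the | with_reducible apply IntF.irec | with_reducible_and_instances apply IntF.add | with_reducible_and_instances apply IntF.mul | with_reducible apply IntF.succ | with_reducible apply IntF.val | (with_reducible refine Int.comp ?_ ?_; assumption) | (with_reducible refine Int.comp₂ ?_ ?_ ?_; assumption) | (with_reducible refine Int.comp₃ ?_ ?_ ?_ ?_; assumption) | (with_reducible refine IntF.comp ?_ ?_; assumption) | (with_reducible refine IntF.comp₂ ?_ ?_ ?_; assumption) | (with_reducible refine IntF.comp₃ ?_ ?_ ?_ ?_; assumption) | with_reducible apply IntF.pair))) ?_ ?_ n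
  · intro h1 h2
    rcases h1.lt_or_eq with h1 | rfl
    · exact absurd h1 INat.not_lt_zero
    · exact h2
  · intro n ih h1 h2
    rcases h1.lt_or_eq with h1 | rfl
    · exact ih (INat.lt_succ_iff.1 h1) (h.mono _ _ _ h2)
    · exact h2

include h in
/-- Uniformity. -/
theorem CanT.unif {W : α × INat M → Prop} (hW : Int M W)
    (hmono : ∀ x k l, k ≤ l → W (x, k) → W (x, l)) (hex : ∀ x, ∃ k, W (x, k))
    (hop : ∀ k x y, D (k, (x, y)) → W (x, k) → W (y, k)) : ∃ k, ∀ x, W (x, k) := by
  have hI := h.int
  obtain ⟨E, hE, hhom⟩ := h.hom W hW
  obtain ⟨n, hn⟩ := IFin.exists_bound (r := fun (e : α) (n : INat M) => W (e, n)) (by (repeat' (first | with_reducible exact IntF.id | with_reducible exact IntF.fst' | with_reducible exact IntF.snd' | with_reducible exact IntF.const _ | with_reducible exact Int.const _ | assumption | with_reducible apply Int.and | with_reducible apply Int.or | with_reducible apply Int.not | with_reducible apply Int.imp | with_reducible apply Int.iff | with_reducible apply Int.ne | with_reducible apply Int.eq | with_reducible apply Int.mem | with_reducible apply Int.subset | with_reducible apply Int.ltN | with_reducible apply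 Int.leN | with_reducible apply Int.fin | with_reducible apply Int.unique | with_reducible apply Int.all | with_reducible apply Int.ex | with_reducible apply IntF.fst | with_reducible apply IntF.snd | with_reducible apply IntF.app | with_reducible apply IntF.ite | with_reducible apply IntF.sep | with_reducible apply IntF.lam | with_reducible apply IntF.insert | with_reducible apply IntF.singleton | with_reducible apply IntF.union | with_reducible apply IntF.inter | with_reducible apply IntF.sdiff | with_reducible apply IntF.isUnion | with_reducible apply IntF.iimage | with_reducible apply IntF.the | with_reducible apply IntF.irec | with_reducible_and_instances apply IntF.add | with_reducible_and_instances apply IntF.mul | with_reducible apply IntF.succ | with_reducible apply IntF.val | (with_reducible refine Int.comp ?_ ?_; assumption) | (with_reducible refine Int.comp₂ ?_ ?_ ?_; assumption) | (with_reducible refine Int.comp₃ ?_ ?_ ?_ ?_; assumption) | (with_reducible refine IntF.comp ?_ ?_; assumption) | (with_reducible refine IntF.comp₂ ?_ ?_ ?_; assumption) | (with_reducible refine IntF.comp₃ ?_ ?_ ?_ ?_; assumption) | with_reducible apply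 IntF.pair)))
    (fun b c => ⟨max b c, fun a h1 => h1.elim (hmono _ _ _ (le_max_left _ _))
      (hmono _ _ _ (le_max_right _ _))⟩) ⟨0⟩ hE fun a _ => hex a
  have h1 : ∀ x, ∃ k, ∀ y, D (n, (x, y)) → W (y, k) := by
    intro x
    by_cases hx : ∃ e, e ∈ E ∧ D (n, (x, e))
    · obtain ⟨e, he, h2⟩ := hx
      exact ⟨n, fun y hy => hop _ _ _ (h.trans _ _ _ _ (h.symm _ _ _ h2) hy) (hn e he)⟩
    · obtain ⟨k, hk⟩ := hex x
      exact ⟨k, fun y hy => hhom n x y (fun e he h2 => hx ⟨e, he, h2⟩) hy k hk⟩
  have h2 : ∀ n, (∀ x, ∃ k, ∀ y, D (n, (x, y)) → W (y, k)) →
      ∀ x, ∃ k, ∀ y, D ((0 : INat M), (x, y)) → W (y, k) := by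
    refine INat.ind (p := fun n : INat M => (∀ x, ∃ k, ∀ y, D (n, (x, y)) → W (y, k)) →
      ∀ x, ∃ k, ∀ y, D ((0 : INat M), (x, y)) → W (y, k)) (by (repeat' (first | with_reducible exact IntF.id | with_reducible exact IntF.fst' | with_reducible exact IntF.snd' | with_reducible exact IntF.const _ | with_reducible exact Int.const _ | assumption | with_reducible apply Int.and | with_reducible apply Int.or | with_reducible apply Int.not | with_reducible apply Int.imp | with_reducible apply Int.iff | with_reducible apply Int.ne | with_reducible apply Int.eq | with_reducible apply Int.mem | with_reducible apply Int.subset | with_reducible apply Int.ltN | with_reducible apply Int.leN | with_reducible apply Int.fin | with_reducible apply Int.unique | with_reducible apply Int.all | with_reducible apply Int.ex | with_reducible apply IntF.fst | with_reducible apply IntF.snd | with_reducible apply IntF.app | with_reducible apply IntF.ite | with_reducible apply IntF.sep | with_reducible apply IntF.lam | with_reducible apply IntF.insert | with_reducible apply IntF.singleton | with_reducible apply IntF.union | with_reducible apply IntF.inter | with_reducible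 apply IntF.sdiff | with_reducible apply IntF.isUnion | with_reducible apply IntF.iimage | with_reducible apply IntF.the | with_reducible apply IntF.irec | with_reducible_and_instances apply IntF.add | with_reducible_and_instances apply IntF.mul | with_reducible apply IntF.succ | with_reducible apply IntF.val | (with_reducible refine Int.comp ?_ ?_; assumption) | (with_reducible refine Int.comp₂ ?_ ?_ ?_; assumption) | (with_reducible refine Int.comp₃ ?_ ?_ ?_ ?_; assumption) | (with_reducible refine IntF.comp ?_ ?_; assumption) | (with_reducible refine IntF.comp₂ ?_ ?_ ?_; assumption) | (with_reducible refine IntF.comp₃ ?_ ?_ ?_ ?_; assumption) | with_reducible apply IntF.pair))) id ?_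
    intro n ih h3
    refine ih fun x => ?_
    obtain ⟨x', h4, h5⟩ := h.split n x
    obtain ⟨k, hk⟩ := h3 x
    obtain ⟨l, hl⟩ := h3 x'
    refine ⟨max k l, fun y hy => ?_⟩
    rcases h.bin n x x' y h4 hy with h6 | h6 | h6
    · exact absurd h6 h5
    · exact hmono _ _ _ (le_max_left _ _) (hk y h6)
    · exact hmono _ _ _ (le_max_right _ _) (hl y h6)
  obtain ⟨a⟩ := h.ne
  obtain ⟨k, hk⟩ := h2 n h1 a
  exact ⟨k, fun x => hk x (h.zero _ _)⟩

include h in
/-- Finite nets. -/
theorem CanT.net (k : INat M) : ∃ F : IPow M α, IFin F ∧ ∀ x, ∃ y, y ∈ F ∧ D (k, (y, x)) := by
  have hI := h.int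
  refine INat.ind (p := fun k : INat M => ∃ F : IPow M α, IFin F ∧ ∀ x, ∃ y, y ∈ F ∧ D (k, (y, x)))
    (by (repeat' (first | with_reducible exact IntF.id | with_reducible exact IntF.fst' | with_reducible exact IntF.snd' | with_reducible exact IntF.const _ | with_reducible exact Int.const _ | assumption | with_reducible apply Int.and | with_reducible apply Int.or | with_reducible apply Int.not | with_reducible apply Int.imp | with_reducible apply Int.iff | with_reducible apply Int.ne | with_reducible apply Int.eq | with_reducible apply Int.mem | with_reducible apply Int.subset | with_reducible apply Int.ltN | with_reducible apply Int.leN | with_reducible apply Int.fin | with_reducible apply Int.unique | with_reducible apply Int.all | with_reducible apply Int.ex | with_reducible apply IntF.fst | with_reducible apply IntF.snd | with_reducible apply IntF.app | with_reducible apply IntF.ite | with_reducible apply IntF.sep | with_reducible apply IntF.lam | with_reducible apply IntF.insert | with_reducible apply IntF.singleton | with_reducible apply IntF.union | with_reducible apply IntF.inter | with_reducible apply IntF.sdiff | with_reducible apply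 IntF.isUnion | with_reducible apply IntF.iimage | with_reducible apply IntF.the | with_reducible apply IntF.irec | with_reducible_and_instances apply IntF.add | with_reducible_and_instances apply IntF.mul | with_reducible apply IntF.succ | with_reducible apply IntF.val | (with_reducible refine Int.comp ?_ ?_; assumption) | (with_reducible refine Int.comp₂ ?_ ?_ ?_; assumption) | (with_reducible refine Int.comp₃ ?_ ?_ ?_ ?_; assumption) | (with_reducible refine IntF.comp ?_ ?_; assumption) | (with_reducible refine IntF.comp₂ ?_ ?_ ?_; assumption) | (with_reducible refine IntF.comp₃ ?_ ?_ ?_ ?_; assumption) | with_reducible apply IntF.pair))) ?_ ?_ k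
  · obtain ⟨a⟩ := h.ne
    exact ⟨{a}, IFin.singleton a, fun x => ⟨a, mem_singleton.2 rfl, h.zero _ _⟩⟩
  · rintro n ⟨F, hF, h1⟩
    have h2 : ∀ F : IPow M α, IFin F → ∃ F' : IPow M α, IFin F' ∧ ∀ y, y ∈ F →
        y ∈ F' ∧ ∃ z, z ∈ F' ∧ D (n, (y, z)) ∧ ¬ D (n.succ, (y, z)) := by
      refine IFin.ind (by (repeat' (first | with_reducible exact IntF.id | with_reducible exact IntF.fst' | with_reducible exact IntF.snd' | with_reducible exact IntF.const _ | with_reducible exact Int.const _ | assumption | with_reducible apply Int.and | with_reducible apply Int.or | with_reducible apply Int.not | with_reducible apply Int.imp | with_reducible apply Int.iff | with_reducible apply Int.ne | with_reducible apply Int.eq | with_reducible apply Int.mem | with_reducible apply Int.subset | with_reducible apply Int.ltN | with_reducible apply Int.leN | with_reducible apply Int.fin | with_reducible apply Int.unique | with_reducible apply Int.all | with_reducible apply Int.ex | with_reducible apply IntF.fst | with_reducible apply IntF.snd | with_reducible apply IntF.app | with_reducible apply IntF.ite | with_reducible apply IntF.sep | with_reducible apply IntF.lam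 | with_reducible apply IntF.insert | with_reducible apply IntF.singleton | with_reducible apply IntF.union | with_reducible apply IntF.inter | with_reducible apply IntF.sdiff | with_reducible apply IntF.isUnion | with_reducible apply IntF.iimage | with_reducible apply IntF.the | with_reducible apply IntF.irec | with_reducible_and_instances apply IntF.add | with_reducible_and_instances apply IntF.mul | with_reducible apply IntF.succ | with_reducible apply IntF.val | (with_reducible refine Int.comp ?_ ?_; assumption) | (with_reducible refine Int.comp₂ ?_ ?_ ?_; assumption) | (with_reducible refine Int.comp₃ ?_ ?_ ?_ ?_; assumption) | (with_reducible refine IntF.comp ?_ ?_; assumption) | (with_reducible refine IntF.comp₂ ?_ ?_ ?_; assumption) | (with_reducible refine IntF.comp₃ ?_ ?_ ?_ ?_; assumption) | with_reducible apply IntF.pair))) ?_ ?_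
      · exact ⟨∅, IFin.empty, fun y hy => absurd hy (by simp)⟩
      · rintro s a - - ⟨F', hF', h2⟩
        obtain ⟨b, hb⟩ := h.split n a
        refine ⟨Insert.insert b (Insert.insert a F'), (hF'.insert a).insert b, fun y hy => ?_⟩
        rcases mem_insert.1 hy with rfl | hy
        · exact ⟨mem_insert.2 (Or.inr (mem_insert.2 (Or.inl rfl))), b, mem_insert.2 (Or.inl rfl), hb⟩
        · obtain ⟨h3, z, hz, h4⟩ := h2 y hy
          exact ⟨mem_insert.2 (Or.inr (mem_insert.2 (Or.inr h3))), z,
            mem_insert.2 (Or.inr (mem_insert.2 (Or.inr hz))), h4⟩
    obtain ⟨F', hF', h3⟩ := h2 F hF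
    refine ⟨F', hF', fun x => ?_⟩
    obtain ⟨y, hy, h4⟩ := h1 x
    obtain ⟨h5, z, hz, h6, h7⟩ := h3 y hy
    rcases h.bin n y x z h4 h6 with h8 | h8 | h8
    · exact ⟨y, h5, h8⟩
    · exact absurd h8 h7
    · exact ⟨z, hz, h.symm _ _ _ h8⟩

include h in
/-- Compactness. -/
theorem CanT.compact {C : IPow M (IPow M α)} (hC : ∀ U, U ∈ C → ∀ x, x ∈ U → ∃ n, ∀ y,
    D (n, (x, y)) → y ∈ U) (hcov : ∀ x, ∃ U, U ∈ C ∧ x ∈ U) :
    ∃ C' : IPow M (IPow M α), IFin C' ∧ C' ⊆ C ∧ ∀ x, ∃ U, U ∈ C' ∧ x ∈ U := by
  have hI := h.int
  obtain ⟨k, hk⟩ := h.unif (W := fun q => ∃ U, U ∈ C ∧ ∀ y, D (q.2, (q.1, y)) → y ∈ U) (by (repeat' (first | with_reducible exact IntF.id | with_reducible exact IntF.fst' | with_reducible exact IntF.snd' | with_reducible exact IntF.const _ | with_reducible exact Int.const _ | assumption | with_reducible apply Int.and | with_reducible apply Int.or | with_reducible apply Int.not | with_reducible apply Int.imp | with_reducible apply Int.iff | with_reducible apply Int.ne | with_reducible apply Int.eq | with_reducible apply Int.mem | with_reducible apply Int.subset | with_reducible apply Int.ltN | with_reducible apply Int.leN | with_reducible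 apply Int.fin | with_reducible apply Int.unique | with_reducible apply Int.all | with_reducible apply Int.ex | with_reducible apply IntF.fst | with_reducible apply IntF.snd | with_reducible apply IntF.app | with_reducible apply IntF.ite | with_reducible apply IntF.sep | with_reducible apply IntF.lam | with_reducible apply IntF.insert | with_reducible apply IntF.singleton | with_reducible apply IntF.union | with_reducible apply IntF.inter | with_reducible apply IntF.sdiff | with_reducible apply IntF.isUnion | with_reducible apply IntF.iimage | with_reducible apply IntF.the | with_reducible apply IntF.irec | with_reducible_and_instances apply IntF.add | with_reducible_and_instances apply IntF.mul | with_reducible apply IntF.succ | with_reducible apply IntF.val | (with_reducible refine Int.comp ?_ ?_; assumption) | (with_reducible refine Int.comp₂ ?_ ?_ ?_; assumption) | (with_reducible refine Int.comp₃ ?_ ?_ ?_ ?_; assumption) | (with_reducible refine IntF.comp ?_ ?_; assumption) | (with_reducible refine IntF.comp₂ ?_ ?_ ?_; assumption) | (with_reducible refine IntF.comp₃ ?_ ?_ ?_ ?_; assumption) | with_reducible apply IntF.pair)))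
    (fun x k l hkl ⟨U, hU, h1⟩ => ⟨U, hU, fun y hy => h1 y (h.le hkl hy)⟩)
    (fun x => by
      obtain ⟨U, hU, hx⟩ := hcov x
      obtain ⟨n, hn⟩ := hC U hU x hx
      exact ⟨n, U, hU, hn⟩)
    (fun k x y hxy ⟨U, hU, h1⟩ => ⟨U, hU, fun z hz => h1 z (h.trans _ _ _ _ hxy hz)⟩)
  obtain ⟨F, hF, h1⟩ := h.net k
  have h2 : ∀ F : IPow M α, IFin F → ∃ C' : IPow M (IPow M α), IFin C' ∧ C' ⊆ C ∧
      ∀ y, y ∈ F → ∃ U, U ∈ C' ∧ ∀ z, D (k, (y, z)) → z ∈ U := by
    refine IFin.ind (by (repeat' (first | with_reducible exact IntF.id | with_reducible exact IntF.fst' | with_reducible exact IntF.snd' | with_reducible exact IntF.const _ | with_reducible exact Int.const _ | assumption | with_reducible apply Int.and | with_reducible apply Int.or | with_reducible apply Int.not | with_reducible apply Int.imp | with_reducible apply Int.iff | with_reducible apply Int.ne | with_reducible apply Int.eq | with_reducible apply Int.mem | with_reducible apply Int.subset | with_reducible apply Int.ltN | with_reducible apply Int.leN | with_reducible apply Int.fin | with_reducible apply Int.unique | with_reducible apply Int.all | with_reducible apply Int.ex | with_reducible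 apply IntF.fst | with_reducible apply IntF.snd | with_reducible apply IntF.app | with_reducible apply IntF.ite | with_reducible apply IntF.sep | with_reducible apply IntF.lam | with_reducible apply IntF.insert | with_reducible apply IntF.singleton | with_reducible apply IntF.union | with_reducible apply IntF.inter | with_reducible apply IntF.sdiff | with_reducible apply IntF.isUnion | with_reducible apply IntF.iimage | with_reducible apply IntF.the | with_reducible apply IntF.irec | with_reducible_and_instances apply IntF.add | with_reducible_and_instances apply IntF.mul | with_reducible apply IntF.succ | with_reducible apply IntF.val | (with_reducible refine Int.comp ?_ ?_; assumption) | (with_reducible refine Int.comp₂ ?_ ?_ ?_; assumption) | (with_reducible refine Int.comp₃ ?_ ?_ ?_ ?_; assumption) | (with_reducible refine IntF.comp ?_ ?_; assumption) | (with_reducible refine IntF.comp₂ ?_ ?_ ?_; assumption) | (with_reducible refine IntF.comp₃ ?_ ?_ ?_ ?_; assumption) | with_reducible apply IntF.pair))) ?_ ?_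
    · exact ⟨∅, IFin.empty, fun y hy => absurd hy (by simp), fun y hy => absurd hy (by simp)⟩
    · rintro s a - - ⟨C', hC', h2, h3⟩
      obtain ⟨U, hU, h4⟩ := hk a
      refine ⟨Insert.insert U C', hC'.insert U, fun V hV => ?_, fun y hy => ?_⟩
      · rcases mem_insert.1 hV with rfl | hV
        · exact hU
        · exact h2 V hV
      · rcases mem_insert.1 hy with rfl | hy
        · exact ⟨U, mem_insert.2 (Or.inl rfl), h4⟩
        · obtain ⟨V, hV, h5⟩ := h3 y hy
          exact ⟨V, mem_insert.2 (Or.inr hV), h5⟩
  obtain ⟨C', hC', h3, h4⟩ := h2 F hF
  refine ⟨C', hC', h3, fun x => ?_⟩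
  obtain ⟨y, hy, h5⟩ := h1 x
  obtain ⟨U, hU, h6⟩ := h4 y hy
  exact ⟨U, hU, h6 x h5⟩

include h in
/-- Infinite sets contain balls. -/
theorem CanT.ball {Y : IPow M α} (hY : ¬ IFin Y) : ∃ x n, x ∈ Y ∧ ∀ y, D (n, (x, y)) → y ∈ Y := by
  have hI := h.int
  obtain ⟨E, hE, hhom⟩ := h.hom (fun q => q.1 ∈ Y) (by (repeat' (first | with_reducible exact IntF.id | with_reducible exact IntF.fst' | with_reducible exact IntF.snd' | with_reducible exact IntF.const _ | with_reducible exact Int.const _ | assumption | with_reducible apply Int.and | with_reducible apply Int.or | with_reducible apply Int.not | with_reducible apply Int.imp | with_reducible apply Int.iff | with_reducible apply Int.ne | with_reducible apply Int.eq | with_reducible apply Int.mem | with_reducible apply Int.subset | with_reducible apply Int.ltN | with_reducible apply Int.leN | with_reducible apply Int.fin | with_reducible apply Int.unique | with_reducible apply Int.all | with_reducible apply Int.ex | with_reducible apply IntF.fst | with_reducible apply IntF.snd | with_reducible apply IntF.app | with_reducible apply IntF.ite | with_reducible apply IntF.sep | with_reducible apply IntF.lam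 | with_reducible apply IntF.insert | with_reducible apply IntF.singleton | with_reducible apply IntF.union | with_reducible apply IntF.inter | with_reducible apply IntF.sdiff | with_reducible apply IntF.isUnion | with_reducible apply IntF.iimage | with_reducible apply IntF.the | with_reducible apply IntF.irec | with_reducible_and_instances apply IntF.add | with_reducible_and_instances apply IntF.mul | with_reducible apply IntF.succ | with_reducible apply IntF.val | (with_reducible refine Int.comp ?_ ?_; assumption) | (with_reducible refine Int.comp₂ ?_ ?_ ?_; assumption) | (with_reducible refine Int.comp₃ ?_ ?_ ?_ ?_; assumption) | (with_reducible refine IntF.comp ?_ ?_; assumption) | (with_reducible refine IntF.comp₂ ?_ ?_ ?_; assumption) | (with_reducible refine IntF.comp₃ ?_ ?_ ?_ ?_; assumption) | with_reducible apply IntF.pair)))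
  obtain ⟨x, hx, hxE⟩ : ∃ x, x ∈ Y ∧ ¬ x ∈ E := by
    by_contra hc
    push Not at hc
    exact hY (hE.subset hc)
  obtain ⟨n, hn⟩ := IFin.exists_bound (r := fun (e : α) (n : INat M) => ¬ D (n, (x, e))) (by (repeat' (first | with_reducible exact IntF.id | with_reducible exact IntF.fst' | with_reducible exact IntF.snd' | with_reducible exact IntF.const _ | with_reducible exact Int.const _ | assumption | with_reducible apply Int.and | with_reducible apply Int.or | with_reducible apply Int.not | with_reducible apply Int.imp | with_reducible apply Int.iff | with_reducible apply Int.ne | with_reducible apply Int.eq | with_reducible apply Int.mem | with_reducible apply Int.subset | with_reducible apply Int.ltN | with_reducible apply Int.leN | with_reducible apply Int.fin | with_reducible apply Int.unique | with_reducible apply Int.all | with_reducible apply Int.ex | with_reducible apply IntF.fst | with_reducible apply IntF.snd | with_reducible apply IntF.app | with_reducible apply IntF.ite | with_reducible apply IntF.sep | with_reducible apply IntF.lam | with_reducible apply IntF.insert | with_reducible apply IntF.singleton | with_reducible apply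 IntF.union | with_reducible apply IntF.inter | with_reducible apply IntF.sdiff | with_reducible apply IntF.isUnion | with_reducible apply IntF.iimage | with_reducible apply IntF.the | with_reducible apply IntF.irec | with_reducible_and_instances apply IntF.add | with_reducible_and_instances apply IntF.mul | with_reducible apply IntF.succ | with_reducible apply IntF.val | (with_reducible refine Int.comp ?_ ?_; assumption) | (with_reducible refine Int.comp₂ ?_ ?_ ?_; assumption) | (with_reducible refine Int.comp₃ ?_ ?_ ?_ ?_; assumption) | (with_reducible refine IntF.comp ?_ ?_; assumption) | (with_reducible refine IntF.comp₂ ?_ ?_ ?_; assumption) | (with_reducible refine IntF.comp₃ ?_ ?_ ?_ ?_; assumption) | with_reducible apply IntF.pair)))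
    (fun b c => ⟨max b c, fun a h1 h2 => h1.elim (fun h3 => h3 (h.le (le_max_left _ _) h2))
      (fun h3 => h3 (h.le (le_max_right _ _) h2))⟩) ⟨0⟩ hE fun a ha => by
        by_contra hc
        push Not at hc
        exact hxE (by rw [h.sep _ _ hc]; exact ha)
  exact ⟨x, n, hx, fun y hy => hhom n x y hn hy 0 hx⟩

end Pool.Agent.H310
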