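import Pool.Agent.H310R3.MetDefs
import Pool.Agent.H310R3.Bridge
import Pool.Agent.H310R3.Can
import Pool.Agent.H635R2.RealN

/-!
# The metric of a homogeneous Cantor tree
-/

set_option maxHeartbeats 1000000
set_option linter.all false
set_option synthInstance.maxSize 2000

namespace Pool.Agent.H310

open FirstOrder FirstOrder.Language
open Pool.Agent.Helper672.ZFA
open Pool.Agent.Helper672.Plain (LSet)
open Pool.Agent.Helper672.ZFA.H635 (toL plainN_ordPair plainN_graph plainN_opGraph)
open Pool.Agent.H635Amen (IsReals)
open Pool.Agent.H310Cards
open Pool.Agent.H310Metric

universe u u₁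

attribute [local instance] toL

section

variable {N : Type u} [LSet.Structure N] [hM : IsModel N]

theorem nat_iff {n : N} : IsNat n ↔ ∃ m : INat N, m.val = n := by
  constructor
  · intro h
    refine ⟨⟨n, fun i hi => h i ⟨?_, fun n hn => ?_⟩⟩, rfl⟩
    · obtain ⟨e, h1, h2, h3⟩ := hi.1
      exact ⟨e, h1, h3⟩
    · obtain ⟨s, h5, h6, h7⟩ := hi.2 n hn
      exact ⟨s, h5, h7⟩
  · rintro ⟨m, rfl⟩ i hi
    refine m.prop i ⟨?_, fun n hn => ?_⟩
    · obtain ⟨e, h1, h3⟩ := hi.1
      exact ⟨e, h1, trivial, h3⟩
    · obtain ⟨s, h5, h7⟩ := hi.2 n hn
      exact ⟨s, h5, trivial, h7⟩

theorem appN {f x y : N} : App f x y ↔ Mem (op x y) f := by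
  unfold App
  constructor
  · rintro ⟨q, h1, h2⟩
    rw [plainN_ordPair] at h1
    rw [← h1]
    exact h2
  · intro h
    exact ⟨_, plainN_ordPair.2 rfl, h⟩

theorem finite_of_finP {α : Type u₁} [ITy N α] {p : α → Prop} (hp : Int N p) {t : N}
    (ht : ∀ z, Mem z t ↔ ∃ x : α, p x ∧ code x = z) (h : FinP N p) : IsFinite t := by
  obtain ⟨e, n, h2, h3, h4⟩ := exists_BN (h.fin hp)
  have hm : ∀ x : α, x ∈ sep N p ↔ p x := fun x => mem_sep hp
  have hI : Int N (fun q : α × INat N => p q.1 ∧ e q.1 = q.2) := by (repeat' (first | with_reducible exact IntF.id | with_reducible exact IntF.fst' | with_reducible exact IntF.snd' | with_reducible exact IntF.const _ | with_reducible exact Int.const _ | assumption | with_reducible apply Int.and | with_reducible apply Int.or | with_reducible apply Int.not | with_reducible apply Int.imp | with_reducible apply Int.iff | with_reducible apply Int.ne | with_reducible apply Int.eq | with_reducible apply Int.mem | with_reducible apply Int.subset | with_reducible apply Int.ltN | with_reducible apply Int.leN | with_reducible apply Int.fin | with_reducible apply Int.unique | with_reducible apply Int.all | with_reducible apply Int.ex | with_reducible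 apply IntF.fst | with_reducible apply IntF.snd | with_reducible apply IntF.app | with_reducible apply IntF.ite | with_reducible apply IntF.sep | with_reducible apply IntF.lam | with_reducible apply IntF.insert | with_reducible apply IntF.singleton | with_reducible apply IntF.union | with_reducible apply IntF.inter | with_reducible apply IntF.sdiff | with_reducible apply IntF.isUnion | with_reducible apply IntF.iimage | with_reducible apply IntF.the | with_reducible apply IntF.irec | with_reducible_and_instances apply IntF.add | with_reducible_and_instances apply IntF.mul | with_reducible apply IntF.succ | with_reducible apply IntF.val | (with_reducible refine Int.comp ?_ ?_; assumption) | (with_reducible refine Int.comp₂ ?_ ?_ ?_; assumption) | (with_reducible refine Int.comp₃ ?_ ?_ ?_ ?_; assumption) | (with_reducible refine IntF.comp ?_ ?_; assumption) | (with_reducible refine IntF.comp₂ ?_ ?_ ?_; assumption) | (with_reducible refine IntF.comp₃ ?_ ?_ ?_ ?_; assumption) | with_reducible apply IntF.pair))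
  have hf : ∀ x y, App hI.small.elt x y ↔ ∃ a : α, p a ∧ code a = x ∧ code (e a) = y := by
    intro x y
    rw [appN, hI.small.mem]
    constructor
    · rintro ⟨⟨a, k⟩, ⟨h5, h6⟩, h7⟩
      obtain ⟨h8, h9⟩ := op_inj h7
      refine ⟨a, h5, h8, ?_⟩
      rw [← h9]
      exact congrArg code h6
    · rintro ⟨a, h5, rfl, rfl⟩
      exact ⟨(a, e a), ⟨h5, rfl⟩, rfl⟩
  refine ⟨n.val, hI.small.elt, nat_iff.2 ⟨n, rfl⟩, ⟨⟨fun q hq => ?_, fun x hx => ?_⟩,
    fun x x' y h5 h6 => ?_⟩, fun y hy => ?_⟩
  · obtain ⟨⟨a, k⟩, ⟨h5, h6⟩, rfl⟩ := hI.small.mem.1 hq
    obtain rfl : e a = k := h6
    exact ⟨code a, (e a).val, (ht _).2 ⟨a, h5, rfl⟩, h2 a ((hm a).2 h5), plainN_ordPair.2 rfl⟩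
  · obtain ⟨a, h5, rfl⟩ := (ht x).1 hx
    refine ⟨code (e a), (hf _ _).2 ⟨a, h5, rfl, rfl⟩, fun y hy => ?_⟩
    obtain ⟨b, h6, h7, h8⟩ := (hf _ _).1 hy
    rw [← h8, ITy.inj h7]
  · obtain ⟨a, h7, rfl, h8⟩ := (hf _ _).1 h5
    obtain ⟨b, h9, rfl, h10⟩ := (hf _ _).1 h6
    rw [h3 a b ((hm a).2 h7) ((hm b).2 h9) (ITy.inj (h8.trans h10.symm))]
  · replace hy : Mem y n.val := hy
    obtain ⟨m, h5, rfl⟩ := mem_nat hy
    obtain ⟨b, hb, rfl⟩ := h4 m h5
    exact ⟨code b, (hf _ _).2 ⟨b, (hm b).1 hb, rfl, rfl⟩⟩

noncomputable local instance instPEl (x : N) : ITy N (Helper672.Plain.El x) := (inferInstance : ITy N (El x))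

theorem code_PEl {x : N} (z : Helper672.Plain.El x) : code (M := N) z = z.1 := rfl

theorem exists_q {r : N} [Field (Helper672.Plain.El r)] [LinearOrder (Helper672.Plain.El r)]
    [IsStrictOrderedRing (Helper672.Plain.El r)] (hr : IsReals r) :
    ∃ q : INat N → Helper672.Plain.El r, IntF N q ∧ (∀ n, 0 < q n) ∧ (∀ m n, m < n → q n < q m) ∧
      ∀ ε, 0 < ε → ∃ n, q n < ε := by
  obtain ⟨ga, ha⟩ := hr.add
  obtain ⟨gl, hl⟩ := hr.le
  have ha' : Int N (fun q : (Helper672.Plain.El r × Helper672.Plain.El r) × Helper672.Plain.El r => q.1.1 + q.1.2 = q.2) :=
    ⟨ga, fun q => ((ha q.1.1 q.1.2 q.2).trans plainN_opGraph).symm⟩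
  have hl' : Int N (fun q : Helper672.Plain.El r × Helper672.Plain.El r => q.1 ≤ q.2) :=
    ⟨gl, fun q => ((hl q.1 q.2).trans plainN_graph).symm⟩
  have hadd : IntF N (fun q : Helper672.Plain.El r × Helper672.Plain.El r => q.1 + q.2) := ha'
  obtain ⟨F, hF, hFy⟩ : ∃ F : Helper672.Plain.El r → Helper672.Plain.El r, IntF N F ∧ ∀ y, F y = y / 2 := by
    refine ⟨fun y => y / 2, ?_, fun y => rfl⟩
    refine IntF.of_rel (r := fun y z => z + z = y) (by (repeat' (first | with_reducible exact IntF.id | with_reducible exact IntF.fst' | with_reducible exact IntF.snd' | with_reducible exact IntF.const _ | with_reducible exact Int.const _ | assumption | with_reducible apply Int.and | with_reducible apply Int.or | with_reducible apply Int.not | with_reducible apply Int.imp | with_reducible apply Int.iff | with_reducible apply Int.ne | with_reducible apply Int.eq | with_reducible apply Int.mem | with_reducible apply Int.subset | with_reducible apply Int.ltN | with_reducible apply Int.leN | with_reducible apply Int.fin | with_reducible apply Int.unique | with_reducible apply Int.all | with_reducible apply Int.ex | with_reducible apply IntF.fst | with_reducible apply IntF.snd |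 with_reducible apply IntF.app | with_reducible apply IntF.ite | with_reducible apply IntF.sep | with_reducible apply IntF.lam | with_reducible apply IntF.insert | with_reducible apply IntF.singleton | with_reducible apply IntF.union | with_reducible apply IntF.inter | with_reducible apply IntF.sdiff | with_reducible apply IntF.isUnion | with_reducible apply IntF.iimage | with_reducible apply IntF.the | with_reducible apply IntF.irec | with_reducible_and_instances apply IntF.add | with_reducible_and_instances apply IntF.mul | with_reducible apply IntF.succ | with_reducible apply IntF.val | (with_reducible refine Int.comp ?_ ?_; assumption) | (with_reducible refine Int.comp₂ ?_ ?_ ?_; assumption) | (with_reducible refine Int.comp₃ ?_ ?_ ?_ ?_; assumption) | (with_reducible refine IntF.comp ?_ ?_; assumption) | (with_reducible refine IntF.comp₂ ?_ ?_ ?_; assumption) | (with_reducible refine IntF.comp₃ ?_ ?_ ?_ ?_; assumption) | with_reducible apply IntF.pair))) fun y z => ?_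
    rw [div_eq_iff two_ne_zero, mul_two]
    exact eq_comm
  have hq : IntF N (fun n : INat N => irec (1 : Helper672.Plain.El r) (fun _ y => F y) n) := by (repeat' (first | with_reducible exact IntF.id | with_reducible exact IntF.fst' | with_reducible exact IntF.snd' | with_reducible exact IntF.const _ | with_reducible exact Int.const _ | assumption | with_reducible apply Int.and | with_reducible apply Int.or | with_reducible apply Int.not | with_reducible apply Int.imp | with_reducible apply Int.iff | with_reducible apply Int.ne | with_reducible apply Int.eq | with_reducible apply Int.mem | with_reducible apply Int.subset | with_reducible apply Int.ltN | with_reducible apply Int.leN | with_reducible apply Int.fin | with_reducible apply Int.unique | with_reducible apply Int.all | with_reducible apply Int.ex | with_reducible apply IntF.fst | with_reducible apply IntF.snd | with_reducible apply IntF.app | with_reducible apply IntF.ite | with_reducible apply IntF.sep | with_reducible apply IntF.lam | with_reducible apply IntF.insert | with_reducible apply IntF.singleton | with_reducible apply IntF.union | with_reducible apply IntF.inter | with_reducible apply IntF.sdiff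 | with_reducible apply IntF.isUnion | with_reducible apply IntF.iimage | with_reducible apply IntF.the | with_reducible apply IntF.irec | with_reducible_and_instances apply IntF.add | with_reducible_and_instances apply IntF.mul | with_reducible apply IntF.succ | with_reducible apply IntF.val | (with_reducible refine Int.comp ?_ ?_; assumption) | (with_reducible refine Int.comp₂ ?_ ?_ ?_; assumption) | (with_reducible refine Int.comp₃ ?_ ?_ ?_ ?_; assumption) | (with_reducible refine IntF.comp ?_ ?_; assumption) | (with_reducible refine IntF.comp₂ ?_ ?_ ?_; assumption) | (with_reducible refine IntF.comp₃ ?_ ?_ ?_ ?_; assumption) | with_reducible apply IntF.pair))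
  have hs : ∀ n : INat N, irec (1 : Helper672.Plain.El r) (fun _ y => F y) n.succ =
      irec (1 : Helper672.Plain.El r) (fun _ y => F y) n / 2 := fun n => by
    rw [irec_succ (by (repeat' (first | with_reducible exact IntF.id | with_reducible exact IntF.fst' | with_reducible exact IntF.snd' | with_reducible exact IntF.const _ | with_reducible exact Int.const _ | assumption | with_reducible apply Int.and | with_reducible apply Int.or | with_reducible apply Int.not | with_reducible apply Int.imp | with_reducible apply Int.iff | with_reducible apply Int.ne | with_reducible apply Int.eq | with_reducible apply Int.mem | with_reducible apply Int.subset | with_reducible apply Int.ltN | with_reducible apply Int.leN | with_reducible apply Int.fin | with_reducible apply Int.unique | with_reducible apply Int.all | with_reducible apply Int.ex | with_reducible apply IntF.fst | with_reducible apply IntF.snd | with_reducible apply IntF.app | with_reducible apply IntF.ite | with_reducible apply IntF.sep | with_reducible apply IntF.lam | with_reducible apply IntF.insert | with_reducible apply IntF.singleton | with_reducible apply IntF.union | with_reducible apply IntF.inter | with_reducible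 apply IntF.sdiff | with_reducible apply IntF.isUnion | with_reducible apply IntF.iimage | with_reducible apply IntF.the | with_reducible apply IntF.irec | with_reducible_and_instances apply IntF.add | with_reducible_and_instances apply IntF.mul | with_reducible apply IntF.succ | with_reducible apply IntF.val | (with_reducible refine Int.comp ?_ ?_; assumption) | (with_reducible refine Int.comp₂ ?_ ?_ ?_; assumption) | (with_reducible refine Int.comp₃ ?_ ?_ ?_ ?_; assumption) | (with_reducible refine IntF.comp ?_ ?_; assumption) | (with_reducible refine IntF.comp₂ ?_ ?_ ?_; assumption) | (with_reducible refine IntF.comp₃ ?_ ?_ ?_ ?_; assumption) | with_reducible apply IntF.pair))) n, hFy]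
  have h0 : irec (1 : Helper672.Plain.El r) (fun _ y => F y) (0 : INat N) = 1 := irec_zero (by (repeat' (first | with_reducible exact IntF.id | with_reducible exact IntF.fst' | with_reducible exact IntF.snd' | with_reducible exact IntF.const _ | with_reducible exact Int.const _ | assumption | with_reducible apply Int.and | with_reducible apply Int.or | with_reducible apply Int.not | with_reducible apply Int.imp | with_reducible apply Int.iff | with_reducible apply Int.ne | with_reducible apply Int.eq | with_reducible apply Int.mem | with_reducible apply Int.subset | with_reducible apply Int.ltN | with_reducible apply Int.leN | with_reducible apply Int.fin | with_reducible apply Int.unique | with_reducible apply Int.all | with_reducible apply Int.ex | with_reducible apply IntF.fst | with_reducible apply IntF.snd | with_reducible apply IntF.app | with_reducible apply IntF.ite | with_reducible apply IntF.sep | with_reducible apply IntF.lam | with_reducible apply IntF.insert | with_reducible apply IntF.singleton | with_reducible apply IntF.union | with_reducible apply IntF.inter | with_reducible apply IntF.sdiff | with_reducible apply IntF.isUnion | with_reducible apply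 IntF.iimage | with_reducible apply IntF.the | with_reducible apply IntF.irec | with_reducible_and_instances apply IntF.add | with_reducible_and_instances apply IntF.mul | with_reducible apply IntF.succ | with_reducible apply IntF.val | (with_reducible refine Int.comp ?_ ?_; assumption) | (with_reducible refine Int.comp₂ ?_ ?_ ?_; assumption) | (with_reducible refine Int.comp₃ ?_ ?_ ?_ ?_; assumption) | (with_reducible refine IntF.comp ?_ ?_; assumption) | (with_reducible refine IntF.comp₂ ?_ ?_ ?_; assumption) | (with_reducible refine IntF.comp₃ ?_ ?_ ?_ ?_; assumption) | with_reducible apply IntF.pair)))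
  have hlt' : Int N (fun q : Helper672.Plain.El r × Helper672.Plain.El r => q.1 < q.2) := by
    refine Int.congr (p := fun q : Helper672.Plain.El r × Helper672.Plain.El r => ¬ q.2 ≤ q.1) (by (repeat' (first | with_reducible exact IntF.id | with_reducible exact IntF.fst' | with_reducible exact IntF.snd' | with_reducible exact IntF.const _ | with_reducible exact Int.const _ | assumption | with_reducible apply Int.and | with_reducible apply Int.or | with_reducible apply Int.not | with_reducible apply Int.imp | with_reducible apply Int.iff | with_reducible apply Int.ne | with_reducible apply Int.eq | with_reducible apply Int.mem | with_reducible apply Int.subset | with_reducible apply Int.ltN | with_reducible apply Int.leN | with_reducible apply Int.fin | with_reducible apply Int.unique | with_reducible apply Int.all | with_reducible apply Int.ex | with_reducible apply IntF.fst | with_reducible apply IntF.snd | with_reducible apply IntF.app | with_reducible apply IntF.ite | with_reducible apply IntF.sep | with_reducible apply IntF.lam | with_reducible apply IntF.insert | with_reducible apply IntF.singleton | with_reducible apply IntF.union | with_reducible apply IntF.inter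 | with_reducible apply IntF.sdiff | with_reducible apply IntF.isUnion | with_reducible apply IntF.iimage | with_reducible apply IntF.the | with_reducible apply IntF.irec | with_reducible_and_instances apply IntF.add | with_reducible_and_instances apply IntF.mul | with_reducible apply IntF.succ | with_reducible apply IntF.val | (with_reducible refine Int.comp ?_ ?_; assumption) | (with_reducible refine Int.comp₂ ?_ ?_ ?_; assumption) | (with_reducible refine Int.comp₃ ?_ ?_ ?_ ?_; assumption) | (with_reducible refine IntF.comp ?_ ?_; assumption) | (with_reducible refine IntF.comp₂ ?_ ?_ ?_; assumption) | (with_reducible refine IntF.comp₃ ?_ ?_ ?_ ?_; assumption) | with_reducible apply IntF.pair))) fun q => ?_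
    exact not_le
  have hpos : ∀ n : INat N, 0 < irec (1 : Helper672.Plain.El r) (fun _ y => F y) n := by
    refine INat.ind (by (repeat' (first | with_reducible exact IntF.id | with_reducible exact IntF.fst' | with_reducible exact IntF.snd' | with_reducible exact IntF.const _ | with_reducible exact Int.const _ | assumption | with_reducible apply Int.and | with_reducible apply Int.or | with_reducible apply Int.not | with_reducible apply Int.imp | with_reducible apply Int.iff | with_reducible apply Int.ne | with_reducible apply Int.eq | with_reducible apply Int.mem | with_reducible apply Int.subset | with_reducible apply Int.ltN | with_reducible apply Int.leN | with_reducible apply Int.fin | with_reducible apply Int.unique | with_reducible apply Int.all | with_reducible apply Int.ex | with_reducible apply IntF.fst | with_reducible apply IntF.snd | with_reducible apply IntF.app | with_reducible apply IntF.ite | with_reducible apply IntF.sep | with_reducible apply IntF.lam | with_reducible apply IntF.insert | with_reducible apply IntF.singleton | with_reducible apply IntF.union | with_reducible apply IntF.inter | with_reducible apply IntF.sdiff | with_reducible apply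 IntF.isUnion | with_reducible apply IntF.iimage | with_reducible apply IntF.the | with_reducible apply IntF.irec | with_reducible_and_instances apply IntF.add | with_reducible_and_instances apply IntF.mul | with_reducible apply IntF.succ | with_reducible apply IntF.val | (with_reducible refine Int.comp ?_ ?_; assumption) | (with_reducible refine Int.comp₂ ?_ ?_ ?_; assumption) | (with_reducible refine Int.comp₃ ?_ ?_ ?_ ?_; assumption) | (with_reducible refine IntF.comp ?_ ?_; assumption) | (with_reducible refine IntF.comp₂ ?_ ?_ ?_; assumption) | (with_reducible refine IntF.comp₃ ?_ ?_ ?_ ?_; assumption) | with_reducible apply IntF.pair))) ?_ ?_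
    · rw [h0]
      exact one_pos
    · intro n ih
      rw [hs]
      exact half_pos ih
  refine ⟨_, hq, hpos, ?_, ?_⟩
  · intro m n
    have h1 : ∀ n : INat N, irec (1 : Helper672.Plain.El r) (fun _ y => F y) n.succ <
        irec (1 : Helper672.Plain.El r) (fun _ y => F y) n := by
      intro n
      rw [hs]
      exact half_lt_self (hpos n)
    refine INat.ind (p := fun n : INat N => m < n →
      irec (1 : Helper672.Plain.El r) (fun _ y => F y) n <
        irec (1 : Helper672.Plain.El r) (fun _ y => F y) m) (by (repeat' (first | with_reducible exact IntF.id | with_reducible exact IntF.fst' | with_reducible exact IntF.snd' | with_reducible exact IntF.const _ | with_reducible exact Int.const _ | assumption | with_reducible apply Int.and | with_reducible apply Int.or | with_reducible apply Int.not | with_reducible apply Int.imp | with_reducible apply Int.iff | with_reducible apply Int.ne | with_reducible apply Int.eq | with_reducible apply Int.mem | with_reducible apply Int.subset | with_reducible apply Int.ltN | with_reducible apply Int.leN | with_reducible apply Int.fin | with_reducible apply Int.unique | with_reducible apply Int.all | with_reducible apply Int.ex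 | with_reducible apply IntF.fst | with_reducible apply IntF.snd | with_reducible apply IntF.app | with_reducible apply IntF.ite | with_reducible apply IntF.sep | with_reducible apply IntF.lam | with_reducible apply IntF.insert | with_reducible apply IntF.singleton | with_reducible apply IntF.union | with_reducible apply IntF.inter | with_reducible apply IntF.sdiff | with_reducible apply IntF.isUnion | with_reducible apply IntF.iimage | with_reducible apply IntF.the | with_reducible apply IntF.irec | with_reducible_and_instances apply IntF.add | with_reducible_and_instances apply IntF.mul | with_reducible apply IntF.succ | with_reducible apply IntF.val | (with_reducible refine Int.comp ?_ ?_; assumption) | (with_reducible refine Int.comp₂ ?_ ?_ ?_; assumption) | (with_reducible refine Int.comp₃ ?_ ?_ ?_ ?_; assumption) | (with_reducible refine IntF.comp ?_ ?_; assumption) | (with_reducible refine IntF.comp₂ ?_ ?_ ?_; assumption) | (with_reducible refine IntF.comp₃ ?_ ?_ ?_ ?_; assumption) | with_reducible apply IntF.pair))) ?_ ?_ n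
    · intro h
      exact absurd h INat.not_lt_zero
    · intro n ih h
      rcases INat.lt_succ_iff'.1 h with h | rfl
      · exact (h1 n).trans (ih h)
      · exact h1 m
  · intro ε hε
    by_contra hc
    push Not at hc
    have hS : Int N (fun x : Helper672.Plain.El r => ∀ n : INat N, x ≤ irec (1 : Helper672.Plain.El r) (fun _ y => F y) n) := by
      (repeat' (first | with_reducible exact IntF.id | with_reducible exact IntF.fst' | with_reducible exact IntF.snd' | with_reducible exact IntF.const _ | with_reducible exact Int.const _ | assumption | with_reducible apply Int.and | with_reducible apply Int.or | with_reducible apply Int.not | with_reducible apply Int.imp | with_reducible apply Int.iff | with_reducible apply Int.ne | with_reducible apply Int.eq | with_reducible apply Int.mem | with_reducible apply Int.subset | with_reducible apply Int.ltN | with_reducible apply Int.leN | with_reducible apply Int.fin | with_reducible apply Int.unique | with_reducible apply Int.all | with_reducible apply Int.ex | with_reducible apply IntF.fst | with_reducible apply IntF.snd | with_reducible apply IntF.app | with_reducible apply IntF.ite | with_reducible apply IntF.sep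 | with_reducible apply IntF.lam | with_reducible apply IntF.insert | with_reducible apply IntF.singleton | with_reducible apply IntF.union | with_reducible apply IntF.inter | with_reducible apply IntF.sdiff | with_reducible apply IntF.isUnion | with_reducible apply IntF.iimage | with_reducible apply IntF.the | with_reducible apply IntF.irec | with_reducible_and_instances apply IntF.add | with_reducible_and_instances apply IntF.mul | with_reducible apply IntF.succ | with_reducible apply IntF.val | (with_reducible refine Int.comp ?_ ?_; assumption) | (with_reducible refine Int.comp₂ ?_ ?_ ?_; assumption) | (with_reducible refine Int.comp₃ ?_ ?_ ?_ ?_; assumption) | (with_reducible refine IntF.comp ?_ ?_; assumption) | (with_reducible refine IntF.comp₂ ?_ ?_ ?_; assumption) | (with_reducible refine IntF.comp₃ ?_ ?_ ?_ ?_; assumption) | with_reducible apply IntF.pair))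
    obtain ⟨s, hs1⟩ : ∃ s : N, ∀ z, Helper672.Plain.Mem z s ↔ ∃ x : Helper672.Plain.El r,
        (∀ n : INat N, x ≤ irec (1 : Helper672.Plain.El r) (fun _ y => F y) n) ∧ x.1 = z :=
      ⟨hS.small.elt, fun z => hS.small.mem⟩
    have hs2 : ∀ x : Helper672.Plain.El r, Helper672.Plain.Mem x.1 s ↔
        ∀ n : INat N, x ≤ irec (1 : Helper672.Plain.El r) (fun _ y => F y) n := fun x =>
      (hs1 x.1).trans ⟨fun ⟨y, h1, h2⟩ => (Subtype.ext h2 : y = x) ▸ h1, fun h => ⟨x, h, rfl⟩⟩
    obtain ⟨c, h1, h2⟩ := hr.complete ⟨s, fun x hx => by
        obtain ⟨y, -, rfl⟩ := (hs1 x).1 hx
        exact y.2⟩ ⟨ε.1, (hs2 ε).2 hc⟩ ⟨1, fun x hx => by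
        have := (hs2 x).1 hx 0
        rwa [h0] at this⟩
    have h3 : ∀ n : INat N, c ≤ irec (1 : Helper672.Plain.El r) (fun _ y => F y) n := fun n =>
      h2 fun x hx => (hs2 x).1 hx n
    have h4 : c + c ≤ c := h1 ((hs2 (c + c)).2 fun n => by
      have := h3 n.succ
      rw [hs] at this
      linarith)
    have h5 : ε ≤ c := h1 ((hs2 ε).2 hc)
    linarith

theorem mem_cp {α : Type u₁} [ITy N α] {s : IPow N α} {z : N} :
    Helper672.Plain.Mem z (code s) ↔ ∃ a, a ∈ s ∧ code a = z := mem_code_pow (s := s)

theorem extN {x y : N} (h : ∀ z, Helper672.Plain.Mem z x ↔ Helper672.Plain.Mem z y) : x = y :=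
  hM.ext x y trivial trivial h

theorem exists_code {a u : N} (h : ∀ z, Helper672.Plain.Mem z u → Helper672.Plain.Mem z a) :
    ∃ U : IPow N (Helper672.Plain.El a), code U = u ∧ ∀ x, x ∈ U ↔ Helper672.Plain.Mem x.1 u := by
  have hI : Int N (fun x : Helper672.Plain.El a => Mem (code x) u) := ⟨u, fun x => Iff.rfl⟩
  refine ⟨⟨_, hI⟩, extN fun z => ?_, fun x => Iff.rfl⟩
  refine (mem_code_pow (s := (⟨_, hI⟩ : IPow N (Helper672.Plain.El a)))).trans
    ⟨?_, fun hz => ⟨⟨z, h z hz⟩, hz, rfl⟩⟩
  rintro ⟨x, hx, rfl⟩
  exact hx

/-- The distance. -/
def Rd {α : Type u₁} (D : INat N × (α × α) → Prop) {β : Type u₁} (q : INat N → β) (o : β) (a b : α)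
    (z : β) : Prop :=
  (a = b ∧ z = o) ∨ ∃ n, D (n, (a, b)) ∧ ¬ D (n.succ, (a, b)) ∧ z = q n

theorem exists_metric {a : N} {D : INat N × (Helper672.Plain.El a × Helper672.Plain.El a) → Prop}
    (h : CanT N D) {r : N} [Field (Helper672.Plain.El r)] [LinearOrder (Helper672.Plain.El r)]
    [IsStrictOrderedRing (Helper672.Plain.El r)] (hr : IsReals r) :
    ∃ d : Helper672.Plain.El a → Helper672.Plain.El a → Helper672.Plain.El r,
      IsMetric d ∧ IsCompact d a ∧ (∀ z, ¬ IsIsolated d a z) ∧
      ∀ y, (∀ z, Helper672.Plain.Mem z y → Helper672.Plain.Mem z a) → ¬ IsFinite y →
        ¬ IsScattered d y := by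
  obtain ⟨q, hq, hpos, hanti, hlim⟩ := exists_q hr
  have hD := h.int
  have hqi : ∀ m n, q m < q n → n < m := by
    intro m n hmn
    by_contra hc
    rcases (not_lt.1 hc).lt_or_eq with h1 | rfl
    · exact lt_asymm hmn (hanti _ _ h1)
    · exact lt_irrefl _ hmn
  have hle : ∀ m n, m ≤ n → q n ≤ q m := by
    intro m n hmn
    rcases hmn.lt_or_eq with h1 | rfl
    · exact (hanti _ _ h1).le
    · exact le_rfl
  have hR : Int N (fun c : (Helper672.Plain.El a × Helper672.Plain.El a) × Helper672.Plain.El r =>
      Rd D q 0 c.1.1 c.1.2 c.2) := by
    unfold Rd
    (repeat' (first | with_reducible exact IntF.id | with_reducible exact IntF.fst' | with_reducible exact IntF.snd' | with_reducible exact IntF.const _ | with_reducible exact Int.const _ | assumption | with_reducible apply Int.and | with_reducible apply Int.or | with_reducible apply Int.not | with_reducible apply Int.imp | with_reducible apply Int.iff | with_reducible apply Int.ne | with_reducible apply Int.eq | with_reducible apply Int.mem | with_reducible apply Int.subset | with_reducible apply Int.ltN | with_reducible apply Int.leN | with_reducible apply Int.fin | with_reducible apply Int.unique | with_reducible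 apply Int.all | with_reducible apply Int.ex | with_reducible apply IntF.fst | with_reducible apply IntF.snd | with_reducible apply IntF.app | with_reducible apply IntF.ite | with_reducible apply IntF.sep | with_reducible apply IntF.lam | with_reducible apply IntF.insert | with_reducible apply IntF.singleton | with_reducible apply IntF.union | with_reducible apply IntF.inter | with_reducible apply IntF.sdiff | with_reducible apply IntF.isUnion | with_reducible apply IntF.iimage | with_reducible apply IntF.the | with_reducible apply IntF.irec | with_reducible_and_instances apply IntF.add | with_reducible_and_instances apply IntF.mul | with_reducible apply IntF.succ | with_reducible apply IntF.val | (with_reducible refine Int.comp ?_ ?_; assumption) | (with_reducible refine Int.comp₂ ?_ ?_ ?_; assumption) | (with_reducible refine Int.comp₃ ?_ ?_ ?_ ?_; assumption) | (with_reducible refine IntF.comp ?_ ?_; assumption) | (with_reducible refine IntF.comp₂ ?_ ?_ ?_; assumption) | (with_reducible refine IntF.comp₃ ?_ ?_ ?_ ?_; assumption) | with_reducible apply IntF.pair))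
  have hex : ∀ x y, ∃ z, Rd D q 0 x y z := by
    intro x y
    by_cases hxy : x = y
    · exact ⟨0, Or.inl ⟨hxy, rfl⟩⟩
    · have h1 : ∃ n, ¬ D (n, (x, y)) := by
        by_contra hc
        push Not at hc
        exact hxy (h.sep _ _ hc)
      obtain ⟨n, hn, hmin⟩ := INat.exists_least (p := fun n => ¬ D (n, (x, y))) (by (repeat' (first | with_reducible exact IntF.id | with_reducible exact IntF.fst' | with_reducible exact IntF.snd' | with_reducible exact IntF.const _ | with_reducible exact Int.const _ | assumption | with_reducible apply Int.and | with_reducible apply Int.or | with_reducible apply Int.not | with_reducible apply Int.imp | with_reducible apply Int.iff | with_reducible apply Int.ne | with_reducible apply Int.eq | with_reducible apply Int.mem | with_reducible apply Int.subset | with_reducible apply Int.ltN | with_reducible apply Int.leN | with_reducible apply Int.fin | with_reducible apply Int.unique | with_reducible apply Int.all | with_reducible apply Int.ex | with_reducible apply IntF.fst | with_reducible apply IntF.snd | with_reducible apply IntF.app | with_reducible apply IntF.ite | with_reducible apply IntF.sep | with_reducible apply IntF.lam |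 with_reducible apply IntF.insert | with_reducible apply IntF.singleton | with_reducible apply IntF.union | with_reducible apply IntF.inter | with_reducible apply IntF.sdiff | with_reducible apply IntF.isUnion | with_reducible apply IntF.iimage | with_reducible apply IntF.the | with_reducible apply IntF.irec | with_reducible_and_instances apply IntF.add | with_reducible_and_instances apply IntF.mul | with_reducible apply IntF.succ | with_reducible apply IntF.val | (with_reducible refine Int.comp ?_ ?_; assumption) | (with_reducible refine Int.comp₂ ?_ ?_ ?_; assumption) | (with_reducible refine Int.comp₃ ?_ ?_ ?_ ?_; assumption) | (with_reducible refine IntF.comp ?_ ?_; assumption) | (with_reducible refine IntF.comp₂ ?_ ?_ ?_; assumption) | (with_reducible refine IntF.comp₃ ?_ ?_ ?_ ?_; assumption) | with_reducible apply IntF.pair))) h1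
      rcases INat.eq_zero_or_succ n with rfl | ⟨m, rfl⟩
      · exact absurd (h.zero _ _) hn
      · refine ⟨q m, Or.inr ⟨m, ?_, hn, rfl⟩⟩
        by_contra hc
        exact absurd (INat.lt_succ_self m) (not_lt.2 (hmin m hc))
  have huniq : ∀ x y z z', Rd D q 0 x y z → Rd D q 0 x y z' → z = z' := by
    rintro x y z z' (⟨rfl, rfl⟩ | ⟨n, h1, h2, rfl⟩) (⟨h3, rfl⟩ | ⟨m, h3, h4, rfl⟩)
    · rfl
    · exact absurd (h.refl _ _) h4
    · rw [h3] at h2
      exact absurd (h.refl _ _) h2
    · rcases lt_trichotomy n m with h5 | rfl | h5
      · exact absurd (h.le (INat.succ_le_iff.2 h5) h3) h2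
      · rfl
      · exact absurd (h.le (INat.succ_le_iff.2 h5) h1) h4
  choose d hd using hex
  have hd' : ∀ x y z, d x y = z ↔ Rd D q 0 x y z := fun x y z =>
    ⟨fun h => h ▸ hd x y, fun h => huniq _ _ _ _ (hd x y) h⟩
  have hself : ∀ x, d x x = 0 := fun x => (hd' _ _ _).2 (Or.inl ⟨rfl, rfl⟩)
  have hnonneg : ∀ x y, 0 ≤ d x y := by
    intro x y
    rcases hd x y with ⟨-, h1⟩ | ⟨n, -, -, h1⟩
    · exact h1.ge
    · rw [h1]
      exact (hpos n).le
  have hdle : ∀ n x y, D (n, (x, y)) → d x y ≤ q n := by
    intro n x y hn
    rcases hd x y with ⟨-, h1⟩ | ⟨m, h1, h2, h3⟩
    · rw [h1]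
      exact (hpos n).le
    · rw [h3]
      refine hle _ _ ?_
      by_contra hc
      exact h2 (h.le (INat.succ_le_iff.2 (not_le.1 hc)) hn)
  have hdlt : ∀ n x y, d x y < q n → D (n.succ, (x, y)) := by
    intro n x y hn
    rcases hd x y with ⟨h0, h1⟩ | ⟨m, h1, h2, h3⟩
    · rw [h0]
      exact h.refl _ _
    · rw [h3] at hn
      exact h.le (INat.succ_le_iff.2 (hqi _ _ hn)) h1
  have hsplit : ∀ n ε x, 0 < ε → ∃ y, D (n, (x, y)) ∧ y ≠ x ∧ d x y < ε := by
    intro n ε x hε
    obtain ⟨m, hm⟩ := hlim ε hε
    obtain ⟨y, h1, h2⟩ := h.split (max n m) x
    refine ⟨y, h.le (le_max_left _ _) h1, ?_, ?_⟩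
    · rintro rfl
      exact h2 (h.refl _ _)
    · exact (hdle _ _ _ (h.le (le_max_right _ _) h1)).trans_lt hm
  refine ⟨d, ⟨?_, ?_, ?_, ?_⟩, ?_, ?_, ?_⟩
  · obtain ⟨g, hg⟩ := hR
    refine ⟨g, fun x y z => (hd' x y z).trans ?_⟩
    rw [plainN_opGraph]
    exact (hg ((x, y), z)).symm
  · intro x y
    refine ⟨fun h1 => ?_, fun h1 => h1 ▸ hself x⟩
    rcases hd x y with ⟨h0, -⟩ | ⟨n, -, -, h2⟩
    · exact h0
    · rw [h1] at h2
      exact absurd h2 (hpos n).ne
  · intro x y
    rw [hd']
    rcases hd y x with ⟨h1, h2⟩ | ⟨n, h1, h2, h3⟩
    · exact Or.inl ⟨h1.symm, h2⟩
    · exact Or.inr ⟨n, h.symm _ _ _ h1, fun h4 => h2 (h.symm _ _ _ h4), h3⟩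
  · intro x y z
    rcases hd x z with ⟨-, h1⟩ | ⟨n, h1, h2, h3⟩
    · rw [h1]
      exact add_nonneg (hnonneg _ _) (hnonneg _ _)
    · by_contra hc
      push Not at hc
      rw [h3] at hc
      have h4 : d x y < q n := by
        have := hnonneg y z
        linarith
      have h5 : d y z < q n := by
        have := hnonneg x y
        linarith
      exact h2 (h.trans _ _ _ _ (hdlt _ _ _ h4) (hdlt _ _ _ h5))
  · intro c hc hcov
    have hI : Int N (fun U : IPow N (Helper672.Plain.El a) => Mem (code U) c) :=
      ⟨c, fun U => Iff.rfl⟩
    obtain ⟨C', hC', hsub, hcov'⟩ := h.compact (C := sep N fun U => Mem (code U) c) (by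
        intro U hU x hx
        rw [mem_sep hI] at hU
        obtain ⟨ε, hε, h1⟩ := (hc _ hU).2 x (mem_cp.2 ⟨x, hx, rfl⟩)
        obtain ⟨n, hn⟩ := hlim ε hε
        refine ⟨n, fun y hy => ?_⟩
        obtain ⟨y', h2, h3⟩ := mem_cp.1 (h1 y y.2 ((hdle _ _ _ hy).trans_lt hn))
        obtain rfl : y' = y := Subtype.ext h3
        exact h2) (by
        intro x
        obtain ⟨u, hu, hx⟩ := hcov x.1 x.2
        obtain ⟨U, rfl, hU⟩ := exists_code (a := a) (hc u hu).1
        exact ⟨U, (mem_sep hI).2 hu, (hU x).2 hx⟩)
    refine ⟨code C', fun u hu => ?_, finite_of_finP (p := fun U => U ∈ C') (by (repeat' (first | with_reducible exact IntF.id | with_reducible exact IntF.fst' | with_reducible exact IntF.snd' | with_reducible exact IntF.const _ | with_reducible exact Int.const _ | assumption | with_reducible apply Int.and | with_reducible apply Int.or | with_reducible apply Int.not | with_reducible apply Int.imp | with_reducible apply Int.iff | with_reducible apply Int.ne | with_reducible apply Int.eq | with_reducible apply Int.mem | with_reducible apply Int.subset | with_reducible apply Int.ltN | with_reducible apply Int.leN | with_reducible apply Int.fin | with_reducible apply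 Int.unique | with_reducible apply Int.all | with_reducible apply Int.ex | with_reducible apply IntF.fst | with_reducible apply IntF.snd | with_reducible apply IntF.app | with_reducible apply IntF.ite | with_reducible apply IntF.sep | with_reducible apply IntF.lam | with_reducible apply IntF.insert | with_reducible apply IntF.singleton | with_reducible apply IntF.union | with_reducible apply IntF.inter | with_reducible apply IntF.sdiff | with_reducible apply IntF.isUnion | with_reducible apply IntF.iimage | with_reducible apply IntF.the | with_reducible apply IntF.irec | with_reducible_and_instances apply IntF.add | with_reducible_and_instances apply IntF.mul | with_reducible apply IntF.succ | with_reducible apply IntF.val | (with_reducible refine Int.comp ?_ ?_; assumption) | (with_reducible refine Int.comp₂ ?_ ?_ ?_; assumption) | (with_reducible refine Int.comp₃ ?_ ?_ ?_ ?_; assumption) | (with_reducible refine IntF.comp ?_ ?_; assumption) | (with_reducible refine IntF.comp₂ ?_ ?_ ?_; assumption) | (with_reducible refine IntF.comp₃ ?_ ?_ ?_ ?_; assumption) | with_reducible apply IntF.pair)))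
      (fun z => mem_cp) ((finP_iff (by (repeat' (first | with_reducible exact IntF.id | with_reducible exact IntF.fst' | with_reducible exact IntF.snd' | with_reducible exact IntF.const _ | with_reducible exact Int.const _ | assumption | with_reducible apply Int.and | with_reducible apply Int.or | with_reducible apply Int.not | with_reducible apply Int.imp | with_reducible apply Int.iff | with_reducible apply Int.ne | with_reducible apply Int.eq | with_reducible apply Int.mem | with_reducible apply Int.subset | with_reducible apply Int.ltN | with_reducible apply Int.leN | with_reducible apply Int.fin | with_reducible apply Int.unique | with_reducible apply Int.all | with_reducible apply Int.ex | with_reducible apply IntF.fst | with_reducible apply IntF.snd | with_reducible apply IntF.app | with_reducible apply IntF.ite | with_reducible apply IntF.sep | with_reducible apply IntF.lam | with_reducible apply IntF.insert | with_reducible apply IntF.singleton | with_reducible apply IntF.union | with_reducible apply IntF.inter | with_reducible apply IntF.sdiff | with_reducible apply IntF.isUnion | with_reducible apply IntF.iimage | with_reducible apply IntF.the | with_reducible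 apply IntF.irec | with_reducible_and_instances apply IntF.add | with_reducible_and_instances apply IntF.mul | with_reducible apply IntF.succ | with_reducible apply IntF.val | (with_reducible refine Int.comp ?_ ?_; assumption) | (with_reducible refine Int.comp₂ ?_ ?_ ?_; assumption) | (with_reducible refine Int.comp₃ ?_ ?_ ?_ ?_; assumption) | (with_reducible refine IntF.comp ?_ ?_; assumption) | (with_reducible refine IntF.comp₂ ?_ ?_ ?_; assumption) | (with_reducible refine IntF.comp₃ ?_ ?_ ?_ ?_; assumption) | with_reducible apply IntF.pair)))).2 ?_), fun x hx => ?_⟩
    · obtain ⟨U, hU, rfl⟩ := mem_cp.1 hu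
      exact (mem_sep hI).1 (hsub U hU)
    · refine hC'.subset fun U hU => ?_
      exact (mem_sep (by (repeat' (first | with_reducible exact IntF.id | with_reducible exact IntF.fst' | with_reducible exact IntF.snd' | with_reducible exact IntF.const _ | with_reducible exact Int.const _ | assumption | with_reducible apply Int.and | with_reducible apply Int.or | with_reducible apply Int.not | with_reducible apply Int.imp | with_reducible apply Int.iff | with_reducible apply Int.ne | with_reducible apply Int.eq | with_reducible apply Int.mem | with_reducible apply Int.subset | with_reducible apply Int.ltN | with_reducible apply Int.leN | with_reducible apply Int.fin | with_reducible apply Int.unique | with_reducible apply Int.all | with_reducible apply Int.ex | with_reducible apply IntF.fst | with_reducible apply IntF.snd | with_reducible apply IntF.app | with_reducible apply IntF.ite | with_reducible apply IntF.sep | with_reducible apply IntF.lam | with_reducible apply IntF.insert | with_reducible apply IntF.singleton | with_reducible apply IntF.union | with_reducible apply IntF.inter | with_reducible apply IntF.sdiff | with_reducible apply IntF.isUnion | with_reducible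 apply IntF.iimage | with_reducible apply IntF.the | with_reducible apply IntF.irec | with_reducible_and_instances apply IntF.add | with_reducible_and_instances apply IntF.mul | with_reducible apply IntF.succ | with_reducible apply IntF.val | (with_reducible refine Int.comp ?_ ?_; assumption) | (with_reducible refine Int.comp₂ ?_ ?_ ?_; assumption) | (with_reducible refine Int.comp₃ ?_ ?_ ?_ ?_; assumption) | (with_reducible refine IntF.comp ?_ ?_; assumption) | (with_reducible refine IntF.comp₂ ?_ ?_ ?_; assumption) | (with_reducible refine IntF.comp₃ ?_ ?_ ?_ ?_; assumption) | with_reducible apply IntF.pair)))).1 hU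
    · obtain ⟨U, hU, hxU⟩ := hcov' ⟨x, hx⟩
      exact ⟨code U, mem_cp.2 ⟨U, hU, rfl⟩, mem_cp.2 ⟨_, hxU, rfl⟩⟩
  · rintro x ⟨-, ε, hε, h1⟩
    obtain ⟨y, -, h2, h3⟩ := hsplit 0 ε x hε
    exact h2 (h1 y y.2 h3)
  · intro y hy hfin hsc
    obtain ⟨Y, rfl, hY⟩ := exists_code hy
    have h1 : ¬ IFin Y := by
      intro h1
      refine hfin (finite_of_finP (p := fun x => x ∈ Y) (by (repeat' (first | with_reducible exact IntF.id | with_reducible exact IntF.fst' | with_reducible exact IntF.snd' | with_reducible exact IntF.const _ | with_reducible exact Int.const _ | assumption | with_reducible apply Int.and | with_reducible apply Int.or | with_reducible apply Int.not | with_reducible apply Int.imp | with_reducible apply Int.iff | with_reducible apply Int.ne | with_reducible apply Int.eq | with_reducible apply Int.mem | with_reducible apply Int.subset | with_reducible apply Int.ltN | with_reducible apply Int.leN | with_reducible apply Int.fin | with_reducible apply Int.unique | with_reducible apply Int.all | with_reducible apply Int.ex | with_reducible apply IntF.fst | with_reducible apply IntF.snd | with_reducible apply IntF.app | with_reducible apply IntF.ite | with_reducible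 apply IntF.sep | with_reducible apply IntF.lam | with_reducible apply IntF.insert | with_reducible apply IntF.singleton | with_reducible apply IntF.union | with_reducible apply IntF.inter | with_reducible apply IntF.sdiff | with_reducible apply IntF.isUnion | with_reducible apply IntF.iimage | with_reducible apply IntF.the | with_reducible apply IntF.irec | with_reducible_and_instances apply IntF.add | with_reducible_and_instances apply IntF.mul | with_reducible apply IntF.succ | with_reducible apply IntF.val | (with_reducible refine Int.comp ?_ ?_; assumption) | (with_reducible refine Int.comp₂ ?_ ?_ ?_; assumption) | (with_reducible refine Int.comp₃ ?_ ?_ ?_ ?_; assumption) | (with_reducible refine IntF.comp ?_ ?_; assumption) | (with_reducible refine IntF.comp₂ ?_ ?_ ?_; assumption) | (with_reducible refine IntF.comp₃ ?_ ?_ ?_ ?_; assumption) | with_reducible apply IntF.pair))) (fun z => mem_cp)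
        ((finP_iff (by (repeat' (first | with_reducible exact IntF.id | with_reducible exact IntF.fst' | with_reducible exact IntF.snd' | with_reducible exact IntF.const _ | with_reducible exact Int.const _ | assumption | with_reducible apply Int.and | with_reducible apply Int.or | with_reducible apply Int.not | with_reducible apply Int.imp | with_reducible apply Int.iff | with_reducible apply Int.ne | with_reducible apply Int.eq | with_reducible apply Int.mem | with_reducible apply Int.subset | with_reducible apply Int.ltN | with_reducible apply Int.leN | with_reducible apply Int.fin | with_reducible apply Int.unique | with_reducible apply Int.all | with_reducible apply Int.ex | with_reducible apply IntF.fst | with_reducible apply IntF.snd | with_reducible apply IntF.app | with_reducible apply IntF.ite | with_reducible apply IntF.sep | with_reducible apply IntF.lam | with_reducible apply IntF.insert | with_reducible apply IntF.singleton | with_reducible apply IntF.union | with_reducible apply IntF.inter | with_reducible apply IntF.sdiff | with_reducible apply IntF.isUnion | with_reducible apply IntF.iimage | with_reducible apply IntF.the | with_reducible apply IntF.irec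 | with_reducible_and_instances apply IntF.add | with_reducible_and_instances apply IntF.mul | with_reducible apply IntF.succ | with_reducible apply IntF.val | (with_reducible refine Int.comp ?_ ?_; assumption) | (with_reducible refine Int.comp₂ ?_ ?_ ?_; assumption) | (with_reducible refine Int.comp₃ ?_ ?_ ?_ ?_; assumption) | (with_reducible refine IntF.comp ?_ ?_; assumption) | (with_reducible refine IntF.comp₂ ?_ ?_ ?_; assumption) | (with_reducible refine IntF.comp₃ ?_ ?_ ?_ ?_; assumption) | with_reducible apply IntF.pair)))).2 ?_))
      refine h1.subset fun U hU => ?_
      exact (mem_sep (by (repeat' (first | with_reducible exact IntF.id | with_reducible exact IntF.fst' | with_reducible exact IntF.snd' | with_reducible exact IntF.const _ | with_reducible exact Int.const _ | assumption | with_reducible apply Int.and | with_reducible apply Int.or | with_reducible apply Int.not | with_reducible apply Int.imp | with_reducible apply Int.iff | with_reducible apply Int.ne | with_reducible apply Int.eq | with_reducible apply Int.mem | with_reducible apply Int.subset | with_reducible apply Int.ltN | with_reducible apply Int.leN | with_reducible apply Int.fin | with_reducible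 apply Int.unique | with_reducible apply Int.all | with_reducible apply Int.ex | with_reducible apply IntF.fst | with_reducible apply IntF.snd | with_reducible apply IntF.app | with_reducible apply IntF.ite | with_reducible apply IntF.sep | with_reducible apply IntF.lam | with_reducible apply IntF.insert | with_reducible apply IntF.singleton | with_reducible apply IntF.union | with_reducible apply IntF.inter | with_reducible apply IntF.sdiff | with_reducible apply IntF.isUnion | with_reducible apply IntF.iimage | with_reducible apply IntF.the | with_reducible apply IntF.irec | with_reducible_and_instances apply IntF.add | with_reducible_and_instances apply IntF.mul | with_reducible apply IntF.succ | with_reducible apply IntF.val | (with_reducible refine Int.comp ?_ ?_; assumption) | (with_reducible refine Int.comp₂ ?_ ?_ ?_; assumption) | (with_reducible refine Int.comp₃ ?_ ?_ ?_ ?_; assumption) | (with_reducible refine IntF.comp ?_ ?_; assumption) | (with_reducible refine IntF.comp₂ ?_ ?_ ?_; assumption) | (with_reducible refine IntF.comp₃ ?_ ?_ ?_ ?_; assumption) | with_reducible apply IntF.pair)))).1 hU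
    obtain ⟨x, n, hx, hball⟩ := h.ball h1
    have hI : Int N (fun z : Helper672.Plain.El a => D (n, (x, z))) := by (repeat' (first | with_reducible exact IntF.id | with_reducible exact IntF.fst' | with_reducible exact IntF.snd' | with_reducible exact IntF.const _ | with_reducible exact Int.const _ | assumption | with_reducible apply Int.and | with_reducible apply Int.or | with_reducible apply Int.not | with_reducible apply Int.imp | with_reducible apply Int.iff | with_reducible apply Int.ne | with_reducible apply Int.eq | with_reducible apply Int.mem | with_reducible apply Int.subset | with_reducible apply Int.ltN | with_reducible apply Int.leN | with_reducible apply Int.fin | with_reducible apply Int.unique | with_reducible apply Int.all | with_reducible apply Int.ex | with_reducible apply IntF.fst | with_reducible apply IntF.snd | with_reducible apply IntF.app | with_reducible apply IntF.ite | with_reducible apply IntF.sep | with_reducible apply IntF.lam | with_reducible apply IntF.insert | with_reducible apply IntF.singleton | with_reducible apply IntF.union | with_reducible apply IntF.inter | with_reducible apply IntF.sdiff | with_reducible apply IntF.isUnion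 | with_reducible apply IntF.iimage | with_reducible apply IntF.the | with_reducible apply IntF.irec | with_reducible_and_instances apply IntF.add | with_reducible_and_instances apply IntF.mul | with_reducible apply IntF.succ | with_reducible apply IntF.val | (with_reducible refine Int.comp ?_ ?_; assumption) | (with_reducible refine Int.comp₂ ?_ ?_ ?_; assumption) | (with_reducible refine Int.comp₃ ?_ ?_ ?_ ?_; assumption) | (with_reducible refine IntF.comp ?_ ?_; assumption) | (with_reducible refine IntF.comp₂ ?_ ?_ ?_; assumption) | (with_reducible refine IntF.comp₃ ?_ ?_ ?_ ?_; assumption) | with_reducible apply IntF.pair))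
    have hz : ∀ z, z ∈ sep N (fun z : Helper672.Plain.El a => D (n, (x, z))) ↔ D (n, (x, z)) :=
      fun z => mem_sep hI
    obtain ⟨w, hw, ε, hε, h2⟩ := hsc (code (sep N (fun z : Helper672.Plain.El a => D (n, (x, z)))))
      (fun w hw => by
        obtain ⟨z, hz', rfl⟩ := mem_cp.1 hw
        exact mem_cp.2 ⟨z, hball z ((hz z).1 hz'), rfl⟩)
      ⟨code x, mem_cp.2 ⟨x, (hz x).2 (h.refl _ _), rfl⟩⟩
    obtain ⟨w', h3, h4⟩ := mem_cp.1 hw
    obtain rfl : w' = w := Subtype.ext h4
    obtain ⟨y, h5, h6, h7⟩ := hsplit n ε w' hε
    exact h6 (h2 y (mem_cp.2 ⟨y, (hz y).2 (h.trans _ _ _ _ ((hz w').1 h3) h5), rfl⟩) h7)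

end

end Pool.Agent.H310
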