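import Pool.Agent.H310R3.CanM
import Pool.Agent.H310R3.Met
import Pool.Agent.H635R2.Ext

/-!
# Assembly: a compact metric space without infinite scattered subspaces
-/

set_option maxHeartbeats 1000000
set_option linter.all false
set_option synthInstance.maxSize 2000

namespace Pool.Agent.H310

open FirstOrder FirstOrder.Language
open Pool.Agent.Helper672.ZFA
open Pool.Agent.Helper672.ZFA.H635
open Pool.Agent.Helper672.ZFA.H310M
open Pool.Agent.Helper672.Plain (LSet)
open Pool.Agent.H635Amen (IsReals ZF)
open Pool.Agent.H310Cards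
open Pool.Agent.H310Metric

universe u

/-- The statement in the model. -/
def HasSpace (N : Type u) [LSet.Structure N] : Prop :=
  ∃ (r : N) (_ : Field (Helper672.Plain.El r)) (_ : LinearOrder (Helper672.Plain.El r))
      (_ : IsStrictOrderedRing (Helper672.Plain.El r)), IsReals r ∧
      ∃ (x : N) (d : Helper672.Plain.El x → Helper672.Plain.El x → Helper672.Plain.El r),
        IsMetric d ∧ (∃ z, Helper672.Plain.Mem z x) ∧ IsCompact d x ∧
        (∀ z, ¬ IsIsolated d x z) ∧
        ∀ y, (∀ z, Helper672.Plain.Mem z y → Helper672.Plain.Mem z x) → ¬ IsFinite y →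
          ¬ IsScattered d y

theorem space_of_canT {N : Type u} [LSet.Structure N] (hN : Helper672.Plain.Zermelo N)
    (h : letI := toL N; letI : IsModel N := isModel_of_zermelo hN;
      ∃ (a : N) (D : INat N × (El a × El a) → Prop), CanT N (α := El a) D) : HasSpace N := by
  letI := toL N
  letI : IsModel N := isModel_of_zermelo hN
  obtain ⟨a, D, hD⟩ := h
  obtain ⟨r, i1, i2, i3, hr⟩ := exists_reals hN
  obtain ⟨d, h1, h2, h3, h4⟩ := exists_metric (a := a) (D := D) hD hr
  obtain ⟨z⟩ := hD.ne
  exact ⟨r, i1, i2, i3, hr, a, d, h1, ⟨z.1, z.2⟩, h2, h3, h4⟩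

theorem exists_space' (M : Type u) [L.Structure M] [IsModel M] [Countable M] (hC : CollL M) :
    ∃ (N : Type u) (_ : LSet.Structure N), ZF N ∧ HasSpace N := by
  have p₀ : Co M (IPow M (INat M)) := ⟨∅, fun i k d d' h => absurd h (by simp), IFin.empty⟩
  obtain ⟨G, hG⟩ := H635.exists_gen (M := M) p₀
  refine ⟨NN (SS (IZ' M)) hG, inferInstance, nn_zf hG hC, space_of_canT (nn_zermelo hG) ?_⟩
  obtain ⟨D, hD⟩ := exists_canT hG hC
  exact ⟨_, D, hD⟩

section

attribute [local instance] toL

theorem exists_space_c (M : Type u) [LSet.Structure M] [Countable M] (h : ZF M) :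
    ∃ (N : Type u) (_ : LSet.Structure N), ZF N ∧ HasSpace N := by
  have hM : IsModel M := isModel_of_zermelo h.toZermelo
  exact exists_space' M (coll_of_zf h)

end

theorem exists_space (h : ∃ (M : Type u) (_ : LSet.Structure M), ZF M) :
    ∃ (N : Type u) (_ : LSet.Structure N), ZF N ∧ HasSpace N := by
  obtain ⟨M, i, hM⟩ := h
  obtain ⟨M₀, h1, h2⟩ := exists_countable_sub M hM
  exact exists_space_c M₀ h2

end Pool.Agent.H310
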