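import Pool.Agent.H310R3.PM5
import Pool.Agent.H310R3.Can

/-!
# A permutation model with a homogeneous Cantor tree
-/

set_option maxHeartbeats 1000000
set_option linter.all false
set_option synthInstance.maxSize 2000

namespace Pool.Agent.Helper672.ZFA.H310M

open FirstOrder FirstOrder.Language
open Pool.Agent.Helper672.ZFA.H635 (IPerm SymSys IG WFI FEq FMem tw Good feq_of_map feq_iff IsGen
  nd nd_eq mem_nd mem_nd_nd exists_mk mk_eq_nd EqFam NN nn_ext CollL nn_zf mem_NN)
open Pool.Agent.Helper672.Plain (LSet)
open Pool.Agent.H310

universe u

variable {M : Type u} [L.Structure M] [hM : IsModel M]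

/-- Agreement of sets of natural numbers. -/
def DM (q : INat M × (IPow M (INat M) × IPow M (INat M))) : Prop :=
  ∀ m, m < q.1 → (m ∈ q.2.1 ↔ m ∈ q.2.2)

theorem int_DM : Int M (DM (M := M)) := by
  unfold DM
  (repeat' (first | with_reducible exact IntF.id | with_reducible exact IntF.fst' | with_reducible exact IntF.snd' | with_reducible exact IntF.const _ | with_reducible exact Int.const _ | assumption | with_reducible apply Int.and | with_reducible apply Int.or | with_reducible apply Int.not | with_reducible apply Int.imp | with_reducible apply Int.iff | with_reducible apply Int.ne | with_reducible apply Int.eq | with_reducible apply Int.mem | with_reducible apply Int.subset | with_reducible apply Int.ltN | with_reducible apply Int.leN | with_reducible_and_instances apply Int.le | with_reducible_and_instances apply Int.lt | with_reducible apply Int.all | with_reducible apply Int.ex | with_reducible apply IntF.fst | with_reducible apply IntF.snd | with_reducible apply IntF.app | with_reducible apply IntF.inl | with_reducible apply IntF.inr | with_reducible_and_instances apply IntF.mul | with_reducible_and_instances apply IntF.inv | with_reducible_and_instances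 apply IntF.add | with_reducible_and_instances apply IntF.sub | with_reducible_and_instances apply IntF.neg | with_reducible_and_instances apply IntF.smul | with_reducible apply Int.fin | with_reducible apply IntF.sep | with_reducible apply IntF.lam | with_reducible apply IntF.insert | with_reducible apply IntF.singleton | with_reducible apply IntF.union | with_reducible apply IntF.iimage | with_reducible apply IntF.ite | with_reducible apply IntF.the | with_reducible apply IntF.irec | with_reducible apply IntF.succ | with_reducible apply IntF.val | with_reducible apply IntF.mk | (with_reducible refine Int.comp ?_ ?_; assumption) | (with_reducible refine Int.comp₂ ?_ ?_ ?_; assumption) | (with_reducible refine Int.comp₃ ?_ ?_ ?_ ?_; assumption) | (with_reducible refine Int.comp₄ ?_ ?_ ?_ ?_ ?_; assumption) | (with_reducible refine IntF.comp ?_ ?_; assumption) | (with_reducible refine IntF.comp₂ ?_ ?_ ?_; assumption) | (with_reducible refine IntF.comp₃ ?_ ?_ ?_ ?_; assumption) | with_reducible apply IntF.pair))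

variable (M) in
/-- The group of the isometries. -/
def IH : Subgroup (IPerm M (IPow M (INat M))) where
  carrier := {g | ∀ n x y, DM (n, (x, y)) ↔ DM (n, (g.1.1 x, g.1.1 y))}
  mul_mem' {a b} ha hb n x y := by
    rw [hb n x y, ha n (b.1.1 x) (b.1.1 y), IPerm.mul_apply, IPerm.mul_apply]
  one_mem' n x y := by rw [IPerm.one_apply, IPerm.one_apply]
  inv_mem' {a} ha n x y := by
    have e1 : ∀ x, a.1.1 (a.1.2 x) = x := a.2.1
    change _ ↔ DM (n, (a.1.2 x, a.1.2 y))
    rw [ha n (a.1.2 x), e1, e1]

variable (M) in
/-- The group of the isometries. -/
def IZ' : PGr M (IPow M (INat M)) where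
  H := IH M
  int := by
    have h := int_DM (M := M)
    change Int M (fun g : IPerm M (IPow M (INat M)) =>
      ∀ n x y, DM (n, (x, y)) ↔ DM (n, (g.1.1 x, g.1.1 y)))
    (repeat' (first | with_reducible exact IntF.id | with_reducible exact IntF.fst' | with_reducible exact IntF.snd' | with_reducible exact IntF.const _ | with_reducible exact Int.const _ | assumption | with_reducible apply Int.and | with_reducible apply Int.or | with_reducible apply Int.not | with_reducible apply Int.imp | with_reducible apply Int.iff | with_reducible apply Int.ne | with_reducible apply Int.eq | with_reducible apply Int.mem | with_reducible apply Int.subset | with_reducible apply Int.ltN | with_reducible apply Int.leN | with_reducible_and_instances apply Int.le | with_reducible_and_instances apply Int.lt | with_reducible apply Int.all | with_reducible apply Int.ex | with_reducible apply IntF.fst | with_reducible apply IntF.snd | with_reducible apply IntF.app | with_reducible apply IntF.inl | with_reducible apply IntF.inr | with_reducible_and_instances apply IntF.mul | with_reducible_and_instances apply IntF.inv | with_reducible_and_instances apply IntF.add | with_reducible_and_instances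 apply IntF.sub | with_reducible_and_instances apply IntF.neg | with_reducible_and_instances apply IntF.smul | with_reducible apply Int.fin | with_reducible apply IntF.sep | with_reducible apply IntF.lam | with_reducible apply IntF.insert | with_reducible apply IntF.singleton | with_reducible apply IntF.union | with_reducible apply IntF.iimage | with_reducible apply IntF.ite | with_reducible apply IntF.the | with_reducible apply IntF.irec | with_reducible apply IntF.succ | with_reducible apply IntF.val | with_reducible apply IntF.mk | (with_reducible refine Int.comp ?_ ?_; assumption) | (with_reducible refine Int.comp₂ ?_ ?_ ?_; assumption) | (with_reducible refine Int.comp₃ ?_ ?_ ?_ ?_; assumption) | (with_reducible refine Int.comp₄ ?_ ?_ ?_ ?_ ?_; assumption) | (with_reducible refine IntF.comp ?_ ?_; assumption) | (with_reducible refine IntF.comp₂ ?_ ?_ ?_; assumption) | (with_reducible refine IntF.comp₃ ?_ ?_ ?_ ?_; assumption) | with_reducible apply IntF.pair))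

/-- The translation. -/
noncomputable def tr (x y z : IPow M (INat M)) : IPow M (INat M) :=
  sep M fun m => (m ∈ z ↔ (m ∈ x ↔ m ∈ y))

theorem mem_tr {x y z : IPow M (INat M)} {m : INat M} :
    m ∈ tr x y z ↔ (m ∈ z ↔ (m ∈ x ↔ m ∈ y)) := mem_sep (by (repeat' (first | with_reducible exact IntF.id | with_reducible exact IntF.fst' | with_reducible exact IntF.snd' | with_reducible exact IntF.const _ | with_reducible exact Int.const _ | assumption | with_reducible apply Int.and | with_reducible apply Int.or | with_reducible apply Int.not | with_reducible apply Int.imp | with_reducible apply Int.iff | with_reducible apply Int.ne | with_reducible apply Int.eq | with_reducible apply Int.mem | with_reducible apply Int.subset | with_reducible apply Int.ltN | with_reducible apply Int.leN | with_reducible_and_instances apply Int.le | with_reducible_and_instances apply Int.lt | with_reducible apply Int.all | with_reducible apply Int.ex | with_reducible apply IntF.fst | with_reducible apply IntF.snd | with_reducible apply IntF.app | with_reducible apply IntF.inl | with_reducible apply IntF.inr | with_reducible_and_instances apply IntF.mul | with_reducible_and_instances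 apply IntF.inv | with_reducible_and_instances apply IntF.add | with_reducible_and_instances apply IntF.sub | with_reducible_and_instances apply IntF.neg | with_reducible_and_instances apply IntF.smul | with_reducible apply Int.fin | with_reducible apply IntF.sep | with_reducible apply IntF.lam | with_reducible apply IntF.insert | with_reducible apply IntF.singleton | with_reducible apply IntF.union | with_reducible apply IntF.iimage | with_reducible apply IntF.ite | with_reducible apply IntF.the | with_reducible apply IntF.irec | with_reducible apply IntF.succ | with_reducible apply IntF.val | with_reducible apply IntF.mk | (with_reducible refine Int.comp ?_ ?_; assumption) | (with_reducible refine Int.comp₂ ?_ ?_ ?_; assumption) | (with_reducible refine Int.comp₃ ?_ ?_ ?_ ?_; assumption) | (with_reducible refine Int.comp₄ ?_ ?_ ?_ ?_ ?_; assumption) | (with_reducible refine IntF.comp ?_ ?_; assumption) | (with_reducible refine IntF.comp₂ ?_ ?_ ?_; assumption) | (with_reducible refine IntF.comp₃ ?_ ?_ ?_ ?_; assumption) | with_reducible apply IntF.pair)))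

theorem int_tr (x y : IPow M (INat M)) : IntF M (fun z => tr x y z) := by
  unfold tr
  (repeat' (first | with_reducible exact IntF.id | with_reducible exact IntF.fst' | with_reducible exact IntF.snd' | with_reducible exact IntF.const _ | with_reducible exact Int.const _ | assumption | with_reducible apply Int.and | with_reducible apply Int.or | with_reducible apply Int.not | with_reducible apply Int.imp | with_reducible apply Int.iff | with_reducible apply Int.ne | with_reducible apply Int.eq | with_reducible apply Int.mem | with_reducible apply Int.subset | with_reducible apply Int.ltN | with_reducible apply Int.leN | with_reducible_and_instances apply Int.le | with_reducible_and_instances apply Int.lt | with_reducible apply Int.all | with_reducible apply Int.ex | with_reducible apply IntF.fst | with_reducible apply IntF.snd | with_reducible apply IntF.app | with_reducible apply IntF.inl | with_reducible apply IntF.inr | with_reducible_and_instances apply IntF.mul | with_reducible_and_instances apply IntF.inv | with_reducible_and_instances apply IntF.add | with_reducible_and_instances apply IntF.sub | with_reducible_and_instances apply IntF.neg | with_reducible_and_instances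 apply IntF.smul | with_reducible apply Int.fin | with_reducible apply IntF.sep | with_reducible apply IntF.lam | with_reducible apply IntF.insert | with_reducible apply IntF.singleton | with_reducible apply IntF.union | with_reducible apply IntF.iimage | with_reducible apply IntF.ite | with_reducible apply IntF.the | with_reducible apply IntF.irec | with_reducible apply IntF.succ | with_reducible apply IntF.val | with_reducible apply IntF.mk | (with_reducible refine Int.comp ?_ ?_; assumption) | (with_reducible refine Int.comp₂ ?_ ?_ ?_; assumption) | (with_reducible refine Int.comp₃ ?_ ?_ ?_ ?_; assumption) | (with_reducible refine Int.comp₄ ?_ ?_ ?_ ?_ ?_; assumption) | (with_reducible refine IntF.comp ?_ ?_; assumption) | (with_reducible refine IntF.comp₂ ?_ ?_ ?_; assumption) | (with_reducible refine IntF.comp₃ ?_ ?_ ?_ ?_; assumption) | with_reducible apply IntF.pair))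

theorem exists_iso (n : INat M) {x y : IPow M (INat M)} (h : DM (n, (x, y))) :
    ∃ g ∈ (IZ' M).H, g.1.1 x = y ∧ ∀ z, ¬ DM (n, (x, z)) → g.1.1 z = z := by
  classical
  have hI := int_DM (M := M)
  have hT := int_tr (M := M) x y
  have hf : IntF M (fun z => if DM (n, (x, z)) then tr x y z else z) := by (repeat' (first | with_reducible exact IntF.id | with_reducible exact IntF.fst' | with_reducible exact IntF.snd' | with_reducible exact IntF.const _ | with_reducible exact Int.const _ | assumption | with_reducible apply Int.and | with_reducible apply Int.or | with_reducible apply Int.not | with_reducible apply Int.imp | with_reducible apply Int.iff | with_reducible apply Int.ne | with_reducible apply Int.eq | with_reducible apply Int.mem | with_reducible apply Int.subset | with_reducible apply Int.ltN | with_reducible apply Int.leN | with_reducible_and_instances apply Int.le | with_reducible_and_instances apply Int.lt | with_reducible apply Int.all | with_reducible apply Int.ex | with_reducible apply IntF.fst | with_reducible apply IntF.snd | with_reducible apply IntF.app | with_reducible apply IntF.inl | with_reducible apply IntF.inr | with_reducible_and_instances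 apply IntF.mul | with_reducible_and_instances apply IntF.inv | with_reducible_and_instances apply IntF.add | with_reducible_and_instances apply IntF.sub | with_reducible_and_instances apply IntF.neg | with_reducible_and_instances apply IntF.smul | with_reducible apply Int.fin | with_reducible apply IntF.sep | with_reducible apply IntF.lam | with_reducible apply IntF.insert | with_reducible apply IntF.singleton | with_reducible apply IntF.union | with_reducible apply IntF.iimage | with_reducible apply IntF.ite | with_reducible apply IntF.the | with_reducible apply IntF.irec | with_reducible apply IntF.succ | with_reducible apply IntF.val | with_reducible apply IntF.mk | (with_reducible refine Int.comp ?_ ?_; assumption) | (with_reducible refine Int.comp₂ ?_ ?_ ?_; assumption) | (with_reducible refine Int.comp₃ ?_ ?_ ?_ ?_; assumption) | (with_reducible refine Int.comp₄ ?_ ?_ ?_ ?_ ?_; assumption) | (with_reducible refine IntF.comp ?_ ?_; assumption) | (with_reducible refine IntF.comp₂ ?_ ?_ ?_; assumption) | (with_reducible refine IntF.comp₃ ?_ ?_ ?_ ?_; assumption) | with_reducible apply IntF.pair))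
  have h1 : ∀ z m, m < n → (m ∈ tr x y z ↔ m ∈ z) := by
    intro z m hm
    rw [mem_tr]
    have := h m hm
    tauto
  have h2 : ∀ z, DM (n, (x, z)) → DM (n, (x, tr x y z)) := fun z hz m hm =>
    (hz m hm).trans (h1 z m hm).symm
  have h3 : ∀ z, tr x y (tr x y z) = z := fun z => IPow.ext' fun m => by
    rw [mem_tr, mem_tr]
    tauto
  have h4 : ∀ z, (fun z => if DM (n, (x, z)) then tr x y z else z)
      ((fun z => if DM (n, (x, z)) then tr x y z else z) z) = z := by
    intro z
    by_cases hz : DM (n, (x, z))
    · simp only [if_pos hz, if_pos (h2 z hz), h3]
    · simp only [if_neg hz]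
  refine ⟨⟨(⟨_, hf⟩, ⟨_, hf⟩), h4, h4⟩, ?_, ?_, fun z hz => if_neg hz⟩
  · intro k z w
    change DM (k, (z, w)) ↔ DM (k, ((if DM (n, (x, z)) then tr x y z else z),
      (if DM (n, (x, w)) then tr x y w else w)))
    by_cases hz : DM (n, (x, z)) <;> by_cases hw : DM (n, (x, w))
    · rw [if_pos hz, if_pos hw]
      refine forall_congr' fun m => imp_congr_right fun _ => ?_
      change (m ∈ z ↔ m ∈ w) ↔ (m ∈ tr x y z ↔ m ∈ tr x y w)
      rw [mem_tr, mem_tr]
      tauto
    · rw [if_pos hz, if_neg hw]
      rcases le_or_gt k n with hk | hk
      · refine forall_congr' fun m => imp_congr_right fun hm => ?_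
        change (m ∈ z ↔ m ∈ w) ↔ (m ∈ tr x y z ↔ m ∈ w)
        rw [h1 z m (lt_of_lt_of_le hm hk)]
      · refine iff_of_false (fun hc => hw fun m hm => ?_) (fun hc => hw fun m hm => ?_)
        · exact (hz m hm).trans (hc m (hm.trans hk))
        · exact (hz m hm).trans ((h1 z m hm).symm.trans (hc m (hm.trans hk)))
    · rw [if_neg hz, if_pos hw]
      rcases le_or_gt k n with hk | hk
      · refine forall_congr' fun m => imp_congr_right fun hm => ?_
        change (m ∈ z ↔ m ∈ w) ↔ (m ∈ z ↔ m ∈ tr x y w)
        rw [h1 w m (lt_of_lt_of_le hm hk)]
      · refine iff_of_false (fun hc => hz fun m hm => ?_) (fun hc => hz fun m hm => ?_)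
        · exact (hw m hm).trans (hc m (hm.trans hk)).symm
        · exact (hw m hm).trans ((h1 w m hm).symm.trans (hc m (hm.trans hk)).symm)
    · rw [if_neg hz, if_neg hw]
  · change (if DM (n, (x, x)) then tr x y x else x) = y
    rw [if_pos (show DM (n, (x, x)) from fun m _ => Iff.rfl)]
    exact IPow.ext' fun m => by
      rw [mem_tr]
      tauto

/-- The model has a homogeneous Cantor tree. -/
theorem exists_canT {G : Set (Co M (IPow M (INat M)))} (hG : IsGen M G) (hC : CollL M) :
    ∃ D, CanT (NN (SS (IZ' M)) hG) (α := El (AA (IZ' M) hG)) D := by
  obtain ⟨D, hD, hD'⟩ := exists_rel (Z := IZ' M) hG hC int_DM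
    (fun g hg n x y h => (hg n x y).1 h)
  have hn := nnN_surj (Z := IZ' M) hG hC
  have hc := cA_surj (Z := IZ' M) hG
  refine ⟨D, ⟨hD, fun n a => ?_, fun n a b h => ?_, fun n a b c h h' => ?_, fun a b => ?_,
    fun n a b h => ?_, fun a b h => ?_, fun n a => ?_, fun n a b c h h' => ?_, ?_, ?_⟩⟩
  · obtain ⟨n, rfl⟩ := hn n
    obtain ⟨a, rfl⟩ := hc a
    exact (hD' _ _ _).2 fun m _ => Iff.rfl
  · obtain ⟨n, rfl⟩ := hn n
    obtain ⟨a, rfl⟩ := hc a
    obtain ⟨b, rfl⟩ := hc b
    rw [hD'] at h ⊢
    exact fun m hm => (h m hm).symm
  · obtain ⟨n, rfl⟩ := hn n
    obtain ⟨a, rfl⟩ := hc a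
    obtain ⟨b, rfl⟩ := hc b
    obtain ⟨c, rfl⟩ := hc c
    rw [hD'] at h h' ⊢
    exact fun m hm => (h m hm).trans (h' m hm)
  · obtain ⟨a, rfl⟩ := hc a
    obtain ⟨b, rfl⟩ := hc b
    rw [← nnN_zero (Z := IZ' M) hG hC, hD']
    exact fun m hm => absurd hm INat.not_lt_zero
  · obtain ⟨n, rfl⟩ := hn n
    obtain ⟨a, rfl⟩ := hc a
    obtain ⟨b, rfl⟩ := hc b
    rw [← nnN_succ, hD'] at h
    rw [hD']
    exact fun m hm => h m (hm.trans (INat.lt_succ_self n))
  · obtain ⟨a, rfl⟩ := hc a
    obtain ⟨b, rfl⟩ := hc b
    rw [cA_inj]
    exact IPow.ext' fun m => (hD' m.succ a b).1 (h _) m (INat.lt_succ_self m)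
  · obtain ⟨n, rfl⟩ := hn n
    obtain ⟨a, rfl⟩ := hc a
    refine ⟨cA (IZ' M) hG (sep M fun m => (m ∈ a ↔ m < n)), ?_, ?_⟩
    · rw [hD']
      intro m hm
      change m ∈ a ↔ m ∈ sep M fun m => (m ∈ a ↔ m < n)
      rw [mem_sep (by (repeat' (first | with_reducible exact IntF.id | with_reducible exact IntF.fst' | with_reducible exact IntF.snd' | with_reducible exact IntF.const _ | with_reducible exact Int.const _ | assumption | with_reducible apply Int.and | with_reducible apply Int.or | with_reducible apply Int.not | with_reducible apply Int.imp | with_reducible apply Int.iff | with_reducible apply Int.ne | with_reducible apply Int.eq | with_reducible apply Int.mem | with_reducible apply Int.subset | with_reducible apply Int.ltN | with_reducible apply Int.leN | with_reducible_and_instances apply Int.le | with_reducible_and_instances apply Int.lt | with_reducible apply Int.all | with_reducible apply Int.ex | with_reducible apply IntF.fst | with_reducible apply IntF.snd | with_reducible apply IntF.app | with_reducible apply IntF.inl | with_reducible apply IntF.inr | with_reducible_and_instances apply IntF.mul | with_reducible_and_instances apply IntF.inv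 | with_reducible_and_instances apply IntF.add | with_reducible_and_instances apply IntF.sub | with_reducible_and_instances apply IntF.neg | with_reducible_and_instances apply IntF.smul | with_reducible apply Int.fin | with_reducible apply IntF.sep | with_reducible apply IntF.lam | with_reducible apply IntF.insert | with_reducible apply IntF.singleton | with_reducible apply IntF.union | with_reducible apply IntF.iimage | with_reducible apply IntF.ite | with_reducible apply IntF.the | with_reducible apply IntF.irec | with_reducible apply IntF.succ | with_reducible apply IntF.val | with_reducible apply IntF.mk | (with_reducible refine Int.comp ?_ ?_; assumption) | (with_reducible refine Int.comp₂ ?_ ?_ ?_; assumption) | (with_reducible refine Int.comp₃ ?_ ?_ ?_ ?_; assumption) | (with_reducible refine Int.comp₄ ?_ ?_ ?_ ?_ ?_; assumption) | (with_reducible refine IntF.comp ?_ ?_; assumption) | (with_reducible refine IntF.comp₂ ?_ ?_ ?_; assumption) | (with_reducible refine IntF.comp₃ ?_ ?_ ?_ ?_; assumption) | with_reducible apply IntF.pair)))]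
      tauto
    · rw [← nnN_succ, hD']
      intro h
      have h2 : n ∈ a ↔ n ∈ sep M fun m => (m ∈ a ↔ m < n) := h n (INat.lt_succ_self n)
      rw [mem_sep (by (repeat' (first | with_reducible exact IntF.id | with_reducible exact IntF.fst' | with_reducible exact IntF.snd' | with_reducible exact IntF.const _ | with_reducible exact Int.const _ | assumption | with_reducible apply Int.and | with_reducible apply Int.or | with_reducible apply Int.not | with_reducible apply Int.imp | with_reducible apply Int.iff | with_reducible apply Int.ne | with_reducible apply Int.eq | with_reducible apply Int.mem | with_reducible apply Int.subset | with_reducible apply Int.ltN | with_reducible apply Int.leN | with_reducible_and_instances apply Int.le | with_reducible_and_instances apply Int.lt | with_reducible apply Int.all | with_reducible apply Int.ex | with_reducible apply IntF.fst | with_reducible apply IntF.snd | with_reducible apply IntF.app | with_reducible apply IntF.inl | with_reducible apply IntF.inr | with_reducible_and_instances apply IntF.mul | with_reducible_and_instances apply IntF.inv | with_reducible_and_instances apply IntF.add | with_reducible_and_instances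 apply IntF.sub | with_reducible_and_instances apply IntF.neg | with_reducible_and_instances apply IntF.smul | with_reducible apply Int.fin | with_reducible apply IntF.sep | with_reducible apply IntF.lam | with_reducible apply IntF.insert | with_reducible apply IntF.singleton | with_reducible apply IntF.union | with_reducible apply IntF.iimage | with_reducible apply IntF.ite | with_reducible apply IntF.the | with_reducible apply IntF.irec | with_reducible apply IntF.succ | with_reducible apply IntF.val | with_reducible apply IntF.mk | (with_reducible refine Int.comp ?_ ?_; assumption) | (with_reducible refine Int.comp₂ ?_ ?_ ?_; assumption) | (with_reducible refine Int.comp₃ ?_ ?_ ?_ ?_; assumption) | (with_reducible refine Int.comp₄ ?_ ?_ ?_ ?_ ?_; assumption) | (with_reducible refine IntF.comp ?_ ?_; assumption) | (with_reducible refine IntF.comp₂ ?_ ?_ ?_; assumption) | (with_reducible refine IntF.comp₃ ?_ ?_ ?_ ?_; assumption) | with_reducible apply IntF.pair)))] at h2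
      have := lt_irrefl n
      tauto
  · obtain ⟨n, rfl⟩ := hn n
    obtain ⟨a, rfl⟩ := hc a
    obtain ⟨b, rfl⟩ := hc b
    obtain ⟨c, rfl⟩ := hc c
    rw [hD'] at h h'
    rw [← nnN_succ, hD', hD', hD']
    have h1 : (n ∈ a ↔ n ∈ b) ∨ (n ∈ a ↔ n ∈ c) ∨ (n ∈ b ↔ n ∈ c) := by tauto
    have key : ∀ x y : IPow M (INat M), (∀ m, m < n → (m ∈ x ↔ m ∈ y)) → (n ∈ x ↔ n ∈ y) →
        DM (n.succ, (x, y)) := by
      intro x y hxy h0 m hm
      rcases INat.lt_succ_iff'.1 hm with hm | rfl
      · exact hxy m hm
      · exact h0
    rcases h1 with h1 | h1 | h1
    · exact Or.inl (key _ _ h h1)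
    · exact Or.inr (Or.inl (key _ _ h' h1))
    · exact Or.inr (Or.inr (key _ _ (fun m hm => (h m hm).symm.trans (h' m hm)) h1))
  · exact ⟨cA (IZ' M) hG ∅⟩
  · intro W hW
    obtain ⟨E, hE⟩ := exists_hom (Z := IZ' M) hG hC hW
    obtain ⟨s, hs, hs'⟩ := exists_fin (Z := IZ' M) hG hC E
    refine ⟨s, hs, fun n x y h1 h2 k h3 => ?_⟩
    obtain ⟨n, rfl⟩ := hn n
    obtain ⟨x, rfl⟩ := hc x
    obtain ⟨y, rfl⟩ := hc y
    obtain ⟨k, rfl⟩ := hn k
    rw [hD'] at h2
    obtain ⟨g, hg, hgx, hgE⟩ := exists_iso n h2
    have h4 := hE g hg (fun z hz => hgE z fun h5 => h1 (cA (IZ' M) hG z) ((hs' z).2 hz)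
      ((hD' _ _ _).2 h5)) x k h3
    rwa [hgx] at h4

end Pool.Agent.Helper672.ZFA.H310M
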