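import Pool.Agent.Helper672.SIK.Plain

/-!
# Functions, permutations and finite sets in a model of set theory: the definitions

The language `LSet` of set theory has one binary relation symbol. In a structure `M` for it,
`Mem x y` says that `x` is an element of `y` in the sense of `M`, and `IsOrdPair q x y` says that
`q` is the Kuratowski ordered pair of `x` and `y` in `M`. (`LSet`, `Mem`, `Zermelo` and
`IsOrdPair` are from the imported file.)
-/

namespace Pool.Agent.H310Cards

open FirstOrder FirstOrder.Language
open Pool.Agent.Helper672.Plain (LSet Mem Zermelo IsPair IsOrdPair)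

universe u

variable {M : Type u} [LSet.Structure M]

/-- `i` contains the empty set, and with every `n` also `n ∪ {n}`. -/
def IsInductive (i : M) : Prop :=
  (∃ e, Mem e i ∧ ∀ z, ¬ Mem z e) ∧
    ∀ n, Mem n i → ∃ s, Mem s i ∧ ∀ z, Mem z s ↔ Mem z n ∨ z = n

/-- `n` is a natural number of the model: it is an element of all inductive sets. -/
def IsNat (n : M) : Prop := ∀ i : M, IsInductive i → Mem n i

/-- `w` is the set of all natural numbers of the model. -/
def IsOmega (w : M) : Prop := ∀ n, Mem n w ↔ IsNat n

/-- `p` is the power set of `x`. -/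
def IsPow (p x : M) : Prop := ∀ z, Mem z p ↔ ∀ t, Mem t z → Mem t x

/-- `p` is the product of `x` and `y`. -/
def IsProd (p x y : M) : Prop := ∀ q, Mem q p ↔ ∃ a b, Mem a x ∧ Mem b y ∧ IsOrdPair q a b

/-- The ordered pair of `x` and `y` is an element of `f`. -/
def App (f x y : M) : Prop := ∃ q, IsOrdPair q x y ∧ Mem q f

/-- `f` is a function from `a` to `b`. -/
def IsFun (f a b : M) : Prop :=
  (∀ q, Mem q f → ∃ x y, Mem x a ∧ Mem y b ∧ IsOrdPair q x y) ∧ ∀ x, Mem x a → ∃! y, App f x y

/-- `f` is an injective function from `a` to `b`. -/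
def IsInj (f a b : M) : Prop := IsFun f a b ∧ ∀ x x' y, App f x y → App f x' y → x = x'

/-- `f` is a bijection from `a` to `b`. -/
def IsBij (f a b : M) : Prop := IsInj f a b ∧ ∀ y, Mem y b → ∃ x, App f x y

/-- `a` is in bijection with a natural number of the model. -/
def IsFinite (a : M) : Prop := ∃ n f, IsNat n ∧ IsBij f a n

/-- `s` is the set of all bijections from `a` to `a`. -/
def IsSymSet (s a : M) : Prop := ∀ f, Mem f s ↔ IsBij f a a

/-- `f` is a finite-to-one function from `a` to `b`: the preimage of every point is finite in the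
model. -/
def IsFinToOne (f a b : M) : Prop :=
  IsFun f a b ∧ ∀ y, Mem y b → ∀ t, (∀ x, Mem x t ↔ App f x y) → IsFinite t

end Pool.Agent.H310Cards
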