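import Pool.Agent.H310R3.Lev
import Pool.Agent.H310R3.Bridge

/-!
# Cycles
-/

set_option maxHeartbeats 400000
set_option linter.all false

namespace Pool.Agent.H310

open FirstOrder FirstOrder.Language
open Pool.Agent.Helper672.ZFA

universe u u₁ u₂ u₃ u₄

variable {M : Type u} [L.Structure M] [hM : IsModel M]
variable {α : Type u₁} [ITy M α]

theorem le_add_r (m n : INat M) : m ≤ m + n := by
  refine INat.ind (p := fun n => m ≤ m + n) (by (repeat' (first | with_reducible exact IntF.id | with_reducible exact IntF.fst' | with_reducible exact IntF.snd' | with_reducible exact IntF.const _ | with_reducible exact Int.const _ | assumption | with_reducible apply Int.and | with_reducible apply Int.or | with_reducible apply Int.not | with_reducible apply Int.imp | with_reducible apply Int.iff | with_reducible apply Int.ne | with_reducible apply Int.eq | with_reducible apply Int.mem | with_reducible apply Int.subset | with_reducible apply Int.ltN | with_reducible apply Int.leN | with_reducible apply Int.fin | with_reducible apply Int.unique | with_reducible apply Int.all | with_reducible apply Int.ex | with_reducible apply IntF.fst | with_reducible apply IntF.snd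 | with_reducible apply IntF.app | with_reducible apply IntF.ite | with_reducible apply IntF.sep | with_reducible apply IntF.lam | with_reducible apply IntF.insert | with_reducible apply IntF.singleton | with_reducible apply IntF.union | with_reducible apply IntF.inter | with_reducible apply IntF.sdiff | with_reducible apply IntF.isUnion | with_reducible apply IntF.iimage | with_reducible apply IntF.the | with_reducible apply IntF.irec | with_reducible_and_instances apply IntF.add | with_reducible_and_instances apply IntF.mul | with_reducible apply IntF.succ | with_reducible apply IntF.val | (with_reducible refine Int.comp ?_ ?_; assumption) | (with_reducible refine Int.comp₂ ?_ ?_ ?_; assumption) | (with_reducible refine Int.comp₃ ?_ ?_ ?_ ?_; assumption) | (with_reducible refine IntF.comp ?_ ?_; assumption) | (with_reducible refine IntF.comp₂ ?_ ?_ ?_; assumption) | (with_reducible refine IntF.comp₃ ?_ ?_ ?_ ?_; assumption) | with_reducible apply IntF.pair))) ?_ ?_ n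
  · rw [add_zero]
  · intro n ih
    rw [INat.add_succ']
    exact ih.trans (INat.le_succ_self _)

theorem le_add_l (m n : INat M) : n ≤ m + n := by
  rw [add_comm]
  exact le_add_r n m

/-- The pigeonhole principle. -/
theorem pigeon {s : IPow M α} (hs : IFin s) : ∃ N, ∀ f : IFun M (INat M) α,
    (∀ j, j ≤ N → f j ∈ s) → ¬ ∀ i j, i ≤ N → j ≤ N → f i = f j → i = j := by
  classical
  refine IFin.ind (p := fun s => ∃ N, ∀ f : IFun M (INat M) α,
    (∀ j, j ≤ N → f j ∈ s) → ¬ ∀ i j, i ≤ N → j ≤ N → f i = f j → i = j) (by (repeat' (first | with_reducible exact IntF.id | with_reducible exact IntF.fst' | with_reducible exact IntF.snd' | with_reducible exact IntF.const _ | with_reducible exact Int.const _ | assumption | with_reducible apply Int.and | with_reducible apply Int.or | with_reducible apply Int.not | with_reducible apply Int.imp | with_reducible apply Int.iff | with_reducible apply Int.ne | with_reducible apply Int.eq | with_reducible apply Int.mem | with_reducible apply Int.subset | with_reducible apply Int.ltN | with_reducible apply Int.leN | with_reducible apply Int.fin | with_reducible apply Int.unique | with_reducible apply Int.all | with_reducible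 apply Int.ex | with_reducible apply IntF.fst | with_reducible apply IntF.snd | with_reducible apply IntF.app | with_reducible apply IntF.ite | with_reducible apply IntF.sep | with_reducible apply IntF.lam | with_reducible apply IntF.insert | with_reducible apply IntF.singleton | with_reducible apply IntF.union | with_reducible apply IntF.inter | with_reducible apply IntF.sdiff | with_reducible apply IntF.isUnion | with_reducible apply IntF.iimage | with_reducible apply IntF.the | with_reducible apply IntF.irec | with_reducible_and_instances apply IntF.add | with_reducible_and_instances apply IntF.mul | with_reducible apply IntF.succ | with_reducible apply IntF.val | (with_reducible refine Int.comp ?_ ?_; assumption) | (with_reducible refine Int.comp₂ ?_ ?_ ?_; assumption) | (with_reducible refine Int.comp₃ ?_ ?_ ?_ ?_; assumption) | (with_reducible refine IntF.comp ?_ ?_; assumption) | (with_reducible refine IntF.comp₂ ?_ ?_ ?_; assumption) | (with_reducible refine IntF.comp₃ ?_ ?_ ?_ ?_; assumption) | with_reducible apply IntF.pair))) ?_ ?_ s hs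
  · exact ⟨0, fun f h _ => by
      have := h 0 le_rfl
      simp at this⟩
  · rintro s a - - ⟨N, hN⟩
    refine ⟨N.succ, fun f hf hinj => ?_⟩
    by_cases h : ∀ j, j ≤ N → f j ∈ s
    · exact hN f h fun i j hi hj => hinj i j (hi.trans (INat.le_succ_self N))
        (hj.trans (INat.le_succ_self N))
    · push Not at h
      obtain ⟨j₀, h1, h2⟩ := h
      have h3 : f j₀ = a :=
        (mem_insert.1 (hf j₀ (h1.trans (INat.le_succ_self N)))).resolve_right h2
      have hg : IntF M (fun j : INat M => if j = j₀ then f N.succ else f j) := by (repeat' (first | with_reducible exact IntF.id | with_reducible exact IntF.fst' | with_reducible exact IntF.snd' | with_reducible exact IntF.const _ | with_reducible exact Int.const _ | assumption | with_reducible apply Int.and | with_reducible apply Int.or | with_reducible apply Int.not | with_reducible apply Int.imp | with_reducible apply Int.iff | with_reducible apply Int.ne | with_reducible apply Int.eq | with_reducible apply Int.mem | with_reducible apply Int.subset | with_reducible apply Int.ltN | with_reducible apply Int.leN | with_reducible apply Int.fin | with_reducible apply Int.unique | with_reducible apply Int.all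 | with_reducible apply Int.ex | with_reducible apply IntF.fst | with_reducible apply IntF.snd | with_reducible apply IntF.app | with_reducible apply IntF.ite | with_reducible apply IntF.sep | with_reducible apply IntF.lam | with_reducible apply IntF.insert | with_reducible apply IntF.singleton | with_reducible apply IntF.union | with_reducible apply IntF.inter | with_reducible apply IntF.sdiff | with_reducible apply IntF.isUnion | with_reducible apply IntF.iimage | with_reducible apply IntF.the | with_reducible apply IntF.irec | with_reducible_and_instances apply IntF.add | with_reducible_and_instances apply IntF.mul | with_reducible apply IntF.succ | with_reducible apply IntF.val | (with_reducible refine Int.comp ?_ ?_; assumption) | (with_reducible refine Int.comp₂ ?_ ?_ ?_; assumption) | (with_reducible refine Int.comp₃ ?_ ?_ ?_ ?_; assumption) | (with_reducible refine IntF.comp ?_ ?_; assumption) | (with_reducible refine IntF.comp₂ ?_ ?_ ?_; assumption) | (with_reducible refine IntF.comp₃ ?_ ?_ ?_ ?_; assumption) | with_reducible apply IntF.pair))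
      have hN' : N.succ ≠ j₀ := by
        rintro rfl
        exact absurd (INat.succ_le_iff.1 h1) (lt_irrefl N)
      refine hN ⟨fun j : INat M => if j = j₀ then f N.succ else f j, hg⟩ (fun j hj => ?_)
        fun i j hi hj hij => ?_
      · change (if j = j₀ then f N.succ else f j) ∈ s
        by_cases hj' : j = j₀
        · rw [if_pos hj']
          refine (mem_insert.1 (hf N.succ le_rfl)).resolve_left fun h => hN' ?_
          exact hinj _ _ le_rfl (h1.trans (INat.le_succ_self N)) (h.trans h3.symm)
        · rw [if_neg hj']
          refine (mem_insert.1 (hf j (hj.trans (INat.le_succ_self N)))).resolve_left fun h =>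
            hj' ?_
          exact hinj _ _ (hj.trans (INat.le_succ_self N)) (h1.trans (INat.le_succ_self N))
            (h.trans h3.symm)
      · change (if i = j₀ then f N.succ else f i) = (if j = j₀ then f N.succ else f j) at hij
        have hne : ∀ j, j ≤ N → j ≠ N.succ := by
          rintro j hj rfl
          exact absurd (INat.succ_le_iff.1 hj) (lt_irrefl N)
        by_cases hi' : i = j₀ <;> by_cases hj' : j = j₀
        · rw [hi', hj']
        · rw [if_pos hi', if_neg hj'] at hij
          exact absurd (hinj _ _ le_rfl (hj.trans (INat.le_succ_self N)) hij).symm (hne j hj)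
        · rw [if_neg hi', if_pos hj'] at hij
          exact absurd (hinj _ _ (hi.trans (INat.le_succ_self N)) le_rfl hij) (hne i hi)
        · rw [if_neg hi', if_neg hj'] at hij
          exact hinj _ _ (hi.trans (INat.le_succ_self N)) (hj.trans (INat.le_succ_self N)) hij

/-! ### Periods -/

/-- Iterates of a permutation. -/
noncomputable def itp (σ : IPm M α) (n : INat M) (x : α) : α := itr σ.1 n x

theorem int_itp : IntF M (fun q : (IPm M α × INat M) × α => itp q.1.1 q.1.2 q.2) := by
  unfold itp itr
  (repeat' (first | with_reducible exact IntF.id | with_reducible exact IntF.fst' | with_reducible exact IntF.snd' | with_reducible exact IntF.const _ | with_reducible exact Int.const _ | assumption | with_reducible apply Int.and | with_reducible apply Int.or | with_reducible apply Int.not | with_reducible apply Int.imp | with_reducible apply Int.iff | with_reducible apply Int.ne | with_reducible apply Int.eq | with_reducible apply Int.mem | with_reducible apply Int.subset | with_reducible apply Int.ltN | with_reducible apply Int.leN | with_reducible apply Int.fin | with_reducible apply Int.unique | with_reducible apply Int.all | with_reducible apply Int.ex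 | with_reducible apply IntF.fst | with_reducible apply IntF.snd | with_reducible apply IntF.app | with_reducible apply IntF.ite | with_reducible apply IntF.sep | with_reducible apply IntF.lam | with_reducible apply IntF.insert | with_reducible apply IntF.singleton | with_reducible apply IntF.union | with_reducible apply IntF.inter | with_reducible apply IntF.sdiff | with_reducible apply IntF.isUnion | with_reducible apply IntF.iimage | with_reducible apply IntF.the | with_reducible apply IntF.irec | with_reducible_and_instances apply IntF.add | with_reducible_and_instances apply IntF.mul | with_reducible apply IntF.succ | with_reducible apply IntF.val | (with_reducible refine Int.comp ?_ ?_; assumption) | (with_reducible refine Int.comp₂ ?_ ?_ ?_; assumption) | (with_reducible refine Int.comp₃ ?_ ?_ ?_ ?_; assumption) | (with_reducible refine IntF.comp ?_ ?_; assumption) | (with_reducible refine IntF.comp₂ ?_ ?_ ?_; assumption) | (with_reducible refine IntF.comp₃ ?_ ?_ ?_ ?_; assumption) | with_reducible apply IntF.pair))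

theorem itp_zero (σ : IPm M α) (x : α) : itp σ 0 x = x := itr_zero σ.1.int x

theorem itp_succ (σ : IPm M α) (n : INat M) (x : α) : itp σ n.succ x = σ.1 (itp σ n x) :=
  itr_succ σ.1.int n x

theorem itp_add (σ : IPm M α) (m n : INat M) (x : α) : itp σ (m + n) x = itp σ m (itp σ n x) :=
  itr_add σ.1.int m n x

theorem itp_inj (σ : IPm M α) (n : INat M) {x y : α} (h : itp σ n x = itp σ n y) : x = y :=
  itr_inj σ.1.int (fun _ _ h => σ.inj h) n h

/-- `n + 1` is the least period of `c`. -/
def Per (c : α) (σ : IPm M α) (n : INat M) : Prop :=
  itp σ n.succ c = c ∧ ∀ m, m < n → itp σ m.succ c ≠ c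

theorem int_Per (c : α) : Int M (fun q : IPm M α × INat M => Per c q.1 q.2) := by
  have h := int_itp (M := M) (α := α)
  unfold Per
  (repeat' (first | with_reducible exact IntF.id | with_reducible exact IntF.fst' | with_reducible exact IntF.snd' | with_reducible exact IntF.const _ | with_reducible exact Int.const _ | assumption | with_reducible apply Int.and | with_reducible apply Int.or | with_reducible apply Int.not | with_reducible apply Int.imp | with_reducible apply Int.iff | with_reducible apply Int.ne | with_reducible apply Int.eq | with_reducible apply Int.mem | with_reducible apply Int.subset | with_reducible apply Int.ltN | with_reducible apply Int.leN | with_reducible apply Int.fin | with_reducible apply Int.unique | with_reducible apply Int.all | with_reducible apply Int.ex | with_reducible apply IntF.fst | with_reducible apply IntF.snd | with_reducible apply IntF.app | with_reducible apply IntF.ite | with_reducible apply IntF.sep | with_reducible apply IntF.lam | with_reducible apply IntF.insert | with_reducible apply IntF.singleton | with_reducible apply IntF.union | with_reducible apply IntF.inter | with_reducible apply IntF.sdiff | with_reducible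 apply IntF.isUnion | with_reducible apply IntF.iimage | with_reducible apply IntF.the | with_reducible apply IntF.irec | with_reducible_and_instances apply IntF.add | with_reducible_and_instances apply IntF.mul | with_reducible apply IntF.succ | with_reducible apply IntF.val | (with_reducible refine Int.comp ?_ ?_; assumption) | (with_reducible refine Int.comp₂ ?_ ?_ ?_; assumption) | (with_reducible refine Int.comp₃ ?_ ?_ ?_ ?_; assumption) | (with_reducible refine IntF.comp ?_ ?_; assumption) | (with_reducible refine IntF.comp₂ ?_ ?_ ?_; assumption) | (with_reducible refine IntF.comp₃ ?_ ?_ ?_ ?_; assumption) | with_reducible apply IntF.pair))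

theorem exists_Per (hD : DF M α (fun _ => True)) (c : α) (σ : IPm M α) : ∃ n, Per c σ n := by
  have h := int_itp (M := M) (α := α)
  obtain ⟨n, h1, h2⟩ := INat.exists_least (p := fun n : INat M => itp σ n.succ c = c) (by (repeat' (first | with_reducible exact IntF.id | with_reducible exact IntF.fst' | with_reducible exact IntF.snd' | with_reducible exact IntF.const _ | with_reducible exact Int.const _ | assumption | with_reducible apply Int.and | with_reducible apply Int.or | with_reducible apply Int.not | with_reducible apply Int.imp | with_reducible apply Int.iff | with_reducible apply Int.ne | with_reducible apply Int.eq | with_reducible apply Int.mem | with_reducible apply Int.subset | with_reducible apply Int.ltN | with_reducible apply Int.leN | with_reducible apply Int.fin | with_reducible apply Int.unique | with_reducible apply Int.all | with_reducible apply Int.ex | with_reducible apply IntF.fst | with_reducible apply IntF.snd | with_reducible apply IntF.app | with_reducible apply IntF.ite | with_reducible apply IntF.sep | with_reducible apply IntF.lam | with_reducible apply IntF.insert | with_reducible apply IntF.singleton | with_reducible apply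 IntF.union | with_reducible apply IntF.inter | with_reducible apply IntF.sdiff | with_reducible apply IntF.isUnion | with_reducible apply IntF.iimage | with_reducible apply IntF.the | with_reducible apply IntF.irec | with_reducible_and_instances apply IntF.add | with_reducible_and_instances apply IntF.mul | with_reducible apply IntF.succ | with_reducible apply IntF.val | (with_reducible refine Int.comp ?_ ?_; assumption) | (with_reducible refine Int.comp₂ ?_ ?_ ?_; assumption) | (with_reducible refine Int.comp₃ ?_ ?_ ?_ ?_; assumption) | (with_reducible refine IntF.comp ?_ ?_; assumption) | (with_reducible refine IntF.comp₂ ?_ ?_ ?_; assumption) | (with_reducible refine IntF.comp₃ ?_ ?_ ?_ ?_; assumption) | with_reducible apply IntF.pair)))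
    (exists_period hD σ.1.int (fun _ _ h => σ.inj h) c)
  exact ⟨n, h1, fun m hm h3 => absurd (h2 m h3) (not_le.2 hm)⟩

theorem Per.orbit {c : α} {σ : IPm M α} {n : INat M} (h : Per c σ n) {i j : INat M} (hi : i ≤ n)
    (hj : j ≤ n) (hij : itp σ i c = itp σ j c) : i = j := by
  have key : ∀ i j : INat M, i < j → j ≤ n → itp σ i c ≠ itp σ j c := by
    intro i j hlt hjn he
    rcases INat.total i j with ⟨d, hd⟩ | ⟨d, hd⟩
    · rcases INat.eq_zero_or_succ d with rfl | ⟨d, rfl⟩
      · rw [add_zero] at hd
        rw [hd] at hlt
        exact lt_irrefl _ hlt
      · rw [hd, itp_add] at he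
        refine h.2 d ?_ (itp_inj σ i he).symm
        have h1 : d.succ ≤ j := by
          rw [hd]
          exact le_add_l _ _
        exact INat.succ_le_iff.1 (h1.trans hjn)
    · have h1 : j ≤ i := by
        rw [hd]
        exact le_add_r _ _
      exact absurd hlt (not_lt.2 h1)
  rcases lt_trichotomy i j with h1 | h1 | h1
  · exact absurd hij (key i j h1 hj)
  · exact h1
  · exact absurd hij.symm (key j i h1 hi)

/-! ### Enumerations -/

/-- `c, s 1, ..., s k` are distinct, and `s` has the value `c` otherwise. -/
def En (c : α) (k : INat M) (s : IFun M (INat M) α) : Prop :=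
  s 0 = c ∧ (∀ j, k < j → s j = c) ∧ (∀ j, 0 < j → j ≤ k → s j ≠ c) ∧
    ∀ i j, s i ≠ c → s i = s j → i = j

theorem int_En (c : α) : Int M (fun q : INat M × IFun M (INat M) α => En c q.1 q.2) := by
  unfold En
  (repeat' (first | with_reducible exact IntF.id | with_reducible exact IntF.fst' | with_reducible exact IntF.snd' | with_reducible exact IntF.const _ | with_reducible exact Int.const _ | assumption | with_reducible apply Int.and | with_reducible apply Int.or | with_reducible apply Int.not | with_reducible apply Int.imp | with_reducible apply Int.iff | with_reducible apply Int.ne | with_reducible apply Int.eq | with_reducible apply Int.mem | with_reducible apply Int.subset | with_reducible apply Int.ltN | with_reducible apply Int.leN | with_reducible apply Int.fin | with_reducible apply Int.unique | with_reducible apply Int.all | with_reducible apply Int.ex | with_reducible apply IntF.fst | with_reducible apply IntF.snd | with_reducible apply IntF.app | with_reducible apply IntF.ite | with_reducible apply IntF.sep | with_reducible apply IntF.lam | with_reducible apply IntF.insert | with_reducible apply IntF.singleton | with_reducible apply IntF.union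 | with_reducible apply IntF.inter | with_reducible apply IntF.sdiff | with_reducible apply IntF.isUnion | with_reducible apply IntF.iimage | with_reducible apply IntF.the | with_reducible apply IntF.irec | with_reducible_and_instances apply IntF.add | with_reducible_and_instances apply IntF.mul | with_reducible apply IntF.succ | with_reducible apply IntF.val | (with_reducible refine Int.comp ?_ ?_; assumption) | (with_reducible refine Int.comp₂ ?_ ?_ ?_; assumption) | (with_reducible refine Int.comp₃ ?_ ?_ ?_ ?_; assumption) | (with_reducible refine IntF.comp ?_ ?_; assumption) | (with_reducible refine IntF.comp₂ ?_ ?_ ?_; assumption) | (with_reducible refine IntF.comp₃ ?_ ?_ ?_ ?_; assumption) | with_reducible apply IntF.pair))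

variable {c : α} {k k' : INat M} {s s' : IFun M (INat M) α}

theorem En.inj (h : En c k s) {i j : INat M} (hi : i ≤ k) (hj : j ≤ k) (hij : s i = s j) :
    i = j := by
  by_cases h1 : s i = c
  · have hi0 : i = 0 := by
      by_contra h2
      exact h.2.2.1 i ((INat.zero_le i).lt_of_ne' h2) hi h1
    have hj0 : j = 0 := by
      by_contra h2
      exact h.2.2.1 j ((INat.zero_le j).lt_of_ne' h2) hj (hij ▸ h1)
    rw [hi0, hj0]
  · exact h.2.2.2 i j h1 hij

theorem En.lt (h : En c k s) (h' : En c k' s) : ¬ k < k' := fun hk =>
  h'.2.2.1 k' ((INat.zero_le k).trans_lt hk) le_rfl (h.2.1 k' hk)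

theorem En.unique (h : En c k s) (h' : En c k' s) : k = k' :=
  le_antisymm (not_lt.1 (h'.lt h)) (not_lt.1 (h.lt h'))

theorem En.ne (h : En c k s) {j : INat M} (hj : s j ≠ c) : 0 < j ∧ j ≤ k := by
  constructor
  · refine (INat.zero_le j).lt_of_ne' ?_
    rintro rfl
    exact hj h.1
  · by_contra h1
    exact hj (h.2.1 j (not_le.1 h1))

/-- The cycle. -/
noncomputable def cyc (k : INat M) (s : IFun M (INat M) α) : IPm M α :=
  the (fun σ : IPm M α => (∀ j, j ≤ k → σ.1 (s j) = s j.succ) ∧
    ∀ x, (∀ j, j ≤ k → s j ≠ x) → σ.1 x = x) (IPm.one M α)

theorem int_cyc : IntF M (fun q : INat M × IFun M (INat M) α => cyc q.1 q.2) := by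
  unfold cyc
  (repeat' (first | with_reducible exact IntF.id | with_reducible exact IntF.fst' | with_reducible exact IntF.snd' | with_reducible exact IntF.const _ | with_reducible exact Int.const _ | assumption | with_reducible apply Int.and | with_reducible apply Int.or | with_reducible apply Int.not | with_reducible apply Int.imp | with_reducible apply Int.iff | with_reducible apply Int.ne | with_reducible apply Int.eq | with_reducible apply Int.mem | with_reducible apply Int.subset | with_reducible apply Int.ltN | with_reducible apply Int.leN | with_reducible apply Int.fin | with_reducible apply Int.unique | with_reducible apply Int.all | with_reducible apply Int.ex | with_reducible apply IntF.fst | with_reducible apply IntF.snd | with_reducible apply IntF.app | with_reducible apply IntF.ite | with_reducible apply IntF.sep | with_reducible apply IntF.lam | with_reducible apply IntF.insert | with_reducible apply IntF.singleton | with_reducible apply IntF.union | with_reducible apply IntF.inter | with_reducible apply IntF.sdiff | with_reducible apply IntF.isUnion | with_reducible apply IntF.iimage | with_reducible apply IntF.the | with_reducible apply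 IntF.irec | with_reducible_and_instances apply IntF.add | with_reducible_and_instances apply IntF.mul | with_reducible apply IntF.succ | with_reducible apply IntF.val | (with_reducible refine Int.comp ?_ ?_; assumption) | (with_reducible refine Int.comp₂ ?_ ?_ ?_; assumption) | (with_reducible refine Int.comp₃ ?_ ?_ ?_ ?_; assumption) | (with_reducible refine IntF.comp ?_ ?_; assumption) | (with_reducible refine IntF.comp₂ ?_ ?_ ?_; assumption) | (with_reducible refine IntF.comp₃ ?_ ?_ ?_ ?_; assumption) | with_reducible apply IntF.pair))

theorem cyc_spec (hD : DF M α (fun _ => True)) (h : En c k s) :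
    (∀ j, j ≤ k → (cyc k s).1 (s j) = s j.succ) ∧
      ∀ x, (∀ j, j ≤ k → s j ≠ x) → (cyc k s).1 x = x := by
  refine the_spec (p := fun σ : IPm M α => (∀ j, j ≤ k → σ.1 (s j) = s j.succ) ∧
    ∀ x, (∀ j, j ≤ k → s j ≠ x) → σ.1 x = x) ?_
  let f : α → α := fun x => the (fun y => (∃ j, j ≤ k ∧ s j = x ∧ y = s j.succ) ∨
    ((∀ j, j ≤ k → s j ≠ x) ∧ y = x)) x
  have hf : IntF M f := by
    change IntF M (fun x => the (fun y => (∃ j, j ≤ k ∧ s j = x ∧ y = s j.succ) ∨
      ((∀ j, j ≤ k → s j ≠ x) ∧ y = x)) x)
    (repeat' (first | with_reducible exact IntF.id | with_reducible exact IntF.fst' | with_reducible exact IntF.snd' | with_reducible exact IntF.const _ | with_reducible exact Int.const _ | assumption | with_reducible apply Int.and | with_reducible apply Int.or | with_reducible apply Int.not | with_reducible apply Int.imp | with_reducible apply Int.iff | with_reducible apply Int.ne | with_reducible apply Int.eq | with_reducible apply Int.mem | with_reducible apply Int.subset | with_reducible apply Int.ltN | with_reducible apply Int.leN | with_reducible apply Int.fin | with_reducible apply Int.unique | with_reducible apply Int.all | with_reducible apply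 Int.ex | with_reducible apply IntF.fst | with_reducible apply IntF.snd | with_reducible apply IntF.app | with_reducible apply IntF.ite | with_reducible apply IntF.sep | with_reducible apply IntF.lam | with_reducible apply IntF.insert | with_reducible apply IntF.singleton | with_reducible apply IntF.union | with_reducible apply IntF.inter | with_reducible apply IntF.sdiff | with_reducible apply IntF.isUnion | with_reducible apply IntF.iimage | with_reducible apply IntF.the | with_reducible apply IntF.irec | with_reducible_and_instances apply IntF.add | with_reducible_and_instances apply IntF.mul | with_reducible apply IntF.succ | with_reducible apply IntF.val | (with_reducible refine Int.comp ?_ ?_; assumption) | (with_reducible refine Int.comp₂ ?_ ?_ ?_; assumption) | (with_reducible refine Int.comp₃ ?_ ?_ ?_ ?_; assumption) | (with_reducible refine IntF.comp ?_ ?_; assumption) | (with_reducible refine IntF.comp₂ ?_ ?_ ?_; assumption) | (with_reducible refine IntF.comp₃ ?_ ?_ ?_ ?_; assumption) | with_reducible apply IntF.pair))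
  have h1 : ∀ j, j ≤ k → f (s j) = s j.succ := by
    intro j hj
    refine the_eq ⟨s j.succ, Or.inl ⟨j, hj, rfl, rfl⟩, ?_⟩ (Or.inl ⟨j, hj, rfl, rfl⟩)
    rintro y (⟨i, h2, h3, rfl⟩ | ⟨h2, _⟩)
    · rw [h.inj h2 hj h3]
    · exact absurd rfl (h2 j hj)
  have h2 : ∀ x, (∀ j, j ≤ k → s j ≠ x) → f x = x := by
    intro x hx
    refine the_eq ⟨x, Or.inr ⟨hx, rfl⟩, ?_⟩ (Or.inr ⟨hx, rfl⟩)
    rintro y (⟨i, h2, h3, rfl⟩ | ⟨h2, rfl⟩)
    · exact absurd h3 (hx i h2)
    · rfl
  have hs : ∀ j, j ≤ k → ∃ l, l ≤ k ∧ s j.succ = s l := by
    intro j hj
    rcases hj.lt_or_eq with hj | rfl
    · exact ⟨j.succ, INat.succ_le_iff.2 hj, rfl⟩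
    · exact ⟨0, INat.zero_le _, by rw [h.1, h.2.1 _ (INat.lt_succ_self j)]⟩
  have h3 : ∀ x y, f x = f y → x = y := by
    intro x y hxy
    by_cases hx : ∃ j, j ≤ k ∧ s j = x <;> by_cases hy : ∃ j, j ≤ k ∧ s j = y
    · obtain ⟨i, hi, rfl⟩ := hx
      obtain ⟨j, hj, rfl⟩ := hy
      rw [h1 i hi, h1 j hj] at hxy
      by_cases hc : s i.succ = c
      · have hk : ∀ j, j ≤ k → s j.succ = c → j = k := by
          intro j hj hjc
          rcases hj.lt_or_eq with hj | rfl
          · exact absurd hjc (h.2.2.1 _ ((INat.zero_le j).trans_lt (INat.lt_succ_self j))
              (INat.succ_le_iff.2 hj))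
          · rfl
        rw [hk i hi hc, hk j hj (hxy ▸ hc)]
      · rw [INat.succ_inj (h.2.2.2 _ _ hc hxy)]
    · obtain ⟨i, hi, rfl⟩ := hx
      push Not at hy
      rw [h1 i hi, h2 y hy] at hxy
      obtain ⟨l, hl, h4⟩ := hs i hi
      exact absurd (h4.symm.trans hxy) (hy l hl)
    · obtain ⟨j, hj, rfl⟩ := hy
      push Not at hx
      rw [h1 j hj, h2 x hx] at hxy
      obtain ⟨l, hl, h4⟩ := hs j hj
      exact absurd (h4.symm.trans hxy.symm) (hx l hl)
    · push Not at hx hy
      rwa [h2 x hx, h2 y hy] at hxy
  refine ⟨IPm.of f hf h3 (hD.surj hf h3), ⟨h1, h2⟩, ?_⟩
  rintro σ ⟨h4, h5⟩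
  refine IPm.ext fun x => ?_
  change σ.1 x = f x
  by_cases hx : ∃ j, j ≤ k ∧ s j = x
  · obtain ⟨i, hi, rfl⟩ := hx
    rw [h1 i hi, h4 i hi]
  · push Not at hx
    rw [h2 x hx, h5 x hx]

theorem cyc_itp (hD : DF M α (fun _ => True)) (h : En c k s) (j : INat M) :
    j ≤ k.succ → itp (cyc k s) j c = s j := by
  have h1 := int_itp (M := M) (α := α)
  refine INat.ind (p := fun j : INat M => j ≤ k.succ → itp (cyc k s) j c = s j) (by (repeat' (first | with_reducible exact IntF.id | with_reducible exact IntF.fst' | with_reducible exact IntF.snd' | with_reducible exact IntF.const _ | with_reducible exact Int.const _ | assumption | with_reducible apply Int.and | with_reducible apply Int.or | with_reducible apply Int.not | with_reducible apply Int.imp | with_reducible apply Int.iff | with_reducible apply Int.ne | with_reducible apply Int.eq | with_reducible apply Int.mem | with_reducible apply Int.subset | with_reducible apply Int.ltN | with_reducible apply Int.leN | with_reducible apply Int.fin | with_reducible apply Int.unique | with_reducible apply Int.all | with_reducible apply Int.ex | with_reducible apply IntF.fst | with_reducible apply IntF.snd | with_reducible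 apply IntF.app | with_reducible apply IntF.ite | with_reducible apply IntF.sep | with_reducible apply IntF.lam | with_reducible apply IntF.insert | with_reducible apply IntF.singleton | with_reducible apply IntF.union | with_reducible apply IntF.inter | with_reducible apply IntF.sdiff | with_reducible apply IntF.isUnion | with_reducible apply IntF.iimage | with_reducible apply IntF.the | with_reducible apply IntF.irec | with_reducible_and_instances apply IntF.add | with_reducible_and_instances apply IntF.mul | with_reducible apply IntF.succ | with_reducible apply IntF.val | (with_reducible refine Int.comp ?_ ?_; assumption) | (with_reducible refine Int.comp₂ ?_ ?_ ?_; assumption) | (with_reducible refine Int.comp₃ ?_ ?_ ?_ ?_; assumption) | (with_reducible refine IntF.comp ?_ ?_; assumption) | (with_reducible refine IntF.comp₂ ?_ ?_ ?_; assumption) | (with_reducible refine IntF.comp₃ ?_ ?_ ?_ ?_; assumption) | with_reducible apply IntF.pair))) ?_ ?_ j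
  · intro _
    rw [itp_zero, h.1]
  · intro j ih hj
    have hj' : j ≤ k := INat.lt_succ_iff.1 (INat.succ_le_iff.1 hj)
    rw [itp_succ, ih (hj'.trans (INat.le_succ_self k)), (cyc_spec hD h).1 j hj']

theorem Per_cyc (hD : DF M α (fun _ => True)) (h : En c k s) : Per c (cyc k s) k := by
  refine ⟨?_, fun m hm => ?_⟩
  · rw [cyc_itp hD h _ le_rfl, h.2.1 _ (INat.lt_succ_self k)]
  · have hm' : m.succ ≤ k := INat.succ_le_iff.2 hm
    rw [cyc_itp hD h _ (hm'.trans (INat.le_succ_self k))]
    exact h.2.2.1 _ ((INat.zero_le m).trans_lt (INat.lt_succ_self m)) hm'

theorem Per.unique {σ : IPm M α} {n n' : INat M} (h : Per c σ n) (h' : Per c σ n') : n = n' := by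
  rcases lt_trichotomy n n' with h1 | h1 | h1
  · exact absurd h.1 (h'.2 n h1)
  · exact h1
  · exact absurd h'.1 (h.2 n' h1)

theorem cyc_inj (hD : DF M α (fun _ => True)) (h : En c k s) (h' : En c k' s')
    (he : cyc k s = cyc k' s') : s = s' := by
  have hk : k = k' := by
    have h1 := Per_cyc hD h
    rw [he] at h1
    exact h1.unique (Per_cyc hD h')
  subst hk
  refine IFun.ext' fun j => ?_
  by_cases hj : j ≤ k
  · rw [← cyc_itp hD h j (hj.trans (INat.le_succ_self k)),
      ← cyc_itp hD h' j (hj.trans (INat.le_succ_self k)), he]
  · rw [h.2.1 j (not_le.1 hj), h'.2.1 j (not_le.1 hj)]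

/-- Enumerations of every length exist in infinite sets. -/
theorem exists_En (hinf : ¬ FinP M (fun _ : α => True)) (c : α) (k : INat M) : ∃ s, En c k s := by
  classical
  have hE := int_En (M := M) c
  refine INat.ind (p := fun k => ∃ s, En c k s) (by (repeat' (first | with_reducible exact IntF.id | with_reducible exact IntF.fst' | with_reducible exact IntF.snd' | with_reducible exact IntF.const _ | with_reducible exact Int.const _ | assumption | with_reducible apply Int.and | with_reducible apply Int.or | with_reducible apply Int.not | with_reducible apply Int.imp | with_reducible apply Int.iff | with_reducible apply Int.ne | with_reducible apply Int.eq | with_reducible apply Int.mem | with_reducible apply Int.subset | with_reducible apply Int.ltN | with_reducible apply Int.leN | with_reducible apply Int.fin | with_reducible apply Int.unique | with_reducible apply Int.all | with_reducible apply Int.ex | with_reducible apply IntF.fst | with_reducible apply IntF.snd | with_reducible apply IntF.app | with_reducible apply IntF.ite | with_reducible apply IntF.sep | with_reducible apply IntF.lam | with_reducible apply IntF.insert | with_reducible apply IntF.singleton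 | with_reducible apply IntF.union | with_reducible apply IntF.inter | with_reducible apply IntF.sdiff | with_reducible apply IntF.isUnion | with_reducible apply IntF.iimage | with_reducible apply IntF.the | with_reducible apply IntF.irec | with_reducible_and_instances apply IntF.add | with_reducible_and_instances apply IntF.mul | with_reducible apply IntF.succ | with_reducible apply IntF.val | (with_reducible refine Int.comp ?_ ?_; assumption) | (with_reducible refine Int.comp₂ ?_ ?_ ?_; assumption) | (with_reducible refine Int.comp₃ ?_ ?_ ?_ ?_; assumption) | (with_reducible refine IntF.comp ?_ ?_; assumption) | (with_reducible refine IntF.comp₂ ?_ ?_ ?_; assumption) | (with_reducible refine IntF.comp₃ ?_ ?_ ?_ ?_; assumption) | with_reducible apply IntF.pair))) ?_ ?_ k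
  · refine ⟨⟨fun _ => c, IntF.const c⟩, rfl, fun _ _ => rfl, fun j h1 h2 => ?_, fun i j h => ?_⟩
    · exact absurd h1 (not_lt.2 h2)
    · exact absurd rfl h
  · rintro k ⟨s, hs⟩
    have h1 : ∃ a, ∀ j, j ≤ k → s j ≠ a := by
      by_contra h1
      push Not at h1
      exact hinf (((finP_le k).image s.int).mono fun a _ => h1 a)
    obtain ⟨a, ha⟩ := h1
    have hg : IntF M (fun j : INat M => if j = k.succ then a else s j) := by (repeat' (first | with_reducible exact IntF.id | with_reducible exact IntF.fst' | with_reducible exact IntF.snd' | with_reducible exact IntF.const _ | with_reducible exact Int.const _ | assumption | with_reducible apply Int.and | with_reducible apply Int.or | with_reducible apply Int.not | with_reducible apply Int.imp | with_reducible apply Int.iff | with_reducible apply Int.ne | with_reducible apply Int.eq | with_reducible apply Int.mem | with_reducible apply Int.subset | with_reducible apply Int.ltN | with_reducible apply Int.leN | with_reducible apply Int.fin | with_reducible apply Int.unique | with_reducible apply Int.all | with_reducible apply Int.ex | with_reducible apply IntF.fst | with_reducible apply IntF.snd | with_reducible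 apply IntF.app | with_reducible apply IntF.ite | with_reducible apply IntF.sep | with_reducible apply IntF.lam | with_reducible apply IntF.insert | with_reducible apply IntF.singleton | with_reducible apply IntF.union | with_reducible apply IntF.inter | with_reducible apply IntF.sdiff | with_reducible apply IntF.isUnion | with_reducible apply IntF.iimage | with_reducible apply IntF.the | with_reducible apply IntF.irec | with_reducible_and_instances apply IntF.add | with_reducible_and_instances apply IntF.mul | with_reducible apply IntF.succ | with_reducible apply IntF.val | (with_reducible refine Int.comp ?_ ?_; assumption) | (with_reducible refine Int.comp₂ ?_ ?_ ?_; assumption) | (with_reducible refine Int.comp₃ ?_ ?_ ?_ ?_; assumption) | (with_reducible refine IntF.comp ?_ ?_; assumption) | (with_reducible refine IntF.comp₂ ?_ ?_ ?_; assumption) | (with_reducible refine IntF.comp₃ ?_ ?_ ?_ ?_; assumption) | with_reducible apply IntF.pair))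
    have hac : a ≠ c := fun h => ha 0 (INat.zero_le k) (hs.1.trans h.symm)
    have hk : (0 : INat M) ≠ k.succ := fun h => INat.succ_ne_zero k h.symm
    have hne : ∀ j, s j ≠ a := by
      intro j h
      have := hs.ne (by rw [h]; exact hac)
      exact ha j this.2 h
    refine ⟨⟨fun j : INat M => if j = k.succ then a else s j, hg⟩, ?_, fun j hj => ?_,
      fun j hj hj' => ?_, fun i j h2 h3 => ?_⟩
    · change (if (0 : INat M) = k.succ then a else s 0) = c
      rw [if_neg hk, hs.1]
    · change (if j = k.succ then a else s j) = c
      rw [if_neg hj.ne', hs.2.1 j ((INat.lt_succ_self k).trans hj)]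
    · change (if j = k.succ then a else s j) ≠ c
      by_cases h2 : j = k.succ
      · rw [if_pos h2]
        exact hac
      · rw [if_neg h2]
        exact hs.2.2.1 j hj (INat.lt_succ_iff.1 (hj'.lt_of_ne h2))
    · change (if i = k.succ then a else s i) ≠ c at h2
      change (if i = k.succ then a else s i) = (if j = k.succ then a else s j) at h3
      by_cases hi : i = k.succ <;> by_cases hj : j = k.succ
      · rw [hi, hj]
      · rw [if_pos hi, if_neg hj] at h3
        exact absurd h3.symm (hne j)
      · rw [if_neg hi, if_pos hj] at h3
        exact absurd h3 (hne i)
      · rw [if_neg hi] at h2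
        rw [if_neg hi, if_neg hj] at h3
        exact hs.2.2.2 i j h2 h3

/-- Enumerations of finite sets. -/
theorem exists_En_fin {F : IPow M α} (hF : IFin F) (hc : ¬ c ∈ F) :
    ∃ (k : INat M) (s : IFun M (INat M) α), En c k s ∧
      ∀ x, x ≠ c → (x ∈ F ↔ ∃ j, s j = x) := by
  obtain ⟨e, n, h1, h2, h3⟩ := exists_BN hF
  let f : INat M → α := fun j => the (fun x => x ∈ F ∧ j = (e x).succ) c
  have hf : IntF M f := by
    change IntF M (fun j => the (fun x => x ∈ F ∧ j = (e x).succ) c)
    (repeat' (first | with_reducible exact IntF.id | with_reducible exact IntF.fst' | with_reducible exact IntF.snd' | with_reducible exact IntF.const _ | with_reducible exact Int.const _ | assumption | with_reducible apply Int.and | with_reducible apply Int.or | with_reducible apply Int.not | with_reducible apply Int.imp | with_reducible apply Int.iff | with_reducible apply Int.ne | with_reducible apply Int.eq | with_reducible apply Int.mem | with_reducible apply Int.subset | with_reducible apply Int.ltN | with_reducible apply Int.leN | with_reducible apply Int.fin | with_reducible apply Int.unique | with_reducible apply Int.all | with_reducible apply Int.ex | with_reducible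 apply IntF.fst | with_reducible apply IntF.snd | with_reducible apply IntF.app | with_reducible apply IntF.ite | with_reducible apply IntF.sep | with_reducible apply IntF.lam | with_reducible apply IntF.insert | with_reducible apply IntF.singleton | with_reducible apply IntF.union | with_reducible apply IntF.inter | with_reducible apply IntF.sdiff | with_reducible apply IntF.isUnion | with_reducible apply IntF.iimage | with_reducible apply IntF.the | with_reducible apply IntF.irec | with_reducible_and_instances apply IntF.add | with_reducible_and_instances apply IntF.mul | with_reducible apply IntF.succ | with_reducible apply IntF.val | (with_reducible refine Int.comp ?_ ?_; assumption) | (with_reducible refine Int.comp₂ ?_ ?_ ?_; assumption) | (with_reducible refine Int.comp₃ ?_ ?_ ?_ ?_; assumption) | (with_reducible refine IntF.comp ?_ ?_; assumption) | (with_reducible refine IntF.comp₂ ?_ ?_ ?_; assumption) | (with_reducible refine IntF.comp₃ ?_ ?_ ?_ ?_; assumption) | with_reducible apply IntF.pair))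
  have h4 : ∀ x, x ∈ F → f (e x).succ = x := fun x hx =>
    the_eq ⟨x, ⟨hx, rfl⟩, fun y hy => h2 _ _ hy.1 hx (INat.succ_inj hy.2).symm⟩ ⟨hx, rfl⟩
  have h5 : ∀ j, (∀ x, x ∈ F → j ≠ (e x).succ) → f j = c := by
    intro j hj
    change the (fun x => x ∈ F ∧ j = (e x).succ) c = c
    unfold the
    rw [dif_neg]
    rintro ⟨x, h6, _⟩
    exact hj x h6.1 h6.2
  have hxc : ∀ x, x ∈ F → x ≠ c := by
    rintro x hx rfl
    exact hc hx
  have h6 : ∀ j, f j ≠ c → ∃ x, x ∈ F ∧ j = (e x).succ := by
    intro j hj
    by_contra h
    push Not at h
    exact hj (h5 j h)
  refine ⟨n, ⟨f, hf⟩, ⟨h5 0 fun x _ h => INat.succ_ne_zero _ h.symm, fun j hj => h5 j ?_,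
    fun j hj hj' => ?_, fun i j hi hij => ?_⟩, fun x hx => ⟨fun h => ⟨_, h4 x h⟩, ?_⟩⟩
  · rintro x hx rfl
    exact absurd (INat.lt_succ_iff.1 hj) (not_le.2 (h1 x hx))
  · rcases INat.eq_zero_or_succ j with rfl | ⟨j, rfl⟩
    · exact absurd hj (lt_irrefl _)
    · obtain ⟨x, hx, rfl⟩ := h3 j (INat.succ_le_iff.1 hj')
      change f (e x).succ ≠ c
      rw [h4 x hx]
      exact hxc x hx
  · change f i ≠ c at hi
    change f i = f j at hij
    obtain ⟨x, hx, rfl⟩ := h6 i hi
    obtain ⟨y, hy, rfl⟩ := h6 j (hij ▸ hi)
    rw [h4 x hx, h4 y hy] at hij
    rw [hij]
  · rintro ⟨j, hj⟩
    change f j = x at hj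
    obtain ⟨y, hy, rfl⟩ := h6 j (by rw [hj]; exact hx)
    rw [h4 y hy] at hj
    rw [← hj]
    exact hy

/-! ### Swapping two terms -/

/-- Swapping two terms of a sequence. -/
noncomputable def sws (s : IFun M (INat M) α) (i j : INat M) : IFun M (INat M) α :=
  lam M (fun n => s ((tsp M i j).1 n))

theorem int_sws : IntF M (fun q : (IFun M (INat M) α × INat M) × INat M =>
    sws q.1.1 q.1.2 q.2) := by
  have h := int_tsp (M := M) (α := INat M)
  unfold sws
  (repeat' (first | with_reducible exact IntF.id | with_reducible exact IntF.fst' | with_reducible exact IntF.snd' | with_reducible exact IntF.const _ | with_reducible exact Int.const _ | assumption | with_reducible apply Int.and | with_reducible apply Int.or | with_reducible apply Int.not | with_reducible apply Int.imp | with_reducible apply Int.iff | with_reducible apply Int.ne | with_reducible apply Int.eq | with_reducible apply Int.mem | with_reducible apply Int.subset | with_reducible apply Int.ltN | with_reducible apply Int.leN | with_reducible apply Int.fin | with_reducible apply Int.unique | with_reducible apply Int.all | with_reducible apply Int.ex | with_reducible apply IntF.fst | with_reducible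 apply IntF.snd | with_reducible apply IntF.app | with_reducible apply IntF.ite | with_reducible apply IntF.sep | with_reducible apply IntF.lam | with_reducible apply IntF.insert | with_reducible apply IntF.singleton | with_reducible apply IntF.union | with_reducible apply IntF.inter | with_reducible apply IntF.sdiff | with_reducible apply IntF.isUnion | with_reducible apply IntF.iimage | with_reducible apply IntF.the | with_reducible apply IntF.irec | with_reducible_and_instances apply IntF.add | with_reducible_and_instances apply IntF.mul | with_reducible apply IntF.succ | with_reducible apply IntF.val | (with_reducible refine Int.comp ?_ ?_; assumption) | (with_reducible refine Int.comp₂ ?_ ?_ ?_; assumption) | (with_reducible refine Int.comp₃ ?_ ?_ ?_ ?_; assumption) | (with_reducible refine IntF.comp ?_ ?_; assumption) | (with_reducible refine IntF.comp₂ ?_ ?_ ?_; assumption) | (with_reducible refine IntF.comp₃ ?_ ?_ ?_ ?_; assumption) | with_reducible apply IntF.pair))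

theorem sws_apply (s : IFun M (INat M) α) (i j n : INat M) :
    sws s i j n = s ((tsp M i j).1 n) := by
  unfold sws
  rw [lam_apply (by (repeat' (first | with_reducible exact IntF.id | with_reducible exact IntF.fst' | with_reducible exact IntF.snd' | with_reducible exact IntF.const _ | with_reducible exact Int.const _ | assumption | with_reducible apply Int.and | with_reducible apply Int.or | with_reducible apply Int.not | with_reducible apply Int.imp | with_reducible apply Int.iff | with_reducible apply Int.ne | with_reducible apply Int.eq | with_reducible apply Int.mem | with_reducible apply Int.subset | with_reducible apply Int.ltN | with_reducible apply Int.leN | with_reducible apply Int.fin | with_reducible apply Int.unique | with_reducible apply Int.all | with_reducible apply Int.ex | with_reducible apply IntF.fst | with_reducible apply IntF.snd | with_reducible apply IntF.app | with_reducible apply IntF.ite | with_reducible apply IntF.sep | with_reducible apply IntF.lam | with_reducible apply IntF.insert | with_reducible apply IntF.singleton | with_reducible apply IntF.union | with_reducible apply IntF.inter | with_reducible apply IntF.sdiff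 | with_reducible apply IntF.isUnion | with_reducible apply IntF.iimage | with_reducible apply IntF.the | with_reducible apply IntF.irec | with_reducible_and_instances apply IntF.add | with_reducible_and_instances apply IntF.mul | with_reducible apply IntF.succ | with_reducible apply IntF.val | (with_reducible refine Int.comp ?_ ?_; assumption) | (with_reducible refine Int.comp₂ ?_ ?_ ?_; assumption) | (with_reducible refine Int.comp₃ ?_ ?_ ?_ ?_; assumption) | (with_reducible refine IntF.comp ?_ ?_; assumption) | (with_reducible refine IntF.comp₂ ?_ ?_ ?_; assumption) | (with_reducible refine IntF.comp₃ ?_ ?_ ?_ ?_; assumption) | with_reducible apply IntF.pair)))]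

theorem tsp_tsp (i j n : INat M) : (tsp M i j).1 ((tsp M i j).1 n) = n := by
  obtain ⟨h1, h2, h3⟩ := tsp_spec (M := M) i j
  by_cases hi : n = i
  · rw [hi, h1, h2]
  · by_cases hj : n = j
    · rw [hj, h2, h1]
    · rw [h3 n hi hj, h3 n hi hj]

theorem sws_inj {i j : INat M} (h : sws s i j = sws s' i j) : s = s' := by
  refine IFun.ext' fun n => ?_
  have h1 : sws s i j ((tsp M i j).1 n) = sws s' i j ((tsp M i j).1 n) := by rw [h]
  rwa [sws_apply, sws_apply, tsp_tsp] at h1

theorem En.sws (h : En c k s) {i j : INat M} (hi : 0 < i) (hi' : i ≤ k) (hj : 0 < j)
    (hj' : j ≤ k) : En c k (sws s i j) := by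
  obtain ⟨h1, h2, h3⟩ := tsp_spec (M := M) i j
  have hn : ∀ n, 0 < n → n ≤ k → 0 < (tsp M i j).1 n ∧ (tsp M i j).1 n ≤ k := by
    intro n hn hn'
    by_cases h4 : n = i
    · rw [h4, h1]
      exact ⟨hj, hj'⟩
    · by_cases h5 : n = j
      · rw [h5, h2]
        exact ⟨hi, hi'⟩
      · rw [h3 n h4 h5]
        exact ⟨hn, hn'⟩
  refine ⟨?_, fun n hn => ?_, fun n h4 h5 => ?_, fun n n' h4 h5 => ?_⟩
  · rw [sws_apply, h3 0 hi.ne hj.ne, h.1]
  · rw [sws_apply, h3 n (hi'.trans_lt hn).ne' (hj'.trans_lt hn).ne', h.2.1 n hn]
  · rw [sws_apply]
    exact h.2.2.1 _ (hn n h4 h5).1 (hn n h4 h5).2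
  · rw [sws_apply] at h4 h5
    rw [sws_apply] at h5
    rw [← tsp_tsp i j n, h.2.2.2 _ _ h4 h5, tsp_tsp]

theorem sws_range {i j : INat M} {x : α} : (∃ n, sws s i j n = x) ↔ ∃ n, s n = x := by
  constructor
  · rintro ⟨n, rfl⟩
    exact ⟨_, (sws_apply s i j n).symm⟩
  · rintro ⟨n, rfl⟩
    exact ⟨(tsp M i j).1 n, by rw [sws_apply, tsp_tsp]⟩

end Pool.Agent.H310
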