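import Pool.Agent.H310R3.Gen

/-!
# Enumerations
-/

set_option maxHeartbeats 400000
set_option linter.all false

namespace Pool.Agent.H310

open FirstOrder FirstOrder.Language
open Pool.Agent.Helper672.ZFA

universe u u₁

variable {M : Type u} [L.Structure M] [hM : IsModel M]
variable {α : Type u₁} [ITy M α]

/-- Enumeration of an infinite linear order with finite initial segments. -/
theorem exists_enum' {p : α → Prop} (hp : Int M p) {lt : α → α → Prop}
    (hlt : Int M (fun q : α × α => lt q.1 q.2)) (irr : ∀ a, ¬ lt a a)
    (tr : ∀ a b c, lt a b → lt b c → lt a c)
    (tri : ∀ a b, p a → p b → lt a b ∨ a = b ∨ lt b a)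
    (hfin : ∀ a, p a → FinP M (fun b => p b ∧ lt b a)) (hinf : ¬ FinP M p) :
    ∃ g : INat M → α, IntF M g ∧ (∀ n, p (g n)) ∧ (∀ m n, m < n → lt (g m) (g n)) ∧
      (∀ a, p a → ∃ n, g n = a) ∧ (∀ a, p a → ¬ lt a (g 0)) ∧
      ∀ n a, p a → lt (g n) a → ¬ lt a (g n.succ) := by
  classical
  have hne : ∃ a, p a := by
    by_contra h
    exact hinf ⟨∅, IFin.empty, fun a ha => absurd ⟨a, ha⟩ h⟩
  have key : ∀ a, p a → ∃! b, p b ∧ lt a b ∧ ∀ c, p c → lt a c → ¬ lt c b := by
    intro a ha
    have h1 : ∃ w, p w ∧ lt a w := by
      by_contra h
      push Not at h
      refine hinf (((hfin a ha).or (FinP.eq a)).mono fun b hb => ?_)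
      rcases tri a b ha hb with h1 | h1 | h1
      · exact absurd h1 (h b hb)
      · exact Or.inr h1.symm
      · exact Or.inl ⟨hb, h1⟩
    obtain ⟨w, hw, haw⟩ := h1
    obtain ⟨b, h1, h2⟩ := FinP.exists_min (p := fun b => p b ∧ lt a b ∧ (lt b w ∨ b = w))
      (by (repeat' (first | with_reducible exact IntF.id | with_reducible exact IntF.fst' | with_reducible exact IntF.snd' | with_reducible exact IntF.const _ | with_reducible exact Int.const _ | assumption | with_reducible apply Int.and | with_reducible apply Int.or | with_reducible apply Int.not | with_reducible apply Int.imp | with_reducible apply Int.iff | with_reducible apply Int.ne | with_reducible apply Int.eq | with_reducible apply Int.mem | with_reducible apply Int.subset | with_reducible apply Int.ltN | with_reducible apply Int.leN | with_reducible apply Int.fin | with_reducible apply Int.unique | with_reducible apply Int.all | with_reducible apply Int.ex | with_reducible apply IntF.fst | with_reducible apply IntF.snd | with_reducible apply IntF.app | with_reducible apply IntF.ite | with_reducible apply IntF.sep | with_reducible apply IntF.lam | with_reducible apply IntF.insert | with_reducible apply IntF.singleton | with_reducible apply IntF.union |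 with_reducible apply IntF.inter | with_reducible apply IntF.sdiff | with_reducible apply IntF.isUnion | with_reducible apply IntF.iimage | with_reducible apply IntF.the | with_reducible apply IntF.irec | with_reducible_and_instances apply IntF.add | with_reducible_and_instances apply IntF.mul | with_reducible apply IntF.succ | with_reducible apply IntF.val | (with_reducible refine Int.comp ?_ ?_; assumption) | (with_reducible refine Int.comp₂ ?_ ?_ ?_; assumption) | (with_reducible refine Int.comp₃ ?_ ?_ ?_ ?_; assumption) | (with_reducible refine IntF.comp ?_ ?_; assumption) | (with_reducible refine IntF.comp₂ ?_ ?_ ?_; assumption) | (with_reducible refine IntF.comp₃ ?_ ?_ ?_ ?_; assumption) | with_reducible apply IntF.pair))) (((hfin w hw).or (FinP.eq w)).mono fun b hb => hb.2.2.imp (fun h => ⟨hb.1, h⟩) id)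
      hlt irr tr ⟨w, hw, haw, Or.inr rfl⟩
    have h3 : ∀ c, p c → lt a c → ¬ lt c b := fun c hc hac hcb => by
      refine h2 c ⟨hc, hac, ?_⟩ hcb
      rcases h1.2.2 with h | rfl
      · exact Or.inl (tr _ _ _ hcb h)
      · exact Or.inl hcb
    refine ⟨b, ⟨h1.1, h1.2.1, h3⟩, fun b' hb' => ?_⟩
    rcases tri b' b hb'.1 h1.1 with h | h | h
    · exact absurd h (h3 b' hb'.1 hb'.2.1)
    · exact h
    · exact absurd h (hb'.2.2 b h1.1 h1.2.1)
  obtain ⟨a₀, ha₀, hmin₀⟩ : ∃ a₀, p a₀ ∧ ∀ a, p a → ¬ lt a a₀ := by
    obtain ⟨w, hw⟩ := hne
    obtain ⟨b, h1, h2⟩ := FinP.exists_min (p := fun b => p b ∧ (lt b w ∨ b = w))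
      (by (repeat' (first | with_reducible exact IntF.id | with_reducible exact IntF.fst' | with_reducible exact IntF.snd' | with_reducible exact IntF.const _ | with_reducible exact Int.const _ | assumption | with_reducible apply Int.and | with_reducible apply Int.or | with_reducible apply Int.not | with_reducible apply Int.imp | with_reducible apply Int.iff | with_reducible apply Int.ne | with_reducible apply Int.eq | with_reducible apply Int.mem | with_reducible apply Int.subset | with_reducible apply Int.ltN | with_reducible apply Int.leN | with_reducible apply Int.fin | with_reducible apply Int.unique | with_reducible apply Int.all | with_reducible apply Int.ex | with_reducible apply IntF.fst | with_reducible apply IntF.snd | with_reducible apply IntF.app | with_reducible apply IntF.ite | with_reducible apply IntF.sep | with_reducible apply IntF.lam | with_reducible apply IntF.insert | with_reducible apply IntF.singleton | with_reducible apply IntF.union | with_reducible apply IntF.inter | with_reducible apply IntF.sdiff | with_reducible apply IntF.isUnion | with_reducible apply IntF.iimage | with_reducible apply IntF.the | with_reducible apply IntF.irec | with_reducible_and_instances apply IntF.add | with_reducible_and_instances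 apply IntF.mul | with_reducible apply IntF.succ | with_reducible apply IntF.val | (with_reducible refine Int.comp ?_ ?_; assumption) | (with_reducible refine Int.comp₂ ?_ ?_ ?_; assumption) | (with_reducible refine Int.comp₃ ?_ ?_ ?_ ?_; assumption) | (with_reducible refine IntF.comp ?_ ?_; assumption) | (with_reducible refine IntF.comp₂ ?_ ?_ ?_; assumption) | (with_reducible refine IntF.comp₃ ?_ ?_ ?_ ?_; assumption) | with_reducible apply IntF.pair))) (((hfin w hw).or (FinP.eq w)).mono fun b hb => hb.2.imp (fun h => ⟨hb.1, h⟩) id)
      hlt irr tr ⟨w, hw, Or.inr rfl⟩
    refine ⟨b, h1.1, fun a ha hab => h2 a ⟨ha, ?_⟩ hab⟩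
    rcases h1.2 with h | rfl
    · exact Or.inl (tr _ _ _ hab h)
    · exact Or.inl hab
  have hnx : IntF M (fun a => the (fun b => p b ∧ lt a b ∧ ∀ c, p c → lt a c → ¬ lt c b) a) := by
    (repeat' (first | with_reducible exact IntF.id | with_reducible exact IntF.fst' | with_reducible exact IntF.snd' | with_reducible exact IntF.const _ | with_reducible exact Int.const _ | assumption | with_reducible apply Int.and | with_reducible apply Int.or | with_reducible apply Int.not | with_reducible apply Int.imp | with_reducible apply Int.iff | with_reducible apply Int.ne | with_reducible apply Int.eq | with_reducible apply Int.mem | with_reducible apply Int.subset | with_reducible apply Int.ltN | with_reducible apply Int.leN | with_reducible apply Int.fin | with_reducible apply Int.unique | with_reducible apply Int.all | with_reducible apply Int.ex | with_reducible apply IntF.fst | with_reducible apply IntF.snd | with_reducible apply IntF.app | with_reducible apply IntF.ite | with_reducible apply IntF.sep | with_reducible apply IntF.lam | with_reducible apply IntF.insert | with_reducible apply IntF.singleton | with_reducible apply IntF.union | with_reducible apply IntF.inter | with_reducible apply IntF.sdiff | with_reducible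 apply IntF.isUnion | with_reducible apply IntF.iimage | with_reducible apply IntF.the | with_reducible apply IntF.irec | with_reducible_and_instances apply IntF.add | with_reducible_and_instances apply IntF.mul | with_reducible apply IntF.succ | with_reducible apply IntF.val | (with_reducible refine Int.comp ?_ ?_; assumption) | (with_reducible refine Int.comp₂ ?_ ?_ ?_; assumption) | (with_reducible refine Int.comp₃ ?_ ?_ ?_ ?_; assumption) | (with_reducible refine IntF.comp ?_ ?_; assumption) | (with_reducible refine IntF.comp₂ ?_ ?_ ?_; assumption) | (with_reducible refine IntF.comp₃ ?_ ?_ ?_ ?_; assumption) | with_reducible apply IntF.pair))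
  let nx : α → α := fun a => the (fun b => p b ∧ lt a b ∧ ∀ c, p c → lt a c → ¬ lt c b) a
  have hnx' : IntF M nx := hnx
  have hrec : IntF M (fun q : INat M × α => (fun (_ : INat M) x => nx x) q.1 q.2) := by (repeat' (first | with_reducible exact IntF.id | with_reducible exact IntF.fst' | with_reducible exact IntF.snd' | with_reducible exact IntF.const _ | with_reducible exact Int.const _ | assumption | with_reducible apply Int.and | with_reducible apply Int.or | with_reducible apply Int.not | with_reducible apply Int.imp | with_reducible apply Int.iff | with_reducible apply Int.ne | with_reducible apply Int.eq | with_reducible apply Int.mem | with_reducible apply Int.subset | with_reducible apply Int.ltN | with_reducible apply Int.leN | with_reducible apply Int.fin | with_reducible apply Int.unique | with_reducible apply Int.all | with_reducible apply Int.ex | with_reducible apply IntF.fst | with_reducible apply IntF.snd | with_reducible apply IntF.app | with_reducible apply IntF.ite | with_reducible apply IntF.sep | with_reducible apply IntF.lam | with_reducible apply IntF.insert | with_reducible apply IntF.singleton | with_reducible apply IntF.union | with_reducible apply IntF.inter | with_reducible apply IntF.sdiff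 | with_reducible apply IntF.isUnion | with_reducible apply IntF.iimage | with_reducible apply IntF.the | with_reducible apply IntF.irec | with_reducible_and_instances apply IntF.add | with_reducible_and_instances apply IntF.mul | with_reducible apply IntF.succ | with_reducible apply IntF.val | (with_reducible refine Int.comp ?_ ?_; assumption) | (with_reducible refine Int.comp₂ ?_ ?_ ?_; assumption) | (with_reducible refine Int.comp₃ ?_ ?_ ?_ ?_; assumption) | (with_reducible refine IntF.comp ?_ ?_; assumption) | (with_reducible refine IntF.comp₂ ?_ ?_ ?_; assumption) | (with_reducible refine IntF.comp₃ ?_ ?_ ?_ ?_; assumption) | with_reducible apply IntF.pair))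
  have hg : IntF M (fun n : INat M => irec a₀ (fun _ x => nx x) n) := by (repeat' (first | with_reducible exact IntF.id | with_reducible exact IntF.fst' | with_reducible exact IntF.snd' | with_reducible exact IntF.const _ | with_reducible exact Int.const _ | assumption | with_reducible apply Int.and | with_reducible apply Int.or | with_reducible apply Int.not | with_reducible apply Int.imp | with_reducible apply Int.iff | with_reducible apply Int.ne | with_reducible apply Int.eq | with_reducible apply Int.mem | with_reducible apply Int.subset | with_reducible apply Int.ltN | with_reducible apply Int.leN | with_reducible apply Int.fin | with_reducible apply Int.unique | with_reducible apply Int.all | with_reducible apply Int.ex | with_reducible apply IntF.fst | with_reducible apply IntF.snd | with_reducible apply IntF.app | with_reducible apply IntF.ite | with_reducible apply IntF.sep | with_reducible apply IntF.lam | with_reducible apply IntF.insert | with_reducible apply IntF.singleton | with_reducible apply IntF.union | with_reducible apply IntF.inter | with_reducible apply IntF.sdiff | with_reducible apply IntF.isUnion | with_reducible apply IntF.iimage | with_reducible apply IntF.the | with_reducible apply IntF.irec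 | with_reducible_and_instances apply IntF.add | with_reducible_and_instances apply IntF.mul | with_reducible apply IntF.succ | with_reducible apply IntF.val | (with_reducible refine Int.comp ?_ ?_; assumption) | (with_reducible refine Int.comp₂ ?_ ?_ ?_; assumption) | (with_reducible refine Int.comp₃ ?_ ?_ ?_ ?_; assumption) | (with_reducible refine IntF.comp ?_ ?_; assumption) | (with_reducible refine IntF.comp₂ ?_ ?_ ?_; assumption) | (with_reducible refine IntF.comp₃ ?_ ?_ ?_ ?_; assumption) | with_reducible apply IntF.pair))
  have g0 : irec a₀ (fun _ x => nx x) (0 : INat M) = a₀ := irec_zero hrec
  have gs : ∀ n : INat M, irec a₀ (fun _ x => nx x) n.succ = nx (irec a₀ (fun _ x => nx x) n) :=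
    fun n => irec_succ hrec n
  have hpg : ∀ n : INat M, p (irec a₀ (fun _ x => nx x) n) := by
    refine INat.ind (by (repeat' (first | with_reducible exact IntF.id | with_reducible exact IntF.fst' | with_reducible exact IntF.snd' | with_reducible exact IntF.const _ | with_reducible exact Int.const _ | assumption | with_reducible apply Int.and | with_reducible apply Int.or | with_reducible apply Int.not | with_reducible apply Int.imp | with_reducible apply Int.iff | with_reducible apply Int.ne | with_reducible apply Int.eq | with_reducible apply Int.mem | with_reducible apply Int.subset | with_reducible apply Int.ltN | with_reducible apply Int.leN | with_reducible apply Int.fin | with_reducible apply Int.unique | with_reducible apply Int.all | with_reducible apply Int.ex | with_reducible apply IntF.fst | with_reducible apply IntF.snd | with_reducible apply IntF.app | with_reducible apply IntF.ite | with_reducible apply IntF.sep | with_reducible apply IntF.lam | with_reducible apply IntF.insert | with_reducible apply IntF.singleton | with_reducible apply IntF.union | with_reducible apply IntF.inter | with_reducible apply IntF.sdiff | with_reducible apply IntF.isUnion | with_reducible apply IntF.iimage | with_reducible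 apply IntF.the | with_reducible apply IntF.irec | with_reducible_and_instances apply IntF.add | with_reducible_and_instances apply IntF.mul | with_reducible apply IntF.succ | with_reducible apply IntF.val | (with_reducible refine Int.comp ?_ ?_; assumption) | (with_reducible refine Int.comp₂ ?_ ?_ ?_; assumption) | (with_reducible refine Int.comp₃ ?_ ?_ ?_ ?_; assumption) | (with_reducible refine IntF.comp ?_ ?_; assumption) | (with_reducible refine IntF.comp₂ ?_ ?_ ?_; assumption) | (with_reducible refine IntF.comp₃ ?_ ?_ ?_ ?_; assumption) | with_reducible apply IntF.pair))) ?_ ?_
    · rw [g0]
      exact ha₀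
    · intro n ih
      rw [gs]
      exact (the_spec (key _ ih)).1
  have hmono : ∀ m n : INat M, m < n → lt (irec a₀ (fun _ x => nx x) m)
      (irec a₀ (fun _ x => nx x) n) := by
    intro m n
    refine INat.ind (p := fun n => m < n → lt (irec a₀ (fun _ x => nx x) m)
      (irec a₀ (fun _ x => nx x) n)) (by (repeat' (first | with_reducible exact IntF.id | with_reducible exact IntF.fst' | with_reducible exact IntF.snd' | with_reducible exact IntF.const _ | with_reducible exact Int.const _ | assumption | with_reducible apply Int.and | with_reducible apply Int.or | with_reducible apply Int.not | with_reducible apply Int.imp | with_reducible apply Int.iff | with_reducible apply Int.ne | with_reducible apply Int.eq | with_reducible apply Int.mem | with_reducible apply Int.subset | with_reducible apply Int.ltN | with_reducible apply Int.leN | with_reducible apply Int.fin | with_reducible apply Int.unique | with_reducible apply Int.all | with_reducible apply Int.ex | with_reducible apply IntF.fst | with_reducible apply IntF.snd | with_reducible apply IntF.app | with_reducible apply IntF.ite | with_reducible apply IntF.sep | with_reducible apply IntF.lam | with_reducible apply IntF.insert | with_reducible apply IntF.singleton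 | with_reducible apply IntF.union | with_reducible apply IntF.inter | with_reducible apply IntF.sdiff | with_reducible apply IntF.isUnion | with_reducible apply IntF.iimage | with_reducible apply IntF.the | with_reducible apply IntF.irec | with_reducible_and_instances apply IntF.add | with_reducible_and_instances apply IntF.mul | with_reducible apply IntF.succ | with_reducible apply IntF.val | (with_reducible refine Int.comp ?_ ?_; assumption) | (with_reducible refine Int.comp₂ ?_ ?_ ?_; assumption) | (with_reducible refine Int.comp₃ ?_ ?_ ?_ ?_; assumption) | (with_reducible refine IntF.comp ?_ ?_; assumption) | (with_reducible refine IntF.comp₂ ?_ ?_ ?_; assumption) | (with_reducible refine IntF.comp₃ ?_ ?_ ?_ ?_; assumption) | with_reducible apply IntF.pair))) ?_ ?_ n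
    · intro h
      exact absurd h INat.not_lt_zero
    · intro n ih h
      have h1 : lt (irec a₀ (fun _ x => nx x) n) (irec a₀ (fun _ x => nx x) n.succ) := by
        rw [gs]
        exact (the_spec (key _ (hpg n))).2.1
      rcases (INat.lt_succ_iff.1 h).lt_or_eq with h2 | rfl
      · exact tr _ _ _ (ih h2) h1
      · exact h1
  have hmin : ∀ (n : INat M) a, p a → lt (irec a₀ (fun _ x => nx x) n) a →
      ¬ lt a (irec a₀ (fun _ x => nx x) n.succ) := by
    intro n a ha h1
    rw [gs]
    exact (the_spec (key _ (hpg n))).2.2 a ha h1
  refine ⟨fun n => irec a₀ (fun _ x => nx x) n, hg, hpg, hmono, fun a ha => ?_, fun a ha => ?_,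
    hmin⟩
  · by_contra hc
    push Not at hc
    have h1 : ∀ n : INat M, lt (irec a₀ (fun _ x => nx x) n) a := by
      refine INat.ind (by (repeat' (first | with_reducible exact IntF.id | with_reducible exact IntF.fst' | with_reducible exact IntF.snd' | with_reducible exact IntF.const _ | with_reducible exact Int.const _ | assumption | with_reducible apply Int.and | with_reducible apply Int.or | with_reducible apply Int.not | with_reducible apply Int.imp | with_reducible apply Int.iff | with_reducible apply Int.ne | with_reducible apply Int.eq | with_reducible apply Int.mem | with_reducible apply Int.subset | with_reducible apply Int.ltN | with_reducible apply Int.leN | with_reducible apply Int.fin | with_reducible apply Int.unique | with_reducible apply Int.all | with_reducible apply Int.ex | with_reducible apply IntF.fst | with_reducible apply IntF.snd | with_reducible apply IntF.app | with_reducible apply IntF.ite | with_reducible apply IntF.sep | with_reducible apply IntF.lam | with_reducible apply IntF.insert | with_reducible apply IntF.singleton | with_reducible apply IntF.union | with_reducible apply IntF.inter | with_reducible apply IntF.sdiff | with_reducible apply IntF.isUnion | with_reducible apply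 IntF.iimage | with_reducible apply IntF.the | with_reducible apply IntF.irec | with_reducible_and_instances apply IntF.add | with_reducible_and_instances apply IntF.mul | with_reducible apply IntF.succ | with_reducible apply IntF.val | (with_reducible refine Int.comp ?_ ?_; assumption) | (with_reducible refine Int.comp₂ ?_ ?_ ?_; assumption) | (with_reducible refine Int.comp₃ ?_ ?_ ?_ ?_; assumption) | (with_reducible refine IntF.comp ?_ ?_; assumption) | (with_reducible refine IntF.comp₂ ?_ ?_ ?_; assumption) | (with_reducible refine IntF.comp₃ ?_ ?_ ?_ ?_; assumption) | with_reducible apply IntF.pair))) ?_ ?_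
      · rcases tri _ _ (hpg 0) ha with h | h | h
        · exact h
        · exact absurd h (hc 0)
        · rw [g0] at h
          exact absurd h (hmin₀ a ha)
      · intro n ih
        rcases tri _ _ (hpg n.succ) ha with h | h | h
        · exact h
        · exact absurd h (hc _)
        · exact absurd h (hmin n a ha ih)
    refine not_finP_nat (M := M) (FinP.of_inj (p := fun _ : INat M => True) (by (repeat' (first | with_reducible exact IntF.id | with_reducible exact IntF.fst' | with_reducible exact IntF.snd' | with_reducible exact IntF.const _ | with_reducible exact Int.const _ | assumption | with_reducible apply Int.and | with_reducible apply Int.or | with_reducible apply Int.not | with_reducible apply Int.imp | with_reducible apply Int.iff | with_reducible apply Int.ne | with_reducible apply Int.eq | with_reducible apply Int.mem | with_reducible apply Int.subset | with_reducible apply Int.ltN | with_reducible apply Int.leN | with_reducible apply Int.fin | with_reducible apply Int.unique | with_reducible apply Int.all | with_reducible apply Int.ex | with_reducible apply IntF.fst | with_reducible apply IntF.snd | with_reducible apply IntF.app | with_reducible apply IntF.ite | with_reducible apply IntF.sep |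 with_reducible apply IntF.lam | with_reducible apply IntF.insert | with_reducible apply IntF.singleton | with_reducible apply IntF.union | with_reducible apply IntF.inter | with_reducible apply IntF.sdiff | with_reducible apply IntF.isUnion | with_reducible apply IntF.iimage | with_reducible apply IntF.the | with_reducible apply IntF.irec | with_reducible_and_instances apply IntF.add | with_reducible_and_instances apply IntF.mul | with_reducible apply IntF.succ | with_reducible apply IntF.val | (with_reducible refine Int.comp ?_ ?_; assumption) | (with_reducible refine Int.comp₂ ?_ ?_ ?_; assumption) | (with_reducible refine Int.comp₃ ?_ ?_ ?_ ?_; assumption) | (with_reducible refine IntF.comp ?_ ?_; assumption) | (with_reducible refine IntF.comp₂ ?_ ?_ ?_; assumption) | (with_reducible refine IntF.comp₃ ?_ ?_ ?_ ?_; assumption) | with_reducible apply IntF.pair)))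
      (f := fun n => irec a₀ (fun _ x => nx x) n) hg (fun m n _ _ hmn => ?_) (hfin a ha)
      fun n _ => ⟨hpg n, h1 n⟩)
    rcases lt_trichotomy m n with h | h | h
    · have := hmono _ _ h
      rw [hmn] at this
      exact absurd this (irr _)
    · exact h
    · have := hmono _ _ h
      rw [hmn] at this
      exact absurd this (irr _)
  · change ¬ lt a (irec a₀ (fun _ x => nx x) 0)
    rw [g0]
    exact hmin₀ a ha

end Pool.Agent.H310
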