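import Pool.Agent.H310R3.F3
import Pool.Agent.H310R3.E0
import Pool.Agent.H310R3.Real

/-!
# Special permutations of a set with blocks of three elements
-/

set_option maxHeartbeats 1000000
set_option linter.all false
set_option synthInstance.maxSize 2000

namespace Pool.Agent.H310

open FirstOrder FirstOrder.Language
open Pool.Agent.Helper672.ZFA
open Pool.Agent.Helper672.ZFA.H635 (IPerm)

universe u

variable {M : Type u} [L.Structure M] [hM : IsModel M]

variable (M) in
/-- The set with blocks of three elements. -/
abbrev XX : Type u := INat M × Fin 3

variable (M) in
/-- The permutations. -/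
abbrev PX : Type u := IPerm M (XX M)

/-- The permutation fixes the blocks from `n` on. -/
def Bd (n : INat M) (π : PX M) : Prop := ∀ x : XX M, n ≤ x.1 → π.1.1 x = x

theorem int_Bd : Int M (fun q : INat M × PX M => Bd q.1 q.2) := by
  unfold Bd
  (repeat' (first | with_reducible exact IntF.id | with_reducible exact IntF.fst' | with_reducible exact IntF.snd' | with_reducible exact IntF.const _ | with_reducible exact Int.const _ | assumption | with_reducible apply Int.and | with_reducible apply Int.or | with_reducible apply Int.not | with_reducible apply Int.imp | with_reducible apply Int.iff | with_reducible apply Int.ne | with_reducible apply Int.eq | with_reducible apply Int.mem | with_reducible apply Int.subset | with_reducible apply Int.ltN | with_reducible apply Int.leN | with_reducible_and_instances apply Int.le | with_reducible_and_instances apply Int.lt | with_reducible apply Int.all | with_reducible apply Int.ex | with_reducible apply IntF.fst | with_reducible apply IntF.snd | with_reducible apply IntF.app | with_reducible apply IntF.inl | with_reducible apply IntF.inr | with_reducible_and_instances apply IntF.mul | with_reducible_and_instances apply IntF.inv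 | with_reducible_and_instances apply IntF.add | with_reducible_and_instances apply IntF.sub | with_reducible_and_instances apply IntF.neg | with_reducible_and_instances apply IntF.smul | with_reducible apply Int.fin | with_reducible apply IntF.sep | with_reducible apply IntF.lam | with_reducible apply IntF.insert | with_reducible apply IntF.singleton | with_reducible apply IntF.union | with_reducible apply IntF.iimage | with_reducible apply IntF.ite | with_reducible apply IntF.the | with_reducible apply IntF.irec | with_reducible apply IntF.succ | with_reducible apply IntF.val | with_reducible apply IntF.mk | (with_reducible refine Int.comp ?_ ?_; assumption) | (with_reducible refine Int.comp₂ ?_ ?_ ?_; assumption) | (with_reducible refine Int.comp₃ ?_ ?_ ?_ ?_; assumption) | (with_reducible refine Int.comp₄ ?_ ?_ ?_ ?_ ?_; assumption) | (with_reducible refine IntF.comp ?_ ?_; assumption) | (with_reducible refine IntF.comp₂ ?_ ?_ ?_; assumption) | (with_reducible refine IntF.comp₃ ?_ ?_ ?_ ?_; assumption) | with_reducible apply IntF.pair))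

theorem Bd.mono {m n : INat M} {π : PX M} (h : Bd m π) (hmn : m ≤ n) : Bd n π :=
  fun x hx => h x (hmn.trans hx)

theorem PX.l (π : PX M) (x : XX M) : π.1.2 (π.1.1 x) = x := π.2.2 x
theorem PX.r (π : PX M) (x : XX M) : π.1.1 (π.1.2 x) = x := π.2.1 x

theorem PX.inj (π : PX M) {x y : XX M} (h : π.1.1 x = π.1.1 y) : x = y := by
  rw [← PX.l π x, h, PX.l]

theorem PX.conj (G π : PX M) (y : XX M) :
    (G * π * G⁻¹).1.1 y = G.1.1 (π.1.1 (G.1.2 y)) := by
  rw [IPerm.mul_apply, IPerm.mul_apply, IPerm.inv_apply]

/-- Preservation of the blocks. -/
def BP (G : PX M) : Prop := ∀ x y : XX M, x.1 = y.1 ↔ (G.1.1 x).1 = (G.1.1 y).1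

theorem int_BP : Int M (BP (M := M)) := by
  unfold BP
  (repeat' (first | with_reducible exact IntF.id | with_reducible exact IntF.fst' | with_reducible exact IntF.snd' | with_reducible exact IntF.const _ | with_reducible exact Int.const _ | assumption | with_reducible apply Int.and | with_reducible apply Int.or | with_reducible apply Int.not | with_reducible apply Int.imp | with_reducible apply Int.iff | with_reducible apply Int.ne | with_reducible apply Int.eq | with_reducible apply Int.mem | with_reducible apply Int.subset | with_reducible apply Int.ltN | with_reducible apply Int.leN | with_reducible_and_instances apply Int.le | with_reducible_and_instances apply Int.lt | with_reducible apply Int.all | with_reducible apply Int.ex | with_reducible apply IntF.fst | with_reducible apply IntF.snd | with_reducible apply IntF.app | with_reducible apply IntF.inl | with_reducible apply IntF.inr | with_reducible_and_instances apply IntF.mul | with_reducible_and_instances apply IntF.inv | with_reducible_and_instances apply IntF.add | with_reducible_and_instances apply IntF.sub | with_reducible_and_instances apply IntF.neg | with_reducible_and_instances apply IntF.smul |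 with_reducible apply Int.fin | with_reducible apply IntF.sep | with_reducible apply IntF.lam | with_reducible apply IntF.insert | with_reducible apply IntF.singleton | with_reducible apply IntF.union | with_reducible apply IntF.iimage | with_reducible apply IntF.ite | with_reducible apply IntF.the | with_reducible apply IntF.irec | with_reducible apply IntF.succ | with_reducible apply IntF.val | with_reducible apply IntF.mk | (with_reducible refine Int.comp ?_ ?_; assumption) | (with_reducible refine Int.comp₂ ?_ ?_ ?_; assumption) | (with_reducible refine Int.comp₃ ?_ ?_ ?_ ?_; assumption) | (with_reducible refine Int.comp₄ ?_ ?_ ?_ ?_ ?_; assumption) | (with_reducible refine IntF.comp ?_ ?_; assumption) | (with_reducible refine IntF.comp₂ ?_ ?_ ?_; assumption) | (with_reducible refine IntF.comp₃ ?_ ?_ ?_ ?_; assumption) | with_reducible apply IntF.pair))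

theorem BP.inv {G : PX M} (h : BP G) : BP G⁻¹ := by
  intro x y
  have := h (G.1.2 x) (G.1.2 y)
  rw [PX.r, PX.r] at this
  exact this.symm

theorem BP.one : BP (1 : PX M) := by
  intro x y
  rw [IPerm.one_apply, IPerm.one_apply]

theorem BP.th {G : PX M} (h : BP G) {x p : XX M} (hxp : x.1 = p.1) :
    G.1.1 (p.1, th x.2 p.2) = ((G.1.1 p).1, th (G.1.1 x).2 (G.1.1 p).2) := by
  have h1 : ∀ i, (G.1.1 (p.1, i)).1 = (G.1.1 p).1 := fun i => (h (p.1, i) p).1 rfl
  have h2 : ∀ i j, (G.1.1 (p.1, i)).2 = (G.1.1 (p.1, j)).2 → i = j := by
    intro i j hij
    have h3 : G.1.1 (p.1, i) = G.1.1 (p.1, j) := Prod.ext ((h1 i).trans (h1 j).symm) hij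
    exact congrArg Prod.snd (PX.inj G h3)
  have h3 := th_map (fun i => (G.1.1 (p.1, i)).2) h2 x.2 p.2
  have h4 : (p.1, x.2) = x := Prod.ext hxp.symm rfl
  refine Prod.ext (h1 _) ?_
  rw [h4] at h3
  exact h3

open Classical in
/-- The special permutations of the first kind. -/
noncomputable def pi2 (w a p : XX M) : XX M :=
  if p = a then w else if p = w then a else if p.1 = w.1 then (p.1, th w.2 p.2) else p

open Classical in
/-- The special permutations of the second kind. -/
noncomputable def pi3 (x y z p : XX M) : XX M :=
  if p.1 = x.1 then (p.1, th x.2 p.2) else if p.1 = y.1 then (p.1, th y.2 p.2) else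
    if p.1 = z.1 then (p.1, th z.2 p.2) else p

theorem IntF.pi2 {γ : Type*} [ITy M γ] {w a p : γ → XX M} (hw : IntF M w) (ha : IntF M a)
    (hp : IntF M p) : IntF M (fun c => H310.pi2 (w c) (a c) (p c)) := by
  unfold H310.pi2
  (repeat' (first | with_reducible apply IntF.th | with_reducible exact IntF.id | with_reducible exact IntF.fst' | with_reducible exact IntF.snd' | with_reducible exact IntF.const _ | with_reducible exact Int.const _ | assumption | with_reducible apply Int.and | with_reducible apply Int.or | with_reducible apply Int.not | with_reducible apply Int.imp | with_reducible apply Int.iff | with_reducible apply Int.ne | with_reducible apply Int.eq | with_reducible apply Int.mem | with_reducible apply Int.subset | with_reducible apply Int.ltN | with_reducible apply Int.leN | with_reducible_and_instances apply Int.le | with_reducible_and_instances apply Int.lt | with_reducible apply Int.all | with_reducible apply Int.ex | with_reducible apply IntF.fst | with_reducible apply IntF.snd | with_reducible apply IntF.app | with_reducible apply IntF.inl | with_reducible apply IntF.inr | with_reducible_and_instances apply IntF.mul | with_reducible_and_instances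 apply IntF.inv | with_reducible_and_instances apply IntF.add | with_reducible_and_instances apply IntF.sub | with_reducible_and_instances apply IntF.neg | with_reducible_and_instances apply IntF.smul | with_reducible apply Int.fin | with_reducible apply IntF.sep | with_reducible apply IntF.lam | with_reducible apply IntF.insert | with_reducible apply IntF.singleton | with_reducible apply IntF.union | with_reducible apply IntF.iimage | with_reducible apply IntF.ite | with_reducible apply IntF.the | with_reducible apply IntF.irec | with_reducible apply IntF.succ | with_reducible apply IntF.val | with_reducible apply IntF.mk | (with_reducible refine Int.comp ?_ ?_; assumption) | (with_reducible refine Int.comp₂ ?_ ?_ ?_; assumption) | (with_reducible refine Int.comp₃ ?_ ?_ ?_ ?_; assumption) | (with_reducible refine Int.comp₄ ?_ ?_ ?_ ?_ ?_; assumption) | (with_reducible refine IntF.comp ?_ ?_; assumption) | (with_reducible refine IntF.comp₂ ?_ ?_ ?_; assumption) | (with_reducible refine IntF.comp₃ ?_ ?_ ?_ ?_; assumption) | with_reducible apply IntF.pair))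

theorem IntF.pi3 {γ : Type*} [ITy M γ] {x y z p : γ → XX M} (hx : IntF M x) (hy : IntF M y)
    (hz : IntF M z) (hp : IntF M p) : IntF M (fun c => H310.pi3 (x c) (y c) (z c) (p c)) := by
  unfold H310.pi3
  (repeat' (first | with_reducible apply IntF.th | with_reducible exact IntF.id | with_reducible exact IntF.fst' | with_reducible exact IntF.snd' | with_reducible exact IntF.const _ | with_reducible exact Int.const _ | assumption | with_reducible apply Int.and | with_reducible apply Int.or | with_reducible apply Int.not | with_reducible apply Int.imp | with_reducible apply Int.iff | with_reducible apply Int.ne | with_reducible apply Int.eq | with_reducible apply Int.mem | with_reducible apply Int.subset | with_reducible apply Int.ltN | with_reducible apply Int.leN | with_reducible_and_instances apply Int.le | with_reducible_and_instances apply Int.lt | with_reducible apply Int.all | with_reducible apply Int.ex | with_reducible apply IntF.fst | with_reducible apply IntF.snd | with_reducible apply IntF.app | with_reducible apply IntF.inl | with_reducible apply IntF.inr | with_reducible_and_instances apply IntF.mul | with_reducible_and_instances apply IntF.inv | with_reducible_and_instances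 apply IntF.add | with_reducible_and_instances apply IntF.sub | with_reducible_and_instances apply IntF.neg | with_reducible_and_instances apply IntF.smul | with_reducible apply Int.fin | with_reducible apply IntF.sep | with_reducible apply IntF.lam | with_reducible apply IntF.insert | with_reducible apply IntF.singleton | with_reducible apply IntF.union | with_reducible apply IntF.iimage | with_reducible apply IntF.ite | with_reducible apply IntF.the | with_reducible apply IntF.irec | with_reducible apply IntF.succ | with_reducible apply IntF.val | with_reducible apply IntF.mk | (with_reducible refine Int.comp ?_ ?_; assumption) | (with_reducible refine Int.comp₂ ?_ ?_ ?_; assumption) | (with_reducible refine Int.comp₃ ?_ ?_ ?_ ?_; assumption) | (with_reducible refine Int.comp₄ ?_ ?_ ?_ ?_ ?_; assumption) | (with_reducible refine IntF.comp ?_ ?_; assumption) | (with_reducible refine IntF.comp₂ ?_ ?_ ?_; assumption) | (with_reducible refine IntF.comp₃ ?_ ?_ ?_ ?_; assumption) | with_reducible apply IntF.pair))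

section pi2

variable {w a : XX M} (h : w.1 ≠ a.1)

theorem pi2_a : pi2 w a a = w := by
  unfold pi2
  rw [if_pos rfl]

include h in
theorem pi2_w : pi2 w a w = a := by
  have : w ≠ a := fun h1 => h (by rw [h1])
  unfold pi2
  rw [if_neg this, if_pos rfl]

include h in
theorem pi2_block {p : XX M} (h1 : p.1 = w.1) (h2 : p ≠ w) : pi2 w a p = (p.1, th w.2 p.2) := by
  have : p ≠ a := by
    rintro rfl
    exact h h1.symm
  unfold pi2
  rw [if_neg this, if_neg h2, if_pos h1]

theorem pi2_out {p : XX M} (h1 : p.1 ≠ w.1) (h2 : p ≠ a) : pi2 w a p = p := by
  have : p ≠ w := fun h3 => h1 (by rw [h3])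
  unfold pi2
  rw [if_neg h2, if_neg this, if_neg h1]

theorem snd_ne {p w : XX M} (h1 : p.1 = w.1) (h2 : p ≠ w) : w.2 ≠ p.2 :=
  fun h3 => h2 (Prod.ext h1 h3.symm)

include h in
theorem pi2_pi2 (p : XX M) : pi2 w a (pi2 w a p) = p := by
  by_cases h1 : p = a
  · rw [h1, pi2_a, pi2_w h]
  · by_cases h2 : p.1 = w.1
    · by_cases h3 : p = w
      · rw [h3, pi2_w h, pi2_a]
      · have h4 := snd_ne h2 h3
        rw [pi2_block h h2 h3, pi2_block h (p := (p.1, th w.2 p.2)) h2
          (fun h5 => th_ne_left h4 (congrArg Prod.snd h5))]
        exact Prod.ext rfl (th_th _ _)
    · rw [pi2_out h2 h1, pi2_out h2 h1]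

include h in
/-- The points that are not moved. -/
theorem pi2_fix {p : XX M} : pi2 w a p = p ↔ p.1 ≠ w.1 ∧ p ≠ a := by
  constructor
  · intro h1
    refine ⟨fun h2 => ?_, fun h2 => ?_⟩
    · by_cases h3 : p = w
      · rw [h3, pi2_w h] at h1
        exact h (by rw [h1])
      · rw [pi2_block h h2 h3] at h1
        exact th_ne_right (snd_ne h2 h3) (congrArg Prod.snd h1)
    · rw [h2, pi2_a] at h1
      exact h (by rw [h1])
  · rintro ⟨h1, h2⟩
    exact pi2_out h1 h2

end pi2

theorem pi2_map {G : PX M} (hG : BP G) {w a p : XX M} (h : w.1 ≠ a.1) :
    G.1.1 (pi2 w a p) = pi2 (G.1.1 w) (G.1.1 a) (G.1.1 p) := by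
  have h' : (G.1.1 w).1 ≠ (G.1.1 a).1 := fun h1 => h ((hG _ _).2 h1)
  by_cases h1 : p = a
  · rw [h1, pi2_a, pi2_a]
  · by_cases h2 : p.1 = w.1
    · by_cases h3 : p = w
      · rw [h3, pi2_w h, pi2_w h']
      · rw [pi2_block h h2 h3, pi2_block h' ((hG _ _).1 h2) fun h4 => h3 (PX.inj G h4),
          hG.th h2.symm]
    · rw [pi2_out h2 h1, pi2_out (fun h3 => h2 ((hG _ _).2 h3)) fun h3 => h1 (PX.inj G h3)]

/-- The graph of the special permutations of the first kind. -/
def R2 (t : IPow M (XX M)) (π : PX M) : Prop :=
  ∃ w a : XX M, w.1 ≠ a.1 ∧ (∀ p, p ∈ t ↔ (p.1 = w.1 ∧ p ≠ w) ∨ p = a) ∧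
    ∀ p, π.1.1 p = pi2 w a p

/-- The graph of the special permutations of the second kind. -/
def R3 (t : IPow M (XX M)) (π : PX M) : Prop :=
  ∃ x y z : XX M, x.1 ≠ y.1 ∧ x.1 ≠ z.1 ∧ y.1 ≠ z.1 ∧ (∀ p, p ∈ t ↔ p = x ∨ p = y ∨ p = z) ∧
    ∀ p, π.1.1 p = pi3 x y z p

theorem int_R2 : Int M (fun q : IPow M (XX M) × PX M => R2 q.1 q.2) := by
  unfold R2
  (repeat' (first | with_reducible apply IntF.pi2 | with_reducible exact IntF.id | with_reducible exact IntF.fst' | with_reducible exact IntF.snd' | with_reducible exact IntF.const _ | with_reducible exact Int.const _ | assumption | with_reducible apply Int.and | with_reducible apply Int.or | with_reducible apply Int.not | with_reducible apply Int.imp | with_reducible apply Int.iff | with_reducible apply Int.ne | with_reducible apply Int.eq | with_reducible apply Int.mem | with_reducible apply Int.subset | with_reducible apply Int.ltN | with_reducible apply Int.leN | with_reducible_and_instances apply Int.le | with_reducible_and_instances apply Int.lt | with_reducible apply Int.all | with_reducible apply Int.ex | with_reducible apply IntF.fst | with_reducible apply IntF.snd | with_reducible apply IntF.app | with_reducible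 apply IntF.inl | with_reducible apply IntF.inr | with_reducible_and_instances apply IntF.mul | with_reducible_and_instances apply IntF.inv | with_reducible_and_instances apply IntF.add | with_reducible_and_instances apply IntF.sub | with_reducible_and_instances apply IntF.neg | with_reducible_and_instances apply IntF.smul | with_reducible apply Int.fin | with_reducible apply IntF.sep | with_reducible apply IntF.lam | with_reducible apply IntF.insert | with_reducible apply IntF.singleton | with_reducible apply IntF.union | with_reducible apply IntF.iimage | with_reducible apply IntF.ite | with_reducible apply IntF.the | with_reducible apply IntF.irec | with_reducible apply IntF.succ | with_reducible apply IntF.val | with_reducible apply IntF.mk | (with_reducible refine Int.comp ?_ ?_; assumption) | (with_reducible refine Int.comp₂ ?_ ?_ ?_; assumption) | (with_reducible refine Int.comp₃ ?_ ?_ ?_ ?_; assumption) | (with_reducible refine Int.comp₄ ?_ ?_ ?_ ?_ ?_; assumption) | (with_reducible refine IntF.comp ?_ ?_; assumption) | (with_reducible refine IntF.comp₂ ?_ ?_ ?_; assumption) | (with_reducible refine IntF.comp₃ ?_ ?_ ?_ ?_; assumption) | with_reducible apply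 IntF.pair))

theorem int_R3 : Int M (fun q : IPow M (XX M) × PX M => R3 q.1 q.2) := by
  unfold R3
  (repeat' (first | with_reducible apply IntF.pi3 | with_reducible exact IntF.id | with_reducible exact IntF.fst' | with_reducible exact IntF.snd' | with_reducible exact IntF.const _ | with_reducible exact Int.const _ | assumption | with_reducible apply Int.and | with_reducible apply Int.or | with_reducible apply Int.not | with_reducible apply Int.imp | with_reducible apply Int.iff | with_reducible apply Int.ne | with_reducible apply Int.eq | with_reducible apply Int.mem | with_reducible apply Int.subset | with_reducible apply Int.ltN | with_reducible apply Int.leN | with_reducible_and_instances apply Int.le | with_reducible_and_instances apply Int.lt | with_reducible apply Int.all | with_reducible apply Int.ex | with_reducible apply IntF.fst | with_reducible apply IntF.snd | with_reducible apply IntF.app | with_reducible apply IntF.inl | with_reducible apply IntF.inr | with_reducible_and_instances apply IntF.mul | with_reducible_and_instances apply IntF.inv | with_reducible_and_instances apply IntF.add | with_reducible_and_instances apply IntF.sub | with_reducible_and_instances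 apply IntF.neg | with_reducible_and_instances apply IntF.smul | with_reducible apply Int.fin | with_reducible apply IntF.sep | with_reducible apply IntF.lam | with_reducible apply IntF.insert | with_reducible apply IntF.singleton | with_reducible apply IntF.union | with_reducible apply IntF.iimage | with_reducible apply IntF.ite | with_reducible apply IntF.the | with_reducible apply IntF.irec | with_reducible apply IntF.succ | with_reducible apply IntF.val | with_reducible apply IntF.mk | (with_reducible refine Int.comp ?_ ?_; assumption) | (with_reducible refine Int.comp₂ ?_ ?_ ?_; assumption) | (with_reducible refine Int.comp₃ ?_ ?_ ?_ ?_; assumption) | (with_reducible refine Int.comp₄ ?_ ?_ ?_ ?_ ?_; assumption) | (with_reducible refine IntF.comp ?_ ?_; assumption) | (with_reducible refine IntF.comp₂ ?_ ?_ ?_; assumption) | (with_reducible refine IntF.comp₃ ?_ ?_ ?_ ?_; assumption) | with_reducible apply IntF.pair))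

end Pool.Agent.H310
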