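import Pool.Agent.H310R3.E1

/-!
# The enumeration of the permutations that are not special
-/

set_option maxHeartbeats 1000000
set_option linter.all false
set_option synthInstance.maxSize 2000

namespace Pool.Agent.H310

open FirstOrder FirstOrder.Language
open Pool.Agent.Helper672.ZFA
open Pool.Agent.Helper672.ZFA.H635 (IPerm)

universe u

variable {M : Type u} [L.Structure M] [hM : IsModel M]

theorem pi3_fst (x y z p : XX M) : (pi3 x y z p).1 = p.1 := by
  unfold pi3
  split_ifs <;> rfl

theorem pi3_pi3 (x y z p : XX M) : pi3 x y z (pi3 x y z p) = p := by
  have h1 : ∀ (q : XX M) (i : Fin 3), ((q.1, th i q.2).1, th i (q.1, th i q.2).2) = q :=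
    fun q i => Prod.ext rfl (th_th _ _)
  by_cases hx : p.1 = x.1
  · have e : pi3 x y z p = (p.1, th x.2 p.2) := by
      unfold pi3
      rw [if_pos hx]
    rw [e]
    unfold pi3
    rw [if_pos hx]
    exact h1 p _
  · by_cases hy : p.1 = y.1
    · have e : pi3 x y z p = (p.1, th y.2 p.2) := by
        unfold pi3
        rw [if_neg hx, if_pos hy]
      rw [e]
      unfold pi3
      rw [if_neg hx, if_pos hy]
      exact h1 p _
    · by_cases hz : p.1 = z.1
      · have e : pi3 x y z p = (p.1, th z.2 p.2) := by
          unfold pi3
          rw [if_neg hx, if_neg hy, if_pos hz]
        rw [e]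
        unfold pi3
        rw [if_neg hx, if_neg hy, if_pos hz]
        exact h1 p _
      · have e : pi3 x y z p = p := by
          unfold pi3
          rw [if_neg hx, if_neg hy, if_neg hz]
        rw [e, e]

/-- Membership form. -/
theorem R3.mem {t : IPow M (XX M)} {π : PX M} (h : R3 t π) {x p : XX M} (hx : x ∈ t)
    (hp : p.1 = x.1) : π.1.1 p = (p.1, th x.2 p.2) := by
  obtain ⟨x', y', z', h1, h2, h3, h4, h5⟩ := h
  rw [h5]
  unfold pi3
  rcases (h4 x).1 hx with rfl | rfl | rfl
  · rw [if_pos hp]
  · rw [if_neg (fun h => h1 (h.symm.trans hp)), if_pos hp]
  · rw [if_neg (fun h => h2 (h.symm.trans hp)), if_neg (fun h => h3 (h.symm.trans hp)), if_pos hp]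

theorem R3.not_mem {t : IPow M (XX M)} {π : PX M} (h : R3 t π) {p : XX M}
    (hp : ∀ x, x ∈ t → p.1 ≠ x.1) : π.1.1 p = p := by
  obtain ⟨x', y', z', h1, h2, h3, h4, h5⟩ := h
  rw [h5]
  unfold pi3
  rw [if_neg (hp _ ((h4 _).2 (Or.inl rfl))), if_neg (hp _ ((h4 _).2 (Or.inr (Or.inl rfl)))),
    if_neg (hp _ ((h4 _).2 (Or.inr (Or.inr rfl))))]

theorem R3.fst {t : IPow M (XX M)} {π : PX M} (h : R3 t π) (p : XX M) : (π.1.1 p).1 = p.1 := by
  obtain ⟨x', y', z', h1, h2, h3, h4, h5⟩ := h
  rw [h5, pi3_fst]

theorem R3.same {t : IPow M (XX M)} {π : PX M} (h : R3 t π) {x y : XX M} (hx : x ∈ t)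
    (hy : y ∈ t) (hxy : x.1 = y.1) : x = y := by
  obtain ⟨x', y', z', h1, h2, h3, h4, h5⟩ := h
  rcases (h4 x).1 hx with rfl | rfl | rfl <;> rcases (h4 y).1 hy with rfl | rfl | rfl <;>
    first | rfl | (exfalso; first | exact h1 hxy | exact h1 hxy.symm | exact h2 hxy | exact h2 hxy.symm | exact h3 hxy | exact h3 hxy.symm)

/-- The points in `t` are the fixed points in blocks that are moved. -/
theorem R3.iff {t : IPow M (XX M)} {π : PX M} (h : R3 t π) (p : XX M) : p ∈ t ↔
    π.1.1 p = p ∧ ∃ j, π.1.1 (p.1, j) ≠ (p.1, j) := by
  constructor
  · intro hp
    refine ⟨?_, ?_⟩
    · rw [h.mem hp rfl, th_self]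
    · obtain ⟨j, hj⟩ : ∃ j, p.2 ≠ j := ⟨p.2 + 1, by
        generalize p.2 = i
        revert i
        decide⟩
      refine ⟨j, fun h1 => ?_⟩
      rw [h.mem (p := (p.1, j)) hp rfl] at h1
      exact th_ne_right hj (congrArg Prod.snd h1)
  · rintro ⟨h1, j, h2⟩
    obtain ⟨x, hx, hpx⟩ : ∃ x, x ∈ t ∧ p.1 = x.1 := by
      by_contra hc
      push Not at hc
      exact h2 (h.not_mem (p := (p.1, j)) hc)
    rw [h.mem hx hpx] at h1
    have h3 : x.2 = p.2 := th_eq_right.1 (congrArg Prod.snd h1)
    have : p = x := Prod.ext hpx h3.symm
    rw [this]
    exact hx

/-- The permutations that are not special. -/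
def NS (π : PX M) : Prop := (∃ n, Bd n π) ∧ ¬ ∃ t, R2 t π ∨ R3 t π

theorem int_NS : Int M (NS (M := M)) := by
  have h1 := int_Bd (M := M)
  have h2 := int_R2 (M := M)
  have h3 := int_R3 (M := M)
  unfold NS
  (repeat' (first | with_reducible exact IntF.id | with_reducible exact IntF.fst' | with_reducible exact IntF.snd' | with_reducible exact IntF.const _ | with_reducible exact Int.const _ | assumption | with_reducible apply Int.and | with_reducible apply Int.or | with_reducible apply Int.not | with_reducible apply Int.imp | with_reducible apply Int.iff | with_reducible apply Int.ne | with_reducible apply Int.eq | with_reducible apply Int.mem | with_reducible apply Int.subset | with_reducible apply Int.ltN | with_reducible apply Int.leN | with_reducible_and_instances apply Int.le | with_reducible_and_instances apply Int.lt | with_reducible apply Int.all | with_reducible apply Int.ex | with_reducible apply IntF.fst | with_reducible apply IntF.snd | with_reducible apply IntF.app | with_reducible apply IntF.inl | with_reducible apply IntF.inr | with_reducible_and_instances apply IntF.mul | with_reducible_and_instances apply IntF.inv | with_reducible_and_instances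 apply IntF.add | with_reducible_and_instances apply IntF.sub | with_reducible_and_instances apply IntF.neg | with_reducible_and_instances apply IntF.smul | with_reducible apply Int.fin | with_reducible apply IntF.sep | with_reducible apply IntF.lam | with_reducible apply IntF.insert | with_reducible apply IntF.singleton | with_reducible apply IntF.union | with_reducible apply IntF.iimage | with_reducible apply IntF.ite | with_reducible apply IntF.the | with_reducible apply IntF.irec | with_reducible apply IntF.succ | with_reducible apply IntF.val | with_reducible apply IntF.mk | (with_reducible refine Int.comp ?_ ?_; assumption) | (with_reducible refine Int.comp₂ ?_ ?_ ?_; assumption) | (with_reducible refine Int.comp₃ ?_ ?_ ?_ ?_; assumption) | (with_reducible refine Int.comp₄ ?_ ?_ ?_ ?_ ?_; assumption) | (with_reducible refine IntF.comp ?_ ?_; assumption) | (with_reducible refine IntF.comp₂ ?_ ?_ ?_; assumption) | (with_reducible refine IntF.comp₃ ?_ ?_ ?_ ?_; assumption) | with_reducible apply IntF.pair))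

/-- The blocks below `n`. -/
noncomputable def Xn (n : INat M) : IPow M (XX M) := iprod (sep M fun m => m < n) (sep M fun _ => True)

theorem mem_Xn {n : INat M} {x : XX M} : x ∈ Xn n ↔ x.1 < n := by
  unfold Xn
  rw [mem_iprod, mem_sep (by (repeat' (first | with_reducible exact IntF.id | with_reducible exact IntF.fst' | with_reducible exact IntF.snd' | with_reducible exact IntF.const _ | with_reducible exact Int.const _ | assumption | with_reducible apply Int.and | with_reducible apply Int.or | with_reducible apply Int.not | with_reducible apply Int.imp | with_reducible apply Int.iff | with_reducible apply Int.ne | with_reducible apply Int.eq | with_reducible apply Int.mem | with_reducible apply Int.subset | with_reducible apply Int.ltN | with_reducible apply Int.leN | with_reducible apply Int.fin | with_reducible apply Int.unique | with_reducible apply Int.all | with_reducible apply Int.ex | with_reducible apply IntF.fst | with_reducible apply IntF.snd | with_reducible apply IntF.app | with_reducible apply IntF.ite | with_reducible apply IntF.sep | with_reducible apply IntF.lam | with_reducible apply IntF.insert | with_reducible apply IntF.singleton | with_reducible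 apply IntF.union | with_reducible apply IntF.inter | with_reducible apply IntF.sdiff | with_reducible apply IntF.isUnion | with_reducible apply IntF.iimage | with_reducible apply IntF.the | with_reducible apply IntF.irec | with_reducible_and_instances apply IntF.add | with_reducible_and_instances apply IntF.mul | with_reducible apply IntF.succ | with_reducible apply IntF.val | (with_reducible refine Int.comp ?_ ?_; assumption) | (with_reducible refine Int.comp₂ ?_ ?_ ?_; assumption) | (with_reducible refine Int.comp₃ ?_ ?_ ?_ ?_; assumption) | (with_reducible refine IntF.comp ?_ ?_; assumption) | (with_reducible refine IntF.comp₂ ?_ ?_ ?_; assumption) | (with_reducible refine IntF.comp₃ ?_ ?_ ?_ ?_; assumption) | with_reducible apply IntF.pair))), mem_sep (Int.const _)]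
  exact and_iff_left trivial

theorem fin_Xn (n : INat M) : IFin (Xn n) := by
  unfold Xn
  exact IFin.prod ((finP_iff (by (repeat' (first | with_reducible exact IntF.id | with_reducible exact IntF.fst' | with_reducible exact IntF.snd' | with_reducible exact IntF.const _ | with_reducible exact Int.const _ | assumption | with_reducible apply Int.and | with_reducible apply Int.or | with_reducible apply Int.not | with_reducible apply Int.imp | with_reducible apply Int.iff | with_reducible apply Int.ne | with_reducible apply Int.eq | with_reducible apply Int.mem | with_reducible apply Int.subset | with_reducible apply Int.ltN | with_reducible apply Int.leN | with_reducible apply Int.fin | with_reducible apply Int.unique | with_reducible apply Int.all | with_reducible apply Int.ex | with_reducible apply IntF.fst | with_reducible apply IntF.snd | with_reducible apply IntF.app | with_reducible apply IntF.ite | with_reducible apply IntF.sep | with_reducible apply IntF.lam | with_reducible apply IntF.insert | with_reducible apply IntF.singleton | with_reducible apply IntF.union | with_reducible apply IntF.inter | with_reducible apply IntF.sdiff | with_reducible apply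 IntF.isUnion | with_reducible apply IntF.iimage | with_reducible apply IntF.the | with_reducible apply IntF.irec | with_reducible_and_instances apply IntF.add | with_reducible_and_instances apply IntF.mul | with_reducible apply IntF.succ | with_reducible apply IntF.val | (with_reducible refine Int.comp ?_ ?_; assumption) | (with_reducible refine Int.comp₂ ?_ ?_ ?_; assumption) | (with_reducible refine Int.comp₃ ?_ ?_ ?_ ?_; assumption) | (with_reducible refine IntF.comp ?_ ?_; assumption) | (with_reducible refine IntF.comp₂ ?_ ?_ ?_; assumption) | (with_reducible refine IntF.comp₃ ?_ ?_ ?_ ?_; assumption) | with_reducible apply IntF.pair)))).1 (finP_lt n)) ((finP_iff (Int.const _)).1 (finP_fin3 _))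

theorem Bd.map {n : INat M} {π : PX M} (h : Bd n π) {x : XX M} (hx : x.1 < n) :
    (π.1.1 x).1 < n := by
  by_contra hc
  have h1 := h _ (not_lt.1 hc)
  have h2 := PX.inj π h1
  rw [h2] at hc
  exact hc hx

theorem Bd.inv {n : INat M} {π : PX M} (h : Bd n π) : Bd n π⁻¹ := by
  intro x hx
  change π.1.2 x = x
  rw [← h x hx, PX.l, h x hx]

theorem Bd.map₂ {n : INat M} {π : PX M} (h : Bd n π) {x : XX M} (hx : x.1 < n) :
    (π.1.2 x).1 < n := h.inv.map hx

theorem fin_Bd (n : INat M) : FinP M (fun π : PX M => Bd n π) := by
  have hI := int_Bd (M := M)
  have h1 : IntF M (fun π : PX M => sep M fun q : XX M × XX M => q.1.1 < n ∧ π.1.1 q.1 = q.2) := by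
    (repeat' (first | with_reducible exact IntF.id | with_reducible exact IntF.fst' | with_reducible exact IntF.snd' | with_reducible exact IntF.const _ | with_reducible exact Int.const _ | assumption | with_reducible apply Int.and | with_reducible apply Int.or | with_reducible apply Int.not | with_reducible apply Int.imp | with_reducible apply Int.iff | with_reducible apply Int.ne | with_reducible apply Int.eq | with_reducible apply Int.mem | with_reducible apply Int.subset | with_reducible apply Int.ltN | with_reducible apply Int.leN | with_reducible_and_instances apply Int.le | with_reducible_and_instances apply Int.lt | with_reducible apply Int.all | with_reducible apply Int.ex | with_reducible apply IntF.fst | with_reducible apply IntF.snd | with_reducible apply IntF.app | with_reducible apply IntF.inl | with_reducible apply IntF.inr | with_reducible_and_instances apply IntF.mul | with_reducible_and_instances apply IntF.inv | with_reducible_and_instances apply IntF.add | with_reducible_and_instances apply IntF.sub | with_reducible_and_instances apply IntF.neg | with_reducible_and_instances apply IntF.smul | with_reducible apply Int.fin | with_reducible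 apply IntF.sep | with_reducible apply IntF.lam | with_reducible apply IntF.insert | with_reducible apply IntF.singleton | with_reducible apply IntF.union | with_reducible apply IntF.iimage | with_reducible apply IntF.ite | with_reducible apply IntF.the | with_reducible apply IntF.irec | with_reducible apply IntF.succ | with_reducible apply IntF.val | with_reducible apply IntF.mk | (with_reducible refine Int.comp ?_ ?_; assumption) | (with_reducible refine Int.comp₂ ?_ ?_ ?_; assumption) | (with_reducible refine Int.comp₃ ?_ ?_ ?_ ?_; assumption) | (with_reducible refine Int.comp₄ ?_ ?_ ?_ ?_ ?_; assumption) | (with_reducible refine IntF.comp ?_ ?_; assumption) | (with_reducible refine IntF.comp₂ ?_ ?_ ?_; assumption) | (with_reducible refine IntF.comp₃ ?_ ?_ ?_ ?_; assumption) | with_reducible apply IntF.pair))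
  have h2 : ∀ (π : PX M) (q : XX M × XX M), q ∈ (sep M fun q : XX M × XX M => q.1.1 < n ∧
      π.1.1 q.1 = q.2) ↔ q.1.1 < n ∧ π.1.1 q.1 = q.2 := fun π q => mem_sep (by (repeat' (first | with_reducible exact IntF.id | with_reducible exact IntF.fst' | with_reducible exact IntF.snd' | with_reducible exact IntF.const _ | with_reducible exact Int.const _ | assumption | with_reducible apply Int.and | with_reducible apply Int.or | with_reducible apply Int.not | with_reducible apply Int.imp | with_reducible apply Int.iff | with_reducible apply Int.ne | with_reducible apply Int.eq | with_reducible apply Int.mem | with_reducible apply Int.subset | with_reducible apply Int.ltN | with_reducible apply Int.leN | with_reducible_and_instances apply Int.le | with_reducible_and_instances apply Int.lt | with_reducible apply Int.all | with_reducible apply Int.ex | with_reducible apply IntF.fst | with_reducible apply IntF.snd | with_reducible apply IntF.app | with_reducible apply IntF.inl | with_reducible apply IntF.inr | with_reducible_and_instances apply IntF.mul | with_reducible_and_instances apply IntF.inv | with_reducible_and_instances apply IntF.add | with_reducible_and_instances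 apply IntF.sub | with_reducible_and_instances apply IntF.neg | with_reducible_and_instances apply IntF.smul | with_reducible apply Int.fin | with_reducible apply IntF.sep | with_reducible apply IntF.lam | with_reducible apply IntF.insert | with_reducible apply IntF.singleton | with_reducible apply IntF.union | with_reducible apply IntF.iimage | with_reducible apply IntF.ite | with_reducible apply IntF.the | with_reducible apply IntF.irec | with_reducible apply IntF.succ | with_reducible apply IntF.val | with_reducible apply IntF.mk | (with_reducible refine Int.comp ?_ ?_; assumption) | (with_reducible refine Int.comp₂ ?_ ?_ ?_; assumption) | (with_reducible refine Int.comp₃ ?_ ?_ ?_ ?_; assumption) | (with_reducible refine Int.comp₄ ?_ ?_ ?_ ?_ ?_; assumption) | (with_reducible refine IntF.comp ?_ ?_; assumption) | (with_reducible refine IntF.comp₂ ?_ ?_ ?_; assumption) | (with_reducible refine IntF.comp₃ ?_ ?_ ?_ ?_; assumption) | with_reducible apply IntF.pair)))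
  refine FinP.of_inj (by (repeat' (first | with_reducible exact IntF.id | with_reducible exact IntF.fst' | with_reducible exact IntF.snd' | with_reducible exact IntF.const _ | with_reducible exact Int.const _ | assumption | with_reducible apply Int.and | with_reducible apply Int.or | with_reducible apply Int.not | with_reducible apply Int.imp | with_reducible apply Int.iff | with_reducible apply Int.ne | with_reducible apply Int.eq | with_reducible apply Int.mem | with_reducible apply Int.subset | with_reducible apply Int.ltN | with_reducible apply Int.leN | with_reducible_and_instances apply Int.le | with_reducible_and_instances apply Int.lt | with_reducible apply Int.all | with_reducible apply Int.ex | with_reducible apply IntF.fst | with_reducible apply IntF.snd | with_reducible apply IntF.app | with_reducible apply IntF.inl | with_reducible apply IntF.inr | with_reducible_and_instances apply IntF.mul | with_reducible_and_instances apply IntF.inv | with_reducible_and_instances apply IntF.add | with_reducible_and_instances apply IntF.sub | with_reducible_and_instances apply IntF.neg | with_reducible_and_instances apply IntF.smul | with_reducible apply Int.fin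 | with_reducible apply IntF.sep | with_reducible apply IntF.lam | with_reducible apply IntF.insert | with_reducible apply IntF.singleton | with_reducible apply IntF.union | with_reducible apply IntF.iimage | with_reducible apply IntF.ite | with_reducible apply IntF.the | with_reducible apply IntF.irec | with_reducible apply IntF.succ | with_reducible apply IntF.val | with_reducible apply IntF.mk | (with_reducible refine Int.comp ?_ ?_; assumption) | (with_reducible refine Int.comp₂ ?_ ?_ ?_; assumption) | (with_reducible refine Int.comp₃ ?_ ?_ ?_ ?_; assumption) | (with_reducible refine Int.comp₄ ?_ ?_ ?_ ?_ ?_; assumption) | (with_reducible refine IntF.comp ?_ ?_; assumption) | (with_reducible refine IntF.comp₂ ?_ ?_ ?_; assumption) | (with_reducible refine IntF.comp₃ ?_ ?_ ?_ ?_; assumption) | with_reducible apply IntF.pair))) h1 (fun π π' hπ hπ' h => ?_) (q := fun s => s ∈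
    ipow (iprod (Xn n) (Xn n))) ⟨_, ((fin_Xn n).prod (fin_Xn n)).pow, fun s hs => hs⟩ fun π hπ => ?_
  · refine IPerm.ext' fun x => ?_
    rcases lt_or_ge x.1 n with hx | hx
    · have h3 := (h2 π (x, π.1.1 x)).2 ⟨hx, rfl⟩
      rw [h] at h3
      exact ((h2 π' _).1 h3).2.symm
    · rw [hπ x hx, hπ' x hx]
  · rw [mem_ipow]
    rintro ⟨x, y⟩ hq
    obtain ⟨h3, h4⟩ := (h2 π _).1 hq
    rw [mem_iprod]
    refine ⟨mem_Xn.2 h3, mem_Xn.2 ?_⟩
    replace h4 : π.1.1 x = y := h4
    rw [← h4]
    exact hπ.map h3

/-- The code of a permutation. -/
noncomputable def cd (π : PX M) : IPow M (INat M) :=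
  sep M fun j => ∃ x : XX M, j = pr (pr x.1 (e3 M x.2)) (pr (π.1.1 x).1 (e3 M (π.1.1 x).2))

theorem int_e3 : IntF M (e3 M) := IntF.fin3 (e3 M)

theorem IntF.e3 {γ : Type*} [ITy M γ] {f : γ → Fin 3} (hf : IntF M f) :
    IntF M (fun c => H310.e3 M (f c)) := IntF.comp int_e3 hf

theorem int_cd : IntF M (cd (M := M)) := by
  unfold cd
  (repeat' (first | with_reducible apply IntF.pr | with_reducible apply IntF.e3 | with_reducible exact IntF.id | with_reducible exact IntF.fst' | with_reducible exact IntF.snd' | with_reducible exact IntF.const _ | with_reducible exact Int.const _ | assumption | with_reducible apply Int.and | with_reducible apply Int.or | with_reducible apply Int.not | with_reducible apply Int.imp | with_reducible apply Int.iff | with_reducible apply Int.ne | with_reducible apply Int.eq | with_reducible apply Int.mem | with_reducible apply Int.subset | with_reducible apply Int.ltN | with_reducible apply Int.leN | with_reducible_and_instances apply Int.le | with_reducible_and_instances apply Int.lt | with_reducible apply Int.all | with_reducible apply Int.ex | with_reducible apply IntF.fst | with_reducible apply IntF.snd | with_reducible apply IntF.app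 | with_reducible apply IntF.inl | with_reducible apply IntF.inr | with_reducible_and_instances apply IntF.mul | with_reducible_and_instances apply IntF.inv | with_reducible_and_instances apply IntF.add | with_reducible_and_instances apply IntF.sub | with_reducible_and_instances apply IntF.neg | with_reducible_and_instances apply IntF.smul | with_reducible apply Int.fin | with_reducible apply IntF.sep | with_reducible apply IntF.lam | with_reducible apply IntF.insert | with_reducible apply IntF.singleton | with_reducible apply IntF.union | with_reducible apply IntF.iimage | with_reducible apply IntF.ite | with_reducible apply IntF.the | with_reducible apply IntF.irec | with_reducible apply IntF.succ | with_reducible apply IntF.val | with_reducible apply IntF.mk | (with_reducible refine Int.comp ?_ ?_; assumption) | (with_reducible refine Int.comp₂ ?_ ?_ ?_; assumption) | (with_reducible refine Int.comp₃ ?_ ?_ ?_ ?_; assumption) | (with_reducible refine Int.comp₄ ?_ ?_ ?_ ?_ ?_; assumption) | (with_reducible refine IntF.comp ?_ ?_; assumption) | (with_reducible refine IntF.comp₂ ?_ ?_ ?_; assumption) | (with_reducible refine IntF.comp₃ ?_ ?_ ?_ ?_; assumption)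 | with_reducible apply IntF.pair))

theorem cd_inj {π π' : PX M} (h : cd π = cd π') : π = π' := by
  have h1 : ∀ (π : PX M) (j : INat M), j ∈ cd π ↔ ∃ x : XX M, j = pr (pr x.1 (e3 M x.2))
      (pr (π.1.1 x).1 (e3 M (π.1.1 x).2)) := fun π j => mem_sep (by (repeat' (first | with_reducible apply IntF.pr | with_reducible apply IntF.e3 | with_reducible exact IntF.id | with_reducible exact IntF.fst' | with_reducible exact IntF.snd' | with_reducible exact IntF.const _ | with_reducible exact Int.const _ | assumption | with_reducible apply Int.and | with_reducible apply Int.or | with_reducible apply Int.not | with_reducible apply Int.imp | with_reducible apply Int.iff | with_reducible apply Int.ne | with_reducible apply Int.eq | with_reducible apply Int.mem | with_reducible apply Int.subset | with_reducible apply Int.ltN | with_reducible apply Int.leN | with_reducible_and_instances apply Int.le | with_reducible_and_instances apply Int.lt | with_reducible apply Int.all | with_reducible apply Int.ex | with_reducible apply IntF.fst | with_reducible apply IntF.snd | with_reducible apply IntF.app | with_reducible apply IntF.inl | with_reducible apply IntF.inr | with_reducible_and_instances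 apply IntF.mul | with_reducible_and_instances apply IntF.inv | with_reducible_and_instances apply IntF.add | with_reducible_and_instances apply IntF.sub | with_reducible_and_instances apply IntF.neg | with_reducible_and_instances apply IntF.smul | with_reducible apply Int.fin | with_reducible apply IntF.sep | with_reducible apply IntF.lam | with_reducible apply IntF.insert | with_reducible apply IntF.singleton | with_reducible apply IntF.union | with_reducible apply IntF.iimage | with_reducible apply IntF.ite | with_reducible apply IntF.the | with_reducible apply IntF.irec | with_reducible apply IntF.succ | with_reducible apply IntF.val | with_reducible apply IntF.mk | (with_reducible refine Int.comp ?_ ?_; assumption) | (with_reducible refine Int.comp₂ ?_ ?_ ?_; assumption) | (with_reducible refine Int.comp₃ ?_ ?_ ?_ ?_; assumption) | (with_reducible refine Int.comp₄ ?_ ?_ ?_ ?_ ?_; assumption) | (with_reducible refine IntF.comp ?_ ?_; assumption) | (with_reducible refine IntF.comp₂ ?_ ?_ ?_; assumption) | (with_reducible refine IntF.comp₃ ?_ ?_ ?_ ?_; assumption) | with_reducible apply IntF.pair)))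
  refine IPerm.ext' fun x => ?_
  have h2 := (h1 π _).2 ⟨x, rfl⟩
  rw [h] at h2
  obtain ⟨y, hy⟩ := (h1 π' _).1 h2
  obtain ⟨h3, h4⟩ := pr_inj hy
  obtain ⟨h5, h6⟩ := pr_inj h3
  obtain ⟨h7, h8⟩ := pr_inj h4
  have h9 : x = y := Prod.ext h5 (e3_inj h6)
  rw [h9] at h7 h8 ⊢
  exact Prod.ext h7 (e3_inj h8)

/-- The order of the permutations. -/
def plt (π π' : PX M) : Prop :=
  (∃ n, Bd n π ∧ ¬ Bd n π') ∨ ((∀ n, Bd n π ↔ Bd n π') ∧ rlt (cd π) (cd π'))

theorem int_plt : Int M (fun q : PX M × PX M => plt q.1 q.2) := by
  have h1 := int_Bd (M := M)
  have h2 := int_cd (M := M)
  have h3 := int_rlt (M := M)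
  unfold plt
  (repeat' (first | with_reducible exact IntF.id | with_reducible exact IntF.fst' | with_reducible exact IntF.snd' | with_reducible exact IntF.const _ | with_reducible exact Int.const _ | assumption | with_reducible apply Int.and | with_reducible apply Int.or | with_reducible apply Int.not | with_reducible apply Int.imp | with_reducible apply Int.iff | with_reducible apply Int.ne | with_reducible apply Int.eq | with_reducible apply Int.mem | with_reducible apply Int.subset | with_reducible apply Int.ltN | with_reducible apply Int.leN | with_reducible_and_instances apply Int.le | with_reducible_and_instances apply Int.lt | with_reducible apply Int.all | with_reducible apply Int.ex | with_reducible apply IntF.fst | with_reducible apply IntF.snd | with_reducible apply IntF.app | with_reducible apply IntF.inl | with_reducible apply IntF.inr | with_reducible_and_instances apply IntF.mul | with_reducible_and_instances apply IntF.inv | with_reducible_and_instances apply IntF.add | with_reducible_and_instances apply IntF.sub | with_reducible_and_instances apply IntF.neg | with_reducible_and_instances apply IntF.smul | with_reducible apply Int.fin | with_reducible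 apply IntF.sep | with_reducible apply IntF.lam | with_reducible apply IntF.insert | with_reducible apply IntF.singleton | with_reducible apply IntF.union | with_reducible apply IntF.iimage | with_reducible apply IntF.ite | with_reducible apply IntF.the | with_reducible apply IntF.irec | with_reducible apply IntF.succ | with_reducible apply IntF.val | with_reducible apply IntF.mk | (with_reducible refine Int.comp ?_ ?_; assumption) | (with_reducible refine Int.comp₂ ?_ ?_ ?_; assumption) | (with_reducible refine Int.comp₃ ?_ ?_ ?_ ?_; assumption) | (with_reducible refine Int.comp₄ ?_ ?_ ?_ ?_ ?_; assumption) | (with_reducible refine IntF.comp ?_ ?_; assumption) | (with_reducible refine IntF.comp₂ ?_ ?_ ?_; assumption) | (with_reducible refine IntF.comp₃ ?_ ?_ ?_ ?_; assumption) | with_reducible apply IntF.pair))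

theorem plt_irr (π : PX M) : ¬ plt π π := by
  rintro (⟨n, h1, h2⟩ | ⟨-, h⟩)
  · exact h2 h1
  · exact rlt_irr _ h

theorem plt_tr (a b c : PX M) (h : plt a b) (h' : plt b c) : plt a c := by
  rcases h with ⟨n, h1, h2⟩ | ⟨h1, h2⟩
  · rcases h' with ⟨m, h3, h4⟩ | ⟨h3, h4⟩
    · have hnm : n ≤ m := by
        by_contra hc
        exact h2 (h3.mono (not_le.1 hc).le)
      exact Or.inl ⟨m, h1.mono hnm, h4⟩
    · exact Or.inl ⟨n, h1, fun h => h2 ((h3 n).2 h)⟩
  · rcases h' with ⟨m, h3, h4⟩ | ⟨h3, h4⟩
    · exact Or.inl ⟨m, (h1 m).2 h3, h4⟩
    · exact Or.inr ⟨fun n => (h1 n).trans (h3 n), rlt_tr _ _ _ h2 h4⟩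

theorem plt_tri (a b : PX M) : plt a b ∨ a = b ∨ plt b a := by
  by_cases h : ∀ n, Bd n a ↔ Bd n b
  · rcases rlt_tri (cd a) (cd b) with h1 | h1 | h1
    · exact Or.inl (Or.inr ⟨h, h1⟩)
    · exact Or.inr (Or.inl (cd_inj h1))
    · exact Or.inr (Or.inr (Or.inr ⟨fun n => (h n).symm, h1⟩))
  · push Not at h
    obtain ⟨n, ⟨h1, h2⟩ | ⟨h1, h2⟩⟩ := h
    · exact Or.inl (Or.inl ⟨n, h1, h2⟩)
    · exact Or.inr (Or.inr (Or.inl ⟨n, h2, h1⟩))

end Pool.Agent.H310
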