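import Pool.Agent.H310R3.E2

/-!
# The enumeration of the permutations that are not special, continued
-/

set_option maxHeartbeats 1000000
set_option linter.all false
set_option synthInstance.maxSize 2000

namespace Pool.Agent.H310

open FirstOrder FirstOrder.Language
open Pool.Agent.Helper672.ZFA
open Pool.Agent.Helper672.ZFA.H635 (IPerm)

universe u

variable {M : Type u} [L.Structure M] [hM : IsModel M]

/-- Permutations from involutions. -/
theorem exists_inv {f : XX M → XX M} (hf : IntF M f) (h : ∀ x, f (f x) = x) :
    ∃ π : PX M, (∀ x, π.1.1 x = f x) ∧ ∀ x, π.1.2 x = f x :=
  ⟨⟨(⟨f, hf⟩, ⟨f, hf⟩), h, h⟩, fun _ => rfl, fun _ => rfl⟩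

open Classical in
/-- The exchange of two points in the block `k`. -/
noncomputable def tpf (k : INat M) (p : XX M) : XX M := if p.1 = k then (p.1, th 2 p.2) else p

theorem IntF.tpf {γ : Type*} [ITy M γ] {k : γ → INat M} {p : γ → XX M} (hk : IntF M k)
    (hp : IntF M p) : IntF M (fun c => H310.tpf (k c) (p c)) := by
  unfold H310.tpf
  (repeat' (first | with_reducible apply IntF.th | with_reducible exact IntF.id | with_reducible exact IntF.fst' | with_reducible exact IntF.snd' | with_reducible exact IntF.const _ | with_reducible exact Int.const _ | assumption | with_reducible apply Int.and | with_reducible apply Int.or | with_reducible apply Int.not | with_reducible apply Int.imp | with_reducible apply Int.iff | with_reducible apply Int.ne | with_reducible apply Int.eq | with_reducible apply Int.mem | with_reducible apply Int.subset | with_reducible apply Int.ltN | with_reducible apply Int.leN | with_reducible_and_instances apply Int.le | with_reducible_and_instances apply Int.lt | with_reducible apply Int.all | with_reducible apply Int.ex | with_reducible apply IntF.fst | with_reducible apply IntF.snd | with_reducible apply IntF.app | with_reducible apply IntF.inl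 | with_reducible apply IntF.inr | with_reducible_and_instances apply IntF.mul | with_reducible_and_instances apply IntF.inv | with_reducible_and_instances apply IntF.add | with_reducible_and_instances apply IntF.sub | with_reducible_and_instances apply IntF.neg | with_reducible_and_instances apply IntF.smul | with_reducible apply Int.fin | with_reducible apply IntF.sep | with_reducible apply IntF.lam | with_reducible apply IntF.insert | with_reducible apply IntF.singleton | with_reducible apply IntF.union | with_reducible apply IntF.iimage | with_reducible apply IntF.ite | with_reducible apply IntF.the | with_reducible apply IntF.irec | with_reducible apply IntF.succ | with_reducible apply IntF.val | with_reducible apply IntF.mk | (with_reducible refine Int.comp ?_ ?_; assumption) | (with_reducible refine Int.comp₂ ?_ ?_ ?_; assumption) | (with_reducible refine Int.comp₃ ?_ ?_ ?_ ?_; assumption) | (with_reducible refine Int.comp₄ ?_ ?_ ?_ ?_ ?_; assumption) | (with_reducible refine IntF.comp ?_ ?_; assumption) | (with_reducible refine IntF.comp₂ ?_ ?_ ?_; assumption) | (with_reducible refine IntF.comp₃ ?_ ?_ ?_ ?_; assumption) | with_reducible apply IntF.pair))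

theorem tpf_tpf (k : INat M) (p : XX M) : tpf k (tpf k p) = p := by
  unfold tpf
  by_cases h : p.1 = k
  · rw [if_pos h]
    rw [if_pos h]
    exact Prod.ext rfl (th_th _ _)
  · rw [if_neg h, if_neg h]

theorem tpf_fst (k : INat M) (p : XX M) : (tpf k p).1 = p.1 := by
  unfold tpf
  split_ifs <;> rfl

theorem tpf_out {k : INat M} {p : XX M} (h : p.1 ≠ k) : tpf k p = p := by
  unfold tpf
  rw [if_neg h]

theorem NS_of {π : PX M} {n : INat M} (h : Bd n π) (h1 : ∀ p, (π.1.1 p).1 = p.1) {k : INat M}
    (h2 : ∀ p, p.1 ≠ k → π.1.1 p = p) : NS π := by
  refine ⟨⟨n, h⟩, ?_⟩
  rintro ⟨t, ⟨w, a, h3, h4, h5⟩ | h3⟩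
  · have h6 := h1 a
    rw [h5, pi2_a] at h6
    exact h3 h6
  · have h4 : ∀ x, x ∈ t → x.1 = k := by
      intro x hx
      obtain ⟨-, j, hj⟩ := (h3.iff x).1 hx
      by_contra hc
      exact hj (h2 (x.1, j) hc)
    obtain ⟨x, y, z, h5, -, -, h6, -⟩ := h3
    exact h5 ((h4 x ((h6 x).2 (Or.inl rfl))).trans (h4 y ((h6 y).2 (Or.inr (Or.inl rfl)))).symm)

theorem exists_c : ∃ c : INat M → PX M, IntF M c ∧ (∀ k, NS (c k)) ∧ (∀ k, Bd k (c k)) ∧
    (∀ k l, c k = c l → k = l) ∧ ∀ π, NS π → ∃ k, c k = π := by
  have hB := int_Bd (M := M)
  have hNS := int_NS (M := M)
  have hplt := int_plt (M := M)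
  have ht : ∀ k : INat M, ∃ π : PX M, ∀ p, π.1.1 p = tpf k p := fun k => by
    obtain ⟨π, h, -⟩ := exists_inv (f := tpf k) (by (repeat' (first | with_reducible apply IntF.tpf | with_reducible exact IntF.id | with_reducible exact IntF.fst' | with_reducible exact IntF.snd' | with_reducible exact IntF.const _ | with_reducible exact Int.const _ | assumption | with_reducible apply Int.and | with_reducible apply Int.or | with_reducible apply Int.not | with_reducible apply Int.imp | with_reducible apply Int.iff | with_reducible apply Int.ne | with_reducible apply Int.eq | with_reducible apply Int.mem | with_reducible apply Int.subset | with_reducible apply Int.ltN | with_reducible apply Int.leN | with_reducible_and_instances apply Int.le | with_reducible_and_instances apply Int.lt | with_reducible apply Int.all | with_reducible apply Int.ex | with_reducible apply IntF.fst | with_reducible apply IntF.snd | with_reducible apply IntF.app | with_reducible apply IntF.inl | with_reducible apply IntF.inr | with_reducible_and_instances apply IntF.mul | with_reducible_and_instances apply IntF.inv | with_reducible_and_instances apply IntF.add | with_reducible_and_instances apply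 IntF.sub | with_reducible_and_instances apply IntF.neg | with_reducible_and_instances apply IntF.smul | with_reducible apply Int.fin | with_reducible apply IntF.sep | with_reducible apply IntF.lam | with_reducible apply IntF.insert | with_reducible apply IntF.singleton | with_reducible apply IntF.union | with_reducible apply IntF.iimage | with_reducible apply IntF.ite | with_reducible apply IntF.the | with_reducible apply IntF.irec | with_reducible apply IntF.succ | with_reducible apply IntF.val | with_reducible apply IntF.mk | (with_reducible refine Int.comp ?_ ?_; assumption) | (with_reducible refine Int.comp₂ ?_ ?_ ?_; assumption) | (with_reducible refine Int.comp₃ ?_ ?_ ?_ ?_; assumption) | (with_reducible refine Int.comp₄ ?_ ?_ ?_ ?_ ?_; assumption) | (with_reducible refine IntF.comp ?_ ?_; assumption) | (with_reducible refine IntF.comp₂ ?_ ?_ ?_; assumption) | (with_reducible refine IntF.comp₃ ?_ ?_ ?_ ?_; assumption) | with_reducible apply IntF.pair))) (tpf_tpf k)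
    exact ⟨π, h⟩
  choose tp htp using ht
  have htpI : IntF M tp := by
    refine IntF.of_rel (r := fun k π => ∀ p, π.1.1 p = tpf k p) (by (repeat' (first | with_reducible apply IntF.tpf | with_reducible exact IntF.id | with_reducible exact IntF.fst' | with_reducible exact IntF.snd' | with_reducible exact IntF.const _ | with_reducible exact Int.const _ | assumption | with_reducible apply Int.and | with_reducible apply Int.or | with_reducible apply Int.not | with_reducible apply Int.imp | with_reducible apply Int.iff | with_reducible apply Int.ne | with_reducible apply Int.eq | with_reducible apply Int.mem | with_reducible apply Int.subset | with_reducible apply Int.ltN | with_reducible apply Int.leN | with_reducible_and_instances apply Int.le | with_reducible_and_instances apply Int.lt | with_reducible apply Int.all | with_reducible apply Int.ex | with_reducible apply IntF.fst | with_reducible apply IntF.snd | with_reducible apply IntF.app | with_reducible apply IntF.inl | with_reducible apply IntF.inr | with_reducible_and_instances apply IntF.mul | with_reducible_and_instances apply IntF.inv | with_reducible_and_instances apply IntF.add | with_reducible_and_instances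 apply IntF.sub | with_reducible_and_instances apply IntF.neg | with_reducible_and_instances apply IntF.smul | with_reducible apply Int.fin | with_reducible apply IntF.sep | with_reducible apply IntF.lam | with_reducible apply IntF.insert | with_reducible apply IntF.singleton | with_reducible apply IntF.union | with_reducible apply IntF.iimage | with_reducible apply IntF.ite | with_reducible apply IntF.the | with_reducible apply IntF.irec | with_reducible apply IntF.succ | with_reducible apply IntF.val | with_reducible apply IntF.mk | (with_reducible refine Int.comp ?_ ?_; assumption) | (with_reducible refine Int.comp₂ ?_ ?_ ?_; assumption) | (with_reducible refine Int.comp₃ ?_ ?_ ?_ ?_; assumption) | (with_reducible refine Int.comp₄ ?_ ?_ ?_ ?_ ?_; assumption) | (with_reducible refine IntF.comp ?_ ?_; assumption) | (with_reducible refine IntF.comp₂ ?_ ?_ ?_; assumption) | (with_reducible refine IntF.comp₃ ?_ ?_ ?_ ?_; assumption) | with_reducible apply IntF.pair))) fun k π => ?_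
    refine ⟨fun h => IPerm.ext' fun p => ?_, fun h => h ▸ htp k⟩
    rw [h, htp]
  have ht1 : ∀ k, Bd k.succ (tp k) := by
    intro k x hx
    rw [htp, tpf_out]
    rintro rfl
    exact absurd (INat.succ_le_iff.1 hx) (lt_irrefl _)
  have ht2 : ∀ k, ¬ Bd k (tp k) := by
    intro k h
    have h1 := h (k, 0) le_rfl
    rw [htp] at h1
    unfold tpf at h1
    rw [if_pos rfl] at h1
    exact absurd (show th 2 0 = 0 from congrArg Prod.snd h1) (by decide)
  have ht3 : ∀ k, NS (tp k) := fun k => NS_of (ht1 k) (fun p => by rw [htp, tpf_fst])
    (fun p hp => by rw [htp, tpf_out hp])
  have hone : Bd 0 (1 : PX M) := fun x _ => IPerm.one_apply x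
  have hone' : NS (1 : PX M) := NS_of (k := 0) hone (fun p => by rw [IPerm.one_apply])
    fun p _ => IPerm.one_apply p
  obtain ⟨g, h1, h2, h3, h4, h5, h6⟩ := exists_enum' (p := NS (M := M)) (by (repeat' (first | with_reducible exact IntF.id | with_reducible exact IntF.fst' | with_reducible exact IntF.snd' | with_reducible exact IntF.const _ | with_reducible exact Int.const _ | assumption | with_reducible apply Int.and | with_reducible apply Int.or | with_reducible apply Int.not | with_reducible apply Int.imp | with_reducible apply Int.iff | with_reducible apply Int.ne | with_reducible apply Int.eq | with_reducible apply Int.mem | with_reducible apply Int.subset | with_reducible apply Int.ltN | with_reducible apply Int.leN | with_reducible_and_instances apply Int.le | with_reducible_and_instances apply Int.lt | with_reducible apply Int.all | with_reducible apply Int.ex | with_reducible apply IntF.fst | with_reducible apply IntF.snd | with_reducible apply IntF.app | with_reducible apply IntF.inl | with_reducible apply IntF.inr | with_reducible_and_instances apply IntF.mul | with_reducible_and_instances apply IntF.inv | with_reducible_and_instances apply IntF.add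 | with_reducible_and_instances apply IntF.sub | with_reducible_and_instances apply IntF.neg | with_reducible_and_instances apply IntF.smul | with_reducible apply Int.fin | with_reducible apply IntF.sep | with_reducible apply IntF.lam | with_reducible apply IntF.insert | with_reducible apply IntF.singleton | with_reducible apply IntF.union | with_reducible apply IntF.iimage | with_reducible apply IntF.ite | with_reducible apply IntF.the | with_reducible apply IntF.irec | with_reducible apply IntF.succ | with_reducible apply IntF.val | with_reducible apply IntF.mk | (with_reducible refine Int.comp ?_ ?_; assumption) | (with_reducible refine Int.comp₂ ?_ ?_ ?_; assumption) | (with_reducible refine Int.comp₃ ?_ ?_ ?_ ?_; assumption) | (with_reducible refine Int.comp₄ ?_ ?_ ?_ ?_ ?_; assumption) | (with_reducible refine IntF.comp ?_ ?_; assumption) | (with_reducible refine IntF.comp₂ ?_ ?_ ?_; assumption) | (with_reducible refine IntF.comp₃ ?_ ?_ ?_ ?_; assumption) | with_reducible apply IntF.pair)))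
    (lt := plt) (by (repeat' (first | with_reducible exact IntF.id | with_reducible exact IntF.fst' | with_reducible exact IntF.snd' | with_reducible exact IntF.const _ | with_reducible exact Int.const _ | assumption | with_reducible apply Int.and | with_reducible apply Int.or | with_reducible apply Int.not | with_reducible apply Int.imp | with_reducible apply Int.iff | with_reducible apply Int.ne | with_reducible apply Int.eq | with_reducible apply Int.mem | with_reducible apply Int.subset | with_reducible apply Int.ltN | with_reducible apply Int.leN | with_reducible_and_instances apply Int.le | with_reducible_and_instances apply Int.lt | with_reducible apply Int.all | with_reducible apply Int.ex | with_reducible apply IntF.fst | with_reducible apply IntF.snd | with_reducible apply IntF.app | with_reducible apply IntF.inl | with_reducible apply IntF.inr | with_reducible_and_instances apply IntF.mul | with_reducible_and_instances apply IntF.inv | with_reducible_and_instances apply IntF.add | with_reducible_and_instances apply IntF.sub | with_reducible_and_instances apply IntF.neg | with_reducible_and_instances apply IntF.smul | with_reducible apply Int.fin | with_reducible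 apply IntF.sep | with_reducible apply IntF.lam | with_reducible apply IntF.insert | with_reducible apply IntF.singleton | with_reducible apply IntF.union | with_reducible apply IntF.iimage | with_reducible apply IntF.ite | with_reducible apply IntF.the | with_reducible apply IntF.irec | with_reducible apply IntF.succ | with_reducible apply IntF.val | with_reducible apply IntF.mk | (with_reducible refine Int.comp ?_ ?_; assumption) | (with_reducible refine Int.comp₂ ?_ ?_ ?_; assumption) | (with_reducible refine Int.comp₃ ?_ ?_ ?_ ?_; assumption) | (with_reducible refine Int.comp₄ ?_ ?_ ?_ ?_ ?_; assumption) | (with_reducible refine IntF.comp ?_ ?_; assumption) | (with_reducible refine IntF.comp₂ ?_ ?_ ?_; assumption) | (with_reducible refine IntF.comp₃ ?_ ?_ ?_ ?_; assumption) | with_reducible apply IntF.pair))) plt_irr plt_tr (fun a b _ _ => plt_tri a b)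
    (fun a ha => by
      obtain ⟨⟨n, hn⟩, -⟩ := ha
      refine (fin_Bd n).mono ?_
      rintro b ⟨-, ⟨m, h1, h2⟩ | ⟨h1, -⟩⟩
      · refine h1.mono ?_
        by_contra hc
        exact h2 (hn.mono (not_le.1 hc).le)
      · exact (h1 n).2 hn)
    (fun hfin => by
      refine not_finP_nat (M := M) (FinP.of_inj (p := fun _ : INat M => True) (by (repeat' (first | with_reducible exact IntF.id | with_reducible exact IntF.fst' | with_reducible exact IntF.snd' | with_reducible exact IntF.const _ | with_reducible exact Int.const _ | assumption | with_reducible apply Int.and | with_reducible apply Int.or | with_reducible apply Int.not | with_reducible apply Int.imp | with_reducible apply Int.iff | with_reducible apply Int.ne | with_reducible apply Int.eq | with_reducible apply Int.mem | with_reducible apply Int.subset | with_reducible apply Int.ltN | with_reducible apply Int.leN | with_reducible apply Int.fin | with_reducible apply Int.unique | with_reducible apply Int.all | with_reducible apply Int.ex | with_reducible apply IntF.fst | with_reducible apply IntF.snd | with_reducible apply IntF.app | with_reducible apply IntF.ite | with_reducible apply IntF.sep | with_reducible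 apply IntF.lam | with_reducible apply IntF.insert | with_reducible apply IntF.singleton | with_reducible apply IntF.union | with_reducible apply IntF.inter | with_reducible apply IntF.sdiff | with_reducible apply IntF.isUnion | with_reducible apply IntF.iimage | with_reducible apply IntF.the | with_reducible apply IntF.irec | with_reducible_and_instances apply IntF.add | with_reducible_and_instances apply IntF.mul | with_reducible apply IntF.succ | with_reducible apply IntF.val | (with_reducible refine Int.comp ?_ ?_; assumption) | (with_reducible refine Int.comp₂ ?_ ?_ ?_; assumption) | (with_reducible refine Int.comp₃ ?_ ?_ ?_ ?_; assumption) | (with_reducible refine IntF.comp ?_ ?_; assumption) | (with_reducible refine IntF.comp₂ ?_ ?_ ?_; assumption) | (with_reducible refine IntF.comp₃ ?_ ?_ ?_ ?_; assumption) | with_reducible apply IntF.pair)))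
        htpI (fun m n _ _ hmn => ?_) hfin fun n _ => ht3 n)
      rcases lt_trichotomy m n with h | h | h
      · exact absurd ((ht1 m).mono (INat.succ_le_iff.2 h)) (by rw [hmn]; exact ht2 n)
      · exact h
      · exact absurd ((ht1 n).mono (INat.succ_le_iff.2 h)) (by rw [← hmn]; exact ht2 m))
  refine ⟨g, h1, h2, ?_, fun k l hkl => ?_, h4⟩
  · refine INat.ind (by (repeat' (first | with_reducible exact IntF.id | with_reducible exact IntF.fst' | with_reducible exact IntF.snd' | with_reducible exact IntF.const _ | with_reducible exact Int.const _ | assumption | with_reducible apply Int.and | with_reducible apply Int.or | with_reducible apply Int.not | with_reducible apply Int.imp | with_reducible apply Int.iff | with_reducible apply Int.ne | with_reducible apply Int.eq | with_reducible apply Int.mem | with_reducible apply Int.subset | with_reducible apply Int.ltN | with_reducible apply Int.leN | with_reducible_and_instances apply Int.le | with_reducible_and_instances apply Int.lt | with_reducible apply Int.all | with_reducible apply Int.ex | with_reducible apply IntF.fst | with_reducible apply IntF.snd | with_reducible apply IntF.app | with_reducible apply IntF.inl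 | with_reducible apply IntF.inr | with_reducible_and_instances apply IntF.mul | with_reducible_and_instances apply IntF.inv | with_reducible_and_instances apply IntF.add | with_reducible_and_instances apply IntF.sub | with_reducible_and_instances apply IntF.neg | with_reducible_and_instances apply IntF.smul | with_reducible apply Int.fin | with_reducible apply IntF.sep | with_reducible apply IntF.lam | with_reducible apply IntF.insert | with_reducible apply IntF.singleton | with_reducible apply IntF.union | with_reducible apply IntF.iimage | with_reducible apply IntF.ite | with_reducible apply IntF.the | with_reducible apply IntF.irec | with_reducible apply IntF.succ | with_reducible apply IntF.val | with_reducible apply IntF.mk | (with_reducible refine Int.comp ?_ ?_; assumption) | (with_reducible refine Int.comp₂ ?_ ?_ ?_; assumption) | (with_reducible refine Int.comp₃ ?_ ?_ ?_ ?_; assumption) | (with_reducible refine Int.comp₄ ?_ ?_ ?_ ?_ ?_; assumption) | (with_reducible refine IntF.comp ?_ ?_; assumption) | (with_reducible refine IntF.comp₂ ?_ ?_ ?_; assumption) | (with_reducible refine IntF.comp₃ ?_ ?_ ?_ ?_; assumption) | with_reducible apply IntF.pair)))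 ?_ ?_
    · by_contra hc
      exact h5 1 hone' (Or.inl ⟨0, hone, hc⟩)
    · intro k hk
      by_contra hc
      exact h6 k (tp k) (ht3 k) (Or.inl ⟨k, hk, ht2 k⟩) (Or.inl ⟨k.succ, ht1 k, hc⟩)
  · rcases lt_trichotomy k l with h | h | h
    · have := h3 _ _ h
      rw [hkl] at this
      exact absurd this (plt_irr _)
    · exact h
    · have := h3 _ _ h
      rw [hkl] at this
      exact absurd this (plt_irr _)

/-! ### Conjugation -/

/-- The image of a set. -/
noncomputable def gi (G : PX M) (t : IPow M (XX M)) : IPow M (XX M) := sep M fun y => G.1.2 y ∈ t

theorem mem_gi {G : PX M} {t : IPow M (XX M)} {y : XX M} : y ∈ gi G t ↔ G.1.2 y ∈ t :=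
  mem_sep (by (repeat' (first | with_reducible exact IntF.id | with_reducible exact IntF.fst' | with_reducible exact IntF.snd' | with_reducible exact IntF.const _ | with_reducible exact Int.const _ | assumption | with_reducible apply Int.and | with_reducible apply Int.or | with_reducible apply Int.not | with_reducible apply Int.imp | with_reducible apply Int.iff | with_reducible apply Int.ne | with_reducible apply Int.eq | with_reducible apply Int.mem | with_reducible apply Int.subset | with_reducible apply Int.ltN | with_reducible apply Int.leN | with_reducible_and_instances apply Int.le | with_reducible_and_instances apply Int.lt | with_reducible apply Int.all | with_reducible apply Int.ex | with_reducible apply IntF.fst | with_reducible apply IntF.snd | with_reducible apply IntF.app | with_reducible apply IntF.inl | with_reducible apply IntF.inr | with_reducible_and_instances apply IntF.mul | with_reducible_and_instances apply IntF.inv | with_reducible_and_instances apply IntF.add | with_reducible_and_instances apply IntF.sub | with_reducible_and_instances apply IntF.neg | with_reducible_and_instances apply IntF.smul | with_reducible apply Int.fin | with_reducible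 apply IntF.sep | with_reducible apply IntF.lam | with_reducible apply IntF.insert | with_reducible apply IntF.singleton | with_reducible apply IntF.union | with_reducible apply IntF.iimage | with_reducible apply IntF.ite | with_reducible apply IntF.the | with_reducible apply IntF.irec | with_reducible apply IntF.succ | with_reducible apply IntF.val | with_reducible apply IntF.mk | (with_reducible refine Int.comp ?_ ?_; assumption) | (with_reducible refine Int.comp₂ ?_ ?_ ?_; assumption) | (with_reducible refine Int.comp₃ ?_ ?_ ?_ ?_; assumption) | (with_reducible refine Int.comp₄ ?_ ?_ ?_ ?_ ?_; assumption) | (with_reducible refine IntF.comp ?_ ?_; assumption) | (with_reducible refine IntF.comp₂ ?_ ?_ ?_; assumption) | (with_reducible refine IntF.comp₃ ?_ ?_ ?_ ?_; assumption) | with_reducible apply IntF.pair)))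

theorem R2.conj {G : PX M} (hG : BP G) {t : IPow M (XX M)} {π : PX M} (h : R2 t π) :
    R2 (gi G t) (G * π * G⁻¹) := by
  obtain ⟨w, a, h1, h2, h3⟩ := h
  refine ⟨G.1.1 w, G.1.1 a, fun h => h1 ((hG _ _).2 h), fun p => ?_, fun p => ?_⟩
  · rw [mem_gi, h2]
    refine or_congr (and_congr ?_ (not_congr ?_)) ?_
    · rw [hG (G.1.2 p) w, PX.r]
    · exact ⟨fun h => by rw [← h, PX.r], fun h => by rw [h, PX.l]⟩
    · exact ⟨fun h => by rw [← h, PX.r], fun h => by rw [h, PX.l]⟩
  · rw [PX.conj, h3, pi2_map hG h1, PX.r]

theorem R3.conj {G : PX M} (hG : BP G) {t : IPow M (XX M)} {π : PX M} (h : R3 t π) :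
    R3 (gi G t) (G * π * G⁻¹) := by
  have h' := h
  obtain ⟨x, y, z, h1, h2, h3, h4, h5⟩ := h
  refine ⟨G.1.1 x, G.1.1 y, G.1.1 z, fun h => h1 ((hG _ _).2 h), fun h => h2 ((hG _ _).2 h),
    fun h => h3 ((hG _ _).2 h), fun p => ?_, fun p => ?_⟩
  · rw [mem_gi, h4]
    refine or_congr ?_ (or_congr ?_ ?_)
    all_goals exact ⟨fun h => by rw [← h, PX.r], fun h => by rw [h, PX.l]⟩
  · obtain ⟨q, rfl⟩ : ∃ q, G.1.1 q = p := ⟨_, PX.r G p⟩
    rw [PX.conj, PX.l, h5]
    have key : ∀ x : XX M, q.1 = x.1 → G.1.1 (q.1, th x.2 q.2) =
        ((G.1.1 q).1, th (G.1.1 x).2 (G.1.1 q).2) := fun x hx => hG.th hx.symm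
    unfold pi3
    by_cases hx : q.1 = x.1
    · rw [if_pos hx, if_pos ((hG _ _).1 hx), key x hx]
    · rw [if_neg hx, if_neg fun h => hx ((hG _ _).2 h)]
      by_cases hy : q.1 = y.1
      · rw [if_pos hy, if_pos ((hG _ _).1 hy), key y hy]
      · rw [if_neg hy, if_neg fun h => hy ((hG _ _).2 h)]
        by_cases hz : q.1 = z.1
        · rw [if_pos hz, if_pos ((hG _ _).1 hz), key z hz]
        · rw [if_neg hz, if_neg fun h => hz ((hG _ _).2 h)]

theorem exists_bd_map (G : PX M) (n : INat M) : ∃ m, ∀ x : XX M, x.1 < n → (G.1.1 x).1 < m := by
  obtain ⟨m, hm⟩ := FinP.bound' (p := fun x : XX M => x ∈ Xn n) ⟨_, fin_Xn n, fun _ h => h⟩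
    (v := fun x => (G.1.1 x).1) (by (repeat' (first | with_reducible exact IntF.id | with_reducible exact IntF.fst' | with_reducible exact IntF.snd' | with_reducible exact IntF.const _ | with_reducible exact Int.const _ | assumption | with_reducible apply Int.and | with_reducible apply Int.or | with_reducible apply Int.not | with_reducible apply Int.imp | with_reducible apply Int.iff | with_reducible apply Int.ne | with_reducible apply Int.eq | with_reducible apply Int.mem | with_reducible apply Int.subset | with_reducible apply Int.ltN | with_reducible apply Int.leN | with_reducible_and_instances apply Int.le | with_reducible_and_instances apply Int.lt | with_reducible apply Int.all | with_reducible apply Int.ex | with_reducible apply IntF.fst | with_reducible apply IntF.snd | with_reducible apply IntF.app | with_reducible apply IntF.inl | with_reducible apply IntF.inr | with_reducible_and_instances apply IntF.mul | with_reducible_and_instances apply IntF.inv | with_reducible_and_instances apply IntF.add | with_reducible_and_instances apply IntF.sub | with_reducible_and_instances apply IntF.neg | with_reducible_and_instances apply IntF.smul | with_reducible apply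 Int.fin | with_reducible apply IntF.sep | with_reducible apply IntF.lam | with_reducible apply IntF.insert | with_reducible apply IntF.singleton | with_reducible apply IntF.union | with_reducible apply IntF.iimage | with_reducible apply IntF.ite | with_reducible apply IntF.the | with_reducible apply IntF.irec | with_reducible apply IntF.succ | with_reducible apply IntF.val | with_reducible apply IntF.mk | (with_reducible refine Int.comp ?_ ?_; assumption) | (with_reducible refine Int.comp₂ ?_ ?_ ?_; assumption) | (with_reducible refine Int.comp₃ ?_ ?_ ?_ ?_; assumption) | (with_reducible refine Int.comp₄ ?_ ?_ ?_ ?_ ?_; assumption) | (with_reducible refine IntF.comp ?_ ?_; assumption) | (with_reducible refine IntF.comp₂ ?_ ?_ ?_; assumption) | (with_reducible refine IntF.comp₃ ?_ ?_ ?_ ?_; assumption) | with_reducible apply IntF.pair)))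
  exact ⟨m.succ, fun x hx => INat.lt_succ_iff.2 (hm x (mem_Xn.2 hx))⟩

theorem conj_conj (G π : PX M) : G⁻¹ * (G * π * G⁻¹) * G⁻¹⁻¹ = π := by group

theorem bd_conj (G : PX M) {π : PX M} {n : INat M} (h : Bd n π) : ∃ m, Bd m (G * π * G⁻¹) := by
  obtain ⟨m, hm⟩ := exists_bd_map G n
  refine ⟨m, fun y hy => ?_⟩
  rw [PX.conj]
  have h1 : n ≤ (G.1.2 y).1 := by
    by_contra hc
    have := hm _ (not_le.1 hc)
    rw [PX.r] at this
    exact absurd hy (not_le.2 this)
  rw [h _ h1, PX.r]

theorem NS.conj {G : PX M} (hG : BP G) {π : PX M} (h : NS π) : NS (G * π * G⁻¹) := by
  obtain ⟨⟨n, hn⟩, h2⟩ := h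
  refine ⟨bd_conj G hn, ?_⟩
  rintro ⟨t, h3⟩
  refine h2 ⟨gi G⁻¹ t, h3.imp (fun h => ?_) fun h => ?_⟩
  · have := R2.conj hG.inv h
    rwa [conj_conj] at this
  · have := R3.conj hG.inv h
    rwa [conj_conj] at this

/-- Agreement below `n`. -/
def Ag (n : INat M) (G G' : PX M) : Prop := ∀ x : XX M, x.1 < n → G.1.1 x = G'.1.1 x

theorem conj_eq {n : INat M} {G G' π : PX M} (h : Ag n G G') (hπ : Bd n π) :
    G * π * G⁻¹ = G' * π * G'⁻¹ := by
  refine IPerm.ext' fun y => ?_
  obtain ⟨x, rfl⟩ : ∃ x, G.1.1 x = y := ⟨_, PX.r G y⟩
  rw [PX.conj, PX.conj, PX.l]
  rcases lt_or_ge x.1 n with hx | hx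
  · rw [h x hx, PX.l, h _ (hπ.map hx)]
  · have h1 : n ≤ (G'.1.2 (G.1.1 x)).1 := by
      by_contra hc
      have h2 := h _ (not_le.1 hc)
      rw [PX.r] at h2
      have h3 := PX.inj G h2
      rw [h3] at hc
      exact hc hx
    rw [hπ x hx, hπ _ h1, PX.r]

end Pool.Agent.H310
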