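import Pool.Agent.H310R3.E3

/-!
# The group and the extension of permutations
-/

set_option maxHeartbeats 1000000
set_option linter.all false
set_option synthInstance.maxSize 2000

namespace Pool.Agent.H310

open FirstOrder FirstOrder.Language
open Pool.Agent.Helper672.ZFA
open Pool.Agent.Helper672.ZFA.H635 (IPerm)

universe u

variable {M : Type u} [L.Structure M] [hM : IsModel M]

variable (M) in
/-- The enumeration of the permutations that are not special. -/
structure CD where
  c : IFun M (INat M) (PX M)
  ns : ∀ k, NS (c k)
  bd : ∀ k, Bd k (c k)
  inj : ∀ k l, c k = c l → k = l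
  surj : ∀ π, NS π → ∃ k, c k = π

theorem exists_CD : Nonempty (CD M) := by
  obtain ⟨c, h1, h2, h3, h4, h5⟩ := exists_c (M := M)
  exact ⟨⟨⟨c, h1⟩, h2, h3, h4, h5⟩⟩

variable (C : CD M)

/-- The condition for the elements of the group. -/
def InH (G : PX M) : Prop := ∀ x : XX M, C.c (G.1.1 x).1 = G * C.c x.1 * G⁻¹

theorem int_InH : Int M (InH C) := by
  unfold InH
  (repeat' (first | with_reducible exact IntF.id | with_reducible exact IntF.fst' | with_reducible exact IntF.snd' | with_reducible exact IntF.const _ | with_reducible exact Int.const _ | assumption | with_reducible apply Int.and | with_reducible apply Int.or | with_reducible apply Int.not | with_reducible apply Int.imp | with_reducible apply Int.iff | with_reducible apply Int.ne | with_reducible apply Int.eq | with_reducible apply Int.mem | with_reducible apply Int.subset | with_reducible apply Int.ltN | with_reducible apply Int.leN | with_reducible_and_instances apply Int.le | with_reducible_and_instances apply Int.lt | with_reducible apply Int.all | with_reducible apply Int.ex | with_reducible apply IntF.fst | with_reducible apply IntF.snd | with_reducible apply IntF.app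 | with_reducible apply IntF.inl | with_reducible apply IntF.inr | with_reducible_and_instances apply IntF.mul | with_reducible_and_instances apply IntF.inv | with_reducible_and_instances apply IntF.add | with_reducible_and_instances apply IntF.sub | with_reducible_and_instances apply IntF.neg | with_reducible_and_instances apply IntF.smul | with_reducible apply Int.fin | with_reducible apply IntF.sep | with_reducible apply IntF.lam | with_reducible apply IntF.insert | with_reducible apply IntF.singleton | with_reducible apply IntF.union | with_reducible apply IntF.iimage | with_reducible apply IntF.ite | with_reducible apply IntF.the | with_reducible apply IntF.irec | with_reducible apply IntF.succ | with_reducible apply IntF.val | with_reducible apply IntF.mk | (with_reducible refine Int.comp ?_ ?_; assumption) | (with_reducible refine Int.comp₂ ?_ ?_ ?_; assumption) | (with_reducible refine Int.comp₃ ?_ ?_ ?_ ?_; assumption) | (with_reducible refine Int.comp₄ ?_ ?_ ?_ ?_ ?_; assumption) | (with_reducible refine IntF.comp ?_ ?_; assumption) | (with_reducible refine IntF.comp₂ ?_ ?_ ?_; assumption) | (with_reducible refine IntF.comp₃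 ?_ ?_ ?_ ?_; assumption) | with_reducible apply IntF.pair))

variable {C}

theorem InH.bp {G : PX M} (h : InH C G) : BP G := by
  intro x y
  constructor
  · intro hxy
    apply C.inj
    rw [h x, h y, hxy]
  · intro hxy
    apply C.inj
    have h1 := h x
    rw [hxy, h y] at h1
    exact (mul_left_cancel (mul_right_cancel h1)).symm

variable (C)

/-- The group. -/
def HG : Subgroup (PX M) where
  carrier := {G | InH C G}
  mul_mem' {a b} ha hb x := by
    rw [IPerm.mul_apply, ha, hb]
    group
  one_mem' x := by
    rw [IPerm.one_apply]
    group
  inv_mem' {a} ha x := by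
    have h := ha (a.1.2 x)
    rw [PX.r] at h
    change C.c (a.1.2 x).1 = _
    rw [h]
    group

/-- The relation of the step of the recursion. -/
def Rel (m : INat M) (τ : IFun M (Fin 3) (Fin 3)) (G G' : PX M) : Prop :=
  ∀ x : XX M, C.c (G'.1.1 x).1 = G * C.c x.1 * G⁻¹ ∧ (x.1 = m → (G'.1.1 x).2 = τ x.2) ∧
    (x.1 ≠ m → (G'.1.1 x).2 = x.2)

theorem int_Rel (m : INat M) (τ : IFun M (Fin 3) (Fin 3)) :
    Int M (fun q : PX M × PX M => Rel C m τ q.1 q.2) := by
  unfold Rel
  (repeat' (first | with_reducible exact IntF.id | with_reducible exact IntF.fst' | with_reducible exact IntF.snd' | with_reducible exact IntF.const _ | with_reducible exact Int.const _ | assumption | with_reducible apply Int.and | with_reducible apply Int.or | with_reducible apply Int.not | with_reducible apply Int.imp | with_reducible apply Int.iff | with_reducible apply Int.ne | with_reducible apply Int.eq | with_reducible apply Int.mem | with_reducible apply Int.subset | with_reducible apply Int.ltN | with_reducible apply Int.leN | with_reducible_and_instances apply Int.le | with_reducible_and_instances apply Int.lt | with_reducible apply Int.all | with_reducible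 apply Int.ex | with_reducible apply IntF.fst | with_reducible apply IntF.snd | with_reducible apply IntF.app | with_reducible apply IntF.inl | with_reducible apply IntF.inr | with_reducible_and_instances apply IntF.mul | with_reducible_and_instances apply IntF.inv | with_reducible_and_instances apply IntF.add | with_reducible_and_instances apply IntF.sub | with_reducible_and_instances apply IntF.neg | with_reducible_and_instances apply IntF.smul | with_reducible apply Int.fin | with_reducible apply IntF.sep | with_reducible apply IntF.lam | with_reducible apply IntF.insert | with_reducible apply IntF.singleton | with_reducible apply IntF.union | with_reducible apply IntF.iimage | with_reducible apply IntF.ite | with_reducible apply IntF.the | with_reducible apply IntF.irec | with_reducible apply IntF.succ | with_reducible apply IntF.val | with_reducible apply IntF.mk | (with_reducible refine Int.comp ?_ ?_; assumption) | (with_reducible refine Int.comp₂ ?_ ?_ ?_; assumption) | (with_reducible refine Int.comp₃ ?_ ?_ ?_ ?_; assumption) | (with_reducible refine Int.comp₄ ?_ ?_ ?_ ?_ ?_; assumption) | (with_reducible refine IntF.comp ?_ ?_;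 assumption) | (with_reducible refine IntF.comp₂ ?_ ?_ ?_; assumption) | (with_reducible refine IntF.comp₃ ?_ ?_ ?_ ?_; assumption) | with_reducible apply IntF.pair))

variable {C}

theorem Rel.unique {m : INat M} {τ : IFun M (Fin 3) (Fin 3)} {G G' G'' : PX M} (h : Rel C m τ G G')
    (h' : Rel C m τ G G'') : G' = G'' := by
  refine IPerm.ext' fun x => Prod.ext (C.inj _ _ ((h x).1.trans (h' x).1.symm)) ?_
  by_cases hx : x.1 = m
  · rw [(h x).2.1 hx, (h' x).2.1 hx]
  · rw [(h x).2.2 hx, (h' x).2.2 hx]

theorem Rel.bp {m : INat M} {τ : IFun M (Fin 3) (Fin 3)} {G G' : PX M} (h : Rel C m τ G G') : BP G' := by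
  intro x y
  constructor
  · intro hxy
    apply C.inj
    rw [(h x).1, (h y).1, hxy]
  · intro hxy
    apply C.inj
    have h1 := (h x).1
    rw [hxy, (h y).1] at h1
    exact (mul_left_cancel (mul_right_cancel h1)).symm

open Classical in
theorem Rel.exists {m : INat M} {τ τ' : IFun M (Fin 3) (Fin 3)} (h1 : ∀ i, τ (τ' i) = i)
    (h2 : ∀ i, τ' (τ i) = i) {G : PX M} (hG : BP G) : ∃ G', Rel C m τ G G' := by
  have ha : ∀ k, ∃ l, C.c l = G * C.c k * G⁻¹ := fun k => C.surj _ ((C.ns k).conj hG)
  have hb : ∀ k, ∃ l, C.c l = G⁻¹ * C.c k * G := fun k => by
    obtain ⟨l, hl⟩ := C.surj _ ((C.ns k).conj hG.inv)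
    exact ⟨l, by rw [hl, inv_inv]⟩
  obtain ⟨φ, hφ⟩ : ∃ φ : IFun M (INat M) (INat M), ∀ k, C.c (φ k) = G * C.c k * G⁻¹ := by
    choose φ hφ using ha
    refine ⟨⟨φ, IntF.of_rel (r := fun k l => C.c l = G * C.c k * G⁻¹) (by (repeat' (first | with_reducible exact IntF.id | with_reducible exact IntF.fst' | with_reducible exact IntF.snd' | with_reducible exact IntF.const _ | with_reducible exact Int.const _ | assumption | with_reducible apply Int.and | with_reducible apply Int.or | with_reducible apply Int.not | with_reducible apply Int.imp | with_reducible apply Int.iff | with_reducible apply Int.ne | with_reducible apply Int.eq | with_reducible apply Int.mem | with_reducible apply Int.subset | with_reducible apply Int.ltN | with_reducible apply Int.leN | with_reducible_and_instances apply Int.le | with_reducible_and_instances apply Int.lt | with_reducible apply Int.all | with_reducible apply Int.ex | with_reducible apply IntF.fst | with_reducible apply IntF.snd | with_reducible apply IntF.app | with_reducible apply IntF.inl | with_reducible apply IntF.inr | with_reducible_and_instances apply IntF.mul | with_reducible_and_instances apply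 IntF.inv | with_reducible_and_instances apply IntF.add | with_reducible_and_instances apply IntF.sub | with_reducible_and_instances apply IntF.neg | with_reducible_and_instances apply IntF.smul | with_reducible apply Int.fin | with_reducible apply IntF.sep | with_reducible apply IntF.lam | with_reducible apply IntF.insert | with_reducible apply IntF.singleton | with_reducible apply IntF.union | with_reducible apply IntF.iimage | with_reducible apply IntF.ite | with_reducible apply IntF.the | with_reducible apply IntF.irec | with_reducible apply IntF.succ | with_reducible apply IntF.val | with_reducible apply IntF.mk | (with_reducible refine Int.comp ?_ ?_; assumption) | (with_reducible refine Int.comp₂ ?_ ?_ ?_; assumption) | (with_reducible refine Int.comp₃ ?_ ?_ ?_ ?_; assumption) | (with_reducible refine Int.comp₄ ?_ ?_ ?_ ?_ ?_; assumption) | (with_reducible refine IntF.comp ?_ ?_; assumption) | (with_reducible refine IntF.comp₂ ?_ ?_ ?_; assumption) | (with_reducible refine IntF.comp₃ ?_ ?_ ?_ ?_; assumption) | with_reducible apply IntF.pair))) fun k l => ?_⟩, hφ⟩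
    exact ⟨fun h => C.inj _ _ ((hφ k).trans h.symm), fun h => h ▸ hφ k⟩
  obtain ⟨ψ, hψ⟩ : ∃ ψ : IFun M (INat M) (INat M), ∀ k, C.c (ψ k) = G⁻¹ * C.c k * G := by
    choose ψ hψ using hb
    refine ⟨⟨ψ, IntF.of_rel (r := fun k l => C.c l = G⁻¹ * C.c k * G) (by (repeat' (first | with_reducible exact IntF.id | with_reducible exact IntF.fst' | with_reducible exact IntF.snd' | with_reducible exact IntF.const _ | with_reducible exact Int.const _ | assumption | with_reducible apply Int.and | with_reducible apply Int.or | with_reducible apply Int.not | with_reducible apply Int.imp | with_reducible apply Int.iff | with_reducible apply Int.ne | with_reducible apply Int.eq | with_reducible apply Int.mem | with_reducible apply Int.subset | with_reducible apply Int.ltN | with_reducible apply Int.leN | with_reducible_and_instances apply Int.le | with_reducible_and_instances apply Int.lt | with_reducible apply Int.all | with_reducible apply Int.ex | with_reducible apply IntF.fst | with_reducible apply IntF.snd | with_reducible apply IntF.app | with_reducible apply IntF.inl | with_reducible apply IntF.inr | with_reducible_and_instances apply IntF.mul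 | with_reducible_and_instances apply IntF.inv | with_reducible_and_instances apply IntF.add | with_reducible_and_instances apply IntF.sub | with_reducible_and_instances apply IntF.neg | with_reducible_and_instances apply IntF.smul | with_reducible apply Int.fin | with_reducible apply IntF.sep | with_reducible apply IntF.lam | with_reducible apply IntF.insert | with_reducible apply IntF.singleton | with_reducible apply IntF.union | with_reducible apply IntF.iimage | with_reducible apply IntF.ite | with_reducible apply IntF.the | with_reducible apply IntF.irec | with_reducible apply IntF.succ | with_reducible apply IntF.val | with_reducible apply IntF.mk | (with_reducible refine Int.comp ?_ ?_; assumption) | (with_reducible refine Int.comp₂ ?_ ?_ ?_; assumption) | (with_reducible refine Int.comp₃ ?_ ?_ ?_ ?_; assumption) | (with_reducible refine Int.comp₄ ?_ ?_ ?_ ?_ ?_; assumption) | (with_reducible refine IntF.comp ?_ ?_; assumption) | (with_reducible refine IntF.comp₂ ?_ ?_ ?_; assumption) | (with_reducible refine IntF.comp₃ ?_ ?_ ?_ ?_; assumption) | with_reducible apply IntF.pair))) fun k l => ?_⟩, hψ⟩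
    exact ⟨fun h => C.inj _ _ ((hψ k).trans h.symm), fun h => h ▸ hψ k⟩
  have e1 : ∀ k, φ (ψ k) = k := fun k => C.inj _ _ (by rw [hφ, hψ]; group)
  have e2 : ∀ k, ψ (φ k) = k := fun k => C.inj _ _ (by rw [hψ, hφ]; group)
  have f1 : IntF M (fun x : XX M => (φ x.1, if x.1 = m then τ x.2 else x.2)) := by (repeat' (first | with_reducible exact IntF.id | with_reducible exact IntF.fst' | with_reducible exact IntF.snd' | with_reducible exact IntF.const _ | with_reducible exact Int.const _ | assumption | with_reducible apply Int.and | with_reducible apply Int.or | with_reducible apply Int.not | with_reducible apply Int.imp | with_reducible apply Int.iff | with_reducible apply Int.ne | with_reducible apply Int.eq | with_reducible apply Int.mem | with_reducible apply Int.subset | with_reducible apply Int.ltN | with_reducible apply Int.leN | with_reducible_and_instances apply Int.le | with_reducible_and_instances apply Int.lt | with_reducible apply Int.all | with_reducible apply Int.ex | with_reducible apply IntF.fst | with_reducible apply IntF.snd | with_reducible apply IntF.app | with_reducible apply IntF.inl | with_reducible apply IntF.inr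 | with_reducible_and_instances apply IntF.mul | with_reducible_and_instances apply IntF.inv | with_reducible_and_instances apply IntF.add | with_reducible_and_instances apply IntF.sub | with_reducible_and_instances apply IntF.neg | with_reducible_and_instances apply IntF.smul | with_reducible apply Int.fin | with_reducible apply IntF.sep | with_reducible apply IntF.lam | with_reducible apply IntF.insert | with_reducible apply IntF.singleton | with_reducible apply IntF.union | with_reducible apply IntF.iimage | with_reducible apply IntF.ite | with_reducible apply IntF.the | with_reducible apply IntF.irec | with_reducible apply IntF.succ | with_reducible apply IntF.val | with_reducible apply IntF.mk | (with_reducible refine Int.comp ?_ ?_; assumption) | (with_reducible refine Int.comp₂ ?_ ?_ ?_; assumption) | (with_reducible refine Int.comp₃ ?_ ?_ ?_ ?_; assumption) | (with_reducible refine Int.comp₄ ?_ ?_ ?_ ?_ ?_; assumption) | (with_reducible refine IntF.comp ?_ ?_; assumption) | (with_reducible refine IntF.comp₂ ?_ ?_ ?_; assumption) | (with_reducible refine IntF.comp₃ ?_ ?_ ?_ ?_; assumption) | with_reducible apply IntF.pair))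
  have f2 : IntF M (fun x : XX M => (ψ x.1, if ψ x.1 = m then τ' x.2 else x.2)) := by (repeat' (first | with_reducible exact IntF.id | with_reducible exact IntF.fst' | with_reducible exact IntF.snd' | with_reducible exact IntF.const _ | with_reducible exact Int.const _ | assumption | with_reducible apply Int.and | with_reducible apply Int.or | with_reducible apply Int.not | with_reducible apply Int.imp | with_reducible apply Int.iff | with_reducible apply Int.ne | with_reducible apply Int.eq | with_reducible apply Int.mem | with_reducible apply Int.subset | with_reducible apply Int.ltN | with_reducible apply Int.leN | with_reducible_and_instances apply Int.le | with_reducible_and_instances apply Int.lt | with_reducible apply Int.all | with_reducible apply Int.ex | with_reducible apply IntF.fst | with_reducible apply IntF.snd | with_reducible apply IntF.app | with_reducible apply IntF.inl | with_reducible apply IntF.inr | with_reducible_and_instances apply IntF.mul | with_reducible_and_instances apply IntF.inv | with_reducible_and_instances apply IntF.add | with_reducible_and_instances apply IntF.sub | with_reducible_and_instances apply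 IntF.neg | with_reducible_and_instances apply IntF.smul | with_reducible apply Int.fin | with_reducible apply IntF.sep | with_reducible apply IntF.lam | with_reducible apply IntF.insert | with_reducible apply IntF.singleton | with_reducible apply IntF.union | with_reducible apply IntF.iimage | with_reducible apply IntF.ite | with_reducible apply IntF.the | with_reducible apply IntF.irec | with_reducible apply IntF.succ | with_reducible apply IntF.val | with_reducible apply IntF.mk | (with_reducible refine Int.comp ?_ ?_; assumption) | (with_reducible refine Int.comp₂ ?_ ?_ ?_; assumption) | (with_reducible refine Int.comp₃ ?_ ?_ ?_ ?_; assumption) | (with_reducible refine Int.comp₄ ?_ ?_ ?_ ?_ ?_; assumption) | (with_reducible refine IntF.comp ?_ ?_; assumption) | (with_reducible refine IntF.comp₂ ?_ ?_ ?_; assumption) | (with_reducible refine IntF.comp₃ ?_ ?_ ?_ ?_; assumption) | with_reducible apply IntF.pair))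
  refine ⟨⟨(⟨_, f1⟩, ⟨_, f2⟩), fun x => ?_, fun x => ?_⟩, fun x => ⟨hφ x.1, fun h => ?_,
    fun h => ?_⟩⟩
  · change (φ (ψ x.1), if ψ x.1 = m then τ (if ψ x.1 = m then τ' x.2 else x.2) else
      (if ψ x.1 = m then τ' x.2 else x.2)) = x
    rw [e1]
    refine Prod.ext rfl ?_
    by_cases h : ψ x.1 = m
    · simp only [if_pos h, h1]
    · simp only [if_neg h]
  · change (ψ (φ x.1), if ψ (φ x.1) = m then τ' (if x.1 = m then τ x.2 else x.2) else
      (if x.1 = m then τ x.2 else x.2)) = x
    rw [e2]
    refine Prod.ext rfl ?_
    by_cases h : x.1 = m
    · simp only [if_pos h, h2]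
    · simp only [if_neg h]
  · change (if x.1 = m then τ x.2 else x.2) = τ x.2
    rw [if_pos h]
  · change (if x.1 = m then τ x.2 else x.2) = x.2
    rw [if_neg h]

/-- The inverse. -/
theorem Rel.inv {m : INat M} {τ : IFun M (Fin 3) (Fin 3)} {G G' : PX M} (h : Rel C m τ G G')
    (x : XX M) : C.c (G'.1.2 x).1 = G⁻¹ * C.c x.1 * G ∧ ((G'.1.2 x).1 = m →
      x.2 = τ (G'.1.2 x).2) ∧ ((G'.1.2 x).1 ≠ m → x.2 = (G'.1.2 x).2) := by
  obtain ⟨h1, h2, h3⟩ := h (G'.1.2 x)
  rw [PX.r] at h1 h2 h3
  refine ⟨?_, h2, h3⟩
  rw [h1]
  group

/-- Contraction. -/
theorem Rel.ag {m : INat M} {τ : IFun M (Fin 3) (Fin 3)} {G₁ G₂ G₁' G₂' : PX M}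
    (h₁ : Rel C m τ G₁ G₁') (h₂ : Rel C m τ G₂ G₂') {n : INat M} (h : Ag n G₁ G₂) :
    Ag n.succ G₁' G₂' := by
  intro x hx
  have e : C.c (G₁'.1.1 x).1 = C.c (G₂'.1.1 x).1 := by
    rw [(h₁ x).1, (h₂ x).1]
    exact conj_eq h ((C.bd x.1).mono (INat.lt_succ_iff.1 hx))
  refine Prod.ext (C.inj _ _ e) ?_
  by_cases hxm : x.1 = m
  · rw [(h₁ x).2.1 hxm, (h₂ x).2.1 hxm]
  · rw [(h₁ x).2.2 hxm, (h₂ x).2.2 hxm]

theorem Rel.ag' {m : INat M} {τ : IFun M (Fin 3) (Fin 3)} (hτ : ∀ i j, τ i = τ j → i = j)
    {G₁ G₂ G₁' G₂' : PX M} (h₁ : Rel C m τ G₁ G₁') (h₂ : Rel C m τ G₂ G₂') {n : INat M}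
    (h : Ag n G₁⁻¹ G₂⁻¹) : Ag n.succ G₁'⁻¹ G₂'⁻¹ := by
  intro x hx
  change G₁'.1.2 x = G₂'.1.2 x
  obtain ⟨a1, a2, a3⟩ := h₁.inv x
  obtain ⟨b1, b2, b3⟩ := h₂.inv x
  have e : (G₁'.1.2 x).1 = (G₂'.1.2 x).1 := by
    apply C.inj
    rw [a1, b1]
    have := conj_eq h ((C.bd x.1).mono (INat.lt_succ_iff.1 hx))
    rwa [inv_inv, inv_inv] at this
  refine Prod.ext e ?_
  by_cases hxm : (G₁'.1.2 x).1 = m
  · exact hτ _ _ ((a2 hxm).symm.trans (b2 (e ▸ hxm)))
  · exact (a3 hxm).symm.trans (b3 (e ▸ hxm))

end Pool.Agent.H310
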