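import Pool.Agent.H310R3.E5

/-!
# The bijection between finitary permutations and triples
-/

set_option maxHeartbeats 1000000
set_option linter.all false
set_option synthInstance.maxSize 2000

namespace Pool.Agent.H310

open FirstOrder FirstOrder.Language
open Pool.Agent.Helper672.ZFA
open Pool.Agent.Helper672.ZFA.H635 (IPerm)

universe u

variable {M : Type u} [L.Structure M] [hM : IsModel M] (C : CD M)

/-- The blocks and the permutations that are not special. -/
def R1 (t : IPow M (XX M)) (π : PX M) : Prop := ∃ k, (∀ p, p ∈ t ↔ p.1 = k) ∧ C.c k = π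

/-- The graph of the bijection. -/
def RR (t : IPow M (XX M)) (π : PX M) : Prop := R1 C t π ∨ R2 t π ∨ R3 t π

theorem int_RR : Int M (fun q : IPow M (XX M) × PX M => RR C q.1 q.2) := by
  have h2 := int_R2 (M := M)
  have h3 := int_R3 (M := M)
  unfold RR R1
  (repeat' (first | with_reducible exact IntF.id | with_reducible exact IntF.fst' | with_reducible exact IntF.snd' | with_reducible exact IntF.const _ | with_reducible exact Int.const _ | assumption | with_reducible apply Int.and | with_reducible apply Int.or | with_reducible apply Int.not | with_reducible apply Int.imp | with_reducible apply Int.iff | with_reducible apply Int.ne | with_reducible apply Int.eq | with_reducible apply Int.mem | with_reducible apply Int.subset | with_reducible apply Int.ltN | with_reducible apply Int.leN | with_reducible_and_instances apply Int.le | with_reducible_and_instances apply Int.lt | with_reducible apply Int.all | with_reducible apply Int.ex | with_reducible apply IntF.fst | with_reducible apply IntF.snd | with_reducible apply IntF.app | with_reducible apply IntF.inl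 | with_reducible apply IntF.inr | with_reducible_and_instances apply IntF.mul | with_reducible_and_instances apply IntF.inv | with_reducible_and_instances apply IntF.add | with_reducible_and_instances apply IntF.sub | with_reducible_and_instances apply IntF.neg | with_reducible_and_instances apply IntF.smul | with_reducible apply Int.fin | with_reducible apply IntF.sep | with_reducible apply IntF.lam | with_reducible apply IntF.insert | with_reducible apply IntF.singleton | with_reducible apply IntF.union | with_reducible apply IntF.iimage | with_reducible apply IntF.ite | with_reducible apply IntF.the | with_reducible apply IntF.irec | with_reducible apply IntF.succ | with_reducible apply IntF.val | with_reducible apply IntF.mk | (with_reducible refine Int.comp ?_ ?_; assumption) | (with_reducible refine Int.comp₂ ?_ ?_ ?_; assumption) | (with_reducible refine Int.comp₃ ?_ ?_ ?_ ?_; assumption) | (with_reducible refine Int.comp₄ ?_ ?_ ?_ ?_ ?_; assumption) | (with_reducible refine IntF.comp ?_ ?_; assumption) | (with_reducible refine IntF.comp₂ ?_ ?_ ?_;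 assumption) | (with_reducible refine IntF.comp₃ ?_ ?_ ?_ ?_; assumption) | with_reducible apply IntF.pair))

/-- Sets of three elements. -/
def Tri (t : IPow M (XX M)) : Prop :=
  ∃ x y z : XX M, x ≠ y ∧ x ≠ z ∧ y ≠ z ∧ ∀ p, p ∈ t ↔ p = x ∨ p = y ∨ p = z

variable {C}

theorem fin3_or {i j k : Fin 3} (h1 : i ≠ j) (h2 : i ≠ k) (h3 : j ≠ k) (l : Fin 3) :
    l = i ∨ l = j ∨ l = k := by
  revert i j k l
  decide

theorem fin3_or' {i j l : Fin 3} (h1 : i ≠ j) : l ≠ th i j ↔ l = i ∨ l = j := by
  revert i j l
  decide

theorem fin3_a {i : Fin 3} : i + 1 ≠ i ∧ i + 2 ≠ i ∧ i + 1 ≠ i + 2 := by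
  revert i
  decide

section R2

variable {t : IPow M (XX M)} {w a : XX M} (h : w.1 ≠ a.1)
  (ht : ∀ p, p ∈ t ↔ (p.1 = w.1 ∧ p ≠ w) ∨ p = a)

include ht in
theorem R2.b1 : ((w.1, w.2 + 1) : XX M) ∈ t :=
  (ht _).2 (Or.inl ⟨rfl, fun h => fin3_a.1 (congrArg Prod.snd h)⟩)

include ht in
theorem R2.b2 : ((w.1, w.2 + 2) : XX M) ∈ t :=
  (ht _).2 (Or.inl ⟨rfl, fun h => fin3_a.2.1 (congrArg Prod.snd h)⟩)

theorem R2.b12 : ((w.1, w.2 + 1) : XX M) ≠ (w.1, w.2 + 2) :=
  fun h => fin3_a.2.2 (congrArg Prod.snd h)

include h ht in
theorem R2.wa {w' a' : XX M} (h' : w'.1 ≠ a'.1)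
    (ht' : ∀ p, p ∈ t ↔ (p.1 = w'.1 ∧ p ≠ w') ∨ p = a') : w = w' ∧ a = a' := by
  have ha : a = a' := by
    by_contra hc
    have h1 := ((ht' a).1 ((ht a).2 (Or.inr rfl))).resolve_right hc
    have h2 : ∀ b : XX M, b ∈ t → b.1 = w.1 → b = a' := fun b hb hbw =>
      ((ht' b).1 hb).resolve_left fun h3 => h (hbw.symm.trans (h3.1.trans h1.1.symm))
    exact R2.b12 ((h2 _ (R2.b1 ht) rfl).trans (h2 _ (R2.b2 ht) rfl).symm)
  subst ha
  refine ⟨?_, rfl⟩
  have h2 : ∀ b : XX M, b ∈ t → b.1 = w.1 → b.1 = w'.1 ∧ b ≠ w' := fun b hb hbw =>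
    ((ht' b).1 hb).resolve_right fun h3 => h (hbw.symm.trans (by rw [h3]))
  have h3 := h2 _ (R2.b1 ht) rfl
  have h4 := h2 _ (R2.b2 ht) rfl
  have h5 : w'.1 = w.1 := h3.1.symm
  have h6 : w'.2 ≠ w.2 + 1 := fun h7 => h3.2 (Prod.ext h5.symm h7.symm)
  have h7 : w'.2 ≠ w.2 + 2 := fun h8 => h4.2 (Prod.ext h5.symm h8.symm)
  refine Prod.ext h5.symm ?_
  revert h6 h7
  generalize w.2 = i
  generalize w'.2 = j
  revert i j
  decide

end R2

theorem RR.tri {t : IPow M (XX M)} {π : PX M} (h : RR C t π) : Tri t := by
  rcases h with ⟨k, h1, -⟩ | ⟨w, a, h1, h2, -⟩ | ⟨x, y, z, h1, h2, h3, h4, -⟩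
  · refine ⟨(k, 0), (k, 1), (k, 2), fun h => ?_, fun h => ?_, fun h => ?_, fun p => ?_⟩
    · exact absurd (show (0 : Fin 3) = 1 from congrArg Prod.snd h) (by decide)
    · exact absurd (show (0 : Fin 3) = 2 from congrArg Prod.snd h) (by decide)
    · exact absurd (show (1 : Fin 3) = 2 from congrArg Prod.snd h) (by decide)
    · rw [h1]
      constructor
      · intro h
        rcases fin3_or (i := 0) (j := 1) (k := 2) (by decide) (by decide) (by decide) p.2 with
          h2 | h2 | h2
        · exact Or.inl (Prod.ext h h2)
        · exact Or.inr (Or.inl (Prod.ext h h2))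
        · exact Or.inr (Or.inr (Prod.ext h h2))
      · rintro (rfl | rfl | rfl) <;> rfl
  · refine ⟨(w.1, w.2 + 1), (w.1, w.2 + 2), a, R2.b12, fun h => ?_, fun h => ?_, fun p => ?_⟩
    · exact h1 (by rw [← h])
    · exact h1 (by rw [← h])
    · rw [h2]
      constructor
      · rintro (⟨h3, h4⟩ | h3)
        · have h5 : p.2 ≠ w.2 := fun h5 => h4 (Prod.ext h3 h5)
          have h6 : p.2 = w.2 + 1 ∨ p.2 = w.2 + 2 := by
            revert h5
            generalize w.2 = i
            generalize p.2 = j
            revert i j
            decide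
          rcases h6 with h6 | h6
          · exact Or.inl (Prod.ext h3 h6)
          · exact Or.inr (Or.inl (Prod.ext h3 h6))
        · exact Or.inr (Or.inr h3)
      · rintro (h3 | h3 | h3)
        · rw [h3]
          exact Or.inl ⟨rfl, fun h => fin3_a.1 (congrArg Prod.snd h)⟩
        · rw [h3]
          exact Or.inl ⟨rfl, fun h => fin3_a.2.1 (congrArg Prod.snd h)⟩
        · exact Or.inr h3
  · exact ⟨x, y, z, fun h => h1 (by rw [h]), fun h => h2 (by rw [h]), fun h => h3 (by rw [h]), h4⟩

theorem RR.bd {t : IPow M (XX M)} {π : PX M} (h : RR C t π) : ∃ n, Bd n π := by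
  rcases h with ⟨k, h1, rfl⟩ | ⟨w, a, h1, h2, h3⟩ | ⟨x, y, z, h1, h2, h3, h4, h5⟩
  · exact ⟨k, C.bd k⟩
  · refine ⟨(max w.1 a.1).succ, fun p hp => ?_⟩
    rw [h3]
    have h4 := INat.succ_le_iff.1 hp
    refine pi2_out (fun h => ?_) fun h => ?_
    · rw [h] at h4
      exact absurd (le_max_left _ _) (not_le.2 h4)
    · rw [h] at h4
      exact absurd (le_max_right _ _) (not_le.2 h4)
  · refine ⟨(max (max x.1 y.1) z.1).succ, fun p hp => ?_⟩
    rw [h5]
    have h6 := INat.succ_le_iff.1 hp
    unfold pi3
    rw [if_neg, if_neg, if_neg]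
    · intro h
      rw [h] at h6
      exact absurd (le_max_right _ _) (not_le.2 h6)
    · intro h
      rw [h] at h6
      exact absurd ((le_max_right _ _).trans (le_max_left _ _)) (not_le.2 h6)
    · intro h
      rw [h] at h6
      exact absurd ((le_max_left _ _).trans (le_max_left _ _)) (not_le.2 h6)

theorem exists_R2 {t : IPow M (XX M)} {x y z : XX M} (hxy : x.1 = y.1) (hne : x ≠ y)
    (hz : z.1 ≠ x.1) (ht : ∀ p, p ∈ t ↔ p = x ∨ p = y ∨ p = z) : ∃ π, R2 t π := by
  have h1 : x.2 ≠ y.2 := fun h => hne (Prod.ext hxy h)
  have h2 : (x.1, th x.2 y.2).1 ≠ z.1 := fun h => hz h.symm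
  obtain ⟨π, hπ, -⟩ := exists_inv (f := pi2 (x.1, th x.2 y.2) z) (by (repeat' (first | with_reducible apply IntF.pi2 | with_reducible exact IntF.id | with_reducible exact IntF.fst' | with_reducible exact IntF.snd' | with_reducible exact IntF.const _ | with_reducible exact Int.const _ | assumption | with_reducible apply Int.and | with_reducible apply Int.or | with_reducible apply Int.not | with_reducible apply Int.imp | with_reducible apply Int.iff | with_reducible apply Int.ne | with_reducible apply Int.eq | with_reducible apply Int.mem | with_reducible apply Int.subset | with_reducible apply Int.ltN | with_reducible apply Int.leN | with_reducible_and_instances apply Int.le | with_reducible_and_instances apply Int.lt | with_reducible apply Int.all | with_reducible apply Int.ex | with_reducible apply IntF.fst | with_reducible apply IntF.snd | with_reducible apply IntF.app | with_reducible apply IntF.inl | with_reducible apply IntF.inr | with_reducible_and_instances apply IntF.mul | with_reducible_and_instances apply IntF.inv | with_reducible_and_instances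 apply IntF.add | with_reducible_and_instances apply IntF.sub | with_reducible_and_instances apply IntF.neg | with_reducible_and_instances apply IntF.smul | with_reducible apply Int.fin | with_reducible apply IntF.sep | with_reducible apply IntF.lam | with_reducible apply IntF.insert | with_reducible apply IntF.singleton | with_reducible apply IntF.union | with_reducible apply IntF.iimage | with_reducible apply IntF.ite | with_reducible apply IntF.the | with_reducible apply IntF.irec | with_reducible apply IntF.succ | with_reducible apply IntF.val | with_reducible apply IntF.mk | (with_reducible refine Int.comp ?_ ?_; assumption) | (with_reducible refine Int.comp₂ ?_ ?_ ?_; assumption) | (with_reducible refine Int.comp₃ ?_ ?_ ?_ ?_; assumption) | (with_reducible refine Int.comp₄ ?_ ?_ ?_ ?_ ?_; assumption) | (with_reducible refine IntF.comp ?_ ?_; assumption) | (with_reducible refine IntF.comp₂ ?_ ?_ ?_; assumption) | (with_reducible refine IntF.comp₃ ?_ ?_ ?_ ?_; assumption) | with_reducible apply IntF.pair))) (pi2_pi2 h2)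
  refine ⟨π, _, _, h2, fun p => ?_, hπ⟩
  rw [ht, ← or_assoc]
  refine or_congr_left ?_
  constructor
  · rintro (rfl | rfl)
    · exact ⟨rfl, fun h => th_ne_left h1 (congrArg Prod.snd h).symm⟩
    · exact ⟨hxy.symm, fun h => th_ne_right h1 (congrArg Prod.snd h).symm⟩
  · rintro ⟨h3, h4⟩
    have h5 : p.2 ≠ th x.2 y.2 := fun h5 => h4 (Prod.ext h3 h5)
    rcases (fin3_or' h1).1 h5 with h6 | h6
    · exact Or.inl (Prod.ext h3 h6)
    · exact Or.inr (Prod.ext (h3.trans hxy) h6)

theorem exists_RR {t : IPow M (XX M)} (h : Tri t) : ∃ π, RR C t π := by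
  obtain ⟨x, y, z, h1, h2, h3, h4⟩ := h
  by_cases hxy : x.1 = y.1
  · by_cases hxz : x.1 = z.1
    · refine ⟨C.c x.1, Or.inl ⟨x.1, fun p => ?_, rfl⟩⟩
      rw [h4]
      constructor
      · rintro (rfl | rfl | rfl)
        · rfl
        · exact hxy.symm
        · exact hxz.symm
      · intro h5
        rcases fin3_or (fun h => h1 (Prod.ext hxy h)) (fun h => h2 (Prod.ext hxz h))
          (fun h => h3 (Prod.ext (hxy.symm.trans hxz) h)) p.2 with h6 | h6 | h6
        · exact Or.inl (Prod.ext h5 h6)
        · exact Or.inr (Or.inl (Prod.ext (h5.trans hxy) h6))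
        · exact Or.inr (Or.inr (Prod.ext (h5.trans hxz) h6))
    · obtain ⟨π, hπ⟩ := exists_R2 hxy h1 (fun h => hxz h.symm) h4
      exact ⟨π, Or.inr (Or.inl hπ)⟩
  · by_cases hxz : x.1 = z.1
    · obtain ⟨π, hπ⟩ := exists_R2 (t := t) (z := y) hxz h2 (fun h => hxy h.symm) fun p => by
        rw [h4]
        tauto
      exact ⟨π, Or.inr (Or.inl hπ)⟩
    · by_cases hyz : y.1 = z.1
      · obtain ⟨π, hπ⟩ := exists_R2 (t := t) (z := x) hyz h3 hxy fun p => by
          rw [h4]
          tauto
        exact ⟨π, Or.inr (Or.inl hπ)⟩
      · obtain ⟨π, hπ, -⟩ := exists_inv (f := pi3 x y z) (by (repeat' (first | with_reducible apply IntF.pi3 | with_reducible exact IntF.id | with_reducible exact IntF.fst' | with_reducible exact IntF.snd' | with_reducible exact IntF.const _ | with_reducible exact Int.const _ | assumption | with_reducible apply Int.and | with_reducible apply Int.or | with_reducible apply Int.not | with_reducible apply Int.imp | with_reducible apply Int.iff | with_reducible apply Int.ne | with_reducible apply Int.eq | with_reducible apply Int.mem | with_reducible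 apply Int.subset | with_reducible apply Int.ltN | with_reducible apply Int.leN | with_reducible_and_instances apply Int.le | with_reducible_and_instances apply Int.lt | with_reducible apply Int.all | with_reducible apply Int.ex | with_reducible apply IntF.fst | with_reducible apply IntF.snd | with_reducible apply IntF.app | with_reducible apply IntF.inl | with_reducible apply IntF.inr | with_reducible_and_instances apply IntF.mul | with_reducible_and_instances apply IntF.inv | with_reducible_and_instances apply IntF.add | with_reducible_and_instances apply IntF.sub | with_reducible_and_instances apply IntF.neg | with_reducible_and_instances apply IntF.smul | with_reducible apply Int.fin | with_reducible apply IntF.sep | with_reducible apply IntF.lam | with_reducible apply IntF.insert | with_reducible apply IntF.singleton | with_reducible apply IntF.union | with_reducible apply IntF.iimage | with_reducible apply IntF.ite | with_reducible apply IntF.the | with_reducible apply IntF.irec | with_reducible apply IntF.succ | with_reducible apply IntF.val | with_reducible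 apply IntF.mk | (with_reducible refine Int.comp ?_ ?_; assumption) | (with_reducible refine Int.comp₂ ?_ ?_ ?_; assumption) | (with_reducible refine Int.comp₃ ?_ ?_ ?_ ?_; assumption) | (with_reducible refine Int.comp₄ ?_ ?_ ?_ ?_ ?_; assumption) | (with_reducible refine IntF.comp ?_ ?_; assumption) | (with_reducible refine IntF.comp₂ ?_ ?_ ?_; assumption) | (with_reducible refine IntF.comp₃ ?_ ?_ ?_ ?_; assumption) | with_reducible apply IntF.pair))) (pi3_pi3 x y z)
        exact ⟨π, Or.inr (Or.inr ⟨x, y, z, hxy, hxz, hyz, h4, hπ⟩)⟩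

theorem RR.unique {t : IPow M (XX M)} {π π' : PX M} (h : RR C t π) (h' : RR C t π') : π = π' := by
  have h12 : ∀ {π π' : PX M}, R1 C t π → R2 t π' → False := by
    rintro π π' ⟨k, h1, -⟩ ⟨w, a, h2, h3, -⟩
    exact h2 (((h1 _).1 (R2.b1 h3)).trans ((h1 _).1 ((h3 a).2 (Or.inr rfl))).symm)
  have h13 : ∀ {π π' : PX M}, R1 C t π → R3 t π' → False := by
    rintro π π' ⟨k, h1, -⟩ h2
    exact absurd (show (0 : Fin 3) = 1 from congrArg Prod.snd (h2.same ((h1 (k, 0)).2 rfl)
      ((h1 (k, 1)).2 rfl) rfl)) (by decide)
  have h23 : ∀ {π π' : PX M}, R2 t π → R3 t π' → False := by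
    rintro π π' ⟨w, a, h2, h3, -⟩ h
    exact R2.b12 (h.same (R2.b1 h3) (R2.b2 h3) rfl)
  rcases h with h | h | h <;> rcases h' with h' | h' | h'
  · obtain ⟨k, h1, rfl⟩ := h
    obtain ⟨l, h2, rfl⟩ := h'
    have : k = l := (h2 (k, 0)).1 ((h1 (k, 0)).2 rfl)
    rw [this]
  · exact (h12 h h').elim
  · exact (h13 h h').elim
  · exact (h12 h' h).elim
  · obtain ⟨w, a, h1, h2, h3⟩ := h
    obtain ⟨w', a', h1', h2', h3'⟩ := h'
    obtain ⟨rfl, rfl⟩ := R2.wa h1 h2 h1' h2'
    exact IPerm.ext' fun p => by rw [h3, h3']
  · exact (h23 h h').elim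
  · exact (h13 h' h).elim
  · exact (h23 h' h).elim
  · refine IPerm.ext' fun p => ?_
    by_cases hp : ∃ x, x ∈ t ∧ p.1 = x.1
    · obtain ⟨x, hx, hpx⟩ := hp
      rw [h.mem hx hpx, h'.mem hx hpx]
    · push Not at hp
      rw [h.not_mem hp, h'.not_mem hp]

theorem exists_RR' {π : PX M} (h : ∃ n, Bd n π) : ∃ t, RR C t π := by
  by_cases hc : ∃ t, R2 t π ∨ R3 t π
  · obtain ⟨t, ht⟩ := hc
    exact ⟨t, Or.inr ht⟩
  · obtain ⟨k, hk⟩ := C.surj π ⟨h, hc⟩
    exact ⟨sep M fun p => p.1 = k, Or.inl ⟨k, fun p => mem_sep (by (repeat' (first | with_reducible exact IntF.id | with_reducible exact IntF.fst' | with_reducible exact IntF.snd' | with_reducible exact IntF.const _ | with_reducible exact Int.const _ | assumption | with_reducible apply Int.and | with_reducible apply Int.or | with_reducible apply Int.not | with_reducible apply Int.imp | with_reducible apply Int.iff | with_reducible apply Int.ne | with_reducible apply Int.eq | with_reducible apply Int.mem | with_reducible apply Int.subset | with_reducible apply Int.ltN | with_reducible apply Int.leN | with_reducible_and_instances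 apply Int.le | with_reducible_and_instances apply Int.lt | with_reducible apply Int.all | with_reducible apply Int.ex | with_reducible apply IntF.fst | with_reducible apply IntF.snd | with_reducible apply IntF.app | with_reducible apply IntF.inl | with_reducible apply IntF.inr | with_reducible_and_instances apply IntF.mul | with_reducible_and_instances apply IntF.inv | with_reducible_and_instances apply IntF.add | with_reducible_and_instances apply IntF.sub | with_reducible_and_instances apply IntF.neg | with_reducible_and_instances apply IntF.smul | with_reducible apply Int.fin | with_reducible apply IntF.sep | with_reducible apply IntF.lam | with_reducible apply IntF.insert | with_reducible apply IntF.singleton | with_reducible apply IntF.union | with_reducible apply IntF.iimage | with_reducible apply IntF.ite | with_reducible apply IntF.the | with_reducible apply IntF.irec | with_reducible apply IntF.succ | with_reducible apply IntF.val | with_reducible apply IntF.mk | (with_reducible refine Int.comp ?_ ?_; assumption) | (with_reducible refine Int.comp₂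 ?_ ?_ ?_; assumption) | (with_reducible refine Int.comp₃ ?_ ?_ ?_ ?_; assumption) | (with_reducible refine Int.comp₄ ?_ ?_ ?_ ?_ ?_; assumption) | (with_reducible refine IntF.comp ?_ ?_; assumption) | (with_reducible refine IntF.comp₂ ?_ ?_ ?_; assumption) | (with_reducible refine IntF.comp₃ ?_ ?_ ?_ ?_; assumption) | with_reducible apply IntF.pair))), hk⟩⟩

theorem RR.unique' {t t' : IPow M (XX M)} {π : PX M} (h : RR C t π) (h' : RR C t' π) :
    t = t' := by
  have h1 : ∀ {t t' : IPow M (XX M)}, R1 C t π → R2 t' π ∨ R3 t' π → False := by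
    rintro t t' ⟨k, -, rfl⟩ h2
    exact (C.ns k).2 ⟨t', h2⟩
  have h23 : ∀ {t t' : IPow M (XX M)}, R2 t π → R3 t' π → False := by
    rintro t t' ⟨w, a, h2, h3, h4⟩ h
    have := h.fst a
    rw [h4, pi2_a] at this
    exact h2 this
  rcases h with h | h | h <;> rcases h' with h' | h' | h'
  · obtain ⟨k, h1, h2⟩ := h
    obtain ⟨l, h3, h4⟩ := h'
    obtain rfl := C.inj k l (h2.trans h4.symm)
    exact IPow.ext' fun p => (h1 p).trans (h3 p).symm
  · exact (h1 h (Or.inl h')).elim
  · exact (h1 h (Or.inr h')).elim
  · exact (h1 h' (Or.inl h)).elim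
  · obtain ⟨w, a, h1, h2, h3⟩ := h
    obtain ⟨w', a', h1', h2', h3'⟩ := h'
    have e : ∀ p, pi2 w a p = pi2 w' a' p := fun p => by rw [← h3, ← h3']
    have ha : a = a' := by
      by_contra hc
      have h4 : a.1 = w'.1 := by
        by_contra h5
        have h6 := e a
        rw [pi2_out h5 hc, pi2_a] at h6
        exact h1 (by rw [h6])
      have h7 : ((a.1, a.2 + 1) : XX M) ≠ a := fun h8 => fin3_a.1 (congrArg Prod.snd h8)
      have h8 := e (a.1, a.2 + 1)
      rw [pi2_out (w := w) (a := a) (p := (a.1, a.2 + 1)) (fun h => h1 h.symm) h7] at h8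
      exact ((pi2_fix h1').1 h8.symm).1 h4
    subst ha
    have h4 := e a
    rw [pi2_a, pi2_a] at h4
    subst h4
    exact IPow.ext' fun p => (h2 p).trans (h2' p).symm
  · exact (h23 h h').elim
  · exact (h1 h' (Or.inr h)).elim
  · exact (h23 h' h).elim
  · exact IPow.ext' fun p => (h.iff p).trans (h'.iff p).symm

theorem RR.conj {G : PX M} (hG : G ∈ HG C) {t : IPow M (XX M)} {π : PX M} (h : RR C t π) :
    RR C (gi G t) (G * π * G⁻¹) := by
  have hG' : InH C G := hG
  rcases h with ⟨k, h1, rfl⟩ | h | h
  · refine Or.inl ⟨(G.1.1 (k, 0)).1, fun p => ?_, hG' (k, 0)⟩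
    rw [mem_gi, h1]
    have h2 := hG'.bp (G.1.2 p) (k, 0)
    rw [PX.r] at h2
    exact h2
  · exact Or.inr (Or.inl (R2.conj hG'.bp h))
  · exact Or.inr (Or.inr (R3.conj hG'.bp h))

end Pool.Agent.H310
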