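import Pool.Agent.H310R3.E7

/-!
# All permutations are finitary
-/

set_option maxHeartbeats 1000000
set_option linter.all false
set_option synthInstance.maxSize 2000

namespace Pool.Agent.Helper672.ZFA.H310M

open FirstOrder FirstOrder.Language
open Pool.Agent.Helper672.ZFA.H635 (IPerm SymSys IG WFI FEq FMem tw Good feq_of_map feq_iff IsGen
  nd nd_eq mem_nd mem_nd_nd exists_mk mk_eq_nd EqFam NN nn_ext CollL nn_zf mem_NN)
open Pool.Agent.Helper672.Plain (LSet)
open Pool.Agent.H310

universe u

variable {M : Type u} [L.Structure M] [hM : IsModel M] (C : CD M)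
variable {G : Set (Co M (XX M))} (hG : IsGen M G)

theorem exists_move' (m : INat M) (i : Fin 3) : ∃ g ∈ (EZ C).H, (∀ x : XX M, x.1 < m →
    g.1.1 x = x) ∧ ∀ j, g.1.1 (m, j) = (m, Pool.Agent.H310.th i j) := by
  obtain ⟨τ, hτ⟩ : ∃ τ : IFun M (Fin 3) (Fin 3), ∀ j, τ j = Pool.Agent.H310.th i j :=
    ⟨⟨_, IntF.fin3 (Pool.Agent.H310.th i)⟩, fun j => rfl⟩
  have h1 : ∀ j, τ (τ j) = j := fun j => by rw [hτ, hτ, th_th]
  obtain ⟨g, h2, h3, h4⟩ := exists_ext (C := C) m h1 h1
  exact ⟨g, h2, h3, fun j => by rw [h4, hτ]⟩

theorem finitary {f : NN (SS (EZ C)) hG}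
    (h1 : ∀ x, ∃ y, Mem (op (cc (EZ C) hG x) (cc (EZ C) hG y)) f)
    (h2 : ∀ x y y', Mem (op (cc (EZ C) hG x) (cc (EZ C) hG y)) f →
      Mem (op (cc (EZ C) hG x) (cc (EZ C) hG y')) f → y = y')
    (h3 : ∀ x x' y, Mem (op (cc (EZ C) hG x) (cc (EZ C) hG y)) f →
      Mem (op (cc (EZ C) hG x') (cc (EZ C) hG y)) f → x = x')
    (h4 : ∀ y, ∃ x, Mem (op (cc (EZ C) hG x) (cc (EZ C) hG y)) f) :
    ∃ π : FP M, ∀ x y, Mem (op (cc (EZ C) hG x) (cc (EZ C) hG y)) f ↔ π.1.1.1 x = y := by
  obtain ⟨E, hE⟩ := support hG f
  have hE' : ∀ g ∈ (EZ C).H, (∀ x, x ∈ E.1 → g.1.1 x = x) → ∀ x y,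
      Mem (op (cc (EZ C) hG x) (cc (EZ C) hG y)) f →
      Mem (op (cc (EZ C) hG (g.1.1 x)) (cc (EZ C) hG (g.1.1 y))) f := fun g hg hgE x y h =>
    hE _ _ _ _ (ef_pair C hG) g hg hgE (x, y) h
  obtain ⟨n, hn⟩ : ∃ n, ∀ x, x ∈ E.1 → x.1 < n := by
    obtain ⟨n, hn⟩ := FinP.bound' (p := fun x : XX M => x ∈ E.1) ⟨_, E.2, fun _ h => h⟩
      (v := fun x => x.1) (by (repeat' (first | with_reducible exact IntF.id | with_reducible exact IntF.fst' | with_reducible exact IntF.snd' | with_reducible exact IntF.const _ | with_reducible exact Int.const _ | assumption | with_reducible apply Int.and | with_reducible apply Int.or | with_reducible apply Int.not | with_reducible apply Int.imp | with_reducible apply Int.iff | with_reducible apply Int.ne | with_reducible apply Int.eq | with_reducible apply Int.mem | with_reducible apply Int.subset | with_reducible apply Int.ltN | with_reducible apply Int.leN | with_reducible_and_instances apply Int.le | with_reducible_and_instances apply Int.lt | with_reducible apply Int.all | with_reducible apply Int.ex | with_reducible apply IntF.fst |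 with_reducible apply IntF.snd | with_reducible apply IntF.app | with_reducible apply IntF.inl | with_reducible apply IntF.inr | with_reducible_and_instances apply IntF.mul | with_reducible_and_instances apply IntF.inv | with_reducible_and_instances apply IntF.add | with_reducible_and_instances apply IntF.sub | with_reducible_and_instances apply IntF.neg | with_reducible_and_instances apply IntF.smul | with_reducible apply Int.fin | with_reducible apply IntF.sep | with_reducible apply IntF.lam | with_reducible apply IntF.insert | with_reducible apply IntF.singleton | with_reducible apply IntF.union | with_reducible apply IntF.iimage | with_reducible apply IntF.ite | with_reducible apply IntF.the | with_reducible apply IntF.irec | with_reducible apply IntF.succ | with_reducible apply IntF.val | with_reducible apply IntF.mk | (with_reducible refine Int.comp ?_ ?_; assumption) | (with_reducible refine Int.comp₂ ?_ ?_ ?_; assumption) | (with_reducible refine Int.comp₃ ?_ ?_ ?_ ?_; assumption) | (with_reducible refine Int.comp₄ ?_ ?_ ?_ ?_ ?_; assumption) | (with_reducible refine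 IntF.comp ?_ ?_; assumption) | (with_reducible refine IntF.comp₂ ?_ ?_ ?_; assumption) | (with_reducible refine IntF.comp₃ ?_ ?_ ?_ ?_; assumption) | with_reducible apply IntF.pair)))
    exact ⟨n.succ, fun x hx => INat.lt_succ_iff.2 (hn x hx)⟩
  have key : ∀ x y, n ≤ x.1 → Mem (op (cc (EZ C) hG x) (cc (EZ C) hG y)) f → y = x := by
    intro x y hx hxy
    by_contra hne
    rcases lt_trichotomy y.1 x.1 with h | h | h
    · obtain ⟨g, hg, hg1, hg2⟩ := exists_move' C x.1 (x.2 + 1)
      have h5 := hE' g hg (fun z hz => hg1 z ((hn z hz).trans_le hx)) x y hxy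
      rw [hg1 y h] at h5
      have h6 := h3 _ _ _ h5 hxy
      rw [hg2 x.2] at h6
      have h7 := congrArg Prod.snd h6
      exact fin3_a.1 (th_eq_right.1 h7)
    · obtain ⟨g, hg, hg1, hg2⟩ := exists_move' C x.1 x.2
      have h5 := hE' g hg (fun z hz => hg1 z ((hn z hz).trans_le hx)) x y hxy
      have h6 : g.1.1 x = x := by
        have h7 := hg2 x.2
        rw [th_self] at h7
        exact h7
      rw [h6] at h5
      have h7 := h2 _ _ _ h5 hxy
      have h8 : g.1.1 y = (x.1, Pool.Agent.H310.th x.2 y.2) := by
        rw [← hg2 y.2, ← h]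
      rw [h8] at h7
      have h9 : x.2 = y.2 := th_eq_right.1 (congrArg Prod.snd h7)
      exact hne (Prod.ext h h9.symm)
    · obtain ⟨g, hg, hg1, hg2⟩ := exists_move' C y.1 (y.2 + 1)
      have h5 := hE' g hg (fun z hz => hg1 z ((hn z hz).trans_le (hx.trans h.le))) x y hxy
      rw [hg1 x h] at h5
      have h6 := h2 _ _ _ h5 hxy
      rw [hg2 y.2] at h6
      have h7 := congrArg Prod.snd h6
      exact fin3_a.1 (th_eq_right.1 h7)
  have key2 : ∀ x y, x.1 < n → Mem (op (cc (EZ C) hG x) (cc (EZ C) hG y)) f → y.1 < n := by
    intro x y hx hxy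
    by_contra hc
    obtain ⟨y', hy'⟩ := h1 y
    have h5 := key y y' (not_lt.1 hc) hy'
    rw [h5] at hy'
    have h6 := h3 _ _ _ hxy hy'
    rw [h6] at hx
    exact hc hx
  obtain ⟨t, ht⟩ := trace hG (ef_pair C hG) f ((fin_Xn n).prod (fin_Xn n))
  have hQ : ∀ x y, ((x.1 < n ∧ y.1 < n ∧ (x, y) ∈ t) ∨ (n ≤ x.1 ∧ y = x)) ↔
      Mem (op (cc (EZ C) hG x) (cc (EZ C) hG y)) f := by
    intro x y
    constructor
    · rintro (⟨hx, hy, h5⟩ | ⟨hx, rfl⟩)
      · exact (ht (x, y) (mem_iprod.2 ⟨mem_Xn.2 hx, mem_Xn.2 hy⟩)).1 h5
      · obtain ⟨z, hz⟩ := h1 y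
        have := key y z hx hz
        rwa [this] at hz
    · intro h5
      rcases lt_or_ge x.1 n with hx | hx
      · have hy := key2 x y hx h5
        exact Or.inl ⟨hx, hy, (ht (x, y) (mem_iprod.2 ⟨mem_Xn.2 hx, mem_Xn.2 hy⟩)).2 h5⟩
      · exact Or.inr ⟨hx, key x y hx h5⟩
  choose φ hφ using h1
  choose ψ hψ using h4
  have f1 : IntF M φ := by
    refine IntF.of_rel (r := fun x y => (x.1 < n ∧ y.1 < n ∧ (x, y) ∈ t) ∨ (n ≤ x.1 ∧ y = x))
      (by (repeat' (first | with_reducible exact IntF.id | with_reducible exact IntF.fst' | with_reducible exact IntF.snd' | with_reducible exact IntF.const _ | with_reducible exact Int.const _ | assumption | with_reducible apply Int.and | with_reducible apply Int.or | with_reducible apply Int.not | with_reducible apply Int.imp | with_reducible apply Int.iff | with_reducible apply Int.ne | with_reducible apply Int.eq | with_reducible apply Int.mem | with_reducible apply Int.subset | with_reducible apply Int.ltN | with_reducible apply Int.leN | with_reducible_and_instances apply Int.le | with_reducible_and_instances apply Int.lt | with_reducible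 apply Int.all | with_reducible apply Int.ex | with_reducible apply IntF.fst | with_reducible apply IntF.snd | with_reducible apply IntF.app | with_reducible apply IntF.inl | with_reducible apply IntF.inr | with_reducible_and_instances apply IntF.mul | with_reducible_and_instances apply IntF.inv | with_reducible_and_instances apply IntF.add | with_reducible_and_instances apply IntF.sub | with_reducible_and_instances apply IntF.neg | with_reducible_and_instances apply IntF.smul | with_reducible apply Int.fin | with_reducible apply IntF.sep | with_reducible apply IntF.lam | with_reducible apply IntF.insert | with_reducible apply IntF.singleton | with_reducible apply IntF.union | with_reducible apply IntF.iimage | with_reducible apply IntF.ite | with_reducible apply IntF.the | with_reducible apply IntF.irec | with_reducible apply IntF.succ | with_reducible apply IntF.val | with_reducible apply IntF.mk | (with_reducible refine Int.comp ?_ ?_; assumption) | (with_reducible refine Int.comp₂ ?_ ?_ ?_; assumption) | (with_reducible refine Int.comp₃ ?_ ?_ ?_ ?_; assumption) | (with_reducible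 refine Int.comp₄ ?_ ?_ ?_ ?_ ?_; assumption) | (with_reducible refine IntF.comp ?_ ?_; assumption) | (with_reducible refine IntF.comp₂ ?_ ?_ ?_; assumption) | (with_reducible refine IntF.comp₃ ?_ ?_ ?_ ?_; assumption) | with_reducible apply IntF.pair))) fun x y => (hQ x y).trans ⟨fun h => h2 _ _ _ (hφ x) h, fun h => h ▸ hφ x⟩
  have f2 : IntF M ψ := by
    refine IntF.of_rel (r := fun y x => (x.1 < n ∧ y.1 < n ∧ (x, y) ∈ t) ∨ (n ≤ x.1 ∧ y = x))
      (by (repeat' (first | with_reducible exact IntF.id | with_reducible exact IntF.fst' | with_reducible exact IntF.snd' | with_reducible exact IntF.const _ | with_reducible exact Int.const _ | assumption | with_reducible apply Int.and | with_reducible apply Int.or | with_reducible apply Int.not | with_reducible apply Int.imp | with_reducible apply Int.iff | with_reducible apply Int.ne | with_reducible apply Int.eq | with_reducible apply Int.mem | with_reducible apply Int.subset | with_reducible apply Int.ltN | with_reducible apply Int.leN | with_reducible_and_instances apply Int.le | with_reducible_and_instances apply Int.lt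 | with_reducible apply Int.all | with_reducible apply Int.ex | with_reducible apply IntF.fst | with_reducible apply IntF.snd | with_reducible apply IntF.app | with_reducible apply IntF.inl | with_reducible apply IntF.inr | with_reducible_and_instances apply IntF.mul | with_reducible_and_instances apply IntF.inv | with_reducible_and_instances apply IntF.add | with_reducible_and_instances apply IntF.sub | with_reducible_and_instances apply IntF.neg | with_reducible_and_instances apply IntF.smul | with_reducible apply Int.fin | with_reducible apply IntF.sep | with_reducible apply IntF.lam | with_reducible apply IntF.insert | with_reducible apply IntF.singleton | with_reducible apply IntF.union | with_reducible apply IntF.iimage | with_reducible apply IntF.ite | with_reducible apply IntF.the | with_reducible apply IntF.irec | with_reducible apply IntF.succ | with_reducible apply IntF.val | with_reducible apply IntF.mk | (with_reducible refine Int.comp ?_ ?_; assumption) | (with_reducible refine Int.comp₂ ?_ ?_ ?_; assumption) | (with_reducible refine Int.comp₃ ?_ ?_ ?_ ?_;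 assumption) | (with_reducible refine Int.comp₄ ?_ ?_ ?_ ?_ ?_; assumption) | (with_reducible refine IntF.comp ?_ ?_; assumption) | (with_reducible refine IntF.comp₂ ?_ ?_ ?_; assumption) | (with_reducible refine IntF.comp₃ ?_ ?_ ?_ ?_; assumption) | with_reducible apply IntF.pair))) fun y x => (hQ x y).trans ⟨fun h => h3 _ _ _ (hψ y) h, fun h => h ▸ hψ y⟩
  refine ⟨⟨⟨(⟨φ, f1⟩, ⟨ψ, f2⟩), fun x => ?_, fun x => ?_⟩, n, fun x hx => ?_⟩, fun x y => ?_⟩
  · exact h2 _ _ _ (hφ (ψ x)) (hψ x)
  · exact h3 _ _ _ (hψ (φ x)) (hφ x)
  · exact key x _ hx (hφ x)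
  · exact ⟨fun h => h2 _ _ _ (hφ x) h, fun h => h ▸ hφ x⟩

end Pool.Agent.Helper672.ZFA.H310M
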