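import Pool.Agent.H310R3.Cards

/-!
# The set of the three-element subsets
-/

namespace Pool.Agent.H310Cards

open FirstOrder FirstOrder.Language
open Pool.Agent.Helper672.Plain (LSet Mem)

universe u

/-- `t` is the set of all subsets of `a` with exactly three elements. -/
def IsTripleSet {M : Type u} [LSet.Structure M] (t a : M) : Prop :=
  ∀ z, Mem z t ↔ ∃ x y w, Mem x a ∧ Mem y a ∧ Mem w a ∧ x ≠ y ∧ x ≠ w ∧ y ≠ w ∧
    ∀ v, Mem v z ↔ v = x ∨ v = y ∨ v = w

end Pool.Agent.H310Cards
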