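import Pool.Agent.H310R3.E8
import Pool.Agent.H310R3.TriDefs
import Pool.Agent.H635R2.Ext

/-!
# The permutations of a set and its three-element subsets
-/

set_option maxHeartbeats 1000000
set_option linter.all false
set_option synthInstance.maxSize 2000

namespace Pool.Agent.Helper672.ZFA.H310M

open FirstOrder FirstOrder.Language
open Pool.Agent.Helper672.ZFA.H635 (IPerm SymSys IG WFI FEq FMem tw Good feq_of_map feq_iff IsGen
  nd nd_eq mem_nd mem_nd_nd exists_mk mk_eq_nd EqFam NN nn_ext CollL nn_zf mem_NN plainN_ordPair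
  isModel_of_zermelo coll_of_zf exists_countable_sub toL)
open Pool.Agent.Helper672.Plain (LSet)
open Pool.Agent.H635Amen (ZF)
open Pool.Agent.H310
open Pool.Agent.H310Cards

universe u

variable {M : Type u} [L.Structure M] [hM : IsModel M] (C : CD M)
variable {G : Set (Co M (XX M))} (hG : IsGen M G)

theorem tri_fin {t : IPow M (XX M)} (h : Tri t) : IFin t := by
  obtain ⟨x, y, z, -, -, -, h1⟩ := h
  refine (((IFin.singleton x).union (IFin.singleton y)).union (IFin.singleton z)).subset
    fun p hp => ?_
  rcases (h1 p).1 hp with rfl | rfl | rfl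
  · simp
  · simp
  · simp

theorem conclusion : ∃ a s t f : NN (SS (EZ C)) hG, IsSymSet s a ∧ IsTripleSet t a ∧
    IsBij f s t := by
  obtain ⟨P, hP, hP'⟩ := exists_P C hG
  obtain ⟨T, hT, hT'⟩ := exists_T C hG
  have mP : ∀ π u v, Mem (op u v) (P π) ↔ ∃ x, u = cc (EZ C) hG x ∧
      v = cc (EZ C) hG (π.1.1.1 x) := by
    intro π u v
    rw [hP']
    constructor
    · rintro ⟨x, h⟩
      exact ⟨x, op_inj h⟩
    · rintro ⟨x, rfl, rfl⟩
      exact ⟨x, rfl⟩
  have mPc : ∀ π x y, Mem (op (cc (EZ C) hG x) (cc (EZ C) hG y)) (P π) ↔ π.1.1.1 x = y := by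
    intro π x y
    rw [mP]
    constructor
    · rintro ⟨z, h1, h2⟩
      obtain rfl := (cc_inj hG).1 h1
      exact ((cc_inj hG).1 h2).symm
    · rintro rfl
      exact ⟨x, rfl, rfl⟩
  have P_inj : ∀ π π', P π = P π' → π = π' := by
    intro π π' h
    refine Subtype.ext (IPerm.ext' fun x => ?_)
    have h1 := (mPc π x _).2 rfl
    rw [h] at h1
    exact ((mPc π' x _).1 h1).symm
  have T_inj : ∀ t t', T t = T t' → t = t' := by
    intro t t' h
    refine Subtype.ext (IPow.ext' fun x => ?_)
    have h1 : ∀ t : FS M (XX M), x ∈ t.1 ↔ Mem (cc (EZ C) hG x) (T t) := by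
      intro t
      rw [hT']
      constructor
      · exact fun h => ⟨x, h, rfl⟩
      · rintro ⟨y, hy, h2⟩
        rw [(cc_inj hG).1 h2]
        exact hy
    rw [h1, h1, h]
  have hsym : ∃ s : NN (SS (EZ C)) hG, ∀ w, Plain.Mem w s ↔ ∃ π, w = P π := by
    obtain ⟨s, hs⟩ := EF.set hG hP (Y := fun _ => True) (Int.const _) (E := fs0 M (XX M))
      fun _ _ _ _ _ => trivial
    exact ⟨s, fun w => (hs w).trans ⟨fun ⟨c, _, h⟩ => ⟨c, h⟩, fun ⟨c, h⟩ => ⟨c, trivial, h⟩⟩⟩
  obtain ⟨s, hs⟩ := hsym
  have hF := EF.set hG (ef_PT C hG hP hT) (Y := fun q => RR C q.2.1 q.1.1) (by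
      have := int_RR C
      (repeat' (first | with_reducible exact IntF.id | with_reducible exact IntF.fst' | with_reducible exact IntF.snd' | with_reducible exact IntF.const _ | with_reducible exact Int.const _ | assumption | with_reducible apply Int.and | with_reducible apply Int.or | with_reducible apply Int.not | with_reducible apply Int.imp | with_reducible apply Int.iff | with_reducible apply Int.ne | with_reducible apply Int.eq | with_reducible apply Int.mem | with_reducible apply Int.subset | with_reducible apply Int.ltN | with_reducible apply Int.leN | with_reducible_and_instances apply Int.le | with_reducible_and_instances apply Int.lt | with_reducible apply Int.all | with_reducible apply Int.ex | with_reducible apply IntF.fst | with_reducible apply IntF.snd | with_reducible apply IntF.app | with_reducible apply IntF.inl | with_reducible apply IntF.inr | with_reducible_and_instances apply IntF.mul | with_reducible_and_instances apply IntF.inv | with_reducible_and_instances apply IntF.add | with_reducible_and_instances apply IntF.sub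 | with_reducible_and_instances apply IntF.neg | with_reducible_and_instances apply IntF.smul | with_reducible apply Int.fin | with_reducible apply IntF.sep | with_reducible apply IntF.lam | with_reducible apply IntF.insert | with_reducible apply IntF.singleton | with_reducible apply IntF.union | with_reducible apply IntF.iimage | with_reducible apply IntF.ite | with_reducible apply IntF.the | with_reducible apply IntF.irec | with_reducible apply IntF.succ | with_reducible apply IntF.val | with_reducible apply IntF.mk | (with_reducible refine Int.comp ?_ ?_; assumption) | (with_reducible refine Int.comp₂ ?_ ?_ ?_; assumption) | (with_reducible refine Int.comp₃ ?_ ?_ ?_ ?_; assumption) | (with_reducible refine Int.comp₄ ?_ ?_ ?_ ?_ ?_; assumption) | (with_reducible refine IntF.comp ?_ ?_; assumption) | (with_reducible refine IntF.comp₂ ?_ ?_ ?_; assumption) | (with_reducible refine IntF.comp₃ ?_ ?_ ?_ ?_; assumption) | with_reducible apply IntF.pair))) (E := fs0 M (XX M)) (fun g hg _ q hq => by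
      change RR C (gi g q.2.1) (g * q.1.1 * g⁻¹)
      exact RR.conj hg hq)
  obtain ⟨F, hF⟩ := hF
  have hF' : ∀ u v, App F u v ↔ ∃ π t, RR C t.1 π.1 ∧ u = P π ∧ v = T t := by
    intro u v
    rw [appN, mem_NN, hF]
    constructor
    · rintro ⟨⟨π, t⟩, h1, h2⟩
      obtain ⟨h3, h4⟩ := op_inj h2
      exact ⟨π, t, h1, h3, h4⟩
    · rintro ⟨π, t, h1, rfl, rfl⟩
      exact ⟨(π, t), h1, rfl⟩
  have hTri : Int M (Tri (M := M)) := by
    unfold Tri
    (repeat' (first | with_reducible exact IntF.id | with_reducible exact IntF.fst' | with_reducible exact IntF.snd' | with_reducible exact IntF.const _ | with_reducible exact Int.const _ | assumption | with_reducible apply Int.and | with_reducible apply Int.or | with_reducible apply Int.not | with_reducible apply Int.imp | with_reducible apply Int.iff | with_reducible apply Int.ne | with_reducible apply Int.eq | with_reducible apply Int.mem | with_reducible apply Int.subset | with_reducible apply Int.ltN | with_reducible apply Int.leN | with_reducible_and_instances apply Int.le | with_reducible_and_instances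 apply Int.lt | with_reducible apply Int.all | with_reducible apply Int.ex | with_reducible apply IntF.fst | with_reducible apply IntF.snd | with_reducible apply IntF.app | with_reducible apply IntF.inl | with_reducible apply IntF.inr | with_reducible_and_instances apply IntF.mul | with_reducible_and_instances apply IntF.inv | with_reducible_and_instances apply IntF.add | with_reducible_and_instances apply IntF.sub | with_reducible_and_instances apply IntF.neg | with_reducible_and_instances apply IntF.smul | with_reducible apply Int.fin | with_reducible apply IntF.sep | with_reducible apply IntF.lam | with_reducible apply IntF.insert | with_reducible apply IntF.singleton | with_reducible apply IntF.union | with_reducible apply IntF.iimage | with_reducible apply IntF.ite | with_reducible apply IntF.the | with_reducible apply IntF.irec | with_reducible apply IntF.succ | with_reducible apply IntF.val | with_reducible apply IntF.mk | (with_reducible refine Int.comp ?_ ?_; assumption) | (with_reducible refine Int.comp₂ ?_ ?_ ?_; assumption) | (with_reducible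 refine Int.comp₃ ?_ ?_ ?_ ?_; assumption) | (with_reducible refine Int.comp₄ ?_ ?_ ?_ ?_ ?_; assumption) | (with_reducible refine IntF.comp ?_ ?_; assumption) | (with_reducible refine IntF.comp₂ ?_ ?_ ?_; assumption) | (with_reducible refine IntF.comp₃ ?_ ?_ ?_ ?_; assumption) | with_reducible apply IntF.pair))
  have htri : ∃ t : NN (SS (EZ C)) hG, ∀ w, Plain.Mem w t ↔ ∃ c : FS M (XX M), Tri c.1 ∧ w = T c := by
    obtain ⟨t, ht⟩ := EF.set hG hT (Y := fun c => Tri c.1) (by (repeat' (first | with_reducible exact IntF.id | with_reducible exact IntF.fst' | with_reducible exact IntF.snd' | with_reducible exact IntF.const _ | with_reducible exact Int.const _ | assumption | with_reducible apply Int.and | with_reducible apply Int.or | with_reducible apply Int.not | with_reducible apply Int.imp | with_reducible apply Int.iff | with_reducible apply Int.ne | with_reducible apply Int.eq | with_reducible apply Int.mem | with_reducible apply Int.subset | with_reducible apply Int.ltN | with_reducible apply Int.leN | with_reducible_and_instances apply Int.le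 | with_reducible_and_instances apply Int.lt | with_reducible apply Int.all | with_reducible apply Int.ex | with_reducible apply IntF.fst | with_reducible apply IntF.snd | with_reducible apply IntF.app | with_reducible apply IntF.inl | with_reducible apply IntF.inr | with_reducible_and_instances apply IntF.mul | with_reducible_and_instances apply IntF.inv | with_reducible_and_instances apply IntF.add | with_reducible_and_instances apply IntF.sub | with_reducible_and_instances apply IntF.neg | with_reducible_and_instances apply IntF.smul | with_reducible apply Int.fin | with_reducible apply IntF.sep | with_reducible apply IntF.lam | with_reducible apply IntF.insert | with_reducible apply IntF.singleton | with_reducible apply IntF.union | with_reducible apply IntF.iimage | with_reducible apply IntF.ite | with_reducible apply IntF.the | with_reducible apply IntF.irec | with_reducible apply IntF.succ | with_reducible apply IntF.val | with_reducible apply IntF.mk | (with_reducible refine Int.comp ?_ ?_; assumption) | (with_reducible refine Int.comp₂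 ?_ ?_ ?_; assumption) | (with_reducible refine Int.comp₃ ?_ ?_ ?_ ?_; assumption) | (with_reducible refine Int.comp₄ ?_ ?_ ?_ ?_ ?_; assumption) | (with_reducible refine IntF.comp ?_ ?_; assumption) | (with_reducible refine IntF.comp₂ ?_ ?_ ?_; assumption) | (with_reducible refine IntF.comp₃ ?_ ?_ ?_ ?_; assumption) | with_reducible apply IntF.pair))) (E := fs0 M (XX M))
      fun g hg _ c hc => by
        obtain ⟨x, y, z, h1, h2, h3, h4⟩ := hc
        refine ⟨g.1.1 x, g.1.1 y, g.1.1 z, fun h => h1 (PX.inj g h), fun h => h2 (PX.inj g h),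
          fun h => h3 (PX.inj g h), fun p => ?_⟩
        change p ∈ gi g c.1 ↔ _
        rw [mem_gi, h4]
        refine or_congr ?_ (or_congr ?_ ?_)
        all_goals exact ⟨fun h => by rw [← h, PX.r], fun h => by rw [h, PX.l]⟩
    exact ⟨t, ht⟩
  obtain ⟨t, ht⟩ := htri
  have hA : ∀ w, Plain.Mem w (AA (EZ C) hG) ↔ ∃ x, w = cc (EZ C) hG x := fun w => mem_AA hG
  have hPf : ∀ π u v, App (P π) u v ↔ ∃ x, u = cc (EZ C) hG x ∧ v = cc (EZ C) hG (π.1.1.1 x) :=
    fun π u v => appN.trans (mP π u v)
  refine ⟨AA (EZ C) hG, s, t, F, fun f => ?_, fun z => ?_, ?_, ?_⟩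
  · rw [hs]
    constructor
    · rintro ⟨π, rfl⟩
      refine ⟨⟨⟨fun q hq => ?_, fun u hu => ?_⟩, fun u u' v h h' => ?_⟩, fun v hv => ?_⟩
      · obtain ⟨x, rfl⟩ := (hP' _ _).1 hq
        exact ⟨_, _, (hA _).2 ⟨_, rfl⟩, (hA _).2 ⟨_, rfl⟩, plainN_ordPair.2 rfl⟩
      · obtain ⟨x, rfl⟩ := (hA _).1 hu
        refine ⟨cc (EZ C) hG (π.1.1.1 x), (hPf _ _ _).2 ⟨x, rfl, rfl⟩, fun v hv => ?_⟩
        obtain ⟨y, h1, rfl⟩ := (hPf _ _ _).1 hv
        rw [(cc_inj hG).1 h1]
      · obtain ⟨x, rfl, rfl⟩ := (hPf _ _ _).1 h
        obtain ⟨y, rfl, h1⟩ := (hPf _ _ _).1 h'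
        rw [PX.inj _ ((cc_inj hG).1 h1)]
      · obtain ⟨x, rfl⟩ := (hA _).1 hv
        exact ⟨cc (EZ C) hG (π.1.1.2 x), (hPf _ _ _).2 ⟨_, rfl, by rw [PX.r]⟩⟩
    · rintro ⟨⟨⟨h1, h2⟩, h3⟩, h4⟩
      obtain ⟨π, hπ⟩ := finitary C hG (f := f) (fun x => by
        obtain ⟨v, hv, -⟩ := h2 _ ((hA _).2 ⟨x, rfl⟩)
        have hv' := hv
        obtain ⟨q, hq1, hq2⟩ := hv'
        obtain ⟨a, b, ha, hb, hq3⟩ := h1 q hq2
        obtain ⟨-, rfl⟩ := op_inj ((plainN_ordPair.1 hq1).symm.trans (plainN_ordPair.1 hq3))
        obtain ⟨y, rfl⟩ := (hA _).1 hb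
        exact ⟨y, appN.1 hv⟩) (fun x y y' h h' => (cc_inj hG).1
          ((h2 _ ((hA _).2 ⟨x, rfl⟩)).unique (appN.2 h) (appN.2 h')))
        (fun x x' y h h' => (cc_inj hG).1 (h3 _ _ _ (appN.2 h) (appN.2 h'))) (fun y => by
        obtain ⟨u, hu⟩ := h4 _ ((hA _).2 ⟨y, rfl⟩)
        have hu' := hu
        obtain ⟨q, hq1, hq2⟩ := hu'
        obtain ⟨a, b, ha, hb, hq3⟩ := h1 q hq2
        obtain ⟨rfl, -⟩ := op_inj ((plainN_ordPair.1 hq1).symm.trans (plainN_ordPair.1 hq3))
        obtain ⟨x, rfl⟩ := (hA _).1 ha
        exact ⟨x, appN.1 hu⟩)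
      refine ⟨π, ext' hG fun q => ?_⟩
      rw [hP']
      constructor
      · intro hq
        obtain ⟨a, b, ha, hb, hq3⟩ := h1 q hq
        obtain ⟨x, rfl⟩ := (hA _).1 ha
        obtain ⟨y, rfl⟩ := (hA _).1 hb
        have hq4 := plainN_ordPair.1 hq3
        rw [hq4] at hq
        exact ⟨x, by rw [hq4, (hπ x y).1 hq]⟩
      · rintro ⟨x, rfl⟩
        exact (hπ x _).2 rfl
  · rw [ht]
    constructor
    · rintro ⟨c, ⟨x, y, w, h1, h2, h3, h4⟩, rfl⟩
      refine ⟨cc (EZ C) hG x, cc (EZ C) hG y, cc (EZ C) hG w, (hA _).2 ⟨_, rfl⟩, (hA _).2 ⟨_, rfl⟩,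
        (hA _).2 ⟨_, rfl⟩, fun h => h1 ((cc_inj hG).1 h), fun h => h2 ((cc_inj hG).1 h),
        fun h => h3 ((cc_inj hG).1 h), fun v => (hT' _ _).trans ?_⟩
      constructor
      · rintro ⟨p, hp, rfl⟩
        rcases (h4 p).1 hp with rfl | rfl | rfl
        · exact Or.inl rfl
        · exact Or.inr (Or.inl rfl)
        · exact Or.inr (Or.inr rfl)
      · rintro (rfl | rfl | rfl)
        · exact ⟨x, (h4 _).2 (Or.inl rfl), rfl⟩
        · exact ⟨y, (h4 _).2 (Or.inr (Or.inl rfl)), rfl⟩
        · exact ⟨w, (h4 _).2 (Or.inr (Or.inr rfl)), rfl⟩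
    · rintro ⟨x, y, w, hx, hy, hw, h1, h2, h3, h4⟩
      obtain ⟨x, rfl⟩ := (hA _).1 hx
      obtain ⟨y, rfl⟩ := (hA _).1 hy
      obtain ⟨w, rfl⟩ := (hA _).1 hw
      have h5 : ∀ p, p ∈ sep M (fun p : XX M => p = x ∨ p = y ∨ p = w) ↔ p = x ∨ p = y ∨ p = w :=
        fun p => mem_sep (by (repeat' (first | with_reducible exact IntF.id | with_reducible exact IntF.fst' | with_reducible exact IntF.snd' | with_reducible exact IntF.const _ | with_reducible exact Int.const _ | assumption | with_reducible apply Int.and | with_reducible apply Int.or | with_reducible apply Int.not | with_reducible apply Int.imp | with_reducible apply Int.iff | with_reducible apply Int.ne | with_reducible apply Int.eq | with_reducible apply Int.mem | with_reducible apply Int.subset | with_reducible apply Int.ltN | with_reducible apply Int.leN | with_reducible_and_instances apply Int.le | with_reducible_and_instances apply Int.lt | with_reducible apply Int.all | with_reducible apply Int.ex | with_reducible apply IntF.fst | with_reducible apply IntF.snd | with_reducible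 apply IntF.app | with_reducible apply IntF.inl | with_reducible apply IntF.inr | with_reducible_and_instances apply IntF.mul | with_reducible_and_instances apply IntF.inv | with_reducible_and_instances apply IntF.add | with_reducible_and_instances apply IntF.sub | with_reducible_and_instances apply IntF.neg | with_reducible_and_instances apply IntF.smul | with_reducible apply Int.fin | with_reducible apply IntF.sep | with_reducible apply IntF.lam | with_reducible apply IntF.insert | with_reducible apply IntF.singleton | with_reducible apply IntF.union | with_reducible apply IntF.iimage | with_reducible apply IntF.ite | with_reducible apply IntF.the | with_reducible apply IntF.irec | with_reducible apply IntF.succ | with_reducible apply IntF.val | with_reducible apply IntF.mk | (with_reducible refine Int.comp ?_ ?_; assumption) | (with_reducible refine Int.comp₂ ?_ ?_ ?_; assumption) | (with_reducible refine Int.comp₃ ?_ ?_ ?_ ?_; assumption) | (with_reducible refine Int.comp₄ ?_ ?_ ?_ ?_ ?_; assumption) | (with_reducible refine IntF.comp ?_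 ?_; assumption) | (with_reducible refine IntF.comp₂ ?_ ?_ ?_; assumption) | (with_reducible refine IntF.comp₃ ?_ ?_ ?_ ?_; assumption) | with_reducible apply IntF.pair)))
      have h6 : Tri (sep M (fun p : XX M => p = x ∨ p = y ∨ p = w)) :=
        ⟨x, y, w, fun h => h1 (by rw [h]), fun h => h2 (by rw [h]), fun h => h3 (by rw [h]), h5⟩
      refine ⟨⟨_, tri_fin h6⟩, h6, ext' hG fun v => (h4 v).trans ?_⟩
      rw [hT']
      constructor
      · rintro (rfl | rfl | rfl)
        · exact ⟨x, (h5 _).2 (Or.inl rfl), rfl⟩
        · exact ⟨y, (h5 _).2 (Or.inr (Or.inl rfl)), rfl⟩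
        · exact ⟨w, (h5 _).2 (Or.inr (Or.inr rfl)), rfl⟩
      · rintro ⟨p, hp, rfl⟩
        rcases (h5 p).1 hp with rfl | rfl | rfl
        · exact Or.inl rfl
        · exact Or.inr (Or.inl rfl)
        · exact Or.inr (Or.inr rfl)
  · refine ⟨⟨fun q hq => ?_, fun u hu => ?_⟩, fun u u' v h h' => ?_⟩
    · obtain ⟨⟨π, c⟩, h1, rfl⟩ := (hF _).1 hq
      exact ⟨P π, T c, (hs _).2 ⟨_, rfl⟩, (ht _).2 ⟨_, RR.tri h1, rfl⟩, plainN_ordPair.2 rfl⟩
    · obtain ⟨π, rfl⟩ := (hs _).1 hu
      obtain ⟨c, hc⟩ := exists_RR' (C := C) π.2
      refine ⟨T ⟨c, tri_fin hc.tri⟩, (hF' _ _).2 ⟨π, ⟨c, tri_fin hc.tri⟩, hc, rfl, rfl⟩, fun v hv => ?_⟩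
      obtain ⟨π', c', h1, h2, rfl⟩ := (hF' _ _).1 hv
      obtain rfl := P_inj _ _ h2
      exact congrArg T (Subtype.ext (RR.unique' h1 hc))
    · obtain ⟨π, c, h1, rfl, rfl⟩ := (hF' _ _).1 h
      obtain ⟨π', c', h2, rfl, h3⟩ := (hF' _ _).1 h'
      obtain rfl := T_inj _ _ h3
      exact congrArg P (Subtype.ext (RR.unique h1 h2))
  · intro v hv
    obtain ⟨c, hc, rfl⟩ := (ht _).1 hv
    obtain ⟨π, hπ⟩ := exists_RR (C := C) hc
    exact ⟨P ⟨π, hπ.bd⟩, (hF' _ _).2 ⟨⟨π, hπ.bd⟩, c, hπ, rfl, rfl⟩⟩

theorem exists_tri' (M : Type u) [L.Structure M] [IsModel M] [Countable M] (hC : CollL M) :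
    ∃ (N : Type u) (_ : LSet.Structure N), ZF N ∧ ∃ a s t f : N, IsSymSet s a ∧ IsTripleSet t a ∧
      IsBij f s t := by
  have p₀ : Co M (XX M) := ⟨∅, fun i k d d' h => absurd h (by simp), IFin.empty⟩
  obtain ⟨G, hG⟩ := H635.exists_gen (M := M) p₀
  obtain ⟨C⟩ := exists_CD (M := M)
  exact ⟨NN (SS (EZ C)) hG, inferInstance, nn_zf hG hC, conclusion C hG⟩

section

attribute [local instance] toL

theorem exists_tri_c (M : Type u) [LSet.Structure M] [Countable M] (h : ZF M) :
    ∃ (N : Type u) (_ : LSet.Structure N), ZF N ∧ ∃ a s t f : N, IsSymSet s a ∧ IsTripleSet t a ∧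
      IsBij f s t := by
  have hM : IsModel M := isModel_of_zermelo h.toZermelo
  exact exists_tri' M (coll_of_zf h)

end

theorem exists_tri (h : ∃ (M : Type u) (_ : LSet.Structure M), ZF M) :
    ∃ (N : Type u) (_ : LSet.Structure N), ZF N ∧ ∃ a s t f : N, IsSymSet s a ∧ IsTripleSet t a ∧
      IsBij f s t := by
  obtain ⟨M, i, hM⟩ := h
  obtain ⟨M₀, h1, h2⟩ := exists_countable_sub M hM
  exact exists_tri_c M₀ h2

end Pool.Agent.Helper672.ZFA.H310M
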