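import Pool.Agent.H310R3.Gen
import Pool.Agent.H635R2.Perm
import Pool.Agent.H635R2.Tools

/-!
# The internal type with three elements
-/

set_option maxHeartbeats 400000
set_option linter.all false

namespace Pool.Agent.H310

open FirstOrder FirstOrder.Language
open Pool.Agent.Helper672.ZFA

universe u u₁ u₂ u₃ u₄

variable {M : Type u} [L.Structure M] [hM : IsModel M]
variable {α : Type u₁} {β : Type u₂} [ITy M α] [ITy M β]

variable (M) in
/-- The three elements. -/
noncomputable def e3 : Fin 3 → INat M := ![0, INat.succ 0, INat.succ (INat.succ 0)]

theorem e3_inj : Function.Injective (e3 M) := by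
  have h0 : (0 : INat M) ≠ INat.succ 0 := fun h => INat.succ_ne_zero _ h.symm
  have h1 : (0 : INat M) ≠ INat.succ (INat.succ 0) := fun h => INat.succ_ne_zero _ h.symm
  have h2 : (INat.succ 0 : INat M) ≠ INat.succ (INat.succ 0) := fun h => h0 (INat.succ_inj h)
  intro i j hij
  fin_cases i <;> fin_cases j <;> first | rfl | (exfalso; simp [e3] at hij; first | exact h0 hij | exact h0 hij.symm | exact h1 hij | exact h1 hij.symm | exact h2 hij | exact h2 hij.symm)

noncomputable instance instITyFin3 : ITy M (Fin 3) := ITy.ofInj (e3 M) e3_inj (by
  refine Int.congr (p := fun a : INat M => e3 M 0 = a ∨ e3 M 1 = a ∨ e3 M 2 = a) (by (repeat' (first | with_reducible exact IntF.id | with_reducible exact IntF.fst' | with_reducible exact IntF.snd' | with_reducible exact IntF.const _ | with_reducible exact Int.const _ | assumption | with_reducible apply Int.and | with_reducible apply Int.or | with_reducible apply Int.not | with_reducible apply Int.imp | with_reducible apply Int.iff | with_reducible apply Int.ne | with_reducible apply Int.eq | with_reducible apply Int.mem | with_reducible apply Int.subset | with_reducible apply Int.ltN | with_reducible apply Int.leN | with_reducible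 apply Int.fin | with_reducible apply Int.unique | with_reducible apply Int.all | with_reducible apply Int.ex | with_reducible apply IntF.fst | with_reducible apply IntF.snd | with_reducible apply IntF.app | with_reducible apply IntF.ite | with_reducible apply IntF.sep | with_reducible apply IntF.lam | with_reducible apply IntF.insert | with_reducible apply IntF.singleton | with_reducible apply IntF.union | with_reducible apply IntF.inter | with_reducible apply IntF.sdiff | with_reducible apply IntF.isUnion | with_reducible apply IntF.iimage | with_reducible apply IntF.the | with_reducible apply IntF.irec | with_reducible_and_instances apply IntF.add | with_reducible_and_instances apply IntF.mul | with_reducible apply IntF.succ | with_reducible apply IntF.val | (with_reducible refine Int.comp ?_ ?_; assumption) | (with_reducible refine Int.comp₂ ?_ ?_ ?_; assumption) | (with_reducible refine Int.comp₃ ?_ ?_ ?_ ?_; assumption) | (with_reducible refine IntF.comp ?_ ?_; assumption) | (with_reducible refine IntF.comp₂ ?_ ?_ ?_; assumption) | (with_reducible refine IntF.comp₃ ?_ ?_ ?_ ?_; assumption) | with_reducible apply IntF.pair))) fun a => ?_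
  constructor
  · rintro (h | h | h)
    · exact ⟨_, h⟩
    · exact ⟨_, h⟩
    · exact ⟨_, h⟩
  · rintro ⟨i, h⟩
    fin_cases i
    · exact Or.inl h
    · exact Or.inr (Or.inl h)
    · exact Or.inr (Or.inr h))

theorem Int.fin3 {p : Fin 3 → α → Prop} (h : ∀ i, Int M (p i)) :
    Int M (fun q : Fin 3 × α => p q.1 q.2) := by
  have h0 := h 0
  have h1 := h 1
  have h2 := h 2
  refine Int.congr (p := fun q : Fin 3 × α => (q.1 = 0 ∧ p 0 q.2) ∨ (q.1 = 1 ∧ p 1 q.2) ∨
    (q.1 = 2 ∧ p 2 q.2)) (by (repeat' (first | with_reducible exact IntF.id | with_reducible exact IntF.fst' | with_reducible exact IntF.snd' | with_reducible exact IntF.const _ | with_reducible exact Int.const _ | assumption | with_reducible apply Int.and | with_reducible apply Int.or | with_reducible apply Int.not | with_reducible apply Int.imp | with_reducible apply Int.iff | with_reducible apply Int.ne | with_reducible apply Int.eq | with_reducible apply Int.mem | with_reducible apply Int.subset | with_reducible apply Int.ltN | with_reducible apply Int.leN | with_reducible apply Int.fin | with_reducible apply Int.unique | with_reducible apply Int.all | with_reducible apply Int.ex | with_reducible apply IntF.fst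 | with_reducible apply IntF.snd | with_reducible apply IntF.app | with_reducible apply IntF.ite | with_reducible apply IntF.sep | with_reducible apply IntF.lam | with_reducible apply IntF.insert | with_reducible apply IntF.singleton | with_reducible apply IntF.union | with_reducible apply IntF.inter | with_reducible apply IntF.sdiff | with_reducible apply IntF.isUnion | with_reducible apply IntF.iimage | with_reducible apply IntF.the | with_reducible apply IntF.irec | with_reducible_and_instances apply IntF.add | with_reducible_and_instances apply IntF.mul | with_reducible apply IntF.succ | with_reducible apply IntF.val | (with_reducible refine Int.comp ?_ ?_; assumption) | (with_reducible refine Int.comp₂ ?_ ?_ ?_; assumption) | (with_reducible refine Int.comp₃ ?_ ?_ ?_ ?_; assumption) | (with_reducible refine IntF.comp ?_ ?_; assumption) | (with_reducible refine IntF.comp₂ ?_ ?_ ?_; assumption) | (with_reducible refine IntF.comp₃ ?_ ?_ ?_ ?_; assumption) | with_reducible apply IntF.pair))) fun ⟨i, a⟩ => ?_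
  constructor
  · rintro (⟨rfl, h⟩ | ⟨rfl, h⟩ | ⟨rfl, h⟩) <;> exact h
  · intro h
    fin_cases i
    · exact Or.inl ⟨rfl, h⟩
    · exact Or.inr (Or.inl ⟨rfl, h⟩)
    · exact Or.inr (Or.inr ⟨rfl, h⟩)

theorem Int.fin3₁ (p : Fin 3 → Prop) : Int M p := by
  refine Int.congr (p := fun i => (i = 0 ∧ p 0) ∨ (i = 1 ∧ p 1) ∨ (i = 2 ∧ p 2)) (by (repeat' (first | with_reducible exact IntF.id | with_reducible exact IntF.fst' | with_reducible exact IntF.snd' | with_reducible exact IntF.const _ | with_reducible exact Int.const _ | assumption | with_reducible apply Int.and | with_reducible apply Int.or | with_reducible apply Int.not | with_reducible apply Int.imp | with_reducible apply Int.iff | with_reducible apply Int.ne | with_reducible apply Int.eq | with_reducible apply Int.mem | with_reducible apply Int.subset | with_reducible apply Int.ltN | with_reducible apply Int.leN | with_reducible apply Int.fin | with_reducible apply Int.unique | with_reducible apply Int.all | with_reducible apply Int.ex | with_reducible apply IntF.fst | with_reducible apply IntF.snd | with_reducible apply IntF.app | with_reducible apply IntF.ite | with_reducible apply IntF.sep | with_reducible apply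 IntF.lam | with_reducible apply IntF.insert | with_reducible apply IntF.singleton | with_reducible apply IntF.union | with_reducible apply IntF.inter | with_reducible apply IntF.sdiff | with_reducible apply IntF.isUnion | with_reducible apply IntF.iimage | with_reducible apply IntF.the | with_reducible apply IntF.irec | with_reducible_and_instances apply IntF.add | with_reducible_and_instances apply IntF.mul | with_reducible apply IntF.succ | with_reducible apply IntF.val | (with_reducible refine Int.comp ?_ ?_; assumption) | (with_reducible refine Int.comp₂ ?_ ?_ ?_; assumption) | (with_reducible refine Int.comp₃ ?_ ?_ ?_ ?_; assumption) | (with_reducible refine IntF.comp ?_ ?_; assumption) | (with_reducible refine IntF.comp₂ ?_ ?_ ?_; assumption) | (with_reducible refine IntF.comp₃ ?_ ?_ ?_ ?_; assumption) | with_reducible apply IntF.pair)))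
    fun i => ?_
  constructor
  · rintro (⟨rfl, h⟩ | ⟨rfl, h⟩ | ⟨rfl, h⟩) <;> exact h
  · intro h
    fin_cases i
    · exact Or.inl ⟨rfl, h⟩
    · exact Or.inr (Or.inl ⟨rfl, h⟩)
    · exact Or.inr (Or.inr ⟨rfl, h⟩)

theorem IntF.fin3 (f : Fin 3 → α) : IntF M f :=
  Int.fin3 (p := fun i a => f i = a) fun i => by (repeat' (first | with_reducible exact IntF.id | with_reducible exact IntF.fst' | with_reducible exact IntF.snd' | with_reducible exact IntF.const _ | with_reducible exact Int.const _ | assumption | with_reducible apply Int.and | with_reducible apply Int.or | with_reducible apply Int.not | with_reducible apply Int.imp | with_reducible apply Int.iff | with_reducible apply Int.ne | with_reducible apply Int.eq | with_reducible apply Int.mem | with_reducible apply Int.subset | with_reducible apply Int.ltN | with_reducible apply Int.leN | with_reducible apply Int.fin | with_reducible apply Int.unique | with_reducible apply Int.all | with_reducible apply Int.ex | with_reducible apply IntF.fst | with_reducible apply IntF.snd | with_reducible apply IntF.app | with_reducible apply IntF.ite | with_reducible apply IntF.sep | with_reducible apply IntF.lam | with_reducible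 apply IntF.insert | with_reducible apply IntF.singleton | with_reducible apply IntF.union | with_reducible apply IntF.inter | with_reducible apply IntF.sdiff | with_reducible apply IntF.isUnion | with_reducible apply IntF.iimage | with_reducible apply IntF.the | with_reducible apply IntF.irec | with_reducible_and_instances apply IntF.add | with_reducible_and_instances apply IntF.mul | with_reducible apply IntF.succ | with_reducible apply IntF.val | (with_reducible refine Int.comp ?_ ?_; assumption) | (with_reducible refine Int.comp₂ ?_ ?_ ?_; assumption) | (with_reducible refine Int.comp₃ ?_ ?_ ?_ ?_; assumption) | (with_reducible refine IntF.comp ?_ ?_; assumption) | (with_reducible refine IntF.comp₂ ?_ ?_ ?_; assumption) | (with_reducible refine IntF.comp₃ ?_ ?_ ?_ ?_; assumption) | with_reducible apply IntF.pair))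

theorem IntF.fin3₂ (f : Fin 3 → Fin 3 → α) : IntF M (fun q : Fin 3 × Fin 3 => f q.1 q.2) := by
  have h : ∀ i, IntF M (f i) := fun i => IntF.fin3 (f i)
  have h2 : Int M (fun q : Fin 3 × (Fin 3 × α) => f q.1 q.2.1 = q.2.2) :=
    Int.fin3 (p := fun i (q : Fin 3 × α) => f i q.1 = q.2) fun i => h i
  exact Int.comp (f := fun q : (Fin 3 × Fin 3) × α => (q.1.1, (q.1.2, q.2))) h2 (by (repeat' (first | with_reducible exact IntF.id | with_reducible exact IntF.fst' | with_reducible exact IntF.snd' | with_reducible exact IntF.const _ | with_reducible exact Int.const _ | assumption | with_reducible apply Int.and | with_reducible apply Int.or | with_reducible apply Int.not | with_reducible apply Int.imp | with_reducible apply Int.iff | with_reducible apply Int.ne | with_reducible apply Int.eq | with_reducible apply Int.mem | with_reducible apply Int.subset | with_reducible apply Int.ltN | with_reducible apply Int.leN | with_reducible apply Int.fin | with_reducible apply Int.unique | with_reducible apply Int.all | with_reducible apply Int.ex | with_reducible apply IntF.fst | with_reducible apply IntF.snd | with_reducible apply IntF.app | with_reducible apply IntF.ite | with_reducible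 apply IntF.sep | with_reducible apply IntF.lam | with_reducible apply IntF.insert | with_reducible apply IntF.singleton | with_reducible apply IntF.union | with_reducible apply IntF.inter | with_reducible apply IntF.sdiff | with_reducible apply IntF.isUnion | with_reducible apply IntF.iimage | with_reducible apply IntF.the | with_reducible apply IntF.irec | with_reducible_and_instances apply IntF.add | with_reducible_and_instances apply IntF.mul | with_reducible apply IntF.succ | with_reducible apply IntF.val | (with_reducible refine Int.comp ?_ ?_; assumption) | (with_reducible refine Int.comp₂ ?_ ?_ ?_; assumption) | (with_reducible refine Int.comp₃ ?_ ?_ ?_ ?_; assumption) | (with_reducible refine IntF.comp ?_ ?_; assumption) | (with_reducible refine IntF.comp₂ ?_ ?_ ?_; assumption) | (with_reducible refine IntF.comp₃ ?_ ?_ ?_ ?_; assumption) | with_reducible apply IntF.pair)))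

theorem finP_fin3 (p : Fin 3 → Prop) : FinP M p :=
  ⟨{0} ∪ ({1} ∪ {2}), (IFin.singleton _).union ((IFin.singleton _).union (IFin.singleton _)),
    fun i _ => by fin_cases i <;> simp⟩

/-- The third point. -/
def th (i j : Fin 3) : Fin 3 := -(i + j)

theorem th_self (i : Fin 3) : th i i = i := by revert i; decide
theorem th_comm (i j : Fin 3) : th i j = th j i := by revert i j; decide
theorem th_th (i j : Fin 3) : th i (th i j) = j := by revert i j; decide
theorem th_ne_left {i j : Fin 3} (h : i ≠ j) : th i j ≠ i := by revert i j; decide
theorem th_ne_right {i j : Fin 3} (h : i ≠ j) : th i j ≠ j := by revert i j; decide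
theorem th_eq_right {i j : Fin 3} : th i j = j ↔ i = j := by revert i j; decide
theorem th_eq_left {i j : Fin 3} : th i j = i ↔ i = j := by revert i j; decide
theorem th_uniq {i j k : Fin 3} (h : i ≠ j) (h1 : k ≠ i) (h2 : k ≠ j) : k = th i j := by
  revert i j k; decide
theorem th_map : ∀ g : Fin 3 → Fin 3, (∀ i j, g i = g j → i = j) → ∀ i j,
    g (th i j) = th (g i) (g j) := by decide
theorem surj3 : ∀ g : Fin 3 → Fin 3, (∀ i j, g i = g j → i = j) → ∀ i, ∃ j, g j = i := by decide

theorem int_th : IntF M (fun q : Fin 3 × Fin 3 => th q.1 q.2) := IntF.fin3₂ th

theorem IntF.th {γ : Type u₃} [ITy M γ] {f g : γ → Fin 3} (hf : IntF M f) (hg : IntF M g) :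
    IntF M (fun c => H310.th (f c) (g c)) :=
  IntF.comp (g := fun q : Fin 3 × Fin 3 => H310.th q.1 q.2) int_th (IntF.pair hf hg)

end Pool.Agent.H310
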