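import Pool.Agent.H635R2.Pow
import Pool.Agent.H635R2.Fam
import Pool.Agent.H635R2.Zf
import Pool.Agent.H310R3.NA1

/-!
# Orbit graphs and ordinals in symmetric extensions
-/

set_option maxHeartbeats 1000000
set_option linter.all false
set_option synthInstance.maxSize 2000

namespace Pool.Agent.Helper672.ZFA.H635

open FirstOrder FirstOrder.Language
open Pool.Agent.Helper672.Plain (LSet)
open Pool.Agent.H310

universe u

section

variable {M : Type u} [L.Structure M] [hM : IsModel M]
variable {P Γ : Type u} [ITy M P] [Preorder P] [ILE M P] [ITy M Γ] [Group Γ] [IMul M Γ]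
  [IInv M Γ] [MulAction Γ P] [ISMul M Γ P]
variable {Λ : Type u} [ITy M Λ] {S : SymSys M P Γ Λ}
variable {α β δ : Type u} [ITy M α] [ITy M β] [ITy M δ]

/-- The orbit graph: the node `(π, a)` is the node `a` of the twist by `π`. -/
def og (E : α → P → α → Prop) : Γ × α → P → Γ × α → Prop :=
  fun x p y => x.1 = y.1 ∧ E x.2 (y.1⁻¹ • p) y.2

theorem ig_og {E : α → P → α → Prop} (hE : IG M E) : IG M (og (Γ := Γ) E) := by
  have hE' : Int M (fun q : (α × P) × α => E q.1.1 q.1.2 q.2) := hE
  unfold IG og
  refine Int.and ?_ ?_
  · (repeat' (first | with_reducible exact IntF.id | with_reducible exact IntF.fst' | with_reducible exact IntF.snd' | with_reducible exact IntF.const _ | with_reducible exact Int.const _ | assumption | with_reducible apply Int.and | with_reducible apply Int.or | with_reducible apply Int.not | with_reducible apply Int.imp | with_reducible apply Int.iff | with_reducible apply Int.ne | with_reducible apply Int.eq | with_reducible apply Int.mem | with_reducible apply Int.subset | with_reducible apply Int.ltN | with_reducible apply Int.leN | with_reducible_and_instances apply Int.le | with_reducible_and_instances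 apply Int.lt | with_reducible apply Int.all | with_reducible apply Int.ex | with_reducible apply IntF.fst | with_reducible apply IntF.snd | with_reducible apply IntF.app | with_reducible apply IntF.inl | with_reducible apply IntF.inr | with_reducible_and_instances apply IntF.mul | with_reducible_and_instances apply IntF.inv | with_reducible_and_instances apply IntF.add | with_reducible_and_instances apply IntF.sub | with_reducible_and_instances apply IntF.neg | with_reducible_and_instances apply IntF.smul | with_reducible apply Int.fin | with_reducible apply IntF.sep | with_reducible apply IntF.lam | with_reducible apply IntF.insert | with_reducible apply IntF.singleton | with_reducible apply IntF.union | with_reducible apply IntF.iimage | with_reducible apply IntF.ite | with_reducible apply IntF.the | with_reducible apply IntF.irec | with_reducible apply IntF.succ | with_reducible apply IntF.val | with_reducible apply IntF.mk | (with_reducible refine Int.comp ?_ ?_; assumption) | (with_reducible refine Int.comp₂ ?_ ?_ ?_; assumption) | (with_reducible refine Int.comp₃ ?_ ?_ ?_ ?_; assumption) | (with_reducible refine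 Int.comp₄ ?_ ?_ ?_ ?_ ?_; assumption) | (with_reducible refine IntF.comp ?_ ?_; assumption) | (with_reducible refine IntF.comp₂ ?_ ?_ ?_; assumption) | (with_reducible refine IntF.comp₃ ?_ ?_ ?_ ?_; assumption) | with_reducible apply IntF.pair))
  · refine Int.comp₃ (p := fun a p b => E a p b) hE' ?_ ?_ ?_
    · (repeat' (first | with_reducible exact IntF.id | with_reducible exact IntF.fst' | with_reducible exact IntF.snd' | with_reducible exact IntF.const _ | with_reducible exact Int.const _ | assumption | with_reducible apply Int.and | with_reducible apply Int.or | with_reducible apply Int.not | with_reducible apply Int.imp | with_reducible apply Int.iff | with_reducible apply Int.ne | with_reducible apply Int.eq | with_reducible apply Int.mem | with_reducible apply Int.subset | with_reducible apply Int.ltN | with_reducible apply Int.leN | with_reducible_and_instances apply Int.le | with_reducible_and_instances apply Int.lt | with_reducible apply Int.all | with_reducible apply Int.ex | with_reducible apply IntF.fst | with_reducible apply IntF.snd | with_reducible apply IntF.app | with_reducible apply IntF.inl |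 with_reducible apply IntF.inr | with_reducible_and_instances apply IntF.mul | with_reducible_and_instances apply IntF.inv | with_reducible_and_instances apply IntF.add | with_reducible_and_instances apply IntF.sub | with_reducible_and_instances apply IntF.neg | with_reducible_and_instances apply IntF.smul | with_reducible apply Int.fin | with_reducible apply IntF.sep | with_reducible apply IntF.lam | with_reducible apply IntF.insert | with_reducible apply IntF.singleton | with_reducible apply IntF.union | with_reducible apply IntF.iimage | with_reducible apply IntF.ite | with_reducible apply IntF.the | with_reducible apply IntF.irec | with_reducible apply IntF.succ | with_reducible apply IntF.val | with_reducible apply IntF.mk | (with_reducible refine Int.comp ?_ ?_; assumption) | (with_reducible refine Int.comp₂ ?_ ?_ ?_; assumption) | (with_reducible refine Int.comp₃ ?_ ?_ ?_ ?_; assumption) | (with_reducible refine Int.comp₄ ?_ ?_ ?_ ?_ ?_; assumption) | (with_reducible refine IntF.comp ?_ ?_; assumption) | (with_reducible refine IntF.comp₂ ?_ ?_ ?_; assumption) | (with_reducible refine IntF.comp₃ ?_ ?_ ?_ ?_;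 assumption) | with_reducible apply IntF.pair))
    · (repeat' (first | with_reducible exact IntF.id | with_reducible exact IntF.fst' | with_reducible exact IntF.snd' | with_reducible exact IntF.const _ | with_reducible exact Int.const _ | assumption | with_reducible apply Int.and | with_reducible apply Int.or | with_reducible apply Int.not | with_reducible apply Int.imp | with_reducible apply Int.iff | with_reducible apply Int.ne | with_reducible apply Int.eq | with_reducible apply Int.mem | with_reducible apply Int.subset | with_reducible apply Int.ltN | with_reducible apply Int.leN | with_reducible_and_instances apply Int.le | with_reducible_and_instances apply Int.lt | with_reducible apply Int.all | with_reducible apply Int.ex | with_reducible apply IntF.fst | with_reducible apply IntF.snd | with_reducible apply IntF.app | with_reducible apply IntF.inl | with_reducible apply IntF.inr | with_reducible_and_instances apply IntF.mul | with_reducible_and_instances apply IntF.inv | with_reducible_and_instances apply IntF.add | with_reducible_and_instances apply IntF.sub | with_reducible_and_instances apply IntF.neg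 | with_reducible_and_instances apply IntF.smul | with_reducible apply Int.fin | with_reducible apply IntF.sep | with_reducible apply IntF.lam | with_reducible apply IntF.insert | with_reducible apply IntF.singleton | with_reducible apply IntF.union | with_reducible apply IntF.iimage | with_reducible apply IntF.ite | with_reducible apply IntF.the | with_reducible apply IntF.irec | with_reducible apply IntF.succ | with_reducible apply IntF.val | with_reducible apply IntF.mk | (with_reducible refine Int.comp ?_ ?_; assumption) | (with_reducible refine Int.comp₂ ?_ ?_ ?_; assumption) | (with_reducible refine Int.comp₃ ?_ ?_ ?_ ?_; assumption) | (with_reducible refine Int.comp₄ ?_ ?_ ?_ ?_ ?_; assumption) | (with_reducible refine IntF.comp ?_ ?_; assumption) | (with_reducible refine IntF.comp₂ ?_ ?_ ?_; assumption) | (with_reducible refine IntF.comp₃ ?_ ?_ ?_ ?_; assumption) | with_reducible apply IntF.pair))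
    · (repeat' (first | with_reducible exact IntF.id | with_reducible exact IntF.fst' | with_reducible exact IntF.snd' | with_reducible exact IntF.const _ | with_reducible exact Int.const _ | assumption | with_reducible apply Int.and | with_reducible apply Int.or | with_reducible apply Int.not | with_reducible apply Int.imp | with_reducible apply Int.iff | with_reducible apply Int.ne | with_reducible apply Int.eq | with_reducible apply Int.mem | with_reducible apply Int.subset | with_reducible apply Int.ltN | with_reducible apply Int.leN | with_reducible_and_instances apply Int.le | with_reducible_and_instances apply Int.lt | with_reducible apply Int.all | with_reducible apply Int.ex | with_reducible apply IntF.fst | with_reducible apply IntF.snd | with_reducible apply IntF.app | with_reducible apply IntF.inl | with_reducible apply IntF.inr | with_reducible_and_instances apply IntF.mul | with_reducible_and_instances apply IntF.inv | with_reducible_and_instances apply IntF.add | with_reducible_and_instances apply IntF.sub | with_reducible_and_instances apply IntF.neg | with_reducible_and_instances apply IntF.smul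 | with_reducible apply Int.fin | with_reducible apply IntF.sep | with_reducible apply IntF.lam | with_reducible apply IntF.insert | with_reducible apply IntF.singleton | with_reducible apply IntF.union | with_reducible apply IntF.iimage | with_reducible apply IntF.ite | with_reducible apply IntF.the | with_reducible apply IntF.irec | with_reducible apply IntF.succ | with_reducible apply IntF.val | with_reducible apply IntF.mk | (with_reducible refine Int.comp ?_ ?_; assumption) | (with_reducible refine Int.comp₂ ?_ ?_ ?_; assumption) | (with_reducible refine Int.comp₃ ?_ ?_ ?_ ?_; assumption) | (with_reducible refine Int.comp₄ ?_ ?_ ?_ ?_ ?_; assumption) | (with_reducible refine IntF.comp ?_ ?_; assumption) | (with_reducible refine IntF.comp₂ ?_ ?_ ?_; assumption) | (with_reducible refine IntF.comp₃ ?_ ?_ ?_ ?_; assumption) | with_reducible apply IntF.pair))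

theorem feq_og {E : α → P → α → Prop} (π : Γ) (p : P) (a : α) :
    FEq M (tw π E) (og E) p a ((π, a) : Γ × α) := by
  refine feq_of_map (θ := fun a => ((π, a) : Γ × α)) (IntF.pair (IntF.const _) IntF.id)
    (fun a b' s => ?_) p a
  constructor
  · rintro ⟨h1, h2⟩
    exact ⟨b'.2, Prod.ext h1.symm rfl, h2⟩
  · rintro ⟨a', rfl, h⟩
    exact ⟨rfl, h⟩

theorem feq_og_one {E : α → P → α → Prop} (p : P) (a : α) :
    FEq M E (og E) p a ((1, a) : Γ × α) := by
  have h := feq_og (M := M) (E := E) (1 : Γ) p a
  rwa [tw_one] at h

theorem feq_tw_og {E : α → P → α → Prop} (σ : Γ) (p : P) (x : Γ × α) :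
    FEq M (tw σ (og E)) (og E) p x ((σ * x.1, x.2) : Γ × α) := by
  refine feq_of_map (θ := fun x : Γ × α => (σ * x.1, x.2)) (by (repeat' (first | with_reducible exact IntF.id | with_reducible exact IntF.fst' | with_reducible exact IntF.snd' | with_reducible exact IntF.const _ | with_reducible exact Int.const _ | assumption | with_reducible apply Int.and | with_reducible apply Int.or | with_reducible apply Int.not | with_reducible apply Int.imp | with_reducible apply Int.iff | with_reducible apply Int.ne | with_reducible apply Int.eq | with_reducible apply Int.mem | with_reducible apply Int.subset | with_reducible apply Int.ltN | with_reducible apply Int.leN | with_reducible_and_instances apply Int.le | with_reducible_and_instances apply Int.lt | with_reducible apply Int.all | with_reducible apply Int.ex | with_reducible apply IntF.fst | with_reducible apply IntF.snd | with_reducible apply IntF.app | with_reducible apply IntF.inl | with_reducible apply IntF.inr | with_reducible_and_instances apply IntF.mul | with_reducible_and_instances apply IntF.inv | with_reducible_and_instances apply IntF.add | with_reducible_and_instances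 apply IntF.sub | with_reducible_and_instances apply IntF.neg | with_reducible_and_instances apply IntF.smul | with_reducible apply Int.fin | with_reducible apply IntF.sep | with_reducible apply IntF.lam | with_reducible apply IntF.insert | with_reducible apply IntF.singleton | with_reducible apply IntF.union | with_reducible apply IntF.iimage | with_reducible apply IntF.ite | with_reducible apply IntF.the | with_reducible apply IntF.irec | with_reducible apply IntF.succ | with_reducible apply IntF.val | with_reducible apply IntF.mk | (with_reducible refine Int.comp ?_ ?_; assumption) | (with_reducible refine Int.comp₂ ?_ ?_ ?_; assumption) | (with_reducible refine Int.comp₃ ?_ ?_ ?_ ?_; assumption) | (with_reducible refine Int.comp₄ ?_ ?_ ?_ ?_ ?_; assumption) | (with_reducible refine IntF.comp ?_ ?_; assumption) | (with_reducible refine IntF.comp₂ ?_ ?_ ?_; assumption) | (with_reducible refine IntF.comp₃ ?_ ?_ ?_ ?_; assumption) | with_reducible apply IntF.pair))) (fun a b' s => ?_) p x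
  constructor
  · rintro ⟨h1, h2⟩
    refine ⟨(σ⁻¹ * b'.1, b'.2), Prod.ext (mul_inv_cancel_left _ _) rfl, ?_, ?_⟩
    · change σ⁻¹ * b'.1 = a.1
      rw [h1]
      exact inv_mul_cancel_left _ _
    · change E b'.2 (a.1⁻¹ • σ⁻¹ • s) a.2
      rw [← mul_smul, ← mul_inv_rev]
      exact h2
  · rintro ⟨c, rfl, h1, h2⟩
    refine ⟨?_, ?_⟩
    · change σ * c.1 = σ * a.1
      rw [h1]
    · change E c.2 ((σ * a.1)⁻¹ • s) a.2
      rw [mul_inv_rev, mul_smul]
      exact h2

theorem good_og {E : α → P → α → Prop} (h : Good S E) : Good S (og (Γ := Γ) E) := by
  refine ⟨ig_og h.int, ?_, ?_⟩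
  · rintro s ⟨⟨π, a⟩, ha⟩
    have hI : Int M (fun b : α => ((π, b) : Γ × α) ∈ s) := by (repeat' (first | with_reducible exact IntF.id | with_reducible exact IntF.fst' | with_reducible exact IntF.snd' | with_reducible exact IntF.const _ | with_reducible exact Int.const _ | assumption | with_reducible apply Int.and | with_reducible apply Int.or | with_reducible apply Int.not | with_reducible apply Int.imp | with_reducible apply Int.iff | with_reducible apply Int.ne | with_reducible apply Int.eq | with_reducible apply Int.mem | with_reducible apply Int.subset | with_reducible apply Int.ltN | with_reducible apply Int.leN | with_reducible_and_instances apply Int.le | with_reducible_and_instances apply Int.lt | with_reducible apply Int.all | with_reducible apply Int.ex | with_reducible apply IntF.fst | with_reducible apply IntF.snd | with_reducible apply IntF.app | with_reducible apply IntF.inl | with_reducible apply IntF.inr | with_reducible_and_instances apply IntF.mul | with_reducible_and_instances apply IntF.inv | with_reducible_and_instances apply IntF.add | with_reducible_and_instances apply IntF.sub | with_reducible_and_instances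 apply IntF.neg | with_reducible_and_instances apply IntF.smul | with_reducible apply Int.fin | with_reducible apply IntF.sep | with_reducible apply IntF.lam | with_reducible apply IntF.insert | with_reducible apply IntF.singleton | with_reducible apply IntF.union | with_reducible apply IntF.iimage | with_reducible apply IntF.ite | with_reducible apply IntF.the | with_reducible apply IntF.irec | with_reducible apply IntF.succ | with_reducible apply IntF.val | with_reducible apply IntF.mk | (with_reducible refine Int.comp ?_ ?_; assumption) | (with_reducible refine Int.comp₂ ?_ ?_ ?_; assumption) | (with_reducible refine Int.comp₃ ?_ ?_ ?_ ?_; assumption) | (with_reducible refine Int.comp₄ ?_ ?_ ?_ ?_ ?_; assumption) | (with_reducible refine IntF.comp ?_ ?_; assumption) | (with_reducible refine IntF.comp₂ ?_ ?_ ?_; assumption) | (with_reducible refine IntF.comp₃ ?_ ?_ ?_ ?_; assumption) | with_reducible apply IntF.pair))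
    obtain ⟨b, h1, h2⟩ := h.wf (sep M fun b : α => ((π, b) : Γ × α) ∈ s) ⟨a, (mem_sep hI).2 ha⟩
    refine ⟨(π, b), (mem_sep hI).1 h1, ?_⟩
    rintro ⟨π', a'⟩ q h3 ⟨h4, h5⟩
    change π' = π at h4
    subst h4
    exact h2 a' _ ((mem_sep hI).2 h3) h5
  · rintro ⟨π, a⟩
    obtain ⟨l, hl⟩ := h.sym a
    obtain ⟨l', hl'⟩ := S.conj π l
    exact ⟨l', (hl.tw S π hl').congr S (h.int.tw π) (ig_og h.int) fun p => feq_og π p a⟩

theorem sy_og {E : α → P → α → Prop} (h : Good S E) {l l' : Λ} {a : α} (hl : Sy S E l a) {π : Γ}
    (hl' : ∀ a, S.U l' a → S.U l (π⁻¹ * a * π)) : Sy S (og (Γ := Γ) E) l' (π, a) :=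
  (hl.tw S π hl').congr S (h.int.tw π) (ig_og h.int) fun p => feq_og π p a

variable {G : Set P} (hG : IsGen M G)

theorem og_fam {E : α → P → α → Prop} (h : Good S E) :
    EqFam hG (fun (σ : Γ) (q : Γ × α) => (σ * q.1, q.2)) (fun q => nd hG (good_og h) q) :=
  ⟨Γ × α, _, og E, good_og h, fun q => q, IntF.id, fun _ => rfl, fun σ p x => feq_tw_og σ p x⟩

theorem nd_og_one {E : α → P → α → Prop} (h : Good S E) (a : α) :
    nd hG (good_og h) ((1, a) : Γ × α) = nd hG h a :=
  (nd_eq_of hG h (good_og h) fun p => feq_og_one p a).symm

theorem nd_og_eq {E : α → P → α → Prop} (h : Good S E) {l l' : Λ} {a : α} (hl : Sy S E l a)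
    {π : Γ} (hl' : ∀ a, S.U l' a → S.U l (π⁻¹ * a * π)) {σ : Γ} (hσ : S.U l' σ) :
    nd hG (good_og h) ((σ * π, a) : Γ × α) = nd hG (good_og h) ((π, a) : Γ × α) := by
  refine nd_eq_of hG _ _ fun p => ?_
  have h1 := sy_og h hl hl' σ hσ p
  have h2 : FEq M (tw σ (og E)) (og E) p ((π, a) : Γ × α) (σ * π, a) := feq_tw_og σ p (π, a)
  have hI := ig_og (Γ := Γ) h.int
  exact (h2.symm (hI.tw σ) hI).trans hI (hI.tw σ) hI h1

/-! ### Ordinals -/

variable (M δ) in
/-- Internal well-orders. -/
structure IWO (lt : δ → δ → Prop) : Prop where
  int : Int M (fun q : δ × δ => lt q.1 q.2)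
  tri : ∀ a b, lt a b ∨ a = b ∨ lt b a
  wf : ∀ s : IPow M δ, (∃ a, a ∈ s) → ∃ a, a ∈ s ∧ ∀ b, b ∈ s → ¬ lt b a

variable (P) in
/-- The graph of a well-order. -/
def oe (lt : δ → δ → Prop) : δ → P → δ → Prop := fun a _ b => lt a b

variable {lt : δ → δ → Prop} (hlt : IWO M δ lt)

variable (S) in
include hlt in
theorem good_oe : Good S (oe P lt) := by
  have h := hlt.int
  refine ⟨?_, ?_, fun a => ?_⟩
  · unfold IG oe
    exact Int.comp₂ (p := fun a b => lt a b) h (IntF.fst IntF.fst') IntF.snd'
  · intro s hs
    obtain ⟨a, h1, h2⟩ := hlt.wf s hs
    exact ⟨a, h1, fun a' _ h3 h4 => h2 a' h3 h4⟩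
  · obtain ⟨l⟩ := S.nonempty
    exact ⟨l, fun π _ p => FEq.refl p a⟩

variable (S) in
/-- The ordinals of a well-order. -/
noncomputable def od (a : δ) : NN S hG := nd hG (good_oe S hlt) a

theorem od_fam : EqFam hG (fun (_ : Γ) (a : δ) => a) (fun a => od S hG hlt a) :=
  ⟨δ, _, oe P lt, good_oe S hlt, fun a => a, IntF.id, fun _ => rfl, fun _ p a => FEq.refl p a⟩

theorem mem_od {w : NN S hG} {a : δ} :
    Plain.Mem w (od S hG hlt a) ↔ ∃ b, lt b a ∧ w = od S hG hlt b := by
  unfold od
  rw [mem_nd]
  constructor
  · rintro ⟨b, s, hs, h1, rfl⟩
    exact ⟨b, h1, rfl⟩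
  · rintro ⟨b, h1, rfl⟩
    obtain ⟨p, hp⟩ := hG.ne
    exact ⟨b, p, hp, h1, rfl⟩

theorem not_mem_self (hC : CollL M) (x : NN S hG) : ¬ Plain.Mem x x := by
  intro h
  have hup : ∀ z, Plain.Mem z (ZFA.up x x) ↔ z = x ∨ z = x := fun z => mem_up (M := NN S hG)
  obtain ⟨y, h1, h2⟩ := (nn_zf hG hC).foundation (ZFA.up x x) ⟨x, (hup x).2 (Or.inl rfl)⟩
  have h3 : y = x := ((hup y).1 h1).elim id id
  subst h3
  exact h2 y h1 h

theorem od_inj (hC : CollL M) {a b : δ} (h : od S hG hlt a = od S hG hlt b) : a = b := by
  rcases hlt.tri a b with h1 | h1 | h1
  · have h2 : Plain.Mem (od S hG hlt a) (od S hG hlt b) := (mem_od hG hlt).2 ⟨a, h1, rfl⟩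
    rw [h] at h2
    exact absurd h2 (not_mem_self hG hC _)
  · exact h1
  · have h2 : Plain.Mem (od S hG hlt b) (od S hG hlt a) := (mem_od hG hlt).2 ⟨b, h1, rfl⟩
    rw [h] at h2
    exact absurd h2 (not_mem_self hG hC _)

theorem exists_Od : ∃ z : NN S hG, ∀ w, Plain.Mem w z ↔ ∃ a, w = od S hG hlt a := by
  obtain ⟨z, hz⟩ := EqFam.set (od_fam (S := S) hG hlt) (Z := fun _ => True) (Int.const _) (by
    obtain ⟨l⟩ := S.nonempty
    exact ⟨l, fun _ _ _ _ => trivial⟩)
  exact ⟨z, fun w => (hz w).trans ⟨fun ⟨a, _, h⟩ => ⟨a, h⟩, fun ⟨a, h⟩ => ⟨a, trivial, h⟩⟩⟩

variable (S) in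
/-- The set of the ordinals of a well-order. -/
noncomputable def Od : NN S hG := (exists_Od (S := S) hG hlt).choose

theorem mem_Od {w : NN S hG} : Plain.Mem w (Od S hG hlt) ↔ ∃ a, w = od S hG hlt a :=
  (exists_Od (S := S) hG hlt).choose_spec w

/-- Ordinals are good. -/
theorem gd_Od (hC : CollL M) {σ : Type u} [ITy (NN S hG) σ] (hσ : Amo (NN S hG) σ) :
    Gd (NN S hG) σ (fun _ : El (Od S hG hlt) => True) := by
  refine hσ.wo (lt := fun x y : El (Od S hG hlt) => Mem x.1 y.1) ?_ ?_ ?_
  · exact Int.of_D₂ (S := fun v => Mem (v 0) (v 1)) (D.memf (DF.var _) (DF.var _))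
      fun _ _ => Iff.rfl
  · intro x y
    obtain ⟨a, ha⟩ := (mem_Od hG hlt).1 x.2
    obtain ⟨b, hb⟩ := (mem_Od hG hlt).1 y.2
    rcases hlt.tri a b with h | h | h
    · left
      rw [ha, hb]
      exact (mem_od hG hlt).2 ⟨a, h, rfl⟩
    · right
      left
      exact Subtype.ext (by rw [ha, hb, h])
    · right
      right
      rw [ha, hb]
      exact (mem_od hG hlt).2 ⟨b, h, rfl⟩
  · intro p hp hne
    obtain ⟨x, hx⟩ := hne
    have h0 : ∀ z, Plain.Mem z (code (M := NN S hG) (sep (NN S hG) p)) ↔
        ∃ a, a ∈ sep (NN S hG) p ∧ code a = z := fun z => mem_code_pow (M := NN S hG)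
    obtain ⟨y, h1, h2⟩ := (nn_zf hG hC).foundation (code (M := NN S hG) (sep (NN S hG) p))
      ⟨x.1, (h0 _).2 ⟨x, (mem_sep hp).2 hx, rfl⟩⟩
    obtain ⟨a, h3, rfl⟩ := (h0 _).1 h1
    exact ⟨a, (mem_sep hp).1 h3, fun b hb h4 => h2 b.1 ((h0 _).2 ⟨b, (mem_sep hp).2 hb, rfl⟩) h4⟩

end

end Pool.Agent.Helper672.ZFA.H635
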