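import Pool.Agent.H310R3.I1
import Pool.Agent.H635R2.RealM

/-!
# Pairs over the rational numbers: automorphisms
-/

set_option maxHeartbeats 1000000
set_option linter.all false
set_option synthInstance.maxSize 2000

namespace Pool.Agent.H310.IN

open FirstOrder FirstOrder.Language
open Pool.Agent.Helper672.ZFA
open Pool.Agent.Helper672.ZFA.H635 (IPerm)
open Pool.Agent.Helper672.ZFA.H310M (FS PGr fsu)
open Pool.Agent.H310

universe u

section PL

variable {K : Type*} [Field K] [LinearOrder K] [IsStrictOrderedRing K]

open Classical in
/-- The piecewise linear map that is the identity outside `(a, b)` and maps `p` to `q`. -/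
noncomputable def pl (a b p q x : K) : K :=
  if x ≤ a then x else if x ≤ p then a + (x - a) * ((q - a) / (p - a)) else
    if x ≤ b then b - (b - x) * ((b - q) / (b - p)) else x

variable {a b p q : K} (h1 : a < p) (h2 : p < b) (h3 : a < q) (h4 : q < b)

include h1 h2 h3 h4

theorem pl_spec (x : K) : (x ≤ a ∧ pl a b p q x = x) ∨
    (a < x ∧ x ≤ p ∧ pl a b p q x = a + (x - a) * ((q - a) / (p - a)) ∧ a < pl a b p q x ∧
      pl a b p q x ≤ q) ∨
    (p < x ∧ x ≤ b ∧ pl a b p q x = b - (b - x) * ((b - q) / (b - p)) ∧ q < pl a b p q x ∧
      pl a b p q x ≤ b) ∨ (b < x ∧ pl a b p q x = x) := by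
  have e1 : 0 < p - a := sub_pos.2 h1
  have e2 : 0 < b - p := sub_pos.2 h2
  have e3 : 0 < q - a := sub_pos.2 h3
  have e4 : 0 < b - q := sub_pos.2 h4
  have s1 : 0 < (q - a) / (p - a) := div_pos e3 e1
  have s2 : 0 < (b - q) / (b - p) := div_pos e4 e2
  have t1 : (p - a) * ((q - a) / (p - a)) = q - a := by
    field_simp
  have t2 : (b - p) * ((b - q) / (b - p)) = b - q := by
    field_simp
  unfold pl
  by_cases c1 : x ≤ a
  · left
    exact ⟨c1, if_pos c1⟩
  · have c1' := not_le.1 c1
    by_cases c2 : x ≤ p
    · right
      left
      rw [if_neg c1, if_pos c2]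
      have k1 : 0 < (x - a) * ((q - a) / (p - a)) := mul_pos (sub_pos.2 c1') s1
      have k2 : (x - a) * ((q - a) / (p - a)) ≤ (p - a) * ((q - a) / (p - a)) :=
        mul_le_mul_of_nonneg_right (by linarith) s1.le
      exact ⟨c1', c2, rfl, by linarith, by linarith⟩
    · have c2' := not_le.1 c2
      right
      right
      by_cases c3 : x ≤ b
      · left
        rw [if_neg c1, if_neg c2, if_pos c3]
        have k1 : 0 ≤ (b - x) * ((b - q) / (b - p)) := mul_nonneg (sub_nonneg.2 c3) s2.le
        have k2 : (b - x) * ((b - q) / (b - p)) < (b - p) * ((b - q) / (b - p)) :=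
          mul_lt_mul_of_pos_right (by linarith) s2
        exact ⟨c2', c3, rfl, by linarith, by linarith⟩
      · right
        rw [if_neg c1, if_neg c2, if_neg c3]
        exact ⟨not_le.1 c3, rfl⟩

theorem pl_mono {x y : K} (hxy : x < y) : pl a b p q x < pl a b p q y := by
  have e1 : 0 < p - a := sub_pos.2 h1
  have e2 : 0 < b - p := sub_pos.2 h2
  have e3 : 0 < q - a := sub_pos.2 h3
  have e4 : 0 < b - q := sub_pos.2 h4
  have s1 : 0 < (q - a) / (p - a) := div_pos e3 e1
  have s2 : 0 < (b - q) / (b - p) := div_pos e4 e2
  rcases pl_spec h1 h2 h3 h4 x with ⟨u1, u2⟩ | ⟨u1, u2, u3, u4, u5⟩ | ⟨u1, u2, u3, u4, u5⟩ |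
    ⟨u1, u2⟩ <;>
  rcases pl_spec h1 h2 h3 h4 y with ⟨v1, v2⟩ | ⟨v1, v2, v3, v4, v5⟩ | ⟨v1, v2, v3, v4, v5⟩ |
    ⟨v1, v2⟩ <;>
  first
    | linarith
    | (rw [u3, v3]
       have k := mul_lt_mul_of_pos_right (sub_lt_sub_right hxy a) s1
       linarith)
    | (rw [u3, v3]
       have k := mul_lt_mul_of_pos_right (sub_lt_sub_left hxy b) s2
       linarith)

theorem pl_inv (x : K) : pl a b q p (pl a b p q x) = x := by
  have e1 : p - a ≠ 0 := (sub_pos.2 h1).ne'
  have e2 : b - p ≠ 0 := (sub_pos.2 h2).ne'
  have e3 : q - a ≠ 0 := (sub_pos.2 h3).ne'
  have e4 : b - q ≠ 0 := (sub_pos.2 h4).ne'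
  rcases pl_spec h1 h2 h3 h4 x with ⟨u1, u2⟩ | ⟨u1, u2, u3, u4, u5⟩ | ⟨u1, u2, u3, u4, u5⟩ |
    ⟨u1, u2⟩ <;>
  rcases pl_spec h3 h4 h1 h2 (pl a b p q x) with ⟨v1, v2⟩ | ⟨v1, v2, v3, v4, v5⟩ |
    ⟨v1, v2, v3, v4, v5⟩ | ⟨v1, v2⟩ <;>
  first
    | (rw [v2, u2]; done)
    | (exfalso; linarith)
    | (rw [v3, u3]; field_simp; ring)
    | linarith

theorem pl_p : pl a b p q p = q := by
  rcases pl_spec h1 h2 h3 h4 p with ⟨u1, u2⟩ | ⟨u1, u2, u3, u4, u5⟩ | ⟨u1, u2, u3, u4, u5⟩ |
    ⟨u1, u2⟩
  · exact absurd h1 (not_lt.2 u1)
  · rw [u3, mul_div_cancel₀ _ (sub_pos.2 h1).ne']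
    ring
  · exact absurd u1 (lt_irrefl _)
  · exact absurd h2 (not_lt.2 u1.le)

theorem pl_out {x : K} (hx : x ≤ a ∨ b ≤ x) : pl a b p q x = x := by
  rcases pl_spec h1 h2 h3 h4 x with ⟨u1, u2⟩ | ⟨u1, u2, u3, u4, u5⟩ | ⟨u1, u2, u3, u4, u5⟩ |
    ⟨u1, u2⟩
  · exact u2
  · rcases hx with h | h <;> exfalso <;> linarith
  · rcases hx with h | h
    · exfalso
      linarith
    · have : x = b := le_antisymm u2 h
      rw [u3, this]
      ring
  · exact u2

end PL

variable {M : Type u} [L.Structure M] [hM : IsModel M]

theorem int_ltQ : Int M (fun w : IQ M × IQ M => w.1 < w.2) :=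
  Helper672.ZFA.Int.lt IntF.fst' IntF.snd'

theorem int_leQ : Int M (fun w : IQ M × IQ M => w.1 ≤ w.2) :=
  Helper672.ZFA.Int.le IntF.fst' IntF.snd'

theorem int_pl (a b p q : IQ M) : IntF M (fun x => pl a b p q x) := by
  unfold pl
  have hle := int_leQ (M := M)
  have h1 : ∀ c : IQ M, Int M (fun x : IQ M => x ≤ c) := fun c =>
    Int.comp₂ (p := fun x y => x ≤ y) hle IntF.id (IntF.const c)
  refine IntF.ite (h1 a) IntF.id (IntF.ite (h1 p) ?_ (IntF.ite (h1 b) ?_ IntF.id))
  · (repeat' (first | with_reducible exact IntF.id | with_reducible exact IntF.fst' | with_reducible exact IntF.snd' | with_reducible exact IntF.const _ | with_reducible exact Int.const _ | assumption | with_reducible apply Int.and | with_reducible apply Int.or | with_reducible apply Int.not | with_reducible apply Int.imp | with_reducible apply Int.iff | with_reducible apply Int.ne | with_reducible apply Int.eq | with_reducible apply Int.mem | with_reducible apply Int.subset | with_reducible apply Int.ltN | with_reducible apply Int.leN | with_reducible_and_instances apply Int.le | with_reducible_and_instances apply Int.lt | with_reducible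 apply Int.all | with_reducible apply Int.ex | with_reducible apply IntF.fst | with_reducible apply IntF.snd | with_reducible apply IntF.app | with_reducible apply IntF.inl | with_reducible apply IntF.inr | with_reducible_and_instances apply IntF.mul | with_reducible_and_instances apply IntF.inv | with_reducible_and_instances apply IntF.add | with_reducible_and_instances apply IntF.sub | with_reducible_and_instances apply IntF.neg | with_reducible_and_instances apply IntF.smul | with_reducible apply Int.fin | with_reducible apply IntF.sep | with_reducible apply IntF.lam | with_reducible apply IntF.insert | with_reducible apply IntF.singleton | with_reducible apply IntF.union | with_reducible apply IntF.iimage | with_reducible apply IntF.ite | with_reducible apply IntF.the | with_reducible apply IntF.irec | with_reducible apply IntF.succ | with_reducible apply IntF.val | with_reducible apply IntF.mk | (with_reducible refine Int.comp ?_ ?_; assumption) | (with_reducible refine Int.comp₂ ?_ ?_ ?_; assumption) | (with_reducible refine Int.comp₃ ?_ ?_ ?_ ?_; assumption) | (with_reducible refine Int.comp₄ ?_ ?_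 ?_ ?_ ?_; assumption) | (with_reducible refine IntF.comp ?_ ?_; assumption) | (with_reducible refine IntF.comp₂ ?_ ?_ ?_; assumption) | (with_reducible refine IntF.comp₃ ?_ ?_ ?_ ?_; assumption) | with_reducible apply IntF.pair))
  · (repeat' (first | with_reducible exact IntF.id | with_reducible exact IntF.fst' | with_reducible exact IntF.snd' | with_reducible exact IntF.const _ | with_reducible exact Int.const _ | assumption | with_reducible apply Int.and | with_reducible apply Int.or | with_reducible apply Int.not | with_reducible apply Int.imp | with_reducible apply Int.iff | with_reducible apply Int.ne | with_reducible apply Int.eq | with_reducible apply Int.mem | with_reducible apply Int.subset | with_reducible apply Int.ltN | with_reducible apply Int.leN | with_reducible_and_instances apply Int.le | with_reducible_and_instances apply Int.lt | with_reducible apply Int.all | with_reducible apply Int.ex | with_reducible apply IntF.fst | with_reducible apply IntF.snd | with_reducible apply IntF.app | with_reducible apply IntF.inl | with_reducible apply IntF.inr | with_reducible_and_instances apply IntF.mul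 | with_reducible_and_instances apply IntF.inv | with_reducible_and_instances apply IntF.add | with_reducible_and_instances apply IntF.sub | with_reducible_and_instances apply IntF.neg | with_reducible_and_instances apply IntF.smul | with_reducible apply Int.fin | with_reducible apply IntF.sep | with_reducible apply IntF.lam | with_reducible apply IntF.insert | with_reducible apply IntF.singleton | with_reducible apply IntF.union | with_reducible apply IntF.iimage | with_reducible apply IntF.ite | with_reducible apply IntF.the | with_reducible apply IntF.irec | with_reducible apply IntF.succ | with_reducible apply IntF.val | with_reducible apply IntF.mk | (with_reducible refine Int.comp ?_ ?_; assumption) | (with_reducible refine Int.comp₂ ?_ ?_ ?_; assumption) | (with_reducible refine Int.comp₃ ?_ ?_ ?_ ?_; assumption) | (with_reducible refine Int.comp₄ ?_ ?_ ?_ ?_ ?_; assumption) | (with_reducible refine IntF.comp ?_ ?_; assumption) | (with_reducible refine IntF.comp₂ ?_ ?_ ?_; assumption) | (with_reducible refine IntF.comp₃ ?_ ?_ ?_ ?_; assumption) | with_reducible apply IntF.pair))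

variable (M) in
/-- The index set: two copies of the rationals. -/
abbrev X2 : Type u := IQ M ⊕ IQ M

/-- The pair of an index. -/
def qv (x : X2 M) : IQ M := match x with
  | Sum.inl q => q
  | Sum.inr q => q

theorem int_qv : IntF M (fun x : X2 M => qv x) := by
  refine IntF.of_rel (r := fun x q => x = Sum.inl q ∨ x = Sum.inr q) (by (repeat' (first | with_reducible exact IntF.id | with_reducible exact IntF.fst' | with_reducible exact IntF.snd' | with_reducible exact IntF.const _ | with_reducible exact Int.const _ | assumption | with_reducible apply Int.and | with_reducible apply Int.or | with_reducible apply Int.not | with_reducible apply Int.imp | with_reducible apply Int.iff | with_reducible apply Int.ne | with_reducible apply Int.eq | with_reducible apply Int.mem | with_reducible apply Int.subset | with_reducible apply Int.ltN | with_reducible apply Int.leN | with_reducible_and_instances apply Int.le | with_reducible_and_instances apply Int.lt | with_reducible apply Int.all | with_reducible apply Int.ex | with_reducible apply IntF.fst | with_reducible apply IntF.snd | with_reducible apply IntF.app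 | with_reducible apply IntF.inl | with_reducible apply IntF.inr | with_reducible_and_instances apply IntF.mul | with_reducible_and_instances apply IntF.inv | with_reducible_and_instances apply IntF.add | with_reducible_and_instances apply IntF.sub | with_reducible_and_instances apply IntF.neg | with_reducible_and_instances apply IntF.smul | with_reducible apply Int.fin | with_reducible apply IntF.sep | with_reducible apply IntF.lam | with_reducible apply IntF.insert | with_reducible apply IntF.singleton | with_reducible apply IntF.union | with_reducible apply IntF.iimage | with_reducible apply IntF.ite | with_reducible apply IntF.the | with_reducible apply IntF.irec | with_reducible apply IntF.succ | with_reducible apply IntF.val | with_reducible apply IntF.mk | (with_reducible refine Int.comp ?_ ?_; assumption) | (with_reducible refine Int.comp₂ ?_ ?_ ?_; assumption) | (with_reducible refine Int.comp₃ ?_ ?_ ?_ ?_; assumption) | (with_reducible refine Int.comp₄ ?_ ?_ ?_ ?_ ?_; assumption) | (with_reducible refine IntF.comp ?_ ?_; assumption) | (with_reducible refine IntF.comp₂ ?_ ?_ ?_; assumption) | (with_reducible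 refine IntF.comp₃ ?_ ?_ ?_ ?_; assumption) | with_reducible apply IntF.pair))) fun x q => ?_
  constructor
  · rintro (rfl | rfl) <;> rfl
  · rintro rfl
    rcases x with q | q
    · exact Or.inl rfl
    · exact Or.inr rfl

variable (M) in
/-- The automorphisms. -/
def HQ : Subgroup (IPerm M (X2 M)) where
  carrier := {g | ∀ x y, qv x < qv y ↔ qv (g.1.1 x) < qv (g.1.1 y)}
  mul_mem' {a b} ha hb := by
    intro x y
    rw [hb x y, ha (b.1.1 x) (b.1.1 y), IPerm.mul_apply, IPerm.mul_apply]
  one_mem' := by
    intro x y
    rw [IPerm.one_apply, IPerm.one_apply]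
  inv_mem' {a} ha := by
    have e1 : ∀ x, a.1.1 (a.1.2 x) = x := a.2.1
    intro x y
    change _ ↔ qv (a.1.2 x) < qv (a.1.2 y)
    rw [ha (a.1.2 x), e1, e1]

variable (M) in
/-- The automorphisms. -/
def ZQ : PGr M (X2 M) where
  H := HQ M
  int := by
    have h1 := int_qv (M := M)
    have h2 := int_ltQ (M := M)
    change Int M (fun g : IPerm M (X2 M) => ∀ x y, qv x < qv y ↔ qv (g.1.1 x) < qv (g.1.1 y))
    refine Int.all (Int.all (Int.iff ?_ ?_))
    · refine Int.comp₂ (p := fun x y : IQ M => x < y) h2 ?_ ?_ <;> (repeat' (first | with_reducible exact IntF.id | with_reducible exact IntF.fst' | with_reducible exact IntF.snd' | with_reducible exact IntF.const _ | with_reducible exact Int.const _ | assumption | with_reducible apply Int.and | with_reducible apply Int.or | with_reducible apply Int.not | with_reducible apply Int.imp | with_reducible apply Int.iff | with_reducible apply Int.ne | with_reducible apply Int.eq | with_reducible apply Int.mem | with_reducible apply Int.subset | with_reducible apply Int.ltN | with_reducible apply Int.leN | with_reducible_and_instances apply Int.le | with_reducible_and_instances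 apply Int.lt | with_reducible apply Int.all | with_reducible apply Int.ex | with_reducible apply IntF.fst | with_reducible apply IntF.snd | with_reducible apply IntF.app | with_reducible apply IntF.inl | with_reducible apply IntF.inr | with_reducible_and_instances apply IntF.mul | with_reducible_and_instances apply IntF.inv | with_reducible_and_instances apply IntF.add | with_reducible_and_instances apply IntF.sub | with_reducible_and_instances apply IntF.neg | with_reducible_and_instances apply IntF.smul | with_reducible apply Int.fin | with_reducible apply IntF.sep | with_reducible apply IntF.lam | with_reducible apply IntF.insert | with_reducible apply IntF.singleton | with_reducible apply IntF.union | with_reducible apply IntF.iimage | with_reducible apply IntF.ite | with_reducible apply IntF.the | with_reducible apply IntF.irec | with_reducible apply IntF.succ | with_reducible apply IntF.val | with_reducible apply IntF.mk | (with_reducible refine Int.comp ?_ ?_; assumption) | (with_reducible refine Int.comp₂ ?_ ?_ ?_; assumption) | (with_reducible refine Int.comp₃ ?_ ?_ ?_ ?_; assumption) | (with_reducible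 refine Int.comp₄ ?_ ?_ ?_ ?_ ?_; assumption) | (with_reducible refine IntF.comp ?_ ?_; assumption) | (with_reducible refine IntF.comp₂ ?_ ?_ ?_; assumption) | (with_reducible refine IntF.comp₃ ?_ ?_ ?_ ?_; assumption) | with_reducible apply IntF.pair))
    · refine Int.comp₂ (p := fun x y : IQ M => x < y) h2 ?_ ?_ <;> (repeat' (first | with_reducible exact IntF.id | with_reducible exact IntF.fst' | with_reducible exact IntF.snd' | with_reducible exact IntF.const _ | with_reducible exact Int.const _ | assumption | with_reducible apply Int.and | with_reducible apply Int.or | with_reducible apply Int.not | with_reducible apply Int.imp | with_reducible apply Int.iff | with_reducible apply Int.ne | with_reducible apply Int.eq | with_reducible apply Int.mem | with_reducible apply Int.subset | with_reducible apply Int.ltN | with_reducible apply Int.leN | with_reducible_and_instances apply Int.le | with_reducible_and_instances apply Int.lt | with_reducible apply Int.all | with_reducible apply Int.ex | with_reducible apply IntF.fst | with_reducible apply IntF.snd | with_reducible apply IntF.app | with_reducible apply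 IntF.inl | with_reducible apply IntF.inr | with_reducible_and_instances apply IntF.mul | with_reducible_and_instances apply IntF.inv | with_reducible_and_instances apply IntF.add | with_reducible_and_instances apply IntF.sub | with_reducible_and_instances apply IntF.neg | with_reducible_and_instances apply IntF.smul | with_reducible apply Int.fin | with_reducible apply IntF.sep | with_reducible apply IntF.lam | with_reducible apply IntF.insert | with_reducible apply IntF.singleton | with_reducible apply IntF.union | with_reducible apply IntF.iimage | with_reducible apply IntF.ite | with_reducible apply IntF.the | with_reducible apply IntF.irec | with_reducible apply IntF.succ | with_reducible apply IntF.val | with_reducible apply IntF.mk | (with_reducible refine Int.comp ?_ ?_; assumption) | (with_reducible refine Int.comp₂ ?_ ?_ ?_; assumption) | (with_reducible refine Int.comp₃ ?_ ?_ ?_ ?_; assumption) | (with_reducible refine Int.comp₄ ?_ ?_ ?_ ?_ ?_; assumption) | (with_reducible refine IntF.comp ?_ ?_; assumption) | (with_reducible refine IntF.comp₂ ?_ ?_ ?_; assumption) | (with_reducible refine IntF.comp₃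 ?_ ?_ ?_ ?_; assumption) | with_reducible apply IntF.pair))

theorem mem_HQ {g : IPerm M (X2 M)} : g ∈ (ZQ M).H ↔
    ∀ x y, qv x < qv y ↔ qv (g.1.1 x) < qv (g.1.1 y) := Iff.rfl

/-- The lift of a map. -/
def lft (h : IQ M → IQ M) (x : X2 M) : X2 M := match x with
  | Sum.inl q => Sum.inl (h q)
  | Sum.inr q => Sum.inr (h q)

theorem int_lft {h : IQ M → IQ M} (hi : IntF M h) : IntF M (fun x : X2 M => lft h x) := by
  refine IntF.of_rel (r := fun x y => (∃ q, x = Sum.inl q ∧ y = Sum.inl (h q)) ∨
    ∃ q, x = Sum.inr q ∧ y = Sum.inr (h q)) (by (repeat' (first | with_reducible exact IntF.id | with_reducible exact IntF.fst' | with_reducible exact IntF.snd' | with_reducible exact IntF.const _ | with_reducible exact Int.const _ | assumption | with_reducible apply Int.and | with_reducible apply Int.or | with_reducible apply Int.not | with_reducible apply Int.imp | with_reducible apply Int.iff | with_reducible apply Int.ne | with_reducible apply Int.eq | with_reducible apply Int.mem | with_reducible apply Int.subset | with_reducible apply Int.ltN | with_reducible apply Int.leN | with_reducible_and_instances apply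 Int.le | with_reducible_and_instances apply Int.lt | with_reducible apply Int.all | with_reducible apply Int.ex | with_reducible apply IntF.fst | with_reducible apply IntF.snd | with_reducible apply IntF.app | with_reducible apply IntF.inl | with_reducible apply IntF.inr | with_reducible_and_instances apply IntF.mul | with_reducible_and_instances apply IntF.inv | with_reducible_and_instances apply IntF.add | with_reducible_and_instances apply IntF.sub | with_reducible_and_instances apply IntF.neg | with_reducible_and_instances apply IntF.smul | with_reducible apply Int.fin | with_reducible apply IntF.sep | with_reducible apply IntF.lam | with_reducible apply IntF.insert | with_reducible apply IntF.singleton | with_reducible apply IntF.union | with_reducible apply IntF.iimage | with_reducible apply IntF.ite | with_reducible apply IntF.the | with_reducible apply IntF.irec | with_reducible apply IntF.succ | with_reducible apply IntF.val | with_reducible apply IntF.mk | (with_reducible refine Int.comp ?_ ?_; assumption) | (with_reducible refine Int.comp₂ ?_ ?_ ?_; assumption) | (with_reducible refine Int.comp₃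 ?_ ?_ ?_ ?_; assumption) | (with_reducible refine Int.comp₄ ?_ ?_ ?_ ?_ ?_; assumption) | (with_reducible refine IntF.comp ?_ ?_; assumption) | (with_reducible refine IntF.comp₂ ?_ ?_ ?_; assumption) | (with_reducible refine IntF.comp₃ ?_ ?_ ?_ ?_; assumption) | with_reducible apply IntF.pair))) fun x y => ?_
  constructor
  · rintro (⟨q, rfl, rfl⟩ | ⟨q, rfl, rfl⟩) <;> rfl
  · rintro rfl
    rcases x with q | q
    · exact Or.inl ⟨q, rfl, rfl⟩
    · exact Or.inr ⟨q, rfl, rfl⟩

theorem qv_lft (h : IQ M → IQ M) (x : X2 M) : qv (lft h x) = h (qv x) := by
  rcases x with q | q <;> rfl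

theorem lft_fix {h : IQ M → IQ M} {x : X2 M} (hx : h (qv x) = qv x) : lft h x = x := by
  rcases x with q | q
  · exact congrArg Sum.inl hx
  · exact congrArg Sum.inr hx

theorem lft_lft {h h' : IQ M → IQ M} (hh : ∀ q, h (h' q) = q) (x : X2 M) :
    lft h (lft h' x) = x := by
  rcases x with q | q
  · exact congrArg Sum.inl (hh q)
  · exact congrArg Sum.inr (hh q)

theorem exists_pl {a b p q : IQ M} (h1 : a < p) (h2 : p < b) (h3 : a < q) (h4 : q < b) :
    ∃ g ∈ (ZQ M).H, (∀ x, qv x ≤ a ∨ b ≤ qv x → g.1.1 x = x) ∧
      g.1.1 (Sum.inl p) = Sum.inl q ∧ g.1.1 (Sum.inr p) = Sum.inr q := by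
  have hm : StrictMono (fun x => pl a b p q x) := fun x y h => pl_mono h1 h2 h3 h4 h
  refine ⟨⟨(⟨lft (fun x => pl a b p q x), int_lft (int_pl a b p q)⟩,
    ⟨lft (fun x => pl a b q p x), int_lft (int_pl a b q p)⟩),
    lft_lft fun x => pl_inv h3 h4 h1 h2 x, lft_lft fun x => pl_inv h1 h2 h3 h4 x⟩, ?_, ?_, ?_, ?_⟩
  · intro x y
    change qv x < qv y ↔ qv (lft _ x) < qv (lft _ y)
    rw [qv_lft, qv_lft]
    exact hm.lt_iff_lt.symm
  · intro x hx
    exact lft_fix (pl_out h1 h2 h3 h4 hx)
  · exact congrArg Sum.inl (pl_p h1 h2 h3 h4)
  · exact congrArg Sum.inr (pl_p h1 h2 h3 h4)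

/-- Homogeneity. -/
theorem exists_hom (E : FS M (X2 M)) {p q : IQ M} (hp : ∀ x, x ∈ E.1 → qv x ≠ p)
    (hq : ∀ x, x ∈ E.1 → qv x ≠ q) (hpq : ∀ x, x ∈ E.1 → (qv x < p ↔ qv x < q)) :
    ∃ g ∈ (ZQ M).H, (∀ x, x ∈ E.1 → g.1.1 x = x) ∧
      g.1.1 (Sum.inl p) = Sum.inl q ∧ g.1.1 (Sum.inr p) = Sum.inr q := by
  have hqv := int_qv (M := M)
  have hfin : FinP M (fun r : IQ M => ∃ x, x ∈ E.1 ∧ qv x = r) := by
    have h0 : FinP M (fun x : X2 M => x ∈ E.1) := ⟨E.1, E.2, fun _ h => h⟩
    exact h0.image hqv
  have h2 := int_ltQ (M := M)
  have hE : Int M (fun r : IQ M => ∃ x, x ∈ E.1 ∧ qv x = r) := by (repeat' (first | with_reducible exact IntF.id | with_reducible exact IntF.fst' | with_reducible exact IntF.snd' | with_reducible exact IntF.const _ | with_reducible exact Int.const _ | assumption | with_reducible apply Int.and | with_reducible apply Int.or | with_reducible apply Int.not | with_reducible apply Int.imp | with_reducible apply Int.iff | with_reducible apply Int.ne | with_reducible apply Int.eq | with_reducible apply Int.mem | with_reducible apply Int.subset | with_reducible apply Int.ltN | with_reducible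 apply Int.leN | with_reducible_and_instances apply Int.le | with_reducible_and_instances apply Int.lt | with_reducible apply Int.all | with_reducible apply Int.ex | with_reducible apply IntF.fst | with_reducible apply IntF.snd | with_reducible apply IntF.app | with_reducible apply IntF.inl | with_reducible apply IntF.inr | with_reducible_and_instances apply IntF.mul | with_reducible_and_instances apply IntF.inv | with_reducible_and_instances apply IntF.add | with_reducible_and_instances apply IntF.sub | with_reducible_and_instances apply IntF.neg | with_reducible_and_instances apply IntF.smul | with_reducible apply Int.fin | with_reducible apply IntF.sep | with_reducible apply IntF.lam | with_reducible apply IntF.insert | with_reducible apply IntF.singleton | with_reducible apply IntF.union | with_reducible apply IntF.iimage | with_reducible apply IntF.ite | with_reducible apply IntF.the | with_reducible apply IntF.irec | with_reducible apply IntF.succ | with_reducible apply IntF.val | with_reducible apply IntF.mk | (with_reducible refine Int.comp ?_ ?_; assumption) | (with_reducible refine Int.comp₂ ?_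 ?_ ?_; assumption) | (with_reducible refine Int.comp₃ ?_ ?_ ?_ ?_; assumption) | (with_reducible refine Int.comp₄ ?_ ?_ ?_ ?_ ?_; assumption) | (with_reducible refine IntF.comp ?_ ?_; assumption) | (with_reducible refine IntF.comp₂ ?_ ?_ ?_; assumption) | (with_reducible refine IntF.comp₃ ?_ ?_ ?_ ?_; assumption) | with_reducible apply IntF.pair))
  have hlp : Int M (fun r : IQ M => r < p) :=
    Int.comp₂ (p := fun x y : IQ M => x < y) h2 IntF.id (IntF.const p)
  have hpl : Int M (fun r : IQ M => p < r) :=
    Int.comp₂ (p := fun x y : IQ M => x < y) h2 (IntF.const p) IntF.id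
  obtain ⟨a, ha1, ha2, ha3⟩ : ∃ a, a < p ∧ a < q ∧ ∀ x, x ∈ E.1 → qv x < p → qv x ≤ a := by
    by_cases hne : ∃ r, (∃ x, x ∈ E.1 ∧ qv x = r) ∧ r < p
    · obtain ⟨r, ⟨⟨x, hx, rfl⟩, h1⟩, h2⟩ := FinP.exists_min (p := fun r : IQ M =>
        (∃ x, x ∈ E.1 ∧ qv x = r) ∧ r < p) (Int.and hE hlp) (hfin.mono fun r h => h.1)
        (lt := fun a b => b < a) (Int.comp₂ (p := fun x y : IQ M => x < y) h2 IntF.snd' IntF.fst') (fun a => lt_irrefl a)
        (fun a b c h h' => h'.trans h) hne
      exact ⟨_, h1, (hpq x hx).1 h1, fun y hy hyp => not_lt.1 (h2 _ ⟨⟨y, hy, rfl⟩, hyp⟩)⟩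
    · refine ⟨min p q - 1, ?_, ?_, fun x hx hxp => absurd ⟨_, ⟨x, hx, rfl⟩, hxp⟩ hne⟩
      · have := min_le_left p q
        linarith
      · have := min_le_right p q
        linarith
  obtain ⟨b, hb1, hb2, hb3⟩ : ∃ b, p < b ∧ q < b ∧ ∀ x, x ∈ E.1 → p < qv x → b ≤ qv x := by
    by_cases hne : ∃ r, (∃ x, x ∈ E.1 ∧ qv x = r) ∧ p < r
    · obtain ⟨r, ⟨⟨x, hx, rfl⟩, h1⟩, h2⟩ := FinP.exists_min (p := fun r : IQ M =>
        (∃ x, x ∈ E.1 ∧ qv x = r) ∧ p < r) (Int.and hE hpl) (hfin.mono fun r h => h.1)
        (lt := fun a b => a < b) h2 (fun a => lt_irrefl a)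
        (fun a b c h h' => h.trans h') hne
      refine ⟨_, h1, ?_, fun y hy hyp => not_lt.1 (h2 _ ⟨⟨y, hy, rfl⟩, hyp⟩)⟩
      have h3 : ¬ qv x < q := fun h => absurd ((hpq x hx).2 h) (not_lt.2 h1.le)
      exact lt_of_le_of_ne (not_lt.1 h3) (hq x hx).symm
    · refine ⟨max p q + 1, ?_, ?_, fun x hx hxp => absurd ⟨_, ⟨x, hx, rfl⟩, hxp⟩ hne⟩
      · have := le_max_left p q
        linarith
      · have := le_max_right p q
        linarith
  obtain ⟨g, hg, h1, h2⟩ := exists_pl ha1 hb1 ha2 hb2
  refine ⟨g, hg, fun x hx => h1 x ?_, h2⟩
  rcases lt_trichotomy (qv x) p with h | h | h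
  · exact Or.inl (ha3 x hx h)
  · exact absurd h (hp x hx)
  · exact Or.inr (hb3 x hx h)

/-- The swap of a pair. -/
theorem exists_sw (q : IQ M) : ∃ g ∈ (ZQ M).H, (∀ x, qv x ≠ q → g.1.1 x = x) ∧
    g.1.1 (Sum.inl q) = Sum.inr q ∧ g.1.1 (Sum.inr q) = Sum.inl q := by
  classical
  have hi : IntF M (fun x : X2 M => if x = Sum.inl q then (Sum.inr q : X2 M) else
    if x = Sum.inr q then Sum.inl q else x) := by (repeat' (first | with_reducible exact IntF.id | with_reducible exact IntF.fst' | with_reducible exact IntF.snd' | with_reducible exact IntF.const _ | with_reducible exact Int.const _ | assumption | with_reducible apply Int.and | with_reducible apply Int.or | with_reducible apply Int.not | with_reducible apply Int.imp | with_reducible apply Int.iff | with_reducible apply Int.ne | with_reducible apply Int.eq | with_reducible apply Int.mem | with_reducible apply Int.subset | with_reducible apply Int.ltN | with_reducible apply Int.leN | with_reducible_and_instances apply Int.le | with_reducible_and_instances apply Int.lt | with_reducible apply Int.all | with_reducible apply Int.ex | with_reducible apply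 IntF.fst | with_reducible apply IntF.snd | with_reducible apply IntF.app | with_reducible apply IntF.inl | with_reducible apply IntF.inr | with_reducible_and_instances apply IntF.mul | with_reducible_and_instances apply IntF.inv | with_reducible_and_instances apply IntF.add | with_reducible_and_instances apply IntF.sub | with_reducible_and_instances apply IntF.neg | with_reducible_and_instances apply IntF.smul | with_reducible apply Int.fin | with_reducible apply IntF.sep | with_reducible apply IntF.lam | with_reducible apply IntF.insert | with_reducible apply IntF.singleton | with_reducible apply IntF.union | with_reducible apply IntF.iimage | with_reducible apply IntF.ite | with_reducible apply IntF.the | with_reducible apply IntF.irec | with_reducible apply IntF.succ | with_reducible apply IntF.val | with_reducible apply IntF.mk | (with_reducible refine Int.comp ?_ ?_; assumption) | (with_reducible refine Int.comp₂ ?_ ?_ ?_; assumption) | (with_reducible refine Int.comp₃ ?_ ?_ ?_ ?_; assumption) | (with_reducible refine Int.comp₄ ?_ ?_ ?_ ?_ ?_; assumption) | (with_reducible refine IntF.comp ?_ ?_; assumption)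 | (with_reducible refine IntF.comp₂ ?_ ?_ ?_; assumption) | (with_reducible refine IntF.comp₃ ?_ ?_ ?_ ?_; assumption) | with_reducible apply IntF.pair))
  have hh : ∀ x : X2 M, (fun x : X2 M => if x = Sum.inl q then (Sum.inr q : X2 M) else
      if x = Sum.inr q then Sum.inl q else x) ((fun x : X2 M => if x = Sum.inl q then
      (Sum.inr q : X2 M) else if x = Sum.inr q then Sum.inl q else x) x) = x := by
    intro x
    by_cases h1 : x = Sum.inl q
    · simp [h1]
    · by_cases h2 : x = Sum.inr q
      · simp [h2]
      · simp [h1, h2]
  have hqv : ∀ x : X2 M, qv (if x = Sum.inl q then (Sum.inr q : X2 M) else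
      if x = Sum.inr q then Sum.inl q else x) = qv x := by
    intro x
    by_cases h1 : x = Sum.inl q
    · rw [if_pos h1, h1]
      rfl
    · by_cases h2 : x = Sum.inr q
      · rw [if_neg h1, if_pos h2, h2]
        rfl
      · rw [if_neg h1, if_neg h2]
  refine ⟨⟨(⟨_, hi⟩, ⟨_, hi⟩), hh, hh⟩, ?_, ?_, ?_, ?_⟩
  · intro x y
    change _ ↔ qv (if x = Sum.inl q then (Sum.inr q : X2 M) else
      if x = Sum.inr q then Sum.inl q else x) < qv (if y = Sum.inl q then (Sum.inr q : X2 M) else
      if y = Sum.inr q then Sum.inl q else y)
    rw [hqv, hqv]
  · intro x hx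
    change (if x = Sum.inl q then (Sum.inr q : X2 M) else
      if x = Sum.inr q then Sum.inl q else x) = x
    rw [if_neg (fun h => hx (by rw [h]; rfl)), if_neg (fun h => hx (by rw [h]; rfl))]
  · change (if (Sum.inl q : X2 M) = Sum.inl q then (Sum.inr q : X2 M) else _) = _
    rw [if_pos rfl]
  · change (if (Sum.inr q : X2 M) = Sum.inl q then (Sum.inr q : X2 M) else
      if (Sum.inr q : X2 M) = Sum.inr q then Sum.inl q else Sum.inr q) = _
    rw [if_neg (by simp), if_pos rfl]

end Pool.Agent.H310.IN
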