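import Pool.Agent.H310R3.W8
import Pool.Agent.H310R3.NA1

/-!
# Hausdorff spaces with a dense discrete subspace whose filters have least elements
-/

set_option maxHeartbeats 1000000
set_option linter.all false
set_option synthInstance.maxSize 2000

namespace Pool.Agent.H310

open FirstOrder FirstOrder.Language
open Pool.Agent.Helper672.ZFA
open Pool.Agent.H310Cards
open Pool.Agent.H310Top

universe u

section

variable {N : Type u} [L.Structure N] [hN : IsModel N] {α β : Type u} [ITy N α] [ITy N β]

variable (N α β) in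
/-- A Hausdorff space with a dense discrete subspace. -/
structure DS where
  Op : IPow N (IPow N β)
  f : α → β
  int_f : IntF N f
  inter : ∀ U V, U ∈ Op → V ∈ Op → U ∩ V ∈ Op
  univ : iuniv N β ∈ Op
  haus : ∀ a b, a ≠ b → ∃ U V, U ∈ Op ∧ V ∈ Op ∧ a ∈ U ∧ b ∈ V ∧ ∀ z, z ∈ U → ¬ z ∈ V
  disc : ∀ a, ∃ U, U ∈ Op ∧ f a ∈ U ∧ ∀ b, f b ∈ U → f b = f a
  dense : ∀ U, U ∈ Op → (∃ z, z ∈ U) → ∃ a, f a ∈ U

variable (N α) in
/-- Filters that contain the cofinite sets have least elements modulo finite sets. -/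
def Filt : Prop := ∀ FF : IPow N (IPow N α),
  (∀ B B', B ∈ FF → (∀ x, x ∈ B → x ∈ B') → B' ∈ FF) →
  (∀ B B', B ∈ FF → B' ∈ FF → B ∩ B' ∈ FF) →
  (∀ B : IPow N α, FinP N (fun x => ¬ x ∈ B) → B ∈ FF) →
    ∃ W, W ∈ FF ∧ ∀ B, B ∈ FF → FinP N (fun x => x ∈ W ∧ ¬ x ∈ B)

namespace DS

variable (S : DS N α β)

theorem avoid {y : β} (hy : ∀ a, S.f a ≠ y) : ∀ s : IPow N α, IFin s →
    ∃ U, U ∈ S.Op ∧ y ∈ U ∧ ∀ a, a ∈ s → ¬ S.f a ∈ U := by
  have hf := S.int_f
  refine IFin.ind (p := fun s : IPow N α => ∃ U, U ∈ S.Op ∧ y ∈ U ∧ ∀ a, a ∈ s → ¬ S.f a ∈ U)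
    (by (repeat' (first | with_reducible exact IntF.id | with_reducible exact IntF.fst' | with_reducible exact IntF.snd' | with_reducible exact IntF.const _ | with_reducible exact Int.const _ | assumption | with_reducible apply Int.and | with_reducible apply Int.or | with_reducible apply Int.not | with_reducible apply Int.imp | with_reducible apply Int.iff | with_reducible apply Int.ne | with_reducible apply Int.eq | with_reducible apply Int.mem | with_reducible apply Int.subset | with_reducible apply Int.ltN | with_reducible apply Int.leN | with_reducible_and_instances apply Int.le | with_reducible_and_instances apply Int.lt | with_reducible apply Int.all | with_reducible apply Int.ex | with_reducible apply IntF.fst | with_reducible apply IntF.snd | with_reducible apply IntF.app | with_reducible apply IntF.inl | with_reducible apply IntF.inr | with_reducible_and_instances apply IntF.mul | with_reducible_and_instances apply IntF.inv | with_reducible_and_instances apply IntF.add | with_reducible_and_instances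 apply IntF.sub | with_reducible_and_instances apply IntF.neg | with_reducible_and_instances apply IntF.smul | with_reducible apply Int.fin | with_reducible apply IntF.sep | with_reducible apply IntF.lam | with_reducible apply IntF.insert | with_reducible apply IntF.singleton | with_reducible apply IntF.union | with_reducible apply IntF.iimage | with_reducible apply IntF.ite | with_reducible apply IntF.the | with_reducible apply IntF.irec | with_reducible apply IntF.succ | with_reducible apply IntF.val | with_reducible apply IntF.mk | (with_reducible refine Int.comp ?_ ?_; assumption) | (with_reducible refine Int.comp₂ ?_ ?_ ?_; assumption) | (with_reducible refine Int.comp₃ ?_ ?_ ?_ ?_; assumption) | (with_reducible refine Int.comp₄ ?_ ?_ ?_ ?_ ?_; assumption) | (with_reducible refine IntF.comp ?_ ?_; assumption) | (with_reducible refine IntF.comp₂ ?_ ?_ ?_; assumption) | (with_reducible refine IntF.comp₃ ?_ ?_ ?_ ?_; assumption) | with_reducible apply IntF.pair))) ?_ ?_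
  · exact ⟨iuniv N β, S.univ, by simp, fun a ha => absurd ha (by simp)⟩
  · rintro s a - - ⟨U, h1, h2, h3⟩
    obtain ⟨V, V', h4, h5, h6, h7, h8⟩ := S.haus y (S.f a) (hy a).symm
    refine ⟨U ∩ V, S.inter _ _ h1 h4, mem_inter.2 ⟨h2, h6⟩, fun b hb hbU => ?_⟩
    obtain ⟨h9, h10⟩ := mem_inter.1 hbU
    rcases mem_insert.1 hb with rfl | hb
    · exact h8 _ h10 h7
    · exact h3 b hb h9

theorem not_fin {y : β} (hy : ∀ a, S.f a ≠ y) {V : IPow N β} (hV : V ∈ S.Op) (hyV : y ∈ V)
    (h : FinP N (fun a => S.f a ∈ V)) : False := by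
  obtain ⟨s, hs, hs'⟩ := h
  obtain ⟨U, h1, h2, h3⟩ := S.avoid hy s hs
  obtain ⟨a, ha⟩ := S.dense (V ∩ U) (S.inter _ _ hV h1) ⟨y, mem_inter.2 ⟨hyV, h2⟩⟩
  obtain ⟨h4, h5⟩ := mem_inter.1 ha
  exact h3 a (hs' a h4) h5

/-- Points of the dense set are isolated. -/
theorem iso_dense (a : α) : ∃ U, U ∈ S.Op ∧ S.f a ∈ U ∧ ∀ z, z ∈ U → z = S.f a := by
  obtain ⟨U, h1, h2, h3⟩ := S.disc a
  refine ⟨U, h1, h2, fun z hz => ?_⟩
  by_contra hne
  obtain ⟨V, V', h4, h5, h6, h7, h8⟩ := S.haus z (S.f a) hne
  obtain ⟨b, hb⟩ := S.dense (U ∩ V) (S.inter _ _ h1 h4) ⟨z, mem_inter.2 ⟨hz, h6⟩⟩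
  obtain ⟨h9, h10⟩ := mem_inter.1 hb
  rw [h3 b h9] at h10
  exact h8 _ h10 h7

/-- The other points are isolated among the other points. -/
theorem iso_rest (hF : Filt N α) {y : β} (hy : ∀ a, S.f a ≠ y) :
    ∃ U, U ∈ S.Op ∧ y ∈ U ∧ ∀ z, z ∈ U → (∀ a, S.f a ≠ z) → z = y := by
  have hf := S.int_f
  have hI : Int N (fun B : IPow N α => ∃ U, U ∈ S.Op ∧ y ∈ U ∧ ∀ a, S.f a ∈ U → a ∈ B) := by
    (repeat' (first | with_reducible exact IntF.id | with_reducible exact IntF.fst' | with_reducible exact IntF.snd' | with_reducible exact IntF.const _ | with_reducible exact Int.const _ | assumption | with_reducible apply Int.and | with_reducible apply Int.or | with_reducible apply Int.not | with_reducible apply Int.imp | with_reducible apply Int.iff | with_reducible apply Int.ne | with_reducible apply Int.eq | with_reducible apply Int.mem | with_reducible apply Int.subset | with_reducible apply Int.ltN | with_reducible apply Int.leN | with_reducible_and_instances apply Int.le | with_reducible_and_instances apply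 Int.lt | with_reducible apply Int.all | with_reducible apply Int.ex | with_reducible apply IntF.fst | with_reducible apply IntF.snd | with_reducible apply IntF.app | with_reducible apply IntF.inl | with_reducible apply IntF.inr | with_reducible_and_instances apply IntF.mul | with_reducible_and_instances apply IntF.inv | with_reducible_and_instances apply IntF.add | with_reducible_and_instances apply IntF.sub | with_reducible_and_instances apply IntF.neg | with_reducible_and_instances apply IntF.smul | with_reducible apply Int.fin | with_reducible apply IntF.sep | with_reducible apply IntF.lam | with_reducible apply IntF.insert | with_reducible apply IntF.singleton | with_reducible apply IntF.union | with_reducible apply IntF.iimage | with_reducible apply IntF.ite | with_reducible apply IntF.the | with_reducible apply IntF.irec | with_reducible apply IntF.succ | with_reducible apply IntF.val | with_reducible apply IntF.mk | (with_reducible refine Int.comp ?_ ?_; assumption) | (with_reducible refine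 Int.comp₂ ?_ ?_ ?_; assumption) | (with_reducible refine Int.comp₃ ?_ ?_ ?_ ?_; assumption) | (with_reducible refine Int.comp₄ ?_ ?_ ?_ ?_ ?_; assumption) | (with_reducible refine IntF.comp ?_ ?_; assumption) | (with_reducible refine IntF.comp₂ ?_ ?_ ?_; assumption) | (with_reducible refine IntF.comp₃ ?_ ?_ ?_ ?_; assumption) | with_reducible apply IntF.pair))
  have hm : ∀ {B : IPow N α}, B ∈ sep N (fun B : IPow N α =>
      ∃ U, U ∈ S.Op ∧ y ∈ U ∧ ∀ a, S.f a ∈ U → a ∈ B) ↔
      ∃ U, U ∈ S.Op ∧ y ∈ U ∧ ∀ a, S.f a ∈ U → a ∈ B := mem_sep hI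
  have k1 : ∀ B B' : IPow N α, B ∈ sep N (fun B : IPow N α =>
      ∃ U, U ∈ S.Op ∧ y ∈ U ∧ ∀ a, S.f a ∈ U → a ∈ B) → (∀ x, x ∈ B → x ∈ B') →
      B' ∈ sep N (fun B : IPow N α => ∃ U, U ∈ S.Op ∧ y ∈ U ∧ ∀ a, S.f a ∈ U → a ∈ B) := by
    intro B B' hB h
    obtain ⟨U, h1, h2, h3⟩ := hm.1 hB
    exact hm.2 ⟨U, h1, h2, fun a ha => h a (h3 a ha)⟩
  have k2 : ∀ B B' : IPow N α, B ∈ sep N (fun B : IPow N α =>
      ∃ U, U ∈ S.Op ∧ y ∈ U ∧ ∀ a, S.f a ∈ U → a ∈ B) → B' ∈ sep N (fun B : IPow N α =>
      ∃ U, U ∈ S.Op ∧ y ∈ U ∧ ∀ a, S.f a ∈ U → a ∈ B) →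
      B ∩ B' ∈ sep N (fun B : IPow N α => ∃ U, U ∈ S.Op ∧ y ∈ U ∧ ∀ a, S.f a ∈ U → a ∈ B) := by
    intro B B' hB hB'
    obtain ⟨U, h1, h2, h3⟩ := hm.1 hB
    obtain ⟨U', h1', h2', h3'⟩ := hm.1 hB'
    refine hm.2 ⟨U ∩ U', S.inter _ _ h1 h1', mem_inter.2 ⟨h2, h2'⟩, fun a ha => ?_⟩
    obtain ⟨h4, h5⟩ := mem_inter.1 ha
    exact mem_inter.2 ⟨h3 a h4, h3' a h5⟩
  have k3 : ∀ B : IPow N α, FinP N (fun x => ¬ x ∈ B) →
      B ∈ sep N (fun B : IPow N α => ∃ U, U ∈ S.Op ∧ y ∈ U ∧ ∀ a, S.f a ∈ U → a ∈ B) := by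
    rintro B ⟨s, hs, hs'⟩
    obtain ⟨U, h1, h2, h3⟩ := S.avoid hy s hs
    refine hm.2 ⟨U, h1, h2, fun a ha => ?_⟩
    by_contra hc
    exact h3 a (hs' a hc) ha
  obtain ⟨W, hW, hW'⟩ := hF _ k1 k2 k3
  obtain ⟨U, h1, h2, h3⟩ := hm.1 hW
  refine ⟨U, h1, h2, fun z hz hzf => ?_⟩
  by_contra hne
  obtain ⟨V, V', h4, h5, h6, h7, h8⟩ := S.haus z y hne
  have hT : Int N (fun a : α => S.f a ∈ V') := by (repeat' (first | with_reducible exact IntF.id | with_reducible exact IntF.fst' | with_reducible exact IntF.snd' | with_reducible exact IntF.const _ | with_reducible exact Int.const _ | assumption | with_reducible apply Int.and | with_reducible apply Int.or | with_reducible apply Int.not | with_reducible apply Int.imp | with_reducible apply Int.iff | with_reducible apply Int.ne | with_reducible apply Int.eq | with_reducible apply Int.mem | with_reducible apply Int.subset | with_reducible apply Int.ltN | with_reducible apply Int.leN | with_reducible_and_instances apply Int.le | with_reducible_and_instances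 apply Int.lt | with_reducible apply Int.all | with_reducible apply Int.ex | with_reducible apply IntF.fst | with_reducible apply IntF.snd | with_reducible apply IntF.app | with_reducible apply IntF.inl | with_reducible apply IntF.inr | with_reducible_and_instances apply IntF.mul | with_reducible_and_instances apply IntF.inv | with_reducible_and_instances apply IntF.add | with_reducible_and_instances apply IntF.sub | with_reducible_and_instances apply IntF.neg | with_reducible_and_instances apply IntF.smul | with_reducible apply Int.fin | with_reducible apply IntF.sep | with_reducible apply IntF.lam | with_reducible apply IntF.insert | with_reducible apply IntF.singleton | with_reducible apply IntF.union | with_reducible apply IntF.iimage | with_reducible apply IntF.ite | with_reducible apply IntF.the | with_reducible apply IntF.irec | with_reducible apply IntF.succ | with_reducible apply IntF.val | with_reducible apply IntF.mk | (with_reducible refine Int.comp ?_ ?_; assumption) | (with_reducible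 refine Int.comp₂ ?_ ?_ ?_; assumption) | (with_reducible refine Int.comp₃ ?_ ?_ ?_ ?_; assumption) | (with_reducible refine Int.comp₄ ?_ ?_ ?_ ?_ ?_; assumption) | (with_reducible refine IntF.comp ?_ ?_; assumption) | (with_reducible refine IntF.comp₂ ?_ ?_ ?_; assumption) | (with_reducible refine IntF.comp₃ ?_ ?_ ?_ ?_; assumption) | with_reducible apply IntF.pair))
  have h9 := hW' (sep N fun a : α => S.f a ∈ V') (hm.2 ⟨V', h5, h7, fun a ha =>
    (mem_sep hT).2 ha⟩)
  refine S.not_fin hzf (S.inter _ _ h1 h4) (mem_inter.2 ⟨hz, h6⟩) (h9.mono fun a ha => ?_)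
  obtain ⟨h10, h11⟩ := mem_inter.1 ha
  exact ⟨h3 a h10, fun h => h8 _ h11 ((mem_sep hT).1 h)⟩

/-- The space is scattered. -/
theorem scat (hF : Filt N α) (A : IPow N β) (hA : ∃ z, z ∈ A) :
    ∃ z U, z ∈ A ∧ U ∈ S.Op ∧ z ∈ U ∧ ∀ y, y ∈ U → y ∈ A → y = z := by
  by_cases h : ∃ a, S.f a ∈ A
  · obtain ⟨a, ha⟩ := h
    obtain ⟨U, h1, h2, h3⟩ := S.iso_dense a
    exact ⟨_, U, ha, h1, h2, fun y hy _ => h3 y hy⟩
  · obtain ⟨z, hz⟩ := hA
    have h' : ∀ y, y ∈ A → ∀ a, S.f a ≠ y := fun y hy a e => h ⟨a, e ▸ hy⟩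
    obtain ⟨U, h1, h2, h3⟩ := S.iso_rest hF (h' z hz)
    exact ⟨z, U, hz, h1, h2, fun y hy hyA => h3 y hy (h' y hyA)⟩

end DS

end

section

attribute [local instance] Helper672.Plain.toL

variable {M : Type u} [Helper672.Plain.LSet.Structure M] [hZ : Helper672.Plain.Zermelo M]

local instance instModelL'' : IsModel M := Helper672.Plain.isModel_toL

/-- All Hausdorff spaces with a dense relatively discrete copy of `d` are scattered. -/
theorem scattered_of_filt {d x t f : M} (hF : Filt M (El d)) (ht : IsTopology t x)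
    (hh : IsHausdorff t x) (hf : IsFun f d x)
    (hd : ∀ a y, App f a y → ∃ u, Mem u t ∧ Mem y u ∧ ∀ b z, App f b z → Mem z u → z = y)
    (hde : ∀ u, Mem u t → (∃ z, Mem z u) → ∃ a y, App f a y ∧ Mem y u) : IsScattered t x := by
  have hx : ∀ z : M, Mem z x → ∃ a : El x, code a = z := fun z hz => ⟨⟨z, hz⟩, rfl⟩
  have hsub : ∀ {u : M}, Mem u t → ∃ U : IPow M (El x), code U = u := fun hu =>
    exists_code_of fun z hz => hx z (ht.sub _ hu z hz)
  have hmem : ∀ {U : IPow M (El x)} {a : El x}, Mem (code (M := M) a) (code (M := M) U) ↔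
      a ∈ U := mem_code_iff
  have hmemx : ∀ {U : IPow M (El x)} {z : M}, Mem z (code (M := M) U) → Mem z x := by
    intro U z hz
    obtain ⟨a, -, rfl⟩ := mem_codeU.1 hz
    exact a.2
  let Op : IPow M (IPow M (El x)) := ⟨fun U => Mem (code (M := M) U) t, ⟨t, fun _ => Iff.rfl⟩⟩
  obtain ⟨φ, hφ, hφ'⟩ := exists_fun (α := El d) (β := El x) hf (fun a => a.2) hx
  have happ : ∀ a : El d, App f a.1 (φ a).1 := fun a => (hφ' a (φ a)).1 rfl
  have happ' : ∀ {a y : M}, App f a y → ∃ b : El d, b.1 = a ∧ (φ b).1 = y := by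
    intro a y h
    obtain ⟨h1, h2⟩ := app_mem hf h
    refine ⟨⟨a, h1⟩, rfl, ?_⟩
    exact congrArg Subtype.val ((hφ' ⟨a, h1⟩ ⟨y, h2⟩).2 h)
  let S : DS M (El d) (El x) :=
    { Op := Op
      f := φ
      int_f := hφ
      inter := by
        intro U V hU hV
        refine ht.inter (code (M := M) U) (code (M := M) V) _ hU hV fun z => ?_
        refine mem_codeU.trans ?_
        constructor
        · rintro ⟨a, ha, rfl⟩
          exact ⟨hmem.2 (mem_inter.1 ha).1, hmem.2 (mem_inter.1 ha).2⟩
        · rintro ⟨h1, h2⟩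
          obtain ⟨a, ha, rfl⟩ := mem_codeU.1 h1
          exact ⟨a, mem_inter.2 ⟨ha, hmem.1 h2⟩, rfl⟩
      univ := by
        change Mem (code (M := M) (iuniv M (El x))) t
        have h1 : code (M := M) (iuniv M (El x)) = x := extM fun z => by
          rw [mem_codeU]
          exact ⟨fun ⟨a, _, h⟩ => h ▸ a.2, fun hz => ⟨⟨z, hz⟩, by simp, rfl⟩⟩
        rw [h1]
        exact ht.univ
      haus := by
        intro a b hab
        obtain ⟨u, v, hu, hv, hau, hbv, hd⟩ := hh (code (M := M) a) (code (M := M) b) a.2 b.2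
          fun h => hab (ITy.inj h)
        obtain ⟨U, rfl⟩ := hsub hu
        obtain ⟨V, rfl⟩ := hsub hv
        exact ⟨U, V, hu, hv, hmem.1 hau, hmem.1 hbv, fun z hz hz' =>
          hd _ (hmem.2 hz) (hmem.2 hz')⟩
      disc := by
        intro a
        obtain ⟨u, hu, hau, h⟩ := hd _ _ (happ a)
        obtain ⟨U, rfl⟩ := hsub hu
        exact ⟨U, hu, hmem.1 hau, fun b hb => Subtype.ext (h _ _ (happ b) (hmem.2 hb))⟩
      dense := by
        rintro U hU ⟨z, hz⟩
        obtain ⟨a, y, h1, h2⟩ := hde _ hU ⟨_, hmem.2 hz⟩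
        obtain ⟨b, rfl, rfl⟩ := happ' h1
        exact ⟨b, hmem.1 h2⟩ }
  intro a ha hne
  obtain ⟨A, rfl⟩ := exists_code_of (α := El x) fun z hz => hx z (ha z hz)
  obtain ⟨z, hz⟩ := hne
  obtain ⟨z, hz', rfl⟩ := mem_codeU.1 hz
  obtain ⟨y, U, h1, h2, h3, h4⟩ := S.scat hF A ⟨z, hz'⟩
  refine ⟨code (M := M) y, hmem.2 h1, code (M := M) U, h2, hmem.2 h3, fun w hw hwA => ?_⟩
  obtain ⟨w, hw', rfl⟩ := mem_codeU.1 hw
  rw [h4 w hw' (hmem.1 hwA)]

end

end Pool.Agent.H310
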