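import Pool.Agent.H310R3.I2
import Pool.Agent.H310R3.Inh.Stmts
import Pool.Agent.Helper672.ZFA.Poly

/-!
# Pairs over the rational numbers: the model
-/

set_option maxHeartbeats 1000000
set_option linter.all false
set_option synthInstance.maxSize 2000

namespace Pool.Agent.H310.IN

open FirstOrder FirstOrder.Language
open Pool.Agent.Helper672.ZFA
open Pool.Agent.Helper672.ZFA.H635 (IPerm IsGen NN EqFam CollL nn_ext nn_zf IWO)
open Pool.Agent.Helper672.ZFA.H310M
open Pool.Agent.H310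
open Pool.Agent.H310R3.Inh (QS DLO MD)

universe u

variable {M : Type u} [L.Structure M] [hM : IsModel M]

/-- The pair as a finite set. -/
noncomputable def prf (q : IQ M) : FS M (X2 M) :=
  ⟨{Sum.inl q} ∪ {Sum.inr q}, (IFin.singleton _).union (IFin.singleton _)⟩

theorem mem_prf {q : IQ M} {x : X2 M} : x ∈ (prf q).1 ↔ qv x = q := by
  have h : x ∈ (prf q).1 ↔ x = Sum.inl q ∨ x = Sum.inr q := by
    change x ∈ (({Sum.inl q} : IPow M (X2 M)) ∪ {Sum.inr q}) ↔ _
    simp
  rw [h]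
  constructor
  · rintro (rfl | rfl) <;> rfl
  · rintro rfl
    rcases x with q | q
    · exact Or.inl rfl
    · exact Or.inr rfl

theorem int_prf : IntF M (fun q : IQ M => prf q) := by
  unfold prf
  refine IntF.mk ?_
  (repeat' (first | with_reducible exact IntF.id | with_reducible exact IntF.fst' | with_reducible exact IntF.snd' | with_reducible exact IntF.const _ | with_reducible exact Int.const _ | assumption | with_reducible apply Int.and | with_reducible apply Int.or | with_reducible apply Int.not | with_reducible apply Int.imp | with_reducible apply Int.iff | with_reducible apply Int.ne | with_reducible apply Int.eq | with_reducible apply Int.mem | with_reducible apply Int.subset | with_reducible apply Int.ltN | with_reducible apply Int.leN | with_reducible_and_instances apply Int.le | with_reducible_and_instances apply Int.lt | with_reducible apply Int.all | with_reducible apply Int.ex | with_reducible apply IntF.fst | with_reducible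 apply IntF.snd | with_reducible apply IntF.app | with_reducible apply IntF.inl | with_reducible apply IntF.inr | with_reducible_and_instances apply IntF.mul | with_reducible_and_instances apply IntF.inv | with_reducible_and_instances apply IntF.add | with_reducible_and_instances apply IntF.sub | with_reducible_and_instances apply IntF.neg | with_reducible_and_instances apply IntF.smul | with_reducible apply Int.fin | with_reducible apply IntF.sep | with_reducible apply IntF.lam | with_reducible apply IntF.insert | with_reducible apply IntF.singleton | with_reducible apply IntF.union | with_reducible apply IntF.iimage | with_reducible apply IntF.ite | with_reducible apply IntF.the | with_reducible apply IntF.irec | with_reducible apply IntF.succ | with_reducible apply IntF.val | with_reducible apply IntF.mk | (with_reducible refine Int.comp ?_ ?_; assumption) | (with_reducible refine Int.comp₂ ?_ ?_ ?_; assumption) | (with_reducible refine Int.comp₃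 ?_ ?_ ?_ ?_; assumption) | (with_reducible refine Int.comp₄ ?_ ?_ ?_ ?_ ?_; assumption) | (with_reducible refine IntF.comp ?_ ?_; assumption) | (with_reducible refine IntF.comp₂ ?_ ?_ ?_; assumption) | (with_reducible refine IntF.comp₃ ?_ ?_ ?_ ?_; assumption) | with_reducible apply IntF.pair))

attribute [irreducible] prf

theorem IntF_prf {γ : Type u} [ITy M γ] {f : γ → IQ M}
    (hf : IntF M f) : IntF M (fun c => prf (f c)) := IntF.comp int_prf hf

theorem prf_inj {q q' : IQ M} (h : prf q = prf q') : q = q' := by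
  have h1 : (Sum.inl q : X2 M) ∈ (prf q).1 := mem_prf.2 rfl
  rw [h] at h1
  exact mem_prf.1 h1

theorem H_eq {g : IPerm M (X2 M)} (hg : g ∈ (ZQ M).H) {x y : X2 M} :
    qv x = qv y ↔ qv (g.1.1 x) = qv (g.1.1 y) := by
  rw [mem_HQ] at hg
  constructor
  · intro h
    rcases lt_trichotomy (qv (g.1.1 x)) (qv (g.1.1 y)) with h1 | h1 | h1
    · exact absurd h ((hg x y).2 h1).ne
    · exact h1
    · exact absurd h.symm ((hg y x).2 h1).ne
  · intro h
    rcases lt_trichotomy (qv x) (qv y) with h1 | h1 | h1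
    · exact absurd h ((hg x y).1 h1).ne
    · exact h1
    · exact absurd h.symm ((hg y x).1 h1).ne

theorem fsg_prf {g : IPerm M (X2 M)} (hg : g ∈ (ZQ M).H) (q : IQ M) :
    fsg g (prf q) = prf (qv (g.1.1 (Sum.inl q))) := by
  refine Subtype.ext (IPow.ext' fun x => ?_)
  rw [mem_fsg, mem_prf]
  constructor
  · rintro ⟨y, hy, rfl⟩
    exact (H_eq hg).1 (mem_prf.1 hy)
  · intro hx
    refine ⟨g.1.2 x, mem_prf.2 ?_, g.2.1 x⟩
    have h1 : qv (g.1.1 (g.1.2 x)) = qv (g.1.1 (Sum.inl q : X2 M)) := by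
      rw [show g.1.1 (g.1.2 x) = x from g.2.1 x]
      exact hx
    exact (H_eq hg).2 h1

variable {G : Set (Co M (X2 M))} (hG : IsGen M G) (hC : CollL M)

/-- The extension. -/
abbrev Nq : Type u := NN (SS (ZQ M)) hG

/-- The finite sets in the extension. -/
noncomputable def FF : FS M (X2 M) → Nq hG := (exists_fs (Z := ZQ M) hG).choose

theorem ef_FF : EF (ZQ M) hG fsg (FF hG) := (exists_fs (Z := ZQ M) hG).choose_spec.1

theorem mem_FF : ∀ e w, Helper672.Plain.Mem w (FF hG e) ↔ ∃ d, d ∈ e.1 ∧ w = cc (ZQ M) hG d :=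
  (exists_fs (Z := ZQ M) hG).choose_spec.2

theorem FF_inj {e e' : FS M (X2 M)} : FF hG e = FF hG e' ↔ e = e' := F_inj hG (mem_FF hG)

theorem exists_dQ : ∃ z : Nq hG, ∀ w, Helper672.Plain.Mem w z ↔ ∃ q, w = FF hG (prf q) := by
  obtain ⟨z, hz⟩ := EF.set hG (ef_FF hG) (Y := fun e => ∃ q, e = prf q)
    (Int.ex (Int.eq IntF.fst' (IntF_prf IntF.snd')))
    (E := ⟨∅, IFin.empty⟩) (fun g hg _ c hc => by
      obtain ⟨q, rfl⟩ := hc
      exact ⟨_, fsg_prf hg q⟩)
  refine ⟨z, fun w => (hz w).trans ?_⟩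
  constructor
  · rintro ⟨_, ⟨q, rfl⟩, h⟩
    exact ⟨q, h⟩
  · rintro ⟨q, h⟩
    exact ⟨_, ⟨q, rfl⟩, h⟩

/-- The set of the pairs. -/
noncomputable def dQ : Nq hG := (exists_dQ hG).choose

theorem mem_dQ {w : Nq hG} : Mem w (dQ hG) ↔ ∃ q, w = FF hG (prf q) :=
  (exists_dQ hG).choose_spec w

noncomputable def pA (q : IQ M) : El (dQ hG) := ⟨FF hG (prf q), (mem_dQ hG).2 ⟨q, rfl⟩⟩

theorem pA_inj {p q : IQ M} : pA hG p = pA hG q ↔ p = q :=
  ⟨fun h => prf_inj ((FF_inj hG).1 (congrArg Subtype.val h)), fun h => congrArg _ h⟩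

theorem pA_surj (u : El (dQ hG)) : ∃ q, pA hG q = u := by
  obtain ⟨q, hq⟩ := (mem_dQ hG).1 u.2
  exact ⟨q, Subtype.ext hq.symm⟩

theorem ef_FF2 : EF (ZQ M) hG (fun g (q : FS M (X2 M) × FS M (X2 M)) => (fsg g q.1, fsg g q.2))
    (fun q : FS M (X2 M) × FS M (X2 M) => op (FF hG q.1) (FF hG q.2)) := by
  refine EF.op hG (fun g b => ?_) (f := fun q : FS M (X2 M) × FS M (X2 M) => FF hG q.1)
    (f' := fun q : FS M (X2 M) × FS M (X2 M) => FF hG q.2) ?_ ?_
  · exact Prod.ext (fsg_inv _ _) (fsg_inv _ _)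
  · exact EF.comp hG (ef_FF hG) (φ := fun q : FS M (X2 M) × FS M (X2 M) => q.1) IntF.fst'
      fun _ _ => rfl
  · exact EF.comp hG (ef_FF hG) (φ := fun q : FS M (X2 M) × FS M (X2 M) => q.2) IntF.snd'
      fun _ _ => rfl

theorem ef_FFn : EF (ZQ M) hG (fun g (q : FS M (X2 M) × INat M) => (fsg g q.1, q.2))
    (fun q : FS M (X2 M) × INat M => op (FF hG q.1) (nn (ZQ M) hG q.2)) := by
  refine EF.op hG (fun g b => ?_) (f := fun q : FS M (X2 M) × INat M => FF hG q.1)
    (f' := fun q : FS M (X2 M) × INat M => nn (ZQ M) hG q.2) ?_ ?_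
  · exact Prod.ext (fsg_inv _ _) rfl
  · exact EF.comp hG (ef_FF hG) (φ := fun q : FS M (X2 M) × INat M => q.1) IntF.fst'
      fun _ _ => rfl
  · exact EF.comp hG (ef_nn hG) (φ := fun q : FS M (X2 M) × INat M => q.2) IntF.snd'
      fun _ _ => rfl

theorem exists_zlt : ∃ z : Nq hG, ∀ p q,
    Mem (op (FF hG (prf p)) (FF hG (prf q))) z ↔ p < q := by
  obtain ⟨z, hz⟩ := EF.set hG (ef_FF2 hG) (Y := fun e => ∃ p q, e.1 = prf p ∧ e.2 = prf q ∧ p < q)
    (Int.ex (Int.ex (Int.and (Int.eq (IntF.fst (IntF.fst IntF.fst')) (IntF_prf (IntF.snd IntF.fst')))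
      (Int.and (Int.eq (IntF.snd (IntF.fst IntF.fst')) (IntF_prf IntF.snd'))
        (Helper672.ZFA.Int.lt (IntF.snd IntF.fst') IntF.snd')))))
    (E := ⟨∅, IFin.empty⟩) (fun g hg _ c hc => by
      obtain ⟨p, q, h1, h2, h3⟩ := hc
      refine ⟨_, _, ?_, ?_, (mem_HQ.1 hg (Sum.inl p) (Sum.inl q)).1 h3⟩
      · rw [h1, fsg_prf hg]
      · rw [h2, fsg_prf hg])
  refine ⟨z, fun p q => (hz _).trans ?_⟩
  constructor
  · rintro ⟨⟨e, e'⟩, ⟨p', q', h1, h2, h3⟩, h4⟩
    obtain ⟨h5, h6⟩ := op_inj (M := Nq hG) h4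
    have h7 := (FF_inj hG).1 h5
    have h8 := (FF_inj hG).1 h6
    change e = prf p' at h1
    change e' = prf q' at h2
    rw [prf_inj (h7.trans h1), prf_inj (h8.trans h2)]
    exact h3
  · intro h
    exact ⟨(prf p, prf q), ⟨p, q, rfl, rfl, h⟩, rfl⟩

/-- The order of the pairs. -/
def ltA (x y : El (dQ hG)) : Prop := Mem (op x.1 y.1) (exists_zlt hG).choose

theorem ltA_pA {p q : IQ M} : ltA hG (pA hG p) (pA hG q) ↔ p < q :=
  (exists_zlt hG).choose_spec p q

theorem int_ltA : Int (Nq hG) (fun q : El (dQ hG) × El (dQ hG) => ltA hG q.1 q.2) :=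
  Int.of_D₂ (S := fun v => Mem (op (v 0) (v 1)) (exists_zlt hG).choose)
    (D.memf (DF.op (DF.var _) (DF.var _)) (DF.const _)) fun _ _ => Iff.rfl

theorem dlo : DLO (Nq hG) (El (dQ hG)) (ltA hG) := by
  refine ⟨int_ltA hG, fun a => ?_, fun a b c => ?_, fun a b => ?_, fun a b => ?_, fun a => ?_,
    fun a => ?_, ⟨pA hG 0⟩⟩
  · obtain ⟨p, rfl⟩ := pA_surj hG a
    rw [ltA_pA]
    exact lt_irrefl p
  · obtain ⟨p, rfl⟩ := pA_surj hG a
    obtain ⟨q, rfl⟩ := pA_surj hG b
    obtain ⟨r, rfl⟩ := pA_surj hG c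
    rw [ltA_pA, ltA_pA, ltA_pA]
    exact lt_trans
  · obtain ⟨p, rfl⟩ := pA_surj hG a
    obtain ⟨q, rfl⟩ := pA_surj hG b
    rw [ltA_pA, ltA_pA, pA_inj]
    exact lt_trichotomy p q
  · obtain ⟨p, rfl⟩ := pA_surj hG a
    obtain ⟨q, rfl⟩ := pA_surj hG b
    rw [ltA_pA]
    intro h
    refine ⟨pA hG ((p + q) / 2), (ltA_pA hG).2 ?_, (ltA_pA hG).2 ?_⟩ <;> linarith
  · obtain ⟨p, rfl⟩ := pA_surj hG a
    exact ⟨pA hG (p - 1), (ltA_pA hG).2 (by linarith)⟩
  · obtain ⟨p, rfl⟩ := pA_surj hG a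
    exact ⟨pA hG (p + 1), (ltA_pA hG).2 (by linarith)⟩

include hC in
theorem qs : QS (Nq hG) (El (dQ hG)) (ltA hG) where
  toDLO := dlo hG
  sup R hR := by
    obtain ⟨z, hz⟩ := hR
    obtain ⟨E, hE⟩ := support hG z
    have hqv := int_qv (M := M)
    have hI' : Int M (fun e : FS M (X2 M) => ∃ x, x ∈ E.1 ∧ prf (qv x) = e) :=
      Int.ex (Int.and (Int.mem IntF.snd' (IntF.const _))
        (Int.eq (IntF_prf (IntF.comp hqv IntF.snd')) IntF.fst'))
    have h0 : FinP M (fun x : X2 M => x ∈ E.1) := ⟨E.1, E.2, fun _ h => h⟩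
    have h0' : FinP M (fun e : FS M (X2 M) => ∃ x, x ∈ E.1 ∧ prf (qv x) = e) :=
      h0.image (f := fun x => prf (qv x)) (IntF_prf hqv)
    -- a support that contains the pairs
    have hx : Int M (fun x : X2 M => ∃ y, y ∈ E.1 ∧ qv y = qv x) :=
      Int.ex (Int.and (Int.mem IntF.snd' (IntF.const _))
        (Int.eq (IntF.comp hqv IntF.snd') (IntF.comp hqv IntF.fst')))
    have hK : IFin (sep M fun x : X2 M => ∃ y, y ∈ E.1 ∧ qv y = qv x) := by
      refine FinP.fin ?_ hx
      have h1 : FinP M (fun x : X2 M => ∃ y, y ∈ E.1 ∧ Sum.inl (qv y) = x) :=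
        h0.image (f := fun y : X2 M => (Sum.inl (qv y) : X2 M)) (IntF.inl hqv)
      have h2 : FinP M (fun x : X2 M => ∃ y, y ∈ E.1 ∧ Sum.inr (qv y) = x) :=
        h0.image (f := fun y : X2 M => (Sum.inr (qv y) : X2 M)) (IntF.inr hqv)
      refine (h1.or h2).mono ?_
      rintro (q | q) ⟨y, hy, h3⟩
      · exact Or.inl ⟨y, hy, congrArg Sum.inl h3⟩
      · exact Or.inr ⟨y, hy, congrArg Sum.inr h3⟩
    have hmK : ∀ x, x ∈ (sep M fun x : X2 M => ∃ y, y ∈ E.1 ∧ qv y = qv x) ↔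
        ∃ y, y ∈ E.1 ∧ qv y = qv x := fun x => mem_sep hx
    have h3 := NA.fin_img hG hC (ef_FF hG) fsg_inv hI' h0' (E := ⟨_, hK⟩) (fun g hg hx c hc => by
      obtain ⟨x, hxE, rfl⟩ := hc
      refine fsg_fix fun y hy => hx y ((hmK y).2 ⟨x, hxE, ?_⟩)
      exact (mem_prf.1 hy).symm) (β := El (dQ hG))
    obtain ⟨c, hc, hc'⟩ := h3
    refine ⟨c, hc, ?_⟩
    have key : ∀ n p q, ¬ p ∈ c → ¬ q ∈ c → (∀ r, r ∈ c → (ltA hG r p ↔ ltA hG r q)) →
        R (p, n) → R (q, n) := by
      intro n p q hp hq hpq h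
      obtain ⟨p, rfl⟩ := pA_surj hG p
      obtain ⟨q, rfl⟩ := pA_surj hG q
      obtain ⟨n, rfl⟩ := nnN_surj hG hC n
      have hin : ∀ x, x ∈ E.1 → pA hG (qv x) ∈ c := fun x hx =>
        hc' _ ⟨prf (qv x), ⟨x, hx, rfl⟩, rfl⟩
      obtain ⟨g, hg, h4, h5, h6⟩ := exists_hom E (p := p) (q := q)
        (fun x hx e => hp (e ▸ hin x hx)) (fun x hx e => hq (e ▸ hin x hx)) (fun x hx => by
          have h7 := hpq _ (hin x hx)
          rwa [ltA_pA, ltA_pA] at h7)
      have h8 := hE _ _ _ _ (ef_FFn hG) g hg h4 (prf p, n) ((hz _).2 h)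
      refine (hz _).1 ?_
      have h9 : fsg g (prf p) = prf q := by
        rw [fsg_prf hg, h5]
        rfl
      change Helper672.Plain.Mem (op (FF hG (fsg g (prf p))) (nn (ZQ M) hG n)) z at h8
      rw [h9] at h8
      exact h8
    exact fun n p q hp hq hpq => ⟨key n p q hp hq hpq, key n q p hq hp fun r hr =>
      (hpq r hr).symm⟩

/-! ### The pairs -/

/-- The pair of an element. -/
noncomputable def prN (a : El (AA (ZQ M) hG)) : El (dQ hG) := pA hG (qv (cA_surj hG a).choose)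

theorem prN_cA (x : X2 M) : prN hG (cA (ZQ M) hG x) = pA hG (qv x) := by
  unfold prN
  rw [(cA_inj hG).1 (cA_surj hG (cA (ZQ M) hG x)).choose_spec]

theorem mem_pA {x : X2 M} {q : IQ M} : Mem (cA (ZQ M) hG x).1 (pA hG q).1 ↔ qv x = q := by
  refine (mem_FF hG (prf q) (cc (ZQ M) hG x)).trans ?_
  constructor
  · rintro ⟨d, hd, h⟩
    rw [(cc_inj hG).1 h]
    exact mem_prf.1 hd
  · intro h
    exact ⟨x, mem_prf.2 h, rfl⟩

theorem int_prN : IntF (Nq hG) (prN hG) := by
  refine IntF.of_rel (r := fun (a : El (AA (ZQ M) hG)) (u : El (dQ hG)) => Mem a.1 u.1)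
    (Int.of_D₂ (S := fun v => Mem (v 0) (v 1)) (D.memf (DF.var _) (DF.var _))
      fun _ _ => Iff.rfl) fun a u => ?_
  obtain ⟨x, rfl⟩ := cA_surj hG a
  obtain ⟨q, rfl⟩ := pA_surj hG u
  rw [mem_pA, prN_cA, pA_inj]

/-- The other element of a pair. -/
def sw (x : X2 M) : X2 M := match x with
  | Sum.inl q => Sum.inr q
  | Sum.inr q => Sum.inl q

theorem sw_sw (x : X2 M) : sw (sw x) = x := by
  rcases x with q | q <;> rfl

theorem sw_ne (x : X2 M) : sw x ≠ x := by
  rcases x with q | q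
  · exact Sum.inr_ne_inl
  · exact Sum.inl_ne_inr

theorem sw_iff {x y : X2 M} : sw x = y ↔ x ≠ y ∧ qv x = qv y := by
  constructor
  · rintro rfl
    exact ⟨(sw_ne x).symm, by rcases x with q | q <;> rfl⟩
  · rintro ⟨h1, h2⟩
    rcases x with p | p <;> rcases y with q | q
    · exact absurd (congrArg Sum.inl h2) h1
    · exact congrArg Sum.inr h2
    · exact congrArg Sum.inl h2
    · exact absurd (congrArg Sum.inr h2) h1

/-- The other element of a pair. -/
noncomputable def iN (a : El (AA (ZQ M) hG)) : El (AA (ZQ M) hG) :=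
  cA (ZQ M) hG (sw (cA_surj hG a).choose)

theorem iN_cA (x : X2 M) : iN hG (cA (ZQ M) hG x) = cA (ZQ M) hG (sw x) := by
  unfold iN
  rw [(cA_inj hG).1 (cA_surj hG (cA (ZQ M) hG x)).choose_spec]

theorem int_iN : IntF (Nq hG) (iN hG) := by
  have h := int_prN hG
  refine IntF.of_rel (r := fun (a b : El (AA (ZQ M) hG)) => a ≠ b ∧ prN hG a = prN hG b)
    (Int.and (Int.ne IntF.fst' IntF.snd') (Int.eq (IntF.comp h IntF.fst') (IntF.comp h IntF.snd')))
    fun a b => ?_
  obtain ⟨x, rfl⟩ := cA_surj hG a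
  obtain ⟨y, rfl⟩ := cA_surj hG b
  rw [iN_cA, prN_cA, prN_cA, pA_inj, cA_inj, sw_iff]
  exact and_congr_left fun _ => not_congr (cA_inj hG)

theorem exists_new (E : FS M (X2 M)) : ∃ q : IQ M, ∀ x, x ∈ E.1 → qv x ≠ q := by
  by_contra hc
  push Not at hc
  have h0 : FinP M (fun x : X2 M => x ∈ E.1) := ⟨E.1, E.2, fun _ h => h⟩
  have h1 : FinP M (fun q : IQ M => ∃ x, x ∈ E.1 ∧ qv x = q) := h0.image int_qv
  obtain ⟨s, hs, hs'⟩ := h1
  refine not_fin_univ (M := M) (hs.subset fun q _ => hs' q (hc q))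

theorem noc (Y : El (AA (ZQ M) hG) → Prop) (hY : Int (Nq hG) Y) : ∃ a, (Y a ↔ Y (iN hG a)) := by
  obtain ⟨z, hz⟩ := hY
  obtain ⟨E, hE⟩ := support hG z
  obtain ⟨q, hq⟩ := exists_new E
  obtain ⟨g, hg, h1, h2, h3⟩ := exists_sw q
  refine ⟨cA (ZQ M) hG (Sum.inl q), ?_⟩
  rw [iN_cA]
  change _ ↔ Y (cA (ZQ M) hG (Sum.inr q))
  have key := hE _ _ _ _ (ef_cc hG) g hg (fun x hx => h1 x (hq x hx))
  constructor
  · intro h
    refine (hz _).1 ?_
    have h4 := key (Sum.inl q) ((hz _).2 h)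
    rw [h2] at h4
    exact h4
  · intro h
    refine (hz _).1 ?_
    have h4 := key (Sum.inr q) ((hz _).2 h)
    rw [h3] at h4
    exact h4

end Pool.Agent.H310.IN
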