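import Pool.Agent.H310R3.NA11

/-!
# Ground models: elementary substructures, and the sets of Lean
-/

set_option maxHeartbeats 1000000
set_option linter.all false

namespace Pool.Agent.H310.NA

open FirstOrder FirstOrder.Language
open Pool.Agent.Helper672.ZFA.H635 (DA TA meets mem_coe exists_countable_sub)
open Pool.Agent.Helper672.Plain (LSet Mem IsPair IsOrdPair Zermelo)
open Pool.Agent.H635Amen (ZF)
open Pool.Agent.H310Cards
open Pool.Agent.H310NAS

universe u

section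

variable {M : Type u} [LSet.Structure M] {A : Set M} {ι : Type}

theorem TA.up {t : (ι → M) → M} (h : TA A t) :
    TA A (fun w : ι ⊕ Unit → M => t fun i => w (Sum.inl i)) := by
  obtain ⟨τ, hτ⟩ := h
  refine ⟨τ.relabel Sum.inl, fun w => ?_⟩
  rw [Term.realize_relabel]
  exact hτ _

theorem DA.pair {p x y : (ι → M) → M} (hp : TA A p) (hx : TA A x) (hy : TA A y) :
    DA A (fun v => IsPair (p v) (x v) (y v)) :=
  Helper672.ZFA.H635.DA.all (Helper672.ZFA.H635.DA.iff (Helper672.ZFA.H635.DA.mem (TA.var _) (TA.up hp))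
    (Helper672.ZFA.H635.DA.or (Helper672.ZFA.H635.DA.eq (TA.var _) (TA.up hx)) (Helper672.ZFA.H635.DA.eq (TA.var _) (TA.up hy))))

theorem DA.ordPair {p x y : (ι → M) → M} (hp : TA A p) (hx : TA A x) (hy : TA A y) :
    DA A (fun v => IsOrdPair (p v) (x v) (y v)) :=
  Helper672.ZFA.H635.DA.ex (Helper672.ZFA.H635.DA.ex (Helper672.ZFA.H635.DA.and
    (DA.pair (TA.var _) (TA.up (TA.up hx)) (TA.up (TA.up hx)))
    (Helper672.ZFA.H635.DA.and (DA.pair (TA.var _) (TA.up (TA.up hx)) (TA.up (TA.up hy)))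
      (DA.pair (TA.up (TA.up hp)) (TA.var (Sum.inl (Sum.inr ()))) (TA.var _)))))

theorem DA.app {f x y : (ι → M) → M} (hf : TA A f) (hx : TA A x) (hy : TA A y) :
    DA A (fun v => App (f v) (x v) (y v)) :=
  Helper672.ZFA.H635.DA.ex (Helper672.ZFA.H635.DA.and
    (DA.ordPair (TA.var _) (TA.up hx) (TA.up hy)) (Helper672.ZFA.H635.DA.mem (TA.var _) (TA.up hf)))

end

section

variable {M : Type u} [LSet.Structure M] (S : LSet.ElementarySubstructure M)

theorem isPair_coe {p a b : S} : IsPair p a b ↔ IsPair (p : M) (a : M) (b : M) := by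
  constructor
  · intro h z
    by_contra hz
    obtain ⟨z, hz⟩ := meets S (p := fun z => ¬ (Mem z (p : M) ↔ z = (a : M) ∨ z = (b : M)))
      (Helper672.ZFA.H635.DA.not (Helper672.ZFA.H635.DA.iff
        (Helper672.ZFA.H635.DA.mem (TA.var _) (TA.const p.2))
        (Helper672.ZFA.H635.DA.or (Helper672.ZFA.H635.DA.eq (TA.var _) (TA.const a.2))
          (Helper672.ZFA.H635.DA.eq (TA.var _) (TA.const b.2))))) ⟨z, hz⟩
    rw [← mem_coe, ← Subtype.ext_iff, ← Subtype.ext_iff] at hz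
    exact hz (h z)
  · intro h z
    rw [mem_coe, h, Subtype.ext_iff, Subtype.ext_iff]

theorem isOrdPair_coe {q a b : S} : IsOrdPair q a b ↔ IsOrdPair (q : M) (a : M) (b : M) := by
  constructor
  · rintro ⟨s, d, h1, h2, h3⟩
    exact ⟨s, d, (isPair_coe S).1 h1, (isPair_coe S).1 h2, (isPair_coe S).1 h3⟩
  · intro h
    obtain ⟨s, hs⟩ := meets S (p := fun s => ∃ d, IsPair s (a : M) (a : M) ∧
      IsPair d (a : M) (b : M) ∧ IsPair (q : M) s d) (Helper672.ZFA.H635.DA.ex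
        (Helper672.ZFA.H635.DA.and (DA.pair (TA.var _) (TA.const a.2) (TA.const a.2))
        (Helper672.ZFA.H635.DA.and (DA.pair (TA.var _) (TA.const a.2) (TA.const b.2))
        (DA.pair (TA.const q.2) (TA.var _) (TA.var _))))) h
    obtain ⟨d, hd⟩ := meets S (p := fun d => IsPair (s : M) (a : M) (a : M) ∧
      IsPair d (a : M) (b : M) ∧ IsPair (q : M) (s : M) d) (Helper672.ZFA.H635.DA.and
        (DA.pair (TA.const s.2) (TA.const a.2) (TA.const a.2))
        (Helper672.ZFA.H635.DA.and (DA.pair (TA.var _) (TA.const a.2) (TA.const b.2))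
        (DA.pair (TA.const q.2) (TA.const s.2) (TA.var _)))) hs
    exact ⟨s, d, (isPair_coe S).2 hd.1, (isPair_coe S).2 hd.2.1, (isPair_coe S).2 hd.2.2⟩

theorem app_coe {f a b : S} : App f a b ↔ App (f : M) (a : M) (b : M) := by
  constructor
  · rintro ⟨q, h1, h2⟩
    exact ⟨q, (isOrdPair_coe S).1 h1, (mem_coe S).1 h2⟩
  · intro h
    obtain ⟨q, h1, h2⟩ := meets S (p := fun q => IsOrdPair q (a : M) (b : M) ∧ Mem q (f : M))
      (Helper672.ZFA.H635.DA.and (DA.ordPair (TA.var _) (TA.const a.2) (TA.const b.2))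
        (Helper672.ZFA.H635.DA.mem (TA.var _) (TA.const f.2))) h
    exact ⟨q, (isOrdPair_coe S).2 h1, (mem_coe S).2 h2⟩

theorem isWellOrder_iff {r x : M} : IsWellOrder r x ↔
    (∀ a, Mem a x → ¬ App r a a) ∧
    (∀ a b c, Mem a x → Mem b x → Mem c x → App r a b → App r b c → App r a c) ∧
    (∀ a b, Mem a x → Mem b x → App r a b ∨ a = b ∨ App r b a) ∧
    (∀ s, (∀ z, Mem z s → Mem z x) → (∃ z, Mem z s) →
      ∃ a, Mem a s ∧ ∀ b, Mem b s → ¬ App r b a) :=
  ⟨fun h => ⟨h.1, h.2, h.3, h.4⟩, fun h => ⟨h.1, h.2.1, h.2.2.1, h.2.2.2⟩⟩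

theorem da_wo (x : S) : DA (S : Set M) (fun v : Fin 1 → M => IsWellOrder (v 0) (x : M)) := by
  have hx := x.2
  have h : DA (S : Set M) (fun v : Fin 1 → M =>
    (∀ a, Mem a (x : M) → ¬ App (v 0) a a) ∧
    (∀ a b c, Mem a (x : M) → Mem b (x : M) → Mem c (x : M) → App (v 0) a b → App (v 0) b c →
      App (v 0) a c) ∧
    (∀ a b, Mem a (x : M) → Mem b (x : M) → App (v 0) a b ∨ a = b ∨ App (v 0) b a) ∧
    (∀ s, (∀ z, Mem z s → Mem z (x : M)) → (∃ z, Mem z s) →
      ∃ a, Mem a s ∧ ∀ b, Mem b s → ¬ App (v 0) b a)) := by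
    refine Helper672.ZFA.H635.DA.and ?_ (Helper672.ZFA.H635.DA.and ?_
      (Helper672.ZFA.H635.DA.and ?_ ?_))
    · exact Helper672.ZFA.H635.DA.all (Helper672.ZFA.H635.DA.imp
        (Helper672.ZFA.H635.DA.mem (TA.var _) (TA.const hx))
        (Helper672.ZFA.H635.DA.not (DA.app (TA.var _) (TA.var _) (TA.var _))))
    · refine Helper672.ZFA.H635.DA.all (Helper672.ZFA.H635.DA.all (Helper672.ZFA.H635.DA.all ?_))
      refine Helper672.ZFA.H635.DA.imp (Helper672.ZFA.H635.DA.mem (TA.var _) (TA.const hx)) ?_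
      refine Helper672.ZFA.H635.DA.imp (Helper672.ZFA.H635.DA.mem (TA.var _) (TA.const hx)) ?_
      refine Helper672.ZFA.H635.DA.imp (Helper672.ZFA.H635.DA.mem (TA.var _) (TA.const hx)) ?_
      refine Helper672.ZFA.H635.DA.imp (DA.app (TA.var _) (TA.var _) (TA.var _)) ?_
      refine Helper672.ZFA.H635.DA.imp (DA.app (TA.var _) (TA.var _) (TA.var _)) ?_
      exact DA.app (TA.var _) (TA.var _) (TA.var _)
    · refine Helper672.ZFA.H635.DA.all (Helper672.ZFA.H635.DA.all ?_)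
      refine Helper672.ZFA.H635.DA.imp (Helper672.ZFA.H635.DA.mem (TA.var _) (TA.const hx)) ?_
      refine Helper672.ZFA.H635.DA.imp (Helper672.ZFA.H635.DA.mem (TA.var _) (TA.const hx)) ?_
      refine Helper672.ZFA.H635.DA.or (DA.app (TA.var _) (TA.var _) (TA.var _)) ?_
      exact Helper672.ZFA.H635.DA.or (Helper672.ZFA.H635.DA.eq (TA.var _) (TA.var _))
        (DA.app (TA.var _) (TA.var _) (TA.var _))
    · refine Helper672.ZFA.H635.DA.all ?_
      refine Helper672.ZFA.H635.DA.imp (Helper672.ZFA.H635.DA.all (Helper672.ZFA.H635.DA.imp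
        (Helper672.ZFA.H635.DA.mem (TA.var _) (TA.var _))
        (Helper672.ZFA.H635.DA.mem (TA.var _) (TA.const hx)))) ?_
      refine Helper672.ZFA.H635.DA.imp (Helper672.ZFA.H635.DA.ex
        (Helper672.ZFA.H635.DA.mem (TA.var _) (TA.var _))) ?_
      refine Helper672.ZFA.H635.DA.ex (Helper672.ZFA.H635.DA.and
        (Helper672.ZFA.H635.DA.mem (TA.var _) (TA.var _)) ?_)
      exact Helper672.ZFA.H635.DA.all (Helper672.ZFA.H635.DA.imp
        (Helper672.ZFA.H635.DA.mem (TA.var _) (TA.var _))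
        (Helper672.ZFA.H635.DA.not (DA.app (TA.var _) (TA.var _) (TA.var _))))
  refine Eq.mp (congrArg (DA (S : Set M)) ?_) h
  funext v
  exact propext isWellOrder_iff.symm

theorem wo_substructure (h : WO M) : WO S := by
  intro x
  obtain ⟨r, hr⟩ := meets S (p := fun r => IsWellOrder r (x : M)) (da_wo S x) (h x)
  refine ⟨r, ?_, ?_, ?_, ?_⟩
  · intro a ha h1
    exact hr.irrefl a ((mem_coe S).1 ha) ((app_coe S).1 h1)
  · intro a b c ha hb hc h1 h2
    exact (app_coe S).2 (hr.trans a b c ((mem_coe S).1 ha) ((mem_coe S).1 hb) ((mem_coe S).1 hc)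
      ((app_coe S).1 h1) ((app_coe S).1 h2))
  · intro a b ha hb
    rcases hr.total a b ((mem_coe S).1 ha) ((mem_coe S).1 hb) with h1 | h1 | h1
    · exact Or.inl ((app_coe S).2 h1)
    · exact Or.inr (Or.inl (Subtype.ext h1))
    · exact Or.inr (Or.inr ((app_coe S).2 h1))
  · intro s hs hne
    obtain ⟨z, hz⟩ := hne
    have h1 : ∀ z : M, Mem z (s : M) → Mem z (x : M) := by
      by_contra hc
      push Not at hc
      obtain ⟨z, h2, h3⟩ := meets S (p := fun z => Mem z (s : M) ∧ ¬ Mem z (x : M))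
        (Helper672.ZFA.H635.DA.and (Helper672.ZFA.H635.DA.mem (TA.var _) (TA.const s.2))
          (Helper672.ZFA.H635.DA.not (Helper672.ZFA.H635.DA.mem (TA.var _) (TA.const x.2)))) hc
      exact h3 ((mem_coe S).1 (hs z ((mem_coe S).2 h2)))
    obtain ⟨a, h2, h3⟩ := meets S (p := fun a => Mem a (s : M) ∧ ∀ b, Mem b (s : M) →
        ¬ App (r : M) b a)
      (Helper672.ZFA.H635.DA.and (Helper672.ZFA.H635.DA.mem (TA.var _) (TA.const s.2))
        (Helper672.ZFA.H635.DA.all (Helper672.ZFA.H635.DA.imp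
          (Helper672.ZFA.H635.DA.mem (TA.var _) (TA.const s.2))
          (Helper672.ZFA.H635.DA.not (DA.app (TA.const r.2) (TA.var _) (TA.var _))))))
      (hr.least s h1 ⟨z, (mem_coe S).1 hz⟩)
    exact ⟨a, (mem_coe S).2 h2, fun b hb h4 => h3 b ((mem_coe S).1 hb) ((app_coe S).1 h4)⟩

end

/-- The theorem for all models of ZF with a well-order on every set. -/
theorem exists_nas (M : Type u) [LSet.Structure M] (h : ZF M) (hW : WO M) :
    ∃ (N : Type u) (_ : LSet.Structure N), ZF N ∧ NAS N ∧ ¬ INSHC N := by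
  obtain ⟨M₀, h1, h2⟩ := exists_countable_sub M h
  exact exists_nas_c M₀ h2 (wo_substructure M₀ hW)

/-! ### The sets of Lean -/

/-- The sets of Lean as a structure for the language of set theory. -/
def zs : LSet.Structure ZFSet.{u} where
  funMap := fun f => Empty.elim f
  RelMap := fun {_} r v => match r, v with
    | Helper672.Plain.Sym.mem, v => v 0 ∈ v 1

section

attribute [local instance] zs

theorem mem_zs {x y : ZFSet.{u}} : Mem x y ↔ x ∈ y := Iff.rfl

theorem zf_zs : ZF ZFSet.{u} where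
  ext x y h := ZFSet.ext h
  pairing x y := ⟨{x, y}, fun z => ZFSet.mem_pair⟩
  union x := ⟨ZFSet.sUnion x, fun z => ZFSet.mem_sUnion⟩
  power x := ⟨ZFSet.powerset x, fun z => ZFSet.mem_powerset⟩
  infinity := ⟨ZFSet.omega, ⟨∅, ZFSet.omega_zero, fun z => ZFSet.notMem_empty z⟩, fun n hn =>
    ⟨insert n n, ZFSet.omega_succ hn, fun z => (ZFSet.mem_insert_iff).trans or_comm⟩⟩
  separation T _ x := ⟨ZFSet.sep (fun z => z ∈ T) x, fun z => ZFSet.mem_sep⟩
  foundation x hx := by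
    obtain ⟨y, hy⟩ := hx
    obtain ⟨z, h1, h2⟩ := ZFSet.regularity x (fun h => ZFSet.notMem_empty y (h ▸ hy))
    refine ⟨z, h1, fun w hw hwz => ZFSet.notMem_empty w ?_⟩
    rw [← h2]
    exact ZFSet.mem_inter.2 ⟨hw, hwz⟩
  replacement F _ a h := by
    choose f hf hf' using h
    refine ⟨ZFSet.range fun z : a => f z.1 z.2, fun y => ?_⟩
    refine ZFSet.mem_range.trans ?_
    constructor
    · rintro ⟨z, rfl⟩
      exact ⟨z.1, z.2, hf z.1 z.2⟩
    · rintro ⟨x, hx, h1⟩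
      exact ⟨⟨x, hx⟩, (hf' x hx y h1).symm⟩

theorem pair_zs {p x y : ZFSet.{u}} : IsPair p x y ↔ p = {x, y} :=
  ⟨fun h => ZFSet.ext fun z => (h z).trans ZFSet.mem_pair.symm, fun h z => by
    rw [h]
    exact ZFSet.mem_pair⟩

theorem ordPair_zs {p x y : ZFSet.{u}} : IsOrdPair p x y ↔ p = ZFSet.pair x y := by
  constructor
  · rintro ⟨s, d, h1, h2, h3⟩
    rw [pair_zs] at h1 h2 h3
    rw [h3, h1, h2, ZFSet.pair]
    congr 1
    exact ZFSet.ext fun z => by simp
  · rintro rfl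
    refine ⟨{x, x}, {x, y}, pair_zs.2 rfl, pair_zs.2 rfl, pair_zs.2 ?_⟩
    rw [ZFSet.pair]
    congr 1
    exact ZFSet.ext fun z => by simp

theorem wo_zs : WO ZFSet.{u} := by
  intro x
  have happ : ∀ a b : ZFSet.{u}, App (ZFSet.pairSep (fun a b => WellOrderingRel a b) x x) a b ↔
      a ∈ x ∧ b ∈ x ∧ WellOrderingRel a b := by
    intro a b
    constructor
    · rintro ⟨q, h1, h2⟩
      rw [ordPair_zs] at h1
      obtain ⟨a', ha, b', hb, h3, h4⟩ := ZFSet.mem_pairSep.1 h2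
      rw [h1] at h3
      obtain ⟨rfl, rfl⟩ := ZFSet.pair_inj.1 h3
      exact ⟨ha, hb, h4⟩
    · rintro ⟨ha, hb, h⟩
      exact ⟨ZFSet.pair a b, ordPair_zs.2 rfl, ZFSet.mem_pairSep.2 ⟨a, ha, b, hb, rfl, h⟩⟩
  refine ⟨ZFSet.pairSep (fun a b => WellOrderingRel a b) x x, ?_, ?_, ?_, ?_⟩
  · intro a _ h
    exact (irrefl_of WellOrderingRel a) ((happ a a).1 h).2.2
  · intro a b c ha _ hc h1 h2
    exact (happ a c).2 ⟨ha, hc, (trans_of WellOrderingRel) ((happ a b).1 h1).2.2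
      ((happ b c).1 h2).2.2⟩
  · intro a b ha hb
    rcases trichotomous_of WellOrderingRel a b with h | h | h
    · exact Or.inl ((happ a b).2 ⟨ha, hb, h⟩)
    · exact Or.inr (Or.inl h)
    · exact Or.inr (Or.inr ((happ b a).2 ⟨hb, ha, h⟩))
  · intro s _ hne
    obtain ⟨z, hz⟩ := hne
    have hwf : WellFounded (WellOrderingRel : ZFSet.{u} → ZFSet.{u} → Prop) :=
      IsWellFounded.wf
    obtain ⟨a, ha, h⟩ := hwf.has_min {z | z ∈ s} ⟨z, hz⟩
    exact ⟨a, ha, fun b hb h1 => h b hb ((happ b a).1 h1).2.2⟩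

end

/-- There is a model. -/
theorem exists_nas_zs : ∃ (N : Type 1) (_ : LSet.Structure N), ZF N ∧ NAS N ∧ ¬ INSHC N :=
  letI := zs.{0}
  exists_nas ZFSet.{0} zf_zs wo_zs

end Pool.Agent.H310.NA
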