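import Pool.Agent.H310R3.I3
import Pool.Agent.H310R3.NA12
import Pool.Agent.H310R3.Inh.Assembly

/-!
# Pairs over the rational numbers: the final theorem from the tasks
-/

set_option maxHeartbeats 1000000
set_option linter.all false
set_option synthInstance.maxSize 2000

namespace Pool.Agent.H310.IN

open FirstOrder FirstOrder.Language
open Pool.Agent.Helper672.ZFA
open Pool.Agent.Helper672.ZFA.H635 (IPerm IsGen NN EqFam CollL nn_ext nn_zf IWO
  isModel_of_zermelo coll_of_zf exists_countable_sub toL)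
open Pool.Agent.Helper672.ZFA.H310M
open Pool.Agent.Helper672.Plain (LSet)
open Pool.Agent.H635Amen (ZF)
open Pool.Agent.H310
open Pool.Agent.H310NAS
open Pool.Agent.H310R3.Inh

section

variable {M : Type 1} [L.Structure M] [hM : IsModel M]
variable {G : Set (Co M (X2 M))} (hG : IsGen M G) (hC : CollL M)

include hC in
theorem md (hZ : ZF (Nq hG)) (hWO : ∀ x : M, ∃ lt : El x → El x → Prop, IWO M (El x) lt) :
    MD (Nq hG) (AA (ZQ M) hG) (dQ hG) (ltA hG) (prN hG) (iN hG) where
  qs := qs hG hC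
  int_pr := int_prN hG
  int_i := int_iN hG
  ii a := by
    obtain ⟨x, rfl⟩ := cA_surj hG a
    rw [iN_cA, iN_cA, sw_sw]
  ne a := by
    obtain ⟨x, rfl⟩ := cA_surj hG a
    rw [iN_cA]
    exact fun h => sw_ne x ((cA_inj hG).1 h)
  fib a b h := by
    obtain ⟨x, rfl⟩ := cA_surj hG a
    obtain ⟨y, rfl⟩ := cA_surj hG b
    rw [prN_cA, prN_cA, pA_inj] at h
    by_cases hxy : x = y
    · exact Or.inl (congrArg _ hxy)
    · right
      rw [iN_cA]
      exact congrArg _ (sw_iff.2 ⟨fun e => hxy e.symm, h.symm⟩).symm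
  noc Y hY := noc hG Y hY
  cover x h1 h2 := cover hG hC hWO x h1 h2

end

theorem exists_md' (M : Type 1) [L.Structure M] [IsModel M] [Countable M] (hC : CollL M)
    (hWO : ∀ x : M, ∃ lt : El x → El x → Prop, IWO M (El x) lt) :
    ∃ (N : Type 1) (_ : LSet.Structure N) (_ : ZF N) (A d : N)
      (lt : letI := Helper672.Plain.toL (M := N); El d → El d → Prop)
      (pr : letI := Helper672.Plain.toL (M := N); El A → El d)
      (i : letI := Helper672.Plain.toL (M := N); El A → El A), MD N A d lt pr i := by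
  have p₀ : Co M (X2 M) := ⟨∅, fun i k d d' h => absurd h (by simp), IFin.empty⟩
  obtain ⟨G, hG⟩ := H635.exists_gen (M := M) p₀
  have hzf : ZF (Nq hG) := nn_zf hG hC
  exact ⟨Nq hG, inferInstance, hzf, _, _, _, _, _, md hG hC hzf hWO⟩

section

attribute [local instance] toL

theorem exists_md_c (M : Type 1) [LSet.Structure M] [Countable M] (h : ZF M) (hW : WO M) :
    ∃ (N : Type 1) (_ : LSet.Structure N) (_ : ZF N) (A d : N)
      (lt : letI := Helper672.Plain.toL (M := N); El d → El d → Prop)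
      (pr : letI := Helper672.Plain.toL (M := N); El A → El d)
      (i : letI := Helper672.Plain.toL (M := N); El A → El A), MD N A d lt pr i := by
  have hM : IsModel M := isModel_of_zermelo h.toZermelo
  exact exists_md' M (coll_of_zf h) (NA.iwo_of hW)

end

/-- The theorem from the tasks. -/
theorem exists_inh (M : Type 1) [LSet.Structure M] (h : ZF M) (hW : WO M)
    (tNat : TaskNat) (tWo : TaskWo) (tFs : TaskFs) (tQ : TaskQ) (tIntv : TaskIntv)
    (tEnum : TaskEnum) (tRank : TaskRank) (tCuts : TaskCuts) (tGlue : TaskGlue) (tSeq : TaskSeq)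
    (tBridge : TaskBridge) (tBPI : TaskBPI) (tIDF : TaskIDF) :
    ∃ (N : Type 1) (_ : LSet.Structure N), ZF N ∧ INSHC N ∧ ¬ BPI N ∧ ¬ IDFBI N := by
  obtain ⟨M₀, h1, h2⟩ := exists_countable_sub M h
  obtain ⟨N, _, hz, A, d, lt, pr, i, hMD⟩ := exists_md_c M₀ h2 (NA.wo_substructure M₀ hW)
  exact ⟨N, inferInstance, hz, final' N hMD tNat tWo tFs tQ tIntv tEnum tRank tCuts tGlue tSeq
    tBridge tBPI tIDF⟩

end Pool.Agent.H310.IN
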