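import Pool.Agent.H310R3.StepZ

/-!
# Transpositions and levels
-/

set_option maxHeartbeats 400000
set_option linter.all false

namespace Pool.Agent.H310

open FirstOrder FirstOrder.Language
open Pool.Agent.Helper672.ZFA

universe u u₁ u₂ u₃ u₄

variable {M : Type u} [L.Structure M] [hM : IsModel M]
variable {α : Type u₁} {β : Type u₂} {γ : Type u₃} {δ : Type u₄}
  [ITy M α] [ITy M β] [ITy M γ] [ITy M δ]

/-! ### Transpositions -/

variable (M) in
/-- The transposition. -/
noncomputable def tsp (e a : α) : IPm M α :=
  the (fun σ : IPm M α => σ.1 e = a ∧ σ.1 a = e ∧ ∀ x, x ≠ e → x ≠ a → σ.1 x = x) (IPm.one M α)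

theorem int_tsp : IntF M (fun q : α × α => tsp M q.1 q.2) := by
  unfold tsp
  (repeat' (first | with_reducible exact IntF.id | with_reducible exact IntF.fst' | with_reducible exact IntF.snd' | with_reducible exact IntF.const _ | with_reducible exact Int.const _ | assumption | with_reducible apply Int.and | with_reducible apply Int.or | with_reducible apply Int.not | with_reducible apply Int.imp | with_reducible apply Int.iff | with_reducible apply Int.ne | with_reducible apply Int.eq | with_reducible apply Int.mem | with_reducible apply Int.subset | with_reducible apply Int.ltN | with_reducible apply Int.leN | with_reducible apply Int.fin | with_reducible apply Int.unique | with_reducible apply Int.all | with_reducible apply Int.ex | with_reducible apply IntF.fst | with_reducible apply IntF.snd | with_reducible apply IntF.app | with_reducible apply IntF.ite | with_reducible apply IntF.sep | with_reducible apply IntF.lam | with_reducible apply IntF.insert | with_reducible apply IntF.singleton | with_reducible apply IntF.union | with_reducible apply IntF.inter | with_reducible apply IntF.sdiff | with_reducible apply IntF.isUnion | with_reducible apply IntF.iimage | with_reducible apply IntF.the | with_reducible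 apply IntF.irec | with_reducible_and_instances apply IntF.add | with_reducible_and_instances apply IntF.mul | with_reducible apply IntF.succ | with_reducible apply IntF.val | (with_reducible refine Int.comp ?_ ?_; assumption) | (with_reducible refine Int.comp₂ ?_ ?_ ?_; assumption) | (with_reducible refine Int.comp₃ ?_ ?_ ?_ ?_; assumption) | (with_reducible refine IntF.comp ?_ ?_; assumption) | (with_reducible refine IntF.comp₂ ?_ ?_ ?_; assumption) | (with_reducible refine IntF.comp₃ ?_ ?_ ?_ ?_; assumption) | with_reducible apply IntF.pair))

theorem tsp_spec (e a : α) : (tsp M e a).1 e = a ∧ (tsp M e a).1 a = e ∧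
    ∀ x, x ≠ e → x ≠ a → (tsp M e a).1 x = x := by
  classical
  refine the_spec (p := fun σ : IPm M α => σ.1 e = a ∧ σ.1 a = e ∧
    ∀ x, x ≠ e → x ≠ a → σ.1 x = x) ?_
  have hf : IntF M (fun x : α => if x = e then a else if x = a then e else x) := by (repeat' (first | with_reducible exact IntF.id | with_reducible exact IntF.fst' | with_reducible exact IntF.snd' | with_reducible exact IntF.const _ | with_reducible exact Int.const _ | assumption | with_reducible apply Int.and | with_reducible apply Int.or | with_reducible apply Int.not | with_reducible apply Int.imp | with_reducible apply Int.iff | with_reducible apply Int.ne | with_reducible apply Int.eq | with_reducible apply Int.mem | with_reducible apply Int.subset | with_reducible apply Int.ltN | with_reducible apply Int.leN | with_reducible apply Int.fin | with_reducible apply Int.unique | with_reducible apply Int.all | with_reducible apply Int.ex | with_reducible apply IntF.fst | with_reducible apply IntF.snd | with_reducible apply IntF.app | with_reducible apply IntF.ite | with_reducible apply IntF.sep | with_reducible apply IntF.lam | with_reducible apply IntF.insert | with_reducible apply IntF.singleton | with_reducible apply IntF.union | with_reducible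 apply IntF.inter | with_reducible apply IntF.sdiff | with_reducible apply IntF.isUnion | with_reducible apply IntF.iimage | with_reducible apply IntF.the | with_reducible apply IntF.irec | with_reducible_and_instances apply IntF.add | with_reducible_and_instances apply IntF.mul | with_reducible apply IntF.succ | with_reducible apply IntF.val | (with_reducible refine Int.comp ?_ ?_; assumption) | (with_reducible refine Int.comp₂ ?_ ?_ ?_; assumption) | (with_reducible refine Int.comp₃ ?_ ?_ ?_ ?_; assumption) | (with_reducible refine IntF.comp ?_ ?_; assumption) | (with_reducible refine IntF.comp₂ ?_ ?_ ?_; assumption) | (with_reducible refine IntF.comp₃ ?_ ?_ ?_ ?_; assumption) | with_reducible apply IntF.pair))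
  have h1 : (fun x : α => if x = e then a else if x = a then e else x) e = a := if_pos rfl
  have h2 : (fun x : α => if x = e then a else if x = a then e else x) a = e := by
    by_cases h : a = e
    · simp [h]
    · simp [h]
  have h3 : ∀ x, x ≠ e → x ≠ a →
      (fun x : α => if x = e then a else if x = a then e else x) x = x := by
    intro x hx hx'
    simp [hx, hx']
  have h4 : ∀ x, (fun x : α => if x = e then a else if x = a then e else x)
      ((fun x : α => if x = e then a else if x = a then e else x) x) = x := by
    intro x
    by_cases hx : x = e
    · rw [hx, h1, h2]
    · by_cases hx' : x = a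
      · rw [hx', h2, h1]
      · rw [h3 x hx hx', h3 x hx hx']
  refine ⟨IPm.of _ hf (fun x y h => ?_) fun y => ⟨_, h4 y⟩, ⟨h1, h2, h3⟩, ?_⟩
  · rw [← h4 x, ← h4 y]
    exact congrArg (fun x : α => if x = e then a else if x = a then e else x) h
  · rintro σ ⟨h5, h6, h7⟩
    refine IPm.ext fun x => ?_
    change σ.1 x = (fun x : α => if x = e then a else if x = a then e else x) x
    by_cases hx : x = e
    · rw [hx, h1, h5]
    · by_cases hx' : x = a
      · rw [hx', h2, h6]
      · rw [h3 x hx hx', h7 x hx hx']

theorem tsp_inj {e a a' : α} (ha : a ≠ e) (h : tsp M e a = tsp M e a') : a = a' := by
  have h1 := (tsp_spec (M := M) e a).1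
  rw [h, (tsp_spec e a').1] at h1
  exact h1.symm

theorem tsp_inj' {e e' a : α} (h : tsp M e a = tsp M e' a) : e = e' := by
  have h1 := (tsp_spec (M := M) e a).2.1
  rw [h, (tsp_spec e' a).2.1] at h1
  exact h1.symm

/-! ### Levels -/

/-- The elements with level at most `m`. -/
def Lv (v : α → INat M) (φ : α → α → α) (m : INat M) (e : α) : Prop :=
  v e ≤ m ∧ ∀ a, m < v a → φ e a = a

theorem levels {v : α → INat M} (hv : IntF M v) (hub : ∀ N, ∃ x, N < v x) {φ : α → α → α}
    (hφ : IntF M (fun q : α × α => φ q.1 q.2))
    (hfin : ∀ a, FinP M (fun e => e ≠ a ∧ φ e a = a))
    (hbd : ∀ e, ∃ m, ∀ a, a ≠ e → m < v a → φ e a = a) :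
    ∃ lev : α → INat M, IntF M lev ∧ ∀ m, FinP M (fun e => lev e ≤ m) := by
  have hLv : Int M (fun q : α × INat M => Lv v φ q.2 q.1) := by
    unfold Lv
    (repeat' (first | with_reducible exact IntF.id | with_reducible exact IntF.fst' | with_reducible exact IntF.snd' | with_reducible exact IntF.const _ | with_reducible exact Int.const _ | assumption | with_reducible apply Int.and | with_reducible apply Int.or | with_reducible apply Int.not | with_reducible apply Int.imp | with_reducible apply Int.iff | with_reducible apply Int.ne | with_reducible apply Int.eq | with_reducible apply Int.mem | with_reducible apply Int.subset | with_reducible apply Int.ltN | with_reducible apply Int.leN | with_reducible apply Int.fin | with_reducible apply Int.unique | with_reducible apply Int.all | with_reducible apply Int.ex | with_reducible apply IntF.fst | with_reducible apply IntF.snd | with_reducible apply IntF.app | with_reducible apply IntF.ite | with_reducible apply IntF.sep | with_reducible apply IntF.lam | with_reducible apply IntF.insert | with_reducible apply IntF.singleton | with_reducible apply IntF.union | with_reducible apply IntF.inter | with_reducible apply IntF.sdiff | with_reducible apply IntF.isUnion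 | with_reducible apply IntF.iimage | with_reducible apply IntF.the | with_reducible apply IntF.irec | with_reducible_and_instances apply IntF.add | with_reducible_and_instances apply IntF.mul | with_reducible apply IntF.succ | with_reducible apply IntF.val | (with_reducible refine Int.comp ?_ ?_; assumption) | (with_reducible refine Int.comp₂ ?_ ?_ ?_; assumption) | (with_reducible refine Int.comp₃ ?_ ?_ ?_ ?_; assumption) | (with_reducible refine IntF.comp ?_ ?_; assumption) | (with_reducible refine IntF.comp₂ ?_ ?_ ?_; assumption) | (with_reducible refine IntF.comp₃ ?_ ?_ ?_ ?_; assumption) | with_reducible apply IntF.pair))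
  have h1 : ∀ e, ∃ m, Lv v φ m e := by
    intro e
    obtain ⟨m, hm⟩ := hbd e
    refine ⟨max m (v e), le_max_right _ _, fun a ha => ?_⟩
    refine hm a ?_ ((le_max_left _ _).trans_lt ha)
    rintro rfl
    exact absurd ((le_max_right m (v a)).trans_lt ha) (lt_irrefl _)
  have h2 : ∀ e, ∃! m, Lv v φ m e ∧ ∀ k, Lv v φ k e → m ≤ k := by
    intro e
    obtain ⟨m, h3, h4⟩ := INat.exists_least (p := fun m => Lv v φ m e) (by
      unfold Lv
      (repeat' (first | with_reducible exact IntF.id | with_reducible exact IntF.fst' | with_reducible exact IntF.snd' | with_reducible exact IntF.const _ | with_reducible exact Int.const _ | assumption | with_reducible apply Int.and | with_reducible apply Int.or | with_reducible apply Int.not | with_reducible apply Int.imp | with_reducible apply Int.iff | with_reducible apply Int.ne | with_reducible apply Int.eq | with_reducible apply Int.mem | with_reducible apply Int.subset | with_reducible apply Int.ltN | with_reducible apply Int.leN | with_reducible apply Int.fin | with_reducible apply Int.unique | with_reducible apply Int.all | with_reducible apply Int.ex | with_reducible apply IntF.fst | with_reducible apply IntF.snd | with_reducible apply IntF.app | with_reducible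 apply IntF.ite | with_reducible apply IntF.sep | with_reducible apply IntF.lam | with_reducible apply IntF.insert | with_reducible apply IntF.singleton | with_reducible apply IntF.union | with_reducible apply IntF.inter | with_reducible apply IntF.sdiff | with_reducible apply IntF.isUnion | with_reducible apply IntF.iimage | with_reducible apply IntF.the | with_reducible apply IntF.irec | with_reducible_and_instances apply IntF.add | with_reducible_and_instances apply IntF.mul | with_reducible apply IntF.succ | with_reducible apply IntF.val | (with_reducible refine Int.comp ?_ ?_; assumption) | (with_reducible refine Int.comp₂ ?_ ?_ ?_; assumption) | (with_reducible refine Int.comp₃ ?_ ?_ ?_ ?_; assumption) | (with_reducible refine IntF.comp ?_ ?_; assumption) | (with_reducible refine IntF.comp₂ ?_ ?_ ?_; assumption) | (with_reducible refine IntF.comp₃ ?_ ?_ ?_ ?_; assumption) | with_reducible apply IntF.pair))) (h1 e)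
    exact ⟨m, ⟨h3, h4⟩, fun k hk => le_antisymm (hk.2 m h3) (h4 k hk.1)⟩
  refine ⟨fun e => the (fun m => Lv v φ m e ∧ ∀ k, Lv v φ k e → m ≤ k) 0, ?_, fun m => ?_⟩
  · have hLv' : Int M (fun q : INat M × α => Lv v φ q.1 q.2) := by
      unfold Lv
      (repeat' (first | with_reducible exact IntF.id | with_reducible exact IntF.fst' | with_reducible exact IntF.snd' | with_reducible exact IntF.const _ | with_reducible exact Int.const _ | assumption | with_reducible apply Int.and | with_reducible apply Int.or | with_reducible apply Int.not | with_reducible apply Int.imp | with_reducible apply Int.iff | with_reducible apply Int.ne | with_reducible apply Int.eq | with_reducible apply Int.mem | with_reducible apply Int.subset | with_reducible apply Int.ltN | with_reducible apply Int.leN | with_reducible apply Int.fin | with_reducible apply Int.unique | with_reducible apply Int.all | with_reducible apply Int.ex | with_reducible apply IntF.fst | with_reducible apply IntF.snd | with_reducible apply IntF.app | with_reducible apply IntF.ite | with_reducible apply IntF.sep | with_reducible apply IntF.lam | with_reducible apply IntF.insert | with_reducible apply IntF.singleton | with_reducible apply IntF.union | with_reducible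 apply IntF.inter | with_reducible apply IntF.sdiff | with_reducible apply IntF.isUnion | with_reducible apply IntF.iimage | with_reducible apply IntF.the | with_reducible apply IntF.irec | with_reducible_and_instances apply IntF.add | with_reducible_and_instances apply IntF.mul | with_reducible apply IntF.succ | with_reducible apply IntF.val | (with_reducible refine Int.comp ?_ ?_; assumption) | (with_reducible refine Int.comp₂ ?_ ?_ ?_; assumption) | (with_reducible refine Int.comp₃ ?_ ?_ ?_ ?_; assumption) | (with_reducible refine IntF.comp ?_ ?_; assumption) | (with_reducible refine IntF.comp₂ ?_ ?_ ?_; assumption) | (with_reducible refine IntF.comp₃ ?_ ?_ ?_ ?_; assumption) | with_reducible apply IntF.pair))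
    refine IntF.the ?_ (IntF.const _)
    refine Int.and hLv (Int.all (Int.imp (Int.comp₂ hLv' ?_ ?_) ?_)) <;> (repeat' (first | with_reducible exact IntF.id | with_reducible exact IntF.fst' | with_reducible exact IntF.snd' | with_reducible exact IntF.const _ | with_reducible exact Int.const _ | assumption | with_reducible apply Int.and | with_reducible apply Int.or | with_reducible apply Int.not | with_reducible apply Int.imp | with_reducible apply Int.iff | with_reducible apply Int.ne | with_reducible apply Int.eq | with_reducible apply Int.mem | with_reducible apply Int.subset | with_reducible apply Int.ltN | with_reducible apply Int.leN | with_reducible apply Int.fin | with_reducible apply Int.unique | with_reducible apply Int.all | with_reducible apply Int.ex | with_reducible apply IntF.fst | with_reducible apply IntF.snd | with_reducible apply IntF.app | with_reducible apply IntF.ite | with_reducible apply IntF.sep | with_reducible apply IntF.lam | with_reducible apply IntF.insert | with_reducible apply IntF.singleton | with_reducible apply IntF.union | with_reducible apply IntF.inter | with_reducible apply IntF.sdiff | with_reducible apply IntF.isUnion | with_reducible apply IntF.iimage | with_reducible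 apply IntF.the | with_reducible apply IntF.irec | with_reducible_and_instances apply IntF.add | with_reducible_and_instances apply IntF.mul | with_reducible apply IntF.succ | with_reducible apply IntF.val | (with_reducible refine Int.comp ?_ ?_; assumption) | (with_reducible refine Int.comp₂ ?_ ?_ ?_; assumption) | (with_reducible refine Int.comp₃ ?_ ?_ ?_ ?_; assumption) | (with_reducible refine IntF.comp ?_ ?_; assumption) | (with_reducible refine IntF.comp₂ ?_ ?_ ?_; assumption) | (with_reducible refine IntF.comp₃ ?_ ?_ ?_ ?_; assumption) | with_reducible apply IntF.pair))
  · obtain ⟨a, ha⟩ := hub m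
    refine (hfin a).mono fun e he => ?_
    obtain ⟨⟨h3, h4⟩, -⟩ := the_spec (h2 e) (d := 0)
    refine ⟨?_, h4 a (he.trans_lt ha)⟩
    rintro rfl
    exact absurd ((h3.trans he).trans_lt ha) (lt_irrefl _)

end Pool.Agent.H310
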