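import Pool.Agent.H635R2.Statement
import Pool.Agent.H310R3.Cards

/-!
# Metric spaces in a structure for the language of set theory: definitions
-/

namespace Pool.Agent.H310Metric

open FirstOrder FirstOrder.Language
open Pool.Agent.Helper672.Plain (LSet Mem Zermelo IsPair IsOrdPair El)
open Pool.Agent.H310Cards (IsFinite)

universe u

variable {M : Type u} [LSet.Structure M] {x r : M} [Field (El r)] [LinearOrder (El r)]

/-- `d` is a metric on the set `x` with values in `r`, and `d` is in the model: the set of the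
`((a, b), c)` with `d a b = c` is an element of the model. -/
structure IsMetric (d : El x → El x → El r) : Prop where
  graph : ∃ g, ∀ (a b : El x) (c : El r),
    d a b = c ↔ ∃ p q, IsOrdPair p a.1 b.1 ∧ IsOrdPair q p c.1 ∧ Mem q g
  zero : ∀ a b, d a b = 0 ↔ a = b
  symm : ∀ a b, d a b = d b a
  tri : ∀ a b c, d a c ≤ d a b + d b c

/-- `u` is an open subset of the subspace `y`. -/
def IsOpenIn (d : El x → El x → El r) (y u : M) : Prop :=
  (∀ z, Mem z u → Mem z y) ∧ ∀ a : El x, Mem a.1 u →
    ∃ ε : El r, 0 < ε ∧ ∀ b : El x, Mem b.1 y → d a b < ε → Mem b.1 u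

/-- The subspace `y` is compact: every family `c` of open subsets of `y` that covers `y` has a
finite subfamily that covers `y`. -/
def IsCompact (d : El x → El x → El r) (y : M) : Prop :=
  ∀ c : M, (∀ u, Mem u c → IsOpenIn d y u) → (∀ a, Mem a y → ∃ u, Mem u c ∧ Mem a u) →
    ∃ c', (∀ u, Mem u c' → Mem u c) ∧ IsFinite c' ∧ ∀ a, Mem a y → ∃ u, Mem u c' ∧ Mem a u

/-- The point `a` of the subspace `y` is isolated in `y`. -/
def IsIsolated (d : El x → El x → El r) (y : M) (a : El x) : Prop :=
  Mem a.1 y ∧ ∃ ε : El r, 0 < ε ∧ ∀ b : El x, Mem b.1 y → d a b < ε → b = a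

/-- The subspace `y` is scattered: every nonempty subset of `y` has an isolated point. -/
def IsScattered (d : El x → El x → El r) (y : M) : Prop :=
  ∀ z, (∀ w, Mem w z → Mem w y) → (∃ w, Mem w z) → ∃ a : El x, IsIsolated d z a

end Pool.Agent.H310Metric
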