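import Pool.Agent.H310R3.NA7
import Pool.Agent.H310R3.NA8

/-!
# Almost partitions: no amorphous sets
-/

set_option maxHeartbeats 1000000
set_option linter.all false
set_option synthInstance.maxSize 2000

namespace Pool.Agent.H310.NA

open FirstOrder FirstOrder.Language
open Pool.Agent.Helper672.ZFA
open Pool.Agent.Helper672.ZFA.H635 (IPerm IsGen NN EqFam CollL nn_ext exists_mk mk_eq_nd Good Sy og
  good_og og_fam nd_og_one nd_og_eq IWO od od_fam mem_od od_inj Od mem_Od gd_Od nd mem_nd tw FEq
  int_feq_tw IG)
open Pool.Agent.Helper672.ZFA.H310M
open Pool.Agent.H310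

universe u

variable {M : Type u} [L.Structure M] [hM : IsModel M]

theorem gd_empty {N : Type u} [L.Structure N] [IsModel N] {σ β : Type u} [ITy N σ] [ITy N β]
    {p : β → Prop} (h : ∀ b, ¬ p b) : Gd N σ p :=
  fun _ _ _ => ⟨∅, IFin.empty, fun _ ⟨b, hb, _⟩ => absurd hb (h b)⟩

/-- Coverings by good sets. -/
theorem gd_cov {N : Type u} [L.Structure N] [IsModel N] {σ β O A : Type u} [ITy N σ] [ITy N β]
    [ITy N O] [ITy N A] (hO : Gd N σ (fun _ : O => True))
    (hA : Gd N σ (fun s : IPow N A => IFin s)) (R : O × (IPow N A × β) → Prop) (hR : Int N R)
    (h : ∀ o s, IFin s → Int N (fun y => R (o, (s, y))) → Gd N σ (fun y => R (o, (s, y))))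
    (hc : ∀ y : β, ∃ o s, IFin s ∧ R (o, (s, y))) : Gd N σ (fun _ : β => True) := by
  have hfinI : Int N (fun s : IPow N A => IFin s) := int_IFin
  have hR1 : Int N (fun q : O × β => ∃ s : IPow N A, IFin s ∧ R (q.1, (s, q.2))) := by
    refine Int.ex (Int.and (Int.comp hfinI IntF.snd') ?_)
    exact Int.comp hR (by (repeat' (first | with_reducible exact IntF.id | with_reducible exact IntF.fst' | with_reducible exact IntF.snd' | with_reducible exact IntF.const _ | with_reducible exact Int.const _ | assumption | with_reducible apply Int.and | with_reducible apply Int.or | with_reducible apply Int.not | with_reducible apply Int.imp | with_reducible apply Int.iff | with_reducible apply Int.ne | with_reducible apply Int.eq | with_reducible apply Int.mem | with_reducible apply Int.subset | with_reducible apply Int.ltN | with_reducible apply Int.leN | with_reducible_and_instances apply Int.le | with_reducible_and_instances apply Int.lt | with_reducible apply Int.all | with_reducible apply Int.ex | with_reducible apply IntF.fst | with_reducible apply IntF.snd | with_reducible apply IntF.app | with_reducible apply IntF.inl |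 with_reducible apply IntF.inr | with_reducible_and_instances apply IntF.mul | with_reducible_and_instances apply IntF.inv | with_reducible_and_instances apply IntF.add | with_reducible_and_instances apply IntF.sub | with_reducible_and_instances apply IntF.neg | with_reducible_and_instances apply IntF.smul | with_reducible apply Int.fin | with_reducible apply IntF.sep | with_reducible apply IntF.lam | with_reducible apply IntF.insert | with_reducible apply IntF.singleton | with_reducible apply IntF.union | with_reducible apply IntF.iimage | with_reducible apply IntF.ite | with_reducible apply IntF.the | with_reducible apply IntF.irec | with_reducible apply IntF.succ | with_reducible apply IntF.val | with_reducible apply IntF.mk | (with_reducible refine Int.comp ?_ ?_; assumption) | (with_reducible refine Int.comp₂ ?_ ?_ ?_; assumption) | (with_reducible refine Int.comp₃ ?_ ?_ ?_ ?_; assumption) | (with_reducible refine Int.comp₄ ?_ ?_ ?_ ?_ ?_; assumption) | (with_reducible refine IntF.comp ?_ ?_; assumption) | (with_reducible refine IntF.comp₂ ?_ ?_ ?_; assumption) | (with_reducible refine IntF.comp₃ ?_ ?_ ?_ ?_; assumption)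 | with_reducible apply IntF.pair)))
  have h1 := hO.bUnion hR1 (fun o _ => by
    have hR2 : Int N (fun q : IPow N A × β => R (o, q)) :=
      Int.comp hR (IntF.pair (IntF.const _) IntF.id)
    refine hA.bUnion hR2 fun s hs => h o s hs ?_
    exact Int.comp (p := fun q : IPow N A × β => R (o, q)) hR2
      (IntF.pair (IntF.const s) IntF.id))
  refine h1.mono (Int.const _) fun y _ => ?_
  obtain ⟨o, s, hs, h2⟩ := hc y
  exact ⟨o, trivial, s, hs, h2⟩

theorem not_amo_of_gd {N : Type u} [L.Structure N] [IsModel N] {σ : Type u} [ITy N σ]
    (hσ : Amo N σ) (h : Gd N σ (fun _ : σ => True)) : False := by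
  have h3 := h (fun q => q.1 = q.2) (by (repeat' (first | with_reducible exact IntF.id | with_reducible exact IntF.fst' | with_reducible exact IntF.snd' | with_reducible exact IntF.const _ | with_reducible exact Int.const _ | assumption | with_reducible apply Int.and | with_reducible apply Int.or | with_reducible apply Int.not | with_reducible apply Int.imp | with_reducible apply Int.iff | with_reducible apply Int.ne | with_reducible apply Int.eq | with_reducible apply Int.mem | with_reducible apply Int.subset | with_reducible apply Int.ltN | with_reducible apply Int.leN | with_reducible_and_instances apply Int.le | with_reducible_and_instances apply Int.lt | with_reducible apply Int.all | with_reducible apply Int.ex | with_reducible apply IntF.fst | with_reducible apply IntF.snd | with_reducible apply IntF.app | with_reducible apply IntF.inl | with_reducible apply IntF.inr | with_reducible_and_instances apply IntF.mul | with_reducible_and_instances apply IntF.inv | with_reducible_and_instances apply IntF.add | with_reducible_and_instances apply IntF.sub | with_reducible_and_instances apply IntF.neg | with_reducible_and_instances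 apply IntF.smul | with_reducible apply Int.fin | with_reducible apply IntF.sep | with_reducible apply IntF.lam | with_reducible apply IntF.insert | with_reducible apply IntF.singleton | with_reducible apply IntF.union | with_reducible apply IntF.iimage | with_reducible apply IntF.ite | with_reducible apply IntF.the | with_reducible apply IntF.irec | with_reducible apply IntF.succ | with_reducible apply IntF.val | with_reducible apply IntF.mk | (with_reducible refine Int.comp ?_ ?_; assumption) | (with_reducible refine Int.comp₂ ?_ ?_ ?_; assumption) | (with_reducible refine Int.comp₃ ?_ ?_ ?_ ?_; assumption) | (with_reducible refine Int.comp₄ ?_ ?_ ?_ ?_ ?_; assumption) | (with_reducible refine IntF.comp ?_ ?_; assumption) | (with_reducible refine IntF.comp₂ ?_ ?_ ?_; assumption) | (with_reducible refine IntF.comp₃ ?_ ?_ ?_ ?_; assumption) | with_reducible apply IntF.pair))) (fun b _ => by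
    refine (FinP.eq b).mono fun a ha => ?_
    exact ha.symm)
  exact hσ.inf (h3.mono fun a _ => ⟨a, trivial, rfl⟩)

theorem fsg_mul (g h : IPerm M (Xt M)) (E : FS M (Xt M)) : fsg (g * h) E = fsg g (fsg h E) := by
  refine Subtype.ext (IPow.ext' fun x => ?_)
  rw [mem_fsg, mem_fsg]
  constructor
  · rintro ⟨y, hy, rfl⟩
    exact ⟨h.1.1 y, mem_fsg.2 ⟨y, hy, rfl⟩, (IPerm.mul_apply g h y).symm⟩
  · rintro ⟨y, hy, rfl⟩
    obtain ⟨z, hz, rfl⟩ := mem_fsg.1 hy
    exact ⟨z, hz, IPerm.mul_apply g h z⟩

/-- Pull-back of well-orders. -/
theorem exists_iwo (hWO : ∀ x : M, ∃ lt : El x → El x → Prop, IWO M (El x) lt)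
    (δ : Type u) [ITy M δ] : ∃ lt : δ → δ → Prop, IWO M δ lt := by
  obtain ⟨lt, h⟩ := hWO (dom M δ)
  let j : δ → El (dom M δ) := fun a => ⟨code a, code_mem_dom a⟩
  have hj : IntF M j := IntF.of_D (S := fun v => v 0 = v 1) (D.eqf (DF.var _) (DF.var _))
    fun _ _ => ⟨fun h => Subtype.ext h, fun h => congrArg Subtype.val h⟩
  refine ⟨fun a b => lt (j a) (j b), ?_, ?_, ?_⟩
  · exact Int.comp₂ (p := fun a b => lt a b) h.int (IntF.comp hj IntF.fst')
      (IntF.comp hj IntF.snd')
  · intro a b
    rcases h.tri (j a) (j b) with h1 | h1 | h1
    · exact Or.inl h1
    · exact Or.inr (Or.inl (ITy.inj (M := M) (congrArg Subtype.val h1)))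
    · exact Or.inr (Or.inr h1)
  · intro s hs
    obtain ⟨a, ha⟩ := hs
    obtain ⟨b, hb, h1⟩ := h.wf (iimage j s) ⟨j a, (mem_iimage hj).2 ⟨a, ha, rfl⟩⟩
    obtain ⟨c, hc, rfl⟩ := (mem_iimage hj).1 hb
    exact ⟨c, hc, fun d hd => h1 (j d) ((mem_iimage hj).2 ⟨d, hd, rfl⟩)⟩

variable {α : Type u} [ITy M α] {E : α → Co M (Xt M) → α → Prop}

theorem int_Sy (hI : IG M E) :
    Int M (fun q : α × FS M (Xt M) => Sy (SS (ZZ M)) E q.2 q.1) := by
  have h1 := (SS (ZZ M)).int_U
  have h2 := int_feq_tw (Γ := Gm (ZZ M)) hI hI
  unfold Sy
  refine Int.all (Int.imp ?_ (Int.all ?_))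
  · exact Int.comp₂ (p := fun l a => (SS (ZZ M)).U l a) h1 (IntF.snd IntF.fst') IntF.snd'
  · refine Int.comp₄ (p := fun (π : Gm (ZZ M)) (p : Co M (Xt M)) (a b : α) =>
      FEq M (tw π E) E p a b) h2 ?_ ?_ ?_ ?_
    · exact IntF.snd IntF.fst'
    · exact IntF.snd'
    · exact IntF.fst (IntF.fst IntF.fst')
    · exact IntF.fst (IntF.fst IntF.fst')

variable {G : Set (Co M (Xt M))} (hG : IsGen M G) (hC : CollL M)

theorem exists_fs : ∃ F : FS M (Xt M) → Nx hG, EF (ZZ M) hG fsg F ∧
    ∀ e w, Helper672.Plain.Mem w (F e) ↔ ∃ d, d ∈ e.1 ∧ w = cc (ZZ M) hG d := by
  refine EF.sets hG (ef_cc hG) (R := fun (e : FS M (Xt M)) (x : Xt M) => x ∈ e.1) (by (repeat' (first | with_reducible exact IntF.id | with_reducible exact IntF.fst' | with_reducible exact IntF.snd' | with_reducible exact IntF.const _ | with_reducible exact Int.const _ | assumption | with_reducible apply Int.and | with_reducible apply Int.or | with_reducible apply Int.not | with_reducible apply Int.imp | with_reducible apply Int.iff | with_reducible apply Int.ne | with_reducible apply Int.eq | with_reducible apply Int.mem | with_reducible apply Int.subset | with_reducible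 apply Int.ltN | with_reducible apply Int.leN | with_reducible_and_instances apply Int.le | with_reducible_and_instances apply Int.lt | with_reducible apply Int.all | with_reducible apply Int.ex | with_reducible apply IntF.fst | with_reducible apply IntF.snd | with_reducible apply IntF.app | with_reducible apply IntF.inl | with_reducible apply IntF.inr | with_reducible_and_instances apply IntF.mul | with_reducible_and_instances apply IntF.inv | with_reducible_and_instances apply IntF.add | with_reducible_and_instances apply IntF.sub | with_reducible_and_instances apply IntF.neg | with_reducible_and_instances apply IntF.smul | with_reducible apply Int.fin | with_reducible apply IntF.sep | with_reducible apply IntF.lam | with_reducible apply IntF.insert | with_reducible apply IntF.singleton | with_reducible apply IntF.union | with_reducible apply IntF.iimage | with_reducible apply IntF.ite | with_reducible apply IntF.the | with_reducible apply IntF.irec | with_reducible apply IntF.succ | with_reducible apply IntF.val | with_reducible apply IntF.mk | (with_reducible refine Int.comp ?_ ?_; assumption) | (with_reducible refine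 Int.comp₂ ?_ ?_ ?_; assumption) | (with_reducible refine Int.comp₃ ?_ ?_ ?_ ?_; assumption) | (with_reducible refine Int.comp₄ ?_ ?_ ?_ ?_ ?_; assumption) | (with_reducible refine IntF.comp ?_ ?_; assumption) | (with_reducible refine IntF.comp₂ ?_ ?_ ?_; assumption) | (with_reducible refine IntF.comp₃ ?_ ?_ ?_ ?_; assumption) | with_reducible apply IntF.pair)))
    (a' := fsg) ?_ fsg_inv ?_
  · intro g hg c d h
    exact mem_fsg.2 ⟨d, h, rfl⟩
  · intro c
    exact ⟨c, fun g hg hx => fsg_fix hx⟩

/-- The index type of the covering of a set. -/
abbrev Ixt (M : Type u) [L.Structure M] [IsModel M] (α : Type u) [ITy M α] : Type u :=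
  (α × FS M (Xt M)) × (FS M (Xt M) × (Gm (ZZ M) × α))

variable (hE : Good (SS (ZZ M)) E)

/-- The covering of a set. -/
theorem exists_zR {lt : α × FS M (Xt M) → α × FS M (Xt M) → Prop}
    (hlt : IWO M (α × FS M (Xt M)) lt) {F : FS M (Xt M) → Nx hG} (hF : EF (ZZ M) hG fsg F) :
    ∃ z : Nx hG, ∀ w, Helper672.Plain.Mem w z ↔ ∃ c : Ixt M α,
      (c.2.2.2 = c.1.1 ∧ Sy (SS (ZZ M)) E c.1.2 c.1.1 ∧ fsg c.2.2.1.1.1 c.1.2 = c.2.1) ∧
        w = op (M := Nx hG) (od (SS (ZZ M)) hG hlt c.1)
          (op (M := Nx hG) (F c.2.1) (nd hG (good_og hE) c.2.2)) := by
  let act : Gm (ZZ M) → Ixt M α → Ixt M α := fun σ c =>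
    (c.1, (fsg σ.1.1 c.2.1, (σ * c.2.2.1, c.2.2.2)))
  have hact : ∀ (π : Gm (ZZ M)) (c : Ixt M α), act π⁻¹ (act π c) = c := fun π c =>
    Prod.ext rfl (Prod.ext (fsg_inv π.1.1 c.2.1)
      (Prod.ext (inv_mul_cancel_left π c.2.2.1) rfl))
  have h1 : EqFam hG act (fun c => od (SS (ZZ M)) hG hlt c.1) :=
    (od_fam hG hlt).comp (φ := fun c : Ixt M α => c.1) IntF.fst' fun _ _ => rfl
  have h2 : EqFam hG act (fun c => F c.2.1) :=
    EqFam.comp (act := fun (π : Gm (ZZ M)) => fsg π.1.1) hF (φ := fun c : Ixt M α => c.2.1)
      (by (repeat' (first | with_reducible exact IntF.id | with_reducible exact IntF.fst' | with_reducible exact IntF.snd' | with_reducible exact IntF.const _ | with_reducible exact Int.const _ | assumption | with_reducible apply Int.and | with_reducible apply Int.or | with_reducible apply Int.not | with_reducible apply Int.imp | with_reducible apply Int.iff | with_reducible apply Int.ne | with_reducible apply Int.eq | with_reducible apply Int.mem | with_reducible apply Int.subset | with_reducible apply Int.ltN | with_reducible apply Int.leN | with_reducible_and_instances apply Int.le | with_reducible_and_instances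 apply Int.lt | with_reducible apply Int.all | with_reducible apply Int.ex | with_reducible apply IntF.fst | with_reducible apply IntF.snd | with_reducible apply IntF.app | with_reducible apply IntF.inl | with_reducible apply IntF.inr | with_reducible_and_instances apply IntF.mul | with_reducible_and_instances apply IntF.inv | with_reducible_and_instances apply IntF.add | with_reducible_and_instances apply IntF.sub | with_reducible_and_instances apply IntF.neg | with_reducible_and_instances apply IntF.smul | with_reducible apply Int.fin | with_reducible apply IntF.sep | with_reducible apply IntF.lam | with_reducible apply IntF.insert | with_reducible apply IntF.singleton | with_reducible apply IntF.union | with_reducible apply IntF.iimage | with_reducible apply IntF.ite | with_reducible apply IntF.the | with_reducible apply IntF.irec | with_reducible apply IntF.succ | with_reducible apply IntF.val | with_reducible apply IntF.mk | (with_reducible refine Int.comp ?_ ?_; assumption) | (with_reducible refine Int.comp₂ ?_ ?_ ?_; assumption) | (with_reducible refine Int.comp₃ ?_ ?_ ?_ ?_; assumption) | (with_reducible refine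 Int.comp₄ ?_ ?_ ?_ ?_ ?_; assumption) | (with_reducible refine IntF.comp ?_ ?_; assumption) | (with_reducible refine IntF.comp₂ ?_ ?_ ?_; assumption) | (with_reducible refine IntF.comp₃ ?_ ?_ ?_ ?_; assumption) | with_reducible apply IntF.pair))) fun _ _ => rfl
  have h3 : EqFam hG act (fun c => nd hG (good_og hE) c.2.2) :=
    (og_fam hG hE).comp (φ := fun c : Ixt M α => c.2.2) (by (repeat' (first | with_reducible exact IntF.id | with_reducible exact IntF.fst' | with_reducible exact IntF.snd' | with_reducible exact IntF.const _ | with_reducible exact Int.const _ | assumption | with_reducible apply Int.and | with_reducible apply Int.or | with_reducible apply Int.not | with_reducible apply Int.imp | with_reducible apply Int.iff | with_reducible apply Int.ne | with_reducible apply Int.eq | with_reducible apply Int.mem | with_reducible apply Int.subset | with_reducible apply Int.ltN | with_reducible apply Int.leN | with_reducible_and_instances apply Int.le | with_reducible_and_instances apply Int.lt | with_reducible apply Int.all | with_reducible apply Int.ex | with_reducible apply IntF.fst | with_reducible apply IntF.snd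 | with_reducible apply IntF.app | with_reducible apply IntF.inl | with_reducible apply IntF.inr | with_reducible_and_instances apply IntF.mul | with_reducible_and_instances apply IntF.inv | with_reducible_and_instances apply IntF.add | with_reducible_and_instances apply IntF.sub | with_reducible_and_instances apply IntF.neg | with_reducible_and_instances apply IntF.smul | with_reducible apply Int.fin | with_reducible apply IntF.sep | with_reducible apply IntF.lam | with_reducible apply IntF.insert | with_reducible apply IntF.singleton | with_reducible apply IntF.union | with_reducible apply IntF.iimage | with_reducible apply IntF.ite | with_reducible apply IntF.the | with_reducible apply IntF.irec | with_reducible apply IntF.succ | with_reducible apply IntF.val | with_reducible apply IntF.mk | (with_reducible refine Int.comp ?_ ?_; assumption) | (with_reducible refine Int.comp₂ ?_ ?_ ?_; assumption) | (with_reducible refine Int.comp₃ ?_ ?_ ?_ ?_; assumption) | (with_reducible refine Int.comp₄ ?_ ?_ ?_ ?_ ?_; assumption) | (with_reducible refine IntF.comp ?_ ?_; assumption) | (with_reducible refine IntF.comp₂ ?_ ?_ ?_;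 assumption) | (with_reducible refine IntF.comp₃ ?_ ?_ ?_ ?_; assumption) | with_reducible apply IntF.pair))) fun _ _ => rfl
  have hS := int_Sy hE.int
  have hf := int_fsg (M := M)
  have hI : Int M (fun c : Ixt M α => c.2.2.2 = c.1.1 ∧ Sy (SS (ZZ M)) E c.1.2 c.1.1 ∧
      fsg c.2.2.1.1.1 c.1.2 = c.2.1) := by
    refine Int.and ?_ (Int.and ?_ ?_)
    · (repeat' (first | with_reducible exact IntF.id | with_reducible exact IntF.fst' | with_reducible exact IntF.snd' | with_reducible exact IntF.const _ | with_reducible exact Int.const _ | assumption | with_reducible apply Int.and | with_reducible apply Int.or | with_reducible apply Int.not | with_reducible apply Int.imp | with_reducible apply Int.iff | with_reducible apply Int.ne | with_reducible apply Int.eq | with_reducible apply Int.mem | with_reducible apply Int.subset | with_reducible apply Int.ltN | with_reducible apply Int.leN | with_reducible_and_instances apply Int.le | with_reducible_and_instances apply Int.lt | with_reducible apply Int.all | with_reducible apply Int.ex | with_reducible apply IntF.fst | with_reducible apply IntF.snd | with_reducible apply IntF.app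 | with_reducible apply IntF.inl | with_reducible apply IntF.inr | with_reducible_and_instances apply IntF.mul | with_reducible_and_instances apply IntF.inv | with_reducible_and_instances apply IntF.add | with_reducible_and_instances apply IntF.sub | with_reducible_and_instances apply IntF.neg | with_reducible_and_instances apply IntF.smul | with_reducible apply Int.fin | with_reducible apply IntF.sep | with_reducible apply IntF.lam | with_reducible apply IntF.insert | with_reducible apply IntF.singleton | with_reducible apply IntF.union | with_reducible apply IntF.iimage | with_reducible apply IntF.ite | with_reducible apply IntF.the | with_reducible apply IntF.irec | with_reducible apply IntF.succ | with_reducible apply IntF.val | with_reducible apply IntF.mk | (with_reducible refine Int.comp ?_ ?_; assumption) | (with_reducible refine Int.comp₂ ?_ ?_ ?_; assumption) | (with_reducible refine Int.comp₃ ?_ ?_ ?_ ?_; assumption) | (with_reducible refine Int.comp₄ ?_ ?_ ?_ ?_ ?_; assumption) | (with_reducible refine IntF.comp ?_ ?_; assumption) | (with_reducible refine IntF.comp₂ ?_ ?_ ?_; assumption) | (with_reducible refine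 IntF.comp₃ ?_ ?_ ?_ ?_; assumption) | with_reducible apply IntF.pair))
    · exact Int.comp (p := fun q : α × FS M (Xt M) => Sy (SS (ZZ M)) E q.2 q.1)
        (f := fun c : Ixt M α => c.1) hS IntF.fst'
    · refine Int.eq (IntF.comp₂ (p := fun g e => fsg g e) hf ?_ ?_) ?_
      · (repeat' (first | with_reducible exact IntF.id | with_reducible exact IntF.fst' | with_reducible exact IntF.snd' | with_reducible exact IntF.const _ | with_reducible exact Int.const _ | assumption | with_reducible apply Int.and | with_reducible apply Int.or | with_reducible apply Int.not | with_reducible apply Int.imp | with_reducible apply Int.iff | with_reducible apply Int.ne | with_reducible apply Int.eq | with_reducible apply Int.mem | with_reducible apply Int.subset | with_reducible apply Int.ltN | with_reducible apply Int.leN | with_reducible_and_instances apply Int.le | with_reducible_and_instances apply Int.lt | with_reducible apply Int.all | with_reducible apply Int.ex | with_reducible apply IntF.fst | with_reducible apply IntF.snd | with_reducible apply IntF.app | with_reducible apply IntF.inl | with_reducible apply IntF.inr | with_reducible_and_instances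 apply IntF.mul | with_reducible_and_instances apply IntF.inv | with_reducible_and_instances apply IntF.add | with_reducible_and_instances apply IntF.sub | with_reducible_and_instances apply IntF.neg | with_reducible_and_instances apply IntF.smul | with_reducible apply Int.fin | with_reducible apply IntF.sep | with_reducible apply IntF.lam | with_reducible apply IntF.insert | with_reducible apply IntF.singleton | with_reducible apply IntF.union | with_reducible apply IntF.iimage | with_reducible apply IntF.ite | with_reducible apply IntF.the | with_reducible apply IntF.irec | with_reducible apply IntF.succ | with_reducible apply IntF.val | with_reducible apply IntF.mk | (with_reducible refine Int.comp ?_ ?_; assumption) | (with_reducible refine Int.comp₂ ?_ ?_ ?_; assumption) | (with_reducible refine Int.comp₃ ?_ ?_ ?_ ?_; assumption) | (with_reducible refine Int.comp₄ ?_ ?_ ?_ ?_ ?_; assumption) | (with_reducible refine IntF.comp ?_ ?_; assumption) | (with_reducible refine IntF.comp₂ ?_ ?_ ?_; assumption) | (with_reducible refine IntF.comp₃ ?_ ?_ ?_ ?_; assumption) | with_reducible apply IntF.pair))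
      · (repeat' (first | with_reducible exact IntF.id | with_reducible exact IntF.fst' | with_reducible exact IntF.snd' | with_reducible exact IntF.const _ | with_reducible exact Int.const _ | assumption | with_reducible apply Int.and | with_reducible apply Int.or | with_reducible apply Int.not | with_reducible apply Int.imp | with_reducible apply Int.iff | with_reducible apply Int.ne | with_reducible apply Int.eq | with_reducible apply Int.mem | with_reducible apply Int.subset | with_reducible apply Int.ltN | with_reducible apply Int.leN | with_reducible_and_instances apply Int.le | with_reducible_and_instances apply Int.lt | with_reducible apply Int.all | with_reducible apply Int.ex | with_reducible apply IntF.fst | with_reducible apply IntF.snd | with_reducible apply IntF.app | with_reducible apply IntF.inl | with_reducible apply IntF.inr | with_reducible_and_instances apply IntF.mul | with_reducible_and_instances apply IntF.inv | with_reducible_and_instances apply IntF.add | with_reducible_and_instances apply IntF.sub | with_reducible_and_instances apply IntF.neg | with_reducible_and_instances apply IntF.smul | with_reducible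 apply Int.fin | with_reducible apply IntF.sep | with_reducible apply IntF.lam | with_reducible apply IntF.insert | with_reducible apply IntF.singleton | with_reducible apply IntF.union | with_reducible apply IntF.iimage | with_reducible apply IntF.ite | with_reducible apply IntF.the | with_reducible apply IntF.irec | with_reducible apply IntF.succ | with_reducible apply IntF.val | with_reducible apply IntF.mk | (with_reducible refine Int.comp ?_ ?_; assumption) | (with_reducible refine Int.comp₂ ?_ ?_ ?_; assumption) | (with_reducible refine Int.comp₃ ?_ ?_ ?_ ?_; assumption) | (with_reducible refine Int.comp₄ ?_ ?_ ?_ ?_ ?_; assumption) | (with_reducible refine IntF.comp ?_ ?_; assumption) | (with_reducible refine IntF.comp₂ ?_ ?_ ?_; assumption) | (with_reducible refine IntF.comp₃ ?_ ?_ ?_ ?_; assumption) | with_reducible apply IntF.pair))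
      · (repeat' (first | with_reducible exact IntF.id | with_reducible exact IntF.fst' | with_reducible exact IntF.snd' | with_reducible exact IntF.const _ | with_reducible exact Int.const _ | assumption | with_reducible apply Int.and | with_reducible apply Int.or | with_reducible apply Int.not | with_reducible apply Int.imp | with_reducible apply Int.iff | with_reducible apply Int.ne | with_reducible apply Int.eq | with_reducible apply Int.mem | with_reducible apply Int.subset | with_reducible apply Int.ltN | with_reducible apply Int.leN | with_reducible_and_instances apply Int.le | with_reducible_and_instances apply Int.lt | with_reducible apply Int.all | with_reducible apply Int.ex | with_reducible apply IntF.fst | with_reducible apply IntF.snd | with_reducible apply IntF.app | with_reducible apply IntF.inl | with_reducible apply IntF.inr | with_reducible_and_instances apply IntF.mul | with_reducible_and_instances apply IntF.inv | with_reducible_and_instances apply IntF.add | with_reducible_and_instances apply IntF.sub | with_reducible_and_instances apply IntF.neg | with_reducible_and_instances apply IntF.smul | with_reducible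 apply Int.fin | with_reducible apply IntF.sep | with_reducible apply IntF.lam | with_reducible apply IntF.insert | with_reducible apply IntF.singleton | with_reducible apply IntF.union | with_reducible apply IntF.iimage | with_reducible apply IntF.ite | with_reducible apply IntF.the | with_reducible apply IntF.irec | with_reducible apply IntF.succ | with_reducible apply IntF.val | with_reducible apply IntF.mk | (with_reducible refine Int.comp ?_ ?_; assumption) | (with_reducible refine Int.comp₂ ?_ ?_ ?_; assumption) | (with_reducible refine Int.comp₃ ?_ ?_ ?_ ?_; assumption) | (with_reducible refine Int.comp₄ ?_ ?_ ?_ ?_ ?_; assumption) | (with_reducible refine IntF.comp ?_ ?_; assumption) | (with_reducible refine IntF.comp₂ ?_ ?_ ?_; assumption) | (with_reducible refine IntF.comp₃ ?_ ?_ ?_ ?_; assumption) | with_reducible apply IntF.pair))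
  refine EqFam.set (EqFam.op hact h1 (EqFam.op hact h2 h3)) hI ?_
  obtain ⟨l⟩ := (SS (ZZ M)).nonempty
  refine ⟨l, fun π _ c hc => ⟨hc.1, hc.2.1, ?_⟩⟩
  change fsg (π.1.1 * c.2.2.1.1.1) c.1.2 = fsg π.1.1 c.2.1
  rw [fsg_mul, hc.2.2]

/-- The sections of the covering. -/
theorem exists_z2 {lt : Gm (ZZ M) → Gm (ZZ M) → Prop} (hlt : IWO M (Gm (ZZ M)) lt) (b : α)
    (e F : FS M (Xt M)) :
    ∃ z : Nx hG, ∀ w, Helper672.Plain.Mem w z ↔ ∃ c : Gm (ZZ M) × (Gm (ZZ M) × α),
      (c.2.2 = b ∧ fsg c.1.1.1 e = F ∧ (SS (ZZ M)).U F (c.2.1 * c.1⁻¹)) ∧
        w = op (M := Nx hG) (od (SS (ZZ M)) hG hlt c.1) (nd hG (good_og hE) c.2) := by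
  let act : Gm (ZZ M) → Gm (ZZ M) × (Gm (ZZ M) × α) → Gm (ZZ M) × (Gm (ZZ M) × α) := fun σ c =>
    (c.1, (σ * c.2.1, c.2.2))
  have hact : ∀ (π : Gm (ZZ M)) (c : Gm (ZZ M) × (Gm (ZZ M) × α)), act π⁻¹ (act π c) = c :=
    fun π c => Prod.ext rfl (Prod.ext (inv_mul_cancel_left π c.2.1) rfl)
  have h1 : EqFam hG act (fun c => od (SS (ZZ M)) hG hlt c.1) :=
    (od_fam hG hlt).comp (φ := fun c : Gm (ZZ M) × (Gm (ZZ M) × α) => c.1) IntF.fst'
      fun _ _ => rfl
  have h3 : EqFam hG act (fun c => nd hG (good_og hE) c.2) :=
    (og_fam hG hE).comp (φ := fun c : Gm (ZZ M) × (Gm (ZZ M) × α) => c.2) IntF.snd'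
      fun _ _ => rfl
  have hf := int_fsg (M := M)
  have hU := (SS (ZZ M)).int_U
  have hI : Int M (fun c : Gm (ZZ M) × (Gm (ZZ M) × α) =>
      c.2.2 = b ∧ fsg c.1.1.1 e = F ∧ (SS (ZZ M)).U F (c.2.1 * c.1⁻¹)) := by
    refine Int.and ?_ (Int.and ?_ ?_)
    · (repeat' (first | with_reducible exact IntF.id | with_reducible exact IntF.fst' | with_reducible exact IntF.snd' | with_reducible exact IntF.const _ | with_reducible exact Int.const _ | assumption | with_reducible apply Int.and | with_reducible apply Int.or | with_reducible apply Int.not | with_reducible apply Int.imp | with_reducible apply Int.iff | with_reducible apply Int.ne | with_reducible apply Int.eq | with_reducible apply Int.mem | with_reducible apply Int.subset | with_reducible apply Int.ltN | with_reducible apply Int.leN | with_reducible_and_instances apply Int.le | with_reducible_and_instances apply Int.lt | with_reducible apply Int.all | with_reducible apply Int.ex | with_reducible apply IntF.fst | with_reducible apply IntF.snd | with_reducible apply IntF.app | with_reducible apply IntF.inl | with_reducible apply IntF.inr | with_reducible_and_instances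 apply IntF.mul | with_reducible_and_instances apply IntF.inv | with_reducible_and_instances apply IntF.add | with_reducible_and_instances apply IntF.sub | with_reducible_and_instances apply IntF.neg | with_reducible_and_instances apply IntF.smul | with_reducible apply Int.fin | with_reducible apply IntF.sep | with_reducible apply IntF.lam | with_reducible apply IntF.insert | with_reducible apply IntF.singleton | with_reducible apply IntF.union | with_reducible apply IntF.iimage | with_reducible apply IntF.ite | with_reducible apply IntF.the | with_reducible apply IntF.irec | with_reducible apply IntF.succ | with_reducible apply IntF.val | with_reducible apply IntF.mk | (with_reducible refine Int.comp ?_ ?_; assumption) | (with_reducible refine Int.comp₂ ?_ ?_ ?_; assumption) | (with_reducible refine Int.comp₃ ?_ ?_ ?_ ?_; assumption) | (with_reducible refine Int.comp₄ ?_ ?_ ?_ ?_ ?_; assumption) | (with_reducible refine IntF.comp ?_ ?_; assumption) | (with_reducible refine IntF.comp₂ ?_ ?_ ?_; assumption) | (with_reducible refine IntF.comp₃ ?_ ?_ ?_ ?_; assumption) | with_reducible apply IntF.pair))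
    · refine Int.eq (IntF.comp₂ (p := fun g e => fsg g e) hf ?_ (IntF.const _)) (IntF.const _)
      (repeat' (first | with_reducible exact IntF.id | with_reducible exact IntF.fst' | with_reducible exact IntF.snd' | with_reducible exact IntF.const _ | with_reducible exact Int.const _ | assumption | with_reducible apply Int.and | with_reducible apply Int.or | with_reducible apply Int.not | with_reducible apply Int.imp | with_reducible apply Int.iff | with_reducible apply Int.ne | with_reducible apply Int.eq | with_reducible apply Int.mem | with_reducible apply Int.subset | with_reducible apply Int.ltN | with_reducible apply Int.leN | with_reducible_and_instances apply Int.le | with_reducible_and_instances apply Int.lt | with_reducible apply Int.all | with_reducible apply Int.ex | with_reducible apply IntF.fst | with_reducible apply IntF.snd | with_reducible apply IntF.app | with_reducible apply IntF.inl | with_reducible apply IntF.inr | with_reducible_and_instances apply IntF.mul | with_reducible_and_instances apply IntF.inv | with_reducible_and_instances apply IntF.add | with_reducible_and_instances apply IntF.sub | with_reducible_and_instances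 apply IntF.neg | with_reducible_and_instances apply IntF.smul | with_reducible apply Int.fin | with_reducible apply IntF.sep | with_reducible apply IntF.lam | with_reducible apply IntF.insert | with_reducible apply IntF.singleton | with_reducible apply IntF.union | with_reducible apply IntF.iimage | with_reducible apply IntF.ite | with_reducible apply IntF.the | with_reducible apply IntF.irec | with_reducible apply IntF.succ | with_reducible apply IntF.val | with_reducible apply IntF.mk | (with_reducible refine Int.comp ?_ ?_; assumption) | (with_reducible refine Int.comp₂ ?_ ?_ ?_; assumption) | (with_reducible refine Int.comp₃ ?_ ?_ ?_ ?_; assumption) | (with_reducible refine Int.comp₄ ?_ ?_ ?_ ?_ ?_; assumption) | (with_reducible refine IntF.comp ?_ ?_; assumption) | (with_reducible refine IntF.comp₂ ?_ ?_ ?_; assumption) | (with_reducible refine IntF.comp₃ ?_ ?_ ?_ ?_; assumption) | with_reducible apply IntF.pair))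
    · refine Int.comp₂ (p := fun l a => (SS (ZZ M)).U l a) hU (IntF.const _) ?_
      (repeat' (first | with_reducible exact IntF.id | with_reducible exact IntF.fst' | with_reducible exact IntF.snd' | with_reducible exact IntF.const _ | with_reducible exact Int.const _ | assumption | with_reducible apply Int.and | with_reducible apply Int.or | with_reducible apply Int.not | with_reducible apply Int.imp | with_reducible apply Int.iff | with_reducible apply Int.ne | with_reducible apply Int.eq | with_reducible apply Int.mem | with_reducible apply Int.subset | with_reducible apply Int.ltN | with_reducible apply Int.leN | with_reducible_and_instances apply Int.le | with_reducible_and_instances apply Int.lt | with_reducible apply Int.all | with_reducible apply Int.ex | with_reducible apply IntF.fst | with_reducible apply IntF.snd | with_reducible apply IntF.app | with_reducible apply IntF.inl | with_reducible apply IntF.inr | with_reducible_and_instances apply IntF.mul | with_reducible_and_instances apply IntF.inv | with_reducible_and_instances apply IntF.add | with_reducible_and_instances apply IntF.sub | with_reducible_and_instances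 apply IntF.neg | with_reducible_and_instances apply IntF.smul | with_reducible apply Int.fin | with_reducible apply IntF.sep | with_reducible apply IntF.lam | with_reducible apply IntF.insert | with_reducible apply IntF.singleton | with_reducible apply IntF.union | with_reducible apply IntF.iimage | with_reducible apply IntF.ite | with_reducible apply IntF.the | with_reducible apply IntF.irec | with_reducible apply IntF.succ | with_reducible apply IntF.val | with_reducible apply IntF.mk | (with_reducible refine Int.comp ?_ ?_; assumption) | (with_reducible refine Int.comp₂ ?_ ?_ ?_; assumption) | (with_reducible refine Int.comp₃ ?_ ?_ ?_ ?_; assumption) | (with_reducible refine Int.comp₄ ?_ ?_ ?_ ?_ ?_; assumption) | (with_reducible refine IntF.comp ?_ ?_; assumption) | (with_reducible refine IntF.comp₂ ?_ ?_ ?_; assumption) | (with_reducible refine IntF.comp₃ ?_ ?_ ?_ ?_; assumption) | with_reducible apply IntF.pair))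
  refine EqFam.set (EqFam.op hact h1 h3) hI ?_
  refine ⟨F, fun π hπ c hc => ⟨hc.1, hc.2.1, ?_⟩⟩
  change (SS (ZZ M)).U F (π * c.2.1 * c.1⁻¹)
  rw [mul_assoc]
  exact (SS (ZZ M)).mul _ _ _ hπ hc.2.2

theorem U_conj {e F : FS M (Xt M)} {τ : Gm (ZZ M)} (h : fsg τ.1.1 e = F) (a : Gm (ZZ M))
    (ha : (SS (ZZ M)).U F a) : (SS (ZZ M)).U e (τ⁻¹ * a * τ) := by
  subst h
  rw [SS_U] at ha ⊢
  intro c hc
  rw [sig_comp, sig_comp, ha (sig τ c), sig_inv, sigi_sig]
  rw [mem_fsg]
  exact ⟨c.1, hc, (sig_fst τ c).symm⟩

include hC in
/-- The sections of the covering are good. -/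
theorem gd_sec {σ : Type u} [ITy (Nx hG) σ] (hσ : Amo (Nx hG) σ) {x : Nx hG}
    {lg : Gm (ZZ M) → Gm (ZZ M) → Prop} (hlg : IWO M (Gm (ZZ M)) lg) {b : α} {e F : FS M (Xt M)}
    (hb : Sy (SS (ZZ M)) E e b) {p : El x → Prop} (hp : Int (Nx hG) p)
    (h : ∀ y, p y → ∃ π : Gm (ZZ M), fsg π.1.1 e = F ∧ y.1 = nd hG (good_og hE) (π, b)) :
    Gd (Nx hG) σ p := by
  obtain ⟨z, hz⟩ := exists_z2 hG hE hlg b e F
  have hR : Int (Nx hG) (fun q : El (Od (SS (ZZ M)) hG hlg) × El x =>
      Mem (op q.1.1 q.2.1) z) :=
    Int.of_D₂ (S := fun v => Mem (op (v 0) (v 1)) z)
      (D.memf (DF.op (DF.var _) (DF.var _)) (DF.const _)) fun _ _ => Iff.rfl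
  have h1 := (gd_Od hG hlg hC hσ).bUnion hR (fun o _ => by
    obtain ⟨τ, hτ⟩ := (mem_Od hG hlg).1 o.2
    by_cases hne : ∃ y : El x, Mem (op o.1 y.1) z
    · obtain ⟨y₀, hy₀⟩ := hne
      have key : ∀ y : El x, Mem (op o.1 y.1) z → y.1 = nd hG (good_og hE) (τ, b) := by
        intro y hy
        obtain ⟨⟨τ', π, b'⟩, ⟨h3, h4, h5⟩, h6⟩ := (hz _).1 hy
        obtain ⟨h7, h8⟩ := op_inj (M := Nx hG) h6
        rw [hτ] at h7
        obtain rfl := od_inj hG hlg hC h7
        change b' = b at h3
        subst h3
        rw [h8]
        have h9 := nd_og_eq hG hE hb (fun a ha => U_conj h4 a ha) h5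
        rw [inv_mul_cancel_right] at h9
        exact h9
      refine (Gd.eq y₀).mono (Int.slice (p := fun (o : El (Od (SS (ZZ M)) hG hlg)) (y : El x) =>
        Mem (op o.1 y.1) z) hR o) fun y hy => Subtype.ext ?_
      rw [key y hy, key y₀ hy₀]
    · exact gd_empty fun y hy => hne ⟨y, hy⟩)
  refine h1.mono hp fun y hy => ?_
  obtain ⟨π, h3, h4⟩ := h y hy
  refine ⟨⟨_, (mem_Od hG hlg).2 ⟨π, rfl⟩⟩, trivial, (hz _).2 ⟨(π, (π, b)), ⟨rfl, h3, ?_⟩, ?_⟩⟩
  · rw [mul_inv_cancel]
    exact (SS (ZZ M)).one _
  · rw [h4]

include hC in
/-- No set of the extension is amorphous. -/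
theorem not_amo_nd (hWO : ∀ x : M, ∃ lt : El x → El x → Prop, IWO M (El x) lt) (a₀ : α) :
    ¬ Amo (Nx hG) (El (nd hG hE a₀ : Nx hG)) := by
  intro hσ
  obtain ⟨lt, hlt⟩ := exists_iwo hWO (α × FS M (Xt M))
  obtain ⟨lg, hlg⟩ := exists_iwo hWO (Gm (ZZ M))
  obtain ⟨F, hF, hFm⟩ := exists_fs hG
  obtain ⟨z, hz⟩ := exists_zR hG hE hlt hF
  have hR' : Int (Nx hG) (fun q : El (Od (SS (ZZ M)) hG hlt) ×
      (IPow (Nx hG) (El (AA (ZZ M) hG)) × El (nd hG hE a₀ : Nx hG)) =>
      Mem (op q.1.1 (op (code q.2.1) q.2.2.1)) z) :=
    Int.of_D₂ (S := fun v => Mem (op (v 0) (v 1)) z)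
      (D.memf (DF.op (DF.var _) (DF.var _)) (DF.const _)) fun _ _ => Iff.rfl
  refine not_amo_of_gd hσ (gd_cov (gd_Od hG hlt hC hσ) (hσ.fs (gd_AA hG hC hσ)) _ hR'
    (fun o s hs hp => ?_) (fun y => ?_))
  · by_cases hne : ∃ y : El (nd hG hE a₀ : Nx hG), Mem (op o.1 (op (code s) y.1)) z
    · obtain ⟨y₀, hy₀⟩ := hne
      obtain ⟨⟨⟨b₀, e₀⟩, F₀, π₀, b₀'⟩, ⟨h3, h4, h5⟩, h6⟩ := (hz _).1 hy₀
      obtain ⟨h7, h8⟩ := op_inj (M := Nx hG) h6
      obtain ⟨h9, h10⟩ := op_inj (M := Nx hG) h8
      refine gd_sec hG hC hE hσ hlg (b := b₀) (e := e₀) (F := F₀) h4 hp fun y hy => ?_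
      obtain ⟨⟨⟨b, e⟩, F₁, π, b'⟩, ⟨k3, k4, k5⟩, k6⟩ := (hz _).1 hy
      obtain ⟨k7, k8⟩ := op_inj (M := Nx hG) k6
      obtain ⟨k9, k10⟩ := op_inj (M := Nx hG) k8
      rw [h7] at k7
      have k11 := od_inj hG hlt hC k7
      have k12 : b₀ = b := congrArg Prod.fst k11
      have k13 : e₀ = e := congrArg Prod.snd k11
      change b' = b at k3
      subst k12 k13 k3
      refine ⟨π, ?_, k10⟩
      rw [h9] at k9
      have k14 : F₀ = F₁ := by
        refine Subtype.ext (IPow.ext' fun x => ?_)
        constructor
        · intro hx
          obtain ⟨d, hd, h⟩ := (hFm F₁ (cc (ZZ M) hG x)).1 (by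
            have h' := (hFm F₀ (cc (ZZ M) hG x)).2 ⟨x, hx, rfl⟩
            have k9' : F F₀ = F F₁ := k9
            rwa [k9'] at h')
          rwa [(cc_inj hG).1 h]
        · intro hx
          obtain ⟨d, hd, h⟩ := (hFm F₀ (cc (ZZ M) hG x)).1 (by
            have h' := (hFm F₁ (cc (ZZ M) hG x)).2 ⟨x, hx, rfl⟩
            have k9' : F F₀ = F F₁ := k9
            rwa [← k9'] at h')
          rwa [(cc_inj hG).1 h]
      exact k5.trans k14.symm
    · exact gd_empty fun y hy => hne ⟨y, hy⟩
  · obtain ⟨b, p, hp, h3, h4⟩ := (mem_nd hG hE).1 y.2
    obtain ⟨e, he⟩ := hE.sym b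
    obtain ⟨s, hs, hs'⟩ := exists_fin hG hC (Z := ZZ M) e
    refine ⟨⟨_, (mem_Od hG hlt).2 ⟨(b, e), rfl⟩⟩, s, hs, (hz _).2
      ⟨((b, e), (e, ((1 : Gm (ZZ M)), b))), ⟨rfl, he, ?_⟩, ?_⟩⟩
    · exact fsg_fix fun x _ => IPerm.one_apply x
    · have h5 : code (M := Nx hG) s = F e := by
        refine nn_ext hG fun w => ?_
        rw [hFm]
        have h0 : Helper672.Plain.Mem w (code (M := Nx hG) s) ↔
          ∃ a, a ∈ s ∧ code a = w := mem_code_pow (M := Nx hG)
        rw [h0]
        constructor
        · rintro ⟨a, ha, rfl⟩
          obtain ⟨x, rfl⟩ := cA_surj hG a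
          exact ⟨x, (hs' x).1 ha, rfl⟩
        · rintro ⟨x, hx, rfl⟩
          exact ⟨cA (ZZ M) hG x, (hs' x).2 hx, rfl⟩
      rw [h5, h4, nd_og_one hG hE b]

include hC in
/-- No set of the extension is amorphous. -/
theorem not_amo (hWO : ∀ x : M, ∃ lt : El x → El x → Prop, IWO M (El x) lt) (x : Nx hG) :
    ¬ Amo (Nx hG) (El x) := by
  obtain ⟨y, hy⟩ := exists_mk hG x
  rw [← hy, mk_eq_nd]
  exact not_amo_nd hG hC y.good hWO y.root

end Pool.Agent.H310.NA
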