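import Pool.Agent.H310R3.NADefs
import Pool.Agent.H310R3.NA9
import Pool.Agent.H310R3.NA10
import Pool.Agent.H635R2.Ext

/-!
# No amorphous sets and only scattered compactifications: the symmetric extension
-/

set_option maxHeartbeats 1000000
set_option linter.all false
set_option synthInstance.maxSize 2000

namespace Pool.Agent.H310.NA

open FirstOrder FirstOrder.Language
open Pool.Agent.Helper672.ZFA
open Pool.Agent.Helper672.ZFA.H635 (IPerm IsGen NN EqFam CollL nn_ext exists_mk mk_eq_nd IWO
  nn_zf isModel_of_zermelo coll_of_zf exists_countable_sub toL)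
open Pool.Agent.Helper672.ZFA.H310M
open Pool.Agent.Helper672.Plain (LSet)
open Pool.Agent.H635Amen (ZF)
open Pool.Agent.H310
open Pool.Agent.H310Cards
open Pool.Agent.H310Top
open Pool.Agent.H310NAS

universe u

section

variable {M : Type u} [L.Structure M] [hM : IsModel M]

theorem inf_Dt : ¬ FinP M (fun _ : Dt M => True) := by
  intro h
  let j : INat M → Dt M := fun n => ⟨{n}, IFin.singleton n⟩
  have hj : IntF M j := IntF.mk (IntF.singleton IntF.id)
  have h1 : FinP M (fun _ : INat M => True) := by
    refine FinP.of_inj (Int.const _) hj (fun a b _ _ e => ?_) h fun _ _ => trivial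
    have h2 : a ∈ (j b).1 := e ▸ (show a ∈ ({a} : IPow M (INat M)) by simp)
    have h3 : a ∈ ({b} : IPow M (INat M)) := h2
    simpa using h3
  obtain ⟨n, hn⟩ := h1.bound
  exact absurd (hn n.succ trivial) (not_le.2 (INat.lt_succ_self n))

variable {G : Set (Co M (Xt M))} (hG : IsGen M G) (hC : CollL M)

include hC in
theorem inf_AD : ¬ FinP (Nx hG) (fun _ : El (AD hG) => True) := fun h =>
  inf_Dt (M := M) (fin_back hG hC (p := fun _ => True) (Int.const _)
    (h.mono fun _ _ => trivial))

include hC in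
theorem filt_AD : Filt (Nx hG) (El (AD hG)) := fun FF h1 h2 h3 => filt hG hC h1 h2 h3

end

section

attribute [local instance] Helper672.Plain.toL

variable {M : Type u} [LSet.Structure M] [hZ : Helper672.Plain.Zermelo M]

local instance instModelM : IsModel M := Helper672.Plain.isModel_toL

theorem amo_of {a : M} (h : IsAmorphous a) : Amo M (El a) where
  inf := not_finP (a := a) (fun z => mem_El) h.1
  split p hp := by
    have hp' : Int M (fun x => ¬ p x) := Helper672.ZFA.Int.not hp
    by_cases hb : IsFinite (code (M := M) (sep M p))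
    · left
      refine finP_of_finite hp (t := code (M := M) (sep M p)) (fun z => ?_) hb
      rw [mem_codeU]
      exact exists_congr fun x => and_congr_left fun _ => mem_sep hp
    · right
      refine finP_of_finite hp' (t := code (M := M) (sep M fun x => ¬ p x)) (fun z => ?_)
        (h.2 _ (fun z hz => ?_) hb _ fun z => ?_)
      · rw [mem_codeU]
        exact exists_congr fun x => and_congr_left fun _ => mem_sep hp'
      · obtain ⟨x, -, rfl⟩ := mem_codeU.1 hz
        exact x.2
      · refine mem_codeU.trans ?_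
        constructor
        · rintro ⟨x, hx, rfl⟩
          exact ⟨x.2, fun h1 => (mem_sep hp').1 hx ((mem_sep hp).1 (mem_code_iff.1 h1))⟩
        · rintro ⟨h1, h2⟩
          exact ⟨⟨z, h1⟩, (mem_sep hp').2 fun h3 => h2 (mem_codeU.2 ⟨⟨z, h1⟩, (mem_sep hp).2 h3,
            rfl⟩), rfl⟩

theorem iwo_of (h : WO M) (x : M) : ∃ lt : El x → El x → Prop, IWO M (El x) lt := by
  obtain ⟨r, hr⟩ := h x
  refine ⟨fun a b => App r a.1 b.1, ?_, fun a b => ?_, fun s hs => ?_⟩
  · exact Int.of_D₂ (S := fun v => Mem (op (v 0) (v 1)) r)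
      (D.memf (DF.op (DF.var _) (DF.var _)) (DF.const _)) fun _ _ => app_iff.symm
  · rcases hr.total a.1 b.1 a.2 b.2 with h1 | h1 | h1
    · exact Or.inl h1
    · exact Or.inr (Or.inl (Subtype.ext h1))
    · exact Or.inr (Or.inr h1)
  · obtain ⟨a, ha⟩ := hs
    obtain ⟨b, hb, h1⟩ := hr.least (code (M := M) s) (fun z hz => by
      obtain ⟨x, -, rfl⟩ := mem_codeU.1 hz
      exact x.2) ⟨code a, mem_code_iff.2 ha⟩
    obtain ⟨b, hb', rfl⟩ := mem_codeU.1 hb
    exact ⟨b, hb', fun c hc => h1 _ (mem_code_iff.2 hc)⟩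

theorem not_inshc_of {d : M} (h : ¬ FinP M (fun _ : El d => True)) (hF : Filt M (El d)) :
    ¬ INSHC M := by
  intro hI
  obtain ⟨x, t, hc, hs⟩ := hI d fun hfin =>
    h (finP_of_finite (Int.const _) (t := d) (fun z => by
      rw [mem_El]
      exact exists_congr fun x => (true_and _).symm.to_iff) hfin)
  obtain ⟨f, h1, h2, h3⟩ := hc.emb
  exact hs (scattered_of_filt hF hc.top hc.haus h1.1 h2 h3)

end

theorem exists_nas' (M : Type u) [L.Structure M] [IsModel M] [Countable M] (hC : CollL M)
    (hWO : ∀ x : M, ∃ lt : El x → El x → Prop, IWO M (El x) lt) :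
    ∃ (N : Type u) (_ : LSet.Structure N), ZF N ∧ NAS N ∧ ¬ INSHC N := by
  have p₀ : Co M (Xt M) := ⟨∅, fun i k d d' h => absurd h (by simp), IFin.empty⟩
  obtain ⟨G, hG⟩ := H635.exists_gen (M := M) p₀
  have hzf : ZF (Nx hG) := nn_zf hG hC
  refine ⟨Nx hG, inferInstance, hzf, fun a ha => ?_, ?_⟩
  · exact not_amo hG hC hWO a (amo_of ha)
  · exact not_inshc_of (inf_AD hG hC) (filt_AD hG hC)

section

attribute [local instance] toL

theorem exists_nas_c (M : Type u) [LSet.Structure M] [Countable M] (h : ZF M) (hW : WO M) :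
    ∃ (N : Type u) (_ : LSet.Structure N), ZF N ∧ NAS N ∧ ¬ INSHC N := by
  have hM : IsModel M := isModel_of_zermelo h.toZermelo
  exact exists_nas' M (coll_of_zf h) (iwo_of hW)

end

end Pool.Agent.H310.NA
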