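import Pool.Agent.H310R3.NA3

/-!
# Almost partitions: the finite determination of the symmetric sets
-/

set_option maxHeartbeats 1000000
set_option linter.all false
set_option synthInstance.maxSize 2000

namespace Pool.Agent.H310.NA

open FirstOrder FirstOrder.Language
open Pool.Agent.Helper672.ZFA
open Pool.Agent.Helper672.ZFA.H635 (IPerm)
open Pool.Agent.Helper672.ZFA.H310M (FS PGr fsu)
open Pool.Agent.H310

universe u

variable {M : Type u} [L.Structure M] [hM : IsModel M]

/-- The sets that contain `i`. -/
noncomputable def cyl (i : INat M) : Yt M := ⟨sep M fun a : Dt M => i ∈ a.1, i, idx_iff.2 (Or.inl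
  ⟨∅, IFin.empty, fun a ha => absurd (mem_sep (p := fun a : Dt M => i ∈ a.1) (by (repeat' (first | with_reducible exact IntF.id | with_reducible exact IntF.fst' | with_reducible exact IntF.snd' | with_reducible exact IntF.const _ | with_reducible exact Int.const _ | assumption | with_reducible apply Int.and | with_reducible apply Int.or | with_reducible apply Int.not | with_reducible apply Int.imp | with_reducible apply Int.iff | with_reducible apply Int.ne | with_reducible apply Int.eq | with_reducible apply Int.mem | with_reducible apply Int.subset | with_reducible apply Int.ltN | with_reducible apply Int.leN | with_reducible_and_instances apply Int.le | with_reducible_and_instances apply Int.lt | with_reducible apply Int.all | with_reducible apply Int.ex | with_reducible apply IntF.fst | with_reducible apply IntF.snd | with_reducible apply IntF.app | with_reducible apply IntF.inl | with_reducible apply IntF.inr | with_reducible_and_instances apply IntF.mul | with_reducible_and_instances apply IntF.inv | with_reducible_and_instances apply IntF.add | with_reducible_and_instances apply IntF.sub | with_reducible_and_instances apply IntF.neg | with_reducible_and_instances apply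 IntF.smul | with_reducible apply Int.fin | with_reducible apply IntF.sep | with_reducible apply IntF.lam | with_reducible apply IntF.insert | with_reducible apply IntF.singleton | with_reducible apply IntF.union | with_reducible apply IntF.iimage | with_reducible apply IntF.ite | with_reducible apply IntF.the | with_reducible apply IntF.irec | with_reducible apply IntF.succ | with_reducible apply IntF.val | with_reducible apply IntF.mk | (with_reducible refine Int.comp ?_ ?_; assumption) | (with_reducible refine Int.comp₂ ?_ ?_ ?_; assumption) | (with_reducible refine Int.comp₃ ?_ ?_ ?_ ?_; assumption) | (with_reducible refine Int.comp₄ ?_ ?_ ?_ ?_ ?_; assumption) | (with_reducible refine IntF.comp ?_ ?_; assumption) | (with_reducible refine IntF.comp₂ ?_ ?_ ?_; assumption) | (with_reducible refine IntF.comp₃ ?_ ?_ ?_ ?_; assumption) | with_reducible apply IntF.pair)))) ha⟩)⟩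

theorem mem_cyl {i : INat M} {a : Dt M} : a ∈ (cyl i).1 ↔ i ∈ a.1 :=
  mem_sep (p := fun a : Dt M => i ∈ a.1) (by (repeat' (first | with_reducible exact IntF.id | with_reducible exact IntF.fst' | with_reducible exact IntF.snd' | with_reducible exact IntF.const _ | with_reducible exact Int.const _ | assumption | with_reducible apply Int.and | with_reducible apply Int.or | with_reducible apply Int.not | with_reducible apply Int.imp | with_reducible apply Int.iff | with_reducible apply Int.ne | with_reducible apply Int.eq | with_reducible apply Int.mem | with_reducible apply Int.subset | with_reducible apply Int.ltN | with_reducible apply Int.leN | with_reducible_and_instances apply Int.le | with_reducible_and_instances apply Int.lt | with_reducible apply Int.all | with_reducible apply Int.ex | with_reducible apply IntF.fst | with_reducible apply IntF.snd | with_reducible apply IntF.app | with_reducible apply IntF.inl | with_reducible apply IntF.inr | with_reducible_and_instances apply IntF.mul | with_reducible_and_instances apply IntF.inv | with_reducible_and_instances apply IntF.add | with_reducible_and_instances apply IntF.sub | with_reducible_and_instances apply IntF.neg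 | with_reducible_and_instances apply IntF.smul | with_reducible apply Int.fin | with_reducible apply IntF.sep | with_reducible apply IntF.lam | with_reducible apply IntF.insert | with_reducible apply IntF.singleton | with_reducible apply IntF.union | with_reducible apply IntF.iimage | with_reducible apply IntF.ite | with_reducible apply IntF.the | with_reducible apply IntF.irec | with_reducible apply IntF.succ | with_reducible apply IntF.val | with_reducible apply IntF.mk | (with_reducible refine Int.comp ?_ ?_; assumption) | (with_reducible refine Int.comp₂ ?_ ?_ ?_; assumption) | (with_reducible refine Int.comp₃ ?_ ?_ ?_ ?_; assumption) | (with_reducible refine Int.comp₄ ?_ ?_ ?_ ?_ ?_; assumption) | (with_reducible refine IntF.comp ?_ ?_; assumption) | (with_reducible refine IntF.comp₂ ?_ ?_ ?_; assumption) | (with_reducible refine IntF.comp₃ ?_ ?_ ?_ ?_; assumption) | with_reducible apply IntF.pair)))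

theorem int_cyl : IntF M (fun i : INat M => cyl i) := by
  unfold cyl
  refine IntF.mk (IntF.sep ?_)
  (repeat' (first | with_reducible exact IntF.id | with_reducible exact IntF.fst' | with_reducible exact IntF.snd' | with_reducible exact IntF.const _ | with_reducible exact Int.const _ | assumption | with_reducible apply Int.and | with_reducible apply Int.or | with_reducible apply Int.not | with_reducible apply Int.imp | with_reducible apply Int.iff | with_reducible apply Int.ne | with_reducible apply Int.eq | with_reducible apply Int.mem | with_reducible apply Int.subset | with_reducible apply Int.ltN | with_reducible apply Int.leN | with_reducible_and_instances apply Int.le | with_reducible_and_instances apply Int.lt | with_reducible apply Int.all | with_reducible apply Int.ex | with_reducible apply IntF.fst | with_reducible apply IntF.snd | with_reducible apply IntF.app | with_reducible apply IntF.inl | with_reducible apply IntF.inr | with_reducible_and_instances apply IntF.mul | with_reducible_and_instances apply IntF.inv | with_reducible_and_instances apply IntF.add | with_reducible_and_instances apply IntF.sub | with_reducible_and_instances apply IntF.neg | with_reducible_and_instances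 apply IntF.smul | with_reducible apply Int.fin | with_reducible apply IntF.sep | with_reducible apply IntF.lam | with_reducible apply IntF.insert | with_reducible apply IntF.singleton | with_reducible apply IntF.union | with_reducible apply IntF.iimage | with_reducible apply IntF.ite | with_reducible apply IntF.the | with_reducible apply IntF.irec | with_reducible apply IntF.succ | with_reducible apply IntF.val | with_reducible apply IntF.mk | (with_reducible refine Int.comp ?_ ?_; assumption) | (with_reducible refine Int.comp₂ ?_ ?_ ?_; assumption) | (with_reducible refine Int.comp₃ ?_ ?_ ?_ ?_; assumption) | (with_reducible refine Int.comp₄ ?_ ?_ ?_ ?_ ?_; assumption) | (with_reducible refine IntF.comp ?_ ?_; assumption) | (with_reducible refine IntF.comp₂ ?_ ?_ ?_; assumption) | (with_reducible refine IntF.comp₃ ?_ ?_ ?_ ?_; assumption) | with_reducible apply IntF.pair))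

/-- The finite sets of indices that decide the coordinates up to `N`, and no others. -/
def Full (E : FS M (Xt M)) (N : INat M) : Prop :=
  Bd E N ∧ ∀ i, i ≤ N → Sum.inr (cyl i) ∈ E.1

theorem exists_Full (E₀ : FS M (Xt M)) : ∃ E N, (∀ x, x ∈ E₀.1 → x ∈ E.1) ∧ Full E N := by
  have hc := int_cyl (M := M)
  obtain ⟨N, -, hN⟩ := exists_Bd E₀ 0
  have hf : IntF M (fun i : INat M => (Sum.inr (cyl i) : Xt M)) := IntF.inr hc
  have hfin : IFin (iimage (fun i : INat M => (Sum.inr (cyl i) : Xt M)) (sep M fun i => i ≤ N)) :=
    ((finP_le N).fin (by (repeat' (first | with_reducible exact IntF.id | with_reducible exact IntF.fst' | with_reducible exact IntF.snd' | with_reducible exact IntF.const _ | with_reducible exact Int.const _ | assumption | with_reducible apply Int.and | with_reducible apply Int.or | with_reducible apply Int.not | with_reducible apply Int.imp | with_reducible apply Int.iff | with_reducible apply Int.ne | with_reducible apply Int.eq | with_reducible apply Int.mem | with_reducible apply Int.subset | with_reducible apply Int.ltN | with_reducible apply Int.leN | with_reducible_and_instances apply Int.le | with_reducible_and_instances apply Int.lt | with_reducible apply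 Int.all | with_reducible apply Int.ex | with_reducible apply IntF.fst | with_reducible apply IntF.snd | with_reducible apply IntF.app | with_reducible apply IntF.inl | with_reducible apply IntF.inr | with_reducible_and_instances apply IntF.mul | with_reducible_and_instances apply IntF.inv | with_reducible_and_instances apply IntF.add | with_reducible_and_instances apply IntF.sub | with_reducible_and_instances apply IntF.neg | with_reducible_and_instances apply IntF.smul | with_reducible apply Int.fin | with_reducible apply IntF.sep | with_reducible apply IntF.lam | with_reducible apply IntF.insert | with_reducible apply IntF.singleton | with_reducible apply IntF.union | with_reducible apply IntF.iimage | with_reducible apply IntF.ite | with_reducible apply IntF.the | with_reducible apply IntF.irec | with_reducible apply IntF.succ | with_reducible apply IntF.val | with_reducible apply IntF.mk | (with_reducible refine Int.comp ?_ ?_; assumption) | (with_reducible refine Int.comp₂ ?_ ?_ ?_; assumption) | (with_reducible refine Int.comp₃ ?_ ?_ ?_ ?_; assumption) | (with_reducible refine Int.comp₄ ?_ ?_ ?_ ?_ ?_; assumption) | (with_reducible refine IntF.comp ?_ ?_; assumption)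 | (with_reducible refine IntF.comp₂ ?_ ?_ ?_; assumption) | (with_reducible refine IntF.comp₃ ?_ ?_ ?_ ?_; assumption) | with_reducible apply IntF.pair)))).image hf
  refine ⟨fsu E₀ ⟨_, hfin⟩, N, fun x hx => mem_union.2 (Or.inl hx), fun B hB => ?_,
    fun i hi => mem_union.2 (Or.inr ((mem_iimage hf).2 ⟨i, (mem_sep (by (repeat' (first | with_reducible exact IntF.id | with_reducible exact IntF.fst' | with_reducible exact IntF.snd' | with_reducible exact IntF.const _ | with_reducible exact Int.const _ | assumption | with_reducible apply Int.and | with_reducible apply Int.or | with_reducible apply Int.not | with_reducible apply Int.imp | with_reducible apply Int.iff | with_reducible apply Int.ne | with_reducible apply Int.eq | with_reducible apply Int.mem | with_reducible apply Int.subset | with_reducible apply Int.ltN | with_reducible apply Int.leN | with_reducible_and_instances apply Int.le | with_reducible_and_instances apply Int.lt | with_reducible apply Int.all | with_reducible apply Int.ex | with_reducible apply IntF.fst | with_reducible apply IntF.snd | with_reducible apply IntF.app | with_reducible apply IntF.inl | with_reducible apply IntF.inr | with_reducible_and_instances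 apply IntF.mul | with_reducible_and_instances apply IntF.inv | with_reducible_and_instances apply IntF.add | with_reducible_and_instances apply IntF.sub | with_reducible_and_instances apply IntF.neg | with_reducible_and_instances apply IntF.smul | with_reducible apply Int.fin | with_reducible apply IntF.sep | with_reducible apply IntF.lam | with_reducible apply IntF.insert | with_reducible apply IntF.singleton | with_reducible apply IntF.union | with_reducible apply IntF.iimage | with_reducible apply IntF.ite | with_reducible apply IntF.the | with_reducible apply IntF.irec | with_reducible apply IntF.succ | with_reducible apply IntF.val | with_reducible apply IntF.mk | (with_reducible refine Int.comp ?_ ?_; assumption) | (with_reducible refine Int.comp₂ ?_ ?_ ?_; assumption) | (with_reducible refine Int.comp₃ ?_ ?_ ?_ ?_; assumption) | (with_reducible refine Int.comp₄ ?_ ?_ ?_ ?_ ?_; assumption) | (with_reducible refine IntF.comp ?_ ?_; assumption) | (with_reducible refine IntF.comp₂ ?_ ?_ ?_; assumption) | (with_reducible refine IntF.comp₃ ?_ ?_ ?_ ?_; assumption) | with_reducible apply IntF.pair)))).2 hi, rfl⟩))⟩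
  rcases mem_union.1 hB with hB | hB
  · exact hN B hB
  · obtain ⟨i, hi, h1⟩ := (mem_iimage hf).1 hB
    cases h1
    refine ⟨i, (mem_sep (p := fun i => i ≤ N) (by (repeat' (first | with_reducible exact IntF.id | with_reducible exact IntF.fst' | with_reducible exact IntF.snd' | with_reducible exact IntF.const _ | with_reducible exact Int.const _ | assumption | with_reducible apply Int.and | with_reducible apply Int.or | with_reducible apply Int.not | with_reducible apply Int.imp | with_reducible apply Int.iff | with_reducible apply Int.ne | with_reducible apply Int.eq | with_reducible apply Int.mem | with_reducible apply Int.subset | with_reducible apply Int.ltN | with_reducible apply Int.leN | with_reducible_and_instances apply Int.le | with_reducible_and_instances apply Int.lt | with_reducible apply Int.all | with_reducible apply Int.ex | with_reducible apply IntF.fst | with_reducible apply IntF.snd | with_reducible apply IntF.app | with_reducible apply IntF.inl | with_reducible apply IntF.inr | with_reducible_and_instances apply IntF.mul | with_reducible_and_instances apply IntF.inv | with_reducible_and_instances apply IntF.add | with_reducible_and_instances apply IntF.sub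 | with_reducible_and_instances apply IntF.neg | with_reducible_and_instances apply IntF.smul | with_reducible apply Int.fin | with_reducible apply IntF.sep | with_reducible apply IntF.lam | with_reducible apply IntF.insert | with_reducible apply IntF.singleton | with_reducible apply IntF.union | with_reducible apply IntF.iimage | with_reducible apply IntF.ite | with_reducible apply IntF.the | with_reducible apply IntF.irec | with_reducible apply IntF.succ | with_reducible apply IntF.val | with_reducible apply IntF.mk | (with_reducible refine Int.comp ?_ ?_; assumption) | (with_reducible refine Int.comp₂ ?_ ?_ ?_; assumption) | (with_reducible refine Int.comp₃ ?_ ?_ ?_ ?_; assumption) | (with_reducible refine Int.comp₄ ?_ ?_ ?_ ?_ ?_; assumption) | (with_reducible refine IntF.comp ?_ ?_; assumption) | (with_reducible refine IntF.comp₂ ?_ ?_ ?_; assumption) | (with_reducible refine IntF.comp₃ ?_ ?_ ?_ ?_; assumption) | with_reducible apply IntF.pair)))).1 hi, idx_iff.2 (Or.inl ⟨∅, IFin.empty, fun a ha => ?_⟩)⟩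
    exact absurd mem_cyl ha

theorem Full.agree {E : FS M (Xt M)} {N : INat M} (h : Full E N) {a b : Dt M} (hr : rE E a b)
    {i : INat M} (hi : i ≤ N) : i ∈ a.1 ↔ i ∈ b.1 := by
  have := rE_part hr (h.2 i hi)
  rwa [mem_cyl, mem_cyl] at this

/-- Symmetric sets are determined by finitely many coordinates, up to finitely many points. -/
theorem Bd.det {E : FS M (Xt M)} {N : INat M} (hE : Bd E N) : ∃ Ex : Dt M → Prop, Int M Ex ∧
    FinP M Ex ∧ ∀ a b, ¬ Ex a → ¬ Ex b → (∀ i, i ≤ N → (i ∈ a.1 ↔ i ∈ b.1)) → rE E a b := by
  have hR : Int M (fun q : Xt M × FS M (Dt M) => ∀ B : Yt M, q.1 = Sum.inr B → ∀ a b : Dt M,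
      ¬ a ∈ q.2.1 → ¬ b ∈ q.2.1 → (∀ i, i ≤ N → (i ∈ a.1 ↔ i ∈ b.1)) → (a ∈ B.1 ↔ b ∈ B.1)) := by
    (repeat' (first | with_reducible exact IntF.id | with_reducible exact IntF.fst' | with_reducible exact IntF.snd' | with_reducible exact IntF.const _ | with_reducible exact Int.const _ | assumption | with_reducible apply Int.and | with_reducible apply Int.or | with_reducible apply Int.not | with_reducible apply Int.imp | with_reducible apply Int.iff | with_reducible apply Int.ne | with_reducible apply Int.eq | with_reducible apply Int.mem | with_reducible apply Int.subset | with_reducible apply Int.ltN | with_reducible apply Int.leN | with_reducible_and_instances apply Int.le | with_reducible_and_instances apply Int.lt | with_reducible apply Int.all | with_reducible apply Int.ex | with_reducible apply IntF.fst | with_reducible apply IntF.snd | with_reducible apply IntF.app | with_reducible apply IntF.inl | with_reducible apply IntF.inr | with_reducible_and_instances apply IntF.mul | with_reducible_and_instances apply IntF.inv | with_reducible_and_instances apply IntF.add | with_reducible_and_instances apply IntF.sub | with_reducible_and_instances apply IntF.neg | with_reducible_and_instances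 apply IntF.smul | with_reducible apply Int.fin | with_reducible apply IntF.sep | with_reducible apply IntF.lam | with_reducible apply IntF.insert | with_reducible apply IntF.singleton | with_reducible apply IntF.union | with_reducible apply IntF.iimage | with_reducible apply IntF.ite | with_reducible apply IntF.the | with_reducible apply IntF.irec | with_reducible apply IntF.succ | with_reducible apply IntF.val | with_reducible apply IntF.mk | (with_reducible refine Int.comp ?_ ?_; assumption) | (with_reducible refine Int.comp₂ ?_ ?_ ?_; assumption) | (with_reducible refine Int.comp₃ ?_ ?_ ?_ ?_; assumption) | (with_reducible refine Int.comp₄ ?_ ?_ ?_ ?_ ?_; assumption) | (with_reducible refine IntF.comp ?_ ?_; assumption) | (with_reducible refine IntF.comp₂ ?_ ?_ ?_; assumption) | (with_reducible refine IntF.comp₃ ?_ ?_ ?_ ?_; assumption) | with_reducible apply IntF.pair))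
  obtain ⟨t, ht⟩ := IFin.exists_bound (r := fun (x : Xt M) (t : FS M (Dt M)) => ∀ B : Yt M,
    x = Sum.inr B → ∀ a b : Dt M, ¬ a ∈ t.1 → ¬ b ∈ t.1 → (∀ i, i ≤ N → (i ∈ a.1 ↔ i ∈ b.1)) →
      (a ∈ B.1 ↔ b ∈ B.1)) hR (fun t t' => ⟨fsu t t', fun x h B hB a b ha hb hab => by
      rcases h with h | h
      · exact h B hB a b (fun h' => ha (mem_union.2 (Or.inl h')))
          (fun h' => hb (mem_union.2 (Or.inl h'))) hab
      · exact h B hB a b (fun h' => ha (mem_union.2 (Or.inr h')))
          (fun h' => hb (mem_union.2 (Or.inr h'))) hab⟩) ⟨⟨∅, IFin.empty⟩⟩ E.2 fun x hx => by
    rcases x with a | B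
    · exact ⟨⟨∅, IFin.empty⟩, fun B hB => by cases hB⟩
    · obtain ⟨i, hi, hB⟩ := hE B hx
      have hi1 : Int M (fun a : Dt M => (a ∈ B.1 ↔ i ∈ a.1)) :=
        Int.iff (Int.mem IntF.id (IntF.const _)) (Int.mem (IntF.const _) (IntF.val IntF.id))
      rcases idx_iff.1 hB with h | h
      · have h' := h.fin (Helper672.ZFA.Int.not hi1)
        refine ⟨⟨_, h'⟩, fun B' hB' a b ha hb hab => ?_⟩
        cases hB'
        have e1 := fun h2 => ha ((mem_sep (Helper672.ZFA.Int.not hi1)).2 h2)
        have e2 := fun h2 => hb ((mem_sep (Helper672.ZFA.Int.not hi1)).2 h2)
        have e3 := hab i hi
        tauto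
      · have h' := h.fin hi1
        refine ⟨⟨_, h'⟩, fun B' hB' a b ha hb hab => ?_⟩
        cases hB'
        have e1 := fun h2 => ha ((mem_sep hi1).2 h2)
        have e2 := fun h2 => hb ((mem_sep hi1).2 h2)
        have e3 := hab i hi
        tauto
  have ht1 : Int M (fun a : Dt M => a ∈ t.1 ∨ (Sum.inl a : Xt M) ∈ E.1) :=
    Int.or (Int.mem IntF.id (IntF.const _)) (Int.mem (IntF.inl IntF.id) (IntF.const _))
  refine ⟨_, ht1, FinP.or ⟨t.1, t.2, fun _ h => h⟩ (finP_inl E), fun a b ha hb hab => ?_⟩
  push Not at ha hb
  exact Or.inr ⟨ha.2, hb.2, fun B hB => ht _ hB B rfl a b ha.1 hb.1 hab⟩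

/-- The sets between two bounds. -/
def Cs (N N' : INat M) (c : Dt M) : Prop := ∀ j, j ∈ c.1 → N < j ∧ j ≤ N'

theorem int_Cs (N N' : INat M) : Int M (fun c : Dt M => Cs N N' c) := by
  unfold Cs
  (repeat' (first | with_reducible exact IntF.id | with_reducible exact IntF.fst' | with_reducible exact IntF.snd' | with_reducible exact IntF.const _ | with_reducible exact Int.const _ | assumption | with_reducible apply Int.and | with_reducible apply Int.or | with_reducible apply Int.not | with_reducible apply Int.imp | with_reducible apply Int.iff | with_reducible apply Int.ne | with_reducible apply Int.eq | with_reducible apply Int.mem | with_reducible apply Int.subset | with_reducible apply Int.ltN | with_reducible apply Int.leN | with_reducible_and_instances apply Int.le | with_reducible_and_instances apply Int.lt | with_reducible apply Int.all | with_reducible apply Int.ex | with_reducible apply IntF.fst | with_reducible apply IntF.snd | with_reducible apply IntF.app | with_reducible apply IntF.inl | with_reducible apply IntF.inr | with_reducible_and_instances apply IntF.mul | with_reducible_and_instances apply IntF.inv | with_reducible_and_instances apply IntF.add | with_reducible_and_instances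 apply IntF.sub | with_reducible_and_instances apply IntF.neg | with_reducible_and_instances apply IntF.smul | with_reducible apply Int.fin | with_reducible apply IntF.sep | with_reducible apply IntF.lam | with_reducible apply IntF.insert | with_reducible apply IntF.singleton | with_reducible apply IntF.union | with_reducible apply IntF.iimage | with_reducible apply IntF.ite | with_reducible apply IntF.the | with_reducible apply IntF.irec | with_reducible apply IntF.succ | with_reducible apply IntF.val | with_reducible apply IntF.mk | (with_reducible refine Int.comp ?_ ?_; assumption) | (with_reducible refine Int.comp₂ ?_ ?_ ?_; assumption) | (with_reducible refine Int.comp₃ ?_ ?_ ?_ ?_; assumption) | (with_reducible refine Int.comp₄ ?_ ?_ ?_ ?_ ?_; assumption) | (with_reducible refine IntF.comp ?_ ?_; assumption) | (with_reducible refine IntF.comp₂ ?_ ?_ ?_; assumption) | (with_reducible refine IntF.comp₃ ?_ ?_ ?_ ?_; assumption) | with_reducible apply IntF.pair))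

theorem finP_Cs (N N' : INat M) : FinP M (fun c : Dt M => Cs N N' c) := by
  refine FinP.of_inj (int_Cs N N') (f := fun c : Dt M => c.1) (IntF.val IntF.id)
    (fun _ _ _ _ h => Subtype.ext h) (q := fun s : IPow M (INat M) =>
      s ∈ ipow (sep M fun j : INat M => j ≤ N')) ⟨_, ((finP_le N').fin (by (repeat' (first | with_reducible exact IntF.id | with_reducible exact IntF.fst' | with_reducible exact IntF.snd' | with_reducible exact IntF.const _ | with_reducible exact Int.const _ | assumption | with_reducible apply Int.and | with_reducible apply Int.or | with_reducible apply Int.not | with_reducible apply Int.imp | with_reducible apply Int.iff | with_reducible apply Int.ne | with_reducible apply Int.eq | with_reducible apply Int.mem | with_reducible apply Int.subset | with_reducible apply Int.ltN | with_reducible apply Int.leN | with_reducible_and_instances apply Int.le | with_reducible_and_instances apply Int.lt | with_reducible apply Int.all | with_reducible apply Int.ex | with_reducible apply IntF.fst | with_reducible apply IntF.snd | with_reducible apply IntF.app | with_reducible apply IntF.inl | with_reducible apply IntF.inr | with_reducible_and_instances apply IntF.mul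 | with_reducible_and_instances apply IntF.inv | with_reducible_and_instances apply IntF.add | with_reducible_and_instances apply IntF.sub | with_reducible_and_instances apply IntF.neg | with_reducible_and_instances apply IntF.smul | with_reducible apply Int.fin | with_reducible apply IntF.sep | with_reducible apply IntF.lam | with_reducible apply IntF.insert | with_reducible apply IntF.singleton | with_reducible apply IntF.union | with_reducible apply IntF.iimage | with_reducible apply IntF.ite | with_reducible apply IntF.the | with_reducible apply IntF.irec | with_reducible apply IntF.succ | with_reducible apply IntF.val | with_reducible apply IntF.mk | (with_reducible refine Int.comp ?_ ?_; assumption) | (with_reducible refine Int.comp₂ ?_ ?_ ?_; assumption) | (with_reducible refine Int.comp₃ ?_ ?_ ?_ ?_; assumption) | (with_reducible refine Int.comp₄ ?_ ?_ ?_ ?_ ?_; assumption) | (with_reducible refine IntF.comp ?_ ?_; assumption) | (with_reducible refine IntF.comp₂ ?_ ?_ ?_; assumption) | (with_reducible refine IntF.comp₃ ?_ ?_ ?_ ?_; assumption) | with_reducible apply IntF.pair)))).pow,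
      fun _ h => h⟩ fun c hc => mem_ipow.2 fun j hj => (mem_sep (by (repeat' (first | with_reducible exact IntF.id | with_reducible exact IntF.fst' | with_reducible exact IntF.snd' | with_reducible exact IntF.const _ | with_reducible exact Int.const _ | assumption | with_reducible apply Int.and | with_reducible apply Int.or | with_reducible apply Int.not | with_reducible apply Int.imp | with_reducible apply Int.iff | with_reducible apply Int.ne | with_reducible apply Int.eq | with_reducible apply Int.mem | with_reducible apply Int.subset | with_reducible apply Int.ltN | with_reducible apply Int.leN | with_reducible_and_instances apply Int.le | with_reducible_and_instances apply Int.lt | with_reducible apply Int.all | with_reducible apply Int.ex | with_reducible apply IntF.fst | with_reducible apply IntF.snd | with_reducible apply IntF.app | with_reducible apply IntF.inl | with_reducible apply IntF.inr | with_reducible_and_instances apply IntF.mul | with_reducible_and_instances apply IntF.inv | with_reducible_and_instances apply IntF.add | with_reducible_and_instances apply IntF.sub | with_reducible_and_instances apply IntF.neg | with_reducible_and_instances apply IntF.smul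 | with_reducible apply Int.fin | with_reducible apply IntF.sep | with_reducible apply IntF.lam | with_reducible apply IntF.insert | with_reducible apply IntF.singleton | with_reducible apply IntF.union | with_reducible apply IntF.iimage | with_reducible apply IntF.ite | with_reducible apply IntF.the | with_reducible apply IntF.irec | with_reducible apply IntF.succ | with_reducible apply IntF.val | with_reducible apply IntF.mk | (with_reducible refine Int.comp ?_ ?_; assumption) | (with_reducible refine Int.comp₂ ?_ ?_ ?_; assumption) | (with_reducible refine Int.comp₃ ?_ ?_ ?_ ?_; assumption) | (with_reducible refine Int.comp₄ ?_ ?_ ?_ ?_ ?_; assumption) | (with_reducible refine IntF.comp ?_ ?_; assumption) | (with_reducible refine IntF.comp₂ ?_ ?_ ?_; assumption) | (with_reducible refine IntF.comp₃ ?_ ?_ ?_ ?_; assumption) | with_reducible apply IntF.pair)))).2 (hc j hj).2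

open Classical in
/-- The translation inside the classes. -/
noncomputable def tl (E : FS M (Xt M)) (c a : Dt M) : Dt M :=
  if rE E a (xr a c) then xr a c else a

theorem int_tl (E : FS M (Xt M)) : IntF M (fun q : Dt M × Dt M => tl E q.1 q.2) := by
  classical
  have hx : IntF M (fun q : Dt M × Dt M => xr q.2 q.1) :=
    IntF.comp₂ (p := fun a b : Dt M => xr a b) int_xr IntF.snd' IntF.fst'
  have hr : Int M (fun q : Dt M × Dt M => rE E q.2 (xr q.2 q.1)) :=
    Int.comp₃ (p := fun (E : FS M (Xt M)) (a b : Dt M) => rE E a b) int_rE (IntF.const E)
      IntF.snd' hx
  exact IntF.ite hr hx IntF.snd'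

theorem tl_of {E : FS M (Xt M)} {c a : Dt M} (h : rE E a (xr a c)) : tl E c a = xr a c := if_pos h

theorem tl_tl (E : FS M (Xt M)) (c a : Dt M) : tl E c (tl E c a) = a := by
  unfold tl
  by_cases h1 : rE E a (xr a c)
  · rw [if_pos h1, xr_xr, if_pos (rE_symm h1)]
  · rw [if_neg h1, if_neg h1]

theorem xr_empty (a : Dt M) : xr a ⟨∅, IFin.empty⟩ = a := dt_ext fun i => by
  rw [mem_xr]
  simp

theorem tl_empty (E : FS M (Xt M)) (a : Dt M) : tl E ⟨∅, IFin.empty⟩ a = a := by
  unfold tl
  rw [xr_empty, if_pos (rE_refl _ _)]

/-- The intersection of the translates is almost a union of classes. -/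
theorem big_step {E E' : FS M (Xt M)} {N N' : INat M} (hE : Full E N) (hE' : Bd E' N')
    {S : Dt M → Prop} (hS : ∀ a b, rE E' a b → S a → S b) : ∃ Fx : Dt M → Prop,
    Int M Fx ∧ FinP M Fx ∧ ∀ a b, ¬ Fx a → ¬ Fx b → rE E a b →
      (∀ c, Cs N N' c → S (tl E c a)) → ∀ c, Cs N N' c → S (tl E c b) := by
  obtain ⟨Ex, hEx, hExf, hdet⟩ := hE'.det
  have hx : IntF M (fun q : Dt M × Dt M => xr q.2 q.1) :=
    IntF.comp₂ (p := fun a b : Dt M => xr a b) int_xr IntF.snd' IntF.fst'
  have hr : Int M (fun q : Dt M × Dt M => rE E q.2 (xr q.2 q.1)) :=
    Int.comp₃ (p := fun (E : FS M (Xt M)) (a b : Dt M) => rE E a b) int_rE (IntF.const E)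
      IntF.snd' hx
  have hRi : Int M (fun q : Dt M × Dt M => ¬ rE E q.2 (xr q.2 q.1) ∨ Ex (xr q.2 q.1)) :=
    Int.or (Helper672.ZFA.Int.not hr) (hEx.comp hx)
  have hxc : ∀ c, IntF M (fun a : Dt M => xr a c) := fun c =>
    IntF.comp₂ (p := fun a b : Dt M => xr a b) int_xr IntF.id (IntF.const c)
  have hC := int_Cs N N'
  refine ⟨fun a => ∃ c, Cs N N' c ∧ (¬ rE E a (xr a c) ∨ Ex (xr a c)), ?_,
    FinP.bUnion (R := fun q : Dt M × Dt M => ¬ rE E q.2 (xr q.2 q.1) ∨ Ex (xr q.2 q.1))
      (finP_Cs N N') hC hRi fun c hc => ?_, fun a b ha hb hab h c hc => ?_⟩
  · refine Int.ex (Int.and (hC.comp IntF.snd') ?_)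
    exact Int.comp₂ (p := fun (c a : Dt M) => ¬ rE E a (xr a c) ∨ Ex (xr a c)) hRi IntF.snd'
      IntF.fst'
  · refine (hE.1.trans fun j hj => (hc j hj).1).or ?_
    exact FinP.of_inj (p := fun a => Ex (xr a c)) (hEx.comp (hxc c)) (f := fun a => xr a c) (hxc c)
      (fun _ _ _ _ h => xr_inj h) hExf fun _ h => h
  · push Not at ha hb
    obtain ⟨h1, h2⟩ := hb c hc
    rw [tl_of h1]
    have hP : Int M (fun j : INat M => (N < j ∧ j ≤ N') ∧ ¬ (j ∈ a.1 ↔ j ∈ (xr b c).1)) := by
      (repeat' (first | with_reducible exact IntF.id | with_reducible exact IntF.fst' | with_reducible exact IntF.snd' | with_reducible exact IntF.const _ | with_reducible exact Int.const _ | assumption | with_reducible apply Int.and | with_reducible apply Int.or | with_reducible apply Int.not | with_reducible apply Int.imp | with_reducible apply Int.iff | with_reducible apply Int.ne | with_reducible apply Int.eq | with_reducible apply Int.mem | with_reducible apply Int.subset | with_reducible apply Int.ltN | with_reducible apply Int.leN | with_reducible_and_instances apply Int.le | with_reducible_and_instances apply Int.lt | with_reducible apply Int.all | with_reducible apply Int.ex | with_reducible apply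 IntF.fst | with_reducible apply IntF.snd | with_reducible apply IntF.app | with_reducible apply IntF.inl | with_reducible apply IntF.inr | with_reducible_and_instances apply IntF.mul | with_reducible_and_instances apply IntF.inv | with_reducible_and_instances apply IntF.add | with_reducible_and_instances apply IntF.sub | with_reducible_and_instances apply IntF.neg | with_reducible_and_instances apply IntF.smul | with_reducible apply Int.fin | with_reducible apply IntF.sep | with_reducible apply IntF.lam | with_reducible apply IntF.insert | with_reducible apply IntF.singleton | with_reducible apply IntF.union | with_reducible apply IntF.iimage | with_reducible apply IntF.ite | with_reducible apply IntF.the | with_reducible apply IntF.irec | with_reducible apply IntF.succ | with_reducible apply IntF.val | with_reducible apply IntF.mk | (with_reducible refine Int.comp ?_ ?_; assumption) | (with_reducible refine Int.comp₂ ?_ ?_ ?_; assumption) | (with_reducible refine Int.comp₃ ?_ ?_ ?_ ?_; assumption) | (with_reducible refine Int.comp₄ ?_ ?_ ?_ ?_ ?_; assumption) | (with_reducible refine IntF.comp ?_ ?_; assumption) | (with_reducible refine IntF.comp₂ ?_ ?_ ?_; assumption) | (with_reducible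 refine IntF.comp₃ ?_ ?_ ?_ ?_; assumption) | with_reducible apply IntF.pair))
    have hcf : IFin (sep M fun j : INat M => (N < j ∧ j ≤ N') ∧ ¬ (j ∈ a.1 ↔ j ∈ (xr b c).1)) :=
      FinP.fin ((finP_le N').mono fun j hj => hj.1.2) hP
    have hc' : Cs N N' ⟨_, hcf⟩ := fun j hj => ((mem_sep hP).1 hj).1
    obtain ⟨h3, h4⟩ := ha _ hc'
    have h5 := h _ hc'
    rw [tl_of h3] at h5
    refine hS _ _ (hdet _ _ h4 h2 fun i hi => ?_) h5
    rw [mem_xr, mem_sep hP]
    rcases le_or_gt i N with h6 | h6
    · have h7 := hE.agree hab h6
      have h8 : ¬ i ∈ c.1 := fun h => absurd (hc i h).1 (not_lt.2 h6)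
      have h9 : ¬ N < i := not_lt.2 h6
      rw [mem_xr]
      tauto
    · tauto

end Pool.Agent.H310.NA
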