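import Pool.Agent.H310R3.NA5

/-!
# Almost partitions: the sorts are good
-/

set_option maxHeartbeats 1000000
set_option linter.all false
set_option synthInstance.maxSize 2000

namespace Pool.Agent.H310.NA

open FirstOrder FirstOrder.Language
open Pool.Agent.Helper672.ZFA
open Pool.Agent.Helper672.ZFA.H635 (IPerm IsGen NN EqFam CollL nn_ext exists_mk mk_eq_nd)
open Pool.Agent.Helper672.ZFA.H310M
open Pool.Agent.H310

universe u

variable {M : Type u} [L.Structure M] [hM : IsModel M]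

/-- Both halves of an infinite invariant set are infinite. -/
theorem half {E : FS M (Xt M)} {N : INat M} (hE : Bd E N) {K : Dt M → Prop} (hK : Int M K)
    (hinv : ∀ a b, rE E a b → K a → K b) (v : Prop)
    (h : FinP M (fun a => K a ∧ (N.succ ∈ a.1 ↔ v))) : FinP M K := by
  have hc : ∀ j, j ∈ ({N.succ} : IPow M (INat M)) → N < j := fun j hj => by
    rw [mem_singleton.1 hj]
    exact INat.lt_succ_self N
  have h1 := hE.trans (c := ⟨{N.succ}, IFin.singleton _⟩) hc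
  have hxc : IntF M (fun a : Dt M => xr a ⟨{N.succ}, IFin.singleton _⟩) :=
    IntF.comp₂ (p := fun a b : Dt M => xr a b) int_xr IntF.id (IntF.const _)
  have hKv : Int M (fun a : Dt M => K a ∧ (N.succ ∈ a.1 ↔ v)) :=
    Int.and hK (Int.iff (Int.mem (IntF.const _) (IntF.val IntF.id)) (Int.const v))
  have h2 : FinP M (fun a => K (xr a ⟨{N.succ}, IFin.singleton _⟩) ∧
      (N.succ ∈ (xr a ⟨{N.succ}, IFin.singleton _⟩).1 ↔ v)) :=
    FinP.of_inj (hKv.comp hxc) (f := fun a => xr a ⟨{N.succ}, IFin.singleton _⟩) hxc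
      (fun _ _ _ _ h => xr_inj h) h fun _ h => h
  refine ((h1.or h2).or h).mono fun a ha => ?_
  by_cases h3 : rE E a (xr a ⟨{N.succ}, IFin.singleton _⟩)
  · by_cases h4 : (N.succ ∈ a.1 ↔ v)
    · exact Or.inr ⟨ha, h4⟩
    · refine Or.inl (Or.inr ⟨hinv _ _ h3 ha, ?_⟩)
      have h5 : N.succ ∈ (⟨{N.succ}, IFin.singleton _⟩ : Dt M).1 := mem_singleton.2 rfl
      rw [mem_xr]
      tauto
  · exact Or.inl (Or.inl h3)

variable {G : Set (Co M (Xt M))} (hG : IsGen M G) (hC : CollL M)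

include hC in
theorem hom2 : Hom2 (Nx hG) (El (AD hG)) where
  hom R hR := by
    obtain ⟨z, hz⟩ := hR
    obtain ⟨E, hE⟩ := support hG z
    obtain ⟨r, hr, hr'⟩ := exists_r hG E
    obtain ⟨T, hT, hTf, hTr⟩ := exists_T E
    obtain ⟨t, ht, htT⟩ := finN hG hC hT hTf
    refine ⟨r, hr, fun x => ?_, fun x y => ?_, fun x y w => ?_, ⟨t, ht, fun x => ?_⟩, ?_⟩
    · obtain ⟨a, rfl⟩ := dA_surj hG x
      exact (hr' _ _).2 (rE_refl _ _)
    · obtain ⟨a, rfl⟩ := dA_surj hG x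
      obtain ⟨b, rfl⟩ := dA_surj hG y
      rw [hr', hr']
      exact rE_symm
    · obtain ⟨a, rfl⟩ := dA_surj hG x
      obtain ⟨b, rfl⟩ := dA_surj hG y
      obtain ⟨c, rfl⟩ := dA_surj hG w
      rw [hr', hr', hr']
      exact rE_trans
    · obtain ⟨a, rfl⟩ := dA_surj hG x
      obtain ⟨b, h1, h2⟩ := hTr a
      exact ⟨dA hG b, htT _ ⟨b, rfl, h1⟩, (hr' _ _).2 h2⟩
    · intro x y y' n hxy hxy' hyy hR
      obtain ⟨a, rfl⟩ := dA_surj hG x
      obtain ⟨b, rfl⟩ := dA_surj hG y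
      obtain ⟨b', rfl⟩ := dA_surj hG y'
      obtain ⟨k, rfl⟩ := nnN_surj hG hC n
      obtain ⟨g, hg, hgE, hgb, hga⟩ := exists_tr ((hr' _ _).1 hyy)
      have h1 : Mem (op (op (cc (ZZ M) hG (Sum.inl a)) (cc (ZZ M) hG (Sum.inl b)))
          (nn (ZZ M) hG k)) z := (hz ((dA hG a, dA hG b), nnN (ZZ M) hG hC k)).2 hR
      have h2 : Mem (op (op (cc (ZZ M) hG (g.1.1 (Sum.inl a))) (cc (ZZ M) hG
          (g.1.1 (Sum.inl b)))) (nn (ZZ M) hG k)) z :=
        hE _ _ _ _ (ef2n hG) g hg hgE ((Sum.inl a, Sum.inl b), k) h1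
      rw [hgb, hga a (fun h => hxy (h ▸ rfl)) (fun h => hxy' (h ▸ rfl))] at h2
      exact (hz ((dA hG a, dA hG b'), nnN (ZZ M) hG hC k)).1 h2
  split p hp hpi := by
    obtain ⟨z, hz⟩ := hp
    obtain ⟨E₀, hE₀⟩ := support hG z
    obtain ⟨E, N, hEE, hEF⟩ := exists_Full E₀
    have hpI : Int (Nx hG) p := ⟨z, hz⟩
    have hinv : ∀ a b, rE E a b → p (dA hG a) → p (dA hG b) := by
      intro a b hab h
      obtain ⟨g, hg, hgE, hgb, -⟩ := exists_tr (rE_mono hEE hab)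
      have h1 : Mem (cc (ZZ M) hG (Sum.inl a)) z := (hz (dA hG a)).2 h
      have h2 : Mem (cc (ZZ M) hG (g.1.1 (Sum.inl a))) z :=
        hE₀ _ _ _ _ (ef_cc hG) g hg hgE (Sum.inl a) h1
      rw [hgb] at h2
      exact (hz (dA hG b)).1 h2
    obtain ⟨r, hr, hr'⟩ := exists_r hG E
    obtain ⟨T, hT, hTf, hTr⟩ := exists_T E
    obtain ⟨t, ht, htT⟩ := finN hG hC hT hTf
    obtain ⟨y, -, hy⟩ := exists_class ht hr (fun x => by
      obtain ⟨a, rfl⟩ := dA_surj hG x
      obtain ⟨b, h1, h2⟩ := hTr a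
      exact ⟨dA hG b, htT _ ⟨b, rfl, h1⟩, (hr' _ _).2 h2⟩) hpI hpi
    obtain ⟨P, rfl⟩ := dA_surj hG y
    obtain ⟨x₀, hx₀⟩ : ∃ x, p x ∧ r (x, dA hG P) := by
      by_contra hc
      exact hy ⟨∅, IFin.empty, fun x hx => absurd ⟨x, hx⟩ hc⟩
    obtain ⟨a₀, rfl⟩ := dA_surj hG x₀
    have hK : Int M (fun a : Dt M => rE E a P) :=
      Int.comp₃ (p := fun (E : FS M (Xt M)) (a b : Dt M) => rE E a b) int_rE (IntF.const E)
        IntF.id (IntF.const P)
    have hKinv : ∀ a b, rE E a b → rE E a P → rE E b P := fun a b h h' =>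
      rE_trans (rE_symm h) h'
    have hKi : ¬ FinP M (fun a : Dt M => rE E a P) := by
      intro h
      refine hy ((finN hG hC hK h).mono ?_)
      rintro x ⟨-, h1⟩
      obtain ⟨a, rfl⟩ := dA_surj hG x
      exact ⟨a, rfl, (hr' _ _).1 h1⟩
    have hpK : ∀ a, rE E a P → p (dA hG a) := fun a ha =>
      hinv a₀ a (rE_trans ((hr' _ _).1 hx₀.2) (rE_symm ha)) hx₀.1
    obtain ⟨mem, hmem, hmem'⟩ := exists_mem hG
    have key : ∀ v : Prop, ¬ FinP (Nx hG) (fun x => p x ∧ (mem (x, yA hG (cyl N.succ)) ↔ v)) := by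
      intro v hf
      refine hKi (half hEF.1 hK hKinv v (fin_back hG hC ?_ (hf.mono ?_)))
      · exact Int.and hK (Int.iff (Int.mem (IntF.const _) (IntF.val IntF.id)) (Int.const v))
      · rintro x ⟨a, rfl, h1, h2⟩
        refine ⟨hpK a h1, ?_⟩
        rw [hmem', mem_cyl]
        exact h2
    refine ⟨fun x => mem (x, yA hG (cyl N.succ)), hmem.comp (IntF.pair IntF.id (IntF.const _)),
      fun h => key True (h.mono fun x hx => ⟨hx.1, hx.2.2 trivial⟩),
      fun h => key False (h.mono fun x hx => ⟨hx.1, hx.2.1⟩)⟩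

include hC in
theorem exists_cls : ∃ mem idx', Cls (Nx hG) (α := El (AD hG)) (β := El (AY hG)) mem idx' := by
  obtain ⟨mem, hmem, hmem'⟩ := exists_mem hG
  obtain ⟨idx', hidx, hidx'⟩ := exists_idx hG hC
  refine ⟨mem, idx', hmem, hidx, fun b => ?_, fun b b' i h h' => ?_, fun b b' h => ?_⟩
  · obtain ⟨B, rfl⟩ := yA_surj hG b
    obtain ⟨i, hi⟩ := B.2
    exact ⟨nnN (ZZ M) hG hC i, (hidx' _ _).2 hi⟩
  · obtain ⟨B, rfl⟩ := yA_surj hG b
    obtain ⟨B', rfl⟩ := yA_surj hG b'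
    obtain ⟨n, rfl⟩ := nnN_surj hG hC i
    rw [hidx'] at h h'
    have hI : Int M (fun a : Dt M => (a ∈ B.1 ↔ a ∈ B'.1)) :=
      Int.iff (Int.mem IntF.id (IntF.const _)) (Int.mem IntF.id (IntF.const _))
    have key : FinP M (fun a : Dt M => ¬ (a ∈ B.1 ↔ a ∈ B'.1)) ∨
        FinP M (fun a : Dt M => (a ∈ B.1 ↔ a ∈ B'.1)) := by
      rcases idx_iff.1 h with h | h <;> rcases idx_iff.1 h' with h' | h'
      · left
        exact (h.or h').mono fun a ha => by tauto
      · right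
        exact (h.or h').mono fun a ha => by tauto
      · right
        exact (h.or h').mono fun a ha => by tauto
      · left
        exact (h.or h').mono fun a ha => by tauto
    rcases key with h1 | h1
    · left
      refine (finN hG hC (Helper672.ZFA.Int.not hI) h1).mono fun x hx => ?_
      obtain ⟨a, rfl⟩ := dA_surj hG x
      rw [hmem', hmem'] at hx
      exact ⟨a, rfl, hx⟩
    · right
      refine (finN hG hC hI h1).mono fun x hx => ?_
      obtain ⟨a, rfl⟩ := dA_surj hG x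
      rw [hmem', hmem'] at hx
      exact ⟨a, rfl, hx⟩
  · obtain ⟨B, rfl⟩ := yA_surj hG b
    obtain ⟨B', rfl⟩ := yA_surj hG b'
    have : B = B' := Subtype.ext (IPow.ext' fun a => by
      have := h (dA hG a)
      rwa [hmem', hmem'] at this)
    rw [this]

/-- The inclusion of the first sort. -/
noncomputable def incD (x : El (AD hG)) : El (AA (ZZ M) hG) := ⟨x.1, by
  obtain ⟨a, ha⟩ := (mem_AD hG).1 x.2
  exact (mem_AA hG).2 ⟨_, ha⟩⟩

/-- The inclusion of the second sort. -/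
noncomputable def incY (x : El (AY hG)) : El (AA (ZZ M) hG) := ⟨x.1, by
  obtain ⟨a, ha⟩ := (mem_AY hG).1 x.2
  exact (mem_AA hG).2 ⟨_, ha⟩⟩

theorem int_incD : IntF (Nx hG) (incD hG) :=
  IntF.of_D (S := fun v => v 0 = v 1) (D.eqf (DF.var _) (DF.var _)) fun _ _ =>
    ⟨fun h => Subtype.ext h, fun h => congrArg Subtype.val h⟩

theorem int_incY : IntF (Nx hG) (incY hG) :=
  IntF.of_D (S := fun v => v 0 = v 1) (D.eqf (DF.var _) (DF.var _)) fun _ _ =>
    ⟨fun h => Subtype.ext h, fun h => congrArg Subtype.val h⟩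

variable {σ : Type u} [ITy (Nx hG) σ]

include hC in
/-- The generic elements are good. -/
theorem gd_AA (hσ : Amo (Nx hG) σ) :
    Gd (Nx hG) σ (fun _ : El (AA (ZZ M) hG) => True) := by
  have h1 := (hom2 hG hC).gd hσ
  obtain ⟨mem, idx', hcls⟩ := exists_cls hG hC
  have h2 := hcls.gd hσ h1
  refine ((h1.image (int_incD hG)).or (h2.image (int_incY hG))).mono (Int.const _) fun x _ => ?_
  obtain ⟨y, hy⟩ := (mem_AA hG).1 x.2
  rcases y with a | B
  · exact Or.inl ⟨dA hG a, trivial, Subtype.ext hy.symm⟩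
  · exact Or.inr ⟨yA hG B, trivial, Subtype.ext hy.symm⟩

end Pool.Agent.H310.NA
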