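import Pool.Agent.H310R3.NA6

/-!
# Almost partitions: filters on the first sort
-/

set_option maxHeartbeats 1000000
set_option linter.all false
set_option synthInstance.maxSize 2000

namespace Pool.Agent.H310.NA

open FirstOrder FirstOrder.Language
open Pool.Agent.Helper672.ZFA
open Pool.Agent.Helper672.ZFA.H635 (IPerm IsGen NN EqFam CollL nn_ext exists_mk mk_eq_nd)
open Pool.Agent.Helper672.ZFA.H310M
open Pool.Agent.H310

universe u

variable {M : Type u} [L.Structure M] [hM : IsModel M]

/-- The image of a finite set of indices. -/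
noncomputable def fsg (g : IPerm M (Xt M)) (E : FS M (Xt M)) : FS M (Xt M) :=
  ⟨iimage (fun x => g.1.1 x) E.1, E.2.image (g.1.1).int⟩

theorem mem_fsg {g : IPerm M (Xt M)} {E : FS M (Xt M)} {x : Xt M} :
    x ∈ (fsg g E).1 ↔ ∃ y, y ∈ E.1 ∧ g.1.1 y = x := mem_iimage (g.1.1).int

theorem int_fsg : IntF M (fun q : IPerm M (Xt M) × FS M (Xt M) => fsg q.1 q.2) := by
  unfold fsg
  refine IntF.mk (IntF.iimage ?_ ?_) <;>
  (repeat' (first | with_reducible exact IntF.id | with_reducible exact IntF.fst' | with_reducible exact IntF.snd' | with_reducible exact IntF.const _ | with_reducible exact Int.const _ | assumption | with_reducible apply Int.and | with_reducible apply Int.or | with_reducible apply Int.not | with_reducible apply Int.imp | with_reducible apply Int.iff | with_reducible apply Int.ne | with_reducible apply Int.eq | with_reducible apply Int.mem | with_reducible apply Int.subset | with_reducible apply Int.ltN | with_reducible apply Int.leN | with_reducible_and_instances apply Int.le | with_reducible_and_instances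 apply Int.lt | with_reducible apply Int.all | with_reducible apply Int.ex | with_reducible apply IntF.fst | with_reducible apply IntF.snd | with_reducible apply IntF.app | with_reducible apply IntF.inl | with_reducible apply IntF.inr | with_reducible_and_instances apply IntF.mul | with_reducible_and_instances apply IntF.inv | with_reducible_and_instances apply IntF.add | with_reducible_and_instances apply IntF.sub | with_reducible_and_instances apply IntF.neg | with_reducible_and_instances apply IntF.smul | with_reducible apply Int.fin | with_reducible apply IntF.sep | with_reducible apply IntF.lam | with_reducible apply IntF.insert | with_reducible apply IntF.singleton | with_reducible apply IntF.union | with_reducible apply IntF.iimage | with_reducible apply IntF.ite | with_reducible apply IntF.the | with_reducible apply IntF.irec | with_reducible apply IntF.succ | with_reducible apply IntF.val | with_reducible apply IntF.mk | (with_reducible refine Int.comp ?_ ?_; assumption) | (with_reducible refine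 Int.comp₂ ?_ ?_ ?_; assumption) | (with_reducible refine Int.comp₃ ?_ ?_ ?_ ?_; assumption) | (with_reducible refine Int.comp₄ ?_ ?_ ?_ ?_ ?_; assumption) | (with_reducible refine IntF.comp ?_ ?_; assumption) | (with_reducible refine IntF.comp₂ ?_ ?_ ?_; assumption) | (with_reducible refine IntF.comp₃ ?_ ?_ ?_ ?_; assumption) | with_reducible apply IntF.pair))

theorem fsg_inv (g : IPerm M (Xt M)) (E : FS M (Xt M)) : fsg g⁻¹ (fsg g E) = E := by
  refine Subtype.ext (IPow.ext' fun x => ?_)
  rw [mem_fsg]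
  constructor
  · rintro ⟨y, hy, rfl⟩
    obtain ⟨z, hz, rfl⟩ := mem_fsg.1 hy
    rw [IPerm.inv_apply]
    have e : g.1.2 (g.1.1 z) = z := g.2.2 z
    rw [e]
    exact hz
  · intro hx
    refine ⟨g.1.1 x, mem_fsg.2 ⟨x, hx, rfl⟩, ?_⟩
    rw [IPerm.inv_apply]
    exact g.2.2 x

theorem fsg_fix {g : IPerm M (Xt M)} {E : FS M (Xt M)} (h : ∀ x, x ∈ E.1 → g.1.1 x = x) :
    fsg g E = E := by
  refine Subtype.ext (IPow.ext' fun x => ?_)
  rw [mem_fsg]
  constructor
  · rintro ⟨y, hy, rfl⟩
    rw [h y hy]
    exact hy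
  · exact fun hx => ⟨x, hx, h x hx⟩

/-- The elements of a coded set. -/
def RX (q : FS M (Xt M) × FS M (Xt M)) (d : Xt M) : Prop :=
  ∃ a e : Dt M, d = Sum.inl a ∧ (Sum.inl e : Xt M) ∈ q.2.1 ∧ rE q.1 a e

theorem int_RX : Int M (fun q : (FS M (Xt M) × FS M (Xt M)) × Xt M => RX q.1 q.2) := by
  have h := int_rE (M := M)
  unfold RX
  refine Int.ex (Int.ex (Int.and ?_ (Int.and ?_ ?_)))
  · exact Int.eq (IntF.snd (IntF.fst IntF.fst')) (IntF.inl (IntF.snd IntF.fst'))
  · exact Int.mem (IntF.inl IntF.snd') (IntF.val (IntF.snd (IntF.fst (IntF.fst IntF.fst'))))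
  · exact Int.comp₃ (p := fun (E : FS M (Xt M)) (a b : Dt M) => rE E a b) h
      (IntF.fst (IntF.fst (IntF.fst IntF.fst'))) (IntF.snd IntF.fst') IntF.snd'

theorem mm_iff {a : Dt M} {B : Yt M} : mm (Sum.inl a : Xt M) (Sum.inr B) ↔ a ∈ B.1 := by
  constructor
  · rintro ⟨a', B', e1, e2, h6⟩
    cases e1
    cases e2
    exact h6
  · exact fun h6 => ⟨a, B, rfl, rfl, h6⟩

theorem RX_inv {g : IPerm M (Xt M)} (hg : g ∈ (ZZ M).H) {q : FS M (Xt M) × FS M (Xt M)}
    {d : Xt M} (h : RX q d) : RX (fsg g q.1, fsg g q.2) (g.1.1 d) := by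
  obtain ⟨a, e, rfl, h1, h2⟩ := h
  have ginj : ∀ x y, g.1.1 x = g.1.1 y → x = y := fun x y h => by
    rw [← g.2.2 x, h, g.2.2]
  obtain ⟨a', ha⟩ := inl_of hg a
  obtain ⟨e', he⟩ := inl_of hg e
  refine ⟨a', e', ha, ?_, ?_⟩
  · rw [← he]
    exact mem_fsg.2 ⟨_, h1, rfl⟩
  · rcases h2 with rfl | ⟨h2, h3, h4⟩
    · rw [ha] at he
      exact Or.inl (Sum.inl.inj he)
    · refine Or.inr ⟨fun h5 => h2 ?_, fun h5 => h3 ?_, fun B' hB' => ?_⟩
      · obtain ⟨y, hy, h6⟩ := mem_fsg.1 h5
        rw [← ha] at h6
        rwa [← ginj _ _ h6]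
      · obtain ⟨y, hy, h6⟩ := mem_fsg.1 h5
        rw [← he] at h6
        rwa [← ginj _ _ h6]
      · obtain ⟨y, hy, h6⟩ := mem_fsg.1 hB'
        rcases y with c | B
        · obtain ⟨c', hc'⟩ := inl_of hg c
          rw [hc'] at h6
          cases h6
        · have e1 : ∀ c c' : Dt M, g.1.1 (Sum.inl c) = Sum.inl c' → (c ∈ B.1 ↔ c' ∈ B'.1) := by
            intro c c' hc
            have h7 := hg.2.1 (Sum.inl c) (Sum.inr B)
            rwa [h6, hc, mm_iff, mm_iff] at h7
          rw [← e1 a a' ha, ← e1 e e' he]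
          exact h4 B hy

variable {G : Set (Co M (Xt M))} (hG : IsGen M G) (hC : CollL M)

theorem mem_cP {α : Type u} [ITy (Nx hG) α] {s : IPow (Nx hG) α} {z : Nx hG} :
    Helper672.Plain.Mem z (code (M := Nx hG) s) ↔ ∃ a, a ∈ s ∧ code a = z :=
  mem_code_pow (M := Nx hG) (s := s) (z := z)

theorem mem_cD {s : IPow (Nx hG) (El (AD hG))} {a : Dt M} :
    Mem (cc (ZZ M) hG (Sum.inl a)) (code (M := Nx hG) s) ↔ dA hG a ∈ s :=
  mem_code_iff (M := Nx hG) (s := s) (a := dA hG a)

/-- The family of the coded sets. -/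
theorem exists_F : ∃ F : FS M (Xt M) × FS M (Xt M) → Nx hG,
    EF (ZZ M) hG (fun g q => (fsg g q.1, fsg g q.2)) F ∧
      ∀ q w, Mem w (F q) ↔ ∃ d, RX q d ∧ w = cc (ZZ M) hG d := by
  refine EF.sets hG (ef_cc hG) (R := RX) int_RX (a' := fun g q => (fsg g q.1, fsg g q.2))
    (fun g hg c d h => RX_inv hg h) (fun g b => Prod.ext (fsg_inv _ _) (fsg_inv _ _)) fun c => ?_
  refine ⟨fsu c.1 c.2, fun g hg hE => Prod.ext (fsg_fix fun x hx => ?_) (fsg_fix fun x hx => ?_)⟩
  · exact hE x (mem_union.2 (Or.inl hx))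
  · exact hE x (mem_union.2 (Or.inr hx))

/-- All subsets of the first sort are coded. -/
theorem exists_code {F : FS M (Xt M) × FS M (Xt M) → Nx hG}
    (hF : ∀ q w, Mem w (F q) ↔ ∃ d, RX q d ∧ w = cc (ZZ M) hG d)
    (B : IPow (Nx hG) (El (AD hG))) : ∃ E t, (∀ a b, rE E a b → dA hG a ∈ B → dA hG b ∈ B) ∧
      (∀ a, dA hG a ∈ B ↔ RX (E, t) (Sum.inl a)) ∧ code (M := Nx hG) B = F (E, t) := by
  obtain ⟨E, hE⟩ := support hG (code (M := Nx hG) B)
  have hinv : ∀ a b, rE E a b → dA hG a ∈ B → dA hG b ∈ B := by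
    intro a b hab h
    obtain ⟨g, hg, hgE, hgb, -⟩ := exists_tr hab
    have h1 : Mem (cc (ZZ M) hG (Sum.inl a)) (code (M := Nx hG) B) := (mem_cD hG).2 h
    have h2 : Mem (cc (ZZ M) hG (g.1.1 (Sum.inl a))) (code (M := Nx hG) B) :=
      hE _ _ _ _ (ef_cc hG) g hg hgE (Sum.inl a) h1
    rw [hgb] at h2
    exact (mem_cD hG).1 h2
  obtain ⟨T, hT, hTf, hTr⟩ := exists_T E
  have hp' : Int M (fun x : Xt M => ∃ a, T a ∧ Sum.inl a = x) :=
    Int.ex (Int.and (hT.comp IntF.snd') (Int.eq (IntF.inl IntF.snd') IntF.fst'))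
  have hf' : FinP M (fun x : Xt M => ∃ a, T a ∧ Sum.inl a = x) := hTf.image IntF.inl'
  have hs := hf'.fin hp'
  obtain ⟨t, ht⟩ := trace hG (ef_cc hG) (code (M := Nx hG) B) hs
  have hfin : IFin (sep M fun x : Xt M => x ∈ t ∧ ∃ a, T a ∧ Sum.inl a = x) := by
    refine hs.subset fun x hx => ?_
    exact (mem_sep hp').2 ((mem_sep (Int.and (Int.mem IntF.id (IntF.const _)) hp')).1 hx).2
  have hm : ∀ a, dA hG a ∈ B ↔ RX (E, ⟨_, hfin⟩) (Sum.inl a) := by
    intro a
    constructor
    · intro h
      obtain ⟨b, h1, h2⟩ := hTr a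
      refine ⟨a, b, rfl, (mem_sep (Int.and (Int.mem IntF.id (IntF.const _)) hp')).2
        ⟨(ht _ ((mem_sep hp').2 ⟨b, h1, rfl⟩)).2 ?_, b, h1, rfl⟩, h2⟩
      exact (mem_cD hG).2 (hinv a b h2 h)
    · rintro ⟨a', b, h0, h1, h2⟩
      cases h0
      obtain ⟨h3, b', h4, h5⟩ := (mem_sep (Int.and (Int.mem IntF.id (IntF.const _)) hp')).1 h1
      have h6 : Mem (cc (ZZ M) hG (Sum.inl b)) (code (M := Nx hG) B) :=
        (ht _ ((mem_sep hp').2 ⟨b', h4, h5⟩)).1 h3
      exact hinv b a (rE_symm h2) ((mem_cD hG).1 h6)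
  refine ⟨E, ⟨_, hfin⟩, hinv, hm, nn_ext hG fun w => ?_⟩
  constructor
  · intro hw
    obtain ⟨x, hx, rfl⟩ := (mem_cP hG).1 hw
    obtain ⟨a, rfl⟩ := dA_surj hG x
    exact (hF _ _).2 ⟨Sum.inl a, (hm a).1 hx, rfl⟩
  · intro hw
    obtain ⟨d, hd, rfl⟩ := (hF _ _).1 hw
    obtain ⟨a, e, rfl, h1, h2⟩ := id hd
    exact (mem_cD hG).2 ((hm a).2 hd)

section

variable {N : Type u} [L.Structure N] [hN : IsModel N] {α : Type u} [ITy N α]

theorem inter_fin {F : IPow N (IPow N α)} (hint : ∀ B B', B ∈ F → B' ∈ F → B ∩ B' ∈ F)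
    (hcof : ∀ B : IPow N α, FinP N (fun x => ¬ x ∈ B) → B ∈ F) {H : IPow N (IPow N α)}
    (hH : IFin H) : (∀ b, b ∈ H → b ∈ F) → ∃ W, W ∈ F ∧ ∀ b, b ∈ H → ∀ x, x ∈ W → x ∈ b := by
  refine IFin.ind (p := fun H : IPow N (IPow N α) => (∀ b, b ∈ H → b ∈ F) →
    ∃ W, W ∈ F ∧ ∀ b, b ∈ H → ∀ x, x ∈ W → x ∈ b) (by (repeat' (first | with_reducible exact IntF.id | with_reducible exact IntF.fst' | with_reducible exact IntF.snd' | with_reducible exact IntF.const _ | with_reducible exact Int.const _ | assumption | with_reducible apply Int.and | with_reducible apply Int.or | with_reducible apply Int.not | with_reducible apply Int.imp | with_reducible apply Int.iff | with_reducible apply Int.ne | with_reducible apply Int.eq | with_reducible apply Int.mem | with_reducible apply Int.subset | with_reducible apply Int.ltN | with_reducible apply Int.leN | with_reducible_and_instances apply Int.le | with_reducible_and_instances apply Int.lt | with_reducible apply Int.all | with_reducible apply Int.ex | with_reducible apply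 IntF.fst | with_reducible apply IntF.snd | with_reducible apply IntF.app | with_reducible apply IntF.inl | with_reducible apply IntF.inr | with_reducible_and_instances apply IntF.mul | with_reducible_and_instances apply IntF.inv | with_reducible_and_instances apply IntF.add | with_reducible_and_instances apply IntF.sub | with_reducible_and_instances apply IntF.neg | with_reducible_and_instances apply IntF.smul | with_reducible apply Int.fin | with_reducible apply IntF.sep | with_reducible apply IntF.lam | with_reducible apply IntF.insert | with_reducible apply IntF.singleton | with_reducible apply IntF.union | with_reducible apply IntF.iimage | with_reducible apply IntF.ite | with_reducible apply IntF.the | with_reducible apply IntF.irec | with_reducible apply IntF.succ | with_reducible apply IntF.val | with_reducible apply IntF.mk | (with_reducible refine Int.comp ?_ ?_; assumption) | (with_reducible refine Int.comp₂ ?_ ?_ ?_; assumption) | (with_reducible refine Int.comp₃ ?_ ?_ ?_ ?_; assumption) |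 (with_reducible refine Int.comp₄ ?_ ?_ ?_ ?_ ?_; assumption) | (with_reducible refine IntF.comp ?_ ?_; assumption) | (with_reducible refine IntF.comp₂ ?_ ?_ ?_; assumption) | (with_reducible refine IntF.comp₃ ?_ ?_ ?_ ?_; assumption) | with_reducible apply IntF.pair))) ?_ ?_ H hH
  · intro _
    refine ⟨iuniv N α, hcof _ ⟨∅, IFin.empty, fun x hx => absurd mem_iuniv.2 (fun h => hx (h trivial))⟩,
      fun b hb => absurd hb (by simp)⟩
  · rintro s a - - ih h
    obtain ⟨W, hW, h1⟩ := ih fun b hb => h b (mem_insert.2 (Or.inr hb))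
    refine ⟨W ∩ a, hint _ _ hW (h a (mem_insert.2 (Or.inl rfl))), fun b hb x hx => ?_⟩
    obtain ⟨h2, h3⟩ := mem_inter.1 hx
    rcases mem_insert.1 hb with rfl | hb
    · exact h3
    · exact h1 b hb x h2

end

include hC in
/-- Filters have least elements modulo finite sets. -/
theorem filt {FF : IPow (Nx hG) (IPow (Nx hG) (El (AD hG)))}
    (hup : ∀ B B', B ∈ FF → (∀ x, x ∈ B → x ∈ B') → B' ∈ FF)
    (hint : ∀ B B', B ∈ FF → B' ∈ FF → B ∩ B' ∈ FF)
    (hcof : ∀ B : IPow (Nx hG) (El (AD hG)), FinP (Nx hG) (fun x => ¬ x ∈ B) → B ∈ FF) :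
    ∃ W, W ∈ FF ∧ ∀ B, B ∈ FF → FinP (Nx hG) (fun x => x ∈ W ∧ ¬ x ∈ B) := by
  obtain ⟨F, hFE, hF⟩ := exists_F hG
  obtain ⟨E₀, hE₀⟩ := support hG (code (M := Nx hG) FF)
  obtain ⟨E, N, hEE, hEF⟩ := exists_Full E₀
  obtain ⟨r, hr, hr'⟩ := exists_r hG E
  obtain ⟨T, hT, hTf, hTr⟩ := exists_T E
  obtain ⟨t₀, ht₀, htT⟩ := finN hG hC hT hTf
  -- translates
  have hW : ∀ B, B ∈ FF → ∀ E' t, (∀ a, dA hG a ∈ B ↔ RX (E', t) (Sum.inl a)) →
      code (M := Nx hG) B = F (E', t) → ∀ N', ∃ W, W ∈ FF ∧ ∀ a, dA hG a ∈ W → ∀ c, Cs N N' c →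
        dA hG (tl E c a) ∈ B := by
    intro B hB E' t hBt hBc N'
    have hRi : Int M (fun q : Dt M × IPerm M (Xt M) => q.2 ∈ (ZZ M).H ∧
        (∀ x, x ∈ E.1 → q.2.1.1 x = x) ∧ ∀ a : Dt M, q.2.1.1 (Sum.inl a) =
          Sum.inl (tl E q.1 a)) := by
      have h1 := int_tl E
      refine Int.and ((ZZ M).int.comp IntF.snd') (Int.and ?_ ?_)
      · (repeat' (first | with_reducible exact IntF.id | with_reducible exact IntF.fst' | with_reducible exact IntF.snd' | with_reducible exact IntF.const _ | with_reducible exact Int.const _ | assumption | with_reducible apply Int.and | with_reducible apply Int.or | with_reducible apply Int.not | with_reducible apply Int.imp | with_reducible apply Int.iff | with_reducible apply Int.ne | with_reducible apply Int.eq | with_reducible apply Int.mem | with_reducible apply Int.subset | with_reducible apply Int.ltN | with_reducible apply Int.leN | with_reducible_and_instances apply Int.le | with_reducible_and_instances apply Int.lt | with_reducible apply Int.all | with_reducible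 apply Int.ex | with_reducible apply IntF.fst | with_reducible apply IntF.snd | with_reducible apply IntF.app | with_reducible apply IntF.inl | with_reducible apply IntF.inr | with_reducible_and_instances apply IntF.mul | with_reducible_and_instances apply IntF.inv | with_reducible_and_instances apply IntF.add | with_reducible_and_instances apply IntF.sub | with_reducible_and_instances apply IntF.neg | with_reducible_and_instances apply IntF.smul | with_reducible apply Int.fin | with_reducible apply IntF.sep | with_reducible apply IntF.lam | with_reducible apply IntF.insert | with_reducible apply IntF.singleton | with_reducible apply IntF.union | with_reducible apply IntF.iimage | with_reducible apply IntF.ite | with_reducible apply IntF.the | with_reducible apply IntF.irec | with_reducible apply IntF.succ | with_reducible apply IntF.val | with_reducible apply IntF.mk | (with_reducible refine Int.comp ?_ ?_; assumption) | (with_reducible refine Int.comp₂ ?_ ?_ ?_; assumption) | (with_reducible refine Int.comp₃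 ?_ ?_ ?_ ?_; assumption) | (with_reducible refine Int.comp₄ ?_ ?_ ?_ ?_ ?_; assumption) | (with_reducible refine IntF.comp ?_ ?_; assumption) | (with_reducible refine IntF.comp₂ ?_ ?_ ?_; assumption) | (with_reducible refine IntF.comp₃ ?_ ?_ ?_ ?_; assumption) | with_reducible apply IntF.pair))
      · refine Int.all (Int.eq ?_ (IntF.inl ?_))
        · (repeat' (first | with_reducible exact IntF.id | with_reducible exact IntF.fst' | with_reducible exact IntF.snd' | with_reducible exact IntF.const _ | with_reducible exact Int.const _ | assumption | with_reducible apply Int.and | with_reducible apply Int.or | with_reducible apply Int.not | with_reducible apply Int.imp | with_reducible apply Int.iff | with_reducible apply Int.ne | with_reducible apply Int.eq | with_reducible apply Int.mem | with_reducible apply Int.subset | with_reducible apply Int.ltN | with_reducible apply Int.leN | with_reducible_and_instances apply Int.le | with_reducible_and_instances apply Int.lt | with_reducible apply Int.all | with_reducible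 apply Int.ex | with_reducible apply IntF.fst | with_reducible apply IntF.snd | with_reducible apply IntF.app | with_reducible apply IntF.inl | with_reducible apply IntF.inr | with_reducible_and_instances apply IntF.mul | with_reducible_and_instances apply IntF.inv | with_reducible_and_instances apply IntF.add | with_reducible_and_instances apply IntF.sub | with_reducible_and_instances apply IntF.neg | with_reducible_and_instances apply IntF.smul | with_reducible apply Int.fin | with_reducible apply IntF.sep | with_reducible apply IntF.lam | with_reducible apply IntF.insert | with_reducible apply IntF.singleton | with_reducible apply IntF.union | with_reducible apply IntF.iimage | with_reducible apply IntF.ite | with_reducible apply IntF.the | with_reducible apply IntF.irec | with_reducible apply IntF.succ | with_reducible apply IntF.val | with_reducible apply IntF.mk | (with_reducible refine Int.comp ?_ ?_; assumption) | (with_reducible refine Int.comp₂ ?_ ?_ ?_; assumption) | (with_reducible refine Int.comp₃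 ?_ ?_ ?_ ?_; assumption) | (with_reducible refine Int.comp₄ ?_ ?_ ?_ ?_ ?_; assumption) | (with_reducible refine IntF.comp ?_ ?_; assumption) | (with_reducible refine IntF.comp₂ ?_ ?_ ?_; assumption) | (with_reducible refine IntF.comp₃ ?_ ?_ ?_ ?_; assumption) | with_reducible apply IntF.pair))
        · exact IntF.comp₂ (p := fun c a : Dt M => tl E c a) h1 (IntF.fst IntF.fst') IntF.snd'
    obtain ⟨γ, hγ, -⟩ := fin_choice (R := fun (c : Dt M) (g : IPerm M (Xt M)) => g ∈ (ZZ M).H ∧
      (∀ x, x ∈ E.1 → g.1.1 x = x) ∧ ∀ a : Dt M, g.1.1 (Sum.inl a) = Sum.inl (tl E c a)) hRi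
      (1 : IPerm M (Xt M)) ((finP_Cs N N').fin (int_Cs N N')) (fun c hc => by
        obtain ⟨g, h1, h2, h3⟩ := hEF.1.exists_tl (c := c) fun j hj =>
          ((mem_sep (int_Cs N N')).1 hc j hj).1
        refine ⟨g, h1, h2, fun a => ?_⟩
        unfold tl
        by_cases h4 : rE E a (xr a c)
        · rw [if_pos h4]
          exact (h3 a).1 h4
        · rw [if_neg h4]
          exact (h3 a).2 h4)
    have hu : IntF M (fun c : Dt M => (fsg (γ c) E', fsg (γ c) t)) := by
      have h1 := int_fsg (M := M)
      refine IntF.pair ?_ ?_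
      · exact IntF.comp₂ (p := fun (g : IPerm M (Xt M)) (E : FS M (Xt M)) => fsg g E) h1 γ.int
          (IntF.const _)
      · exact IntF.comp₂ (p := fun (g : IPerm M (Xt M)) (E : FS M (Xt M)) => fsg g E) h1 γ.int
          (IntF.const _)
    have hp : Int M (fun q : FS M (Xt M) × FS M (Xt M) => ∃ c, Cs N N' c ∧
        (fsg (γ c) E', fsg (γ c) t) = q) :=
      Int.ex (Int.and ((int_Cs N N').comp IntF.snd') (Int.eq (hu.comp IntF.snd') IntF.fst'))
    have hpf : FinP M (fun q : FS M (Xt M) × FS M (Xt M) => ∃ c, Cs N N' c ∧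
        (fsg (γ c) E', fsg (γ c) t) = q) := (finP_Cs N N').image hu
    obtain ⟨E₂, hE₂⟩ := IFin.exists_bound (r := fun (q : FS M (Xt M) × FS M (Xt M))
      (E₂ : FS M (Xt M)) => (∀ x, x ∈ q.1.1 → x ∈ E₂.1) ∧ ∀ x, x ∈ q.2.1 → x ∈ E₂.1)
      (by (repeat' (first | with_reducible exact IntF.id | with_reducible exact IntF.fst' | with_reducible exact IntF.snd' | with_reducible exact IntF.const _ | with_reducible exact Int.const _ | assumption | with_reducible apply Int.and | with_reducible apply Int.or | with_reducible apply Int.not | with_reducible apply Int.imp | with_reducible apply Int.iff | with_reducible apply Int.ne | with_reducible apply Int.eq | with_reducible apply Int.mem | with_reducible apply Int.subset | with_reducible apply Int.ltN | with_reducible apply Int.leN | with_reducible_and_instances apply Int.le | with_reducible_and_instances apply Int.lt | with_reducible apply Int.all | with_reducible apply Int.ex | with_reducible apply IntF.fst | with_reducible apply IntF.snd | with_reducible apply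 IntF.app | with_reducible apply IntF.inl | with_reducible apply IntF.inr | with_reducible_and_instances apply IntF.mul | with_reducible_and_instances apply IntF.inv | with_reducible_and_instances apply IntF.add | with_reducible_and_instances apply IntF.sub | with_reducible_and_instances apply IntF.neg | with_reducible_and_instances apply IntF.smul | with_reducible apply Int.fin | with_reducible apply IntF.sep | with_reducible apply IntF.lam | with_reducible apply IntF.insert | with_reducible apply IntF.singleton | with_reducible apply IntF.union | with_reducible apply IntF.iimage | with_reducible apply IntF.ite | with_reducible apply IntF.the | with_reducible apply IntF.irec | with_reducible apply IntF.succ | with_reducible apply IntF.val | with_reducible apply IntF.mk | (with_reducible refine Int.comp ?_ ?_; assumption) | (with_reducible refine Int.comp₂ ?_ ?_ ?_; assumption) | (with_reducible refine Int.comp₃ ?_ ?_ ?_ ?_; assumption) | (with_reducible refine Int.comp₄ ?_ ?_ ?_ ?_ ?_; assumption) | (with_reducible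 refine IntF.comp ?_ ?_; assumption) | (with_reducible refine IntF.comp₂ ?_ ?_ ?_; assumption) | (with_reducible refine IntF.comp₃ ?_ ?_ ?_ ?_; assumption) | with_reducible apply IntF.pair))) (fun b c => ⟨fsu b c, fun q h => by
        rcases h with h | h
        · exact ⟨fun x hx => mem_union.2 (Or.inl (h.1 x hx)),
            fun x hx => mem_union.2 (Or.inl (h.2 x hx))⟩
        · exact ⟨fun x hx => mem_union.2 (Or.inr (h.1 x hx)),
            fun x hx => mem_union.2 (Or.inr (h.2 x hx))⟩⟩) ⟨fs0 M (Xt M)⟩ (hpf.fin hp)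
      fun q _ => ⟨fsu q.1 q.2, fun x hx => mem_union.2 (Or.inl hx),
        fun x hx => mem_union.2 (Or.inr hx)⟩
    have hfix : ∀ g ∈ (ZZ M).H, (∀ x, x ∈ E₂.1 → g.1.1 x = x) → ∀ q : FS M (Xt M) × FS M (Xt M),
        (∃ c, Cs N N' c ∧ (fsg (γ c) E', fsg (γ c) t) = q) → (fsg g q.1, fsg g q.2) = q := by
      intro g hg hgE q hq
      obtain ⟨h1, h2⟩ := hE₂ q ((mem_sep hp).2 hq)
      exact Prod.ext (fsg_fix fun x hx => hgE x (h1 x hx)) (fsg_fix fun x hx => hgE x (h2 x hx))
    obtain ⟨z, hz⟩ := EF.set hG hFE hp (E := E₂) (by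
      intro g hg hgE q hq
      beta_reduce
      rw [hfix g hg hgE q hq]
      exact hq)
    have hzi : Int (Nx hG) (fun b : IPow (Nx hG) (El (AD hG)) => Mem (code b) z) :=
      ⟨z, fun _ => Iff.rfl⟩
    have hfin := (fin_img hG hC hFE (fun g b => Prod.ext (fsg_inv _ _) (fsg_inv _ _)) hp hpf
      (E := E₂) hfix (β := IPow (Nx hG) (El (AD hG)))).mono (p := fun b => Mem (code b) z)
      (fun b hb => (hz _).1 hb)
    obtain ⟨W, hWF, hWb⟩ := inter_fin hint hcof (hfin.fin hzi) (fun b hb => by
      obtain ⟨q, ⟨c, hc, rfl⟩, h1⟩ := (hz _).1 ((mem_sep hzi).1 hb)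
      obtain ⟨h2, h3, h4⟩ := hγ c ((mem_sep (int_Cs N N')).2 hc)
      have h5 : Mem (F (E', t)) (code (M := Nx hG) FF) := by
        rw [← hBc]
        exact mem_code_iff.2 hB
      have h6 : Mem (F (fsg (γ c) E', fsg (γ c) t)) (code (M := Nx hG) FF) :=
        hE₀ _ _ _ _ hFE (γ c) h2 (fun x hx => h3 x (hEE x hx)) (E', t) h5
      rw [← h1] at h6
      exact mem_code_iff.1 h6)
    refine ⟨W, hWF, fun a ha c hc => ?_⟩
    obtain ⟨h2, h3, h4⟩ := hγ c ((mem_sep (int_Cs N N')).2 hc)
    have hbi : Int (Nx hG) (fun x : El (AD hG) => Mem x.1 (F (fsg (γ c) E', fsg (γ c) t))) :=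
      int_mem1 hG _
    have hcode : code (M := Nx hG) (sep (Nx hG) fun x : El (AD hG) =>
        Mem x.1 (F (fsg (γ c) E', fsg (γ c) t))) = F (fsg (γ c) E', fsg (γ c) t) := by
      refine nn_ext hG fun w => ⟨fun hw => ?_, fun hw => ?_⟩
      · obtain ⟨x, hx, rfl⟩ := (mem_cP hG).1 hw
        exact (mem_sep hbi).1 hx
      · obtain ⟨d, hd, rfl⟩ := (hF _ _).1 hw
        obtain ⟨b, e, rfl, h5, h6⟩ := id hd
        exact (mem_cD hG).2 ((mem_sep hbi).2 ((hF _ _).2 ⟨_, hd, rfl⟩))
    have h5 := hWb _ ((mem_sep hzi).2 ((hz _).2 ⟨_, ⟨c, hc, rfl⟩, hcode⟩)) _ ha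
    obtain ⟨d, hd, h6⟩ := (hF _ _).1 ((mem_sep hbi).1 h5)
    have h7 : (Sum.inl a : Xt M) = d := (cc_inj hG).1 h6
    subst h7
    have h8 := RX_inv ((ZZ M).H.inv_mem h2) hd
    simp only [fsg_inv] at h8
    rw [hBt]
    have h9 : ((γ c : IPerm M (Xt M))⁻¹).1.1 (Sum.inl a) = Sum.inl (tl E c a) := by
      rw [IPerm.inv_apply]
      have h10 := h4 (tl E c a)
      rw [tl_tl] at h10
      rw [← h10]
      exact (γ c : IPerm M (Xt M)).2.2 _
    rw [h9] at h8
    exact h8
  have claim : ∀ P : Dt M, (∀ B, B ∈ FF → FinP (Nx hG) (fun x => r (x, dA hG P) ∧ ¬ x ∈ B)) ∨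
      (sep (Nx hG) fun x => ¬ r (x, dA hG P)) ∈ FF := by
    intro P
    have hrP : Int (Nx hG) (fun x : El (AD hG) => ¬ r (x, dA hG P)) :=
      Helper672.ZFA.Int.not (hr.comp (IntF.pair IntF.id (IntF.const _)))
    by_cases h : ∀ B, B ∈ FF → FinP (Nx hG) (fun x => r (x, dA hG P) ∧ ¬ x ∈ B)
    · exact Or.inl h
    push Not at h
    obtain ⟨B, hB, hBi⟩ := h
    right
    obtain ⟨E', t, hinv, hBt, hBc⟩ := exists_code hG hF B
    obtain ⟨N', -, hN'⟩ := exists_Bd E' N
    obtain ⟨W, hWF, hWB⟩ := hW B hB E' t hBt hBc N'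
    obtain ⟨Fx, hFx, hFxf, hFxs⟩ := big_step hEF hN' (S := fun a => dA hG a ∈ B) hinv
    obtain ⟨s, hs, hsF⟩ := finN hG hC hFx hFxf
    by_cases hex : ∃ a, rE E a P ∧ ¬ Fx a ∧ dA hG a ∈ W
    · exfalso
      obtain ⟨a, h1, h2, h3⟩ := hex
      refine hBi ⟨s, hs, fun x hx => ?_⟩
      obtain ⟨b, rfl⟩ := dA_surj hG x
      by_contra h4
      have h5 : ¬ Fx b := fun h => h4 (hsF _ ⟨b, rfl, h⟩)
      have h6 := hFxs a b h2 h5 (rE_trans h1 (rE_symm ((hr' _ _).1 hx.1))) (hWB a h3)
        ⟨∅, IFin.empty⟩ (fun j hj => absurd hj (by simp))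
      rw [tl_empty] at h6
      exact hx.2 h6
    · have hsi : Int (Nx hG) (fun x : El (AD hG) => ¬ x ∈ s) :=
        Helper672.ZFA.Int.not (Int.mem IntF.id (IntF.const _))
      have hco : (sep (Nx hG) fun x : El (AD hG) => ¬ x ∈ s) ∈ FF := hcof _ ⟨s, hs, fun x hx => by
        by_contra h3
        exact hx ((mem_sep hsi).2 h3)⟩
      refine hup _ _ (hint _ _ hWF hco) fun x hx => ?_
      obtain ⟨h1, h2⟩ := mem_inter.1 hx
      rw [mem_sep hsi] at h2
      rw [mem_sep hrP]
      intro h3
      obtain ⟨a, rfl⟩ := dA_surj hG x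
      exact hex ⟨a, (hr' _ _).1 h3, fun h => h2 (hsF _ ⟨a, rfl, h⟩), h1⟩
  -- the least element
  have hri : ∀ y, Int (Nx hG) (fun x : El (AD hG) => ¬ r (x, y)) := fun y =>
    Helper672.ZFA.Int.not (hr.comp (IntF.pair IntF.id (IntF.const _)))
  have hfi : IntF (Nx hG) (fun y : El (AD hG) => sep (Nx hG) fun x => ¬ r (x, y)) := by
    refine IntF.sep (Helper672.ZFA.Int.not ?_)
    exact hr.comp (IntF.pair IntF.snd' IntF.fst')
  have h𝓗 : Int (Nx hG) (fun b : IPow (Nx hG) (El (AD hG)) => b ∈ FF ∧
      b ∈ iimage (fun y : El (AD hG) => sep (Nx hG) fun x => ¬ r (x, y)) t₀) :=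
    Int.and (Int.mem IntF.id (IntF.const _)) (Int.mem IntF.id (IntF.const _))
  obtain ⟨W, hWF, hWb⟩ := inter_fin hint hcof (H := sep (Nx hG) fun b => b ∈ FF ∧
      b ∈ iimage (fun y : El (AD hG) => sep (Nx hG) fun x => ¬ r (x, y)) t₀)
    ((ht₀.image hfi).subset fun b hb => ((mem_sep h𝓗).1 hb).2) fun b hb => ((mem_sep h𝓗).1 hb).1
  refine ⟨W, hWF, fun B hB => ?_⟩
  have hPi : Int (Nx hG) (fun y : El (AD hG) => y ∈ t₀ ∧
      ¬ (sep (Nx hG) fun x => ¬ r (x, y)) ∈ FF) :=
    Int.and (Int.mem IntF.id (IntF.const _)) (Helper672.ZFA.Int.not (Int.mem hfi (IntF.const _)))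
  refine (FinP.bUnion (P := fun y : El (AD hG) => y ∈ t₀ ∧
      ¬ (sep (Nx hG) fun x => ¬ r (x, y)) ∈ FF) (R := fun q : El (AD hG) × El (AD hG) =>
      r (q.2, q.1) ∧ ¬ q.2 ∈ B) ⟨t₀, ht₀, fun y hy => hy.1⟩ hPi ?_ ?_).mono ?_
  · exact Int.and (hr.comp (IntF.pair IntF.snd' IntF.fst'))
      (Helper672.ZFA.Int.not (Int.mem IntF.snd' (IntF.const _)))
  · rintro y ⟨-, hy⟩
    obtain ⟨P, rfl⟩ := dA_surj hG y
    rcases claim P with h1 | h1
    · exact h1 B hB
    · exact absurd h1 hy
  · rintro x ⟨hx, hxB⟩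
    obtain ⟨a, rfl⟩ := dA_surj hG x
    obtain ⟨b, h1, h2⟩ := hTr a
    have h3 : dA hG b ∈ t₀ := htT _ ⟨b, rfl, h1⟩
    refine ⟨dA hG b, ⟨h3, fun h4 => ?_⟩, (hr' _ _).2 h2, hxB⟩
    have h5 := hWb _ ((mem_sep h𝓗).2 ⟨h4, (mem_iimage hfi).2 ⟨_, h3, rfl⟩⟩) _ hx
    exact (mem_sep (hri _)).1 h5 ((hr' _ _).2 h2)

end Pool.Agent.H310.NA
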