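import Pool.Agent.H310R3.TopDefs
import Pool.Agent.H635R2.Statement

/-!
# Amorphous sets and compactifications of discrete spaces in a model of ZF: definitions

`Mem` and `LSet` are from `Pool.Agent.Helper672.SIK.Plain`, `IsFun`, `App`, `IsFinite` and `IsInj`
from `Pool.Agent.H310R3.Cards`, `IsTopology`, `IsCompact`, `IsHausdorff` and `IsScattered` from
`Pool.Agent.H310R3.TopDefs`, and `ZF` from `Pool.Agent.H635R2.Statement`.
-/

namespace Pool.Agent.H310NAS

open FirstOrder FirstOrder.Language
open Pool.Agent.Helper672.Plain (LSet Mem)
open Pool.Agent.H310Cards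
open Pool.Agent.H310Top

universe u

section

variable {M : Type u} [LSet.Structure M]

/-- `a` is amorphous: it is infinite, and every infinite subset of `a` has a finite complement in
`a`. -/
def IsAmorphous (a : M) : Prop :=
  ¬ IsFinite a ∧ ∀ b, (∀ z, Mem z b → Mem z a) → ¬ IsFinite b →
    ∀ c, (∀ z, Mem z c ↔ Mem z a ∧ ¬ Mem z b) → IsFinite c

/-- The space `x` with the topology `t` is a Hausdorff compactification of the discrete space
on `d`: it is compact and Hausdorff, and there is an injection of `d` to `x` whose image is a
discrete subspace (for every point of the image some open set contains no other point of the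
image) and is dense (it meets every nonempty open set). -/
structure IsCompactification (d x t : M) : Prop where
  top : IsTopology t x
  compact : IsCompact t x
  haus : IsHausdorff t x
  emb : ∃ f, IsInj f d x ∧
    (∀ a y, App f a y → ∃ u, Mem u t ∧ Mem y u ∧ ∀ b z, App f b z → Mem z u → z = y) ∧
    ∀ u, Mem u t → (∃ z, Mem z u) → ∃ a y, App f a y ∧ Mem y u

/-- `r` is a strict well-order of `x`. -/
structure IsWellOrder (r x : M) : Prop where
  irrefl : ∀ a, Mem a x → ¬ App r a a
  trans : ∀ a b c, Mem a x → Mem b x → Mem c x → App r a b → App r b c → App r a c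
  total : ∀ a b, Mem a x → Mem b x → App r a b ∨ a = b ∨ App r b a
  least : ∀ s, (∀ z, Mem z s → Mem z x) → (∃ z, Mem z s) →
    ∃ a, Mem a s ∧ ∀ b, Mem b s → ¬ App r b a

end

/-- NAS: there are no amorphous sets. -/
def NAS (N : Type u) [LSet.Structure N] : Prop := ∀ a : N, ¬ IsAmorphous a

/-- INSHC: every infinite discrete space has a non-scattered Hausdorff compactification. -/
def INSHC (N : Type u) [LSet.Structure N] : Prop :=
  ∀ d : N, ¬ IsFinite d → ∃ x t, IsCompactification d x t ∧ ¬ IsScattered t x

/-- The axiom of choice, in the form of the well-ordering theorem: every set has a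
well-order. -/
def WO (M : Type u) [LSet.Structure M] : Prop := ∀ x : M, ∃ r, IsWellOrder r x

end Pool.Agent.H310NAS
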