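import Pool.Agent.H310R3.PM1
import Pool.Agent.H635R2.Fam

/-!
# Permutation models: the base graph
-/

set_option maxHeartbeats 1000000
set_option linter.all false
set_option synthInstance.maxSize 2000

namespace Pool.Agent.Helper672.ZFA.H310M

open FirstOrder FirstOrder.Language
open Pool.Agent.Helper672.ZFA.H635 (IPerm SymSys IG WFI FEq FMem tw Good feq_of_map feq_iff IsGen
  nd nd_eq mem_nd mem_nd_nd exists_mk mk_eq_nd EqFam)

universe u

variable (M : Type u) [L.Structure M] [hM : IsModel M] (X : Type u) [ITy M X]

/-- The types of values. -/
abbrev TS : Type u := IPow M (INat M × INat M)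

/-- The nodes of the base graph. -/
abbrev BN : Type u := INat M ⊕ ((X × TS M) ⊕ X)

variable {M X}

/-- The node of a natural number. -/
abbrev nat (n : INat M) : BN M X := Sum.inl n
/-- The nodes that are elements of the `cn`. -/
abbrev an (i : X) (t : TS M) : BN M X := Sum.inr (Sum.inl (i, t))
/-- The nodes of the generic elements. -/
abbrev cn (i : X) : BN M X := Sum.inr (Sum.inr i)

/-- The base graph. -/
def BE (x : BN M X) (p : Co M X) (y : BN M X) : Prop :=
  (∃ m n, x = nat m ∧ y = nat n ∧ m < n) ∨
  (∃ (k : INat M) (i : X) (t : TS M), x = nat k ∧ y = an i t ∧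
    ∃ d, (k, d) ∈ t ∧ (i, (k, d)) ∈ p.1) ∨
  (∃ (i : X) (t : TS M), x = an i t ∧ y = cn i)

theorem ig_BE : IG M (BE (M := M) (X := X)) := by
  unfold IG BE
  (repeat' (first | with_reducible exact IntF.id | with_reducible exact IntF.fst' | with_reducible exact IntF.snd' | with_reducible exact IntF.const _ | with_reducible exact Int.const _ | assumption | with_reducible apply Int.and | with_reducible apply Int.or | with_reducible apply Int.not | with_reducible apply Int.imp | with_reducible apply Int.iff | with_reducible apply Int.ne | with_reducible apply Int.eq | with_reducible apply Int.mem | with_reducible apply Int.subset | with_reducible apply Int.ltN | with_reducible apply Int.leN | with_reducible_and_instances apply Int.le | with_reducible_and_instances apply Int.lt | with_reducible apply Int.all | with_reducible apply Int.ex | with_reducible apply IntF.fst | with_reducible apply IntF.snd | with_reducible apply IntF.app | with_reducible apply IntF.inl | with_reducible apply IntF.inr | with_reducible_and_instances apply IntF.mul | with_reducible_and_instances apply IntF.inv | with_reducible_and_instances apply IntF.add | with_reducible_and_instances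 apply IntF.sub | with_reducible_and_instances apply IntF.neg | with_reducible_and_instances apply IntF.smul | with_reducible apply Int.fin | with_reducible apply IntF.sep | with_reducible apply IntF.lam | with_reducible apply IntF.insert | with_reducible apply IntF.singleton | with_reducible apply IntF.union | with_reducible apply IntF.iimage | with_reducible apply IntF.ite | with_reducible apply IntF.the | with_reducible apply IntF.irec | with_reducible apply IntF.succ | with_reducible apply IntF.val | with_reducible apply IntF.mk | (with_reducible refine Int.comp ?_ ?_; assumption) | (with_reducible refine Int.comp₂ ?_ ?_ ?_; assumption) | (with_reducible refine Int.comp₃ ?_ ?_ ?_ ?_; assumption) | (with_reducible refine Int.comp₄ ?_ ?_ ?_ ?_ ?_; assumption) | (with_reducible refine IntF.comp ?_ ?_; assumption) | (with_reducible refine IntF.comp₂ ?_ ?_ ?_; assumption) | (with_reducible refine IntF.comp₃ ?_ ?_ ?_ ?_; assumption) | with_reducible apply IntF.pair))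

variable {x : BN M X} {p : Co M X}

theorem BE_nat {n : INat M} : BE x p (nat n) ↔ ∃ m, x = nat m ∧ m < n := by
  simp [BE, nat, an, cn]

theorem BE_an {i : X} {t : TS M} : BE x p (an i t) ↔
    ∃ k, x = nat k ∧ ∃ d, (k, d) ∈ t ∧ (i, (k, d)) ∈ p.1 := by
  unfold BE
  constructor
  · rintro (⟨m, n, rfl, h, h1⟩ | ⟨k, i', t', rfl, h, h1⟩ | ⟨i', t', rfl, h⟩)
    · cases h
    · cases h
      exact ⟨k, rfl, h1⟩
    · cases h
  · rintro ⟨k, rfl, h⟩
    exact Or.inr (Or.inl ⟨k, i, t, rfl, rfl, h⟩)

theorem BE_cn {i : X} : BE x p (cn i) ↔ ∃ t, x = an i t := by
  unfold BE
  constructor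
  · rintro (⟨m, n, rfl, h, h1⟩ | ⟨k, i', t', rfl, h, h1⟩ | ⟨i', t', rfl, h⟩)
    · cases h
    · cases h
    · cases h
      exact ⟨t', rfl⟩
  · rintro ⟨t, rfl⟩
    exact Or.inr (Or.inr ⟨i, t, rfl, rfl⟩)

theorem wf_BE : WFI M (BE (M := M) (X := X)) := by
  intro s hs
  by_cases h1 : ∃ n, nat n ∈ s
  · obtain ⟨n, h2, h3⟩ := INat.exists_least (p := fun n => nat n ∈ s) (by (repeat' (first | with_reducible exact IntF.id | with_reducible exact IntF.fst' | with_reducible exact IntF.snd' | with_reducible exact IntF.const _ | with_reducible exact Int.const _ | assumption | with_reducible apply Int.and | with_reducible apply Int.or | with_reducible apply Int.not | with_reducible apply Int.imp | with_reducible apply Int.iff | with_reducible apply Int.ne | with_reducible apply Int.eq | with_reducible apply Int.mem | with_reducible apply Int.subset | with_reducible apply Int.ltN | with_reducible apply Int.leN | with_reducible_and_instances apply Int.le | with_reducible_and_instances apply Int.lt | with_reducible apply Int.all | with_reducible apply Int.ex | with_reducible apply IntF.fst | with_reducible apply IntF.snd | with_reducible apply IntF.app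 | with_reducible apply IntF.inl | with_reducible apply IntF.inr | with_reducible_and_instances apply IntF.mul | with_reducible_and_instances apply IntF.inv | with_reducible_and_instances apply IntF.add | with_reducible_and_instances apply IntF.sub | with_reducible_and_instances apply IntF.neg | with_reducible_and_instances apply IntF.smul | with_reducible apply Int.fin | with_reducible apply IntF.sep | with_reducible apply IntF.lam | with_reducible apply IntF.insert | with_reducible apply IntF.singleton | with_reducible apply IntF.union | with_reducible apply IntF.iimage | with_reducible apply IntF.ite | with_reducible apply IntF.the | with_reducible apply IntF.irec | with_reducible apply IntF.succ | with_reducible apply IntF.val | with_reducible apply IntF.mk | (with_reducible refine Int.comp ?_ ?_; assumption) | (with_reducible refine Int.comp₂ ?_ ?_ ?_; assumption) | (with_reducible refine Int.comp₃ ?_ ?_ ?_ ?_; assumption) | (with_reducible refine Int.comp₄ ?_ ?_ ?_ ?_ ?_; assumption) | (with_reducible refine IntF.comp ?_ ?_; assumption) | (with_reducible refine IntF.comp₂ ?_ ?_ ?_; assumption) | (with_reducible refine IntF.comp₃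 ?_ ?_ ?_ ?_; assumption) | with_reducible apply IntF.pair))) h1
    refine ⟨nat n, h2, fun x q hx h4 => ?_⟩
    obtain ⟨m, rfl, h5⟩ := BE_nat.1 h4
    exact absurd (h3 m hx) (not_le.2 h5)
  by_cases h3 : ∃ i t, an i t ∈ s
  · obtain ⟨i, t, hk⟩ := h3
    refine ⟨an i t, hk, fun x q hx h4 => ?_⟩
    obtain ⟨k, rfl, h5⟩ := BE_an.1 h4
    exact h1 ⟨k, hx⟩
  obtain ⟨x, hx⟩ := hs
  refine ⟨x, hx, fun y q hy h4 => ?_⟩
  rcases x with n | ⟨i, t⟩ | i
  · exact h1 ⟨n, hx⟩
  · exact h3 ⟨i, t, hx⟩
  · obtain ⟨t, rfl⟩ := BE_cn.1 h4
    exact h3 ⟨i, t, hy⟩

/-! ### The action on nodes -/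

variable {Z : PGr M X}

/-- The action on types of values. -/
noncomputable def ts (π : Gm Z) (i : X) (t : TS M) : TS M :=
  sep M fun q : INat M × INat M => (q.1, (sigi π (rho π i, (q.1, q.2))).2.2) ∈ t

theorem int_ts : IntF M (fun q : (Gm Z × X) × TS M => ts q.1.1 q.1.2 q.2) := by
  have h : IntF M (fun q : Gm Z × Cel M X => sigi q.1 q.2) := int_sigi
  have h' : IntF M (fun q : Gm Z × X => rho q.1 q.2) := int_rho
  unfold ts
  refine IntF.sep ?_
  (repeat' (first | with_reducible exact IntF.id | with_reducible exact IntF.fst' | with_reducible exact IntF.snd' | with_reducible exact IntF.const _ | with_reducible exact Int.const _ | assumption | with_reducible apply Int.and | with_reducible apply Int.or | with_reducible apply Int.not | with_reducible apply Int.imp | with_reducible apply Int.iff | with_reducible apply Int.ne | with_reducible apply Int.eq | with_reducible apply Int.mem | with_reducible apply Int.subset | with_reducible apply Int.ltN | with_reducible apply Int.leN | with_reducible_and_instances apply Int.le | with_reducible_and_instances apply Int.lt | with_reducible apply Int.all | with_reducible apply Int.ex | with_reducible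 apply IntF.fst | with_reducible apply IntF.snd | with_reducible apply IntF.app | with_reducible apply IntF.inl | with_reducible apply IntF.inr | with_reducible_and_instances apply IntF.mul | with_reducible_and_instances apply IntF.inv | with_reducible_and_instances apply IntF.add | with_reducible_and_instances apply IntF.sub | with_reducible_and_instances apply IntF.neg | with_reducible_and_instances apply IntF.smul | with_reducible apply Int.fin | with_reducible apply IntF.sep | with_reducible apply IntF.lam | with_reducible apply IntF.insert | with_reducible apply IntF.singleton | with_reducible apply IntF.union | with_reducible apply IntF.iimage | with_reducible apply IntF.ite | with_reducible apply IntF.the | with_reducible apply IntF.irec | with_reducible apply IntF.succ | with_reducible apply IntF.val | with_reducible apply IntF.mk | (with_reducible refine Int.comp ?_ ?_; assumption) | (with_reducible refine Int.comp₂ ?_ ?_ ?_; assumption) | (with_reducible refine Int.comp₃ ?_ ?_ ?_ ?_; assumption) | (with_reducible refine Int.comp₄ ?_ ?_ ?_ ?_ ?_; assumption) | (with_reducible refine IntF.comp ?_ ?_; assumption) | (with_reducible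 refine IntF.comp₂ ?_ ?_ ?_; assumption) | (with_reducible refine IntF.comp₃ ?_ ?_ ?_ ?_; assumption) | with_reducible apply IntF.pair))

theorem mem_ts {π : Gm Z} {i : X} {t : TS M} {k d : INat M} :
    (k, d) ∈ ts π i t ↔ (k, (sigi π (rho π i, (k, d))).2.2) ∈ t := by
  have h : IntF M (fun q : Gm Z × Cel M X => sigi q.1 q.2) := int_sigi
  have h' : IntF M (fun q : Gm Z × X => rho q.1 q.2) := int_rho
  exact mem_sep (p := fun q : INat M × INat M =>
    (q.1, (sigi π (rho π i, (q.1, q.2))).2.2) ∈ t) (by (repeat' (first | with_reducible exact IntF.id | with_reducible exact IntF.fst' | with_reducible exact IntF.snd' | with_reducible exact IntF.const _ | with_reducible exact Int.const _ | assumption | with_reducible apply Int.and | with_reducible apply Int.or | with_reducible apply Int.not | with_reducible apply Int.imp | with_reducible apply Int.iff | with_reducible apply Int.ne | with_reducible apply Int.eq | with_reducible apply Int.mem | with_reducible apply Int.subset | with_reducible apply Int.ltN | with_reducible apply Int.leN | with_reducible_and_instances apply Int.le | with_reducible_and_instances apply Int.lt | with_reducible apply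 Int.all | with_reducible apply Int.ex | with_reducible apply IntF.fst | with_reducible apply IntF.snd | with_reducible apply IntF.app | with_reducible apply IntF.inl | with_reducible apply IntF.inr | with_reducible_and_instances apply IntF.mul | with_reducible_and_instances apply IntF.inv | with_reducible_and_instances apply IntF.add | with_reducible_and_instances apply IntF.sub | with_reducible_and_instances apply IntF.neg | with_reducible_and_instances apply IntF.smul | with_reducible apply Int.fin | with_reducible apply IntF.sep | with_reducible apply IntF.lam | with_reducible apply IntF.insert | with_reducible apply IntF.singleton | with_reducible apply IntF.union | with_reducible apply IntF.iimage | with_reducible apply IntF.ite | with_reducible apply IntF.the | with_reducible apply IntF.irec | with_reducible apply IntF.succ | with_reducible apply IntF.val | with_reducible apply IntF.mk | (with_reducible refine Int.comp ?_ ?_; assumption) | (with_reducible refine Int.comp₂ ?_ ?_ ?_; assumption) | (with_reducible refine Int.comp₃ ?_ ?_ ?_ ?_; assumption) | (with_reducible refine Int.comp₄ ?_ ?_ ?_ ?_ ?_; assumption) | (with_reducible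 refine IntF.comp ?_ ?_; assumption) | (with_reducible refine IntF.comp₂ ?_ ?_ ?_; assumption) | (with_reducible refine IntF.comp₃ ?_ ?_ ?_ ?_; assumption) | with_reducible apply IntF.pair)))

theorem mem_ts_sig {π : Gm Z} {i : X} {t : TS M} {k d : INat M} :
    (k, (sig π (i, (k, d))).2.2) ∈ ts π i t ↔ (k, d) ∈ t := by
  rw [mem_ts]
  rw [cell_eq, sigi_sig]

theorem ts_surj (π : Gm Z) (i : X) (t : TS M) : ∃ t', ts π i t' = t := by
  have h : IntF M (fun q : Gm Z × Cel M X => sig q.1 q.2) := int_sig
  refine ⟨sep M fun q : INat M × INat M => (q.1, (sig π (i, (q.1, q.2))).2.2) ∈ t, IPow.ext' ?_⟩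
  rintro ⟨k, d⟩
  rw [mem_ts, mem_sep (by (repeat' (first | with_reducible exact IntF.id | with_reducible exact IntF.fst' | with_reducible exact IntF.snd' | with_reducible exact IntF.const _ | with_reducible exact Int.const _ | assumption | with_reducible apply Int.and | with_reducible apply Int.or | with_reducible apply Int.not | with_reducible apply Int.imp | with_reducible apply Int.iff | with_reducible apply Int.ne | with_reducible apply Int.eq | with_reducible apply Int.mem | with_reducible apply Int.subset | with_reducible apply Int.ltN | with_reducible apply Int.leN | with_reducible_and_instances apply Int.le | with_reducible_and_instances apply Int.lt | with_reducible apply Int.all | with_reducible apply Int.ex | with_reducible apply IntF.fst | with_reducible apply IntF.snd | with_reducible apply IntF.app | with_reducible apply IntF.inl | with_reducible apply IntF.inr | with_reducible_and_instances apply IntF.mul | with_reducible_and_instances apply IntF.inv | with_reducible_and_instances apply IntF.add | with_reducible_and_instances apply IntF.sub | with_reducible_and_instances apply IntF.neg | with_reducible_and_instances apply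 IntF.smul | with_reducible apply Int.fin | with_reducible apply IntF.sep | with_reducible apply IntF.lam | with_reducible apply IntF.insert | with_reducible apply IntF.singleton | with_reducible apply IntF.union | with_reducible apply IntF.iimage | with_reducible apply IntF.ite | with_reducible apply IntF.the | with_reducible apply IntF.irec | with_reducible apply IntF.succ | with_reducible apply IntF.val | with_reducible apply IntF.mk | (with_reducible refine Int.comp ?_ ?_; assumption) | (with_reducible refine Int.comp₂ ?_ ?_ ?_; assumption) | (with_reducible refine Int.comp₃ ?_ ?_ ?_ ?_; assumption) | (with_reducible refine Int.comp₄ ?_ ?_ ?_ ?_ ?_; assumption) | (with_reducible refine IntF.comp ?_ ?_; assumption) | (with_reducible refine IntF.comp₂ ?_ ?_ ?_; assumption) | (with_reducible refine IntF.comp₃ ?_ ?_ ?_ ?_; assumption) | with_reducible apply IntF.pair)))]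
  simp only
  rw [cell_eq', sig_sigi]

/-- The action on nodes. -/
noncomputable def th (π : Gm Z) : BN M X → BN M X
  | Sum.inl n => nat n
  | Sum.inr (Sum.inl (i, t)) => an (rho π i) (ts π i t)
  | Sum.inr (Sum.inr i) => cn (rho π i)

theorem th_nat (π : Gm Z) (n : INat M) : th π (nat n) = nat n := rfl
theorem th_an (π : Gm Z) (i : X) (t : TS M) : th π (an i t) = an (rho π i) (ts π i t) := rfl
theorem th_cn (π : Gm Z) (i : X) : th π (cn i) = cn (rho π i) := rfl

theorem int_th (π : Gm Z) : IntF M (th π) := by
  have h1 : IntF M (fun q : (Gm Z × X) × TS M => ts q.1.1 q.1.2 q.2) := int_ts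
  have h2 : IntF M (fun q : Gm Z × X => rho q.1 q.2) := int_rho
  refine IntF.of_rel (r := fun x y => (∃ n, x = nat n ∧ y = nat n) ∨
    (∃ i t, x = an i t ∧ y = an (rho π i) (ts π i t)) ∨
    (∃ i, x = cn i ∧ y = cn (rho π i))) (by (repeat' (first | with_reducible exact IntF.id | with_reducible exact IntF.fst' | with_reducible exact IntF.snd' | with_reducible exact IntF.const _ | with_reducible exact Int.const _ | assumption | with_reducible apply Int.and | with_reducible apply Int.or | with_reducible apply Int.not | with_reducible apply Int.imp | with_reducible apply Int.iff | with_reducible apply Int.ne | with_reducible apply Int.eq | with_reducible apply Int.mem | with_reducible apply Int.subset | with_reducible apply Int.ltN | with_reducible apply Int.leN | with_reducible_and_instances apply Int.le | with_reducible_and_instances apply Int.lt | with_reducible apply Int.all | with_reducible apply Int.ex | with_reducible apply IntF.fst | with_reducible apply IntF.snd | with_reducible apply IntF.app | with_reducible apply IntF.inl | with_reducible apply IntF.inr | with_reducible_and_instances apply IntF.mul | with_reducible_and_instances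 apply IntF.inv | with_reducible_and_instances apply IntF.add | with_reducible_and_instances apply IntF.sub | with_reducible_and_instances apply IntF.neg | with_reducible_and_instances apply IntF.smul | with_reducible apply Int.fin | with_reducible apply IntF.sep | with_reducible apply IntF.lam | with_reducible apply IntF.insert | with_reducible apply IntF.singleton | with_reducible apply IntF.union | with_reducible apply IntF.iimage | with_reducible apply IntF.ite | with_reducible apply IntF.the | with_reducible apply IntF.irec | with_reducible apply IntF.succ | with_reducible apply IntF.val | with_reducible apply IntF.mk | (with_reducible refine Int.comp ?_ ?_; assumption) | (with_reducible refine Int.comp₂ ?_ ?_ ?_; assumption) | (with_reducible refine Int.comp₃ ?_ ?_ ?_ ?_; assumption) | (with_reducible refine Int.comp₄ ?_ ?_ ?_ ?_ ?_; assumption) | (with_reducible refine IntF.comp ?_ ?_; assumption) | (with_reducible refine IntF.comp₂ ?_ ?_ ?_; assumption) | (with_reducible refine IntF.comp₃ ?_ ?_ ?_ ?_; assumption) | with_reducible apply IntF.pair))) fun x y => ?_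
  constructor
  · rintro (⟨n, rfl, rfl⟩ | ⟨i, t, rfl, rfl⟩ | ⟨n, rfl, rfl⟩) <;>
      rfl
  · rintro rfl
    rcases x with n | ⟨i, t⟩ | i
    · exact Or.inl ⟨n, rfl, rfl⟩
    · exact Or.inr (Or.inl ⟨i, t, rfl, rfl⟩)
    · exact Or.inr (Or.inr ⟨i, rfl, rfl⟩)

theorem BE_th (π : Gm Z) (a b : BN M X) (s : Co M X) :
    BE b s (th π a) ↔ ∃ a', th π a' = b ∧ tw π BE a' s a := by
  unfold tw
  rcases a with n | ⟨i, t⟩ | i
  · change BE b s (nat n) ↔ ∃ a', _ ∧ BE a' _ (nat n)
    simp only [BE_nat]
    constructor
    · rintro ⟨m, rfl, h⟩
      exact ⟨nat m, rfl, m, rfl, h⟩
    · rintro ⟨_, rfl, m, rfl, h⟩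
      exact ⟨m, rfl, h⟩
  · change BE b s (an (rho π i) (ts π i t)) ↔ ∃ a', _ ∧ BE a' _ (an i t)
    simp only [BE_an]
    constructor
    · rintro ⟨k, rfl, d, h1, h2⟩
      refine ⟨nat k, rfl, k, rfl, _, mem_ts.1 h1, ?_⟩
      rw [mem_smul', sigi_inv]
      rw [cell_eq', sig_sigi]
      exact h2
    · rintro ⟨_, rfl, k, rfl, d, h1, h2⟩
      refine ⟨k, rfl, (sig π (i, (k, d))).2.2, mem_ts_sig.2 h1, ?_⟩
      rw [mem_smul', sigi_inv] at h2
      rwa [cell_eq]
  · change BE b s (cn (rho π i)) ↔ ∃ a', _ ∧ BE a' _ (cn i)
    simp only [BE_cn]
    constructor
    · rintro ⟨t, rfl⟩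
      obtain ⟨t', rfl⟩ := ts_surj π i t
      exact ⟨an i t', rfl, t', rfl⟩
    · rintro ⟨_, rfl, t, rfl⟩
      exact ⟨ts π i t, rfl⟩

theorem feq_th (π : Gm Z) (p : Co M X) (a : BN M X) : FEq M (tw π BE) BE p a (th π a) :=
  feq_of_map (int_th π) (BE_th π) p a

theorem ts_of_U {E : FS M X} {π : Gm Z} (h : (SS Z).U E π) {i : X}
    (hi : i ∈ E.1) (t : TS M) : ts π i t = t := by
  refine IPow.ext' ?_
  rintro ⟨k, d⟩
  rw [mem_ts, rho_of_U h hi]
  have h1 := h (i, (k, d)) hi
  have h2 := sigi_sig π (i, (k, d))
  rw [h1] at h2
  rw [h2]

/-- The finite set with one element. -/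
noncomputable def fs1 (i : X) : FS M X := ⟨{i}, IFin.singleton i⟩

theorem mem_fs1 {i j : X} : j ∈ (fs1 i : FS M X).1 ↔ j = i := mem_singleton

theorem good_BE : Good (SS Z) (BE (M := M) (X := X)) := by
  refine ⟨ig_BE, wf_BE, ?_⟩
  rintro (n | ⟨i, t⟩ | i)
  · exact ⟨⟨∅, IFin.empty⟩, fun π _ p => feq_th π p (nat n)⟩
  · refine ⟨fs1 i, fun π hπ p => ?_⟩
    have h := feq_th π p (an i t)
    rw [th_an, rho_of_U hπ (mem_fs1.2 rfl), ts_of_U hπ (mem_fs1.2 rfl)] at h
    exact h
  · refine ⟨fs1 i, fun π hπ p => ?_⟩
    have h := feq_th π p (cn i)
    rw [th_cn, rho_of_U hπ (mem_fs1.2 rfl)] at h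
    exact h

/-! ### Equality of nodes -/

theorem feq_nat {p : Co M X} {m n : INat M} (h : FEq M BE BE p (nat m) (nat n)) : m = n := by
  have hI := (ig_BE (M := M) (X := X)).feq ig_BE
  by_contra hmn
  have hP : Int M (fun m : INat M => ∃ (n : INat M) (p : Co M X),
      FEq M BE BE p (nat m) (nat n) ∧ m ≠ n) := by
    (repeat' (first | with_reducible exact IntF.id | with_reducible exact IntF.fst' | with_reducible exact IntF.snd' | with_reducible exact IntF.const _ | with_reducible exact Int.const _ | assumption | with_reducible apply Int.and | with_reducible apply Int.or | with_reducible apply Int.not | with_reducible apply Int.imp | with_reducible apply Int.iff | with_reducible apply Int.ne | with_reducible apply Int.eq | with_reducible apply Int.mem | with_reducible apply Int.subset | with_reducible apply Int.ltN | with_reducible apply Int.leN | with_reducible_and_instances apply Int.le | with_reducible_and_instances apply Int.lt | with_reducible apply Int.all | with_reducible apply Int.ex | with_reducible apply IntF.fst | with_reducible apply IntF.snd | with_reducible apply IntF.app | with_reducible apply IntF.inl | with_reducible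 apply IntF.inr | with_reducible_and_instances apply IntF.mul | with_reducible_and_instances apply IntF.inv | with_reducible_and_instances apply IntF.add | with_reducible_and_instances apply IntF.sub | with_reducible_and_instances apply IntF.neg | with_reducible_and_instances apply IntF.smul | with_reducible apply Int.fin | with_reducible apply IntF.sep | with_reducible apply IntF.lam | with_reducible apply IntF.insert | with_reducible apply IntF.singleton | with_reducible apply IntF.union | with_reducible apply IntF.iimage | with_reducible apply IntF.ite | with_reducible apply IntF.the | with_reducible apply IntF.irec | with_reducible apply IntF.succ | with_reducible apply IntF.val | with_reducible apply IntF.mk | (with_reducible refine Int.comp ?_ ?_; assumption) | (with_reducible refine Int.comp₂ ?_ ?_ ?_; assumption) | (with_reducible refine Int.comp₃ ?_ ?_ ?_ ?_; assumption) | (with_reducible refine Int.comp₄ ?_ ?_ ?_ ?_ ?_; assumption) | (with_reducible refine IntF.comp ?_ ?_; assumption) | (with_reducible refine IntF.comp₂ ?_ ?_ ?_; assumption) | (with_reducible refine IntF.comp₃ ?_ ?_ ?_ ?_; assumption) | with_reducible apply IntF.pair))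
  obtain ⟨m, ⟨n, p, h, hmn⟩, hmin⟩ := INat.exists_least hP ⟨m, n, p, h, hmn⟩
  obtain ⟨h1, h2⟩ := (feq_iff ig_BE ig_BE).1 h
  rcases lt_or_gt_of_ne hmn with hlt | hlt
  · obtain ⟨r, -, b, s, hb, -, h3⟩ := h2 (nat m) p (BE_nat.2 ⟨m, rfl, hlt⟩) p le_rfl le_rfl p le_rfl
    obtain ⟨m', rfl, hm'⟩ := BE_nat.1 hb
    refine absurd (hmin m' ⟨m, r, h3.symm ig_BE ig_BE, hm'.ne⟩) (not_le.2 hm')
  · obtain ⟨r, -, b, s, hb, -, h3⟩ := h1 (nat n) p (BE_nat.2 ⟨n, rfl, hlt⟩) p le_rfl le_rfl p le_rfl
    obtain ⟨n', rfl, hn'⟩ := BE_nat.1 hb
    refine absurd (hmin n ⟨n', r, h3, hn'.ne'⟩) (not_le.2 hlt)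

/-- A finite condition leaves a row free. -/
theorem exists_free (p : Co M X) : ∃ k : INat M, ∀ i d, ¬ (i, (k, d)) ∈ p.1 := by
  have h1 : IFin (iimage (fun c : Cel M X => c.2.1) p.1) := p.2.2.image (by (repeat' (first | with_reducible exact IntF.id | with_reducible exact IntF.fst' | with_reducible exact IntF.snd' | with_reducible exact IntF.const _ | with_reducible exact Int.const _ | assumption | with_reducible apply Int.and | with_reducible apply Int.or | with_reducible apply Int.not | with_reducible apply Int.imp | with_reducible apply Int.iff | with_reducible apply Int.ne | with_reducible apply Int.eq | with_reducible apply Int.mem | with_reducible apply Int.subset | with_reducible apply Int.ltN | with_reducible apply Int.leN | with_reducible_and_instances apply Int.le | with_reducible_and_instances apply Int.lt | with_reducible apply Int.all | with_reducible apply Int.ex | with_reducible apply IntF.fst | with_reducible apply IntF.snd | with_reducible apply IntF.app | with_reducible apply IntF.inl | with_reducible apply IntF.inr | with_reducible_and_instances apply IntF.mul | with_reducible_and_instances apply IntF.inv | with_reducible_and_instances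 apply IntF.add | with_reducible_and_instances apply IntF.sub | with_reducible_and_instances apply IntF.neg | with_reducible_and_instances apply IntF.smul | with_reducible apply Int.fin | with_reducible apply IntF.sep | with_reducible apply IntF.lam | with_reducible apply IntF.insert | with_reducible apply IntF.singleton | with_reducible apply IntF.union | with_reducible apply IntF.iimage | with_reducible apply IntF.ite | with_reducible apply IntF.the | with_reducible apply IntF.irec | with_reducible apply IntF.succ | with_reducible apply IntF.val | with_reducible apply IntF.mk | (with_reducible refine Int.comp ?_ ?_; assumption) | (with_reducible refine Int.comp₂ ?_ ?_ ?_; assumption) | (with_reducible refine Int.comp₃ ?_ ?_ ?_ ?_; assumption) | (with_reducible refine Int.comp₄ ?_ ?_ ?_ ?_ ?_; assumption) | (with_reducible refine IntF.comp ?_ ?_; assumption) | (with_reducible refine IntF.comp₂ ?_ ?_ ?_; assumption) | (with_reducible refine IntF.comp₃ ?_ ?_ ?_ ?_; assumption) | with_reducible apply IntF.pair)))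
  obtain ⟨n, hn⟩ := IFin.exists_bound (r := fun m n : INat M => m ≤ n) (by (repeat' (first | with_reducible exact IntF.id | with_reducible exact IntF.fst' | with_reducible exact IntF.snd' | with_reducible exact IntF.const _ | with_reducible exact Int.const _ | assumption | with_reducible apply Int.and | with_reducible apply Int.or | with_reducible apply Int.not | with_reducible apply Int.imp | with_reducible apply Int.iff | with_reducible apply Int.ne | with_reducible apply Int.eq | with_reducible apply Int.mem | with_reducible apply Int.subset | with_reducible apply Int.ltN | with_reducible apply Int.leN | with_reducible_and_instances apply Int.le | with_reducible_and_instances apply Int.lt | with_reducible apply Int.all | with_reducible apply Int.ex | with_reducible apply IntF.fst | with_reducible apply IntF.snd | with_reducible apply IntF.app | with_reducible apply IntF.inl | with_reducible apply IntF.inr | with_reducible_and_instances apply IntF.mul | with_reducible_and_instances apply IntF.inv | with_reducible_and_instances apply IntF.add | with_reducible_and_instances apply IntF.sub | with_reducible_and_instances apply IntF.neg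 | with_reducible_and_instances apply IntF.smul | with_reducible apply Int.fin | with_reducible apply IntF.sep | with_reducible apply IntF.lam | with_reducible apply IntF.insert | with_reducible apply IntF.singleton | with_reducible apply IntF.union | with_reducible apply IntF.iimage | with_reducible apply IntF.ite | with_reducible apply IntF.the | with_reducible apply IntF.irec | with_reducible apply IntF.succ | with_reducible apply IntF.val | with_reducible apply IntF.mk | (with_reducible refine Int.comp ?_ ?_; assumption) | (with_reducible refine Int.comp₂ ?_ ?_ ?_; assumption) | (with_reducible refine Int.comp₃ ?_ ?_ ?_ ?_; assumption) | (with_reducible refine Int.comp₄ ?_ ?_ ?_ ?_ ?_; assumption) | (with_reducible refine IntF.comp ?_ ?_; assumption) | (with_reducible refine IntF.comp₂ ?_ ?_ ?_; assumption) | (with_reducible refine IntF.comp₃ ?_ ?_ ?_ ?_; assumption) | with_reducible apply IntF.pair)))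
    (fun b c => ⟨max b c, fun a ha => ha.elim (fun h => h.trans (le_max_left _ _))
      fun h => h.trans (le_max_right _ _)⟩) ⟨0⟩ h1 fun a _ => ⟨a, le_rfl⟩
  refine ⟨n.succ, fun i d h => ?_⟩
  have h2 := hn n.succ ((mem_iimage (by (repeat' (first | with_reducible exact IntF.id | with_reducible exact IntF.fst' | with_reducible exact IntF.snd' | with_reducible exact IntF.const _ | with_reducible exact Int.const _ | assumption | with_reducible apply Int.and | with_reducible apply Int.or | with_reducible apply Int.not | with_reducible apply Int.imp | with_reducible apply Int.iff | with_reducible apply Int.ne | with_reducible apply Int.eq | with_reducible apply Int.mem | with_reducible apply Int.subset | with_reducible apply Int.ltN | with_reducible apply Int.leN | with_reducible_and_instances apply Int.le | with_reducible_and_instances apply Int.lt | with_reducible apply Int.all | with_reducible apply Int.ex | with_reducible apply IntF.fst | with_reducible apply IntF.snd | with_reducible apply IntF.app | with_reducible apply IntF.inl | with_reducible apply IntF.inr | with_reducible_and_instances apply IntF.mul | with_reducible_and_instances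 apply IntF.inv | with_reducible_and_instances apply IntF.add | with_reducible_and_instances apply IntF.sub | with_reducible_and_instances apply IntF.neg | with_reducible_and_instances apply IntF.smul | with_reducible apply Int.fin | with_reducible apply IntF.sep | with_reducible apply IntF.lam | with_reducible apply IntF.insert | with_reducible apply IntF.singleton | with_reducible apply IntF.union | with_reducible apply IntF.iimage | with_reducible apply IntF.ite | with_reducible apply IntF.the | with_reducible apply IntF.irec | with_reducible apply IntF.succ | with_reducible apply IntF.val | with_reducible apply IntF.mk | (with_reducible refine Int.comp ?_ ?_; assumption) | (with_reducible refine Int.comp₂ ?_ ?_ ?_; assumption) | (with_reducible refine Int.comp₃ ?_ ?_ ?_ ?_; assumption) | (with_reducible refine Int.comp₄ ?_ ?_ ?_ ?_ ?_; assumption) | (with_reducible refine IntF.comp ?_ ?_; assumption) | (with_reducible refine IntF.comp₂ ?_ ?_ ?_; assumption) | (with_reducible refine IntF.comp₃ ?_ ?_ ?_ ?_; assumption) | with_reducible apply IntF.pair)))).2 ⟨_, h, rfl⟩)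
  exact absurd (INat.succ_le_iff.1 h2) (lt_irrefl n)

/-- Adding a cell. -/
theorem exists_add (p : Co M X) {i : X} {k : INat M} (h : ∀ d, ¬ (i, (k, d)) ∈ p.1)
    (d : INat M) : ∃ q, q ≤ p ∧ (i, (k, d)) ∈ q.1 ∧ ∀ c, c ∈ q.1 → c ∈ p.1 ∨ c = (i, (k, d)) := by
  refine ⟨⟨insert (i, (k, d)) p.1, ?_, p.2.2.insert _⟩, fun c hc => mem_insert.2 (Or.inr hc),
    mem_insert.2 (Or.inl rfl), fun c hc => (mem_insert.1 hc).symm⟩
  intro j l e e' he he'
  rcases mem_insert.1 he with he | he <;> rcases mem_insert.1 he' with he' | he'
  · cases he
    cases he'
    rfl
  · cases he
    exact absurd he' (h _)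
  · cases he'
    exact absurd he (h _)
  · exact p.2.1 _ _ _ _ he he'

theorem feq_an {p : Co M X} {i j : X} (hij : i ≠ j)
    {t t₀ : TS M} (ht₀ : ∀ k d, (k, d) ∈ t₀ ↔ d = 0) :
    ¬ FEq M BE BE p (an i t₀) (an j t) := by
  intro h
  obtain ⟨k, hk⟩ := exists_free p
  have hne : ∀ d d' : INat M, ((i, (k, d)) : Cel M X) ≠ (j, (k, d')) := by
    intro d d' h
    exact hij (congrArg Prod.fst h)
  by_cases he : ∃ e, (k, e) ∈ t
  · obtain ⟨e, he⟩ := he
    obtain ⟨q, hq, h4, h5⟩ := exists_add p (hk i) (INat.succ (0 : INat M))
    obtain ⟨q', hq', h6, -⟩ := exists_add q (i := j) (k := k) (fun d hd => by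
      rcases h5 _ hd with h7 | h7
      · exact hk _ _ h7
      · exact hne _ _ h7.symm) e
    obtain ⟨-, h2⟩ := (feq_iff ig_BE ig_BE).1 h
    obtain ⟨r, hr, b, s, hb, hs, h7⟩ := h2 (nat k) q' (BE_an.2 ⟨_, rfl, e, he, h6⟩) q'
      (hq'.trans hq) le_rfl q' le_rfl
    obtain ⟨k', rfl, d, h8, h9⟩ := BE_an.1 hb
    obtain rfl := feq_nat h7
    rw [ht₀] at h8
    subst h8
    exact INat.succ_ne_zero _ (r.2.1 _ _ _ _ (hr _ (hq' _ h4)) (hs _ h9))
  · obtain ⟨q, hq, h4, -⟩ := exists_add p (hk i) (0 : INat M)
    obtain ⟨h2, -⟩ := (feq_iff ig_BE ig_BE).1 h
    obtain ⟨r, hr, b, s, hb, hs, h6⟩ := h2 (nat k) q (BE_an.2 ⟨_, rfl, 0,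
      (ht₀ _ _).2 rfl, h4⟩) q hq le_rfl q le_rfl
    obtain ⟨k', rfl, d, h7, h8⟩ := BE_an.1 hb
    obtain rfl := feq_nat h6
    exact he ⟨d, h7⟩

theorem feq_cn {p : Co M X} {i j : X} (h : FEq M BE BE p (cn i) (cn j)) : i = j := by
  by_contra hij
  obtain ⟨h1, -⟩ := (feq_iff ig_BE ig_BE).1 h
  have hI : Int M (fun q : INat M × INat M => q.2 = 0) := by (repeat' (first | with_reducible exact IntF.id | with_reducible exact IntF.fst' | with_reducible exact IntF.snd' | with_reducible exact IntF.const _ | with_reducible exact Int.const _ | assumption | with_reducible apply Int.and | with_reducible apply Int.or | with_reducible apply Int.not | with_reducible apply Int.imp | with_reducible apply Int.iff | with_reducible apply Int.ne | with_reducible apply Int.eq | with_reducible apply Int.mem | with_reducible apply Int.subset | with_reducible apply Int.ltN | with_reducible apply Int.leN | with_reducible_and_instances apply Int.le | with_reducible_and_instances apply Int.lt | with_reducible apply Int.all | with_reducible apply Int.ex | with_reducible apply IntF.fst | with_reducible apply IntF.snd | with_reducible apply IntF.app | with_reducible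 apply IntF.inl | with_reducible apply IntF.inr | with_reducible_and_instances apply IntF.mul | with_reducible_and_instances apply IntF.inv | with_reducible_and_instances apply IntF.add | with_reducible_and_instances apply IntF.sub | with_reducible_and_instances apply IntF.neg | with_reducible_and_instances apply IntF.smul | with_reducible apply Int.fin | with_reducible apply IntF.sep | with_reducible apply IntF.lam | with_reducible apply IntF.insert | with_reducible apply IntF.singleton | with_reducible apply IntF.union | with_reducible apply IntF.iimage | with_reducible apply IntF.ite | with_reducible apply IntF.the | with_reducible apply IntF.irec | with_reducible apply IntF.succ | with_reducible apply IntF.val | with_reducible apply IntF.mk | (with_reducible refine Int.comp ?_ ?_; assumption) | (with_reducible refine Int.comp₂ ?_ ?_ ?_; assumption) | (with_reducible refine Int.comp₃ ?_ ?_ ?_ ?_; assumption) | (with_reducible refine Int.comp₄ ?_ ?_ ?_ ?_ ?_; assumption) | (with_reducible refine IntF.comp ?_ ?_; assumption) | (with_reducible refine IntF.comp₂ ?_ ?_ ?_; assumption) | (with_reducible refine IntF.comp₃ ?_ ?_ ?_ ?_; assumption)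 | with_reducible apply IntF.pair))
  obtain ⟨r, hr, b, s, hb, hs, h6⟩ := h1 (an i (sep M fun q : INat M × INat M => q.2 = 0)) p
    (BE_cn.2 ⟨_, rfl⟩) p le_rfl le_rfl p le_rfl
  obtain ⟨t, rfl⟩ := BE_cn.1 hb
  exact feq_an hij (fun k d => mem_sep hI) h6

end Pool.Agent.Helper672.ZFA.H310M
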