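import Pool.Agent.H310R3.PM2

/-!
# Permutation models: homogeneity, supports and families
-/

set_option maxHeartbeats 1000000
set_option linter.all false
set_option synthInstance.maxSize 2000

namespace Pool.Agent.Helper672.ZFA.H310M

open FirstOrder FirstOrder.Language
open Pool.Agent.Helper672.ZFA.H635 (IPerm SymSys IG WFI FEq FMem tw Good feq_of_map feq_iff IsGen
  nd nd_eq mem_nd mem_nd_nd exists_mk mk_eq_nd EqFam NN fmem_tw feq_tw tw_tw_inv SymQ extG good_extG
  mem_nd_inr feq_equivQ nn_ext)
open Pool.Agent.Helper672.Plain (LSet)

universe u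

variable {M : Type u} [L.Structure M] [hM : IsModel M] {X : Type u} [ITy M X] {Z : PGr M X}

/-- Construction of automorphisms. -/
theorem exists_gm {g : IPerm M X} (hg : g ∈ Z.H)
    {τ : X → INat M → INat M → INat M}
    (hτ : IntF M (fun q : (X × INat M) × INat M => τ q.1.1 q.1.2 q.2))
    (h5 : ∀ i k d, τ i k (τ i k d) = d) :
    ∃ π : Gm Z, π.1.1 = g ∧ (∀ i k d, sig π (i, (k, d)) = (g.1.1 i, (k, τ i k d))) ∧
      ∀ i k d, sigi π (i, (k, d)) = (g.1.2 i, (k, τ (g.1.2 i) k d)) := by
  have h6 : IntF M (fun c : Cel M X => (g.1.1 c.1, (c.2.1, τ c.1 c.2.1 c.2.2))) := by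
    (repeat' (first | with_reducible exact IntF.id | with_reducible exact IntF.fst' | with_reducible exact IntF.snd' | with_reducible exact IntF.const _ | with_reducible exact Int.const _ | assumption | with_reducible apply Int.and | with_reducible apply Int.or | with_reducible apply Int.not | with_reducible apply Int.imp | with_reducible apply Int.iff | with_reducible apply Int.ne | with_reducible apply Int.eq | with_reducible apply Int.mem | with_reducible apply Int.subset | with_reducible apply Int.ltN | with_reducible apply Int.leN | with_reducible_and_instances apply Int.le | with_reducible_and_instances apply Int.lt | with_reducible apply Int.all | with_reducible apply Int.ex | with_reducible apply IntF.fst | with_reducible apply IntF.snd | with_reducible apply IntF.app | with_reducible apply IntF.inl | with_reducible apply IntF.inr | with_reducible_and_instances apply IntF.mul | with_reducible_and_instances apply IntF.inv | with_reducible_and_instances apply IntF.add | with_reducible_and_instances apply IntF.sub | with_reducible_and_instances apply IntF.neg | with_reducible_and_instances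 apply IntF.smul | with_reducible apply Int.fin | with_reducible apply IntF.sep | with_reducible apply IntF.lam | with_reducible apply IntF.insert | with_reducible apply IntF.singleton | with_reducible apply IntF.union | with_reducible apply IntF.iimage | with_reducible apply IntF.ite | with_reducible apply IntF.the | with_reducible apply IntF.irec | with_reducible apply IntF.succ | with_reducible apply IntF.val | with_reducible apply IntF.mk | (with_reducible refine Int.comp ?_ ?_; assumption) | (with_reducible refine Int.comp₂ ?_ ?_ ?_; assumption) | (with_reducible refine Int.comp₃ ?_ ?_ ?_ ?_; assumption) | (with_reducible refine Int.comp₄ ?_ ?_ ?_ ?_ ?_; assumption) | (with_reducible refine IntF.comp ?_ ?_; assumption) | (with_reducible refine IntF.comp₂ ?_ ?_ ?_; assumption) | (with_reducible refine IntF.comp₃ ?_ ?_ ?_ ?_; assumption) | with_reducible apply IntF.pair))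
  have h7 : IntF M (fun c : Cel M X => (g.1.2 c.1, (c.2.1, τ (g.1.2 c.1) c.2.1 c.2.2))) := by
    (repeat' (first | with_reducible exact IntF.id | with_reducible exact IntF.fst' | with_reducible exact IntF.snd' | with_reducible exact IntF.const _ | with_reducible exact Int.const _ | assumption | with_reducible apply Int.and | with_reducible apply Int.or | with_reducible apply Int.not | with_reducible apply Int.imp | with_reducible apply Int.iff | with_reducible apply Int.ne | with_reducible apply Int.eq | with_reducible apply Int.mem | with_reducible apply Int.subset | with_reducible apply Int.ltN | with_reducible apply Int.leN | with_reducible_and_instances apply Int.le | with_reducible_and_instances apply Int.lt | with_reducible apply Int.all | with_reducible apply Int.ex | with_reducible apply IntF.fst | with_reducible apply IntF.snd | with_reducible apply IntF.app | with_reducible apply IntF.inl | with_reducible apply IntF.inr | with_reducible_and_instances apply IntF.mul | with_reducible_and_instances apply IntF.inv | with_reducible_and_instances apply IntF.add | with_reducible_and_instances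 apply IntF.sub | with_reducible_and_instances apply IntF.neg | with_reducible_and_instances apply IntF.smul | with_reducible apply Int.fin | with_reducible apply IntF.sep | with_reducible apply IntF.lam | with_reducible apply IntF.insert | with_reducible apply IntF.singleton | with_reducible apply IntF.union | with_reducible apply IntF.iimage | with_reducible apply IntF.ite | with_reducible apply IntF.the | with_reducible apply IntF.irec | with_reducible apply IntF.succ | with_reducible apply IntF.val | with_reducible apply IntF.mk | (with_reducible refine Int.comp ?_ ?_; assumption) | (with_reducible refine Int.comp₂ ?_ ?_ ?_; assumption) | (with_reducible refine Int.comp₃ ?_ ?_ ?_ ?_; assumption) | (with_reducible refine Int.comp₄ ?_ ?_ ?_ ?_ ?_; assumption) | (with_reducible refine IntF.comp ?_ ?_; assumption) | (with_reducible refine IntF.comp₂ ?_ ?_ ?_; assumption) | (with_reducible refine IntF.comp₃ ?_ ?_ ?_ ?_; assumption) | with_reducible apply IntF.pair))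
  have e1 : ∀ i, g.1.1 (g.1.2 i) = i := g.2.1
  have e2 : ∀ i, g.1.2 (g.1.1 i) = i := g.2.2
  refine ⟨⟨(g, ⟨(⟨_, h6⟩, ⟨_, h7⟩), fun c => ?_, fun c => ?_⟩), ?_⟩, rfl, fun i k d => rfl,
    fun i k d => rfl⟩
  · exact Prod.ext (e1 _) (Prod.ext rfl (h5 _ _ _))
  · refine Prod.ext (e2 _) (Prod.ext rfl ?_)
    change τ (g.1.2 (g.1.1 c.1)) c.2.1 (τ c.1 c.2.1 c.2.2) = c.2.2
    rw [e2, h5]
  · exact ⟨fun c => ⟨rfl, rfl⟩, hg⟩

/-- The relation of the exchange of the values of a condition at `i` and `j`. -/
def swR (q : Co M X) (i j : X) (k : INat M) (d d' : INat M) : Prop :=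
  (∃ e e', (i, (k, e)) ∈ q.1 ∧ (j, (k, e')) ∈ q.1 ∧ ((d = e ∧ d' = e') ∨ (d = e' ∧ d' = e))) ∨
  ((¬ ∃ e e', (i, (k, e)) ∈ q.1 ∧ (j, (k, e')) ∈ q.1 ∧ (d = e ∨ d = e')) ∧ d' = d)

theorem swR_exists (q : Co M X) (i j : X) (k : INat M) (d : INat M) : ∃ d', swR q i j k d d' := by
  by_cases h : ∃ e e', (i, (k, e)) ∈ q.1 ∧ (j, (k, e')) ∈ q.1 ∧ (d = e ∨ d = e')
  · obtain ⟨e, e', h1, h2, rfl | rfl⟩ := h
    · exact ⟨e', Or.inl ⟨_, _, h1, h2, Or.inl ⟨rfl, rfl⟩⟩⟩
    · exact ⟨e, Or.inl ⟨_, _, h1, h2, Or.inr ⟨rfl, rfl⟩⟩⟩
  · exact ⟨d, Or.inr ⟨h, rfl⟩⟩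

theorem swR_unique {q : Co M X} {i j : X} {k : INat M} {d d' d'' : INat M} (h : swR q i j k d d')
    (h' : swR q i j k d d'') : d' = d'' := by
  have hq := q.2.1
  rcases h with ⟨e, e', h1, h2, h3⟩ | ⟨h1, rfl⟩
  · rcases h' with ⟨f, f', h4, h5, h6⟩ | ⟨h4, -⟩
    · obtain rfl := hq _ _ _ _ h1 h4
      obtain rfl := hq _ _ _ _ h2 h5
      rcases h3 with ⟨rfl, rfl⟩ | ⟨rfl, rfl⟩
      · rcases h6 with ⟨_, rfl⟩ | ⟨rfl, rfl⟩ <;> rfl
      · rcases h6 with ⟨rfl, rfl⟩ | ⟨_, rfl⟩ <;> rfl
    · refine absurd ⟨e, e', h1, h2, ?_⟩ h4
      rcases h3 with ⟨h, -⟩ | ⟨h, -⟩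
      · exact Or.inl h
      · exact Or.inr h
  · rcases h' with ⟨f, f', h4, h5, h6⟩ | ⟨h4, rfl⟩
    · refine absurd ⟨f, f', h4, h5, ?_⟩ h1
      rcases h6 with ⟨h, -⟩ | ⟨h, -⟩
      · exact Or.inl h
      · exact Or.inr h
    · rfl

theorem swR_symm {q : Co M X} {i j : X} {k : INat M} {d d' : INat M} (h : swR q i j k d d') :
    swR q i j k d' d := by
  rcases h with ⟨e, e', h1, h2, h3⟩ | ⟨h1, rfl⟩
  · refine Or.inl ⟨e, e', h1, h2, ?_⟩
    rcases h3 with ⟨rfl, rfl⟩ | ⟨rfl, rfl⟩
    · exact Or.inr ⟨rfl, rfl⟩
    · exact Or.inl ⟨rfl, rfl⟩
  · exact Or.inr ⟨h1, rfl⟩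

/-- Automorphisms that move the generic elements. -/
theorem exists_move (q : Co M X) {E : FS M X} {g : IPerm M X} (hg : g ∈ Z.H)
    (hE : ∀ x, x ∈ E.1 → g.1.1 x = x) :
    ∃ π : Gm Z, (SS Z).U E π ∧ π.1.1 = g ∧ ∃ r, r ≤ q ∧ r ≤ π • q := by
  choose τ hτ using fun (i : X) => swR_exists q i (g.1.1 i)
  have hτi : IntF M (fun q : (X × INat M) × INat M => τ q.1.1 q.1.2 q.2) := by
    refine IntF.of_unique (p := fun (c : (X × INat M) × INat M) d' =>
      swR q c.1.1 (g.1.1 c.1.1) c.1.2 c.2 d') ?_ (fun c => hτ _ _ _)
      fun c a b => swR_unique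
    unfold swR
    (repeat' (first | with_reducible exact IntF.id | with_reducible exact IntF.fst' | with_reducible exact IntF.snd' | with_reducible exact IntF.const _ | with_reducible exact Int.const _ | assumption | with_reducible apply Int.and | with_reducible apply Int.or | with_reducible apply Int.not | with_reducible apply Int.imp | with_reducible apply Int.iff | with_reducible apply Int.ne | with_reducible apply Int.eq | with_reducible apply Int.mem | with_reducible apply Int.subset | with_reducible apply Int.ltN | with_reducible apply Int.leN | with_reducible_and_instances apply Int.le | with_reducible_and_instances apply Int.lt | with_reducible apply Int.all | with_reducible apply Int.ex | with_reducible apply IntF.fst | with_reducible apply IntF.snd | with_reducible apply IntF.app | with_reducible apply IntF.inl | with_reducible apply IntF.inr | with_reducible_and_instances apply IntF.mul | with_reducible_and_instances apply IntF.inv | with_reducible_and_instances apply IntF.add | with_reducible_and_instances apply IntF.sub | with_reducible_and_instances apply IntF.neg | with_reducible_and_instances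 apply IntF.smul | with_reducible apply Int.fin | with_reducible apply IntF.sep | with_reducible apply IntF.lam | with_reducible apply IntF.insert | with_reducible apply IntF.singleton | with_reducible apply IntF.union | with_reducible apply IntF.iimage | with_reducible apply IntF.ite | with_reducible apply IntF.the | with_reducible apply IntF.irec | with_reducible apply IntF.succ | with_reducible apply IntF.val | with_reducible apply IntF.mk | (with_reducible refine Int.comp ?_ ?_; assumption) | (with_reducible refine Int.comp₂ ?_ ?_ ?_; assumption) | (with_reducible refine Int.comp₃ ?_ ?_ ?_ ?_; assumption) | (with_reducible refine Int.comp₄ ?_ ?_ ?_ ?_ ?_; assumption) | (with_reducible refine IntF.comp ?_ ?_; assumption) | (with_reducible refine IntF.comp₂ ?_ ?_ ?_; assumption) | (with_reducible refine IntF.comp₃ ?_ ?_ ?_ ?_; assumption) | with_reducible apply IntF.pair))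
  have hττ : ∀ i k d, τ i k (τ i k d) = d := by
    intro i k d
    exact swR_unique (hτ i k (τ i k d)) (swR_symm (hτ i k d))
  obtain ⟨π, e1, e2, e3⟩ := exists_gm hg hτi hττ
  have hq := q.2.1
  have g1 : ∀ i, g.1.1 (g.1.2 i) = i := g.2.1
  refine ⟨π, ?_, e1, ?_⟩
  · rintro ⟨i', k, d⟩ hc
    have h5 := hτ i' k d
    rw [hE i' hc] at h5
    have h6 : τ i' k d = d := by
      rcases h5 with ⟨e, e', h5, h6, h7⟩ | ⟨-, h5⟩
      · obtain rfl := hq _ _ _ _ h5 h6
        rcases h7 with ⟨h7, h8⟩ | ⟨h7, h8⟩
        · exact h8.trans h7.symm
        · exact h8.trans h7.symm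
      · exact h5
    rw [e2, hE i' hc, h6]
  · have key : ∀ i k d d', (i, (k, d)) ∈ q.1 → (i, (k, d')) ∈ (π • q).1 → d = d' := by
      intro i k d d' hd hd'
      rw [mem_smul', e3] at hd'
      have h5 := hτ (g.1.2 i) k d'
      rw [g1] at h5
      rcases h5 with ⟨e, e', h5, h6, h7⟩ | ⟨h5, h6⟩
      · obtain rfl := hq _ _ _ _ hd h6
        obtain h8 := hq _ _ _ _ hd' h5
        rcases h7 with ⟨h7, h9⟩ | ⟨h7, h9⟩
        · rw [h7, ← h8, h9]
        · exact h7.symm
      · rw [h6] at hd'
        exact absurd ⟨d', d, hd', hd, Or.inl rfl⟩ h5
    refine ⟨⟨q.1 ∪ (π • q).1, ?_, q.2.2.union (π • q).2.2⟩, ?_, ?_⟩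
    · intro i' k d d' hd hd'
      rcases mem_union.1 hd with hd | hd
      · rcases mem_union.1 hd' with hd' | hd'
        · exact hq _ _ _ _ hd hd'
        · exact key _ _ _ _ hd hd'
      · rcases mem_union.1 hd' with hd' | hd'
        · exact (key _ _ _ _ hd' hd).symm
        · exact (π • q).2.1 _ _ _ _ hd hd'
    · exact fun c hc => mem_union.2 (Or.inl hc)
    · exact fun c hc => mem_union.2 (Or.inr hc)

/-! ### In the extension -/

section ext

variable {G : Set (Co M X)} (hG : IsGen M G)

variable (Z) in
/-- The generic elements. -/
noncomputable def cc (i : X) : NN (SS Z) hG := nd hG good_BE (cn i)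

variable (Z) in
/-- The natural numbers. -/
noncomputable def nn (n : INat M) : NN (SS Z) hG := nd hG good_BE (nat n : BN M X)

theorem cc_inj {i j : X} : cc Z hG i = cc Z hG j ↔ i = j := by
  refine ⟨fun h => ?_, fun h => h ▸ rfl⟩
  obtain ⟨p, -, h1⟩ := (nd_eq hG _ _).1 h
  exact feq_cn h1

theorem nn_inj {m n : INat M} : nn Z hG m = nn Z hG n ↔ m = n := by
  refine ⟨fun h => ?_, fun h => h ▸ rfl⟩
  obtain ⟨p, -, h1⟩ := (nd_eq hG _ _).1 h
  exact feq_nat h1

theorem mem_nn {w : NN (SS Z) hG} {n : INat M} :
    Plain.Mem w (nn Z hG n) ↔ ∃ m, m < n ∧ w = nn Z hG m := by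
  unfold nn
  rw [mem_nd]
  constructor
  · rintro ⟨a, s, hs, h, rfl⟩
    obtain ⟨m, rfl, h1⟩ := BE_nat.1 h
    exact ⟨m, h1, rfl⟩
  · rintro ⟨m, h, rfl⟩
    obtain ⟨p, hp⟩ := hG.ne
    exact ⟨_, p, hp, BE_nat.2 ⟨m, rfl, h⟩, rfl⟩

variable (Z) in
/-- Families that are equivariant for an action of the permutations of `X`. -/
def EF {ε : Type u} [ITy M ε] (a : IPerm M X → ε → ε) (f : ε → NN (SS Z) hG) : Prop :=
  EqFam hG (fun (π : Gm Z) => a π.1.1) f

theorem ef_cc : EF Z hG (fun g i => g.1.1 i) (fun i => cc Z hG i) := by
  refine ⟨BN M X, _, BE, good_BE, fun i => cn i, by (repeat' (first | with_reducible exact IntF.id | with_reducible exact IntF.fst' | with_reducible exact IntF.snd' | with_reducible exact IntF.const _ | with_reducible exact Int.const _ | assumption | with_reducible apply Int.and | with_reducible apply Int.or | with_reducible apply Int.not | with_reducible apply Int.imp | with_reducible apply Int.iff | with_reducible apply Int.ne | with_reducible apply Int.eq | with_reducible apply Int.mem | with_reducible apply Int.subset | with_reducible apply Int.ltN | with_reducible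 apply Int.leN | with_reducible_and_instances apply Int.le | with_reducible_and_instances apply Int.lt | with_reducible apply Int.all | with_reducible apply Int.ex | with_reducible apply IntF.fst | with_reducible apply IntF.snd | with_reducible apply IntF.app | with_reducible apply IntF.inl | with_reducible apply IntF.inr | with_reducible_and_instances apply IntF.mul | with_reducible_and_instances apply IntF.inv | with_reducible_and_instances apply IntF.add | with_reducible_and_instances apply IntF.sub | with_reducible_and_instances apply IntF.neg | with_reducible_and_instances apply IntF.smul | with_reducible apply Int.fin | with_reducible apply IntF.sep | with_reducible apply IntF.lam | with_reducible apply IntF.insert | with_reducible apply IntF.singleton | with_reducible apply IntF.union | with_reducible apply IntF.iimage | with_reducible apply IntF.ite | with_reducible apply IntF.the | with_reducible apply IntF.irec | with_reducible apply IntF.succ | with_reducible apply IntF.val | with_reducible apply IntF.mk | (with_reducible refine Int.comp ?_ ?_; assumption) | (with_reducible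 refine Int.comp₂ ?_ ?_ ?_; assumption) | (with_reducible refine Int.comp₃ ?_ ?_ ?_ ?_; assumption) | (with_reducible refine Int.comp₄ ?_ ?_ ?_ ?_ ?_; assumption) | (with_reducible refine IntF.comp ?_ ?_; assumption) | (with_reducible refine IntF.comp₂ ?_ ?_ ?_; assumption) | (with_reducible refine IntF.comp₃ ?_ ?_ ?_ ?_; assumption) | with_reducible apply IntF.pair)), fun c => rfl, fun π p c => ?_⟩
  exact feq_th π p (cn c)

theorem ef_nn : EF Z hG (fun _ n => n) (fun n => nn Z hG n) := by
  refine ⟨BN M X, _, BE, good_BE, fun n => nat n, by (repeat' (first | with_reducible exact IntF.id | with_reducible exact IntF.fst' | with_reducible exact IntF.snd' | with_reducible exact IntF.const _ | with_reducible exact Int.const _ | assumption | with_reducible apply Int.and | with_reducible apply Int.or | with_reducible apply Int.not | with_reducible apply Int.imp | with_reducible apply Int.iff | with_reducible apply Int.ne | with_reducible apply Int.eq | with_reducible apply Int.mem | with_reducible apply Int.subset | with_reducible apply Int.ltN | with_reducible apply Int.leN | with_reducible_and_instances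 apply Int.le | with_reducible_and_instances apply Int.lt | with_reducible apply Int.all | with_reducible apply Int.ex | with_reducible apply IntF.fst | with_reducible apply IntF.snd | with_reducible apply IntF.app | with_reducible apply IntF.inl | with_reducible apply IntF.inr | with_reducible_and_instances apply IntF.mul | with_reducible_and_instances apply IntF.inv | with_reducible_and_instances apply IntF.add | with_reducible_and_instances apply IntF.sub | with_reducible_and_instances apply IntF.neg | with_reducible_and_instances apply IntF.smul | with_reducible apply Int.fin | with_reducible apply IntF.sep | with_reducible apply IntF.lam | with_reducible apply IntF.insert | with_reducible apply IntF.singleton | with_reducible apply IntF.union | with_reducible apply IntF.iimage | with_reducible apply IntF.ite | with_reducible apply IntF.the | with_reducible apply IntF.irec | with_reducible apply IntF.succ | with_reducible apply IntF.val | with_reducible apply IntF.mk | (with_reducible refine Int.comp ?_ ?_; assumption) | (with_reducible refine Int.comp₂ ?_ ?_ ?_; assumption) | (with_reducible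 refine Int.comp₃ ?_ ?_ ?_ ?_; assumption) | (with_reducible refine Int.comp₄ ?_ ?_ ?_ ?_ ?_; assumption) | (with_reducible refine IntF.comp ?_ ?_; assumption) | (with_reducible refine IntF.comp₂ ?_ ?_ ?_; assumption) | (with_reducible refine IntF.comp₃ ?_ ?_ ?_ ?_; assumption) | with_reducible apply IntF.pair)), fun c => rfl, fun π p c => ?_⟩
  exact feq_th π p (nat c)

/-- Supports. -/
theorem support (z : NN (SS Z) hG) : ∃ E : FS M X, ∀ (ε : Type u) (_ : ITy M ε)
    (a : IPerm M X → ε → ε) (f : ε → NN (SS Z) hG), EF Z hG a f →
      ∀ g ∈ Z.H, (∀ x, x ∈ E.1 → g.1.1 x = x) → ∀ c, Plain.Mem (f c) z →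
        Plain.Mem (f (a g c)) z := by
  obtain ⟨x, rfl⟩ := exists_mk hG z
  obtain ⟨n, hn⟩ := x.good.sym x.root
  refine ⟨n, fun ε _ a f hf g hg hgE c h => ?_⟩
  obtain ⟨α, _, F, hF, g₀, hg₀, h1, h2⟩ := hf
  rw [h1, mk_eq_nd, mem_nd_nd] at h ⊢
  by_contra hc
  obtain ⟨p, hp, h3⟩ := h
  have hI := hF.int.fmem x.int
  obtain ⟨q, hq, h4⟩ := hG.dense (fun q => FMem M F x.E q (g₀ (a g c)) x.root ∨
      ∀ r, r ≤ q → ¬ FMem M F x.E r (g₀ (a g c)) x.root)
    (by (repeat' (first | with_reducible exact IntF.id | with_reducible exact IntF.fst' | with_reducible exact IntF.snd' | with_reducible exact IntF.const _ | with_reducible exact Int.const _ | assumption | with_reducible apply Int.and | with_reducible apply Int.or | with_reducible apply Int.not | with_reducible apply Int.imp | with_reducible apply Int.iff | with_reducible apply Int.ne | with_reducible apply Int.eq | with_reducible apply Int.mem | with_reducible apply Int.subset | with_reducible apply Int.ltN | with_reducible apply Int.leN | with_reducible_and_instances apply Int.le | with_reducible_and_instances apply Int.lt | with_reducible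 apply Int.all | with_reducible apply Int.ex | with_reducible apply IntF.fst | with_reducible apply IntF.snd | with_reducible apply IntF.app | with_reducible apply IntF.inl | with_reducible apply IntF.inr | with_reducible_and_instances apply IntF.mul | with_reducible_and_instances apply IntF.inv | with_reducible_and_instances apply IntF.add | with_reducible_and_instances apply IntF.sub | with_reducible_and_instances apply IntF.neg | with_reducible_and_instances apply IntF.smul | with_reducible apply Int.fin | with_reducible apply IntF.sep | with_reducible apply IntF.lam | with_reducible apply IntF.insert | with_reducible apply IntF.singleton | with_reducible apply IntF.union | with_reducible apply IntF.iimage | with_reducible apply IntF.ite | with_reducible apply IntF.the | with_reducible apply IntF.irec | with_reducible apply IntF.succ | with_reducible apply IntF.val | with_reducible apply IntF.mk | (with_reducible refine Int.comp ?_ ?_; assumption) | (with_reducible refine Int.comp₂ ?_ ?_ ?_; assumption) | (with_reducible refine Int.comp₃ ?_ ?_ ?_ ?_; assumption) | (with_reducible refine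 Int.comp₄ ?_ ?_ ?_ ?_ ?_; assumption) | (with_reducible refine IntF.comp ?_ ?_; assumption) | (with_reducible refine IntF.comp₂ ?_ ?_ ?_; assumption) | (with_reducible refine IntF.comp₃ ?_ ?_ ?_ ?_; assumption) | with_reducible apply IntF.pair)))
    fun q => by
      by_cases h : ∃ r, r ≤ q ∧ FMem M F x.E r (g₀ (a g c)) x.root
      · obtain ⟨r, hr, h3⟩ := h
        exact ⟨r, hr, Or.inl h3⟩
      · exact ⟨q, le_rfl, Or.inr fun r hr h3 => h ⟨r, hr, h3⟩⟩
  rcases h4 with h4 | h4
  · exact hc ⟨q, hq, h4⟩
  obtain ⟨q₀, -, h5, h6⟩ := hG.dir p q hp hq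
  obtain ⟨π, hπ, hπg, r, hr, hr'⟩ := exists_move q₀ hg hgE
  refine h4 r (hr.trans h6) ?_
  have h7 := (fmem_tw (SS Z) π (h3.mono h5)).mono hr'
  have h8 : FEq M (tw π F) F r (g₀ c) (g₀ (a π.1.1 c)) := h2 π r c
  rw [hπg] at h8
  exact FMem.congr_left hF.int (hF.int.tw π) x.int (h8.symm (hF.int.tw π) hF.int)
    (FMem.congr_right (hF.int.tw π) (x.int.tw π) x.int h7 (hn π hπ r))

/-- Sets in the extension. -/
theorem EF.set {ε : Type u} [ITy M ε] {a : IPerm M X → ε → ε} {f : ε → NN (SS Z) hG}
    (hf : EF Z hG a f) {Y : ε → Prop} (hY : Int M Y) {E : FS M X}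
    (hs : ∀ g ∈ Z.H, (∀ x, x ∈ E.1 → g.1.1 x = x) → ∀ c, Y c → Y (a g c)) :
    ∃ z : NN (SS Z) hG, ∀ w, Plain.Mem w z ↔ ∃ c, Y c ∧ w = f c :=
  EqFam.set hf hY ⟨E, fun π hπ c hc => hs π.1.1 π.2.2 (fun x hx => rho_of_U hπ hx) c hc⟩

theorem EF.comp {ε β : Type u} [ITy M ε] [ITy M β] {a : IPerm M X → ε → ε}
    {f : ε → NN (SS Z) hG} (hf : EF Z hG a f) {a' : IPerm M X → β → β} {φ : β → ε}
    (hφ : IntF M φ) (h : ∀ g b, φ (a' g b) = a g (φ b)) : EF Z hG a' (fun b => f (φ b)) :=
  EqFam.comp hf hφ fun π b => h _ b

theorem EF.op {ε : Type u} [ITy M ε] {a : IPerm M X → ε → ε}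
    (ha : ∀ (g : IPerm M X) b, a g⁻¹ (a g b) = b) {f f' : ε → NN (SS Z) hG} (hf : EF Z hG a f)
    (hf' : EF Z hG a f') : EF Z hG a (fun c => ZFA.op (f c) (f' c)) :=
  EqFam.op (fun π b => ha π.1.1 b) hf hf'

/-- Families of sets. -/
theorem EF.sets {ε δ : Type u} [ITy M ε] [ITy M δ] {a : IPerm M X → δ → δ}
    {f : δ → NN (SS Z) hG} (hf : EF Z hG a f) {R : ε → δ → Prop}
    (hR : Int M (fun q : ε × δ => R q.1 q.2)) {a' : IPerm M X → ε → ε}
    (h : ∀ g ∈ Z.H, ∀ c d, R c d → R (a' g c) (a g d))
    (ha : ∀ (g : IPerm M X) b, a' g⁻¹ (a' g b) = b)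
    (hs : ∀ c, ∃ E : FS M X, ∀ g ∈ Z.H, (∀ x, x ∈ E.1 → g.1.1 x = x) → a' g c = c) :
    ∃ F : ε → NN (SS Z) hG, EF Z hG a' F ∧ ∀ c w, Plain.Mem w (F c) ↔ ∃ d, R c d ∧ w = f d := by
  obtain ⟨α, _, E, h0, g, hg, h1, h2⟩ := hf
  have hQ : Int M (fun q : (α × Co M X) × ε => ∃ d, R q.2 d ∧ q.1.1 = g d) := by (repeat' (first | with_reducible exact IntF.id | with_reducible exact IntF.fst' | with_reducible exact IntF.snd' | with_reducible exact IntF.const _ | with_reducible exact Int.const _ | assumption | with_reducible apply Int.and | with_reducible apply Int.or | with_reducible apply Int.not | with_reducible apply Int.imp | with_reducible apply Int.iff | with_reducible apply Int.ne | with_reducible apply Int.eq | with_reducible apply Int.mem | with_reducible apply Int.subset | with_reducible apply Int.ltN | with_reducible apply Int.leN | with_reducible_and_instances apply Int.le | with_reducible_and_instances apply Int.lt | with_reducible apply Int.all | with_reducible apply Int.ex | with_reducible apply IntF.fst | with_reducible apply IntF.snd | with_reducible apply IntF.app | with_reducible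 apply IntF.inl | with_reducible apply IntF.inr | with_reducible_and_instances apply IntF.mul | with_reducible_and_instances apply IntF.inv | with_reducible_and_instances apply IntF.add | with_reducible_and_instances apply IntF.sub | with_reducible_and_instances apply IntF.neg | with_reducible_and_instances apply IntF.smul | with_reducible apply Int.fin | with_reducible apply IntF.sep | with_reducible apply IntF.lam | with_reducible apply IntF.insert | with_reducible apply IntF.singleton | with_reducible apply IntF.union | with_reducible apply IntF.iimage | with_reducible apply IntF.ite | with_reducible apply IntF.the | with_reducible apply IntF.irec | with_reducible apply IntF.succ | with_reducible apply IntF.val | with_reducible apply IntF.mk | (with_reducible refine Int.comp ?_ ?_; assumption) | (with_reducible refine Int.comp₂ ?_ ?_ ?_; assumption) | (with_reducible refine Int.comp₃ ?_ ?_ ?_ ?_; assumption) | (with_reducible refine Int.comp₄ ?_ ?_ ?_ ?_ ?_; assumption) | (with_reducible refine IntF.comp ?_ ?_; assumption) | (with_reducible refine IntF.comp₂ ?_ ?_ ?_; assumption) |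 (with_reducible refine IntF.comp₃ ?_ ?_ ?_ ?_; assumption) | with_reducible apply IntF.pair))
  have hext : Good (SS Z) (extG E (fun x _ c => ∃ d, R c d ∧ x = g d)) := by
    refine good_extG h0 hQ fun c => ?_
    obtain ⟨l, hl⟩ := hs c
    refine ⟨l, ?_⟩
    rintro π hπ x r ⟨d, hd, rfl⟩ q hq
    have h3 := h π.1.1 π.2.2 c d hd
    rw [hl π.1.1 π.2.2 (fun x hx => rho_of_U hπ hx)] at h3
    exact ⟨q, le_rfl, _, q, ⟨_, h3, rfl⟩, le_rfl, h2 π q d⟩
  refine ⟨fun c => nd hG hext (Sum.inr c), ⟨_, _, _, hext, fun c => Sum.inr c, by (repeat' (first | with_reducible exact IntF.id | with_reducible exact IntF.fst' | with_reducible exact IntF.snd' | with_reducible exact IntF.const _ | with_reducible exact Int.const _ | assumption | with_reducible apply Int.and | with_reducible apply Int.or | with_reducible apply Int.not | with_reducible apply Int.imp | with_reducible apply Int.iff | with_reducible apply Int.ne | with_reducible apply Int.eq | with_reducible apply Int.mem | with_reducible apply Int.subset | with_reducible apply Int.ltN | with_reducible apply Int.leN | with_reducible_and_instances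 apply Int.le | with_reducible_and_instances apply Int.lt | with_reducible apply Int.all | with_reducible apply Int.ex | with_reducible apply IntF.fst | with_reducible apply IntF.snd | with_reducible apply IntF.app | with_reducible apply IntF.inl | with_reducible apply IntF.inr | with_reducible_and_instances apply IntF.mul | with_reducible_and_instances apply IntF.inv | with_reducible_and_instances apply IntF.add | with_reducible_and_instances apply IntF.sub | with_reducible_and_instances apply IntF.neg | with_reducible_and_instances apply IntF.smul | with_reducible apply Int.fin | with_reducible apply IntF.sep | with_reducible apply IntF.lam | with_reducible apply IntF.insert | with_reducible apply IntF.singleton | with_reducible apply IntF.union | with_reducible apply IntF.iimage | with_reducible apply IntF.ite | with_reducible apply IntF.the | with_reducible apply IntF.irec | with_reducible apply IntF.succ | with_reducible apply IntF.val | with_reducible apply IntF.mk | (with_reducible refine Int.comp ?_ ?_; assumption) | (with_reducible refine Int.comp₂ ?_ ?_ ?_; assumption) | (with_reducible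 refine Int.comp₃ ?_ ?_ ?_ ?_; assumption) | (with_reducible refine Int.comp₄ ?_ ?_ ?_ ?_ ?_; assumption) | (with_reducible refine IntF.comp ?_ ?_; assumption) | (with_reducible refine IntF.comp₂ ?_ ?_ ?_; assumption) | (with_reducible refine IntF.comp₃ ?_ ?_ ?_ ?_; assumption) | with_reducible apply IntF.pair)),
    fun c => rfl, fun π p c => ?_⟩, fun c w => ?_⟩
  · refine feq_equivQ (S := SS Z) h0.int hQ (act := fun (π : Gm Z) c => a' π.1.1 c)
      (fun π b => ha π.1.1 b) ?_ π p c
    rintro π b x r ⟨d, hd, rfl⟩ q hq
    exact ⟨q, le_rfl, _, q, ⟨_, h π.1.1 π.2.2 b d hd, rfl⟩, le_rfl, h2 π q d⟩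
  · rw [mem_nd_inr hG h0 hext]
    constructor
    · rintro ⟨x, s, -, ⟨d, hd, rfl⟩, rfl⟩
      exact ⟨d, hd, (h1 d).symm⟩
    · rintro ⟨d, hd, rfl⟩
      obtain ⟨p, hp⟩ := hG.ne
      exact ⟨g d, p, hp, ⟨d, hd, rfl⟩, h1 d⟩

end ext

end Pool.Agent.Helper672.ZFA.H310M
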