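import Pool.Agent.H310R3.PM3

/-!
# Permutation models: the natural numbers and finite sets of the extension
-/

set_option maxHeartbeats 1000000
set_option linter.all false
set_option synthInstance.maxSize 2000

namespace Pool.Agent.Helper672.ZFA.H310M

open FirstOrder FirstOrder.Language
open Pool.Agent.Helper672.ZFA.H635 (IPerm SymSys IG WFI FEq FMem tw Good feq_of_map feq_iff IsGen
  nd nd_eq mem_nd mem_nd_nd exists_mk mk_eq_nd EqFam NN nn_ext CollL nn_zf mem_NN)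
open Pool.Agent.Helper672.Plain (LSet)

universe u

variable {M : Type u} [L.Structure M] [hM : IsModel M] {X : Type u} [ITy M X] {Z : PGr M X}
variable {G : Set (Co M X)} (hG : IsGen M G)

variable (M X) in
/-- The empty finite set. -/
noncomputable def fs0 : FS M X := ⟨∅, IFin.empty⟩

theorem exists_om : ∃ z : NN (SS Z) hG, ∀ w, Mem w z ↔ ∃ n, w = nn Z hG n := by
  obtain ⟨z, hz⟩ := EF.set hG (ef_nn hG) (Y := fun _ => True) (Int.const _)
    (E := fs0 M X) fun _ _ _ _ _ => trivial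
  exact ⟨z, fun w => (hz w).trans ⟨fun ⟨c, _, h⟩ => ⟨c, h⟩, fun ⟨c, h⟩ => ⟨c, trivial, h⟩⟩⟩

theorem mem_nn' {w : NN (SS Z) hG} {n : INat M} :
    Mem w (nn Z hG n) ↔ ∃ m, m < n ∧ w = nn Z hG m := mem_nn hG

theorem ext' {x y : NN (SS Z) hG} (h : ∀ z, Mem z x ↔ Mem z y) : x = y := nn_ext hG h

theorem isNat_nn (hC : CollL M) (n : INat M) (i : NN (SS Z) hG) (hi : Ind i) :
    Mem (nn Z hG n) i := by
  by_contra hc
  obtain ⟨o, ho⟩ := exists_om (Z := Z) hG
  have hS : Small {z : NN (SS Z) hG | Mem z o ∧ z ∈ {z | ¬ Mem z i}} :=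
    small_sep (D.not (D.memf (DF.var _) (DF.const _))) o
  obtain ⟨y, hy, hmin⟩ := (nn_zf hG hC).foundation hS.elt
    ⟨nn Z hG n, hS.mem.2 ⟨(ho _).2 ⟨n, rfl⟩, hc⟩⟩
  obtain ⟨h1, h2⟩ := hS.mem.1 hy
  obtain ⟨m, rfl⟩ := (ho _).1 h1
  rcases INat.eq_zero_or_succ m with rfl | ⟨k, rfl⟩
  · obtain ⟨e, he, -, h0⟩ := hi.1
    refine h2 ?_
    have : nn Z hG (0 : INat M) = e := ext' hG fun z => ⟨fun h => ?_, fun h => absurd h (h0 z)⟩
    · rw [this]
      exact he
    · obtain ⟨m, hm, -⟩ := (mem_nn' hG).1 h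
      exact absurd hm INat.not_lt_zero
  · have hk : Mem (nn Z hG k) i := by
      by_contra hk
      exact hmin (nn Z hG k) (hS.mem.2 ⟨(ho _).2 ⟨k, rfl⟩, hk⟩)
        ((mem_nn' hG).2 ⟨k, INat.lt_succ_self k, rfl⟩)
    obtain ⟨s, hs, -, h3⟩ := hi.2 _ hk
    refine h2 ?_
    have : nn Z hG k.succ = s := ext' hG fun z => by
      rw [h3 z, mem_nn', mem_nn']
      constructor
      · rintro ⟨m, hm, rfl⟩
        rcases INat.lt_succ_iff'.1 hm with hm | rfl
        · exact Or.inl ⟨m, hm, rfl⟩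
        · exact Or.inr rfl
      · rintro (⟨m, hm, rfl⟩ | rfl)
        · exact ⟨m, hm.trans (INat.lt_succ_self k), rfl⟩
        · exact ⟨k, INat.lt_succ_self k, rfl⟩
    rw [this]
    exact hs

variable (Z) in
/-- The natural numbers of the extension. -/
noncomputable def nnN (hC : CollL M) (n : INat M) : INat (NN (SS Z) hG) :=
  ⟨nn Z hG n, fun i hi => isNat_nn hG hC n i hi⟩

variable (hC : CollL M)

theorem nnN_val (n : INat M) : (nnN Z hG hC n).val = nn Z hG n := rfl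

theorem nnN_zero : nnN Z hG hC 0 = 0 := by
  refine INat.ext (ext' hG fun z => ?_)
  rw [nnN_val, mem_nn']
  constructor
  · rintro ⟨m, hm, -⟩
    exact absurd hm INat.not_lt_zero
  · exact fun h => absurd h INat.not_mem_zero

theorem nnN_succ (n : INat M) : nnN Z hG hC n.succ = (nnN Z hG hC n).succ := by
  refine INat.ext (ext' hG fun z => ?_)
  rw [INat.mem_succ, nnN_val, nnN_val, mem_nn', mem_nn']
  constructor
  · rintro ⟨m, hm, rfl⟩
    rcases INat.lt_succ_iff'.1 hm with hm | rfl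
    · exact Or.inl ⟨m, hm, rfl⟩
    · exact Or.inr rfl
  · rintro (⟨m, hm, rfl⟩ | rfl)
    · exact ⟨m, hm.trans (INat.lt_succ_self n), rfl⟩
    · exact ⟨n, INat.lt_succ_self n, rfl⟩

theorem nnN_surj (m : INat (NN (SS Z) hG)) : ∃ n, nnN Z hG hC n = m := by
  obtain ⟨o, ho⟩ := exists_om (Z := Z) hG
  have h := m.prop o ⟨⟨(0 : INat (NN (SS Z) hG)).val, (ho _).2 ⟨0, ?_⟩, trivial,
    fun z => INat.not_mem_zero⟩, fun z hz => ?_⟩
  · obtain ⟨n, hn⟩ := (ho _).1 h
    exact ⟨n, INat.ext hn.symm⟩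
  · rw [← nnN_zero hG hC, nnN_val]
  · obtain ⟨n, rfl⟩ := (ho _).1 hz
    refine ⟨(nnN Z hG hC n).succ.val, (ho _).2 ⟨n.succ, ?_⟩, trivial, fun z => INat.mem_succ⟩
    rw [← nnN_succ, nnN_val]

theorem nnN_inj {m n : INat M} : nnN Z hG hC m = nnN Z hG hC n ↔ m = n := by
  refine ⟨fun h => ?_, fun h => h ▸ rfl⟩
  have := congrArg INat.val h
  exact (nn_inj hG).1 this

theorem nnN_lt {m n : INat M} : nnN Z hG hC m < nnN Z hG hC n ↔ m < n := by
  rw [INat.lt_def, nnN_val, nnN_val, mem_nn']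
  constructor
  · rintro ⟨k, hk, h⟩
    rwa [(nn_inj hG).1 h]
  · exact fun h => ⟨m, h, rfl⟩

end Pool.Agent.Helper672.ZFA.H310M
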