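import Pool.Agent.H310R3.PM4
import Pool.Agent.H310R3.Bridge

/-!
# Permutation models: the set of generic elements
-/

set_option maxHeartbeats 1000000
set_option linter.all false
set_option synthInstance.maxSize 2000

namespace Pool.Agent.Helper672.ZFA.H310M

open FirstOrder FirstOrder.Language
open Pool.Agent.Helper672.ZFA.H635 (IPerm SymSys IG WFI FEq FMem tw Good feq_of_map feq_iff IsGen
  nd nd_eq mem_nd mem_nd_nd exists_mk mk_eq_nd EqFam NN nn_ext CollL nn_zf mem_NN)
open Pool.Agent.Helper672.Plain (LSet)
open Pool.Agent.H310

universe u

variable {M : Type u} [L.Structure M] [hM : IsModel M] {X : Type u} [ITy M X] {Z : PGr M X}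
variable {G : Set (Co M X)} (hG : IsGen M G) (hC : CollL M)

theorem exists_A : ∃ z : NN (SS Z) hG, ∀ w, Mem w z ↔ ∃ x, w = cc Z hG x := by
  obtain ⟨z, hz⟩ := EF.set hG (ef_cc hG) (Y := fun _ => True) (Int.const _)
    (E := fs0 M X) fun _ _ _ _ _ => trivial
  exact ⟨z, fun w => (hz w).trans ⟨fun ⟨c, _, h⟩ => ⟨c, h⟩, fun ⟨c, h⟩ => ⟨c, trivial, h⟩⟩⟩

variable (Z) in
/-- The set of the generic elements. -/
noncomputable def AA : NN (SS Z) hG := (exists_A (Z := Z) hG).choose

theorem mem_AA {w : NN (SS Z) hG} : Mem w (AA Z hG) ↔ ∃ x, w = cc Z hG x :=
  (exists_A (Z := Z) hG).choose_spec w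

variable (Z) in
/-- The generic elements as elements of the type. -/
noncomputable def cA (x : X) : El (AA Z hG) := ⟨cc Z hG x, (mem_AA hG).2 ⟨x, rfl⟩⟩

theorem cA_inj {x y : X} : cA Z hG x = cA Z hG y ↔ x = y :=
  ⟨fun h => (cc_inj hG).1 (congrArg Subtype.val h), fun h => h ▸ rfl⟩

theorem cA_surj (a : El (AA Z hG)) : ∃ x, cA Z hG x = a := by
  obtain ⟨x, hx⟩ := (mem_AA hG).1 a.2
  exact ⟨x, Subtype.ext hx.symm⟩

/-- Relations that are invariant under the group are in the extension. -/
theorem exists_rel {R : INat M × (X × X) → Prop} (hR : Int M R)
    (hinv : ∀ g ∈ Z.H, ∀ n x y, R (n, (x, y)) → R (n, (g.1.1 x, g.1.1 y))) :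
    ∃ R' : INat (NN (SS Z) hG) × (El (AA Z hG) × El (AA Z hG)) → Prop,
      Int (NN (SS Z) hG) R' ∧ ∀ n x y, R' (nnN Z hG hC n, (cA Z hG x, cA Z hG y)) ↔ R (n, (x, y)) := by
  have h1 : EF Z hG (fun (g : IPerm M X) (q : INat M × (X × X)) => (q.1, (g.1.1 q.2.1, g.1.1 q.2.2)))
      (fun q => op (nn Z hG q.1) (op (cc Z hG q.2.1) (cc Z hG q.2.2))) := by
    refine EF.op hG (fun g b => ?_) ?_ (EF.op hG (fun g b => ?_) ?_ ?_)
    · exact Prod.ext rfl (Prod.ext (g.2.2 _) (g.2.2 _))
    · exact EF.comp hG (ef_nn hG) (φ := fun q : INat M × (X × X) => q.1) (by (repeat' (first | with_reducible exact IntF.id | with_reducible exact IntF.fst' | with_reducible exact IntF.snd' | with_reducible exact IntF.const _ | with_reducible exact Int.const _ | assumption | with_reducible apply Int.and | with_reducible apply Int.or | with_reducible apply Int.not | with_reducible apply Int.imp | with_reducible apply Int.iff | with_reducible apply Int.ne | with_reducible apply Int.eq | with_reducible apply Int.mem | with_reducible apply Int.subset | with_reducible apply Int.ltN | with_reducible apply Int.leN | with_reducible_and_instances apply Int.le | with_reducible_and_instances apply Int.lt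 | with_reducible apply Int.all | with_reducible apply Int.ex | with_reducible apply IntF.fst | with_reducible apply IntF.snd | with_reducible apply IntF.app | with_reducible apply IntF.inl | with_reducible apply IntF.inr | with_reducible_and_instances apply IntF.mul | with_reducible_and_instances apply IntF.inv | with_reducible_and_instances apply IntF.add | with_reducible_and_instances apply IntF.sub | with_reducible_and_instances apply IntF.neg | with_reducible_and_instances apply IntF.smul | with_reducible apply Int.fin | with_reducible apply IntF.sep | with_reducible apply IntF.lam | with_reducible apply IntF.insert | with_reducible apply IntF.singleton | with_reducible apply IntF.union | with_reducible apply IntF.iimage | with_reducible apply IntF.ite | with_reducible apply IntF.the | with_reducible apply IntF.irec | with_reducible apply IntF.succ | with_reducible apply IntF.val | with_reducible apply IntF.mk | (with_reducible refine Int.comp ?_ ?_; assumption) | (with_reducible refine Int.comp₂ ?_ ?_ ?_; assumption) | (with_reducible refine Int.comp₃ ?_ ?_ ?_ ?_; assumption) | (with_reducible refine Int.comp₄ ?_ ?_ ?_ ?_ ?_; assumption) | (with_reducible refine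 IntF.comp ?_ ?_; assumption) | (with_reducible refine IntF.comp₂ ?_ ?_ ?_; assumption) | (with_reducible refine IntF.comp₃ ?_ ?_ ?_ ?_; assumption) | with_reducible apply IntF.pair))) fun _ _ => rfl
    · exact Prod.ext rfl (Prod.ext (g.2.2 _) (g.2.2 _))
    · exact EF.comp hG (ef_cc hG) (φ := fun q : INat M × (X × X) => q.2.1) (by (repeat' (first | with_reducible exact IntF.id | with_reducible exact IntF.fst' | with_reducible exact IntF.snd' | with_reducible exact IntF.const _ | with_reducible exact Int.const _ | assumption | with_reducible apply Int.and | with_reducible apply Int.or | with_reducible apply Int.not | with_reducible apply Int.imp | with_reducible apply Int.iff | with_reducible apply Int.ne | with_reducible apply Int.eq | with_reducible apply Int.mem | with_reducible apply Int.subset | with_reducible apply Int.ltN | with_reducible apply Int.leN | with_reducible_and_instances apply Int.le | with_reducible_and_instances apply Int.lt | with_reducible apply Int.all | with_reducible apply Int.ex | with_reducible apply IntF.fst | with_reducible apply IntF.snd | with_reducible apply IntF.app | with_reducible apply IntF.inl | with_reducible apply IntF.inr | with_reducible_and_instances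 apply IntF.mul | with_reducible_and_instances apply IntF.inv | with_reducible_and_instances apply IntF.add | with_reducible_and_instances apply IntF.sub | with_reducible_and_instances apply IntF.neg | with_reducible_and_instances apply IntF.smul | with_reducible apply Int.fin | with_reducible apply IntF.sep | with_reducible apply IntF.lam | with_reducible apply IntF.insert | with_reducible apply IntF.singleton | with_reducible apply IntF.union | with_reducible apply IntF.iimage | with_reducible apply IntF.ite | with_reducible apply IntF.the | with_reducible apply IntF.irec | with_reducible apply IntF.succ | with_reducible apply IntF.val | with_reducible apply IntF.mk | (with_reducible refine Int.comp ?_ ?_; assumption) | (with_reducible refine Int.comp₂ ?_ ?_ ?_; assumption) | (with_reducible refine Int.comp₃ ?_ ?_ ?_ ?_; assumption) | (with_reducible refine Int.comp₄ ?_ ?_ ?_ ?_ ?_; assumption) | (with_reducible refine IntF.comp ?_ ?_; assumption) | (with_reducible refine IntF.comp₂ ?_ ?_ ?_; assumption) | (with_reducible refine IntF.comp₃ ?_ ?_ ?_ ?_; assumption) | with_reducible apply IntF.pair))) fun _ _ => rfl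
    · exact EF.comp hG (ef_cc hG) (φ := fun q : INat M × (X × X) => q.2.2) (by (repeat' (first | with_reducible exact IntF.id | with_reducible exact IntF.fst' | with_reducible exact IntF.snd' | with_reducible exact IntF.const _ | with_reducible exact Int.const _ | assumption | with_reducible apply Int.and | with_reducible apply Int.or | with_reducible apply Int.not | with_reducible apply Int.imp | with_reducible apply Int.iff | with_reducible apply Int.ne | with_reducible apply Int.eq | with_reducible apply Int.mem | with_reducible apply Int.subset | with_reducible apply Int.ltN | with_reducible apply Int.leN | with_reducible_and_instances apply Int.le | with_reducible_and_instances apply Int.lt | with_reducible apply Int.all | with_reducible apply Int.ex | with_reducible apply IntF.fst | with_reducible apply IntF.snd | with_reducible apply IntF.app | with_reducible apply IntF.inl | with_reducible apply IntF.inr | with_reducible_and_instances apply IntF.mul | with_reducible_and_instances apply IntF.inv | with_reducible_and_instances apply IntF.add | with_reducible_and_instances apply IntF.sub | with_reducible_and_instances apply IntF.neg | with_reducible_and_instances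 apply IntF.smul | with_reducible apply Int.fin | with_reducible apply IntF.sep | with_reducible apply IntF.lam | with_reducible apply IntF.insert | with_reducible apply IntF.singleton | with_reducible apply IntF.union | with_reducible apply IntF.iimage | with_reducible apply IntF.ite | with_reducible apply IntF.the | with_reducible apply IntF.irec | with_reducible apply IntF.succ | with_reducible apply IntF.val | with_reducible apply IntF.mk | (with_reducible refine Int.comp ?_ ?_; assumption) | (with_reducible refine Int.comp₂ ?_ ?_ ?_; assumption) | (with_reducible refine Int.comp₃ ?_ ?_ ?_ ?_; assumption) | (with_reducible refine Int.comp₄ ?_ ?_ ?_ ?_ ?_; assumption) | (with_reducible refine IntF.comp ?_ ?_; assumption) | (with_reducible refine IntF.comp₂ ?_ ?_ ?_; assumption) | (with_reducible refine IntF.comp₃ ?_ ?_ ?_ ?_; assumption) | with_reducible apply IntF.pair))) fun _ _ => rfl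
  obtain ⟨z, hz⟩ := EF.set hG h1 hR (E := fs0 M X) fun g hg _ c hc => hinv g hg _ _ _ hc
  refine ⟨fun q => Mem (code q) z, ⟨z, fun q => Iff.rfl⟩, fun n x y => ?_⟩
  refine (hz _).trans ⟨?_, fun h => ⟨_, h, rfl⟩⟩
  rintro ⟨⟨m, x', y'⟩, h, h2⟩
  obtain ⟨h3, h4⟩ := op_inj h2
  obtain ⟨h5, h6⟩ := op_inj h4
  obtain rfl := (nn_inj hG).1 h3
  obtain rfl := (cc_inj hG).1 h5
  obtain rfl := (cc_inj hG).1 h6
  exact h

/-- Homogeneity of the sets in the extension. -/
theorem exists_hom {W : El (AA Z hG) × INat (NN (SS Z) hG) → Prop} (hW : Int (NN (SS Z) hG) W) :
    ∃ E : FS M X, ∀ g ∈ Z.H, (∀ x, x ∈ E.1 → g.1.1 x = x) → ∀ x n,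
      W (cA Z hG x, nnN Z hG hC n) → W (cA Z hG (g.1.1 x), nnN Z hG hC n) := by
  obtain ⟨z, hz⟩ := hW
  obtain ⟨E, hE⟩ := support hG z
  have h1 : EF Z hG (fun (g : IPerm M X) (q : X × INat M) => (g.1.1 q.1, q.2))
      (fun q => op (cc Z hG q.1) (nn Z hG q.2)) := by
    refine EF.op hG (fun g b => ?_) ?_ ?_
    · exact Prod.ext (g.2.2 _) rfl
    · exact EF.comp hG (ef_cc hG) (φ := fun q : X × INat M => q.1) (by (repeat' (first | with_reducible exact IntF.id | with_reducible exact IntF.fst' | with_reducible exact IntF.snd' | with_reducible exact IntF.const _ | with_reducible exact Int.const _ | assumption | with_reducible apply Int.and | with_reducible apply Int.or | with_reducible apply Int.not | with_reducible apply Int.imp | with_reducible apply Int.iff | with_reducible apply Int.ne | with_reducible apply Int.eq | with_reducible apply Int.mem | with_reducible apply Int.subset | with_reducible apply Int.ltN | with_reducible apply Int.leN | with_reducible_and_instances apply Int.le | with_reducible_and_instances apply Int.lt | with_reducible apply Int.all | with_reducible apply Int.ex | with_reducible apply IntF.fst | with_reducible apply IntF.snd | with_reducible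 apply IntF.app | with_reducible apply IntF.inl | with_reducible apply IntF.inr | with_reducible_and_instances apply IntF.mul | with_reducible_and_instances apply IntF.inv | with_reducible_and_instances apply IntF.add | with_reducible_and_instances apply IntF.sub | with_reducible_and_instances apply IntF.neg | with_reducible_and_instances apply IntF.smul | with_reducible apply Int.fin | with_reducible apply IntF.sep | with_reducible apply IntF.lam | with_reducible apply IntF.insert | with_reducible apply IntF.singleton | with_reducible apply IntF.union | with_reducible apply IntF.iimage | with_reducible apply IntF.ite | with_reducible apply IntF.the | with_reducible apply IntF.irec | with_reducible apply IntF.succ | with_reducible apply IntF.val | with_reducible apply IntF.mk | (with_reducible refine Int.comp ?_ ?_; assumption) | (with_reducible refine Int.comp₂ ?_ ?_ ?_; assumption) | (with_reducible refine Int.comp₃ ?_ ?_ ?_ ?_; assumption) | (with_reducible refine Int.comp₄ ?_ ?_ ?_ ?_ ?_; assumption) | (with_reducible refine IntF.comp ?_ ?_; assumption) | (with_reducible refine IntF.comp₂ ?_ ?_ ?_; assumption) | (with_reducible refine IntF.comp₃ ?_ ?_ ?_ ?_; assumption)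 | with_reducible apply IntF.pair))) fun _ _ => rfl
    · exact EF.comp hG (ef_nn hG) (φ := fun q : X × INat M => q.2) (by (repeat' (first | with_reducible exact IntF.id | with_reducible exact IntF.fst' | with_reducible exact IntF.snd' | with_reducible exact IntF.const _ | with_reducible exact Int.const _ | assumption | with_reducible apply Int.and | with_reducible apply Int.or | with_reducible apply Int.not | with_reducible apply Int.imp | with_reducible apply Int.iff | with_reducible apply Int.ne | with_reducible apply Int.eq | with_reducible apply Int.mem | with_reducible apply Int.subset | with_reducible apply Int.ltN | with_reducible apply Int.leN | with_reducible_and_instances apply Int.le | with_reducible_and_instances apply Int.lt | with_reducible apply Int.all | with_reducible apply Int.ex | with_reducible apply IntF.fst | with_reducible apply IntF.snd | with_reducible apply IntF.app | with_reducible apply IntF.inl | with_reducible apply IntF.inr | with_reducible_and_instances apply IntF.mul | with_reducible_and_instances apply IntF.inv | with_reducible_and_instances apply IntF.add | with_reducible_and_instances apply IntF.sub | with_reducible_and_instances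 apply IntF.neg | with_reducible_and_instances apply IntF.smul | with_reducible apply Int.fin | with_reducible apply IntF.sep | with_reducible apply IntF.lam | with_reducible apply IntF.insert | with_reducible apply IntF.singleton | with_reducible apply IntF.union | with_reducible apply IntF.iimage | with_reducible apply IntF.ite | with_reducible apply IntF.the | with_reducible apply IntF.irec | with_reducible apply IntF.succ | with_reducible apply IntF.val | with_reducible apply IntF.mk | (with_reducible refine Int.comp ?_ ?_; assumption) | (with_reducible refine Int.comp₂ ?_ ?_ ?_; assumption) | (with_reducible refine Int.comp₃ ?_ ?_ ?_ ?_; assumption) | (with_reducible refine Int.comp₄ ?_ ?_ ?_ ?_ ?_; assumption) | (with_reducible refine IntF.comp ?_ ?_; assumption) | (with_reducible refine IntF.comp₂ ?_ ?_ ?_; assumption) | (with_reducible refine IntF.comp₃ ?_ ?_ ?_ ?_; assumption) | with_reducible apply IntF.pair))) fun _ _ => rfl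
  refine ⟨E, fun g hg hgE x n h => ?_⟩
  exact (hz _).1 (hE _ _ _ _ h1 g hg hgE (x, n) ((hz _).2 h))

include hC in
/-- The finite sets in the extension. -/
theorem exists_fin (E : FS M X) : ∃ s : IPow (NN (SS Z) hG) (El (AA Z hG)), IFin s ∧
    ∀ x, cA Z hG x ∈ s ↔ x ∈ E.1 := by
  obtain ⟨e, n, h1, h2, h3⟩ := exists_BN E.2
  have hf : EF Z hG (fun (g : IPerm M X) (q : INat M × X) => (q.1, g.1.1 q.2))
      (fun q => op (nn Z hG q.1) (cc Z hG q.2)) := by
    refine EF.op hG (fun g b => ?_) ?_ ?_
    · exact Prod.ext rfl (g.2.2 _)
    · exact EF.comp hG (ef_nn hG) (φ := fun q : INat M × X => q.1) (by (repeat' (first | with_reducible exact IntF.id | with_reducible exact IntF.fst' | with_reducible exact IntF.snd' | with_reducible exact IntF.const _ | with_reducible exact Int.const _ | assumption | with_reducible apply Int.and | with_reducible apply Int.or | with_reducible apply Int.not | with_reducible apply Int.imp | with_reducible apply Int.iff | with_reducible apply Int.ne | with_reducible apply Int.eq | with_reducible apply Int.mem | with_reducible apply Int.subset | with_reducible apply Int.ltN | with_reducible apply Int.leN | with_reducible_and_instances apply Int.le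 | with_reducible_and_instances apply Int.lt | with_reducible apply Int.all | with_reducible apply Int.ex | with_reducible apply IntF.fst | with_reducible apply IntF.snd | with_reducible apply IntF.app | with_reducible apply IntF.inl | with_reducible apply IntF.inr | with_reducible_and_instances apply IntF.mul | with_reducible_and_instances apply IntF.inv | with_reducible_and_instances apply IntF.add | with_reducible_and_instances apply IntF.sub | with_reducible_and_instances apply IntF.neg | with_reducible_and_instances apply IntF.smul | with_reducible apply Int.fin | with_reducible apply IntF.sep | with_reducible apply IntF.lam | with_reducible apply IntF.insert | with_reducible apply IntF.singleton | with_reducible apply IntF.union | with_reducible apply IntF.iimage | with_reducible apply IntF.ite | with_reducible apply IntF.the | with_reducible apply IntF.irec | with_reducible apply IntF.succ | with_reducible apply IntF.val | with_reducible apply IntF.mk | (with_reducible refine Int.comp ?_ ?_; assumption) | (with_reducible refine Int.comp₂ ?_ ?_ ?_; assumption) | (with_reducible refine Int.comp₃ ?_ ?_ ?_ ?_; assumption) | (with_reducible refine Int.comp₄ ?_ ?_ ?_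 ?_ ?_; assumption) | (with_reducible refine IntF.comp ?_ ?_; assumption) | (with_reducible refine IntF.comp₂ ?_ ?_ ?_; assumption) | (with_reducible refine IntF.comp₃ ?_ ?_ ?_ ?_; assumption) | with_reducible apply IntF.pair))) fun _ _ => rfl
    · exact EF.comp hG (ef_cc hG) (φ := fun q : INat M × X => q.2) (by (repeat' (first | with_reducible exact IntF.id | with_reducible exact IntF.fst' | with_reducible exact IntF.snd' | with_reducible exact IntF.const _ | with_reducible exact Int.const _ | assumption | with_reducible apply Int.and | with_reducible apply Int.or | with_reducible apply Int.not | with_reducible apply Int.imp | with_reducible apply Int.iff | with_reducible apply Int.ne | with_reducible apply Int.eq | with_reducible apply Int.mem | with_reducible apply Int.subset | with_reducible apply Int.ltN | with_reducible apply Int.leN | with_reducible_and_instances apply Int.le | with_reducible_and_instances apply Int.lt | with_reducible apply Int.all | with_reducible apply Int.ex | with_reducible apply IntF.fst | with_reducible apply IntF.snd | with_reducible apply IntF.app | with_reducible apply IntF.inl | with_reducible apply IntF.inr | with_reducible_and_instances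 apply IntF.mul | with_reducible_and_instances apply IntF.inv | with_reducible_and_instances apply IntF.add | with_reducible_and_instances apply IntF.sub | with_reducible_and_instances apply IntF.neg | with_reducible_and_instances apply IntF.smul | with_reducible apply Int.fin | with_reducible apply IntF.sep | with_reducible apply IntF.lam | with_reducible apply IntF.insert | with_reducible apply IntF.singleton | with_reducible apply IntF.union | with_reducible apply IntF.iimage | with_reducible apply IntF.ite | with_reducible apply IntF.the | with_reducible apply IntF.irec | with_reducible apply IntF.succ | with_reducible apply IntF.val | with_reducible apply IntF.mk | (with_reducible refine Int.comp ?_ ?_; assumption) | (with_reducible refine Int.comp₂ ?_ ?_ ?_; assumption) | (with_reducible refine Int.comp₃ ?_ ?_ ?_ ?_; assumption) | (with_reducible refine Int.comp₄ ?_ ?_ ?_ ?_ ?_; assumption) | (with_reducible refine IntF.comp ?_ ?_; assumption) | (with_reducible refine IntF.comp₂ ?_ ?_ ?_; assumption) | (with_reducible refine IntF.comp₃ ?_ ?_ ?_ ?_; assumption) | with_reducible apply IntF.pair))) fun _ _ => rfl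
  obtain ⟨z, hz⟩ := EF.set hG hf (Y := fun q => q.2 ∈ E.1 ∧ e q.2 = q.1) (by (repeat' (first | with_reducible exact IntF.id | with_reducible exact IntF.fst' | with_reducible exact IntF.snd' | with_reducible exact IntF.const _ | with_reducible exact Int.const _ | assumption | with_reducible apply Int.and | with_reducible apply Int.or | with_reducible apply Int.not | with_reducible apply Int.imp | with_reducible apply Int.iff | with_reducible apply Int.ne | with_reducible apply Int.eq | with_reducible apply Int.mem | with_reducible apply Int.subset | with_reducible apply Int.ltN | with_reducible apply Int.leN | with_reducible_and_instances apply Int.le | with_reducible_and_instances apply Int.lt | with_reducible apply Int.all | with_reducible apply Int.ex | with_reducible apply IntF.fst | with_reducible apply IntF.snd | with_reducible apply IntF.app | with_reducible apply IntF.inl | with_reducible apply IntF.inr | with_reducible_and_instances apply IntF.mul | with_reducible_and_instances apply IntF.inv | with_reducible_and_instances apply IntF.add | with_reducible_and_instances apply IntF.sub | with_reducible_and_instances apply IntF.neg | with_reducible_and_instances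 apply IntF.smul | with_reducible apply Int.fin | with_reducible apply IntF.sep | with_reducible apply IntF.lam | with_reducible apply IntF.insert | with_reducible apply IntF.singleton | with_reducible apply IntF.union | with_reducible apply IntF.iimage | with_reducible apply IntF.ite | with_reducible apply IntF.the | with_reducible apply IntF.irec | with_reducible apply IntF.succ | with_reducible apply IntF.val | with_reducible apply IntF.mk | (with_reducible refine Int.comp ?_ ?_; assumption) | (with_reducible refine Int.comp₂ ?_ ?_ ?_; assumption) | (with_reducible refine Int.comp₃ ?_ ?_ ?_ ?_; assumption) | (with_reducible refine Int.comp₄ ?_ ?_ ?_ ?_ ?_; assumption) | (with_reducible refine IntF.comp ?_ ?_; assumption) | (with_reducible refine IntF.comp₂ ?_ ?_ ?_; assumption) | (with_reducible refine IntF.comp₃ ?_ ?_ ?_ ?_; assumption) | with_reducible apply IntF.pair))) (E := E)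
    (fun g hg hgE c hc => by
      change g.1.1 c.2 ∈ E.1 ∧ e (g.1.1 c.2) = c.1
      rw [hgE _ hc.1]
      exact hc)
  obtain ⟨w, hw⟩ := EF.set hG (ef_cc hG) (Y := fun x => x ∈ E.1) (by (repeat' (first | with_reducible exact IntF.id | with_reducible exact IntF.fst' | with_reducible exact IntF.snd' | with_reducible exact IntF.const _ | with_reducible exact Int.const _ | assumption | with_reducible apply Int.and | with_reducible apply Int.or | with_reducible apply Int.not | with_reducible apply Int.imp | with_reducible apply Int.iff | with_reducible apply Int.ne | with_reducible apply Int.eq | with_reducible apply Int.mem | with_reducible apply Int.subset | with_reducible apply Int.ltN | with_reducible apply Int.leN | with_reducible_and_instances apply Int.le | with_reducible_and_instances apply Int.lt | with_reducible apply Int.all | with_reducible apply Int.ex | with_reducible apply IntF.fst | with_reducible apply IntF.snd | with_reducible apply IntF.app | with_reducible apply IntF.inl | with_reducible apply IntF.inr | with_reducible_and_instances apply IntF.mul | with_reducible_and_instances apply IntF.inv | with_reducible_and_instances apply IntF.add | with_reducible_and_instances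 apply IntF.sub | with_reducible_and_instances apply IntF.neg | with_reducible_and_instances apply IntF.smul | with_reducible apply Int.fin | with_reducible apply IntF.sep | with_reducible apply IntF.lam | with_reducible apply IntF.insert | with_reducible apply IntF.singleton | with_reducible apply IntF.union | with_reducible apply IntF.iimage | with_reducible apply IntF.ite | with_reducible apply IntF.the | with_reducible apply IntF.irec | with_reducible apply IntF.succ | with_reducible apply IntF.val | with_reducible apply IntF.mk | (with_reducible refine Int.comp ?_ ?_; assumption) | (with_reducible refine Int.comp₂ ?_ ?_ ?_; assumption) | (with_reducible refine Int.comp₃ ?_ ?_ ?_ ?_; assumption) | (with_reducible refine Int.comp₄ ?_ ?_ ?_ ?_ ?_; assumption) | (with_reducible refine IntF.comp ?_ ?_; assumption) | (with_reducible refine IntF.comp₂ ?_ ?_ ?_; assumption) | (with_reducible refine IntF.comp₃ ?_ ?_ ?_ ?_; assumption) | with_reducible apply IntF.pair))) (E := E)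
    (fun g hg hgE c hc => by
      rw [hgE _ hc]
      exact hc)
  have hz' : ∀ m x, Mem (op (nn Z hG m) (cc Z hG x)) z ↔ x ∈ E.1 ∧ e x = m := by
    intro m x
    refine (hz _).trans ⟨?_, fun h => ⟨(m, x), h, rfl⟩⟩
    rintro ⟨⟨m', x'⟩, h, h2⟩
    obtain ⟨h3, h4⟩ := op_inj h2
    obtain rfl := (nn_inj hG).1 h3
    obtain rfl := (cc_inj hG).1 h4
    exact h
  have hw' : ∀ x, Mem (cc Z hG x) w ↔ x ∈ E.1 := by
    intro x
    refine (hw _).trans ⟨?_, fun h => ⟨x, h, rfl⟩⟩
    rintro ⟨x', h, h2⟩
    obtain rfl := (cc_inj hG).1 h2
    exact h
  have hI : Int (NN (SS Z) hG) (fun q : El (AA Z hG) × INat (NN (SS Z) hG) =>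
      Mem (op q.2.val q.1.1) z) :=
    Int.of_D₂ (S := fun v => Mem (op (v 1) (v 0)) z)
      (D.memf (DF.op (DF.var _) (DF.var _)) (DF.const _)) fun _ _ => Iff.rfl
  have hp : Int (NN (SS Z) hG) (fun a : El (AA Z hG) => Mem a.1 w) :=
    Int.of_D (S := fun v => Mem (v 0) w) (D.memf (DF.var _) (DF.const _)) fun _ => Iff.rfl
  have hF : IntF (NN (SS Z) hG) (fun a : El (AA Z hG) =>
      the (fun k : INat (NN (SS Z) hG) => Mem (op k.val a.1) z) 0) := by
    refine IntF.the hI (IntF.const _)
  have key : ∀ x, x ∈ E.1 → the (fun k : INat (NN (SS Z) hG) =>
      Mem (op k.val (cA Z hG x).1) z) 0 = nnN Z hG hC (e x) := by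
    intro x hx
    refine the_eq ⟨nnN Z hG hC (e x), (hz' _ _).2 ⟨hx, rfl⟩, fun k hk => ?_⟩ ((hz' _ _).2 ⟨hx, rfl⟩)
    obtain ⟨k, rfl⟩ := nnN_surj hG hC k
    rw [((hz' _ _).1 hk).2]
  have h5 : FinP (NN (SS Z) hG) (fun a : El (AA Z hG) => Mem a.1 w) := by
    refine FinP.of_inj hp hF ?_ (finP_lt (nnN Z hG hC n)) ?_
    · intro a a' ha ha' h
      obtain ⟨x, rfl⟩ := cA_surj hG a
      obtain ⟨x', rfl⟩ := cA_surj hG a'
      have hx := (hw' x).1 ha
      have hx' := (hw' x').1 ha'
      rw [key x hx, key x' hx'] at h
      rw [h2 _ _ hx hx' ((nnN_inj hG hC).1 h)]
    · intro a ha
      obtain ⟨x, rfl⟩ := cA_surj hG a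
      have hx := (hw' x).1 ha
      rw [key x hx]
      exact (nnN_lt hG hC).2 (h1 x hx)
  refine ⟨sep _ (fun a : El (AA Z hG) => Mem a.1 w), (finP_iff hp).1 h5, fun x => ?_⟩
  rw [mem_sep hp]
  exact hw' x

end Pool.Agent.Helper672.ZFA.H310M
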