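import Pool.Agent.H310R3.Perm

/-!
# Partial injections and maps with finite ordered fibres
-/

set_option maxHeartbeats 400000
set_option linter.all false

namespace Pool.Agent.H310

open FirstOrder FirstOrder.Language
open Pool.Agent.Helper672.ZFA

universe u u₁ u₂ u₃ u₄

variable {M : Type u} [L.Structure M] [hM : IsModel M]
variable {α : Type u₁} {β : Type u₂} {γ : Type u₃} {δ : Type u₄}
  [ITy M α] [ITy M β] [ITy M γ] [ITy M δ]

section chain

variable {p : α → Prop} {f : α → α}

variable (M) in
/-- `y` starts a chain that reaches `x` in `n` steps. -/
def Ch (p : α → Prop) (f : α → α) (n : INat M) (y x : α) : Prop :=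
  (∀ z, p z → f z ≠ y) ∧ (∀ j, j < n → p (itr f j y)) ∧ itr f n y = x

theorem int_Ch (hp : Int M p) (hf : IntF M f) :
    Int M (fun q : (INat M × α) × α => Ch M p f q.1.1 q.1.2 q.2) := by
  have hi := int_itr (M := M) hf
  unfold Ch
  (repeat' (first | with_reducible exact IntF.id | with_reducible exact IntF.fst' | with_reducible exact IntF.snd' | with_reducible exact IntF.const _ | with_reducible exact Int.const _ | assumption | with_reducible apply Int.and | with_reducible apply Int.or | with_reducible apply Int.not | with_reducible apply Int.imp | with_reducible apply Int.iff | with_reducible apply Int.ne | with_reducible apply Int.eq | with_reducible apply Int.mem | with_reducible apply Int.subset | with_reducible apply Int.ltN | with_reducible apply Int.leN | with_reducible apply Int.fin | with_reducible apply Int.unique | with_reducible apply Int.all | with_reducible apply Int.ex | with_reducible apply IntF.fst | with_reducible apply IntF.snd | with_reducible apply IntF.app | with_reducible apply IntF.ite | with_reducible apply IntF.sep | with_reducible apply IntF.lam | with_reducible apply IntF.insert | with_reducible apply IntF.singleton | with_reducible apply IntF.union | with_reducible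 apply IntF.inter | with_reducible apply IntF.sdiff | with_reducible apply IntF.isUnion | with_reducible apply IntF.iimage | with_reducible apply IntF.the | with_reducible apply IntF.irec | with_reducible_and_instances apply IntF.add | with_reducible_and_instances apply IntF.mul | with_reducible apply IntF.succ | with_reducible apply IntF.val | (with_reducible refine Int.comp ?_ ?_; assumption) | (with_reducible refine Int.comp₂ ?_ ?_ ?_; assumption) | (with_reducible refine Int.comp₃ ?_ ?_ ?_ ?_; assumption) | (with_reducible refine IntF.comp ?_ ?_; assumption) | (with_reducible refine IntF.comp₂ ?_ ?_ ?_; assumption) | (with_reducible refine IntF.comp₃ ?_ ?_ ?_ ?_; assumption) | with_reducible apply IntF.pair))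

theorem Ch.unique (hp : Int M p) (hf : IntF M f) (hinj : ∀ a b, p a → p b → f a = f b → a = b)
    (n : INat M) : ∀ (y y' : α) (n' : INat M) (x : α), Ch M p f n y x → Ch M p f n' y' x →
      y = y' := by
  have hC := int_Ch hp hf
  refine INat.ind (p := fun n : INat M => ∀ (y y' : α) (n' : INat M) (x : α), Ch M p f n y x →
    Ch M p f n' y' x → y = y') (by (repeat' (first | with_reducible exact IntF.id | with_reducible exact IntF.fst' | with_reducible exact IntF.snd' | with_reducible exact IntF.const _ | with_reducible exact Int.const _ | assumption | with_reducible apply Int.and | with_reducible apply Int.or | with_reducible apply Int.not | with_reducible apply Int.imp | with_reducible apply Int.iff | with_reducible apply Int.ne | with_reducible apply Int.eq | with_reducible apply Int.mem | with_reducible apply Int.subset | with_reducible apply Int.ltN | with_reducible apply Int.leN | with_reducible apply Int.fin | with_reducible apply Int.unique | with_reducible apply Int.all | with_reducible apply Int.ex | with_reducible apply IntF.fst | with_reducible apply IntF.snd | with_reducible apply IntF.app | with_reducible apply IntF.ite | with_reducible apply IntF.sep | with_reducible apply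 IntF.lam | with_reducible apply IntF.insert | with_reducible apply IntF.singleton | with_reducible apply IntF.union | with_reducible apply IntF.inter | with_reducible apply IntF.sdiff | with_reducible apply IntF.isUnion | with_reducible apply IntF.iimage | with_reducible apply IntF.the | with_reducible apply IntF.irec | with_reducible_and_instances apply IntF.add | with_reducible_and_instances apply IntF.mul | with_reducible apply IntF.succ | with_reducible apply IntF.val | (with_reducible refine Int.comp ?_ ?_; assumption) | (with_reducible refine Int.comp₂ ?_ ?_ ?_; assumption) | (with_reducible refine Int.comp₃ ?_ ?_ ?_ ?_; assumption) | (with_reducible refine IntF.comp ?_ ?_; assumption) | (with_reducible refine IntF.comp₂ ?_ ?_ ?_; assumption) | (with_reducible refine IntF.comp₃ ?_ ?_ ?_ ?_; assumption) | with_reducible apply IntF.pair))) ?_ ?_ n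
  · intro y y' n' x h h'
    have h1 : y = x := by
      have := h.2.2
      rwa [itr_zero hf] at this
    rcases INat.eq_zero_or_succ n' with rfl | ⟨k, rfl⟩
    · have h2 := h'.2.2
      rw [itr_zero hf] at h2
      rw [h1, h2]
    · have h2 := h'.2.2
      rw [itr_succ hf, ← h1] at h2
      exact absurd h2 (h.1 _ (h'.2.1 k (INat.lt_succ_self k)))
  · intro n ih y y' n' x h h'
    rcases INat.eq_zero_or_succ n' with rfl | ⟨k, rfl⟩
    · have h2 := h'.2.2
      rw [itr_zero hf] at h2
      have h3 := h.2.2
      rw [itr_succ hf, ← h2] at h3
      exact absurd h3 (h'.1 _ (h.2.1 n (INat.lt_succ_self n)))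
    · have h2 := h.2.2
      have h3 := h'.2.2
      rw [itr_succ hf] at h2 h3
      have h4 := hinj _ _ (h.2.1 n (INat.lt_succ_self n)) (h'.2.1 k (INat.lt_succ_self k))
        (h2.trans h3.symm)
      refine ih y y' k (itr f n y) ⟨h.1, fun j hj => h.2.1 j (hj.trans (INat.lt_succ_self n)), rfl⟩
        ⟨h'.1, fun j hj => h'.2.1 j (hj.trans (INat.lt_succ_self k)), h4.symm⟩

theorem Ch.len (n n' : INat M) {y x x' : α} (hx : ¬ p x) (hx' : ¬ p x')
    (h : Ch M p f n y x) (h' : Ch M p f n' y x') : x = x' := by
  rcases lt_trichotomy n n' with h1 | rfl | h1
  · exact absurd (h.2.2 ▸ h'.2.1 n h1) hx
  · exact h.2.2.symm.trans h'.2.2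
  · exact absurd (h'.2.2 ▸ h.2.1 n' h1) hx'

theorem exists_Ch (hD : DF M α (fun _ => True)) (hp : Int M p) (hf : IntF M f)
    (hinj : ∀ a b, p a → p b → f a = f b → a = b) {x : α} (hx : ¬ p x) :
    ∃ (n : INat M) (y : α), Ch M p f n y x := by
  have hi := int_itr (M := M) hf
  by_contra hno
  push Not at hno
  -- the backward function
  let κ : α → α := fun z => the (fun y => p y ∧ f y = z) z
  have hκ : IntF M κ := by
    change IntF M (fun z => the (fun y => p y ∧ f y = z) z)
    (repeat' (first | with_reducible exact IntF.id | with_reducible exact IntF.fst' | with_reducible exact IntF.snd' | with_reducible exact IntF.const _ | with_reducible exact Int.const _ | assumption | with_reducible apply Int.and | with_reducible apply Int.or | with_reducible apply Int.not | with_reducible apply Int.imp | with_reducible apply Int.iff | with_reducible apply Int.ne | with_reducible apply Int.eq | with_reducible apply Int.mem | with_reducible apply Int.subset | with_reducible apply Int.ltN | with_reducible apply Int.leN | with_reducible apply Int.fin | with_reducible apply Int.unique | with_reducible apply Int.all | with_reducible apply Int.ex | with_reducible apply IntF.fst | with_reducible apply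 IntF.snd | with_reducible apply IntF.app | with_reducible apply IntF.ite | with_reducible apply IntF.sep | with_reducible apply IntF.lam | with_reducible apply IntF.insert | with_reducible apply IntF.singleton | with_reducible apply IntF.union | with_reducible apply IntF.inter | with_reducible apply IntF.sdiff | with_reducible apply IntF.isUnion | with_reducible apply IntF.iimage | with_reducible apply IntF.the | with_reducible apply IntF.irec | with_reducible_and_instances apply IntF.add | with_reducible_and_instances apply IntF.mul | with_reducible apply IntF.succ | with_reducible apply IntF.val | (with_reducible refine Int.comp ?_ ?_; assumption) | (with_reducible refine Int.comp₂ ?_ ?_ ?_; assumption) | (with_reducible refine Int.comp₃ ?_ ?_ ?_ ?_; assumption) | (with_reducible refine IntF.comp ?_ ?_; assumption) | (with_reducible refine IntF.comp₂ ?_ ?_ ?_; assumption) | (with_reducible refine IntF.comp₃ ?_ ?_ ?_ ?_; assumption) | with_reducible apply IntF.pair))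
  have κs : ∀ z, (∃ y, p y ∧ f y = z) → p (κ z) ∧ f (κ z) = z := by
    rintro z ⟨y, hy⟩
    have hu : ∃! y, p y ∧ f y = z :=
      ⟨y, hy, fun y' hy' => hinj _ _ hy'.1 hy.1 (hy'.2.trans hy.2.symm)⟩
    exact the_spec hu
  have hk := int_itr (M := M) hκ
  have inv : ∀ n : INat M, (∀ j, j < n → p (itr f j (itr κ n x))) ∧
      itr f n (itr κ n x) = x := by
    refine INat.ind (by (repeat' (first | with_reducible exact IntF.id | with_reducible exact IntF.fst' | with_reducible exact IntF.snd' | with_reducible exact IntF.const _ | with_reducible exact Int.const _ | assumption | with_reducible apply Int.and | with_reducible apply Int.or | with_reducible apply Int.not | with_reducible apply Int.imp | with_reducible apply Int.iff | with_reducible apply Int.ne | with_reducible apply Int.eq | with_reducible apply Int.mem | with_reducible apply Int.subset | with_reducible apply Int.ltN | with_reducible apply Int.leN | with_reducible apply Int.fin | with_reducible apply Int.unique | with_reducible apply Int.all | with_reducible apply Int.ex | with_reducible apply IntF.fst | with_reducible apply IntF.snd | with_reducible apply IntF.app | with_reducible apply IntF.ite | with_reducible apply IntF.sep |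 with_reducible apply IntF.lam | with_reducible apply IntF.insert | with_reducible apply IntF.singleton | with_reducible apply IntF.union | with_reducible apply IntF.inter | with_reducible apply IntF.sdiff | with_reducible apply IntF.isUnion | with_reducible apply IntF.iimage | with_reducible apply IntF.the | with_reducible apply IntF.irec | with_reducible_and_instances apply IntF.add | with_reducible_and_instances apply IntF.mul | with_reducible apply IntF.succ | with_reducible apply IntF.val | (with_reducible refine Int.comp ?_ ?_; assumption) | (with_reducible refine Int.comp₂ ?_ ?_ ?_; assumption) | (with_reducible refine Int.comp₃ ?_ ?_ ?_ ?_; assumption) | (with_reducible refine IntF.comp ?_ ?_; assumption) | (with_reducible refine IntF.comp₂ ?_ ?_ ?_; assumption) | (with_reducible refine IntF.comp₃ ?_ ?_ ?_ ?_; assumption) | with_reducible apply IntF.pair))) ?_ ?_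
    · refine ⟨fun j hj => absurd hj INat.not_lt_zero, ?_⟩
      rw [itr_zero hf, itr_zero hκ]
    · rintro n ⟨h1, h2⟩
      have h3 : ∃ y, p y ∧ f y = itr κ n x := by
        by_contra h3
        push Not at h3
        exact hno n (itr κ n x) ⟨h3, h1, h2⟩
      obtain ⟨h4, h5⟩ := κs _ h3
      have h6 : itr κ n.succ x = κ (itr κ n x) := itr_succ hκ n x
      rw [h6]
      refine ⟨fun j hj => ?_, ?_⟩
      · rcases INat.eq_zero_or_succ j with rfl | ⟨k, rfl⟩
        · rw [itr_zero hf]
          exact h4
        · rw [itr_succ' hf, h5]
          refine h1 k ?_
          have h7 : k < n.succ := (INat.lt_succ_self k).trans hj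
          rcases (INat.lt_succ_iff.1 h7).lt_or_eq with h8 | rfl
          · exact h8
          · exact absurd hj (lt_irrefl _)
      · rw [itr_succ' hf, h5, h2]
  refine hD ⟨fun n => itr κ n x, by (repeat' (first | with_reducible exact IntF.id | with_reducible exact IntF.fst' | with_reducible exact IntF.snd' | with_reducible exact IntF.const _ | with_reducible exact Int.const _ | assumption | with_reducible apply Int.and | with_reducible apply Int.or | with_reducible apply Int.not | with_reducible apply Int.imp | with_reducible apply Int.iff | with_reducible apply Int.ne | with_reducible apply Int.eq | with_reducible apply Int.mem | with_reducible apply Int.subset | with_reducible apply Int.ltN | with_reducible apply Int.leN | with_reducible apply Int.fin | with_reducible apply Int.unique | with_reducible apply Int.all | with_reducible apply Int.ex | with_reducible apply IntF.fst | with_reducible apply IntF.snd | with_reducible apply IntF.app | with_reducible apply IntF.ite | with_reducible apply IntF.sep | with_reducible apply IntF.lam | with_reducible apply IntF.insert | with_reducible apply IntF.singleton | with_reducible apply IntF.union | with_reducible apply IntF.inter | with_reducible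 apply IntF.sdiff | with_reducible apply IntF.isUnion | with_reducible apply IntF.iimage | with_reducible apply IntF.the | with_reducible apply IntF.irec | with_reducible_and_instances apply IntF.add | with_reducible_and_instances apply IntF.mul | with_reducible apply IntF.succ | with_reducible apply IntF.val | (with_reducible refine Int.comp ?_ ?_; assumption) | (with_reducible refine Int.comp₂ ?_ ?_ ?_; assumption) | (with_reducible refine Int.comp₃ ?_ ?_ ?_ ?_; assumption) | (with_reducible refine IntF.comp ?_ ?_; assumption) | (with_reducible refine IntF.comp₂ ?_ ?_ ?_; assumption) | (with_reducible refine IntF.comp₃ ?_ ?_ ?_ ?_; assumption) | with_reducible apply IntF.pair)), fun _ => trivial, fun m n hmn => ?_⟩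
  replace hmn : itr κ m x = itr κ n x := hmn
  rcases lt_trichotomy m n with h1 | h1 | h1
  · have h2 := (inv n).1 m h1
    rw [← hmn, (inv m).2] at h2
    exact absurd h2 hx
  · exact h1
  · have h2 := (inv m).1 n h1
    rw [hmn, (inv n).2] at h2
    exact absurd h2 hx

/-- A function to the natural numbers is bounded on the domain of a partial injection without
fixed points. -/
theorem bound_part (hD : DF M α (fun _ => True)) (hN : NoDisj M α) (hp : Int M p)
    (hf : IntF M f) (hinj : ∀ a b, p a → p b → f a = f b → a = b) (hne : ∀ a, p a → f a ≠ a)
    {v : α → INat M} (hv : IntF M v) : ∃ N, ∀ x, p x → v x ≤ N := by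
  classical
  have hC := int_Ch hp hf
  have hu : ∀ x, ¬ p x → ∃! y, ∃ n : INat M, Ch M p f n y x := by
    intro x hx
    obtain ⟨n, y, h⟩ := exists_Ch hD hp hf hinj hx
    exact ⟨y, ⟨n, h⟩, fun y' ⟨n', h'⟩ => Ch.unique hp hf hinj n' y' y n x h' h⟩
  let T : α → α := fun x => if p x then f x else the (fun y => ∃ n : INat M, Ch M p f n y x) x
  have hT : IntF M T := by
    change IntF M (fun x => if p x then f x else the (fun y => ∃ n : INat M, Ch M p f n y x) x)
    (repeat' (first | with_reducible exact IntF.id | with_reducible exact IntF.fst' | with_reducible exact IntF.snd' | with_reducible exact IntF.const _ | with_reducible exact Int.const _ | assumption | with_reducible apply Int.and | with_reducible apply Int.or | with_reducible apply Int.not | with_reducible apply Int.imp | with_reducible apply Int.iff | with_reducible apply Int.ne | with_reducible apply Int.eq | with_reducible apply Int.mem | with_reducible apply Int.subset | with_reducible apply Int.ltN | with_reducible apply Int.leN | with_reducible apply Int.fin | with_reducible apply Int.unique | with_reducible apply Int.all | with_reducible apply Int.ex | with_reducible apply IntF.fst | with_reducible apply IntF.snd | with_reducible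 apply IntF.app | with_reducible apply IntF.ite | with_reducible apply IntF.sep | with_reducible apply IntF.lam | with_reducible apply IntF.insert | with_reducible apply IntF.singleton | with_reducible apply IntF.union | with_reducible apply IntF.inter | with_reducible apply IntF.sdiff | with_reducible apply IntF.isUnion | with_reducible apply IntF.iimage | with_reducible apply IntF.the | with_reducible apply IntF.irec | with_reducible_and_instances apply IntF.add | with_reducible_and_instances apply IntF.mul | with_reducible apply IntF.succ | with_reducible apply IntF.val | (with_reducible refine Int.comp ?_ ?_; assumption) | (with_reducible refine Int.comp₂ ?_ ?_ ?_; assumption) | (with_reducible refine Int.comp₃ ?_ ?_ ?_ ?_; assumption) | (with_reducible refine IntF.comp ?_ ?_; assumption) | (with_reducible refine IntF.comp₂ ?_ ?_ ?_; assumption) | (with_reducible refine IntF.comp₃ ?_ ?_ ?_ ?_; assumption) | with_reducible apply IntF.pair))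
  have T1 : ∀ x, p x → T x = f x := fun x hx => if_pos hx
  have T2 : ∀ x, ¬ p x → ∃ n : INat M, Ch M p f n (T x) x := by
    intro x hx
    have h : T x = the (fun y => ∃ n : INat M, Ch M p f n y x) x := if_neg hx
    rw [h]
    exact the_spec (hu x hx)
  obtain ⟨N, h1⟩ := bound_perm hD hN hT (fun a b hab => by
    by_cases ha : p a <;> by_cases hb : p b
    · rw [T1 a ha, T1 b hb] at hab
      exact hinj a b ha hb hab
    · obtain ⟨n, hn⟩ := T2 b hb
      rw [← hab, T1 a ha] at hn
      exact absurd rfl (hn.1 a ha)
    · obtain ⟨n, hn⟩ := T2 a ha
      rw [hab, T1 b hb] at hn
      exact absurd rfl (hn.1 b hb)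
    · obtain ⟨n, hn⟩ := T2 a ha
      obtain ⟨m, hm⟩ := T2 b hb
      rw [hab] at hn
      exact Ch.len n m ha hb hn hm) hv
  exact ⟨N, fun x hx => h1 x (by rw [T1 x hx]; exact hne x hx)⟩

end chain

/-- A function to the natural numbers is bounded on the domain of a partial function without fixed
points whose fibres are finite and linearly ordered. -/
theorem bound_fto (hD : DF M α (fun _ => True)) (hN : NoDisj M α) {p : α → Prop} (hp : Int M p)
    {φ : α → α} (hφ : IntF M φ) (hne : ∀ a, p a → φ a ≠ a)
    (hfib : ∀ b, FinP M (fun a => p a ∧ φ a = b)) {lt : α → α → Prop}
    (hlt : Int M (fun q : α × α => lt q.1 q.2)) (irr : ∀ a, ¬ lt a a)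
    (tr : ∀ a b c, lt a b → lt b c → lt a c)
    (tri : ∀ a b, p a → p b → φ a = φ b → lt a b ∨ a = b ∨ lt b a)
    {v : α → INat M} (hv : IntF M v) : ∃ N, ∀ x, p x → v x ≤ N := by
  -- the selection
  have hR : Int M (fun q : α × α => v q.2 < v q.1 ∨ (v q.1 = v q.2 ∧ lt q.1 q.2)) := by (repeat' (first | with_reducible exact IntF.id | with_reducible exact IntF.fst' | with_reducible exact IntF.snd' | with_reducible exact IntF.const _ | with_reducible exact Int.const _ | assumption | with_reducible apply Int.and | with_reducible apply Int.or | with_reducible apply Int.not | with_reducible apply Int.imp | with_reducible apply Int.iff | with_reducible apply Int.ne | with_reducible apply Int.eq | with_reducible apply Int.mem | with_reducible apply Int.subset | with_reducible apply Int.ltN | with_reducible apply Int.leN | with_reducible apply Int.fin | with_reducible apply Int.unique | with_reducible apply Int.all | with_reducible apply Int.ex | with_reducible apply IntF.fst | with_reducible apply IntF.snd | with_reducible apply IntF.app | with_reducible apply IntF.ite | with_reducible apply IntF.sep | with_reducible apply IntF.lam | with_reducible apply IntF.insert | with_reducible apply IntF.singleton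 | with_reducible apply IntF.union | with_reducible apply IntF.inter | with_reducible apply IntF.sdiff | with_reducible apply IntF.isUnion | with_reducible apply IntF.iimage | with_reducible apply IntF.the | with_reducible apply IntF.irec | with_reducible_and_instances apply IntF.add | with_reducible_and_instances apply IntF.mul | with_reducible apply IntF.succ | with_reducible apply IntF.val | (with_reducible refine Int.comp ?_ ?_; assumption) | (with_reducible refine Int.comp₂ ?_ ?_ ?_; assumption) | (with_reducible refine Int.comp₃ ?_ ?_ ?_ ?_; assumption) | (with_reducible refine IntF.comp ?_ ?_; assumption) | (with_reducible refine IntF.comp₂ ?_ ?_ ?_; assumption) | (with_reducible refine IntF.comp₃ ?_ ?_ ?_ ?_; assumption) | with_reducible apply IntF.pair))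
  have hq : Int M (fun x => p x ∧ ∀ y, p y → φ y = φ x →
      ¬ (v x < v y ∨ (v y = v x ∧ lt y x))) := by (repeat' (first | with_reducible exact IntF.id | with_reducible exact IntF.fst' | with_reducible exact IntF.snd' | with_reducible exact IntF.const _ | with_reducible exact Int.const _ | assumption | with_reducible apply Int.and | with_reducible apply Int.or | with_reducible apply Int.not | with_reducible apply Int.imp | with_reducible apply Int.iff | with_reducible apply Int.ne | with_reducible apply Int.eq | with_reducible apply Int.mem | with_reducible apply Int.subset | with_reducible apply Int.ltN | with_reducible apply Int.leN | with_reducible apply Int.fin | with_reducible apply Int.unique | with_reducible apply Int.all | with_reducible apply Int.ex | with_reducible apply IntF.fst | with_reducible apply IntF.snd | with_reducible apply IntF.app | with_reducible apply IntF.ite | with_reducible apply IntF.sep | with_reducible apply IntF.lam | with_reducible apply IntF.insert | with_reducible apply IntF.singleton | with_reducible apply IntF.union | with_reducible apply IntF.inter | with_reducible apply IntF.sdiff | with_reducible apply IntF.isUnion | with_reducible apply IntF.iimage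 | with_reducible apply IntF.the | with_reducible apply IntF.irec | with_reducible_and_instances apply IntF.add | with_reducible_and_instances apply IntF.mul | with_reducible apply IntF.succ | with_reducible apply IntF.val | (with_reducible refine Int.comp ?_ ?_; assumption) | (with_reducible refine Int.comp₂ ?_ ?_ ?_; assumption) | (with_reducible refine Int.comp₃ ?_ ?_ ?_ ?_; assumption) | (with_reducible refine IntF.comp ?_ ?_; assumption) | (with_reducible refine IntF.comp₂ ?_ ?_ ?_; assumption) | (with_reducible refine IntF.comp₃ ?_ ?_ ?_ ?_; assumption) | with_reducible apply IntF.pair))
  obtain ⟨N, h1⟩ := bound_part (p := fun x => p x ∧ ∀ y, p y → φ y = φ x →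
    ¬ (v x < v y ∨ (v y = v x ∧ lt y x))) hD hN hq hφ (fun a b ha hb hab => by
      have h1 := ha.2 b hb.1 hab.symm
      have h2 := hb.2 a ha.1 hab
      push Not at h1 h2
      have h3 : v a = v b := le_antisymm h2.1 h1.1
      rcases tri a b ha.1 hb.1 hab with h | h | h
      · exact absurd h (h2.2 h3)
      · exact h
      · exact absurd h (h1.2 h3.symm)) (fun a ha => hne a ha.1) hv
  refine ⟨N, fun x hx => ?_⟩
  obtain ⟨y, hy, h2⟩ := FinP.exists_min (p := fun a => p a ∧ φ a = φ x)
    (lt := fun a b => v b < v a ∨ (v a = v b ∧ lt a b)) (by (repeat' (first | with_reducible exact IntF.id | with_reducible exact IntF.fst' | with_reducible exact IntF.snd' | with_reducible exact IntF.const _ | with_reducible exact Int.const _ | assumption | with_reducible apply Int.and | with_reducible apply Int.or | with_reducible apply Int.not | with_reducible apply Int.imp | with_reducible apply Int.iff | with_reducible apply Int.ne | with_reducible apply Int.eq | with_reducible apply Int.mem | with_reducible apply Int.subset | with_reducible apply Int.ltN | with_reducible apply Int.leN | with_reducible apply Int.fin | with_reducible apply Int.unique | with_reducible apply Int.all | with_reducible apply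 Int.ex | with_reducible apply IntF.fst | with_reducible apply IntF.snd | with_reducible apply IntF.app | with_reducible apply IntF.ite | with_reducible apply IntF.sep | with_reducible apply IntF.lam | with_reducible apply IntF.insert | with_reducible apply IntF.singleton | with_reducible apply IntF.union | with_reducible apply IntF.inter | with_reducible apply IntF.sdiff | with_reducible apply IntF.isUnion | with_reducible apply IntF.iimage | with_reducible apply IntF.the | with_reducible apply IntF.irec | with_reducible_and_instances apply IntF.add | with_reducible_and_instances apply IntF.mul | with_reducible apply IntF.succ | with_reducible apply IntF.val | (with_reducible refine Int.comp ?_ ?_; assumption) | (with_reducible refine Int.comp₂ ?_ ?_ ?_; assumption) | (with_reducible refine Int.comp₃ ?_ ?_ ?_ ?_; assumption) | (with_reducible refine IntF.comp ?_ ?_; assumption) | (with_reducible refine IntF.comp₂ ?_ ?_ ?_; assumption) | (with_reducible refine IntF.comp₃ ?_ ?_ ?_ ?_; assumption) | with_reducible apply IntF.pair))) (hfib (φ x)) hR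
    (fun a h => h.elim (fun h => lt_irrefl _ h) fun h => irr a h.2) (fun a b c h1 h2 => by
      rcases h1 with h1 | ⟨h1, h1'⟩ <;> rcases h2 with h2 | ⟨h2, h2'⟩
      · exact Or.inl (h2.trans h1)
      · rw [h2] at h1
        exact Or.inl h1
      · rw [← h1] at h2
        exact Or.inl h2
      · exact Or.inr ⟨h1.trans h2, tr _ _ _ h1' h2'⟩) ⟨x, hx, rfl⟩
  have h3 : v x ≤ v y := by
    by_contra h
    exact h2 x ⟨hx, rfl⟩ (Or.inl (not_le.1 h))
  refine h3.trans (h1 y ⟨hy.1, fun z hz hzy h => h2 z ⟨hz, hzy.trans hy.2⟩ h⟩)

/-- The version with an index function. -/
theorem bound_idx (hD : DF M α (fun _ => True)) (hN : NoDisj M α) {p : α → Prop} (hp : Int M p)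
    {φ : α → α} (hφ : IntF M φ) (hne : ∀ a, p a → φ a ≠ a) {x : α → INat M} (hx : IntF M x)
    (hinj : ∀ a b, p a → p b → φ a = φ b → x a = x b → a = b)
    {v : α → INat M} (hv : IntF M v) : ∃ N, ∀ x, p x → v x ≤ N := by
  refine bound_fto hD hN hp hφ hne (fun b => ?_) (lt := fun a b => x a < x b) (by (repeat' (first | with_reducible exact IntF.id | with_reducible exact IntF.fst' | with_reducible exact IntF.snd' | with_reducible exact IntF.const _ | with_reducible exact Int.const _ | assumption | with_reducible apply Int.and | with_reducible apply Int.or | with_reducible apply Int.not | with_reducible apply Int.imp | with_reducible apply Int.iff | with_reducible apply Int.ne | with_reducible apply Int.eq | with_reducible apply Int.mem | with_reducible apply Int.subset | with_reducible apply Int.ltN | with_reducible apply Int.leN | with_reducible apply Int.fin | with_reducible apply Int.unique | with_reducible apply Int.all | with_reducible apply Int.ex | with_reducible apply IntF.fst | with_reducible apply IntF.snd | with_reducible apply IntF.app | with_reducible apply IntF.ite | with_reducible apply IntF.sep | with_reducible apply IntF.lam | with_reducible apply IntF.insert | with_reducible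 apply IntF.singleton | with_reducible apply IntF.union | with_reducible apply IntF.inter | with_reducible apply IntF.sdiff | with_reducible apply IntF.isUnion | with_reducible apply IntF.iimage | with_reducible apply IntF.the | with_reducible apply IntF.irec | with_reducible_and_instances apply IntF.add | with_reducible_and_instances apply IntF.mul | with_reducible apply IntF.succ | with_reducible apply IntF.val | (with_reducible refine Int.comp ?_ ?_; assumption) | (with_reducible refine Int.comp₂ ?_ ?_ ?_; assumption) | (with_reducible refine Int.comp₃ ?_ ?_ ?_ ?_; assumption) | (with_reducible refine IntF.comp ?_ ?_; assumption) | (with_reducible refine IntF.comp₂ ?_ ?_ ?_; assumption) | (with_reducible refine IntF.comp₃ ?_ ?_ ?_ ?_; assumption) | with_reducible apply IntF.pair)))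
    (fun a => lt_irrefl _) (fun _ _ _ => lt_trans) (fun a b ha hb hab => ?_) hv
  · refine (hD.mono fun _ _ => trivial).of_idx (by (repeat' (first | with_reducible exact IntF.id | with_reducible exact IntF.fst' | with_reducible exact IntF.snd' | with_reducible exact IntF.const _ | with_reducible exact Int.const _ | assumption | with_reducible apply Int.and | with_reducible apply Int.or | with_reducible apply Int.not | with_reducible apply Int.imp | with_reducible apply Int.iff | with_reducible apply Int.ne | with_reducible apply Int.eq | with_reducible apply Int.mem | with_reducible apply Int.subset | with_reducible apply Int.ltN | with_reducible apply Int.leN | with_reducible apply Int.fin | with_reducible apply Int.unique | with_reducible apply Int.all | with_reducible apply Int.ex | with_reducible apply IntF.fst | with_reducible apply IntF.snd | with_reducible apply IntF.app | with_reducible apply IntF.ite | with_reducible apply IntF.sep | with_reducible apply IntF.lam | with_reducible apply IntF.insert | with_reducible apply IntF.singleton | with_reducible apply IntF.union | with_reducible apply IntF.inter | with_reducible apply IntF.sdiff | with_reducible apply IntF.isUnion | with_reducible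 apply IntF.iimage | with_reducible apply IntF.the | with_reducible apply IntF.irec | with_reducible_and_instances apply IntF.add | with_reducible_and_instances apply IntF.mul | with_reducible apply IntF.succ | with_reducible apply IntF.val | (with_reducible refine Int.comp ?_ ?_; assumption) | (with_reducible refine Int.comp₂ ?_ ?_ ?_; assumption) | (with_reducible refine Int.comp₃ ?_ ?_ ?_ ?_; assumption) | (with_reducible refine IntF.comp ?_ ?_; assumption) | (with_reducible refine IntF.comp₂ ?_ ?_ ?_; assumption) | (with_reducible refine IntF.comp₃ ?_ ?_ ?_ ?_; assumption) | with_reducible apply IntF.pair))) hx fun a a' ha ha' h => ?_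
    exact hinj a a' ha.1 ha'.1 (ha.2.trans ha'.2.symm) h
  · rcases lt_trichotomy (x a) (x b) with h | h | h
    · exact Or.inl h
    · exact Or.inr (Or.inl (hinj a b ha hb hab h))
    · exact Or.inr (Or.inr h)

end Pool.Agent.H310
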