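import Pool.Agent.H310R3.Cyc

/-!
# No injections from the permutations of a set to the natural numbers times the set
-/

set_option maxHeartbeats 400000
set_option linter.all false

namespace Pool.Agent.H310

open FirstOrder FirstOrder.Language
open Pool.Agent.Helper672.ZFA

universe u u₁ u₂ u₃ u₄

variable {M : Type u} [L.Structure M] [hM : IsModel M]
variable {α : Type u₁} [ITy M α] {i : IPm M α → INat M × α}

/-- The permutation with value `c`, period `n` and least index. -/
def Sel (i : IPm M α → INat M × α) (c₀ c : α) (n : INat M) (σ : IPm M α) : Prop :=
  (i σ).2 = c ∧ Per c₀ σ n ∧ ∀ τ, (i τ).2 = c → Per c₀ τ n → (i σ).1 ≤ (i τ).1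

theorem per_bound (hD : DF M α (fun _ => True)) (hi : IntF M i)
    (hinj : ∀ σ τ, i σ = i τ → σ = τ) (c₀ c : α) :
    ∃ N, ∀ σ n, (i σ).2 = c → Per c₀ σ n → n ≤ N := by
  by_contra hno
  push Not at hno
  have hP := int_Per (M := M) c₀
  have hit := int_itp (M := M) (α := α)
  have hpr := int_pr (M := M)
  have hS : Int M (fun q : INat M × IPm M α => Sel i c₀ c q.1 q.2) := by
    unfold Sel
    (repeat' (first | with_reducible exact IntF.id | with_reducible exact IntF.fst' | with_reducible exact IntF.snd' | with_reducible exact IntF.const _ | with_reducible exact Int.const _ | assumption | with_reducible apply Int.and | with_reducible apply Int.or | with_reducible apply Int.not | with_reducible apply Int.imp | with_reducible apply Int.iff | with_reducible apply Int.ne | with_reducible apply Int.eq | with_reducible apply Int.mem | with_reducible apply Int.subset | with_reducible apply Int.ltN | with_reducible apply Int.leN | with_reducible apply Int.fin | with_reducible apply Int.unique | with_reducible apply Int.all | with_reducible apply Int.ex | with_reducible apply IntF.fst | with_reducible apply IntF.snd | with_reducible apply IntF.app | with_reducible apply IntF.ite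 | with_reducible apply IntF.sep | with_reducible apply IntF.lam | with_reducible apply IntF.insert | with_reducible apply IntF.singleton | with_reducible apply IntF.union | with_reducible apply IntF.inter | with_reducible apply IntF.sdiff | with_reducible apply IntF.isUnion | with_reducible apply IntF.iimage | with_reducible apply IntF.the | with_reducible apply IntF.irec | with_reducible_and_instances apply IntF.add | with_reducible_and_instances apply IntF.mul | with_reducible apply IntF.succ | with_reducible apply IntF.val | (with_reducible refine Int.comp ?_ ?_; assumption) | (with_reducible refine Int.comp₂ ?_ ?_ ?_; assumption) | (with_reducible refine Int.comp₃ ?_ ?_ ?_ ?_; assumption) | (with_reducible refine IntF.comp ?_ ?_; assumption) | (with_reducible refine IntF.comp₂ ?_ ?_ ?_; assumption) | (with_reducible refine IntF.comp₃ ?_ ?_ ?_ ?_; assumption) | with_reducible apply IntF.pair))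
  have hSu : ∀ n σ τ, Sel i c₀ c n σ → Sel i c₀ c n τ → σ = τ := by
    intro n σ τ h1 h2
    exact hinj _ _ (Prod.ext (le_antisymm (h1.2.2 τ h2.1 h2.2.1) (h2.2.2 σ h1.1 h1.2.1))
      (h1.1.trans h2.1.symm))
  have hSe : ∀ σ n, (i σ).2 = c → Per c₀ σ n → ∃ τ, Sel i c₀ c n τ := by
    intro σ n h1 h2
    obtain ⟨k, ⟨τ, h3, h4, h5⟩, h6⟩ := INat.exists_least
      (p := fun k => ∃ τ, (i τ).2 = c ∧ Per c₀ τ n ∧ (i τ).1 = k) (by (repeat' (first | with_reducible exact IntF.id | with_reducible exact IntF.fst' | with_reducible exact IntF.snd' | with_reducible exact IntF.const _ | with_reducible exact Int.const _ | assumption | with_reducible apply Int.and | with_reducible apply Int.or | with_reducible apply Int.not | with_reducible apply Int.imp | with_reducible apply Int.iff | with_reducible apply Int.ne | with_reducible apply Int.eq | with_reducible apply Int.mem | with_reducible apply Int.subset | with_reducible apply Int.ltN | with_reducible apply Int.leN | with_reducible apply Int.fin | with_reducible apply Int.unique | with_reducible apply Int.all | with_reducible apply Int.ex | with_reducible apply IntF.fst | with_reducible apply IntF.snd | with_reducible apply IntF.app |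 with_reducible apply IntF.ite | with_reducible apply IntF.sep | with_reducible apply IntF.lam | with_reducible apply IntF.insert | with_reducible apply IntF.singleton | with_reducible apply IntF.union | with_reducible apply IntF.inter | with_reducible apply IntF.sdiff | with_reducible apply IntF.isUnion | with_reducible apply IntF.iimage | with_reducible apply IntF.the | with_reducible apply IntF.irec | with_reducible_and_instances apply IntF.add | with_reducible_and_instances apply IntF.mul | with_reducible apply IntF.succ | with_reducible apply IntF.val | (with_reducible refine Int.comp ?_ ?_; assumption) | (with_reducible refine Int.comp₂ ?_ ?_ ?_; assumption) | (with_reducible refine Int.comp₃ ?_ ?_ ?_ ?_; assumption) | (with_reducible refine IntF.comp ?_ ?_; assumption) | (with_reducible refine IntF.comp₂ ?_ ?_ ?_; assumption) | (with_reducible refine IntF.comp₃ ?_ ?_ ?_ ?_; assumption) | with_reducible apply IntF.pair))) ⟨_, σ, h1, h2, rfl⟩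
    exact ⟨τ, h3, h4, fun τ' h7 h8 => h5 ▸ h6 _ ⟨τ', h7, h8, rfl⟩⟩
  have hu : IntF M (fun p => the (fun y => ∃ n j σ, p = pr n j ∧ Sel i c₀ c n σ ∧
      y = itp σ j c₀) c₀) := by (repeat' (first | with_reducible exact IntF.id | with_reducible exact IntF.fst' | with_reducible exact IntF.snd' | with_reducible exact IntF.const _ | with_reducible exact Int.const _ | assumption | with_reducible apply Int.and | with_reducible apply Int.or | with_reducible apply Int.not | with_reducible apply Int.imp | with_reducible apply Int.iff | with_reducible apply Int.ne | with_reducible apply Int.eq | with_reducible apply Int.mem | with_reducible apply Int.subset | with_reducible apply Int.ltN | with_reducible apply Int.leN | with_reducible apply Int.fin | with_reducible apply Int.unique | with_reducible apply Int.all | with_reducible apply Int.ex | with_reducible apply IntF.fst | with_reducible apply IntF.snd | with_reducible apply IntF.app | with_reducible apply IntF.ite | with_reducible apply IntF.sep | with_reducible apply IntF.lam | with_reducible apply IntF.insert | with_reducible apply IntF.singleton | with_reducible apply IntF.union | with_reducible apply IntF.inter | with_reducible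 apply IntF.sdiff | with_reducible apply IntF.isUnion | with_reducible apply IntF.iimage | with_reducible apply IntF.the | with_reducible apply IntF.irec | with_reducible_and_instances apply IntF.add | with_reducible_and_instances apply IntF.mul | with_reducible apply IntF.succ | with_reducible apply IntF.val | (with_reducible refine Int.comp ?_ ?_; assumption) | (with_reducible refine Int.comp₂ ?_ ?_ ?_; assumption) | (with_reducible refine Int.comp₃ ?_ ?_ ?_ ?_; assumption) | (with_reducible refine IntF.comp ?_ ?_; assumption) | (with_reducible refine IntF.comp₂ ?_ ?_ ?_; assumption) | (with_reducible refine IntF.comp₃ ?_ ?_ ?_ ?_; assumption) | with_reducible apply IntF.pair))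
  have hu' : ∀ n j σ, Sel i c₀ c n σ → the (fun y => ∃ n' j' σ', pr n j = pr n' j' ∧
      Sel i c₀ c n' σ' ∧ y = itp σ' j' c₀) c₀ = itp σ j c₀ := by
    intro n j σ h
    refine the_eq ⟨itp σ j c₀, ⟨n, j, σ, rfl, h, rfl⟩, ?_⟩ ⟨n, j, σ, rfl, h, rfl⟩
    rintro y ⟨n', j', σ', h1, h2, rfl⟩
    obtain ⟨rfl, rfl⟩ := pr_inj h1
    rw [hSu _ _ _ h h2]
  obtain ⟨S, hS1, hS2⟩ := hD.range hu (fun _ => trivial)
  obtain ⟨N, hN⟩ := pigeon hS1
  obtain ⟨σ, n, h1, h2, h3⟩ := hno N
  obtain ⟨τ, h4⟩ := hSe σ n h1 h2
  have hg : IntF M (fun j => itp τ j c₀) := by (repeat' (first | with_reducible exact IntF.id | with_reducible exact IntF.fst' | with_reducible exact IntF.snd' | with_reducible exact IntF.const _ | with_reducible exact Int.const _ | assumption | with_reducible apply Int.and | with_reducible apply Int.or | with_reducible apply Int.not | with_reducible apply Int.imp | with_reducible apply Int.iff | with_reducible apply Int.ne | with_reducible apply Int.eq | with_reducible apply Int.mem | with_reducible apply Int.subset | with_reducible apply Int.ltN | with_reducible apply Int.leN | with_reducible apply Int.fin | with_reducible apply Int.unique | with_reducible apply Int.all |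 with_reducible apply Int.ex | with_reducible apply IntF.fst | with_reducible apply IntF.snd | with_reducible apply IntF.app | with_reducible apply IntF.ite | with_reducible apply IntF.sep | with_reducible apply IntF.lam | with_reducible apply IntF.insert | with_reducible apply IntF.singleton | with_reducible apply IntF.union | with_reducible apply IntF.inter | with_reducible apply IntF.sdiff | with_reducible apply IntF.isUnion | with_reducible apply IntF.iimage | with_reducible apply IntF.the | with_reducible apply IntF.irec | with_reducible_and_instances apply IntF.add | with_reducible_and_instances apply IntF.mul | with_reducible apply IntF.succ | with_reducible apply IntF.val | (with_reducible refine Int.comp ?_ ?_; assumption) | (with_reducible refine Int.comp₂ ?_ ?_ ?_; assumption) | (with_reducible refine Int.comp₃ ?_ ?_ ?_ ?_; assumption) | (with_reducible refine IntF.comp ?_ ?_; assumption) | (with_reducible refine IntF.comp₂ ?_ ?_ ?_; assumption) | (with_reducible refine IntF.comp₃ ?_ ?_ ?_ ?_; assumption) | with_reducible apply IntF.pair))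
  refine hN ⟨_, hg⟩ (fun j _ => ?_) fun i' j hi' hj hij => ?_
  · change itp τ j c₀ ∈ S
    rw [← hu' n j τ h4]
    exact hS2 _ ⟨_, rfl⟩
  · exact h4.2.1.orbit (hi'.trans h3.le) (hj.trans h3.le) hij

theorem exists_unbounded' (hD : DF M α (fun _ => True)) (hinf : ¬ FinP M (fun _ : α => True))
    (hi : IntF M i) (hinj : ∀ σ τ, i σ = i τ → σ = τ) (c₀ : α) :
    ∃ v : α → INat M, IntF M v ∧ ∀ N, ∃ x, N < v x := by
  have hP := int_Per (M := M) c₀
  have h1 : ∀ c, ∃! b, (∀ σ n, (i σ).2 = c → Per c₀ σ n → n ≤ b) ∧
      ∀ b', (∀ σ n, (i σ).2 = c → Per c₀ σ n → n ≤ b') → b ≤ b' := by
    intro c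
    obtain ⟨b, h2, h3⟩ := INat.exists_least
      (p := fun b => ∀ σ n, (i σ).2 = c → Per c₀ σ n → n ≤ b) (by (repeat' (first | with_reducible exact IntF.id | with_reducible exact IntF.fst' | with_reducible exact IntF.snd' | with_reducible exact IntF.const _ | with_reducible exact Int.const _ | assumption | with_reducible apply Int.and | with_reducible apply Int.or | with_reducible apply Int.not | with_reducible apply Int.imp | with_reducible apply Int.iff | with_reducible apply Int.ne | with_reducible apply Int.eq | with_reducible apply Int.mem | with_reducible apply Int.subset | with_reducible apply Int.ltN | with_reducible apply Int.leN | with_reducible apply Int.fin | with_reducible apply Int.unique | with_reducible apply Int.all | with_reducible apply Int.ex | with_reducible apply IntF.fst | with_reducible apply IntF.snd | with_reducible apply IntF.app | with_reducible apply IntF.ite | with_reducible apply IntF.sep | with_reducible apply IntF.lam | with_reducible apply IntF.insert | with_reducible apply IntF.singleton | with_reducible apply IntF.union | with_reducible apply IntF.inter | with_reducible apply IntF.sdiff | with_reducible apply IntF.isUnion | with_reducible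 apply IntF.iimage | with_reducible apply IntF.the | with_reducible apply IntF.irec | with_reducible_and_instances apply IntF.add | with_reducible_and_instances apply IntF.mul | with_reducible apply IntF.succ | with_reducible apply IntF.val | (with_reducible refine Int.comp ?_ ?_; assumption) | (with_reducible refine Int.comp₂ ?_ ?_ ?_; assumption) | (with_reducible refine Int.comp₃ ?_ ?_ ?_ ?_; assumption) | (with_reducible refine IntF.comp ?_ ?_; assumption) | (with_reducible refine IntF.comp₂ ?_ ?_ ?_; assumption) | (with_reducible refine IntF.comp₃ ?_ ?_ ?_ ?_; assumption) | with_reducible apply IntF.pair)))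
      (per_bound hD hi hinj c₀ c)
    exact ⟨b, ⟨h2, h3⟩, fun b' h4 => le_antisymm (h4.2 _ h2) (h3 _ h4.1)⟩
  refine ⟨fun c => the (fun b => (∀ σ n, (i σ).2 = c → Per c₀ σ n → n ≤ b) ∧
      ∀ b', (∀ σ n, (i σ).2 = c → Per c₀ σ n → n ≤ b') → b ≤ b') 0, by (repeat' (first | with_reducible exact IntF.id | with_reducible exact IntF.fst' | with_reducible exact IntF.snd' | with_reducible exact IntF.const _ | with_reducible exact Int.const _ | assumption | with_reducible apply Int.and | with_reducible apply Int.or | with_reducible apply Int.not | with_reducible apply Int.imp | with_reducible apply Int.iff | with_reducible apply Int.ne | with_reducible apply Int.eq | with_reducible apply Int.mem | with_reducible apply Int.subset | with_reducible apply Int.ltN | with_reducible apply Int.leN | with_reducible apply Int.fin | with_reducible apply Int.unique | with_reducible apply Int.all | with_reducible apply Int.ex | with_reducible apply IntF.fst | with_reducible apply IntF.snd | with_reducible apply IntF.app | with_reducible apply IntF.ite | with_reducible apply IntF.sep | with_reducible apply IntF.lam | with_reducible apply IntF.insert | with_reducible apply IntF.singleton | with_reducible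 apply IntF.union | with_reducible apply IntF.inter | with_reducible apply IntF.sdiff | with_reducible apply IntF.isUnion | with_reducible apply IntF.iimage | with_reducible apply IntF.the | with_reducible apply IntF.irec | with_reducible_and_instances apply IntF.add | with_reducible_and_instances apply IntF.mul | with_reducible apply IntF.succ | with_reducible apply IntF.val | (with_reducible refine Int.comp ?_ ?_; assumption) | (with_reducible refine Int.comp₂ ?_ ?_ ?_; assumption) | (with_reducible refine Int.comp₃ ?_ ?_ ?_ ?_; assumption) | (with_reducible refine IntF.comp ?_ ?_; assumption) | (with_reducible refine IntF.comp₂ ?_ ?_ ?_; assumption) | (with_reducible refine IntF.comp₃ ?_ ?_ ?_ ?_; assumption) | with_reducible apply IntF.pair)), fun N => ?_⟩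
  obtain ⟨s, hs⟩ := exists_En hinf c₀ N.succ
  refine ⟨(i (cyc N.succ s)).2, ?_⟩
  exact (INat.lt_succ_self N).trans_le ((the_spec (h1 _)).1 _ _ rfl (Per_cyc hD hs))

theorem exists_lev (hD : DF M α (fun _ => True)) (hN : NoDisj M α)
    (hinf : ¬ FinP M (fun _ : α => True)) (hi : IntF M i) (hinj : ∀ σ τ, i σ = i τ → σ = τ)
    (c₀ : α) : ∃ lev : α → INat M, IntF M lev ∧ ∀ m, FinP M (fun e => lev e ≤ m) := by
  have ht := int_tsp (M := M) (α := α)
  obtain ⟨v, hv, hub⟩ := exists_unbounded' hD hinf hi hinj c₀
  refine levels (φ := fun e a => (i (tsp M e a)).2) hv hub (by (repeat' (first | with_reducible exact IntF.id | with_reducible exact IntF.fst' | with_reducible exact IntF.snd' | with_reducible exact IntF.const _ | with_reducible exact Int.const _ | assumption | with_reducible apply Int.and | with_reducible apply Int.or | with_reducible apply Int.not | with_reducible apply Int.imp | with_reducible apply Int.iff | with_reducible apply Int.ne | with_reducible apply Int.eq | with_reducible apply Int.mem | with_reducible apply Int.subset | with_reducible apply Int.ltN | with_reducible apply Int.leN | with_reducible apply Int.fin | with_reducible apply Int.unique | with_reducible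 apply Int.all | with_reducible apply Int.ex | with_reducible apply IntF.fst | with_reducible apply IntF.snd | with_reducible apply IntF.app | with_reducible apply IntF.ite | with_reducible apply IntF.sep | with_reducible apply IntF.lam | with_reducible apply IntF.insert | with_reducible apply IntF.singleton | with_reducible apply IntF.union | with_reducible apply IntF.inter | with_reducible apply IntF.sdiff | with_reducible apply IntF.isUnion | with_reducible apply IntF.iimage | with_reducible apply IntF.the | with_reducible apply IntF.irec | with_reducible_and_instances apply IntF.add | with_reducible_and_instances apply IntF.mul | with_reducible apply IntF.succ | with_reducible apply IntF.val | (with_reducible refine Int.comp ?_ ?_; assumption) | (with_reducible refine Int.comp₂ ?_ ?_ ?_; assumption) | (with_reducible refine Int.comp₃ ?_ ?_ ?_ ?_; assumption) | (with_reducible refine IntF.comp ?_ ?_; assumption) | (with_reducible refine IntF.comp₂ ?_ ?_ ?_; assumption) | (with_reducible refine IntF.comp₃ ?_ ?_ ?_ ?_; assumption) | with_reducible apply IntF.pair))) (fun a => ?_) fun e => ?_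
  · refine (hD.mono fun _ _ => trivial).of_idx (f := fun e => (i (tsp M e a)).1) (by (repeat' (first | with_reducible exact IntF.id | with_reducible exact IntF.fst' | with_reducible exact IntF.snd' | with_reducible exact IntF.const _ | with_reducible exact Int.const _ | assumption | with_reducible apply Int.and | with_reducible apply Int.or | with_reducible apply Int.not | with_reducible apply Int.imp | with_reducible apply Int.iff | with_reducible apply Int.ne | with_reducible apply Int.eq | with_reducible apply Int.mem | with_reducible apply Int.subset | with_reducible apply Int.ltN | with_reducible apply Int.leN | with_reducible apply Int.fin | with_reducible apply Int.unique | with_reducible apply Int.all | with_reducible apply Int.ex | with_reducible apply IntF.fst | with_reducible apply IntF.snd | with_reducible apply IntF.app | with_reducible apply IntF.ite | with_reducible apply IntF.sep | with_reducible apply IntF.lam | with_reducible apply IntF.insert | with_reducible apply IntF.singleton | with_reducible apply IntF.union | with_reducible apply IntF.inter | with_reducible apply IntF.sdiff | with_reducible apply IntF.isUnion | with_reducible apply IntF.iimage | with_reducible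 apply IntF.the | with_reducible apply IntF.irec | with_reducible_and_instances apply IntF.add | with_reducible_and_instances apply IntF.mul | with_reducible apply IntF.succ | with_reducible apply IntF.val | (with_reducible refine Int.comp ?_ ?_; assumption) | (with_reducible refine Int.comp₂ ?_ ?_ ?_; assumption) | (with_reducible refine Int.comp₃ ?_ ?_ ?_ ?_; assumption) | (with_reducible refine IntF.comp ?_ ?_; assumption) | (with_reducible refine IntF.comp₂ ?_ ?_ ?_; assumption) | (with_reducible refine IntF.comp₃ ?_ ?_ ?_ ?_; assumption) | with_reducible apply IntF.pair)))
      (by (repeat' (first | with_reducible exact IntF.id | with_reducible exact IntF.fst' | with_reducible exact IntF.snd' | with_reducible exact IntF.const _ | with_reducible exact Int.const _ | assumption | with_reducible apply Int.and | with_reducible apply Int.or | with_reducible apply Int.not | with_reducible apply Int.imp | with_reducible apply Int.iff | with_reducible apply Int.ne | with_reducible apply Int.eq | with_reducible apply Int.mem | with_reducible apply Int.subset | with_reducible apply Int.ltN | with_reducible apply Int.leN | with_reducible apply Int.fin | with_reducible apply Int.unique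 | with_reducible apply Int.all | with_reducible apply Int.ex | with_reducible apply IntF.fst | with_reducible apply IntF.snd | with_reducible apply IntF.app | with_reducible apply IntF.ite | with_reducible apply IntF.sep | with_reducible apply IntF.lam | with_reducible apply IntF.insert | with_reducible apply IntF.singleton | with_reducible apply IntF.union | with_reducible apply IntF.inter | with_reducible apply IntF.sdiff | with_reducible apply IntF.isUnion | with_reducible apply IntF.iimage | with_reducible apply IntF.the | with_reducible apply IntF.irec | with_reducible_and_instances apply IntF.add | with_reducible_and_instances apply IntF.mul | with_reducible apply IntF.succ | with_reducible apply IntF.val | (with_reducible refine Int.comp ?_ ?_; assumption) | (with_reducible refine Int.comp₂ ?_ ?_ ?_; assumption) | (with_reducible refine Int.comp₃ ?_ ?_ ?_ ?_; assumption) | (with_reducible refine IntF.comp ?_ ?_; assumption) | (with_reducible refine IntF.comp₂ ?_ ?_ ?_; assumption) | (with_reducible refine IntF.comp₃ ?_ ?_ ?_ ?_; assumption) | with_reducible apply IntF.pair))) fun e e' he he' h => ?_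
    exact tsp_inj' (hinj _ _ (Prod.ext h (he.2.trans he'.2.symm)))
  · obtain ⟨N, hN'⟩ := bound_idx hD hN (p := fun a => a ≠ e ∧ (i (tsp M e a)).2 ≠ a) (by (repeat' (first | with_reducible exact IntF.id | with_reducible exact IntF.fst' | with_reducible exact IntF.snd' | with_reducible exact IntF.const _ | with_reducible exact Int.const _ | assumption | with_reducible apply Int.and | with_reducible apply Int.or | with_reducible apply Int.not | with_reducible apply Int.imp | with_reducible apply Int.iff | with_reducible apply Int.ne | with_reducible apply Int.eq | with_reducible apply Int.mem | with_reducible apply Int.subset | with_reducible apply Int.ltN | with_reducible apply Int.leN | with_reducible apply Int.fin | with_reducible apply Int.unique | with_reducible apply Int.all | with_reducible apply Int.ex | with_reducible apply IntF.fst | with_reducible apply IntF.snd | with_reducible apply IntF.app | with_reducible apply IntF.ite | with_reducible apply IntF.sep | with_reducible apply IntF.lam | with_reducible apply IntF.insert | with_reducible apply IntF.singleton | with_reducible apply IntF.union | with_reducible apply IntF.inter | with_reducible apply IntF.sdiff | with_reducible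 apply IntF.isUnion | with_reducible apply IntF.iimage | with_reducible apply IntF.the | with_reducible apply IntF.irec | with_reducible_and_instances apply IntF.add | with_reducible_and_instances apply IntF.mul | with_reducible apply IntF.succ | with_reducible apply IntF.val | (with_reducible refine Int.comp ?_ ?_; assumption) | (with_reducible refine Int.comp₂ ?_ ?_ ?_; assumption) | (with_reducible refine Int.comp₃ ?_ ?_ ?_ ?_; assumption) | (with_reducible refine IntF.comp ?_ ?_; assumption) | (with_reducible refine IntF.comp₂ ?_ ?_ ?_; assumption) | (with_reducible refine IntF.comp₃ ?_ ?_ ?_ ?_; assumption) | with_reducible apply IntF.pair)))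
      (φ := fun a => (i (tsp M e a)).2) (by (repeat' (first | with_reducible exact IntF.id | with_reducible exact IntF.fst' | with_reducible exact IntF.snd' | with_reducible exact IntF.const _ | with_reducible exact Int.const _ | assumption | with_reducible apply Int.and | with_reducible apply Int.or | with_reducible apply Int.not | with_reducible apply Int.imp | with_reducible apply Int.iff | with_reducible apply Int.ne | with_reducible apply Int.eq | with_reducible apply Int.mem | with_reducible apply Int.subset | with_reducible apply Int.ltN | with_reducible apply Int.leN | with_reducible apply Int.fin | with_reducible apply Int.unique | with_reducible apply Int.all | with_reducible apply Int.ex | with_reducible apply IntF.fst | with_reducible apply IntF.snd | with_reducible apply IntF.app | with_reducible apply IntF.ite | with_reducible apply IntF.sep | with_reducible apply IntF.lam | with_reducible apply IntF.insert | with_reducible apply IntF.singleton | with_reducible apply IntF.union | with_reducible apply IntF.inter | with_reducible apply IntF.sdiff | with_reducible apply IntF.isUnion | with_reducible apply IntF.iimage | with_reducible apply IntF.the | with_reducible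 apply IntF.irec | with_reducible_and_instances apply IntF.add | with_reducible_and_instances apply IntF.mul | with_reducible apply IntF.succ | with_reducible apply IntF.val | (with_reducible refine Int.comp ?_ ?_; assumption) | (with_reducible refine Int.comp₂ ?_ ?_ ?_; assumption) | (with_reducible refine Int.comp₃ ?_ ?_ ?_ ?_; assumption) | (with_reducible refine IntF.comp ?_ ?_; assumption) | (with_reducible refine IntF.comp₂ ?_ ?_ ?_; assumption) | (with_reducible refine IntF.comp₃ ?_ ?_ ?_ ?_; assumption) | with_reducible apply IntF.pair))) (fun a ha => ha.2)
      (x := fun a => (i (tsp M e a)).1) (by (repeat' (first | with_reducible exact IntF.id | with_reducible exact IntF.fst' | with_reducible exact IntF.snd' | with_reducible exact IntF.const _ | with_reducible exact Int.const _ | assumption | with_reducible apply Int.and | with_reducible apply Int.or | with_reducible apply Int.not | with_reducible apply Int.imp | with_reducible apply Int.iff | with_reducible apply Int.ne | with_reducible apply Int.eq | with_reducible apply Int.mem | with_reducible apply Int.subset | with_reducible apply Int.ltN | with_reducible apply Int.leN | with_reducible apply Int.fin | with_reducible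 apply Int.unique | with_reducible apply Int.all | with_reducible apply Int.ex | with_reducible apply IntF.fst | with_reducible apply IntF.snd | with_reducible apply IntF.app | with_reducible apply IntF.ite | with_reducible apply IntF.sep | with_reducible apply IntF.lam | with_reducible apply IntF.insert | with_reducible apply IntF.singleton | with_reducible apply IntF.union | with_reducible apply IntF.inter | with_reducible apply IntF.sdiff | with_reducible apply IntF.isUnion | with_reducible apply IntF.iimage | with_reducible apply IntF.the | with_reducible apply IntF.irec | with_reducible_and_instances apply IntF.add | with_reducible_and_instances apply IntF.mul | with_reducible apply IntF.succ | with_reducible apply IntF.val | (with_reducible refine Int.comp ?_ ?_; assumption) | (with_reducible refine Int.comp₂ ?_ ?_ ?_; assumption) | (with_reducible refine Int.comp₃ ?_ ?_ ?_ ?_; assumption) | (with_reducible refine IntF.comp ?_ ?_; assumption) | (with_reducible refine IntF.comp₂ ?_ ?_ ?_; assumption) | (with_reducible refine IntF.comp₃ ?_ ?_ ?_ ?_; assumption) | with_reducible apply IntF.pair)))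
      (fun a b ha hb h1 h2 => tsp_inj ha.1 (hinj _ _ (Prod.ext h2 h1))) hv
    refine ⟨N, fun a ha hva => ?_⟩
    by_contra hne
    exact absurd (hN' a ⟨ha, hne⟩) (not_le.2 hva)

/-! ### Bad configurations -/

theorem bound_bad {T : Type u₂} [ITy M T] (hD : DF M α (fun _ => True)) (hN : NoDisj M α)
    (hi : IntF M i) (hinj : ∀ σ τ, i σ = i τ → σ = τ) {B : INat M → T → Prop}
    (hB : Int M (fun q : INat M × T => B q.1 q.2)) {σ₁ σ₂ : T → IPm M α} (h1 : IntF M σ₁)
    (h2 : IntF M σ₂) {κ : T → INat M} (hκ : IntF M κ)
    (u1 : ∀ m m' q q', B m q → B m' q' → σ₁ q = σ₁ q' → κ q = κ q' → q = q')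
    (u2 : ∀ m m' q q', B m q → B m' q' → σ₂ q = σ₂ q' → κ q = κ q' → q = q')
    (hne : ∀ m q, B m q → (i (σ₂ q)).2 ≠ (i (σ₁ q)).2)
    (hbd : ∀ a, ∃ N, ∀ m q, B m q → (i (σ₁ q)).2 = a → m ≤ N) :
    ∃ N, ∀ m q, B m q → m ≤ N := by
  have hpr := int_pr (M := M)
  let LC : α → T → Prop := fun a q => (∃ m, B m q) ∧ (i (σ₁ q)).2 = a ∧
    ∀ q', (∃ m, B m q') → (i (σ₁ q')).2 = a → pr (i (σ₁ q)).1 (κ q) ≤ pr (i (σ₁ q')).1 (κ q')
  have hLC : Int M (fun q : α × T => LC q.1 q.2) := by
    change Int M (fun q : α × T => (∃ m, B m q.2) ∧ (i (σ₁ q.2)).2 = q.1 ∧
      ∀ q', (∃ m, B m q') → (i (σ₁ q')).2 = q.1 →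
        pr (i (σ₁ q.2)).1 (κ q.2) ≤ pr (i (σ₁ q')).1 (κ q'))
    (repeat' (first | with_reducible exact IntF.id | with_reducible exact IntF.fst' | with_reducible exact IntF.snd' | with_reducible exact IntF.const _ | with_reducible exact Int.const _ | assumption | with_reducible apply Int.and | with_reducible apply Int.or | with_reducible apply Int.not | with_reducible apply Int.imp | with_reducible apply Int.iff | with_reducible apply Int.ne | with_reducible apply Int.eq | with_reducible apply Int.mem | with_reducible apply Int.subset | with_reducible apply Int.ltN | with_reducible apply Int.leN | with_reducible apply Int.fin | with_reducible apply Int.unique | with_reducible apply Int.all | with_reducible apply Int.ex | with_reducible apply IntF.fst | with_reducible apply IntF.snd | with_reducible apply IntF.app | with_reducible apply IntF.ite | with_reducible apply IntF.sep | with_reducible apply IntF.lam | with_reducible apply IntF.insert | with_reducible apply IntF.singleton | with_reducible apply IntF.union | with_reducible apply IntF.inter | with_reducible apply IntF.sdiff | with_reducible apply IntF.isUnion | with_reducible apply IntF.iimage | with_reducible apply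 IntF.the | with_reducible apply IntF.irec | with_reducible_and_instances apply IntF.add | with_reducible_and_instances apply IntF.mul | with_reducible apply IntF.succ | with_reducible apply IntF.val | (with_reducible refine Int.comp ?_ ?_; assumption) | (with_reducible refine Int.comp₂ ?_ ?_ ?_; assumption) | (with_reducible refine Int.comp₃ ?_ ?_ ?_ ?_; assumption) | (with_reducible refine IntF.comp ?_ ?_; assumption) | (with_reducible refine IntF.comp₂ ?_ ?_ ?_; assumption) | (with_reducible refine IntF.comp₃ ?_ ?_ ?_ ?_; assumption) | with_reducible apply IntF.pair))
  have hLCu : ∀ a q q', LC a q → LC a q' → q = q' := by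
    rintro a q q' ⟨⟨m, h3⟩, h4, h5⟩ ⟨⟨m', h3'⟩, h4', h5'⟩
    obtain ⟨h6, h7⟩ := pr_inj (le_antisymm (h5 q' ⟨m', h3'⟩ h4') (h5' q ⟨m, h3⟩ h4))
    exact u1 m m' q q' h3 h3' (hinj _ _ (Prod.ext h6 (h4.trans h4'.symm))) h7
  have hLCe : ∀ m q, B m q → ∃ q', LC (i (σ₁ q)).2 q' := by
    intro m q h3
    obtain ⟨n, ⟨q', h4, h5, h6⟩, h7⟩ := INat.exists_least (p := fun n => ∃ q', (∃ m, B m q') ∧
      (i (σ₁ q')).2 = (i (σ₁ q)).2 ∧ pr (i (σ₁ q')).1 (κ q') = n) (by (repeat' (first | with_reducible exact IntF.id | with_reducible exact IntF.fst' | with_reducible exact IntF.snd' | with_reducible exact IntF.const _ | with_reducible exact Int.const _ | assumption | with_reducible apply Int.and | with_reducible apply Int.or | with_reducible apply Int.not | with_reducible apply Int.imp | with_reducible apply Int.iff | with_reducible apply Int.ne | with_reducible apply Int.eq | with_reducible apply Int.mem | with_reducible apply Int.subset | with_reducible apply Int.ltN | with_reducible apply Int.leN | with_reducible apply Int.fin | with_reducible apply Int.unique | with_reducible apply Int.all | with_reducible apply Int.ex | with_reducible apply IntF.fst | with_reducible apply IntF.snd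 | with_reducible apply IntF.app | with_reducible apply IntF.ite | with_reducible apply IntF.sep | with_reducible apply IntF.lam | with_reducible apply IntF.insert | with_reducible apply IntF.singleton | with_reducible apply IntF.union | with_reducible apply IntF.inter | with_reducible apply IntF.sdiff | with_reducible apply IntF.isUnion | with_reducible apply IntF.iimage | with_reducible apply IntF.the | with_reducible apply IntF.irec | with_reducible_and_instances apply IntF.add | with_reducible_and_instances apply IntF.mul | with_reducible apply IntF.succ | with_reducible apply IntF.val | (with_reducible refine Int.comp ?_ ?_; assumption) | (with_reducible refine Int.comp₂ ?_ ?_ ?_; assumption) | (with_reducible refine Int.comp₃ ?_ ?_ ?_ ?_; assumption) | (with_reducible refine IntF.comp ?_ ?_; assumption) | (with_reducible refine IntF.comp₂ ?_ ?_ ?_; assumption) | (with_reducible refine IntF.comp₃ ?_ ?_ ?_ ?_; assumption) | with_reducible apply IntF.pair)))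
      ⟨_, q, ⟨m, h3⟩, rfl, rfl⟩
    exact ⟨q', h4, h5, fun q'' h8 h9 => h6 ▸ h7 _ ⟨q'', h8, h9, rfl⟩⟩
  have hφ : IntF M (fun a => the (fun y => ∃ q, LC a q ∧ y = (i (σ₂ q)).2) a) := by (repeat' (first | with_reducible exact IntF.id | with_reducible exact IntF.fst' | with_reducible exact IntF.snd' | with_reducible exact IntF.const _ | with_reducible exact Int.const _ | assumption | with_reducible apply Int.and | with_reducible apply Int.or | with_reducible apply Int.not | with_reducible apply Int.imp | with_reducible apply Int.iff | with_reducible apply Int.ne | with_reducible apply Int.eq | with_reducible apply Int.mem | with_reducible apply Int.subset | with_reducible apply Int.ltN | with_reducible apply Int.leN | with_reducible apply Int.fin | with_reducible apply Int.unique | with_reducible apply Int.all | with_reducible apply Int.ex | with_reducible apply IntF.fst | with_reducible apply IntF.snd | with_reducible apply IntF.app | with_reducible apply IntF.ite | with_reducible apply IntF.sep | with_reducible apply IntF.lam | with_reducible apply IntF.insert | with_reducible apply IntF.singleton | with_reducible apply IntF.union | with_reducible apply IntF.inter | with_reducible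 apply IntF.sdiff | with_reducible apply IntF.isUnion | with_reducible apply IntF.iimage | with_reducible apply IntF.the | with_reducible apply IntF.irec | with_reducible_and_instances apply IntF.add | with_reducible_and_instances apply IntF.mul | with_reducible apply IntF.succ | with_reducible apply IntF.val | (with_reducible refine Int.comp ?_ ?_; assumption) | (with_reducible refine Int.comp₂ ?_ ?_ ?_; assumption) | (with_reducible refine Int.comp₃ ?_ ?_ ?_ ?_; assumption) | (with_reducible refine IntF.comp ?_ ?_; assumption) | (with_reducible refine IntF.comp₂ ?_ ?_ ?_; assumption) | (with_reducible refine IntF.comp₃ ?_ ?_ ?_ ?_; assumption) | with_reducible apply IntF.pair))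
  have hx : IntF M (fun a => the (fun y => ∃ q, LC a q ∧ y = pr (i (σ₂ q)).1 (κ q)) 0) := by (repeat' (first | with_reducible exact IntF.id | with_reducible exact IntF.fst' | with_reducible exact IntF.snd' | with_reducible exact IntF.const _ | with_reducible exact Int.const _ | assumption | with_reducible apply Int.and | with_reducible apply Int.or | with_reducible apply Int.not | with_reducible apply Int.imp | with_reducible apply Int.iff | with_reducible apply Int.ne | with_reducible apply Int.eq | with_reducible apply Int.mem | with_reducible apply Int.subset | with_reducible apply Int.ltN | with_reducible apply Int.leN | with_reducible apply Int.fin | with_reducible apply Int.unique | with_reducible apply Int.all | with_reducible apply Int.ex | with_reducible apply IntF.fst | with_reducible apply IntF.snd | with_reducible apply IntF.app | with_reducible apply IntF.ite | with_reducible apply IntF.sep | with_reducible apply IntF.lam | with_reducible apply IntF.insert | with_reducible apply IntF.singleton | with_reducible apply IntF.union | with_reducible apply IntF.inter | with_reducible apply IntF.sdiff | with_reducible apply IntF.isUnion | with_reducible apply IntF.iimage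 | with_reducible apply IntF.the | with_reducible apply IntF.irec | with_reducible_and_instances apply IntF.add | with_reducible_and_instances apply IntF.mul | with_reducible apply IntF.succ | with_reducible apply IntF.val | (with_reducible refine Int.comp ?_ ?_; assumption) | (with_reducible refine Int.comp₂ ?_ ?_ ?_; assumption) | (with_reducible refine Int.comp₃ ?_ ?_ ?_ ?_; assumption) | (with_reducible refine IntF.comp ?_ ?_; assumption) | (with_reducible refine IntF.comp₂ ?_ ?_ ?_; assumption) | (with_reducible refine IntF.comp₃ ?_ ?_ ?_ ?_; assumption) | with_reducible apply IntF.pair))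
  have hφ' : ∀ a q, LC a q → the (fun y => ∃ q, LC a q ∧ y = (i (σ₂ q)).2) a = (i (σ₂ q)).2 := by
    intro a q h
    refine the_eq ⟨_, ⟨q, h, rfl⟩, ?_⟩ ⟨q, h, rfl⟩
    rintro y ⟨q', h3, rfl⟩
    rw [hLCu a q q' h h3]
  have hx' : ∀ a q, LC a q → the (fun y => ∃ q, LC a q ∧ y = pr (i (σ₂ q)).1 (κ q)) 0 =
      pr (i (σ₂ q)).1 (κ q) := by
    intro a q h
    refine the_eq ⟨_, ⟨q, h, rfl⟩, ?_⟩ ⟨q, h, rfl⟩
    rintro y ⟨q', h3, rfl⟩
    rw [hLCu a q q' h h3]
  have hv : IntF M (fun a => the (fun m => (∃ q, B m q ∧ (i (σ₁ q)).2 = a) ∧
      ∀ m', (∃ q, B m' q ∧ (i (σ₁ q)).2 = a) → m' ≤ m) 0) := by (repeat' (first | with_reducible exact IntF.id | with_reducible exact IntF.fst' | with_reducible exact IntF.snd' | with_reducible exact IntF.const _ | with_reducible exact Int.const _ | assumption | with_reducible apply Int.and | with_reducible apply Int.or | with_reducible apply Int.not | with_reducible apply Int.imp | with_reducible apply Int.iff | with_reducible apply Int.ne | with_reducible apply Int.eq | with_reducible apply Int.mem | with_reducible apply Int.subset | with_reducible apply Int.ltN | with_reducible apply Int.leN | with_reducible apply Int.fin | with_reducible apply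 Int.unique | with_reducible apply Int.all | with_reducible apply Int.ex | with_reducible apply IntF.fst | with_reducible apply IntF.snd | with_reducible apply IntF.app | with_reducible apply IntF.ite | with_reducible apply IntF.sep | with_reducible apply IntF.lam | with_reducible apply IntF.insert | with_reducible apply IntF.singleton | with_reducible apply IntF.union | with_reducible apply IntF.inter | with_reducible apply IntF.sdiff | with_reducible apply IntF.isUnion | with_reducible apply IntF.iimage | with_reducible apply IntF.the | with_reducible apply IntF.irec | with_reducible_and_instances apply IntF.add | with_reducible_and_instances apply IntF.mul | with_reducible apply IntF.succ | with_reducible apply IntF.val | (with_reducible refine Int.comp ?_ ?_; assumption) | (with_reducible refine Int.comp₂ ?_ ?_ ?_; assumption) | (with_reducible refine Int.comp₃ ?_ ?_ ?_ ?_; assumption) | (with_reducible refine IntF.comp ?_ ?_; assumption) | (with_reducible refine IntF.comp₂ ?_ ?_ ?_; assumption) | (with_reducible refine IntF.comp₃ ?_ ?_ ?_ ?_; assumption) | with_reducible apply IntF.pair))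
  have hv' : ∀ a, (∃ m q, B m q ∧ (i (σ₁ q)).2 = a) →
      ∃! m, (∃ q, B m q ∧ (i (σ₁ q)).2 = a) ∧
        ∀ m', (∃ q, B m' q ∧ (i (σ₁ q)).2 = a) → m' ≤ m := by
    intro a h
    obtain ⟨N, hN'⟩ := hbd a
    obtain ⟨m, h3, h4⟩ := exists_greatest (p := fun m => ∃ q, B m q ∧ (i (σ₁ q)).2 = a)
      (by (repeat' (first | with_reducible exact IntF.id | with_reducible exact IntF.fst' | with_reducible exact IntF.snd' | with_reducible exact IntF.const _ | with_reducible exact Int.const _ | assumption | with_reducible apply Int.and | with_reducible apply Int.or | with_reducible apply Int.not | with_reducible apply Int.imp | with_reducible apply Int.iff | with_reducible apply Int.ne | with_reducible apply Int.eq | with_reducible apply Int.mem | with_reducible apply Int.subset | with_reducible apply Int.ltN | with_reducible apply Int.leN | with_reducible apply Int.fin | with_reducible apply Int.unique | with_reducible apply Int.all | with_reducible apply Int.ex | with_reducible apply IntF.fst | with_reducible apply IntF.snd | with_reducible apply IntF.app | with_reducible apply IntF.ite | with_reducible apply IntF.sep | with_reducible apply IntF.lam | with_reducible apply IntF.insert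 | with_reducible apply IntF.singleton | with_reducible apply IntF.union | with_reducible apply IntF.inter | with_reducible apply IntF.sdiff | with_reducible apply IntF.isUnion | with_reducible apply IntF.iimage | with_reducible apply IntF.the | with_reducible apply IntF.irec | with_reducible_and_instances apply IntF.add | with_reducible_and_instances apply IntF.mul | with_reducible apply IntF.succ | with_reducible apply IntF.val | (with_reducible refine Int.comp ?_ ?_; assumption) | (with_reducible refine Int.comp₂ ?_ ?_ ?_; assumption) | (with_reducible refine Int.comp₃ ?_ ?_ ?_ ?_; assumption) | (with_reducible refine IntF.comp ?_ ?_; assumption) | (with_reducible refine IntF.comp₂ ?_ ?_ ?_; assumption) | (with_reducible refine IntF.comp₃ ?_ ?_ ?_ ?_; assumption) | with_reducible apply IntF.pair))) (n := N) (by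
        rintro m ⟨q, h5, h6⟩
        exact hN' m q h5 h6) h
    exact ⟨m, ⟨h3, h4⟩, fun m' h5 => le_antisymm (h4 _ h5.1) (h5.2 _ h3)⟩
  obtain ⟨N, h3⟩ := bound_idx hD hN (p := fun a => ∃ m q, B m q ∧ (i (σ₁ q)).2 = a) (by (repeat' (first | with_reducible exact IntF.id | with_reducible exact IntF.fst' | with_reducible exact IntF.snd' | with_reducible exact IntF.const _ | with_reducible exact Int.const _ | assumption | with_reducible apply Int.and | with_reducible apply Int.or | with_reducible apply Int.not | with_reducible apply Int.imp | with_reducible apply Int.iff | with_reducible apply Int.ne | with_reducible apply Int.eq | with_reducible apply Int.mem | with_reducible apply Int.subset | with_reducible apply Int.ltN | with_reducible apply Int.leN | with_reducible apply Int.fin | with_reducible apply Int.unique | with_reducible apply Int.all | with_reducible apply Int.ex | with_reducible apply IntF.fst | with_reducible apply IntF.snd | with_reducible apply IntF.app | with_reducible apply IntF.ite | with_reducible apply IntF.sep | with_reducible apply IntF.lam | with_reducible apply IntF.insert | with_reducible apply IntF.singleton | with_reducible apply IntF.union | with_reducible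 apply IntF.inter | with_reducible apply IntF.sdiff | with_reducible apply IntF.isUnion | with_reducible apply IntF.iimage | with_reducible apply IntF.the | with_reducible apply IntF.irec | with_reducible_and_instances apply IntF.add | with_reducible_and_instances apply IntF.mul | with_reducible apply IntF.succ | with_reducible apply IntF.val | (with_reducible refine Int.comp ?_ ?_; assumption) | (with_reducible refine Int.comp₂ ?_ ?_ ?_; assumption) | (with_reducible refine Int.comp₃ ?_ ?_ ?_ ?_; assumption) | (with_reducible refine IntF.comp ?_ ?_; assumption) | (with_reducible refine IntF.comp₂ ?_ ?_ ?_; assumption) | (with_reducible refine IntF.comp₃ ?_ ?_ ?_ ?_; assumption) | with_reducible apply IntF.pair)))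
    hφ (fun a ha => by
      obtain ⟨m, q, h3, rfl⟩ := ha
      obtain ⟨q', h4⟩ := hLCe m q h3
      obtain ⟨m', h5⟩ := h4.1
      rw [hφ' _ q' h4, ← h4.2.1]
      exact hne m' q' h5) hx (fun a b ha hb h4 h5 => by
      obtain ⟨m, q, h6, rfl⟩ := ha
      obtain ⟨m', q', h6', rfl⟩ := hb
      obtain ⟨r, h7⟩ := hLCe m q h6
      obtain ⟨r', h7'⟩ := hLCe m' q' h6'
      rw [hφ' _ r h7, hφ' _ r' h7'] at h4
      rw [hx' _ r h7, hx' _ r' h7'] at h5
      obtain ⟨h8, h9⟩ := pr_inj h5
      obtain ⟨n, h10⟩ := h7.1
      obtain ⟨n', h10'⟩ := h7'.1
      have h11 := u2 n n' r r' h10 h10' (hinj _ _ (Prod.ext h8 h4)) h9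
      subst h11
      exact h7.2.1.symm.trans h7'.2.1) hv
  refine ⟨N, fun m q h => ?_⟩
  exact ((the_spec (hv' _ ⟨m, q, h, rfl⟩)).2 m ⟨q, h, rfl⟩).trans (h3 _ ⟨m, q, h, rfl⟩)

/-! ### Enumerations of levels -/

/-- `q` is an enumeration of the elements different from `c₀` on level `m`. -/
def EL (c₀ : α) (lev : α → INat M) (m : INat M) (q : INat M × IFun M (INat M) α) : Prop :=
  En c₀ q.1 q.2 ∧ ∀ x, x ≠ c₀ → (lev x = m ↔ ∃ j, q.2 j = x)

variable {c₀ : α} {lev : α → INat M}

theorem int_EL (hlev : IntF M lev) :
    Int M (fun q : INat M × (INat M × IFun M (INat M) α) => EL c₀ lev q.1 q.2) := by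
  have h := int_En (M := M) c₀
  unfold EL
  (repeat' (first | with_reducible exact IntF.id | with_reducible exact IntF.fst' | with_reducible exact IntF.snd' | with_reducible exact IntF.const _ | with_reducible exact Int.const _ | assumption | with_reducible apply Int.and | with_reducible apply Int.or | with_reducible apply Int.not | with_reducible apply Int.imp | with_reducible apply Int.iff | with_reducible apply Int.ne | with_reducible apply Int.eq | with_reducible apply Int.mem | with_reducible apply Int.subset | with_reducible apply Int.ltN | with_reducible apply Int.leN | with_reducible apply Int.fin | with_reducible apply Int.unique | with_reducible apply Int.all | with_reducible apply Int.ex | with_reducible apply IntF.fst | with_reducible apply IntF.snd | with_reducible apply IntF.app | with_reducible apply IntF.ite | with_reducible apply IntF.sep | with_reducible apply IntF.lam | with_reducible apply IntF.insert | with_reducible apply IntF.singleton | with_reducible apply IntF.union | with_reducible apply IntF.inter | with_reducible apply IntF.sdiff | with_reducible apply IntF.isUnion | with_reducible apply IntF.iimage | with_reducible apply IntF.the | with_reducible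 apply IntF.irec | with_reducible_and_instances apply IntF.add | with_reducible_and_instances apply IntF.mul | with_reducible apply IntF.succ | with_reducible apply IntF.val | (with_reducible refine Int.comp ?_ ?_; assumption) | (with_reducible refine Int.comp₂ ?_ ?_ ?_; assumption) | (with_reducible refine Int.comp₃ ?_ ?_ ?_ ?_; assumption) | (with_reducible refine IntF.comp ?_ ?_; assumption) | (with_reducible refine IntF.comp₂ ?_ ?_ ?_; assumption) | (with_reducible refine IntF.comp₃ ?_ ?_ ?_ ?_; assumption) | with_reducible apply IntF.pair))

theorem exists_EL (hlev : IntF M lev) (hfl : ∀ m, FinP M (fun e => lev e ≤ m)) (m : INat M) :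
    ∃ q, EL c₀ lev m q := by
  have h0 : Int M (fun x => x ≠ c₀ ∧ lev x = m) := by (repeat' (first | with_reducible exact IntF.id | with_reducible exact IntF.fst' | with_reducible exact IntF.snd' | with_reducible exact IntF.const _ | with_reducible exact Int.const _ | assumption | with_reducible apply Int.and | with_reducible apply Int.or | with_reducible apply Int.not | with_reducible apply Int.imp | with_reducible apply Int.iff | with_reducible apply Int.ne | with_reducible apply Int.eq | with_reducible apply Int.mem | with_reducible apply Int.subset | with_reducible apply Int.ltN | with_reducible apply Int.leN | with_reducible apply Int.fin | with_reducible apply Int.unique | with_reducible apply Int.all | with_reducible apply Int.ex | with_reducible apply IntF.fst | with_reducible apply IntF.snd | with_reducible apply IntF.app | with_reducible apply IntF.ite | with_reducible apply IntF.sep | with_reducible apply IntF.lam | with_reducible apply IntF.insert | with_reducible apply IntF.singleton | with_reducible apply IntF.union | with_reducible apply IntF.inter | with_reducible apply IntF.sdiff | with_reducible apply IntF.isUnion | with_reducible apply IntF.iimage | with_reducible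 apply IntF.the | with_reducible apply IntF.irec | with_reducible_and_instances apply IntF.add | with_reducible_and_instances apply IntF.mul | with_reducible apply IntF.succ | with_reducible apply IntF.val | (with_reducible refine Int.comp ?_ ?_; assumption) | (with_reducible refine Int.comp₂ ?_ ?_ ?_; assumption) | (with_reducible refine Int.comp₃ ?_ ?_ ?_ ?_; assumption) | (with_reducible refine IntF.comp ?_ ?_; assumption) | (with_reducible refine IntF.comp₂ ?_ ?_ ?_; assumption) | (with_reducible refine IntF.comp₃ ?_ ?_ ?_ ?_; assumption) | with_reducible apply IntF.pair))
  have h1 : FinP M (fun x => x ≠ c₀ ∧ lev x = m) := (hfl m).mono fun x hx => hx.2.le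
  obtain ⟨k, s, h2, h3⟩ := exists_En_fin (h1.fin h0) (c := c₀) (by
    rw [mem_sep h0]
    exact fun h => h.1 rfl)
  refine ⟨(k, s), h2, fun x hx => ?_⟩
  rw [← h3 x hx, mem_sep h0]
  exact ⟨fun h => ⟨hx, h⟩, fun h => h.2⟩

/-- The values at enumerations of infinitely many levels are not all equal. -/
theorem level_bound (hD : DF M α (fun _ => True)) (hi : IntF M i)
    (hinj : ∀ σ τ, i σ = i τ → σ = τ) (hlev : IntF M lev) (a : α) :
    ∃ N, ∀ m (q : INat M × IFun M (INat M) α), EL c₀ lev m q → 0 < q.1 →
      (i (cyc q.1 q.2)).2 = a → m ≤ N := by
  by_contra hno
  push Not at hno
  have hE := int_EL (c₀ := c₀) hlev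
  have hc := int_cyc (M := M) (α := α)
  let SL : INat M → INat M × IFun M (INat M) α → Prop := fun m q =>
    EL c₀ lev m q ∧ 0 < q.1 ∧ (i (cyc q.1 q.2)).2 = a ∧ ∀ q' : INat M × IFun M (INat M) α,
      EL c₀ lev m q' → 0 < q'.1 → (i (cyc q'.1 q'.2)).2 = a →
        (i (cyc q.1 q.2)).1 ≤ (i (cyc q'.1 q'.2)).1
  have hSL : Int M (fun q : INat M × (INat M × IFun M (INat M) α) => SL q.1 q.2) := by
    change Int M (fun r : INat M × (INat M × IFun M (INat M) α) =>
      EL c₀ lev r.1 r.2 ∧ 0 < r.2.1 ∧ (i (cyc r.2.1 r.2.2)).2 = a ∧
        ∀ q' : INat M × IFun M (INat M) α, EL c₀ lev r.1 q' → 0 < q'.1 →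
          (i (cyc q'.1 q'.2)).2 = a → (i (cyc r.2.1 r.2.2)).1 ≤ (i (cyc q'.1 q'.2)).1)
    (repeat' (first | with_reducible exact IntF.id | with_reducible exact IntF.fst' | with_reducible exact IntF.snd' | with_reducible exact IntF.const _ | with_reducible exact Int.const _ | assumption | with_reducible apply Int.and | with_reducible apply Int.or | with_reducible apply Int.not | with_reducible apply Int.imp | with_reducible apply Int.iff | with_reducible apply Int.ne | with_reducible apply Int.eq | with_reducible apply Int.mem | with_reducible apply Int.subset | with_reducible apply Int.ltN | with_reducible apply Int.leN | with_reducible apply Int.fin | with_reducible apply Int.unique | with_reducible apply Int.all | with_reducible apply Int.ex | with_reducible apply IntF.fst | with_reducible apply IntF.snd | with_reducible apply IntF.app | with_reducible apply IntF.ite | with_reducible apply IntF.sep | with_reducible apply IntF.lam | with_reducible apply IntF.insert | with_reducible apply IntF.singleton | with_reducible apply IntF.union | with_reducible apply IntF.inter | with_reducible apply IntF.sdiff | with_reducible apply IntF.isUnion | with_reducible apply IntF.iimage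 | with_reducible apply IntF.the | with_reducible apply IntF.irec | with_reducible_and_instances apply IntF.add | with_reducible_and_instances apply IntF.mul | with_reducible apply IntF.succ | with_reducible apply IntF.val | (with_reducible refine Int.comp ?_ ?_; assumption) | (with_reducible refine Int.comp₂ ?_ ?_ ?_; assumption) | (with_reducible refine Int.comp₃ ?_ ?_ ?_ ?_; assumption) | (with_reducible refine IntF.comp ?_ ?_; assumption) | (with_reducible refine IntF.comp₂ ?_ ?_ ?_; assumption) | (with_reducible refine IntF.comp₃ ?_ ?_ ?_ ?_; assumption) | with_reducible apply IntF.pair))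
  have hSLu : ∀ m q q', SL m q → SL m q' → q.2 = q'.2 := by
    rintro m q q' ⟨h1, h2, h3, h4⟩ ⟨h1', h2', h3', h4'⟩
    exact cyc_inj hD h1.1 h1'.1 (hinj _ _ (Prod.ext (le_antisymm (h4 q' h1' h2' h3')
      (h4' q h1 h2 h3)) (h3.trans h3'.symm)))
  have hSLe : ∀ m (q : INat M × IFun M (INat M) α), EL c₀ lev m q → 0 < q.1 →
      (i (cyc q.1 q.2)).2 = a → ∃ q', SL m q' := by
    intro m q h1 h2 h3
    obtain ⟨n, ⟨q', h4, h5, h6, h7⟩, h8⟩ := INat.exists_least (p := fun n =>
      ∃ q' : INat M × IFun M (INat M) α, EL c₀ lev m q' ∧ 0 < q'.1 ∧
        (i (cyc q'.1 q'.2)).2 = a ∧ (i (cyc q'.1 q'.2)).1 = n) (by (repeat' (first | with_reducible exact IntF.id | with_reducible exact IntF.fst' | with_reducible exact IntF.snd' | with_reducible exact IntF.const _ | with_reducible exact Int.const _ | assumption | with_reducible apply Int.and | with_reducible apply Int.or | with_reducible apply Int.not | with_reducible apply Int.imp | with_reducible apply Int.iff | with_reducible apply Int.ne | with_reducible apply Int.eq | with_reducible apply Int.mem | with_reducible apply Int.subset | with_reducible apply Int.ltN | with_reducible apply Int.leN | with_reducible apply Int.fin | with_reducible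 apply Int.unique | with_reducible apply Int.all | with_reducible apply Int.ex | with_reducible apply IntF.fst | with_reducible apply IntF.snd | with_reducible apply IntF.app | with_reducible apply IntF.ite | with_reducible apply IntF.sep | with_reducible apply IntF.lam | with_reducible apply IntF.insert | with_reducible apply IntF.singleton | with_reducible apply IntF.union | with_reducible apply IntF.inter | with_reducible apply IntF.sdiff | with_reducible apply IntF.isUnion | with_reducible apply IntF.iimage | with_reducible apply IntF.the | with_reducible apply IntF.irec | with_reducible_and_instances apply IntF.add | with_reducible_and_instances apply IntF.mul | with_reducible apply IntF.succ | with_reducible apply IntF.val | (with_reducible refine Int.comp ?_ ?_; assumption) | (with_reducible refine Int.comp₂ ?_ ?_ ?_; assumption) | (with_reducible refine Int.comp₃ ?_ ?_ ?_ ?_; assumption) | (with_reducible refine IntF.comp ?_ ?_; assumption) | (with_reducible refine IntF.comp₂ ?_ ?_ ?_; assumption) | (with_reducible refine IntF.comp₃ ?_ ?_ ?_ ?_; assumption) | with_reducible apply IntF.pair)))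
      ⟨_, q, h1, h2, h3, rfl⟩
    exact ⟨q', h4, h5, h6, fun q'' h9 h10 h11 => h7 ▸ h8 _ ⟨q'', h9, h10, h11, rfl⟩⟩
  have hg : IntF M (fun m => the (fun y => ∃ q, SL m q ∧ y = q.2 (INat.succ 0)) c₀) := by (repeat' (first | with_reducible exact IntF.id | with_reducible exact IntF.fst' | with_reducible exact IntF.snd' | with_reducible exact IntF.const _ | with_reducible exact Int.const _ | assumption | with_reducible apply Int.and | with_reducible apply Int.or | with_reducible apply Int.not | with_reducible apply Int.imp | with_reducible apply Int.iff | with_reducible apply Int.ne | with_reducible apply Int.eq | with_reducible apply Int.mem | with_reducible apply Int.subset | with_reducible apply Int.ltN | with_reducible apply Int.leN | with_reducible apply Int.fin | with_reducible apply Int.unique | with_reducible apply Int.all | with_reducible apply Int.ex | with_reducible apply IntF.fst | with_reducible apply IntF.snd | with_reducible apply IntF.app | with_reducible apply IntF.ite | with_reducible apply IntF.sep | with_reducible apply IntF.lam | with_reducible apply IntF.insert | with_reducible apply IntF.singleton | with_reducible apply IntF.union | with_reducible apply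 IntF.inter | with_reducible apply IntF.sdiff | with_reducible apply IntF.isUnion | with_reducible apply IntF.iimage | with_reducible apply IntF.the | with_reducible apply IntF.irec | with_reducible_and_instances apply IntF.add | with_reducible_and_instances apply IntF.mul | with_reducible apply IntF.succ | with_reducible apply IntF.val | (with_reducible refine Int.comp ?_ ?_; assumption) | (with_reducible refine Int.comp₂ ?_ ?_ ?_; assumption) | (with_reducible refine Int.comp₃ ?_ ?_ ?_ ?_; assumption) | (with_reducible refine IntF.comp ?_ ?_; assumption) | (with_reducible refine IntF.comp₂ ?_ ?_ ?_; assumption) | (with_reducible refine IntF.comp₃ ?_ ?_ ?_ ?_; assumption) | with_reducible apply IntF.pair))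
  have hg' : ∀ m q, SL m q → the (fun y => ∃ q, SL m q ∧ y = q.2 (INat.succ 0)) c₀ =
      q.2 (INat.succ 0) := by
    intro m q h
    refine the_eq ⟨_, ⟨q, h, rfl⟩, ?_⟩ ⟨q, h, rfl⟩
    rintro y ⟨q', h3, rfl⟩
    rw [hSLu m q q' h h3]
  have hlev' : ∀ m q, SL m q → lev (q.2 (INat.succ 0)) = m := by
    intro m q h
    refine (h.1.2 _ ?_).2 ⟨_, rfl⟩
    exact h.1.1.2.2.1 _ (INat.lt_succ_self 0) (INat.succ_le_iff.2 h.2.1)
  refine hD.not_fto' (N := fun m => ∃ q, SL m q) (by (repeat' (first | with_reducible exact IntF.id | with_reducible exact IntF.fst' | with_reducible exact IntF.snd' | with_reducible exact IntF.const _ | with_reducible exact Int.const _ | assumption | with_reducible apply Int.and | with_reducible apply Int.or | with_reducible apply Int.not | with_reducible apply Int.imp | with_reducible apply Int.iff | with_reducible apply Int.ne | with_reducible apply Int.eq | with_reducible apply Int.mem | with_reducible apply Int.subset | with_reducible apply Int.ltN | with_reducible apply Int.leN | with_reducible apply Int.fin | with_reducible apply Int.unique | with_reducible apply Int.all | with_reducible apply Int.ex | with_reducible apply IntF.fst | with_reducible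 apply IntF.snd | with_reducible apply IntF.app | with_reducible apply IntF.ite | with_reducible apply IntF.sep | with_reducible apply IntF.lam | with_reducible apply IntF.insert | with_reducible apply IntF.singleton | with_reducible apply IntF.union | with_reducible apply IntF.inter | with_reducible apply IntF.sdiff | with_reducible apply IntF.isUnion | with_reducible apply IntF.iimage | with_reducible apply IntF.the | with_reducible apply IntF.irec | with_reducible_and_instances apply IntF.add | with_reducible_and_instances apply IntF.mul | with_reducible apply IntF.succ | with_reducible apply IntF.val | (with_reducible refine Int.comp ?_ ?_; assumption) | (with_reducible refine Int.comp₂ ?_ ?_ ?_; assumption) | (with_reducible refine Int.comp₃ ?_ ?_ ?_ ?_; assumption) | (with_reducible refine IntF.comp ?_ ?_; assumption) | (with_reducible refine IntF.comp₂ ?_ ?_ ?_; assumption) | (with_reducible refine IntF.comp₃ ?_ ?_ ?_ ?_; assumption) | with_reducible apply IntF.pair))) ?_ hg (fun _ _ => trivial) fun b => ?_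
  · rintro ⟨N, hN⟩
    obtain ⟨m, q, h1, h2, h3, h4⟩ := hno N
    exact absurd (hN m (hSLe m q h1 h2 h3)) (not_le.2 h4)
  · refine (FinP.eq (lev b)).mono fun m hm => ?_
    obtain ⟨⟨q, hq⟩, h1⟩ := hm
    rw [hg' m q hq] at h1
    rw [← h1, hlev' m q hq]

/-! ### Connecting enumerations -/

theorem conn {m : INat M} {H : INat M × IFun M (INat M) α → α} (hH : IntF M H)
    (hlev : IntF M lev)
    (hsw : ∀ k s, EL c₀ lev m (k, s) → ∀ j l, 0 < j → j ≤ k → 0 < l → l ≤ k →
      H (k, sws s j l) = H (k, s)) {k : INat M} {s : IFun M (INat M) α} {k' : INat M}
    {t : IFun M (INat M) α} (hs : EL c₀ lev m (k, s)) (ht : EL c₀ lev m (k', t)) :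
    H (k, s) = H (k', t) := by
  have hE := int_EL (c₀ := c₀) hlev
  have key : ∀ q : INat M, ∃ r, EL c₀ lev m (k, r) ∧ H (k, r) = H (k, s) ∧
      ∀ j, j < q → r j = t j := by
    refine INat.ind (p := fun q : INat M => ∃ r, EL c₀ lev m (k, r) ∧ H (k, r) = H (k, s) ∧
      ∀ j, j < q → r j = t j) (by (repeat' (first | with_reducible exact IntF.id | with_reducible exact IntF.fst' | with_reducible exact IntF.snd' | with_reducible exact IntF.const _ | with_reducible exact Int.const _ | assumption | with_reducible apply Int.and | with_reducible apply Int.or | with_reducible apply Int.not | with_reducible apply Int.imp | with_reducible apply Int.iff | with_reducible apply Int.ne | with_reducible apply Int.eq | with_reducible apply Int.mem | with_reducible apply Int.subset | with_reducible apply Int.ltN | with_reducible apply Int.leN | with_reducible apply Int.fin | with_reducible apply Int.unique | with_reducible apply Int.all | with_reducible apply Int.ex | with_reducible apply IntF.fst | with_reducible apply IntF.snd | with_reducible apply IntF.app | with_reducible apply IntF.ite | with_reducible apply IntF.sep | with_reducible apply IntF.lam | with_reducible apply IntF.insert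 | with_reducible apply IntF.singleton | with_reducible apply IntF.union | with_reducible apply IntF.inter | with_reducible apply IntF.sdiff | with_reducible apply IntF.isUnion | with_reducible apply IntF.iimage | with_reducible apply IntF.the | with_reducible apply IntF.irec | with_reducible_and_instances apply IntF.add | with_reducible_and_instances apply IntF.mul | with_reducible apply IntF.succ | with_reducible apply IntF.val | (with_reducible refine Int.comp ?_ ?_; assumption) | (with_reducible refine Int.comp₂ ?_ ?_ ?_; assumption) | (with_reducible refine Int.comp₃ ?_ ?_ ?_ ?_; assumption) | (with_reducible refine IntF.comp ?_ ?_; assumption) | (with_reducible refine IntF.comp₂ ?_ ?_ ?_; assumption) | (with_reducible refine IntF.comp₃ ?_ ?_ ?_ ?_; assumption) | with_reducible apply IntF.pair))) ?_ ?_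
    · exact ⟨s, hs, rfl, fun j hj => absurd hj INat.not_lt_zero⟩
    · rintro q ⟨r, hr, h1, h2⟩
      by_cases h3 : r q = t q
      · refine ⟨r, hr, h1, fun j hj => ?_⟩
        rcases (INat.lt_succ_iff.1 hj).lt_or_eq with hj | rfl
        · exact h2 j hj
        · exact h3
      · -- `q` is positive
        have hq0 : 0 < q := by
          refine (INat.zero_le q).lt_of_ne' ?_
          rintro rfl
          exact h3 (hr.1.1.trans ht.1.1.symm)
        have hr2 : ∀ j l, r j ≠ c₀ → r j = r l → j = l := hr.1.2.2.2
        have ht2 : ∀ j l, t j ≠ c₀ → t j = t l → j = l := ht.1.2.2.2
        -- `t q` is not `c₀`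
        have htq : t q ≠ c₀ := by
          intro h4
          have h5 : r q ≠ c₀ := fun h => h3 (h.trans h4.symm)
          obtain ⟨j, hj⟩ := (ht.2 _ h5).1 ((hr.2 _ h5).2 ⟨q, rfl⟩)
          have hj' : t j = r q := hj
          have h6 : t j ≠ c₀ := by rw [hj']; exact h5
          have h7 : j < q := by
            by_contra h8
            refine ht.1.2.2.1 q hq0 ?_ h4
            exact (not_lt.1 h8).trans (ht.1.ne h6).2
          have h8 := h2 j h7
          have h9 := hr2 q j h5 (by rw [h8, hj'])
          exact absurd h9.symm h7.ne
        obtain ⟨l, hl⟩ := (hr.2 _ htq).1 ((ht.2 _ htq).2 ⟨q, rfl⟩)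
        replace hl : r l = t q := hl
        have hlq : ¬ l < q := by
          intro h4
          rw [h2 l h4] at hl
          exact absurd (ht2 l q (by rw [hl]; exact htq) hl) h4.ne
        have hlq' : l ≠ q := by
          rintro rfl
          exact h3 hl
        have hlc : r l ≠ c₀ := by rw [hl]; exact htq
        have h5 := (hr.1.ne hlc).2
        have h6 : q ≤ k := (not_lt.1 hlq).trans h5
        refine ⟨sws r q l, ⟨hr.1.sws hq0 h6 (hr.1.ne hlc).1 h5, fun x hx => ?_⟩, ?_,
          fun j hj => ?_⟩
        · exact (hr.2 x hx).trans sws_range.symm
        · rw [hsw k r hr q l hq0 h6 (hr.1.ne hlc).1 h5, h1]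
        · obtain ⟨h7, h8, h9⟩ := tsp_spec (M := M) q l
          rw [sws_apply]
          rcases (INat.lt_succ_iff.1 hj).lt_or_eq with hj | rfl
          · rw [h9 j hj.ne (hj.trans_le (not_lt.1 hlq)).ne, h2 j hj]
          · rw [h7, hl]
  obtain ⟨r, hr, h1, h2⟩ := key k'.succ.succ
  have h3 : r k'.succ = c₀ := by
    rw [h2 _ (INat.lt_succ_self _)]
    exact ht.1.2.1 _ (INat.lt_succ_self _)
  have h4 : k ≤ k' := by
    by_contra h
    exact hr.1.2.2.1 k'.succ ((INat.zero_le k').trans_lt (INat.lt_succ_self k'))
      (INat.succ_le_iff.2 (not_le.1 h)) h3
  have h5 : r = t := by
    refine IFun.ext' fun j => ?_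
    by_cases hj : j < k'.succ.succ
    · exact h2 j hj
    · have h6 : k' < j := ((INat.lt_succ_self k').trans (INat.lt_succ_self _)).trans_le
        (not_lt.1 hj)
      exact (hr.1.2.1 j (h4.trans_lt h6)).trans (ht.1.2.1 j h6).symm
  subst h5
  have h6 : k = k' := hr.1.unique ht.1
  rw [← h1, h6]

/-- There is no injection from the permutations of an infinite set to the natural numbers times
the set. -/
theorem no_inj (hinf : ¬ FinP M (fun _ : α => True)) (hi : IntF M i)
    (hinj : ∀ σ τ, i σ = i τ → σ = τ) : False := by
  have hfib : ∀ q, FinP M (fun σ => i σ = q) := by
    intro q
    by_cases h : ∃ σ, i σ = q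
    · obtain ⟨σ, rfl⟩ := h
      exact (FinP.eq σ).mono fun τ h => hinj _ _ h
    · exact (FinP.eq (IPm.one M α)).mono fun τ h' => absurd ⟨τ, h'⟩ h
  have hD := dedekind_finite hi hfib
  have hN := noDisj hD hi hfib
  have hne : ∃ c₀ : α, True := by
    by_contra h
    push Not at h
    exact hinf ⟨∅, IFin.empty, fun a _ => (h a).elim⟩
  obtain ⟨c₀, -⟩ := hne
  obtain ⟨lev, hlev, hfl⟩ := exists_lev hD hN hinf hi hinj c₀
  have hE := int_EL (c₀ := c₀) hlev
  have hc := int_cyc (M := M) (α := α)
  have hw := int_sws (M := M) (α := α)
  have hpr := int_pr (M := M)
  have hH : IntF M (fun q : INat M × IFun M (INat M) α => (i (cyc q.1 q.2)).2) := by (repeat' (first | with_reducible exact IntF.id | with_reducible exact IntF.fst' | with_reducible exact IntF.snd' | with_reducible exact IntF.const _ | with_reducible exact Int.const _ | assumption | with_reducible apply Int.and | with_reducible apply Int.or | with_reducible apply Int.not | with_reducible apply Int.imp | with_reducible apply Int.iff | with_reducible apply Int.ne | with_reducible apply Int.eq | with_reducible apply Int.mem | with_reducible apply Int.subset | with_reducible apply Int.ltN | with_reducible apply Int.leN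 | with_reducible apply Int.fin | with_reducible apply Int.unique | with_reducible apply Int.all | with_reducible apply Int.ex | with_reducible apply IntF.fst | with_reducible apply IntF.snd | with_reducible apply IntF.app | with_reducible apply IntF.ite | with_reducible apply IntF.sep | with_reducible apply IntF.lam | with_reducible apply IntF.insert | with_reducible apply IntF.singleton | with_reducible apply IntF.union | with_reducible apply IntF.inter | with_reducible apply IntF.sdiff | with_reducible apply IntF.isUnion | with_reducible apply IntF.iimage | with_reducible apply IntF.the | with_reducible apply IntF.irec | with_reducible_and_instances apply IntF.add | with_reducible_and_instances apply IntF.mul | with_reducible apply IntF.succ | with_reducible apply IntF.val | (with_reducible refine Int.comp ?_ ?_; assumption) | (with_reducible refine Int.comp₂ ?_ ?_ ?_; assumption) | (with_reducible refine Int.comp₃ ?_ ?_ ?_ ?_; assumption) | (with_reducible refine IntF.comp ?_ ?_; assumption) | (with_reducible refine IntF.comp₂ ?_ ?_ ?_; assumption) | (with_reducible refine IntF.comp₃ ?_ ?_ ?_ ?_; assumption) | with_reducible apply IntF.pair))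
  -- bad configurations
  obtain ⟨N, hbad⟩ := bound_bad hD hN hi hinj
    (T := (INat M × IFun M (INat M) α) × (INat M × INat M))
    (B := fun m q => EL c₀ lev m q.1 ∧ (0 < q.2.1 ∧ q.2.1 ≤ q.1.1) ∧
      (0 < q.2.2 ∧ q.2.2 ≤ q.1.1) ∧
      (i (cyc q.1.1 (sws q.1.2 q.2.1 q.2.2))).2 ≠ (i (cyc q.1.1 q.1.2)).2) (by (repeat' (first | with_reducible exact IntF.id | with_reducible exact IntF.fst' | with_reducible exact IntF.snd' | with_reducible exact IntF.const _ | with_reducible exact Int.const _ | assumption | with_reducible apply Int.and | with_reducible apply Int.or | with_reducible apply Int.not | with_reducible apply Int.imp | with_reducible apply Int.iff | with_reducible apply Int.ne | with_reducible apply Int.eq | with_reducible apply Int.mem | with_reducible apply Int.subset | with_reducible apply Int.ltN | with_reducible apply Int.leN | with_reducible apply Int.fin | with_reducible apply Int.unique | with_reducible apply Int.all | with_reducible apply Int.ex | with_reducible apply IntF.fst | with_reducible apply IntF.snd | with_reducible apply IntF.app | with_reducible apply IntF.ite | with_reducible apply IntF.sep | with_reducible apply IntF.lam | with_reducible apply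 IntF.insert | with_reducible apply IntF.singleton | with_reducible apply IntF.union | with_reducible apply IntF.inter | with_reducible apply IntF.sdiff | with_reducible apply IntF.isUnion | with_reducible apply IntF.iimage | with_reducible apply IntF.the | with_reducible apply IntF.irec | with_reducible_and_instances apply IntF.add | with_reducible_and_instances apply IntF.mul | with_reducible apply IntF.succ | with_reducible apply IntF.val | (with_reducible refine Int.comp ?_ ?_; assumption) | (with_reducible refine Int.comp₂ ?_ ?_ ?_; assumption) | (with_reducible refine Int.comp₃ ?_ ?_ ?_ ?_; assumption) | (with_reducible refine IntF.comp ?_ ?_; assumption) | (with_reducible refine IntF.comp₂ ?_ ?_ ?_; assumption) | (with_reducible refine IntF.comp₃ ?_ ?_ ?_ ?_; assumption) | with_reducible apply IntF.pair)))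
    (σ₁ := fun q => cyc q.1.1 q.1.2) (σ₂ := fun q => cyc q.1.1 (sws q.1.2 q.2.1 q.2.2))
    (by (repeat' (first | with_reducible exact IntF.id | with_reducible exact IntF.fst' | with_reducible exact IntF.snd' | with_reducible exact IntF.const _ | with_reducible exact Int.const _ | assumption | with_reducible apply Int.and | with_reducible apply Int.or | with_reducible apply Int.not | with_reducible apply Int.imp | with_reducible apply Int.iff | with_reducible apply Int.ne | with_reducible apply Int.eq | with_reducible apply Int.mem | with_reducible apply Int.subset | with_reducible apply Int.ltN | with_reducible apply Int.leN | with_reducible apply Int.fin | with_reducible apply Int.unique | with_reducible apply Int.all | with_reducible apply Int.ex | with_reducible apply IntF.fst | with_reducible apply IntF.snd | with_reducible apply IntF.app | with_reducible apply IntF.ite | with_reducible apply IntF.sep | with_reducible apply IntF.lam | with_reducible apply IntF.insert | with_reducible apply IntF.singleton | with_reducible apply IntF.union | with_reducible apply IntF.inter | with_reducible apply IntF.sdiff | with_reducible apply IntF.isUnion | with_reducible apply IntF.iimage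 | with_reducible apply IntF.the | with_reducible apply IntF.irec | with_reducible_and_instances apply IntF.add | with_reducible_and_instances apply IntF.mul | with_reducible apply IntF.succ | with_reducible apply IntF.val | (with_reducible refine Int.comp ?_ ?_; assumption) | (with_reducible refine Int.comp₂ ?_ ?_ ?_; assumption) | (with_reducible refine Int.comp₃ ?_ ?_ ?_ ?_; assumption) | (with_reducible refine IntF.comp ?_ ?_; assumption) | (with_reducible refine IntF.comp₂ ?_ ?_ ?_; assumption) | (with_reducible refine IntF.comp₃ ?_ ?_ ?_ ?_; assumption) | with_reducible apply IntF.pair))) (by (repeat' (first | with_reducible exact IntF.id | with_reducible exact IntF.fst' | with_reducible exact IntF.snd' | with_reducible exact IntF.const _ | with_reducible exact Int.const _ | assumption | with_reducible apply Int.and | with_reducible apply Int.or | with_reducible apply Int.not | with_reducible apply Int.imp | with_reducible apply Int.iff | with_reducible apply Int.ne | with_reducible apply Int.eq | with_reducible apply Int.mem | with_reducible apply Int.subset | with_reducible apply Int.ltN | with_reducible apply Int.leN | with_reducible apply Int.fin | with_reducible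 apply Int.unique | with_reducible apply Int.all | with_reducible apply Int.ex | with_reducible apply IntF.fst | with_reducible apply IntF.snd | with_reducible apply IntF.app | with_reducible apply IntF.ite | with_reducible apply IntF.sep | with_reducible apply IntF.lam | with_reducible apply IntF.insert | with_reducible apply IntF.singleton | with_reducible apply IntF.union | with_reducible apply IntF.inter | with_reducible apply IntF.sdiff | with_reducible apply IntF.isUnion | with_reducible apply IntF.iimage | with_reducible apply IntF.the | with_reducible apply IntF.irec | with_reducible_and_instances apply IntF.add | with_reducible_and_instances apply IntF.mul | with_reducible apply IntF.succ | with_reducible apply IntF.val | (with_reducible refine Int.comp ?_ ?_; assumption) | (with_reducible refine Int.comp₂ ?_ ?_ ?_; assumption) | (with_reducible refine Int.comp₃ ?_ ?_ ?_ ?_; assumption) | (with_reducible refine IntF.comp ?_ ?_; assumption) | (with_reducible refine IntF.comp₂ ?_ ?_ ?_; assumption) | (with_reducible refine IntF.comp₃ ?_ ?_ ?_ ?_; assumption) | with_reducible apply IntF.pair))) (κ := fun q => pr q.2.1 q.2.2) (by (repeat' (first | with_reducible exact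 IntF.id | with_reducible exact IntF.fst' | with_reducible exact IntF.snd' | with_reducible exact IntF.const _ | with_reducible exact Int.const _ | assumption | with_reducible apply Int.and | with_reducible apply Int.or | with_reducible apply Int.not | with_reducible apply Int.imp | with_reducible apply Int.iff | with_reducible apply Int.ne | with_reducible apply Int.eq | with_reducible apply Int.mem | with_reducible apply Int.subset | with_reducible apply Int.ltN | with_reducible apply Int.leN | with_reducible apply Int.fin | with_reducible apply Int.unique | with_reducible apply Int.all | with_reducible apply Int.ex | with_reducible apply IntF.fst | with_reducible apply IntF.snd | with_reducible apply IntF.app | with_reducible apply IntF.ite | with_reducible apply IntF.sep | with_reducible apply IntF.lam | with_reducible apply IntF.insert | with_reducible apply IntF.singleton | with_reducible apply IntF.union | with_reducible apply IntF.inter | with_reducible apply IntF.sdiff | with_reducible apply IntF.isUnion | with_reducible apply IntF.iimage | with_reducible apply IntF.the | with_reducible apply IntF.irec | with_reducible_and_instances apply IntF.add | with_reducible_and_instances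 apply IntF.mul | with_reducible apply IntF.succ | with_reducible apply IntF.val | (with_reducible refine Int.comp ?_ ?_; assumption) | (with_reducible refine Int.comp₂ ?_ ?_ ?_; assumption) | (with_reducible refine Int.comp₃ ?_ ?_ ?_ ?_; assumption) | (with_reducible refine IntF.comp ?_ ?_; assumption) | (with_reducible refine IntF.comp₂ ?_ ?_ ?_; assumption) | (with_reducible refine IntF.comp₃ ?_ ?_ ?_ ?_; assumption) | with_reducible apply IntF.pair)))
    (by
      rintro m m' ⟨⟨k, s⟩, ⟨j, l⟩⟩ ⟨⟨k', s'⟩, ⟨j', l'⟩⟩ ⟨h1, -⟩ ⟨h1', -⟩ h2 h3
      obtain ⟨h4, h5⟩ := pr_inj h3
      have h6 : s = s' := cyc_inj hD h1.1 h1'.1 h2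
      subst h6
      have h7 : k = k' := h1.1.unique h1'.1
      subst h7
      replace h4 : j = j' := h4
      replace h5 : l = l' := h5
      rw [h4, h5])
    (by
      rintro m m' ⟨⟨k, s⟩, ⟨j, l⟩⟩ ⟨⟨k', s'⟩, ⟨j', l'⟩⟩ ⟨h1, h8, h9, -⟩ ⟨h1', h8', h9', -⟩ h2 h3
      obtain ⟨h4, h5⟩ := pr_inj h3
      replace h4 : j = j' := h4
      replace h5 : l = l' := h5
      subst h4 h5
      have h10 := h1.1.sws h8.1 h8.2 h9.1 h9.2
      have h10' := h1'.1.sws h8'.1 h8'.2 h9'.1 h9'.2
      have h6 : s = s' := sws_inj (cyc_inj hD h10 h10' h2)
      subst h6
      have h7 : k = k' := h1.1.unique h1'.1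
      rw [h7])
    (fun m q h => h.2.2.2)
    (by
      intro a
      obtain ⟨N, hN'⟩ := level_bound (c₀ := c₀) hD hi hinj hlev a
      exact ⟨N, fun m q h1 h2 => hN' m q.1 h1.1 (h1.2.1.1.trans_le h1.2.1.2) h2⟩)
  have hconn : ∀ m, N < m → ∀ q q' : INat M × IFun M (INat M) α, EL c₀ lev m q →
      EL c₀ lev m q' → (i (cyc q.1 q.2)).2 = (i (cyc q'.1 q'.2)).2 := by
    rintro m hm ⟨k, s⟩ ⟨k', t⟩ hs ht
    refine conn (H := fun q => (i (cyc q.1 q.2)).2) hH hlev (fun k s hs j l hj hj' hl hl' => ?_)
      hs ht
    by_contra h
    exact absurd (hbad m ((k, s), (j, l)) ⟨hs, ⟨hj, hj'⟩, ⟨hl, hl'⟩, h⟩) (not_le.2 hm)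
  have hcm : IntF M (fun m => the (fun y => ∃ q : INat M × IFun M (INat M) α, EL c₀ lev m q ∧
      y = (i (cyc q.1 q.2)).2) c₀) := by (repeat' (first | with_reducible exact IntF.id | with_reducible exact IntF.fst' | with_reducible exact IntF.snd' | with_reducible exact IntF.const _ | with_reducible exact Int.const _ | assumption | with_reducible apply Int.and | with_reducible apply Int.or | with_reducible apply Int.not | with_reducible apply Int.imp | with_reducible apply Int.iff | with_reducible apply Int.ne | with_reducible apply Int.eq | with_reducible apply Int.mem | with_reducible apply Int.subset | with_reducible apply Int.ltN | with_reducible apply Int.leN | with_reducible apply Int.fin | with_reducible apply Int.unique | with_reducible apply Int.all | with_reducible apply Int.ex | with_reducible apply IntF.fst | with_reducible apply IntF.snd | with_reducible apply IntF.app | with_reducible apply IntF.ite | with_reducible apply IntF.sep | with_reducible apply IntF.lam | with_reducible apply IntF.insert | with_reducible apply IntF.singleton | with_reducible apply IntF.union | with_reducible apply IntF.inter | with_reducible apply IntF.sdiff | with_reducible apply IntF.isUnion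 | with_reducible apply IntF.iimage | with_reducible apply IntF.the | with_reducible apply IntF.irec | with_reducible_and_instances apply IntF.add | with_reducible_and_instances apply IntF.mul | with_reducible apply IntF.succ | with_reducible apply IntF.val | (with_reducible refine Int.comp ?_ ?_; assumption) | (with_reducible refine Int.comp₂ ?_ ?_ ?_; assumption) | (with_reducible refine Int.comp₃ ?_ ?_ ?_ ?_; assumption) | (with_reducible refine IntF.comp ?_ ?_; assumption) | (with_reducible refine IntF.comp₂ ?_ ?_ ?_; assumption) | (with_reducible refine IntF.comp₃ ?_ ?_ ?_ ?_; assumption) | with_reducible apply IntF.pair))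
  have hcm' : ∀ m, N < m → ∀ q : INat M × IFun M (INat M) α, EL c₀ lev m q →
      the (fun y => ∃ q : INat M × IFun M (INat M) α, EL c₀ lev m q ∧
        y = (i (cyc q.1 q.2)).2) c₀ = (i (cyc q.1 q.2)).2 := by
    intro m hm q hq
    refine the_eq ⟨_, ⟨q, hq, rfl⟩, ?_⟩ ⟨q, hq, rfl⟩
    rintro y ⟨q', h3, rfl⟩
    exact hconn m hm q' q h3 hq
  refine hD.not_fto' (N := fun m => N < m ∧ ∃ x, x ≠ c₀ ∧ lev x = m) (by (repeat' (first | with_reducible exact IntF.id | with_reducible exact IntF.fst' | with_reducible exact IntF.snd' | with_reducible exact IntF.const _ | with_reducible exact Int.const _ | assumption | with_reducible apply Int.and | with_reducible apply Int.or | with_reducible apply Int.not | with_reducible apply Int.imp | with_reducible apply Int.iff | with_reducible apply Int.ne | with_reducible apply Int.eq | with_reducible apply Int.mem | with_reducible apply Int.subset | with_reducible apply Int.ltN | with_reducible apply Int.leN | with_reducible apply Int.fin | with_reducible apply Int.unique | with_reducible apply Int.all | with_reducible apply Int.ex | with_reducible apply IntF.fst | with_reducible apply IntF.snd | with_reducible apply IntF.app | with_reducible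 apply IntF.ite | with_reducible apply IntF.sep | with_reducible apply IntF.lam | with_reducible apply IntF.insert | with_reducible apply IntF.singleton | with_reducible apply IntF.union | with_reducible apply IntF.inter | with_reducible apply IntF.sdiff | with_reducible apply IntF.isUnion | with_reducible apply IntF.iimage | with_reducible apply IntF.the | with_reducible apply IntF.irec | with_reducible_and_instances apply IntF.add | with_reducible_and_instances apply IntF.mul | with_reducible apply IntF.succ | with_reducible apply IntF.val | (with_reducible refine Int.comp ?_ ?_; assumption) | (with_reducible refine Int.comp₂ ?_ ?_ ?_; assumption) | (with_reducible refine Int.comp₃ ?_ ?_ ?_ ?_; assumption) | (with_reducible refine IntF.comp ?_ ?_; assumption) | (with_reducible refine IntF.comp₂ ?_ ?_ ?_; assumption) | (with_reducible refine IntF.comp₃ ?_ ?_ ?_ ?_; assumption) | with_reducible apply IntF.pair))) ?_ hcm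
    (fun _ _ => trivial) fun a => ?_
  · rintro ⟨K, hK⟩
    refine hinf ((((FinP.eq c₀).or (hfl N)).or (hfl K)).mono fun x _ => ?_)
    by_cases hx : x = c₀
    · exact Or.inl (Or.inl hx)
    · by_cases hx' : lev x ≤ N
      · exact Or.inl (Or.inr hx')
      · exact Or.inr (hK _ ⟨not_le.1 hx', x, hx, rfl⟩)
  · obtain ⟨K, hK⟩ := level_bound (c₀ := c₀) hD hi hinj hlev a
    refine finP_of_bound (n := K) fun m hm => ?_
    obtain ⟨⟨h1, x, h2, h3⟩, h4⟩ := hm
    obtain ⟨q, hq⟩ := exists_EL (c₀ := c₀) hlev hfl m
    rw [hcm' m h1 q hq] at h4
    obtain ⟨j, hj⟩ := (hq.2 x h2).1 h3
    have h5 := hq.1.ne (j := j) (by rw [hj]; exact h2)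
    exact hK m q hq (h5.1.trans_le h5.2) h4

end Pool.Agent.H310
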