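import Pool.Agent.H310R3.Cards

/-!
# Topological spaces in a structure for the language of set theory: definitions

In a structure `M` for the language of set theory, a topological space is a pair of elements
`x` (the set of the points) and `t` (the set of the open sets). `Mem`, `IsOrdPair` and `Zermelo`
are from `Pool.Agent.Helper672.SIK.Plain`, and `IsFun`, `App`, `IsFinite`, `IsOmega`, `IsPow`
and `IsInj` from the imported file.
-/

namespace Pool.Agent.H310Top

open FirstOrder FirstOrder.Language
open Pool.Agent.Helper672.Plain (LSet Mem)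
open Pool.Agent.H310Cards

universe u

variable {M : Type u} [LSet.Structure M]

/-- `t` is a topology on `x`: a set of subsets of `x` that contains `x` and is closed under
binary intersections and arbitrary unions. -/
structure IsTopology (t x : M) : Prop where
  sub : ∀ u, Mem u t → ∀ z, Mem z u → Mem z x
  univ : Mem x t
  inter : ∀ u v w, Mem u t → Mem v t → (∀ z, Mem z w ↔ Mem z u ∧ Mem z v) → Mem w t
  union : ∀ c w, (∀ u, Mem u c → Mem u t) → (∀ z, Mem z w ↔ ∃ u, Mem u c ∧ Mem z u) → Mem w t

/-- `b` is a base of the topology `t`. -/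
def IsBase (b t : M) : Prop :=
  (∀ u, Mem u b → Mem u t) ∧
    ∀ u z, Mem u t → Mem z u → ∃ v, Mem v b ∧ Mem z v ∧ ∀ y, Mem y v → Mem y u

/-- `b` is a cuf set: it is the union of a sequence `f` of finite sets, indexed by the set `w` of
the natural numbers. -/
def IsCuf (b : M) : Prop :=
  ∃ w s f, IsOmega w ∧ IsFun f w s ∧ (∀ u, Mem u s → IsFinite u) ∧
    ∀ z, Mem z b ↔ ∃ n u, App f n u ∧ Mem z u

/-- The space is compact. -/
def IsCompact (t x : M) : Prop :=
  ∀ c, (∀ u, Mem u c → Mem u t) → (∀ z, Mem z x → ∃ u, Mem u c ∧ Mem z u) →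
    ∃ c', IsFinite c' ∧ (∀ u, Mem u c' → Mem u c) ∧ ∀ z, Mem z x → ∃ u, Mem u c' ∧ Mem z u

/-- The space is a Hausdorff space. -/
def IsHausdorff (t x : M) : Prop :=
  ∀ y z, Mem y x → Mem z x → y ≠ z →
    ∃ u v, Mem u t ∧ Mem v t ∧ Mem y u ∧ Mem z v ∧ ∀ a, Mem a u → ¬ Mem a v

/-- `c` is a closed subset of the space: a subset whose complement is open. -/
def IsClosed (t x c : M) : Prop :=
  (∀ z, Mem z c → Mem z x) ∧ ∃ u, Mem u t ∧ ∀ z, Mem z u ↔ Mem z x ∧ ¬ Mem z c

/-- The point `z` of the subspace `a` is isolated in `a`. -/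
def IsIsolated (t a z : M) : Prop :=
  Mem z a ∧ ∃ u, Mem u t ∧ Mem z u ∧ ∀ y, Mem y u → Mem y a → y = z

/-- The space is scattered: every nonempty subspace has an isolated point. -/
def IsScattered (t x : M) : Prop :=
  ∀ a, (∀ z, Mem z a → Mem z x) → (∃ z, Mem z a) → ∃ z, IsIsolated t a z

/-- The space is weakly Loeb: the set `k` of all nonempty closed subsets has a multiple choice
function `f`, that is, for `c` in `k` the value of `f` at `c` is a nonempty finite subset
of `c`. -/
def IsWeaklyLoeb (t x : M) : Prop :=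
  ∃ k s f, (∀ c, Mem c k ↔ IsClosed t x c ∧ ∃ z, Mem z c) ∧ IsFun f k s ∧
    ∀ c y, App f c y → IsFinite y ∧ (∃ z, Mem z y) ∧ ∀ z, Mem z y → Mem z c

end Pool.Agent.H310Top
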