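import Pool.Agent.H310R3.Cyc
import Pool.Agent.H310R3.Real
import Pool.Agent.Helper672.ZFA.Order

/-!
# Trees of finite choices
-/

set_option maxHeartbeats 400000
set_option linter.all false
set_option synthInstance.maxSize 2000

namespace Pool.Agent.H310

open FirstOrder FirstOrder.Language
open Pool.Agent.Helper672.ZFA

universe u u₁ u₂ u₃ u₄

variable {M : Type u} [L.Structure M] [hM : IsModel M]
variable {α : Type u₁} {ν : Type u₂} [ITy M α] [ITy M ν]

/-- Chains of sets that meet a finite set. -/
theorem chain_fin {s : IPow M ν} (hs : IFin s) {C : IPow M (IPow M ν)} (hne : ∃ E, E ∈ C)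
    (hC : IsChn C) (h : ∀ E, E ∈ C → ∃ a, a ∈ s ∧ a ∈ E) :
    ∃ a, a ∈ s ∧ ∀ E, E ∈ C → a ∈ E := by
  by_contra hc
  push Not at hc
  obtain ⟨E₀, hE₀⟩ := hne
  obtain ⟨E, hE⟩ := IFin.exists_bound (r := fun (a : ν) (E : IPow M ν) => E ∈ C ∧ ¬ a ∈ E)
    (by (repeat' (first | with_reducible exact IntF.id | with_reducible exact IntF.fst' | with_reducible exact IntF.snd' | with_reducible exact IntF.const _ | with_reducible exact Int.const _ | assumption | with_reducible apply Int.and | with_reducible apply Int.or | with_reducible apply Int.not | with_reducible apply Int.imp | with_reducible apply Int.iff | with_reducible apply Int.ne | with_reducible apply Int.eq | with_reducible apply Int.mem | with_reducible apply Int.subset | with_reducible apply Int.ltN | with_reducible apply Int.leN | with_reducible apply Int.fin | with_reducible apply Int.unique | with_reducible apply Int.all | with_reducible apply Int.ex | with_reducible apply IntF.fst | with_reducible apply IntF.snd | with_reducible apply IntF.app | with_reducible apply IntF.ite | with_reducible apply IntF.sep | with_reducible apply IntF.lam | with_reducible apply IntF.insert | with_reducible apply IntF.singleton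 | with_reducible apply IntF.union | with_reducible apply IntF.inter | with_reducible apply IntF.sdiff | with_reducible apply IntF.isUnion | with_reducible apply IntF.iimage | with_reducible apply IntF.the | with_reducible apply IntF.irec | with_reducible_and_instances apply IntF.add | with_reducible_and_instances apply IntF.mul | with_reducible apply IntF.succ | with_reducible apply IntF.val | (with_reducible refine Int.comp ?_ ?_; assumption) | (with_reducible refine Int.comp₂ ?_ ?_ ?_; assumption) | (with_reducible refine Int.comp₃ ?_ ?_ ?_ ?_; assumption) | (with_reducible refine IntF.comp ?_ ?_; assumption) | (with_reducible refine IntF.comp₂ ?_ ?_ ?_; assumption) | (with_reducible refine IntF.comp₃ ?_ ?_ ?_ ?_; assumption) | with_reducible apply IntF.pair))) (fun b c => by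
      by_cases hb : b ∈ C
      · by_cases hc : c ∈ C
        · rcases hC b c hb hc with h1 | h1
          · exact ⟨b, fun a ha => ha.elim (fun h => h) fun h => ⟨hb, fun hab => h.2 (h1 a hab)⟩⟩
          · exact ⟨c, fun a ha => ha.elim (fun h => ⟨hc, fun hac => h.2 (h1 a hac)⟩) fun h => h⟩
        · exact ⟨b, fun a ha => ha.elim (fun h => h) fun h => absurd h.1 hc⟩
      · exact ⟨c, fun a ha => ha.elim (fun h => absurd h.1 hb) fun h => h⟩) ⟨E₀⟩ hs (fun a ha => by
      obtain ⟨E, hE, h1⟩ := hc a ha
      exact ⟨E, hE, h1⟩)
  obtain ⟨a, ha, -⟩ := h E₀ hE₀
  obtain ⟨b, hb, hbE⟩ := h E (hE a ha).1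
  exact (hE b hb).2 hbE

/-- Finitely many choices. -/
theorem nat_choice {β : Type u₃} [ITy M β] [Nonempty β] {R : INat M → β → Prop}
    (hR : Int M (fun q : INat M × β => R q.1 q.2)) (k : INat M) :
    (∀ i, i < k → ∃ y, R i y) → ∃ g : IFun M (INat M) β, ∀ i, i < k → R i (g i) := by
  refine INat.ind (p := fun k => (∀ i, i < k → ∃ y, R i y) →
    ∃ g : IFun M (INat M) β, ∀ i, i < k → R i (g i)) (by (repeat' (first | with_reducible exact IntF.id | with_reducible exact IntF.fst' | with_reducible exact IntF.snd' | with_reducible exact IntF.const _ | with_reducible exact Int.const _ | assumption | with_reducible apply Int.and | with_reducible apply Int.or | with_reducible apply Int.not | with_reducible apply Int.imp | with_reducible apply Int.iff | with_reducible apply Int.ne | with_reducible apply Int.eq | with_reducible apply Int.mem | with_reducible apply Int.subset | with_reducible apply Int.ltN | with_reducible apply Int.leN | with_reducible apply Int.fin | with_reducible apply Int.unique | with_reducible apply Int.all | with_reducible apply Int.ex | with_reducible apply IntF.fst | with_reducible apply IntF.snd | with_reducible apply IntF.app | with_reducible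 apply IntF.ite | with_reducible apply IntF.sep | with_reducible apply IntF.lam | with_reducible apply IntF.insert | with_reducible apply IntF.singleton | with_reducible apply IntF.union | with_reducible apply IntF.inter | with_reducible apply IntF.sdiff | with_reducible apply IntF.isUnion | with_reducible apply IntF.iimage | with_reducible apply IntF.the | with_reducible apply IntF.irec | with_reducible_and_instances apply IntF.add | with_reducible_and_instances apply IntF.mul | with_reducible apply IntF.succ | with_reducible apply IntF.val | (with_reducible refine Int.comp ?_ ?_; assumption) | (with_reducible refine Int.comp₂ ?_ ?_ ?_; assumption) | (with_reducible refine Int.comp₃ ?_ ?_ ?_ ?_; assumption) | (with_reducible refine IntF.comp ?_ ?_; assumption) | (with_reducible refine IntF.comp₂ ?_ ?_ ?_; assumption) | (with_reducible refine IntF.comp₃ ?_ ?_ ?_ ?_; assumption) | with_reducible apply IntF.pair))) ?_ ?_ k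
  · intro _
    exact ⟨lam M fun _ => Classical.arbitrary β, fun i hi => absurd hi INat.not_lt_zero⟩
  · intro k ih h
    obtain ⟨g, hg⟩ := ih fun i hi => h i (INat.lt_trans' hi (INat.lt_succ_self k))
    obtain ⟨y, hy⟩ := h k (INat.lt_succ_self k)
    classical
    have h1 : IntF M (fun i : INat M => if i = k then y else g i) :=
      IntF.ite (Int.eq IntF.id (IntF.const _)) (IntF.const _) g.int_app
    refine ⟨lam M fun i => if i = k then y else g i, fun i hi => ?_⟩
    rw [lam_apply h1]
    by_cases hik : i = k
    · rw [if_pos hik, hik]
      exact hy
    · rw [if_neg hik]
      exact hg i (lt_of_le_of_ne (INat.lt_succ_iff.1 hi) hik)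

variable (M α ν) in
/-- Trees of finite choices. -/
structure TD where
  Nd : IPow M ν
  lev : IFun M ν (INat M)
  re : IFun M (INat M × ν) ν
  K : IFun M (ν × IPow M (INat M)) (IPow M α)
  Cl : IPow M (IPow M α)
  F : IFun M (IPow M α) (IPow M α)
  fin : ∀ n, FinP M (fun e => e ∈ Nd ∧ lev e = n)
  re_nd : ∀ m e, e ∈ Nd → m ≤ lev e → re (m, e) ∈ Nd ∧ lev (re (m, e)) = m
  re_re : ∀ m n e, e ∈ Nd → m ≤ n → n ≤ lev e → re (m, re (n, e)) = re (m, e)
  re_self : ∀ e, e ∈ Nd → re (lev e, e) = e
  root : ∃ e, e ∈ Nd ∧ lev e = 0
  root_unique : ∀ e e', e ∈ Nd → e' ∈ Nd → lev e = 0 → lev e' = 0 → e = e'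
  ext : ∀ e, e ∈ Nd → ∃ e', e' ∈ Nd ∧ lev e' = (lev e).succ ∧ re (lev e, e') = e
  mono : ∀ e, e ∈ Nd → ∀ m, m ≤ lev e → ∀ s x, x ∈ K (e, s) → x ∈ K (re (m, e), s)
  dep : ∀ e, e ∈ Nd → ∀ s s' : IPow M (INat M), (∀ m, m < lev e → (m ∈ s ↔ m ∈ s')) →
    K (e, s) = K (e, s')
  disj : ∀ e, e ∈ Nd → ∀ (s s' : IPow M (INat M)) m, m < lev e → ¬ (m ∈ s ↔ m ∈ s') →
    ∀ x, x ∈ K (e, s) → ¬ x ∈ K (e, s')
  small : ∀ x y, x ≠ y → ∃ n, ∀ e e', e ∈ Nd → e' ∈ Nd → lev e = n → lev e' = n →
    ∀ s, x ∈ K (e, s) → y ∈ K (e', s) → ∀ z, z ∈ K (e, s) → ¬ z ∈ K (e', s)
  cl_K : ∀ e, e ∈ Nd → ∀ s, K (e, s) ∈ Cl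
  K_ne : ∀ e, e ∈ Nd → ∀ s, ∃ x, x ∈ K (e, s)
  cl_union : ∀ S : IPow M (IPow M α), IFin S → (∀ C, C ∈ S → C ∈ Cl) → isUnion S ∈ Cl
  comp : ∀ C : IFun M (INat M) (IPow M α), (∀ n, C n ∈ Cl) → (∀ n, ∃ x, x ∈ C n) →
    (∀ m n, m ≤ n → ∀ x, x ∈ C n → x ∈ C m) → ∃ x, ∀ n, x ∈ C n
  cl_inter : ∀ C : IFun M (INat M) (IPow M α), (∀ n, C n ∈ Cl) →
    sep M (fun x => ∀ n, x ∈ C n) ∈ Cl
  F_spec : ∀ C, C ∈ Cl → (∃ x, x ∈ C) → IFin (F C) ∧ (∀ x, x ∈ F C → x ∈ C) ∧ ∃ x, x ∈ F C

namespace TD

variable (T : TD M α ν)

/-- Good subtrees. -/
def Good (E : IPow M ν) : Prop :=
  (∀ e, e ∈ E → e ∈ T.Nd) ∧ (∃ e, e ∈ E ∧ T.lev e = 0) ∧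
  (∀ e, e ∈ E → ∃ e', e' ∈ E ∧ T.lev e' = (T.lev e).succ ∧ T.re (T.lev e, e') = e) ∧
  ∀ e m, e ∈ E → m ≤ T.lev e → T.re (m, e) ∈ E

theorem int_Good : Int M (fun E => T.Good E) := by
  unfold Good
  (repeat' (first | with_reducible exact IntF.id | with_reducible exact IntF.fst' | with_reducible exact IntF.snd' | with_reducible exact IntF.const _ | with_reducible exact Int.const _ | assumption | with_reducible apply Int.and | with_reducible apply Int.or | with_reducible apply Int.not | with_reducible apply Int.imp | with_reducible apply Int.iff | with_reducible apply Int.ne | with_reducible apply Int.eq | with_reducible apply Int.mem | with_reducible apply Int.subset | with_reducible apply Int.ltN | with_reducible apply Int.leN | with_reducible apply Int.fin | with_reducible apply Int.unique | with_reducible apply Int.all | with_reducible apply Int.ex | with_reducible apply IntF.fst | with_reducible apply IntF.snd | with_reducible apply IntF.app | with_reducible apply IntF.ite | with_reducible apply IntF.sep | with_reducible apply IntF.lam | with_reducible apply IntF.insert | with_reducible apply IntF.singleton | with_reducible apply IntF.union | with_reducible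 apply IntF.inter | with_reducible apply IntF.sdiff | with_reducible apply IntF.isUnion | with_reducible apply IntF.iimage | with_reducible apply IntF.the | with_reducible apply IntF.irec | with_reducible_and_instances apply IntF.add | with_reducible_and_instances apply IntF.mul | with_reducible apply IntF.succ | with_reducible apply IntF.val | (with_reducible refine Int.comp ?_ ?_; assumption) | (with_reducible refine Int.comp₂ ?_ ?_ ?_; assumption) | (with_reducible refine Int.comp₃ ?_ ?_ ?_ ?_; assumption) | (with_reducible refine IntF.comp ?_ ?_; assumption) | (with_reducible refine IntF.comp₂ ?_ ?_ ?_; assumption) | (with_reducible refine IntF.comp₃ ?_ ?_ ?_ ?_; assumption) | with_reducible apply IntF.pair))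

theorem good_Nd : T.Good T.Nd :=
  ⟨fun _ h => h, T.root, T.ext, fun e m he hm => (T.re_nd m e he hm).1⟩

variable {T} {E : IPow M ν}

theorem Good.above (h : T.Good E) {e : ν} (he : e ∈ E) (n : INat M) : T.lev e ≤ n →
    ∃ e', e' ∈ E ∧ T.lev e' = n ∧ T.re (T.lev e, e') = e := by
  refine INat.ind (p := fun n => T.lev e ≤ n →
    ∃ e', e' ∈ E ∧ T.lev e' = n ∧ T.re (T.lev e, e') = e) (by (repeat' (first | with_reducible exact IntF.id | with_reducible exact IntF.fst' | with_reducible exact IntF.snd' | with_reducible exact IntF.const _ | with_reducible exact Int.const _ | assumption | with_reducible apply Int.and | with_reducible apply Int.or | with_reducible apply Int.not | with_reducible apply Int.imp | with_reducible apply Int.iff | with_reducible apply Int.ne | with_reducible apply Int.eq | with_reducible apply Int.mem | with_reducible apply Int.subset | with_reducible apply Int.ltN | with_reducible apply Int.leN | with_reducible apply Int.fin | with_reducible apply Int.unique | with_reducible apply Int.all | with_reducible apply Int.ex | with_reducible apply IntF.fst | with_reducible apply IntF.snd | with_reducible apply IntF.app | with_reducible apply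 IntF.ite | with_reducible apply IntF.sep | with_reducible apply IntF.lam | with_reducible apply IntF.insert | with_reducible apply IntF.singleton | with_reducible apply IntF.union | with_reducible apply IntF.inter | with_reducible apply IntF.sdiff | with_reducible apply IntF.isUnion | with_reducible apply IntF.iimage | with_reducible apply IntF.the | with_reducible apply IntF.irec | with_reducible_and_instances apply IntF.add | with_reducible_and_instances apply IntF.mul | with_reducible apply IntF.succ | with_reducible apply IntF.val | (with_reducible refine Int.comp ?_ ?_; assumption) | (with_reducible refine Int.comp₂ ?_ ?_ ?_; assumption) | (with_reducible refine Int.comp₃ ?_ ?_ ?_ ?_; assumption) | (with_reducible refine IntF.comp ?_ ?_; assumption) | (with_reducible refine IntF.comp₂ ?_ ?_ ?_; assumption) | (with_reducible refine IntF.comp₃ ?_ ?_ ?_ ?_; assumption) | with_reducible apply IntF.pair))) ?_ ?_ n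
  · intro h0
    exact ⟨e, he, le_antisymm h0 (INat.zero_le _), T.re_self e (h.1 e he)⟩
  · intro n ih hn
    rcases le_iff_eq_or_lt.1 hn with h1 | h1
    · exact ⟨e, he, h1, T.re_self e (h.1 e he)⟩
    · obtain ⟨e', he', h2, h3⟩ := ih (INat.lt_succ_iff.1 h1)
      obtain ⟨e'', he'', h4, h5⟩ := h.2.2.1 e' he'
      refine ⟨e'', he'', by rw [h4, h2], ?_⟩
      have h6 := T.re_re (T.lev e) (T.lev e') e'' (h.1 _ he'') (by rw [h2]; exact INat.lt_succ_iff.1 h1)
        (by rw [h4]; exact INat.le_succ_self _)
      rw [h5, h3] at h6
      exact h6.symm

variable (T E) in
/-- The nodes comparable to a node. -/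
noncomputable def Ab (e₀ : ν) : IPow M ν := sep M fun e => e ∈ E ∧
  (T.lev e ≤ T.lev e₀ → e = T.re (T.lev e, e₀)) ∧ (T.lev e₀ ≤ T.lev e → T.re (T.lev e₀, e) = e₀)

theorem mem_Ab {e₀ e : ν} : e ∈ T.Ab E e₀ ↔ e ∈ E ∧
    (T.lev e ≤ T.lev e₀ → e = T.re (T.lev e, e₀)) ∧
      (T.lev e₀ ≤ T.lev e → T.re (T.lev e₀, e) = e₀) := by
  unfold Ab
  exact mem_sep (by (repeat' (first | with_reducible exact IntF.id | with_reducible exact IntF.fst' | with_reducible exact IntF.snd' | with_reducible exact IntF.const _ | with_reducible exact Int.const _ | assumption | with_reducible apply Int.and | with_reducible apply Int.or | with_reducible apply Int.not | with_reducible apply Int.imp | with_reducible apply Int.iff | with_reducible apply Int.ne | with_reducible apply Int.eq | with_reducible apply Int.mem | with_reducible apply Int.subset | with_reducible apply Int.ltN | with_reducible apply Int.leN | with_reducible apply Int.fin | with_reducible apply Int.unique | with_reducible apply Int.all | with_reducible apply Int.ex | with_reducible apply IntF.fst | with_reducible apply IntF.snd | with_reducible apply IntF.app | with_reducible apply IntF.ite | with_reducible apply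 IntF.sep | with_reducible apply IntF.lam | with_reducible apply IntF.insert | with_reducible apply IntF.singleton | with_reducible apply IntF.union | with_reducible apply IntF.inter | with_reducible apply IntF.sdiff | with_reducible apply IntF.isUnion | with_reducible apply IntF.iimage | with_reducible apply IntF.the | with_reducible apply IntF.irec | with_reducible_and_instances apply IntF.add | with_reducible_and_instances apply IntF.mul | with_reducible apply IntF.succ | with_reducible apply IntF.val | (with_reducible refine Int.comp ?_ ?_; assumption) | (with_reducible refine Int.comp₂ ?_ ?_ ?_; assumption) | (with_reducible refine Int.comp₃ ?_ ?_ ?_ ?_; assumption) | (with_reducible refine IntF.comp ?_ ?_; assumption) | (with_reducible refine IntF.comp₂ ?_ ?_ ?_; assumption) | (with_reducible refine IntF.comp₃ ?_ ?_ ?_ ?_; assumption) | with_reducible apply IntF.pair)))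

theorem Good.ab_re (h : T.Good E) {e₀ : ν} (he₀ : e₀ ∈ E) {m : INat M} (hm : m ≤ T.lev e₀) :
    T.re (m, e₀) ∈ T.Ab E e₀ := by
  have h1 := T.re_nd m e₀ (h.1 _ he₀) hm
  refine mem_Ab.2 ⟨h.2.2.2 _ _ he₀ hm, fun _ => by rw [h1.2], fun h2 => ?_⟩
  rw [h1.2] at h2
  have h3 : m = T.lev e₀ := le_antisymm hm h2
  rw [h3, T.re_self e₀ (h.1 _ he₀), T.re_self e₀ (h.1 _ he₀)]

theorem Good.ab_below (h : T.Good E) {e₀ e : ν} (he₀ : e₀ ∈ E) (he : e ∈ E)
    (hl : T.lev e₀ ≤ T.lev e) (hr : T.re (T.lev e₀, e) = e₀) : e ∈ T.Ab E e₀ := by
  refine mem_Ab.2 ⟨he, fun h1 => ?_, fun _ => hr⟩
  have h2 : T.lev e = T.lev e₀ := le_antisymm h1 hl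
  rw [← h2, T.re_self e (h.1 _ he)] at hr
  rw [h2, T.re_self e₀ (h.1 _ he₀)]
  exact hr

theorem Good.ab (h : T.Good E) {e₀ : ν} (he₀ : e₀ ∈ E) : T.Good (T.Ab E e₀) := by
  have hN : ∀ {e}, e ∈ E → e ∈ T.Nd := fun he => h.1 _ he
  refine ⟨fun e he => hN (mem_Ab.1 he).1, ⟨_, h.ab_re he₀ (INat.zero_le _),
    (T.re_nd 0 e₀ (hN he₀) (INat.zero_le _)).2⟩, fun e he => ?_, fun e m he hm => ?_⟩
  · obtain ⟨he, h1, h2⟩ := mem_Ab.1 he
    rcases lt_or_ge (T.lev e) (T.lev e₀) with hl | hl
    · have h3 := T.re_nd (T.lev e).succ e₀ (hN he₀) (INat.succ_le_iff.2 hl)
      refine ⟨_, h.ab_re he₀ (INat.succ_le_iff.2 hl), h3.2, ?_⟩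
      rw [T.re_re _ _ _ (hN he₀) (INat.le_succ_self _) (INat.succ_le_iff.2 hl)]
      exact (h1 (le_of_lt hl)).symm
    · obtain ⟨e', he', h3, h4⟩ := h.2.2.1 e he
      have h5 := T.re_re (T.lev e₀) (T.lev e) e' (hN he') hl (by rw [h3]; exact INat.le_succ_self _)
      rw [h4, h2 hl] at h5
      exact ⟨e', h.ab_below he₀ he' (by rw [h3]; exact le_trans hl (INat.le_succ_self _)) h5.symm,
        h3, h4⟩
  · obtain ⟨he, h1, h2⟩ := mem_Ab.1 he
    rcases le_total m (T.lev e₀) with hl | hl
    · have h3 : T.re (m, e) = T.re (m, e₀) := by
        rcases le_total (T.lev e) (T.lev e₀) with h4 | h4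
        · conv_lhs => rw [h1 h4]
          exact T.re_re _ _ _ (hN he₀) hm h4
        · rw [← T.re_re m (T.lev e₀) e (hN he) hl h4, h2 h4]
      rw [h3]
      exact h.ab_re he₀ hl
    · have h3 := T.re_nd m e (hN he) hm
      refine h.ab_below he₀ (h.2.2.2 _ _ he hm) (by rw [h3.2]; exact hl) ?_
      rw [T.re_re _ _ _ (hN he) hl hm]
      exact h2 (le_trans hl hm)

theorem Good.ab_ab (h : T.Good E) {e₀ e : ν} (he₀ : e₀ ∈ E) (he : e ∈ E)
    (hl : T.lev e₀ ≤ T.lev e) (hr : T.re (T.lev e₀, e) = e₀) {e' : ν} (he' : e' ∈ T.Ab E e) :
    e' ∈ T.Ab E e₀ := by
  have hN : ∀ {e}, e ∈ E → e ∈ T.Nd := fun he => h.1 _ he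
  obtain ⟨h0, h1, h2⟩ := mem_Ab.1 he'
  rcases le_total (T.lev e') (T.lev e₀) with h3 | h3
  · refine mem_Ab.2 ⟨h0, fun _ => ?_, fun h4 => ?_⟩
    · conv_lhs => rw [h1 (le_trans h3 hl)]
      rw [← T.re_re _ _ _ (hN he) h3 hl, hr]
    · have h5 : T.lev e' = T.lev e₀ := le_antisymm h3 h4
      rw [← h5, T.re_self e' (hN h0)]
      rw [h1 (le_trans h3 hl), h5]
      exact hr
  · refine h.ab_below he₀ h0 h3 ?_
    rcases le_total (T.lev e') (T.lev e) with h4 | h4
    · rw [h1 h4, T.re_re _ _ _ (hN he) h3 h4]
      exact hr
    · rw [← T.re_re _ _ _ (hN h0) hl h4, h2 h4]
      exact hr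

variable (T E) in
/-- The closed set of a level. -/
noncomputable def Lk (s : IPow M (INat M)) (n : INat M) : IPow M α :=
  sep M fun x => ∃ e, e ∈ E ∧ T.lev e = n ∧ x ∈ T.K (e, s)

theorem mem_Lk {s : IPow M (INat M)} {n : INat M} {x : α} : x ∈ T.Lk E s n ↔
    ∃ e, e ∈ E ∧ T.lev e = n ∧ x ∈ T.K (e, s) := by
  unfold Lk
  exact mem_sep (by (repeat' (first | with_reducible exact IntF.id | with_reducible exact IntF.fst' | with_reducible exact IntF.snd' | with_reducible exact IntF.const _ | with_reducible exact Int.const _ | assumption | with_reducible apply Int.and | with_reducible apply Int.or | with_reducible apply Int.not | with_reducible apply Int.imp | with_reducible apply Int.iff | with_reducible apply Int.ne | with_reducible apply Int.eq | with_reducible apply Int.mem | with_reducible apply Int.subset | with_reducible apply Int.ltN | with_reducible apply Int.leN | with_reducible apply Int.fin | with_reducible apply Int.unique | with_reducible apply Int.all | with_reducible apply Int.ex | with_reducible apply IntF.fst | with_reducible apply IntF.snd | with_reducible apply IntF.app | with_reducible apply IntF.ite | with_reducible apply IntF.sep | with_reducible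 apply IntF.lam | with_reducible apply IntF.insert | with_reducible apply IntF.singleton | with_reducible apply IntF.union | with_reducible apply IntF.inter | with_reducible apply IntF.sdiff | with_reducible apply IntF.isUnion | with_reducible apply IntF.iimage | with_reducible apply IntF.the | with_reducible apply IntF.irec | with_reducible_and_instances apply IntF.add | with_reducible_and_instances apply IntF.mul | with_reducible apply IntF.succ | with_reducible apply IntF.val | (with_reducible refine Int.comp ?_ ?_; assumption) | (with_reducible refine Int.comp₂ ?_ ?_ ?_; assumption) | (with_reducible refine Int.comp₃ ?_ ?_ ?_ ?_; assumption) | (with_reducible refine IntF.comp ?_ ?_; assumption) | (with_reducible refine IntF.comp₂ ?_ ?_ ?_; assumption) | (with_reducible refine IntF.comp₃ ?_ ?_ ?_ ?_; assumption) | with_reducible apply IntF.pair)))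

theorem Good.cl_Lk (h : T.Good E) (s : IPow M (INat M)) (n : INat M) : T.Lk E s n ∈ T.Cl := by
  have h1 : T.Lk E s n = isUnion (iimage (fun e => T.K (e, s))
      (sep M fun e => e ∈ E ∧ T.lev e = n)) := by
    refine IPow.ext' fun x => ?_
    rw [mem_Lk, mem_isUnion]
    constructor
    · rintro ⟨e, he, hl, hx⟩
      exact ⟨_, (mem_iimage (by (repeat' (first | with_reducible exact IntF.id | with_reducible exact IntF.fst' | with_reducible exact IntF.snd' | with_reducible exact IntF.const _ | with_reducible exact Int.const _ | assumption | with_reducible apply Int.and | with_reducible apply Int.or | with_reducible apply Int.not | with_reducible apply Int.imp | with_reducible apply Int.iff | with_reducible apply Int.ne | with_reducible apply Int.eq | with_reducible apply Int.mem | with_reducible apply Int.subset | with_reducible apply Int.ltN | with_reducible apply Int.leN | with_reducible apply Int.fin | with_reducible apply Int.unique | with_reducible apply Int.all | with_reducible apply Int.ex | with_reducible apply IntF.fst | with_reducible apply IntF.snd | with_reducible apply IntF.app | with_reducible apply IntF.ite | with_reducible apply IntF.sep |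 with_reducible apply IntF.lam | with_reducible apply IntF.insert | with_reducible apply IntF.singleton | with_reducible apply IntF.union | with_reducible apply IntF.inter | with_reducible apply IntF.sdiff | with_reducible apply IntF.isUnion | with_reducible apply IntF.iimage | with_reducible apply IntF.the | with_reducible apply IntF.irec | with_reducible_and_instances apply IntF.add | with_reducible_and_instances apply IntF.mul | with_reducible apply IntF.succ | with_reducible apply IntF.val | (with_reducible refine Int.comp ?_ ?_; assumption) | (with_reducible refine Int.comp₂ ?_ ?_ ?_; assumption) | (with_reducible refine Int.comp₃ ?_ ?_ ?_ ?_; assumption) | (with_reducible refine IntF.comp ?_ ?_; assumption) | (with_reducible refine IntF.comp₂ ?_ ?_ ?_; assumption) | (with_reducible refine IntF.comp₃ ?_ ?_ ?_ ?_; assumption) | with_reducible apply IntF.pair)))).2 ⟨e, (mem_sep (by (repeat' (first | with_reducible exact IntF.id | with_reducible exact IntF.fst' | with_reducible exact IntF.snd' | with_reducible exact IntF.const _ | with_reducible exact Int.const _ | assumption | with_reducible apply Int.and | with_reducible apply Int.or | with_reducible apply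 Int.not | with_reducible apply Int.imp | with_reducible apply Int.iff | with_reducible apply Int.ne | with_reducible apply Int.eq | with_reducible apply Int.mem | with_reducible apply Int.subset | with_reducible apply Int.ltN | with_reducible apply Int.leN | with_reducible apply Int.fin | with_reducible apply Int.unique | with_reducible apply Int.all | with_reducible apply Int.ex | with_reducible apply IntF.fst | with_reducible apply IntF.snd | with_reducible apply IntF.app | with_reducible apply IntF.ite | with_reducible apply IntF.sep | with_reducible apply IntF.lam | with_reducible apply IntF.insert | with_reducible apply IntF.singleton | with_reducible apply IntF.union | with_reducible apply IntF.inter | with_reducible apply IntF.sdiff | with_reducible apply IntF.isUnion | with_reducible apply IntF.iimage | with_reducible apply IntF.the | with_reducible apply IntF.irec | with_reducible_and_instances apply IntF.add | with_reducible_and_instances apply IntF.mul | with_reducible apply IntF.succ | with_reducible apply IntF.val | (with_reducible refine Int.comp ?_ ?_; assumption) | (with_reducible refine Int.comp₂ ?_ ?_ ?_; assumption) | (with_reducible refine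 Int.comp₃ ?_ ?_ ?_ ?_; assumption) | (with_reducible refine IntF.comp ?_ ?_; assumption) | (with_reducible refine IntF.comp₂ ?_ ?_ ?_; assumption) | (with_reducible refine IntF.comp₃ ?_ ?_ ?_ ?_; assumption) | with_reducible apply IntF.pair)))).2 ⟨he, hl⟩, rfl⟩, hx⟩
    · rintro ⟨C, hC, hx⟩
      obtain ⟨e, he, rfl⟩ := (mem_iimage (by (repeat' (first | with_reducible exact IntF.id | with_reducible exact IntF.fst' | with_reducible exact IntF.snd' | with_reducible exact IntF.const _ | with_reducible exact Int.const _ | assumption | with_reducible apply Int.and | with_reducible apply Int.or | with_reducible apply Int.not | with_reducible apply Int.imp | with_reducible apply Int.iff | with_reducible apply Int.ne | with_reducible apply Int.eq | with_reducible apply Int.mem | with_reducible apply Int.subset | with_reducible apply Int.ltN | with_reducible apply Int.leN | with_reducible apply Int.fin | with_reducible apply Int.unique | with_reducible apply Int.all | with_reducible apply Int.ex | with_reducible apply IntF.fst | with_reducible apply IntF.snd | with_reducible apply IntF.app | with_reducible apply IntF.ite | with_reducible apply IntF.sep | with_reducible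 apply IntF.lam | with_reducible apply IntF.insert | with_reducible apply IntF.singleton | with_reducible apply IntF.union | with_reducible apply IntF.inter | with_reducible apply IntF.sdiff | with_reducible apply IntF.isUnion | with_reducible apply IntF.iimage | with_reducible apply IntF.the | with_reducible apply IntF.irec | with_reducible_and_instances apply IntF.add | with_reducible_and_instances apply IntF.mul | with_reducible apply IntF.succ | with_reducible apply IntF.val | (with_reducible refine Int.comp ?_ ?_; assumption) | (with_reducible refine Int.comp₂ ?_ ?_ ?_; assumption) | (with_reducible refine Int.comp₃ ?_ ?_ ?_ ?_; assumption) | (with_reducible refine IntF.comp ?_ ?_; assumption) | (with_reducible refine IntF.comp₂ ?_ ?_ ?_; assumption) | (with_reducible refine IntF.comp₃ ?_ ?_ ?_ ?_; assumption) | with_reducible apply IntF.pair)))).1 hC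
      obtain ⟨he, hl⟩ := (mem_sep (by (repeat' (first | with_reducible exact IntF.id | with_reducible exact IntF.fst' | with_reducible exact IntF.snd' | with_reducible exact IntF.const _ | with_reducible exact Int.const _ | assumption | with_reducible apply Int.and | with_reducible apply Int.or | with_reducible apply Int.not | with_reducible apply Int.imp | with_reducible apply Int.iff | with_reducible apply Int.ne | with_reducible apply Int.eq | with_reducible apply Int.mem | with_reducible apply Int.subset | with_reducible apply Int.ltN | with_reducible apply Int.leN | with_reducible apply Int.fin | with_reducible apply Int.unique | with_reducible apply Int.all | with_reducible apply Int.ex | with_reducible apply IntF.fst | with_reducible apply IntF.snd | with_reducible apply IntF.app | with_reducible apply IntF.ite | with_reducible apply IntF.sep | with_reducible apply IntF.lam | with_reducible apply IntF.insert | with_reducible apply IntF.singleton | with_reducible apply IntF.union | with_reducible apply IntF.inter | with_reducible apply IntF.sdiff | with_reducible apply IntF.isUnion | with_reducible apply IntF.iimage | with_reducible apply IntF.the |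 with_reducible apply IntF.irec | with_reducible_and_instances apply IntF.add | with_reducible_and_instances apply IntF.mul | with_reducible apply IntF.succ | with_reducible apply IntF.val | (with_reducible refine Int.comp ?_ ?_; assumption) | (with_reducible refine Int.comp₂ ?_ ?_ ?_; assumption) | (with_reducible refine Int.comp₃ ?_ ?_ ?_ ?_; assumption) | (with_reducible refine IntF.comp ?_ ?_; assumption) | (with_reducible refine IntF.comp₂ ?_ ?_ ?_; assumption) | (with_reducible refine IntF.comp₃ ?_ ?_ ?_ ?_; assumption) | with_reducible apply IntF.pair)))).1 he
      exact ⟨e, he, hl, hx⟩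
  rw [h1]
  refine T.cl_union _ (IFin.image ?_ (by (repeat' (first | with_reducible exact IntF.id | with_reducible exact IntF.fst' | with_reducible exact IntF.snd' | with_reducible exact IntF.const _ | with_reducible exact Int.const _ | assumption | with_reducible apply Int.and | with_reducible apply Int.or | with_reducible apply Int.not | with_reducible apply Int.imp | with_reducible apply Int.iff | with_reducible apply Int.ne | with_reducible apply Int.eq | with_reducible apply Int.mem | with_reducible apply Int.subset | with_reducible apply Int.ltN | with_reducible apply Int.leN | with_reducible apply Int.fin | with_reducible apply Int.unique | with_reducible apply Int.all | with_reducible apply Int.ex | with_reducible apply IntF.fst | with_reducible apply IntF.snd | with_reducible apply IntF.app | with_reducible apply IntF.ite | with_reducible apply IntF.sep | with_reducible apply IntF.lam | with_reducible apply IntF.insert | with_reducible apply IntF.singleton | with_reducible apply IntF.union | with_reducible apply IntF.inter | with_reducible apply IntF.sdiff | with_reducible apply IntF.isUnion | with_reducible apply IntF.iimage | with_reducible apply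 IntF.the | with_reducible apply IntF.irec | with_reducible_and_instances apply IntF.add | with_reducible_and_instances apply IntF.mul | with_reducible apply IntF.succ | with_reducible apply IntF.val | (with_reducible refine Int.comp ?_ ?_; assumption) | (with_reducible refine Int.comp₂ ?_ ?_ ?_; assumption) | (with_reducible refine Int.comp₃ ?_ ?_ ?_ ?_; assumption) | (with_reducible refine IntF.comp ?_ ?_; assumption) | (with_reducible refine IntF.comp₂ ?_ ?_ ?_; assumption) | (with_reducible refine IntF.comp₃ ?_ ?_ ?_ ?_; assumption) | with_reducible apply IntF.pair)))) fun C hC => ?_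
  · exact ((T.fin n).mono fun e he => ⟨h.1 _ he.1, he.2⟩).fin (by (repeat' (first | with_reducible exact IntF.id | with_reducible exact IntF.fst' | with_reducible exact IntF.snd' | with_reducible exact IntF.const _ | with_reducible exact Int.const _ | assumption | with_reducible apply Int.and | with_reducible apply Int.or | with_reducible apply Int.not | with_reducible apply Int.imp | with_reducible apply Int.iff | with_reducible apply Int.ne | with_reducible apply Int.eq | with_reducible apply Int.mem | with_reducible apply Int.subset | with_reducible apply Int.ltN | with_reducible apply Int.leN | with_reducible apply Int.fin | with_reducible apply Int.unique | with_reducible apply Int.all | with_reducible apply Int.ex | with_reducible apply IntF.fst | with_reducible apply IntF.snd | with_reducible apply IntF.app | with_reducible apply IntF.ite | with_reducible apply IntF.sep | with_reducible apply IntF.lam | with_reducible apply IntF.insert | with_reducible apply IntF.singleton | with_reducible apply IntF.union | with_reducible apply IntF.inter | with_reducible apply IntF.sdiff | with_reducible apply IntF.isUnion | with_reducible apply IntF.iimage | with_reducible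 apply IntF.the | with_reducible apply IntF.irec | with_reducible_and_instances apply IntF.add | with_reducible_and_instances apply IntF.mul | with_reducible apply IntF.succ | with_reducible apply IntF.val | (with_reducible refine Int.comp ?_ ?_; assumption) | (with_reducible refine Int.comp₂ ?_ ?_ ?_; assumption) | (with_reducible refine Int.comp₃ ?_ ?_ ?_ ?_; assumption) | (with_reducible refine IntF.comp ?_ ?_; assumption) | (with_reducible refine IntF.comp₂ ?_ ?_ ?_; assumption) | (with_reducible refine IntF.comp₃ ?_ ?_ ?_ ?_; assumption) | with_reducible apply IntF.pair)))
  · obtain ⟨e, he, rfl⟩ := (mem_iimage (by (repeat' (first | with_reducible exact IntF.id | with_reducible exact IntF.fst' | with_reducible exact IntF.snd' | with_reducible exact IntF.const _ | with_reducible exact Int.const _ | assumption | with_reducible apply Int.and | with_reducible apply Int.or | with_reducible apply Int.not | with_reducible apply Int.imp | with_reducible apply Int.iff | with_reducible apply Int.ne | with_reducible apply Int.eq | with_reducible apply Int.mem | with_reducible apply Int.subset | with_reducible apply Int.ltN | with_reducible apply Int.leN | with_reducible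 apply Int.fin | with_reducible apply Int.unique | with_reducible apply Int.all | with_reducible apply Int.ex | with_reducible apply IntF.fst | with_reducible apply IntF.snd | with_reducible apply IntF.app | with_reducible apply IntF.ite | with_reducible apply IntF.sep | with_reducible apply IntF.lam | with_reducible apply IntF.insert | with_reducible apply IntF.singleton | with_reducible apply IntF.union | with_reducible apply IntF.inter | with_reducible apply IntF.sdiff | with_reducible apply IntF.isUnion | with_reducible apply IntF.iimage | with_reducible apply IntF.the | with_reducible apply IntF.irec | with_reducible_and_instances apply IntF.add | with_reducible_and_instances apply IntF.mul | with_reducible apply IntF.succ | with_reducible apply IntF.val | (with_reducible refine Int.comp ?_ ?_; assumption) | (with_reducible refine Int.comp₂ ?_ ?_ ?_; assumption) | (with_reducible refine Int.comp₃ ?_ ?_ ?_ ?_; assumption) | (with_reducible refine IntF.comp ?_ ?_; assumption) | (with_reducible refine IntF.comp₂ ?_ ?_ ?_; assumption) | (with_reducible refine IntF.comp₃ ?_ ?_ ?_ ?_; assumption) | with_reducible apply IntF.pair)))).1 hC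
    obtain ⟨he, hl⟩ := (mem_sep (by (repeat' (first | with_reducible exact IntF.id | with_reducible exact IntF.fst' | with_reducible exact IntF.snd' | with_reducible exact IntF.const _ | with_reducible exact Int.const _ | assumption | with_reducible apply Int.and | with_reducible apply Int.or | with_reducible apply Int.not | with_reducible apply Int.imp | with_reducible apply Int.iff | with_reducible apply Int.ne | with_reducible apply Int.eq | with_reducible apply Int.mem | with_reducible apply Int.subset | with_reducible apply Int.ltN | with_reducible apply Int.leN | with_reducible apply Int.fin | with_reducible apply Int.unique | with_reducible apply Int.all | with_reducible apply Int.ex | with_reducible apply IntF.fst | with_reducible apply IntF.snd | with_reducible apply IntF.app | with_reducible apply IntF.ite | with_reducible apply IntF.sep | with_reducible apply IntF.lam | with_reducible apply IntF.insert | with_reducible apply IntF.singleton | with_reducible apply IntF.union | with_reducible apply IntF.inter | with_reducible apply IntF.sdiff | with_reducible apply IntF.isUnion | with_reducible apply IntF.iimage | with_reducible apply IntF.the | with_reducible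 apply IntF.irec | with_reducible_and_instances apply IntF.add | with_reducible_and_instances apply IntF.mul | with_reducible apply IntF.succ | with_reducible apply IntF.val | (with_reducible refine Int.comp ?_ ?_; assumption) | (with_reducible refine Int.comp₂ ?_ ?_ ?_; assumption) | (with_reducible refine Int.comp₃ ?_ ?_ ?_ ?_; assumption) | (with_reducible refine IntF.comp ?_ ?_; assumption) | (with_reducible refine IntF.comp₂ ?_ ?_ ?_; assumption) | (with_reducible refine IntF.comp₃ ?_ ?_ ?_ ?_; assumption) | with_reducible apply IntF.pair)))).1 he
    exact T.cl_K _ (h.1 _ he) _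

theorem Good.Lk_anti (h : T.Good E) {s : IPow M (INat M)} {m n : INat M} (hmn : m ≤ n) {x : α}
    (hx : x ∈ T.Lk E s n) : x ∈ T.Lk E s m := by
  obtain ⟨e, he, hl, hx'⟩ := mem_Lk.1 hx
  subst hl
  exact mem_Lk.2 ⟨T.re (m, e), h.2.2.2 _ _ he hmn, (T.re_nd m e (h.1 _ he) hmn).2,
    T.mono e (h.1 _ he) m hmn s x hx'⟩

theorem Good.lev_ne (h : T.Good E) (n : INat M) : ∃ e, e ∈ E ∧ T.lev e = n := by
  obtain ⟨e, he, h0⟩ := h.2.1
  obtain ⟨e', he', h1, -⟩ := h.above he n (by rw [h0]; exact INat.zero_le _)
  exact ⟨e', he', h1⟩

theorem Good.Lk_ne (h : T.Good E) (s : IPow M (INat M)) (n : INat M) :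
    ∃ x, x ∈ T.Lk E s n := by
  obtain ⟨e, he, h0⟩ := h.lev_ne n
  obtain ⟨x, hx⟩ := T.K_ne e (h.1 _ he) s
  exact ⟨x, mem_Lk.2 ⟨e, he, h0, hx⟩⟩

variable (T E) in
/-- The closed set of a subtree. -/
noncomputable def CC (s : IPow M (INat M)) : IPow M α :=
  sep M fun x => ∀ n, x ∈ T.Lk E s n

theorem int_Lk : IntF M (fun q : (IPow M ν × IPow M (INat M)) × INat M =>
    T.Lk q.1.1 q.1.2 q.2) := by
  unfold Lk
  (repeat' (first | with_reducible exact IntF.id | with_reducible exact IntF.fst' | with_reducible exact IntF.snd' | with_reducible exact IntF.const _ | with_reducible exact Int.const _ | assumption | with_reducible apply Int.and | with_reducible apply Int.or | with_reducible apply Int.not | with_reducible apply Int.imp | with_reducible apply Int.iff | with_reducible apply Int.ne | with_reducible apply Int.eq | with_reducible apply Int.mem | with_reducible apply Int.subset | with_reducible apply Int.ltN | with_reducible apply Int.leN | with_reducible apply Int.fin | with_reducible apply Int.unique | with_reducible apply Int.all | with_reducible apply Int.ex | with_reducible apply IntF.fst | with_reducible apply IntF.snd | with_reducible apply IntF.app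 | with_reducible apply IntF.ite | with_reducible apply IntF.sep | with_reducible apply IntF.lam | with_reducible apply IntF.insert | with_reducible apply IntF.singleton | with_reducible apply IntF.union | with_reducible apply IntF.inter | with_reducible apply IntF.sdiff | with_reducible apply IntF.isUnion | with_reducible apply IntF.iimage | with_reducible apply IntF.the | with_reducible apply IntF.irec | with_reducible_and_instances apply IntF.add | with_reducible_and_instances apply IntF.mul | with_reducible apply IntF.succ | with_reducible apply IntF.val | (with_reducible refine Int.comp ?_ ?_; assumption) | (with_reducible refine Int.comp₂ ?_ ?_ ?_; assumption) | (with_reducible refine Int.comp₃ ?_ ?_ ?_ ?_; assumption) | (with_reducible refine IntF.comp ?_ ?_; assumption) | (with_reducible refine IntF.comp₂ ?_ ?_ ?_; assumption) | (with_reducible refine IntF.comp₃ ?_ ?_ ?_ ?_; assumption) | with_reducible apply IntF.pair))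

theorem int_CC : IntF M (fun q : IPow M ν × IPow M (INat M) => T.CC q.1 q.2) := by
  have h1 := int_Lk (T := T)
  unfold CC
  (repeat' (first | with_reducible apply IntF.comp₃ h1 | with_reducible exact IntF.id | with_reducible exact IntF.fst' | with_reducible exact IntF.snd' | with_reducible exact IntF.const _ | with_reducible exact Int.const _ | assumption | with_reducible apply Int.and | with_reducible apply Int.or | with_reducible apply Int.not | with_reducible apply Int.imp | with_reducible apply Int.iff | with_reducible apply Int.ne | with_reducible apply Int.eq | with_reducible apply Int.mem | with_reducible apply Int.subset | with_reducible apply Int.ltN | with_reducible apply Int.leN | with_reducible_and_instances apply Int.le | with_reducible_and_instances apply Int.lt | with_reducible apply Int.all | with_reducible apply Int.ex | with_reducible apply IntF.fst | with_reducible apply IntF.snd | with_reducible apply IntF.app | with_reducible apply IntF.inl | with_reducible apply IntF.inr | with_reducible_and_instances apply IntF.mul | with_reducible_and_instances apply IntF.inv | with_reducible_and_instances apply IntF.add | with_reducible_and_instances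 apply IntF.sub | with_reducible_and_instances apply IntF.neg | with_reducible_and_instances apply IntF.smul | with_reducible apply Int.fin | with_reducible apply IntF.sep | with_reducible apply IntF.lam | with_reducible apply IntF.insert | with_reducible apply IntF.singleton | with_reducible apply IntF.union | with_reducible apply IntF.iimage | with_reducible apply IntF.ite | with_reducible apply IntF.the | with_reducible apply IntF.irec | with_reducible apply IntF.succ | with_reducible apply IntF.val | with_reducible apply IntF.mk | (with_reducible refine Int.comp ?_ ?_; assumption) | (with_reducible refine Int.comp₂ ?_ ?_ ?_; assumption) | (with_reducible refine Int.comp₃ ?_ ?_ ?_ ?_; assumption) | (with_reducible refine Int.comp₄ ?_ ?_ ?_ ?_ ?_; assumption) | (with_reducible refine IntF.comp ?_ ?_; assumption) | (with_reducible refine IntF.comp₂ ?_ ?_ ?_; assumption) | (with_reducible refine IntF.comp₃ ?_ ?_ ?_ ?_; assumption) | with_reducible apply IntF.pair))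

theorem mem_CC {s : IPow M (INat M)} {x : α} : x ∈ T.CC E s ↔ ∀ n, x ∈ T.Lk E s n := by
  have h1 := int_Lk (T := T)
  unfold CC
  exact mem_sep (by (repeat' (first | with_reducible apply IntF.comp₃ h1 | with_reducible exact IntF.id | with_reducible exact IntF.fst' | with_reducible exact IntF.snd' | with_reducible exact IntF.const _ | with_reducible exact Int.const _ | assumption | with_reducible apply Int.and | with_reducible apply Int.or | with_reducible apply Int.not | with_reducible apply Int.imp | with_reducible apply Int.iff | with_reducible apply Int.ne | with_reducible apply Int.eq | with_reducible apply Int.mem | with_reducible apply Int.subset | with_reducible apply Int.ltN | with_reducible apply Int.leN | with_reducible_and_instances apply Int.le | with_reducible_and_instances apply Int.lt | with_reducible apply Int.all | with_reducible apply Int.ex | with_reducible apply IntF.fst | with_reducible apply IntF.snd | with_reducible apply IntF.app | with_reducible apply IntF.inl | with_reducible apply IntF.inr | with_reducible_and_instances apply IntF.mul | with_reducible_and_instances apply IntF.inv | with_reducible_and_instances apply IntF.add |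 with_reducible_and_instances apply IntF.sub | with_reducible_and_instances apply IntF.neg | with_reducible_and_instances apply IntF.smul | with_reducible apply Int.fin | with_reducible apply IntF.sep | with_reducible apply IntF.lam | with_reducible apply IntF.insert | with_reducible apply IntF.singleton | with_reducible apply IntF.union | with_reducible apply IntF.iimage | with_reducible apply IntF.ite | with_reducible apply IntF.the | with_reducible apply IntF.irec | with_reducible apply IntF.succ | with_reducible apply IntF.val | with_reducible apply IntF.mk | (with_reducible refine Int.comp ?_ ?_; assumption) | (with_reducible refine Int.comp₂ ?_ ?_ ?_; assumption) | (with_reducible refine Int.comp₃ ?_ ?_ ?_ ?_; assumption) | (with_reducible refine Int.comp₄ ?_ ?_ ?_ ?_ ?_; assumption) | (with_reducible refine IntF.comp ?_ ?_; assumption) | (with_reducible refine IntF.comp₂ ?_ ?_ ?_; assumption) | (with_reducible refine IntF.comp₃ ?_ ?_ ?_ ?_; assumption) | with_reducible apply IntF.pair)))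

theorem Good.CC_spec (h : T.Good E) (s : IPow M (INat M)) :
    T.CC E s ∈ T.Cl ∧ ∃ x, x ∈ T.CC E s := by
  have h1 := int_Lk (T := T)
  have h2 : IntF M (fun n => T.Lk E s n) := by (repeat' (first | with_reducible apply IntF.comp₃ h1 | with_reducible exact IntF.id | with_reducible exact IntF.fst' | with_reducible exact IntF.snd' | with_reducible exact IntF.const _ | with_reducible exact Int.const _ | assumption | with_reducible apply Int.and | with_reducible apply Int.or | with_reducible apply Int.not | with_reducible apply Int.imp | with_reducible apply Int.iff | with_reducible apply Int.ne | with_reducible apply Int.eq | with_reducible apply Int.mem | with_reducible apply Int.subset | with_reducible apply Int.ltN | with_reducible apply Int.leN | with_reducible_and_instances apply Int.le | with_reducible_and_instances apply Int.lt | with_reducible apply Int.all | with_reducible apply Int.ex | with_reducible apply IntF.fst | with_reducible apply IntF.snd | with_reducible apply IntF.app | with_reducible apply IntF.inl | with_reducible apply IntF.inr | with_reducible_and_instances apply IntF.mul | with_reducible_and_instances apply IntF.inv | with_reducible_and_instances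 apply IntF.add | with_reducible_and_instances apply IntF.sub | with_reducible_and_instances apply IntF.neg | with_reducible_and_instances apply IntF.smul | with_reducible apply Int.fin | with_reducible apply IntF.sep | with_reducible apply IntF.lam | with_reducible apply IntF.insert | with_reducible apply IntF.singleton | with_reducible apply IntF.union | with_reducible apply IntF.iimage | with_reducible apply IntF.ite | with_reducible apply IntF.the | with_reducible apply IntF.irec | with_reducible apply IntF.succ | with_reducible apply IntF.val | with_reducible apply IntF.mk | (with_reducible refine Int.comp ?_ ?_; assumption) | (with_reducible refine Int.comp₂ ?_ ?_ ?_; assumption) | (with_reducible refine Int.comp₃ ?_ ?_ ?_ ?_; assumption) | (with_reducible refine Int.comp₄ ?_ ?_ ?_ ?_ ?_; assumption) | (with_reducible refine IntF.comp ?_ ?_; assumption) | (with_reducible refine IntF.comp₂ ?_ ?_ ?_; assumption) | (with_reducible refine IntF.comp₃ ?_ ?_ ?_ ?_; assumption) | with_reducible apply IntF.pair))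
  have h3 := T.cl_inter (lam M fun n => T.Lk E s n) fun n => by
    rw [lam_apply h2]
    exact h.cl_Lk s n
  obtain ⟨x, hx⟩ := T.comp (lam M fun n => T.Lk E s n) (fun n => by
    rw [lam_apply h2]
    exact h.cl_Lk s n) (fun n => by
    rw [lam_apply h2]
    exact h.Lk_ne s n) (fun m n hmn x hx => by
    rw [lam_apply h2] at hx ⊢
    exact h.Lk_anti hmn hx)
  refine ⟨?_, x, mem_CC.2 fun n => ?_⟩
  · have h4 : T.CC E s = sep M (fun x => ∀ n, x ∈ (lam M fun n => T.Lk E s n) n) := by
      unfold CC
      congr 1
      funext x
      refine propext (forall_congr' fun n => ?_)
      rw [lam_apply h2]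
    rw [h4]
    exact h3
  · have := hx n
    rwa [lam_apply h2] at this

end TD

end Pool.Agent.H310
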