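import Pool.Agent.H310R3.W1

/-!
# The case of bounded width
-/

set_option maxHeartbeats 400000
set_option linter.all false
set_option synthInstance.maxSize 2000

namespace Pool.Agent.H310

open FirstOrder FirstOrder.Language
open Pool.Agent.Helper672.ZFA

universe u u₁ u₂ u₃ u₄

variable {M : Type u} [L.Structure M] [hM : IsModel M]
variable {α : Type u₁} {ν : Type u₂} [ITy M α] [ITy M ν]

namespace TD

variable {T : TD M α ν} {E : IPow M ν}

variable (T) in
/-- There are `k` nodes with disjoint sets. -/
def Dj (E : IPow M ν) (k n : INat M) (s : IPow M (INat M)) : Prop :=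
  ∃ a : IFun M (INat M) ν, (∀ i, i < k → a i ∈ E ∧ T.lev (a i) = n) ∧
    ∀ i j, i < k → j < k → i ≠ j → ∀ x, x ∈ T.K (a i, s) → ¬ x ∈ T.K (a j, s)

theorem int_Dj : Int M (fun q : ((IPow M ν × INat M) × INat M) × IPow M (INat M) =>
    T.Dj q.1.1.1 q.1.1.2 q.1.2 q.2) := by
  unfold Dj
  (repeat' (first | with_reducible exact IntF.id | with_reducible exact IntF.fst' | with_reducible exact IntF.snd' | with_reducible exact IntF.const _ | with_reducible exact Int.const _ | assumption | with_reducible apply Int.and | with_reducible apply Int.or | with_reducible apply Int.not | with_reducible apply Int.imp | with_reducible apply Int.iff | with_reducible apply Int.ne | with_reducible apply Int.eq | with_reducible apply Int.mem | with_reducible apply Int.subset | with_reducible apply Int.ltN | with_reducible apply Int.leN | with_reducible apply Int.fin | with_reducible apply Int.unique | with_reducible apply Int.all | with_reducible apply Int.ex | with_reducible apply IntF.fst | with_reducible apply IntF.snd | with_reducible apply IntF.app | with_reducible apply IntF.ite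 | with_reducible apply IntF.sep | with_reducible apply IntF.lam | with_reducible apply IntF.insert | with_reducible apply IntF.singleton | with_reducible apply IntF.union | with_reducible apply IntF.inter | with_reducible apply IntF.sdiff | with_reducible apply IntF.isUnion | with_reducible apply IntF.iimage | with_reducible apply IntF.the | with_reducible apply IntF.irec | with_reducible_and_instances apply IntF.add | with_reducible_and_instances apply IntF.mul | with_reducible apply IntF.succ | with_reducible apply IntF.val | (with_reducible refine Int.comp ?_ ?_; assumption) | (with_reducible refine Int.comp₂ ?_ ?_ ?_; assumption) | (with_reducible refine Int.comp₃ ?_ ?_ ?_ ?_; assumption) | (with_reducible refine IntF.comp ?_ ?_; assumption) | (with_reducible refine IntF.comp₂ ?_ ?_ ?_; assumption) | (with_reducible refine IntF.comp₃ ?_ ?_ ?_ ?_; assumption) | with_reducible apply IntF.pair))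

theorem K_up {e e₁ : ν} (he : e ∈ T.Nd) {n : INat M} (hn : n ≤ T.lev e) (hr : T.re (n, e) = e₁)
    {s s' : IPow M (INat M)} (hs : ∀ m, m < n → (m ∈ s' ↔ m ∈ s)) {x : α}
    (hx : x ∈ T.K (e, s')) : x ∈ T.K (e₁, s) := by
  subst hr
  have h1 := T.re_nd n e he hn
  have h2 := T.mono e he n hn s' x hx
  rw [T.dep _ h1.1 s' s (by rw [h1.2]; exact hs)] at h2
  exact h2

theorem nonempty_nu (T : TD M α ν) : Nonempty ν := ⟨T.root.choose⟩

theorem Good.choose (h : T.Good E) {k n n' : INat M} (hn : n ≤ n') {a : IFun M (INat M) ν}
    (ha : ∀ i, i < k → a i ∈ E ∧ T.lev (a i) = n) :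
    ∃ b : IFun M (INat M) ν, ∀ i, i < k → b i ∈ E ∧ T.lev (b i) = n' ∧ T.re (n, b i) = a i := by
  haveI := nonempty_nu T
  refine nat_choice (R := fun i y => y ∈ E ∧ T.lev y = n' ∧ T.re (n, y) = a i) (by (repeat' (first | with_reducible exact IntF.id | with_reducible exact IntF.fst' | with_reducible exact IntF.snd' | with_reducible exact IntF.const _ | with_reducible exact Int.const _ | assumption | with_reducible apply Int.and | with_reducible apply Int.or | with_reducible apply Int.not | with_reducible apply Int.imp | with_reducible apply Int.iff | with_reducible apply Int.ne | with_reducible apply Int.eq | with_reducible apply Int.mem | with_reducible apply Int.subset | with_reducible apply Int.ltN | with_reducible apply Int.leN | with_reducible apply Int.fin | with_reducible apply Int.unique | with_reducible apply Int.all | with_reducible apply Int.ex | with_reducible apply IntF.fst | with_reducible apply IntF.snd | with_reducible apply IntF.app | with_reducible apply IntF.ite | with_reducible apply IntF.sep | with_reducible apply IntF.lam | with_reducible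 apply IntF.insert | with_reducible apply IntF.singleton | with_reducible apply IntF.union | with_reducible apply IntF.inter | with_reducible apply IntF.sdiff | with_reducible apply IntF.isUnion | with_reducible apply IntF.iimage | with_reducible apply IntF.the | with_reducible apply IntF.irec | with_reducible_and_instances apply IntF.add | with_reducible_and_instances apply IntF.mul | with_reducible apply IntF.succ | with_reducible apply IntF.val | (with_reducible refine Int.comp ?_ ?_; assumption) | (with_reducible refine Int.comp₂ ?_ ?_ ?_; assumption) | (with_reducible refine Int.comp₃ ?_ ?_ ?_ ?_; assumption) | (with_reducible refine IntF.comp ?_ ?_; assumption) | (with_reducible refine IntF.comp₂ ?_ ?_ ?_; assumption) | (with_reducible refine IntF.comp₃ ?_ ?_ ?_ ?_; assumption) | with_reducible apply IntF.pair))) k ?_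
  intro i hi
  obtain ⟨e, he, h1, h2⟩ := h.above (ha i hi).1 n' (by rw [(ha i hi).2]; exact hn)
  rw [(ha i hi).2] at h2
  exact ⟨e, he, h1, h2⟩

theorem Good.Dj_up (h : T.Good E) {k n n' : INat M} {s s' : IPow M (INat M)}
    (hD : T.Dj E k n s) (hn : n ≤ n') (hs : ∀ m, m < n → (m ∈ s' ↔ m ∈ s)) :
    T.Dj E k n' s' := by
  obtain ⟨a, ha, hd⟩ := hD
  obtain ⟨b, hb⟩ := h.choose hn ha
  refine ⟨b, fun i hi => ⟨(hb i hi).1, (hb i hi).2.1⟩, fun i j hi hj hij x hxi hxj => ?_⟩
  exact hd i j hi hj hij x
    (K_up (h.1 _ (hb i hi).1) (by rw [(hb i hi).2.1]; exact hn) (hb i hi).2.2 hs hxi)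
    (K_up (h.1 _ (hb j hj).1) (by rw [(hb j hj).2.1]; exact hn) (hb j hj).2.2 hs hxj)

theorem Good.claim (h : T.Good E) {k n₁ : INat M} {s₁ : IPow M (INat M)}
    {a : IFun M (INat M) ν} (hk : 0 < k) (ha : ∀ i, i < k → a i ∈ E ∧ T.lev (a i) = n₁)
    (hd : ∀ i j, i < k → j < k → i ≠ j → ∀ x, x ∈ T.K (a i, s₁) → ¬ x ∈ T.K (a j, s₁))
    (hn : ∀ n s, n₁ ≤ n → (∀ m, m < n₁ → (m ∈ s ↔ m ∈ s₁)) → ¬ T.Dj E k.succ n s)
    {n : INat M} {s : IPow M (INat M)} (hn1 : n₁ ≤ n) (hs : ∀ m, m < n₁ → (m ∈ s ↔ m ∈ s₁))
    {e e' : ν} (he : e ∈ E ∧ T.lev e = n ∧ T.re (n₁, e) = a 0)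
    (he' : e' ∈ E ∧ T.lev e' = n ∧ T.re (n₁, e') = a 0) :
    ∃ z, z ∈ T.K (e, s) ∧ z ∈ T.K (e', s) := by
  by_contra hc
  push Not at hc
  obtain ⟨b, hb⟩ := h.choose hn1 ha
  classical
  have hg : IntF M (fun i : INat M => if i = 0 then e else if i = k then e' else b i) :=
    IntF.ite (Int.eq IntF.id (IntF.const _)) (IntF.const _)
      (IntF.ite (Int.eq IntF.id (IntF.const _)) (IntF.const _) b.int_app)
  obtain ⟨g, hg'⟩ : ∃ g : IFun M (INat M) ν,
      ∀ i, g i = if i = 0 then e else if i = k then e' else b i :=
    ⟨lam M _, fun i => lam_apply hg i⟩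
  have hk0 : k ≠ 0 := fun h0 => by rw [h0] at hk; exact INat.not_lt_zero hk
  have hφ : ∀ i, i < k.succ → (if i = k then 0 else i) < k := fun i hi => by
    by_cases hik : i = k
    · rw [if_pos hik]; exact hk
    · rw [if_neg hik]; exact lt_of_le_of_ne (INat.lt_succ_iff.1 hi) hik
  have hg1 : ∀ i, i < k.succ → g i ∈ E ∧ T.lev (g i) = n ∧
      T.re (n₁, g i) = a (if i = k then 0 else i) := fun i hi => by
    rw [hg' i]
    by_cases hi0 : i = 0
    · have h1 : ¬ i = k := fun h1 => hk0 (h1 ▸ hi0)
      rw [if_pos hi0, if_neg h1, hi0]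
      exact he
    · rw [if_neg hi0]
      by_cases hik : i = k
      · rw [if_pos hik, if_pos hik]
        exact he'
      · rw [if_neg hik, if_neg hik]
        exact hb i (lt_of_le_of_ne (INat.lt_succ_iff.1 hi) hik)
  refine hn n s hn1 hs ⟨g, fun i hi => ⟨(hg1 i hi).1, (hg1 i hi).2.1⟩,
    fun i j hi hj hij x hxi hxj => ?_⟩
  by_cases hff : (if i = k then 0 else i) = (if j = k then 0 else j)
  · by_cases hik : i = k
    · have hjk : ¬ j = k := fun h1 => hij (hik.trans h1.symm)
      rw [if_pos hik, if_neg hjk] at hff
      have hi0 : ¬ i = 0 := fun h1 => hk0 (hik ▸ h1)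
      rw [hg' i, if_neg hi0, if_pos hik] at hxi
      rw [hg' j, if_pos hff.symm] at hxj
      exact hc x hxj hxi
    · rw [if_neg hik] at hff
      by_cases hjk : j = k
      · rw [if_pos hjk] at hff
        have hj0 : ¬ j = 0 := fun h1 => hk0 (hjk ▸ h1)
        rw [hg' i, if_pos hff] at hxi
        rw [hg' j, if_neg hj0, if_pos hjk] at hxj
        exact hc x hxi hxj
      · rw [if_neg hjk] at hff
        exact hij hff
  · exact hd _ _ (hφ i hi) (hφ j hj) hff x
      (K_up (h.1 _ (hg1 i hi).1) (by rw [(hg1 i hi).2.1]; exact hn1) (hg1 i hi).2.2 hs hxi)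
      (K_up (h.1 _ (hg1 j hj).1) (by rw [(hg1 j hj).2.1]; exact hn1) (hg1 j hj).2.2 hs hxj)

/-- A real with a prescribed beginning. -/
noncomputable def cdr (n : INat M) (s t : IPow M (INat M)) : IPow M (INat M) :=
  sep M fun m => (m < n ∧ m ∈ s) ∨ ∃ i, i ∈ t ∧ m = n + i

theorem mem_cdr {n m : INat M} {s t : IPow M (INat M)} :
    m ∈ cdr n s t ↔ (m < n ∧ m ∈ s) ∨ ∃ i, i ∈ t ∧ m = n + i := by
  unfold cdr
  exact mem_sep (by (repeat' (first | with_reducible exact IntF.id | with_reducible exact IntF.fst' | with_reducible exact IntF.snd' | with_reducible exact IntF.const _ | with_reducible exact Int.const _ | assumption | with_reducible apply Int.and | with_reducible apply Int.or | with_reducible apply Int.not | with_reducible apply Int.imp | with_reducible apply Int.iff | with_reducible apply Int.ne | with_reducible apply Int.eq | with_reducible apply Int.mem | with_reducible apply Int.subset | with_reducible apply Int.ltN | with_reducible apply Int.leN | with_reducible apply Int.fin | with_reducible apply Int.unique | with_reducible apply Int.all | with_reducible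 apply Int.ex | with_reducible apply IntF.fst | with_reducible apply IntF.snd | with_reducible apply IntF.app | with_reducible apply IntF.ite | with_reducible apply IntF.sep | with_reducible apply IntF.lam | with_reducible apply IntF.insert | with_reducible apply IntF.singleton | with_reducible apply IntF.union | with_reducible apply IntF.inter | with_reducible apply IntF.sdiff | with_reducible apply IntF.isUnion | with_reducible apply IntF.iimage | with_reducible apply IntF.the | with_reducible apply IntF.irec | with_reducible_and_instances apply IntF.add | with_reducible_and_instances apply IntF.mul | with_reducible apply IntF.succ | with_reducible apply IntF.val | (with_reducible refine Int.comp ?_ ?_; assumption) | (with_reducible refine Int.comp₂ ?_ ?_ ?_; assumption) | (with_reducible refine Int.comp₃ ?_ ?_ ?_ ?_; assumption) | (with_reducible refine IntF.comp ?_ ?_; assumption) | (with_reducible refine IntF.comp₂ ?_ ?_ ?_; assumption) | (with_reducible refine IntF.comp₃ ?_ ?_ ?_ ?_; assumption) | with_reducible apply IntF.pair)))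

theorem Good.inj_real (h : T.Good E) (hA : ∃ (k n₀ : INat M) (s₀ : IPow M (INat M)),
    ∀ (n : INat M) (s : IPow M (INat M)), n₀ ≤ n →
    (∀ m, m < n₀ → (m ∈ s ↔ m ∈ s₀)) → ¬ T.Dj E k n s) :
    ∃ j : IFun M (IPow M (INat M)) α, ∀ t t', j t = j t' → t = t' := by
  have hN : ∀ {e}, e ∈ E → e ∈ T.Nd := fun he => h.1 _ he
  have iD := int_Dj (T := T)
  have iC := int_CC (T := T)
  obtain ⟨k, ⟨n₀, s₀, hk⟩, hkl⟩ := INat.exists_least (p := fun k : INat M =>
    ∃ (n₀ : INat M) (s₀ : IPow M (INat M)), ∀ (n : INat M) (s : IPow M (INat M)), n₀ ≤ n →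
    (∀ m, m < n₀ → (m ∈ s ↔ m ∈ s₀)) → ¬ T.Dj E k n s) (by (repeat' (first | with_reducible apply Int.comp₄ iD | with_reducible exact IntF.id | with_reducible exact IntF.fst' | with_reducible exact IntF.snd' | with_reducible exact IntF.const _ | with_reducible exact Int.const _ | assumption | with_reducible apply Int.and | with_reducible apply Int.or | with_reducible apply Int.not | with_reducible apply Int.imp | with_reducible apply Int.iff | with_reducible apply Int.ne | with_reducible apply Int.eq | with_reducible apply Int.mem | with_reducible apply Int.subset | with_reducible apply Int.ltN | with_reducible apply Int.leN | with_reducible_and_instances apply Int.le | with_reducible_and_instances apply Int.lt | with_reducible apply Int.all | with_reducible apply Int.ex | with_reducible apply IntF.fst | with_reducible apply IntF.snd | with_reducible apply IntF.app | with_reducible apply IntF.inl | with_reducible apply IntF.inr | with_reducible_and_instances apply IntF.mul | with_reducible_and_instances apply IntF.inv | with_reducible_and_instances apply IntF.add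 | with_reducible_and_instances apply IntF.sub | with_reducible_and_instances apply IntF.neg | with_reducible_and_instances apply IntF.smul | with_reducible apply Int.fin | with_reducible apply IntF.sep | with_reducible apply IntF.lam | with_reducible apply IntF.insert | with_reducible apply IntF.singleton | with_reducible apply IntF.union | with_reducible apply IntF.iimage | with_reducible apply IntF.ite | with_reducible apply IntF.the | with_reducible apply IntF.irec | with_reducible apply IntF.succ | with_reducible apply IntF.val | with_reducible apply IntF.mk | (with_reducible refine Int.comp ?_ ?_; assumption) | (with_reducible refine Int.comp₂ ?_ ?_ ?_; assumption) | (with_reducible refine Int.comp₃ ?_ ?_ ?_ ?_; assumption) | (with_reducible refine Int.comp₄ ?_ ?_ ?_ ?_ ?_; assumption) | (with_reducible refine IntF.comp ?_ ?_; assumption) | (with_reducible refine IntF.comp₂ ?_ ?_ ?_; assumption) | (with_reducible refine IntF.comp₃ ?_ ?_ ?_ ?_; assumption) | with_reducible apply IntF.pair))) hA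
  rcases INat.eq_zero_or_succ k with rfl | ⟨k, rfl⟩
  · exact absurd ⟨lam M fun _ => (nonempty_nu T).some, fun i hi => absurd hi INat.not_lt_zero,
      fun i j hi => absurd hi INat.not_lt_zero⟩ (hk n₀ s₀ le_rfl fun _ _ => Iff.rfl)
  have h1 : ¬ ∀ (n : INat M) (s : IPow M (INat M)), n₀ ≤ n →
      (∀ m, m < n₀ → (m ∈ s ↔ m ∈ s₀)) → ¬ T.Dj E k n s := fun h1 =>
    absurd (hkl k ⟨n₀, s₀, h1⟩) (not_le_of_gt (INat.lt_succ_self k))
  push Not at h1
  obtain ⟨n₁, s₁, hn₁, hs₁, a, ha, hd⟩ := h1
  have hk0 : 0 < k := by
    rcases INat.eq_zero_or_succ k with rfl | ⟨k', rfl⟩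
    · exfalso
      obtain ⟨e, he, hl⟩ := h.lev_ne n₀
      have h2 : IntF M (fun _ : INat M => e) := IntF.const _
      refine hk n₀ s₀ le_rfl (fun _ _ => Iff.rfl) ⟨lam M fun _ => e, fun i _ => ?_,
        fun i j hi hj hij => absurd ?_ hij⟩
      · rw [lam_apply h2]
        exact ⟨he, hl⟩
      · have h3 := INat.lt_succ_iff.1 hi
        have h4 := INat.lt_succ_iff.1 hj
        exact (le_antisymm h3 (INat.zero_le _)).trans (le_antisymm h4 (INat.zero_le _)).symm
    · exact lt_of_le_of_lt (INat.zero_le k') (INat.lt_succ_self k')
  have hE := ha 0 hk0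
  have hcl : ∀ {n : INat M} {s : IPow M (INat M)}, n₁ ≤ n →
      (∀ m, m < n₁ → (m ∈ s ↔ m ∈ s₁)) → ∀ {e e' : ν}, e ∈ T.Ab E (a 0) → T.lev e = n →
      e' ∈ T.Ab E (a 0) → T.lev e' = n → ∃ z, z ∈ T.K (e, s) ∧ z ∈ T.K (e', s) := by
    intro n s hn hs e e' he hl he' hl'
    have h2 : ∀ {e}, e ∈ T.Ab E (a 0) → T.lev e = n → e ∈ E ∧ T.lev e = n ∧
        T.re (n₁, e) = a 0 := by
      intro e he hl
      have h3 := mem_Ab.1 he
      refine ⟨h3.1, hl, ?_⟩
      rw [← hE.2]
      exact h3.2.2 (by rw [hE.2, hl]; exact hn)
    refine h.claim hk0 ha hd (fun n s hn hs => hk n s (le_trans hn₁ hn) fun m hm => ?_) hn hs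
      (h2 he hl) (h2 he' hl')
    exact (hs m (lt_of_lt_of_le hm hn₁)).trans (hs₁ m hm)
  have hG := h.ab hE.1
  have huq : ∀ s : IPow M (INat M), (∀ m, m < n₁ → (m ∈ s ↔ m ∈ s₁)) →
      ∃! x, x ∈ T.CC (T.Ab E (a 0)) s := by
    intro s hs
    obtain ⟨x, hx⟩ := (hG.CC_spec s).2
    refine ⟨x, hx, fun y hy => ?_⟩
    by_contra hxy
    obtain ⟨n, hn⟩ := T.small y x hxy
    have hn1 : n₁ ≤ max n n₁ := le_max_right _ _
    have hn2 : n ≤ max n n₁ := le_max_left _ _
    obtain ⟨e, he, hl, hxe⟩ := mem_Lk.1 (mem_CC.1 hx (max n n₁))
    obtain ⟨e', he', hl', hye⟩ := mem_Lk.1 (mem_CC.1 hy (max n n₁))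
    obtain ⟨z, hz, hz'⟩ := hcl hn1 hs he hl he' hl'
    have h5 : n ≤ T.lev e := by rw [hl]; exact hn2
    have h6 : n ≤ T.lev e' := by rw [hl']; exact hn2
    have h7 := T.re_nd n e (hG.1 _ he) h5
    have h8 := T.re_nd n e' (hG.1 _ he') h6
    exact hn _ _ h8.1 h7.1 h8.2 h7.2 s (T.mono _ (hG.1 _ he') n h6 s y hye)
      (T.mono _ (hG.1 _ he) n h5 s x hxe) z (T.mono _ (hG.1 _ he') n h6 s z hz')
      (T.mono _ (hG.1 _ he) n h5 s z hz)
  obtain ⟨x₀, -⟩ := huq s₁ fun _ _ => Iff.rfl
  have hc : ∀ t m, m < n₁ → (m ∈ cdr n₁ s₁ t ↔ m ∈ s₁) := by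
    intro t m hm
    rw [mem_cdr]
    constructor
    · rintro (h2 | ⟨i, -, rfl⟩)
      · exact h2.2
      · exact absurd hm (not_lt_of_ge (le_add_r n₁ i))
    · exact fun h2 => Or.inl ⟨hm, h2⟩
  have ic : IntF M (fun t => cdr n₁ s₁ t) := by unfold cdr; (repeat' (first | with_reducible exact IntF.id | with_reducible exact IntF.fst' | with_reducible exact IntF.snd' | with_reducible exact IntF.const _ | with_reducible exact Int.const _ | assumption | with_reducible apply Int.and | with_reducible apply Int.or | with_reducible apply Int.not | with_reducible apply Int.imp | with_reducible apply Int.iff | with_reducible apply Int.ne | with_reducible apply Int.eq | with_reducible apply Int.mem | with_reducible apply Int.subset | with_reducible apply Int.ltN | with_reducible apply Int.leN | with_reducible apply Int.fin | with_reducible apply Int.unique | with_reducible apply Int.all | with_reducible apply Int.ex | with_reducible apply IntF.fst | with_reducible apply IntF.snd | with_reducible apply IntF.app | with_reducible apply IntF.ite | with_reducible apply IntF.sep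 | with_reducible apply IntF.lam | with_reducible apply IntF.insert | with_reducible apply IntF.singleton | with_reducible apply IntF.union | with_reducible apply IntF.inter | with_reducible apply IntF.sdiff | with_reducible apply IntF.isUnion | with_reducible apply IntF.iimage | with_reducible apply IntF.the | with_reducible apply IntF.irec | with_reducible_and_instances apply IntF.add | with_reducible_and_instances apply IntF.mul | with_reducible apply IntF.succ | with_reducible apply IntF.val | (with_reducible refine Int.comp ?_ ?_; assumption) | (with_reducible refine Int.comp₂ ?_ ?_ ?_; assumption) | (with_reducible refine Int.comp₃ ?_ ?_ ?_ ?_; assumption) | (with_reducible refine IntF.comp ?_ ?_; assumption) | (with_reducible refine IntF.comp₂ ?_ ?_ ?_; assumption) | (with_reducible refine IntF.comp₃ ?_ ?_ ?_ ?_; assumption) | with_reducible apply IntF.pair))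
  have ij : IntF M (fun t => the (fun x => x ∈ T.CC (T.Ab E (a 0)) (cdr n₁ s₁ t)) x₀) := by
    (repeat' (first | with_reducible apply IntF.comp₂ iC | with_reducible exact IntF.id | with_reducible exact IntF.fst' | with_reducible exact IntF.snd' | with_reducible exact IntF.const _ | with_reducible exact Int.const _ | assumption | with_reducible apply Int.and | with_reducible apply Int.or | with_reducible apply Int.not | with_reducible apply Int.imp | with_reducible apply Int.iff | with_reducible apply Int.ne | with_reducible apply Int.eq | with_reducible apply Int.mem | with_reducible apply Int.subset | with_reducible apply Int.ltN | with_reducible apply Int.leN | with_reducible_and_instances apply Int.le | with_reducible_and_instances apply Int.lt | with_reducible apply Int.all | with_reducible apply Int.ex | with_reducible apply IntF.fst | with_reducible apply IntF.snd | with_reducible apply IntF.app | with_reducible apply IntF.inl | with_reducible apply IntF.inr | with_reducible_and_instances apply IntF.mul | with_reducible_and_instances apply IntF.inv | with_reducible_and_instances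 apply IntF.add | with_reducible_and_instances apply IntF.sub | with_reducible_and_instances apply IntF.neg | with_reducible_and_instances apply IntF.smul | with_reducible apply Int.fin | with_reducible apply IntF.sep | with_reducible apply IntF.lam | with_reducible apply IntF.insert | with_reducible apply IntF.singleton | with_reducible apply IntF.union | with_reducible apply IntF.iimage | with_reducible apply IntF.ite | with_reducible apply IntF.the | with_reducible apply IntF.irec | with_reducible apply IntF.succ | with_reducible apply IntF.val | with_reducible apply IntF.mk | (with_reducible refine Int.comp ?_ ?_; assumption) | (with_reducible refine Int.comp₂ ?_ ?_ ?_; assumption) | (with_reducible refine Int.comp₃ ?_ ?_ ?_ ?_; assumption) | (with_reducible refine Int.comp₄ ?_ ?_ ?_ ?_ ?_; assumption) | (with_reducible refine IntF.comp ?_ ?_; assumption) | (with_reducible refine IntF.comp₂ ?_ ?_ ?_; assumption) | (with_reducible refine IntF.comp₃ ?_ ?_ ?_ ?_; assumption) | with_reducible apply IntF.pair))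
  refine ⟨lam M fun t => the (fun x => x ∈ T.CC (T.Ab E (a 0)) (cdr n₁ s₁ t)) x₀,
    fun t t' htt => ?_⟩
  rw [lam_apply ij, lam_apply ij] at htt
  have h2 := the_spec (d := x₀) (huq _ (hc t))
  have h3 := the_spec (d := x₀) (huq _ (hc t'))
  rw [← htt] at h3
  generalize the (fun x => x ∈ T.CC (T.Ab E (a 0)) (cdr n₁ s₁ t)) x₀ = x at h2 h3
  refine IPow.ext' fun i => ?_
  by_contra hi
  have h4 : ¬ (n₁ + i ∈ cdr n₁ s₁ t ↔ n₁ + i ∈ cdr n₁ s₁ t') := by
    have h5 : ∀ t : IPow M (INat M), n₁ + i ∈ cdr n₁ s₁ t ↔ i ∈ t := by
      intro t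
      rw [mem_cdr]
      constructor
      · rintro (h2 | ⟨j, hj, h2⟩)
        · exact absurd h2.1 (not_lt_of_ge (le_add_r n₁ i))
        · rw [INat.add_left_cancel' h2]
          exact hj
      · exact fun h => Or.inr ⟨i, h, rfl⟩
    rw [h5, h5]
    exact hi
  obtain ⟨e, he, hl, hr⟩ := h.above hE.1 (n₁ + i).succ (by
    rw [hE.2]
    exact le_trans (le_add_r n₁ i) (INat.le_succ_self _))
  have hle : T.lev (a 0) ≤ T.lev e := by
    rw [hl, hE.2]
    exact le_trans (le_add_r n₁ i) (INat.le_succ_self _)
  have h6 : ∀ s : IPow M (INat M), (∀ m, m < n₁ → (m ∈ s ↔ m ∈ s₁)) →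
      x ∈ T.CC (T.Ab E (a 0)) s → x ∈ T.K (e, s) := by
    intro s hs hx
    obtain ⟨y, hy⟩ := ((h.ab he).CC_spec s).2
    have h7 : y ∈ T.CC (T.Ab E (a 0)) s := mem_CC.2 fun n => by
      obtain ⟨e', he', h8, h9⟩ := mem_Lk.1 (mem_CC.1 hy n)
      exact mem_Lk.2 ⟨e', h.ab_ab hE.1 he hle hr he', h8, h9⟩
    have h8 : x = y := (huq s hs).unique hx h7
    obtain ⟨e', he', h9, h10⟩ := mem_Lk.1 (mem_CC.1 hy (T.lev e))
    have h11 := mem_Ab.1 he'
    have h12 : e' = e := by
      have := h11.2.1 (le_of_eq h9)
      rw [h9, T.re_self _ (hN he)] at this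
      exact this
    rw [h8, ← h12]
    exact h10
  exact T.disj e (hN he) _ _ (n₁ + i) (by rw [hl]; exact INat.lt_succ_self _) h4 x
    (h6 _ (hc t) h2) (h6 _ (hc t') h3)

end TD

end Pool.Agent.H310
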