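import Pool.Agent.H310R3.W3

/-!
# Shrinking subtrees, and the conclusion
-/

set_option maxHeartbeats 400000
set_option linter.all false
set_option synthInstance.maxSize 2000

namespace Pool.Agent.H310

open FirstOrder FirstOrder.Language
open Pool.Agent.Helper672.ZFA

universe u u₁ u₂ u₃ u₄

variable {M : Type u} [L.Structure M] [hM : IsModel M]
variable {α : Type u₁} {ν : Type u₂} [ITy M α] [ITy M ν]

namespace TD

variable {T : TD M α ν} {E : IPow M ν}

variable (T) in
/-- The part of a subtree under finitely many points. -/
noncomputable def Sg (E : IPow M ν) (r : IPow M (INat M)) : IPow M ν :=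
  sep M fun e => e ∈ E ∧ ∃ x, x ∈ T.F (T.CC E r) ∧ ∀ n, T.lev e ≤ n →
    ∃ e', e' ∈ E ∧ T.lev e' = n ∧ T.re (T.lev e, e') = e ∧ x ∈ T.K (e', r)

theorem int_Sg : IntF M (fun q : IPow M ν × IPow M (INat M) => T.Sg q.1 q.2) := by
  have iC := int_CC (T := T)
  unfold Sg
  (repeat' (first | with_reducible apply IntF.comp₂ iC | with_reducible exact IntF.id | with_reducible exact IntF.fst' | with_reducible exact IntF.snd' | with_reducible exact IntF.const _ | with_reducible exact Int.const _ | assumption | with_reducible apply Int.and | with_reducible apply Int.or | with_reducible apply Int.not | with_reducible apply Int.imp | with_reducible apply Int.iff | with_reducible apply Int.ne | with_reducible apply Int.eq | with_reducible apply Int.mem | with_reducible apply Int.subset | with_reducible apply Int.ltN | with_reducible apply Int.leN | with_reducible_and_instances apply Int.le | with_reducible_and_instances apply Int.lt | with_reducible apply Int.all | with_reducible apply Int.ex | with_reducible apply IntF.fst | with_reducible apply IntF.snd | with_reducible apply IntF.app | with_reducible apply IntF.inl | with_reducible apply IntF.inr | with_reducible_and_instances apply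 IntF.mul | with_reducible_and_instances apply IntF.inv | with_reducible_and_instances apply IntF.add | with_reducible_and_instances apply IntF.sub | with_reducible_and_instances apply IntF.neg | with_reducible_and_instances apply IntF.smul | with_reducible apply Int.fin | with_reducible apply IntF.sep | with_reducible apply IntF.lam | with_reducible apply IntF.insert | with_reducible apply IntF.singleton | with_reducible apply IntF.union | with_reducible apply IntF.iimage | with_reducible apply IntF.ite | with_reducible apply IntF.the | with_reducible apply IntF.irec | with_reducible apply IntF.succ | with_reducible apply IntF.val | with_reducible apply IntF.mk | (with_reducible refine Int.comp ?_ ?_; assumption) | (with_reducible refine Int.comp₂ ?_ ?_ ?_; assumption) | (with_reducible refine Int.comp₃ ?_ ?_ ?_ ?_; assumption) | (with_reducible refine Int.comp₄ ?_ ?_ ?_ ?_ ?_; assumption) | (with_reducible refine IntF.comp ?_ ?_; assumption) | (with_reducible refine IntF.comp₂ ?_ ?_ ?_; assumption) | (with_reducible refine IntF.comp₃ ?_ ?_ ?_ ?_; assumption) | with_reducible apply IntF.pair))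

theorem mem_Sg {r : IPow M (INat M)} {e : ν} : e ∈ T.Sg E r ↔ e ∈ E ∧
    ∃ x, x ∈ T.F (T.CC E r) ∧ ∀ n, T.lev e ≤ n →
    ∃ e', e' ∈ E ∧ T.lev e' = n ∧ T.re (T.lev e, e') = e ∧ x ∈ T.K (e', r) := by
  have iC := int_CC (T := T)
  unfold Sg
  exact mem_sep (by (repeat' (first | with_reducible apply IntF.comp₂ iC | with_reducible exact IntF.id | with_reducible exact IntF.fst' | with_reducible exact IntF.snd' | with_reducible exact IntF.const _ | with_reducible exact Int.const _ | assumption | with_reducible apply Int.and | with_reducible apply Int.or | with_reducible apply Int.not | with_reducible apply Int.imp | with_reducible apply Int.iff | with_reducible apply Int.ne | with_reducible apply Int.eq | with_reducible apply Int.mem | with_reducible apply Int.subset | with_reducible apply Int.ltN | with_reducible apply Int.leN | with_reducible_and_instances apply Int.le | with_reducible_and_instances apply Int.lt | with_reducible apply Int.all | with_reducible apply Int.ex | with_reducible apply IntF.fst | with_reducible apply IntF.snd | with_reducible apply IntF.app | with_reducible apply IntF.inl | with_reducible apply IntF.inr | with_reducible_and_instances apply IntF.mul |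 with_reducible_and_instances apply IntF.inv | with_reducible_and_instances apply IntF.add | with_reducible_and_instances apply IntF.sub | with_reducible_and_instances apply IntF.neg | with_reducible_and_instances apply IntF.smul | with_reducible apply Int.fin | with_reducible apply IntF.sep | with_reducible apply IntF.lam | with_reducible apply IntF.insert | with_reducible apply IntF.singleton | with_reducible apply IntF.union | with_reducible apply IntF.iimage | with_reducible apply IntF.ite | with_reducible apply IntF.the | with_reducible apply IntF.irec | with_reducible apply IntF.succ | with_reducible apply IntF.val | with_reducible apply IntF.mk | (with_reducible refine Int.comp ?_ ?_; assumption) | (with_reducible refine Int.comp₂ ?_ ?_ ?_; assumption) | (with_reducible refine Int.comp₃ ?_ ?_ ?_ ?_; assumption) | (with_reducible refine Int.comp₄ ?_ ?_ ?_ ?_ ?_; assumption) | (with_reducible refine IntF.comp ?_ ?_; assumption) | (with_reducible refine IntF.comp₂ ?_ ?_ ?_; assumption) | (with_reducible refine IntF.comp₃ ?_ ?_ ?_ ?_; assumption) | with_reducible apply IntF.pair)))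

theorem Good.sg (h : T.Good E) (r : IPow M (INat M)) :
    T.Good (T.Sg E r) ∧ T.Sg E r ⊆ E := by
  have hN : ∀ {e}, e ∈ E → e ∈ T.Nd := fun he => h.1 _ he
  refine ⟨⟨fun e he => hN (mem_Sg.1 he).1, ?_, fun e he => ?_, fun e m he hm => ?_⟩,
    fun e he => (mem_Sg.1 he).1⟩
  · obtain ⟨e, he, hl⟩ := h.2.1
    obtain ⟨h1, h2⟩ := h.CC_spec r
    obtain ⟨-, h3, x, hx⟩ := T.F_spec _ h1 h2
    refine ⟨e, mem_Sg.2 ⟨he, x, hx, fun n hn => ?_⟩, hl⟩
    obtain ⟨e', he', hl', hxe⟩ := mem_Lk.1 (mem_CC.1 (h3 x hx) n)
    refine ⟨e', he', hl', ?_, hxe⟩
    rw [hl]
    have h4 := T.re_nd 0 e' (hN he') (INat.zero_le _)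
    exact T.root_unique _ _ h4.1 (hN he) h4.2 hl
  · obtain ⟨he, x, hx, h1⟩ := mem_Sg.1 he
    by_contra hc
    have hS : IFin (sep M fun a => a ∈ E ∧ T.lev a = (T.lev e).succ ∧ T.re (T.lev e, a) = e) :=
      ((T.fin (T.lev e).succ).mono fun a ha => ⟨hN ha.1, ha.2.1⟩).fin (by (repeat' (first | with_reducible exact IntF.id | with_reducible exact IntF.fst' | with_reducible exact IntF.snd' | with_reducible exact IntF.const _ | with_reducible exact Int.const _ | assumption | with_reducible apply Int.and | with_reducible apply Int.or | with_reducible apply Int.not | with_reducible apply Int.imp | with_reducible apply Int.iff | with_reducible apply Int.ne | with_reducible apply Int.eq | with_reducible apply Int.mem | with_reducible apply Int.subset | with_reducible apply Int.ltN | with_reducible apply Int.leN | with_reducible apply Int.fin | with_reducible apply Int.unique | with_reducible apply Int.all | with_reducible apply Int.ex | with_reducible apply IntF.fst | with_reducible apply IntF.snd | with_reducible apply IntF.app | with_reducible apply IntF.ite | with_reducible apply IntF.sep | with_reducible apply IntF.lam | with_reducible apply IntF.insert | with_reducible apply IntF.singleton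 | with_reducible apply IntF.union | with_reducible apply IntF.inter | with_reducible apply IntF.sdiff | with_reducible apply IntF.isUnion | with_reducible apply IntF.iimage | with_reducible apply IntF.the | with_reducible apply IntF.irec | with_reducible_and_instances apply IntF.add | with_reducible_and_instances apply IntF.mul | with_reducible apply IntF.succ | with_reducible apply IntF.val | (with_reducible refine Int.comp ?_ ?_; assumption) | (with_reducible refine Int.comp₂ ?_ ?_ ?_; assumption) | (with_reducible refine Int.comp₃ ?_ ?_ ?_ ?_; assumption) | (with_reducible refine IntF.comp ?_ ?_; assumption) | (with_reducible refine IntF.comp₂ ?_ ?_ ?_; assumption) | (with_reducible refine IntF.comp₃ ?_ ?_ ?_ ?_; assumption) | with_reducible apply IntF.pair)))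
    obtain ⟨N, hNb⟩ := IFin.exists_bound (r := fun (a : ν) (n : INat M) => T.lev a ≤ n ∧
      ¬ ∃ e'', e'' ∈ E ∧ T.lev e'' = n ∧ T.re (T.lev a, e'') = a ∧ x ∈ T.K (e'', r)) (by (repeat' (first | with_reducible exact IntF.id | with_reducible exact IntF.fst' | with_reducible exact IntF.snd' | with_reducible exact IntF.const _ | with_reducible exact Int.const _ | assumption | with_reducible apply Int.and | with_reducible apply Int.or | with_reducible apply Int.not | with_reducible apply Int.imp | with_reducible apply Int.iff | with_reducible apply Int.ne | with_reducible apply Int.eq | with_reducible apply Int.mem | with_reducible apply Int.subset | with_reducible apply Int.ltN | with_reducible apply Int.leN | with_reducible apply Int.fin | with_reducible apply Int.unique | with_reducible apply Int.all | with_reducible apply Int.ex | with_reducible apply IntF.fst | with_reducible apply IntF.snd | with_reducible apply IntF.app | with_reducible apply IntF.ite | with_reducible apply IntF.sep | with_reducible apply IntF.lam | with_reducible apply IntF.insert | with_reducible apply IntF.singleton | with_reducible apply IntF.union | with_reducible apply IntF.inter | with_reducible apply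 IntF.sdiff | with_reducible apply IntF.isUnion | with_reducible apply IntF.iimage | with_reducible apply IntF.the | with_reducible apply IntF.irec | with_reducible_and_instances apply IntF.add | with_reducible_and_instances apply IntF.mul | with_reducible apply IntF.succ | with_reducible apply IntF.val | (with_reducible refine Int.comp ?_ ?_; assumption) | (with_reducible refine Int.comp₂ ?_ ?_ ?_; assumption) | (with_reducible refine Int.comp₃ ?_ ?_ ?_ ?_; assumption) | (with_reducible refine IntF.comp ?_ ?_; assumption) | (with_reducible refine IntF.comp₂ ?_ ?_ ?_; assumption) | (with_reducible refine IntF.comp₃ ?_ ?_ ?_ ?_; assumption) | with_reducible apply IntF.pair)))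
      (fun b c => by
        have key : ∀ {a : ν} {b d : INat M}, b ≤ d → (T.lev a ≤ b ∧
            ¬ ∃ e'', e'' ∈ E ∧ T.lev e'' = b ∧ T.re (T.lev a, e'') = a ∧ x ∈ T.K (e'', r)) →
            (T.lev a ≤ d ∧
            ¬ ∃ e'', e'' ∈ E ∧ T.lev e'' = d ∧ T.re (T.lev a, e'') = a ∧ x ∈ T.K (e'', r)) := by
          intro a b d hbd ⟨h2, h3⟩
          refine ⟨le_trans h2 hbd, fun ⟨e'', he'', hl, hr, hxe⟩ => h3 ?_⟩
          have hb : b ≤ T.lev e'' := by rw [hl]; exact hbd
          refine ⟨T.re (b, e''), h.2.2.2 _ _ he'' hb, (T.re_nd b e'' (hN he'') hb).2, ?_,
            T.mono _ (hN he'') b hb r x hxe⟩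
          rw [T.re_re _ _ _ (hN he'') h2 hb]
          exact hr
        exact ⟨max b c, fun a ha => ha.elim (key (le_max_left _ _)) (key (le_max_right _ _))⟩)
      ⟨0⟩ hS (fun a ha => by
        obtain ⟨ha, hl, hr⟩ := (mem_sep (by (repeat' (first | with_reducible exact IntF.id | with_reducible exact IntF.fst' | with_reducible exact IntF.snd' | with_reducible exact IntF.const _ | with_reducible exact Int.const _ | assumption | with_reducible apply Int.and | with_reducible apply Int.or | with_reducible apply Int.not | with_reducible apply Int.imp | with_reducible apply Int.iff | with_reducible apply Int.ne | with_reducible apply Int.eq | with_reducible apply Int.mem | with_reducible apply Int.subset | with_reducible apply Int.ltN | with_reducible apply Int.leN | with_reducible apply Int.fin | with_reducible apply Int.unique | with_reducible apply Int.all | with_reducible apply Int.ex | with_reducible apply IntF.fst | with_reducible apply IntF.snd | with_reducible apply IntF.app | with_reducible apply IntF.ite | with_reducible apply IntF.sep | with_reducible apply IntF.lam | with_reducible apply IntF.insert | with_reducible apply IntF.singleton | with_reducible apply IntF.union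 | with_reducible apply IntF.inter | with_reducible apply IntF.sdiff | with_reducible apply IntF.isUnion | with_reducible apply IntF.iimage | with_reducible apply IntF.the | with_reducible apply IntF.irec | with_reducible_and_instances apply IntF.add | with_reducible_and_instances apply IntF.mul | with_reducible apply IntF.succ | with_reducible apply IntF.val | (with_reducible refine Int.comp ?_ ?_; assumption) | (with_reducible refine Int.comp₂ ?_ ?_ ?_; assumption) | (with_reducible refine Int.comp₃ ?_ ?_ ?_ ?_; assumption) | (with_reducible refine IntF.comp ?_ ?_; assumption) | (with_reducible refine IntF.comp₂ ?_ ?_ ?_; assumption) | (with_reducible refine IntF.comp₃ ?_ ?_ ?_ ?_; assumption) | with_reducible apply IntF.pair)))).1 ha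
        by_contra hb
        refine hc ⟨a, mem_Sg.2 ⟨ha, x, hx, fun n hn => ?_⟩, hl, hr⟩
        by_contra hd
        exact hb ⟨n, hn, hd⟩)
    obtain ⟨a₀, ha₀, hl₀, hr₀⟩ := h.2.2.1 e he
    have h2 := (hNb a₀ ((mem_sep (by (repeat' (first | with_reducible exact IntF.id | with_reducible exact IntF.fst' | with_reducible exact IntF.snd' | with_reducible exact IntF.const _ | with_reducible exact Int.const _ | assumption | with_reducible apply Int.and | with_reducible apply Int.or | with_reducible apply Int.not | with_reducible apply Int.imp | with_reducible apply Int.iff | with_reducible apply Int.ne | with_reducible apply Int.eq | with_reducible apply Int.mem | with_reducible apply Int.subset | with_reducible apply Int.ltN | with_reducible apply Int.leN | with_reducible apply Int.fin | with_reducible apply Int.unique | with_reducible apply Int.all | with_reducible apply Int.ex | with_reducible apply IntF.fst | with_reducible apply IntF.snd | with_reducible apply IntF.app | with_reducible apply IntF.ite | with_reducible apply IntF.sep | with_reducible apply IntF.lam | with_reducible apply IntF.insert | with_reducible apply IntF.singleton | with_reducible apply IntF.union | with_reducible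 apply IntF.inter | with_reducible apply IntF.sdiff | with_reducible apply IntF.isUnion | with_reducible apply IntF.iimage | with_reducible apply IntF.the | with_reducible apply IntF.irec | with_reducible_and_instances apply IntF.add | with_reducible_and_instances apply IntF.mul | with_reducible apply IntF.succ | with_reducible apply IntF.val | (with_reducible refine Int.comp ?_ ?_; assumption) | (with_reducible refine Int.comp₂ ?_ ?_ ?_; assumption) | (with_reducible refine Int.comp₃ ?_ ?_ ?_ ?_; assumption) | (with_reducible refine IntF.comp ?_ ?_; assumption) | (with_reducible refine IntF.comp₂ ?_ ?_ ?_; assumption) | (with_reducible refine IntF.comp₃ ?_ ?_ ?_ ?_; assumption) | with_reducible apply IntF.pair)))).2 ⟨ha₀, hl₀, hr₀⟩)).1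
    rw [hl₀] at h2
    obtain ⟨e'', he'', hl, hr, hxe⟩ := h1 N (le_trans (INat.le_succ_self _) h2)
    have h3 : (T.lev e).succ ≤ T.lev e'' := by rw [hl]; exact h2
    have h4 := T.re_nd _ e'' (hN he'') h3
    refine (hNb (T.re ((T.lev e).succ, e'')) ((mem_sep (by (repeat' (first | with_reducible exact IntF.id | with_reducible exact IntF.fst' | with_reducible exact IntF.snd' | with_reducible exact IntF.const _ | with_reducible exact Int.const _ | assumption | with_reducible apply Int.and | with_reducible apply Int.or | with_reducible apply Int.not | with_reducible apply Int.imp | with_reducible apply Int.iff | with_reducible apply Int.ne | with_reducible apply Int.eq | with_reducible apply Int.mem | with_reducible apply Int.subset | with_reducible apply Int.ltN | with_reducible apply Int.leN | with_reducible apply Int.fin | with_reducible apply Int.unique | with_reducible apply Int.all | with_reducible apply Int.ex | with_reducible apply IntF.fst | with_reducible apply IntF.snd | with_reducible apply IntF.app | with_reducible apply IntF.ite | with_reducible apply IntF.sep | with_reducible apply IntF.lam | with_reducible apply IntF.insert | with_reducible apply IntF.singleton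 | with_reducible apply IntF.union | with_reducible apply IntF.inter | with_reducible apply IntF.sdiff | with_reducible apply IntF.isUnion | with_reducible apply IntF.iimage | with_reducible apply IntF.the | with_reducible apply IntF.irec | with_reducible_and_instances apply IntF.add | with_reducible_and_instances apply IntF.mul | with_reducible apply IntF.succ | with_reducible apply IntF.val | (with_reducible refine Int.comp ?_ ?_; assumption) | (with_reducible refine Int.comp₂ ?_ ?_ ?_; assumption) | (with_reducible refine Int.comp₃ ?_ ?_ ?_ ?_; assumption) | (with_reducible refine IntF.comp ?_ ?_; assumption) | (with_reducible refine IntF.comp₂ ?_ ?_ ?_; assumption) | (with_reducible refine IntF.comp₃ ?_ ?_ ?_ ?_; assumption) | with_reducible apply IntF.pair)))).2 ⟨h.2.2.2 _ _ he'' h3, h4.2,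
      ?_⟩)).2 ⟨e'', he'', hl, by rw [h4.2], hxe⟩
    rw [T.re_re _ _ _ (hN he'') (INat.le_succ_self _) h3]
    exact hr
  · obtain ⟨he, x, hx, h1⟩ := mem_Sg.1 he
    have h2 := T.re_nd m e (hN he) hm
    refine mem_Sg.2 ⟨h.2.2.2 _ _ he hm, x, hx, fun n hn => ?_⟩
    rw [h2.2] at hn ⊢
    rcases le_total (T.lev e) n with hl | hl
    · obtain ⟨e', he', hl', hr, hxe⟩ := h1 n hl
      refine ⟨e', he', hl', ?_, hxe⟩
      rw [← T.re_re m (T.lev e) e' (hN he') hm (by rw [hl']; exact hl), hr]
    · obtain ⟨e', he', hl', hr, hxe⟩ := h1 (T.lev e) le_rfl
      have h3 : e' = e := by
        rw [← hr, ← hl']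
        exact (T.re_self e' (hN he')).symm
      rw [h3] at hxe
      exact ⟨T.re (n, e), h.2.2.2 _ _ he hl, (T.re_nd n e (hN he) hl).2,
        T.re_re m n e (hN he) hn hl, T.mono e (hN he) n hl r x hxe⟩

theorem Good.proper (h : T.Good E) (hW : T.Wide E) (hf : T.Sg E (T.rl E) = E) : False := by
  have hN : ∀ {e}, e ∈ E → e ∈ T.Nd := fun he => h.1 _ he
  obtain ⟨h1, h2⟩ := h.CC_spec (T.rl E)
  obtain ⟨h3, -, x₀, hx₀⟩ := T.F_spec _ h1 h2
  obtain ⟨N, hNp⟩ := pigeon h3
  obtain ⟨n, a, ha, hd⟩ := rl_spec h hW N.succ
  generalize hr : T.rl E = r at *
  haveI : Nonempty α := ⟨x₀⟩
  obtain ⟨g, hg⟩ := nat_choice (R := fun i x => x ∈ T.F (T.CC E r) ∧ x ∈ T.K (a i, r))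
    (by (repeat' (first | with_reducible exact IntF.id | with_reducible exact IntF.fst' | with_reducible exact IntF.snd' | with_reducible exact IntF.const _ | with_reducible exact Int.const _ | assumption | with_reducible apply Int.and | with_reducible apply Int.or | with_reducible apply Int.not | with_reducible apply Int.imp | with_reducible apply Int.iff | with_reducible apply Int.ne | with_reducible apply Int.eq | with_reducible apply Int.mem | with_reducible apply Int.subset | with_reducible apply Int.ltN | with_reducible apply Int.leN | with_reducible apply Int.fin | with_reducible apply Int.unique | with_reducible apply Int.all | with_reducible apply Int.ex | with_reducible apply IntF.fst | with_reducible apply IntF.snd | with_reducible apply IntF.app | with_reducible apply IntF.ite | with_reducible apply IntF.sep | with_reducible apply IntF.lam | with_reducible apply IntF.insert | with_reducible apply IntF.singleton | with_reducible apply IntF.union | with_reducible apply IntF.inter | with_reducible apply IntF.sdiff | with_reducible apply IntF.isUnion | with_reducible apply IntF.iimage | with_reducible apply IntF.the | with_reducible apply IntF.irec | with_reducible_and_instances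 apply IntF.add | with_reducible_and_instances apply IntF.mul | with_reducible apply IntF.succ | with_reducible apply IntF.val | (with_reducible refine Int.comp ?_ ?_; assumption) | (with_reducible refine Int.comp₂ ?_ ?_ ?_; assumption) | (with_reducible refine Int.comp₃ ?_ ?_ ?_ ?_; assumption) | (with_reducible refine IntF.comp ?_ ?_; assumption) | (with_reducible refine IntF.comp₂ ?_ ?_ ?_; assumption) | (with_reducible refine IntF.comp₃ ?_ ?_ ?_ ?_; assumption) | with_reducible apply IntF.pair))) N.succ (fun i hi => by
      obtain ⟨h4, h5⟩ := ha i hi
      rw [← hf] at h4
      obtain ⟨h4, x, hx, h6⟩ := mem_Sg.1 h4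
      obtain ⟨e', he', hl, hre, hxe⟩ := h6 _ le_rfl
      have h7 : e' = a i := by
        rw [← hre, ← hl]
        exact (T.re_self e' (hN he')).symm
      rw [h7] at hxe
      exact ⟨x, hx, hxe⟩)
  refine hNp g (fun j hj => (hg j (INat.lt_succ_iff.2 hj)).1) fun i j hi hj hij => ?_
  by_contra hne
  refine hd i j (INat.lt_succ_iff.2 hi) (INat.lt_succ_iff.2 hj) hne (g i)
    (hg i (INat.lt_succ_iff.2 hi)).2 ?_
  rw [hij]
  exact (hg j (INat.lt_succ_iff.2 hj)).2

theorem good_chain {C : IPow M (IPow M ν)} (hne : ∃ s, s ∈ C) (hC : ∀ s, s ∈ C → T.Good s)
    (hch : IsChn C) : T.Good (isInter C) := by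
  obtain ⟨E₀, hE₀⟩ := hne
  refine ⟨fun e he => (hC _ hE₀).1 e (mem_isInter.1 he _ hE₀), ?_, fun e he => ?_,
    fun e m he hm => mem_isInter.2 fun E hE => (hC E hE).2.2.2 e m (mem_isInter.1 he E hE) hm⟩
  · obtain ⟨e, he, hl⟩ := (hC _ hE₀).2.1
    refine ⟨e, mem_isInter.2 fun E hE => ?_, hl⟩
    obtain ⟨e', he', hl'⟩ := (hC _ hE).2.1
    rw [T.root_unique e e' ((hC _ hE₀).1 _ he) ((hC _ hE).1 _ he') hl hl']
    exact he'
  · have hS : IFin (sep M fun a => a ∈ T.Nd ∧ T.lev a = (T.lev e).succ ∧
        T.re (T.lev e, a) = e) :=
      ((T.fin (T.lev e).succ).mono fun a ha => ⟨ha.1, ha.2.1⟩).fin (by (repeat' (first | with_reducible exact IntF.id | with_reducible exact IntF.fst' | with_reducible exact IntF.snd' | with_reducible exact IntF.const _ | with_reducible exact Int.const _ | assumption | with_reducible apply Int.and | with_reducible apply Int.or | with_reducible apply Int.not | with_reducible apply Int.imp | with_reducible apply Int.iff | with_reducible apply Int.ne | with_reducible apply Int.eq | with_reducible apply Int.mem | with_reducible apply Int.subset | with_reducible apply Int.ltN | with_reducible apply Int.leN | with_reducible apply Int.fin | with_reducible apply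 Int.unique | with_reducible apply Int.all | with_reducible apply Int.ex | with_reducible apply IntF.fst | with_reducible apply IntF.snd | with_reducible apply IntF.app | with_reducible apply IntF.ite | with_reducible apply IntF.sep | with_reducible apply IntF.lam | with_reducible apply IntF.insert | with_reducible apply IntF.singleton | with_reducible apply IntF.union | with_reducible apply IntF.inter | with_reducible apply IntF.sdiff | with_reducible apply IntF.isUnion | with_reducible apply IntF.iimage | with_reducible apply IntF.the | with_reducible apply IntF.irec | with_reducible_and_instances apply IntF.add | with_reducible_and_instances apply IntF.mul | with_reducible apply IntF.succ | with_reducible apply IntF.val | (with_reducible refine Int.comp ?_ ?_; assumption) | (with_reducible refine Int.comp₂ ?_ ?_ ?_; assumption) | (with_reducible refine Int.comp₃ ?_ ?_ ?_ ?_; assumption) | (with_reducible refine IntF.comp ?_ ?_; assumption) | (with_reducible refine IntF.comp₂ ?_ ?_ ?_; assumption) | (with_reducible refine IntF.comp₃ ?_ ?_ ?_ ?_; assumption) | with_reducible apply IntF.pair)))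
    obtain ⟨a, ha, haC⟩ := chain_fin hS ⟨E₀, hE₀⟩ hch fun E hE => by
      obtain ⟨a, ha, hl, hr⟩ := (hC E hE).2.2.1 e (mem_isInter.1 he E hE)
      exact ⟨a, (mem_sep (by (repeat' (first | with_reducible exact IntF.id | with_reducible exact IntF.fst' | with_reducible exact IntF.snd' | with_reducible exact IntF.const _ | with_reducible exact Int.const _ | assumption | with_reducible apply Int.and | with_reducible apply Int.or | with_reducible apply Int.not | with_reducible apply Int.imp | with_reducible apply Int.iff | with_reducible apply Int.ne | with_reducible apply Int.eq | with_reducible apply Int.mem | with_reducible apply Int.subset | with_reducible apply Int.ltN | with_reducible apply Int.leN | with_reducible apply Int.fin | with_reducible apply Int.unique | with_reducible apply Int.all | with_reducible apply Int.ex | with_reducible apply IntF.fst | with_reducible apply IntF.snd | with_reducible apply IntF.app | with_reducible apply IntF.ite | with_reducible apply IntF.sep | with_reducible apply IntF.lam | with_reducible apply IntF.insert | with_reducible apply IntF.singleton | with_reducible apply IntF.union | with_reducible apply IntF.inter | with_reducible apply IntF.sdiff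 | with_reducible apply IntF.isUnion | with_reducible apply IntF.iimage | with_reducible apply IntF.the | with_reducible apply IntF.irec | with_reducible_and_instances apply IntF.add | with_reducible_and_instances apply IntF.mul | with_reducible apply IntF.succ | with_reducible apply IntF.val | (with_reducible refine Int.comp ?_ ?_; assumption) | (with_reducible refine Int.comp₂ ?_ ?_ ?_; assumption) | (with_reducible refine Int.comp₃ ?_ ?_ ?_ ?_; assumption) | (with_reducible refine IntF.comp ?_ ?_; assumption) | (with_reducible refine IntF.comp₂ ?_ ?_ ?_; assumption) | (with_reducible refine IntF.comp₃ ?_ ?_ ?_ ?_; assumption) | with_reducible apply IntF.pair)))).2 ⟨(hC E hE).1 _ ha, hl, hr⟩, ha⟩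
    obtain ⟨-, hl, hr⟩ := (mem_sep (by (repeat' (first | with_reducible exact IntF.id | with_reducible exact IntF.fst' | with_reducible exact IntF.snd' | with_reducible exact IntF.const _ | with_reducible exact Int.const _ | assumption | with_reducible apply Int.and | with_reducible apply Int.or | with_reducible apply Int.not | with_reducible apply Int.imp | with_reducible apply Int.iff | with_reducible apply Int.ne | with_reducible apply Int.eq | with_reducible apply Int.mem | with_reducible apply Int.subset | with_reducible apply Int.ltN | with_reducible apply Int.leN | with_reducible apply Int.fin | with_reducible apply Int.unique | with_reducible apply Int.all | with_reducible apply Int.ex | with_reducible apply IntF.fst | with_reducible apply IntF.snd | with_reducible apply IntF.app | with_reducible apply IntF.ite | with_reducible apply IntF.sep | with_reducible apply IntF.lam | with_reducible apply IntF.insert | with_reducible apply IntF.singleton | with_reducible apply IntF.union | with_reducible apply IntF.inter | with_reducible apply IntF.sdiff | with_reducible apply IntF.isUnion | with_reducible apply IntF.iimage | with_reducible apply IntF.the | with_reducible apply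 IntF.irec | with_reducible_and_instances apply IntF.add | with_reducible_and_instances apply IntF.mul | with_reducible apply IntF.succ | with_reducible apply IntF.val | (with_reducible refine Int.comp ?_ ?_; assumption) | (with_reducible refine Int.comp₂ ?_ ?_ ?_; assumption) | (with_reducible refine Int.comp₃ ?_ ?_ ?_ ?_; assumption) | (with_reducible refine IntF.comp ?_ ?_; assumption) | (with_reducible refine IntF.comp₂ ?_ ?_ ?_; assumption) | (with_reducible refine IntF.comp₃ ?_ ?_ ?_ ?_; assumption) | with_reducible apply IntF.pair)))).1 ha
    exact ⟨a, mem_isInter.2 haC, hl, hr⟩

/-- The real numbers inject into the space. -/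
theorem exists_inj (T : TD M α ν) : ∃ j : IFun M (IPow M (INat M)) α, ∀ t t', j t = j t' →
    t = t' := by
  by_cases hA : ∃ E, T.Good E ∧ ¬ T.Wide E
  · obtain ⟨E, hE, hW⟩ := hA
    refine hE.inj_real ?_
    unfold Wide at hW
    push Not at hW
    exact hW
  · exfalso
    push Not at hA
    have i1 := int_Sg (T := T)
    have i2 := int_rl (T := T)
    obtain ⟨E, hE, hf⟩ := bourbaki_witt (F := fun E => T.Sg E (T.rl E))
      (by (repeat' (first | with_reducible apply IntF.comp₂ i1 | with_reducible apply IntF.comp i2 | with_reducible exact IntF.id | with_reducible exact IntF.fst' | with_reducible exact IntF.snd' | with_reducible exact IntF.const _ | with_reducible exact Int.const _ | assumption | with_reducible apply Int.and | with_reducible apply Int.or | with_reducible apply Int.not | with_reducible apply Int.imp | with_reducible apply Int.iff | with_reducible apply Int.ne | with_reducible apply Int.eq | with_reducible apply Int.mem | with_reducible apply Int.subset | with_reducible apply Int.ltN | with_reducible apply Int.leN | with_reducible_and_instances apply Int.le | with_reducible_and_instances apply Int.lt | with_reducible apply Int.all | with_reducible apply Int.ex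 | with_reducible apply IntF.fst | with_reducible apply IntF.snd | with_reducible apply IntF.app | with_reducible apply IntF.inl | with_reducible apply IntF.inr | with_reducible_and_instances apply IntF.mul | with_reducible_and_instances apply IntF.inv | with_reducible_and_instances apply IntF.add | with_reducible_and_instances apply IntF.sub | with_reducible_and_instances apply IntF.neg | with_reducible_and_instances apply IntF.smul | with_reducible apply Int.fin | with_reducible apply IntF.sep | with_reducible apply IntF.lam | with_reducible apply IntF.insert | with_reducible apply IntF.singleton | with_reducible apply IntF.union | with_reducible apply IntF.iimage | with_reducible apply IntF.ite | with_reducible apply IntF.the | with_reducible apply IntF.irec | with_reducible apply IntF.succ | with_reducible apply IntF.val | with_reducible apply IntF.mk | (with_reducible refine Int.comp ?_ ?_; assumption) | (with_reducible refine Int.comp₂ ?_ ?_ ?_; assumption) | (with_reducible refine Int.comp₃ ?_ ?_ ?_ ?_; assumption) | (with_reducible refine Int.comp₄ ?_ ?_ ?_ ?_ ?_; assumption) | (with_reducible refine IntF.comp ?_ ?_; assumption) | (with_reducible refine IntF.comp₂ ?_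 ?_ ?_; assumption) | (with_reducible refine IntF.comp₃ ?_ ?_ ?_ ?_; assumption) | with_reducible apply IntF.pair))) (int_Good T) (good_Nd T)
      (fun E hE => hE.sg (T.rl E)) (fun C hne hC hch => good_chain hne hC hch)
    exact hE.proper (hA E hE) hf

end TD

end Pool.Agent.H310
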