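import Pool.Agent.H310R3.W6

/-!
# The tree of choices of a space: the tree structure
-/

set_option maxHeartbeats 400000
set_option linter.all false
set_option synthInstance.maxSize 2000

namespace Pool.Agent.H310

open FirstOrder FirstOrder.Language
open Pool.Agent.Helper672.ZFA

universe u u₁ u₂ u₃ u₄

variable {M : Type u} [L.Structure M] [hM : IsModel M]
variable {α : Type u₁} [ITy M α]

variable (M α) in
/-- Choice functions. -/
abbrev CF := IFun M (INat M × IPow M α) (IPow M α × IPow M α)

namespace TS

variable (S : TS M α)

/-- The nodes. -/
noncomputable def Nd : IPow M (INat M × CF M α) :=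
  sep M fun e => (∀ q, q ∈ S.Z e.1 → S.Adm q (e.2 q)) ∧ ∀ q, ¬ q ∈ S.Z e.1 → e.2 q = (∅, ∅)

theorem mem_Nd {e : INat M × CF M α} : e ∈ S.Nd ↔
    (∀ q, q ∈ S.Z e.1 → S.Adm q (e.2 q)) ∧ ∀ q, ¬ q ∈ S.Z e.1 → e.2 q = (∅, ∅) := by
  have h1 := S.int_Z
  have h2 := S.int_Adm
  unfold Nd
  exact mem_sep (by (repeat' (first | with_reducible apply Int.comp₂ h2 | with_reducible apply IntF.comp h1 | with_reducible exact IntF.id | with_reducible exact IntF.fst' | with_reducible exact IntF.snd' | with_reducible exact IntF.const _ | with_reducible exact Int.const _ | assumption | with_reducible apply Int.and | with_reducible apply Int.or | with_reducible apply Int.not | with_reducible apply Int.imp | with_reducible apply Int.iff | with_reducible apply Int.ne | with_reducible apply Int.eq | with_reducible apply Int.mem | with_reducible apply Int.subset | with_reducible apply Int.ltN | with_reducible apply Int.leN | with_reducible_and_instances apply Int.le | with_reducible_and_instances apply Int.lt | with_reducible apply Int.all | with_reducible apply Int.ex | with_reducible apply IntF.fst | with_reducible apply IntF.snd | with_reducible apply IntF.app | with_reducible apply IntF.inl | with_reducible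 apply IntF.inr | with_reducible_and_instances apply IntF.mul | with_reducible_and_instances apply IntF.inv | with_reducible_and_instances apply IntF.add | with_reducible_and_instances apply IntF.sub | with_reducible_and_instances apply IntF.neg | with_reducible_and_instances apply IntF.smul | with_reducible apply Int.fin | with_reducible apply IntF.sep | with_reducible apply IntF.lam | with_reducible apply IntF.insert | with_reducible apply IntF.singleton | with_reducible apply IntF.union | with_reducible apply IntF.iimage | with_reducible apply IntF.ite | with_reducible apply IntF.the | with_reducible apply IntF.irec | with_reducible apply IntF.succ | with_reducible apply IntF.val | with_reducible apply IntF.mk | (with_reducible refine Int.comp ?_ ?_; assumption) | (with_reducible refine Int.comp₂ ?_ ?_ ?_; assumption) | (with_reducible refine Int.comp₃ ?_ ?_ ?_ ?_; assumption) | (with_reducible refine Int.comp₄ ?_ ?_ ?_ ?_ ?_; assumption) | (with_reducible refine IntF.comp ?_ ?_; assumption) | (with_reducible refine IntF.comp₂ ?_ ?_ ?_; assumption) | (with_reducible refine IntF.comp₃ ?_ ?_ ?_ ?_; assumption) | with_reducible apply IntF.pair)))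

/-- Truncation. -/
noncomputable def trn (m : INat M) (c : CF M α) : CF M α :=
  lam M fun q => (sep M fun x => q.1 < m ∧ x ∈ (c q).1, sep M fun x => q.1 < m ∧ x ∈ (c q).2)

theorem int_trn : IntF M (fun w : INat M × CF M α => trn w.1 w.2) := by
  unfold trn
  (repeat' (first | with_reducible exact IntF.id | with_reducible exact IntF.fst' | with_reducible exact IntF.snd' | with_reducible exact IntF.const _ | with_reducible exact Int.const _ | assumption | with_reducible apply Int.and | with_reducible apply Int.or | with_reducible apply Int.not | with_reducible apply Int.imp | with_reducible apply Int.iff | with_reducible apply Int.ne | with_reducible apply Int.eq | with_reducible apply Int.mem | with_reducible apply Int.subset | with_reducible apply Int.ltN | with_reducible apply Int.leN | with_reducible apply Int.fin | with_reducible apply Int.unique | with_reducible apply Int.all | with_reducible apply Int.ex | with_reducible apply IntF.fst | with_reducible apply IntF.snd | with_reducible apply IntF.app | with_reducible apply IntF.ite | with_reducible apply IntF.sep | with_reducible apply IntF.lam | with_reducible apply IntF.insert | with_reducible apply IntF.singleton | with_reducible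 apply IntF.union | with_reducible apply IntF.inter | with_reducible apply IntF.sdiff | with_reducible apply IntF.isUnion | with_reducible apply IntF.iimage | with_reducible apply IntF.the | with_reducible apply IntF.irec | with_reducible_and_instances apply IntF.add | with_reducible_and_instances apply IntF.mul | with_reducible apply IntF.succ | with_reducible apply IntF.val | (with_reducible refine Int.comp ?_ ?_; assumption) | (with_reducible refine Int.comp₂ ?_ ?_ ?_; assumption) | (with_reducible refine Int.comp₃ ?_ ?_ ?_ ?_; assumption) | (with_reducible refine IntF.comp ?_ ?_; assumption) | (with_reducible refine IntF.comp₂ ?_ ?_ ?_; assumption) | (with_reducible refine IntF.comp₃ ?_ ?_ ?_ ?_; assumption) | with_reducible apply IntF.pair))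

theorem trn_apply (m : INat M) (c : CF M α) (q : INat M × IPow M α) : trn m c q =
    (sep M fun x => q.1 < m ∧ x ∈ (c q).1, sep M fun x => q.1 < m ∧ x ∈ (c q).2) := by
  unfold trn
  exact lam_apply (by (repeat' (first | with_reducible exact IntF.id | with_reducible exact IntF.fst' | with_reducible exact IntF.snd' | with_reducible exact IntF.const _ | with_reducible exact Int.const _ | assumption | with_reducible apply Int.and | with_reducible apply Int.or | with_reducible apply Int.not | with_reducible apply Int.imp | with_reducible apply Int.iff | with_reducible apply Int.ne | with_reducible apply Int.eq | with_reducible apply Int.mem | with_reducible apply Int.subset | with_reducible apply Int.ltN | with_reducible apply Int.leN | with_reducible apply Int.fin | with_reducible apply Int.unique | with_reducible apply Int.all | with_reducible apply Int.ex | with_reducible apply IntF.fst | with_reducible apply IntF.snd | with_reducible apply IntF.app | with_reducible apply IntF.ite | with_reducible apply IntF.sep | with_reducible apply IntF.lam | with_reducible apply IntF.insert | with_reducible apply IntF.singleton | with_reducible apply IntF.union | with_reducible apply IntF.inter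 | with_reducible apply IntF.sdiff | with_reducible apply IntF.isUnion | with_reducible apply IntF.iimage | with_reducible apply IntF.the | with_reducible apply IntF.irec | with_reducible_and_instances apply IntF.add | with_reducible_and_instances apply IntF.mul | with_reducible apply IntF.succ | with_reducible apply IntF.val | (with_reducible refine Int.comp ?_ ?_; assumption) | (with_reducible refine Int.comp₂ ?_ ?_ ?_; assumption) | (with_reducible refine Int.comp₃ ?_ ?_ ?_ ?_; assumption) | (with_reducible refine IntF.comp ?_ ?_; assumption) | (with_reducible refine IntF.comp₂ ?_ ?_ ?_; assumption) | (with_reducible refine IntF.comp₃ ?_ ?_ ?_ ?_; assumption) | with_reducible apply IntF.pair))) q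

theorem trn_lt {m : INat M} {c : CF M α} {q : INat M × IPow M α} (h : q.1 < m) :
    trn m c q = c q := by
  rw [trn_apply]
  refine Prod.ext (IPow.ext' fun x => ?_) (IPow.ext' fun x => ?_)
  · rw [mem_sep (by (repeat' (first | with_reducible exact IntF.id | with_reducible exact IntF.fst' | with_reducible exact IntF.snd' | with_reducible exact IntF.const _ | with_reducible exact Int.const _ | assumption | with_reducible apply Int.and | with_reducible apply Int.or | with_reducible apply Int.not | with_reducible apply Int.imp | with_reducible apply Int.iff | with_reducible apply Int.ne | with_reducible apply Int.eq | with_reducible apply Int.mem | with_reducible apply Int.subset | with_reducible apply Int.ltN | with_reducible apply Int.leN | with_reducible apply Int.fin | with_reducible apply Int.unique | with_reducible apply Int.all | with_reducible apply Int.ex | with_reducible apply IntF.fst | with_reducible apply IntF.snd | with_reducible apply IntF.app | with_reducible apply IntF.ite | with_reducible apply IntF.sep | with_reducible apply IntF.lam | with_reducible apply IntF.insert | with_reducible apply IntF.singleton | with_reducible apply IntF.union | with_reducible apply IntF.inter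 | with_reducible apply IntF.sdiff | with_reducible apply IntF.isUnion | with_reducible apply IntF.iimage | with_reducible apply IntF.the | with_reducible apply IntF.irec | with_reducible_and_instances apply IntF.add | with_reducible_and_instances apply IntF.mul | with_reducible apply IntF.succ | with_reducible apply IntF.val | (with_reducible refine Int.comp ?_ ?_; assumption) | (with_reducible refine Int.comp₂ ?_ ?_ ?_; assumption) | (with_reducible refine Int.comp₃ ?_ ?_ ?_ ?_; assumption) | (with_reducible refine IntF.comp ?_ ?_; assumption) | (with_reducible refine IntF.comp₂ ?_ ?_ ?_; assumption) | (with_reducible refine IntF.comp₃ ?_ ?_ ?_ ?_; assumption) | with_reducible apply IntF.pair)))]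
    exact and_iff_right h
  · rw [mem_sep (by (repeat' (first | with_reducible exact IntF.id | with_reducible exact IntF.fst' | with_reducible exact IntF.snd' | with_reducible exact IntF.const _ | with_reducible exact Int.const _ | assumption | with_reducible apply Int.and | with_reducible apply Int.or | with_reducible apply Int.not | with_reducible apply Int.imp | with_reducible apply Int.iff | with_reducible apply Int.ne | with_reducible apply Int.eq | with_reducible apply Int.mem | with_reducible apply Int.subset | with_reducible apply Int.ltN | with_reducible apply Int.leN | with_reducible apply Int.fin | with_reducible apply Int.unique | with_reducible apply Int.all | with_reducible apply Int.ex | with_reducible apply IntF.fst | with_reducible apply IntF.snd | with_reducible apply IntF.app | with_reducible apply IntF.ite | with_reducible apply IntF.sep | with_reducible apply IntF.lam | with_reducible apply IntF.insert | with_reducible apply IntF.singleton | with_reducible apply IntF.union | with_reducible apply IntF.inter | with_reducible apply IntF.sdiff | with_reducible apply IntF.isUnion | with_reducible apply IntF.iimage | with_reducible apply IntF.the | with_reducible apply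 IntF.irec | with_reducible_and_instances apply IntF.add | with_reducible_and_instances apply IntF.mul | with_reducible apply IntF.succ | with_reducible apply IntF.val | (with_reducible refine Int.comp ?_ ?_; assumption) | (with_reducible refine Int.comp₂ ?_ ?_ ?_; assumption) | (with_reducible refine Int.comp₃ ?_ ?_ ?_ ?_; assumption) | (with_reducible refine IntF.comp ?_ ?_; assumption) | (with_reducible refine IntF.comp₂ ?_ ?_ ?_; assumption) | (with_reducible refine IntF.comp₃ ?_ ?_ ?_ ?_; assumption) | with_reducible apply IntF.pair)))]
    exact and_iff_right h

theorem trn_ge {m : INat M} {c : CF M α} {q : INat M × IPow M α} (h : ¬ q.1 < m) :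
    trn m c q = (∅, ∅) := by
  rw [trn_apply]
  refine Prod.ext (IPow.ext' fun x => ?_) (IPow.ext' fun x => ?_)
  · rw [mem_sep (by (repeat' (first | with_reducible exact IntF.id | with_reducible exact IntF.fst' | with_reducible exact IntF.snd' | with_reducible exact IntF.const _ | with_reducible exact Int.const _ | assumption | with_reducible apply Int.and | with_reducible apply Int.or | with_reducible apply Int.not | with_reducible apply Int.imp | with_reducible apply Int.iff | with_reducible apply Int.ne | with_reducible apply Int.eq | with_reducible apply Int.mem | with_reducible apply Int.subset | with_reducible apply Int.ltN | with_reducible apply Int.leN | with_reducible apply Int.fin | with_reducible apply Int.unique | with_reducible apply Int.all | with_reducible apply Int.ex | with_reducible apply IntF.fst | with_reducible apply IntF.snd | with_reducible apply IntF.app | with_reducible apply IntF.ite | with_reducible apply IntF.sep | with_reducible apply IntF.lam | with_reducible apply IntF.insert | with_reducible apply IntF.singleton | with_reducible apply IntF.union | with_reducible apply IntF.inter | with_reducible apply IntF.sdiff | with_reducible apply IntF.isUnion |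 with_reducible apply IntF.iimage | with_reducible apply IntF.the | with_reducible apply IntF.irec | with_reducible_and_instances apply IntF.add | with_reducible_and_instances apply IntF.mul | with_reducible apply IntF.succ | with_reducible apply IntF.val | (with_reducible refine Int.comp ?_ ?_; assumption) | (with_reducible refine Int.comp₂ ?_ ?_ ?_; assumption) | (with_reducible refine Int.comp₃ ?_ ?_ ?_ ?_; assumption) | (with_reducible refine IntF.comp ?_ ?_; assumption) | (with_reducible refine IntF.comp₂ ?_ ?_ ?_; assumption) | (with_reducible refine IntF.comp₃ ?_ ?_ ?_ ?_; assumption) | with_reducible apply IntF.pair))), mem_empty]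
    exact ⟨fun h1 => h h1.1, False.elim⟩
  · rw [mem_sep (by (repeat' (first | with_reducible exact IntF.id | with_reducible exact IntF.fst' | with_reducible exact IntF.snd' | with_reducible exact IntF.const _ | with_reducible exact Int.const _ | assumption | with_reducible apply Int.and | with_reducible apply Int.or | with_reducible apply Int.not | with_reducible apply Int.imp | with_reducible apply Int.iff | with_reducible apply Int.ne | with_reducible apply Int.eq | with_reducible apply Int.mem | with_reducible apply Int.subset | with_reducible apply Int.ltN | with_reducible apply Int.leN | with_reducible apply Int.fin | with_reducible apply Int.unique | with_reducible apply Int.all | with_reducible apply Int.ex | with_reducible apply IntF.fst | with_reducible apply IntF.snd | with_reducible apply IntF.app | with_reducible apply IntF.ite | with_reducible apply IntF.sep | with_reducible apply IntF.lam | with_reducible apply IntF.insert | with_reducible apply IntF.singleton | with_reducible apply IntF.union | with_reducible apply IntF.inter | with_reducible apply IntF.sdiff | with_reducible apply IntF.isUnion | with_reducible apply IntF.iimage | with_reducible apply IntF.the | with_reducible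 apply IntF.irec | with_reducible_and_instances apply IntF.add | with_reducible_and_instances apply IntF.mul | with_reducible apply IntF.succ | with_reducible apply IntF.val | (with_reducible refine Int.comp ?_ ?_; assumption) | (with_reducible refine Int.comp₂ ?_ ?_ ?_; assumption) | (with_reducible refine Int.comp₃ ?_ ?_ ?_ ?_; assumption) | (with_reducible refine IntF.comp ?_ ?_; assumption) | (with_reducible refine IntF.comp₂ ?_ ?_ ?_; assumption) | (with_reducible refine IntF.comp₃ ?_ ?_ ?_ ?_; assumption) | with_reducible apply IntF.pair))), mem_empty]
    exact ⟨fun h1 => h h1.1, False.elim⟩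

/-- The branch of a real. -/
noncomputable def st (c : CF M α) (s : IPow M (INat M)) (m : INat M) : IPow M α :=
  irec S.A (fun m W => sep M fun x => (m ∈ s ∧ x ∈ (c (m, W)).2) ∨
    (¬ m ∈ s ∧ x ∈ (c (m, W)).1)) m

theorem int_st : IntF M (fun w : (CF M α × IPow M (INat M)) × INat M =>
    S.st w.1.1 w.1.2 w.2) := by
  unfold st
  (repeat' (first | with_reducible exact IntF.id | with_reducible exact IntF.fst' | with_reducible exact IntF.snd' | with_reducible exact IntF.const _ | with_reducible exact Int.const _ | assumption | with_reducible apply Int.and | with_reducible apply Int.or | with_reducible apply Int.not | with_reducible apply Int.imp | with_reducible apply Int.iff | with_reducible apply Int.ne | with_reducible apply Int.eq | with_reducible apply Int.mem | with_reducible apply Int.subset | with_reducible apply Int.ltN | with_reducible apply Int.leN | with_reducible apply Int.fin | with_reducible apply Int.unique | with_reducible apply Int.all | with_reducible apply Int.ex | with_reducible apply IntF.fst | with_reducible apply IntF.snd | with_reducible apply IntF.app | with_reducible apply IntF.ite | with_reducible apply IntF.sep | with_reducible apply IntF.lam | with_reducible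 apply IntF.insert | with_reducible apply IntF.singleton | with_reducible apply IntF.union | with_reducible apply IntF.inter | with_reducible apply IntF.sdiff | with_reducible apply IntF.isUnion | with_reducible apply IntF.iimage | with_reducible apply IntF.the | with_reducible apply IntF.irec | with_reducible_and_instances apply IntF.add | with_reducible_and_instances apply IntF.mul | with_reducible apply IntF.succ | with_reducible apply IntF.val | (with_reducible refine Int.comp ?_ ?_; assumption) | (with_reducible refine Int.comp₂ ?_ ?_ ?_; assumption) | (with_reducible refine Int.comp₃ ?_ ?_ ?_ ?_; assumption) | (with_reducible refine IntF.comp ?_ ?_; assumption) | (with_reducible refine IntF.comp₂ ?_ ?_ ?_; assumption) | (with_reducible refine IntF.comp₃ ?_ ?_ ?_ ?_; assumption) | with_reducible apply IntF.pair))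

theorem st_zero (c : CF M α) (s : IPow M (INat M)) : S.st c s 0 = S.A := by
  unfold st
  exact irec_zero (by (repeat' (first | with_reducible exact IntF.id | with_reducible exact IntF.fst' | with_reducible exact IntF.snd' | with_reducible exact IntF.const _ | with_reducible exact Int.const _ | assumption | with_reducible apply Int.and | with_reducible apply Int.or | with_reducible apply Int.not | with_reducible apply Int.imp | with_reducible apply Int.iff | with_reducible apply Int.ne | with_reducible apply Int.eq | with_reducible apply Int.mem | with_reducible apply Int.subset | with_reducible apply Int.ltN | with_reducible apply Int.leN | with_reducible apply Int.fin | with_reducible apply Int.unique | with_reducible apply Int.all | with_reducible apply Int.ex | with_reducible apply IntF.fst | with_reducible apply IntF.snd | with_reducible apply IntF.app | with_reducible apply IntF.ite | with_reducible apply IntF.sep | with_reducible apply IntF.lam | with_reducible apply IntF.insert | with_reducible apply IntF.singleton | with_reducible apply IntF.union | with_reducible apply IntF.inter | with_reducible apply IntF.sdiff | with_reducible apply IntF.isUnion | with_reducible apply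 IntF.iimage | with_reducible apply IntF.the | with_reducible apply IntF.irec | with_reducible_and_instances apply IntF.add | with_reducible_and_instances apply IntF.mul | with_reducible apply IntF.succ | with_reducible apply IntF.val | (with_reducible refine Int.comp ?_ ?_; assumption) | (with_reducible refine Int.comp₂ ?_ ?_ ?_; assumption) | (with_reducible refine Int.comp₃ ?_ ?_ ?_ ?_; assumption) | (with_reducible refine IntF.comp ?_ ?_; assumption) | (with_reducible refine IntF.comp₂ ?_ ?_ ?_; assumption) | (with_reducible refine IntF.comp₃ ?_ ?_ ?_ ?_; assumption) | with_reducible apply IntF.pair)))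

theorem st_succ' (c : CF M α) (s : IPow M (INat M)) (m : INat M) : S.st c s m.succ =
    sep M fun x => (m ∈ s ∧ x ∈ (c (m, S.st c s m)).2) ∨
      (¬ m ∈ s ∧ x ∈ (c (m, S.st c s m)).1) :=
  irec_succ (a := S.A) (f := fun m W => sep M fun x => (m ∈ s ∧ x ∈ (c (m, W)).2) ∨
    (¬ m ∈ s ∧ x ∈ (c (m, W)).1)) (by (repeat' (first | with_reducible exact IntF.id | with_reducible exact IntF.fst' | with_reducible exact IntF.snd' | with_reducible exact IntF.const _ | with_reducible exact Int.const _ | assumption | with_reducible apply Int.and | with_reducible apply Int.or | with_reducible apply Int.not | with_reducible apply Int.imp | with_reducible apply Int.iff | with_reducible apply Int.ne | with_reducible apply Int.eq | with_reducible apply Int.mem | with_reducible apply Int.subset | with_reducible apply Int.ltN | with_reducible apply Int.leN | with_reducible apply Int.fin | with_reducible apply Int.unique | with_reducible apply Int.all | with_reducible apply Int.ex | with_reducible apply IntF.fst | with_reducible apply IntF.snd | with_reducible apply IntF.app | with_reducible apply IntF.ite | with_reducible apply IntF.sep | with_reducible apply IntF.lam | with_reducible apply IntF.insert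 | with_reducible apply IntF.singleton | with_reducible apply IntF.union | with_reducible apply IntF.inter | with_reducible apply IntF.sdiff | with_reducible apply IntF.isUnion | with_reducible apply IntF.iimage | with_reducible apply IntF.the | with_reducible apply IntF.irec | with_reducible_and_instances apply IntF.add | with_reducible_and_instances apply IntF.mul | with_reducible apply IntF.succ | with_reducible apply IntF.val | (with_reducible refine Int.comp ?_ ?_; assumption) | (with_reducible refine Int.comp₂ ?_ ?_ ?_; assumption) | (with_reducible refine Int.comp₃ ?_ ?_ ?_ ?_; assumption) | (with_reducible refine IntF.comp ?_ ?_; assumption) | (with_reducible refine IntF.comp₂ ?_ ?_ ?_; assumption) | (with_reducible refine IntF.comp₃ ?_ ?_ ?_ ?_; assumption) | with_reducible apply IntF.pair))) m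

theorem st_succ₂ (c : CF M α) {s : IPow M (INat M)} {m : INat M} (h : m ∈ s) :
    S.st c s m.succ = (c (m, S.st c s m)).2 := by
  rw [st_succ']
  refine IPow.ext' fun x => ?_
  rw [mem_sep (by (repeat' (first | with_reducible exact IntF.id | with_reducible exact IntF.fst' | with_reducible exact IntF.snd' | with_reducible exact IntF.const _ | with_reducible exact Int.const _ | assumption | with_reducible apply Int.and | with_reducible apply Int.or | with_reducible apply Int.not | with_reducible apply Int.imp | with_reducible apply Int.iff | with_reducible apply Int.ne | with_reducible apply Int.eq | with_reducible apply Int.mem | with_reducible apply Int.subset | with_reducible apply Int.ltN | with_reducible apply Int.leN | with_reducible apply Int.fin | with_reducible apply Int.unique | with_reducible apply Int.all | with_reducible apply Int.ex | with_reducible apply IntF.fst | with_reducible apply IntF.snd | with_reducible apply IntF.app | with_reducible apply IntF.ite | with_reducible apply IntF.sep | with_reducible apply IntF.lam | with_reducible apply IntF.insert | with_reducible apply IntF.singleton | with_reducible apply IntF.union | with_reducible apply IntF.inter | with_reducible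 apply IntF.sdiff | with_reducible apply IntF.isUnion | with_reducible apply IntF.iimage | with_reducible apply IntF.the | with_reducible apply IntF.irec | with_reducible_and_instances apply IntF.add | with_reducible_and_instances apply IntF.mul | with_reducible apply IntF.succ | with_reducible apply IntF.val | (with_reducible refine Int.comp ?_ ?_; assumption) | (with_reducible refine Int.comp₂ ?_ ?_ ?_; assumption) | (with_reducible refine Int.comp₃ ?_ ?_ ?_ ?_; assumption) | (with_reducible refine IntF.comp ?_ ?_; assumption) | (with_reducible refine IntF.comp₂ ?_ ?_ ?_; assumption) | (with_reducible refine IntF.comp₃ ?_ ?_ ?_ ?_; assumption) | with_reducible apply IntF.pair)))]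
  exact ⟨fun h1 => h1.elim (fun h => h.2) fun h2 => absurd h h2.1, fun h1 => Or.inl ⟨h, h1⟩⟩

theorem st_succ₁ (c : CF M α) {s : IPow M (INat M)} {m : INat M} (h : ¬ m ∈ s) :
    S.st c s m.succ = (c (m, S.st c s m)).1 := by
  rw [st_succ']
  refine IPow.ext' fun x => ?_
  rw [mem_sep (by (repeat' (first | with_reducible exact IntF.id | with_reducible exact IntF.fst' | with_reducible exact IntF.snd' | with_reducible exact IntF.const _ | with_reducible exact Int.const _ | assumption | with_reducible apply Int.and | with_reducible apply Int.or | with_reducible apply Int.not | with_reducible apply Int.imp | with_reducible apply Int.iff | with_reducible apply Int.ne | with_reducible apply Int.eq | with_reducible apply Int.mem | with_reducible apply Int.subset | with_reducible apply Int.ltN | with_reducible apply Int.leN | with_reducible apply Int.fin | with_reducible apply Int.unique | with_reducible apply Int.all | with_reducible apply Int.ex | with_reducible apply IntF.fst | with_reducible apply IntF.snd | with_reducible apply IntF.app | with_reducible apply IntF.ite | with_reducible apply IntF.sep | with_reducible apply IntF.lam | with_reducible apply IntF.insert | with_reducible apply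 IntF.singleton | with_reducible apply IntF.union | with_reducible apply IntF.inter | with_reducible apply IntF.sdiff | with_reducible apply IntF.isUnion | with_reducible apply IntF.iimage | with_reducible apply IntF.the | with_reducible apply IntF.irec | with_reducible_and_instances apply IntF.add | with_reducible_and_instances apply IntF.mul | with_reducible apply IntF.succ | with_reducible apply IntF.val | (with_reducible refine Int.comp ?_ ?_; assumption) | (with_reducible refine Int.comp₂ ?_ ?_ ?_; assumption) | (with_reducible refine Int.comp₃ ?_ ?_ ?_ ?_; assumption) | (with_reducible refine IntF.comp ?_ ?_; assumption) | (with_reducible refine IntF.comp₂ ?_ ?_ ?_; assumption) | (with_reducible refine IntF.comp₃ ?_ ?_ ?_ ?_; assumption) | with_reducible apply IntF.pair)))]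
  exact ⟨fun h1 => h1.elim (fun h2 => absurd h2.1 h) fun h2 => h2.2, fun h1 => Or.inr ⟨h, h1⟩⟩

theorem st_congr {c c' : CF M α} {s s' : IPow M (INat M)} (n : INat M)
    (hc : ∀ q : INat M × IPow M α, q.1 < n → c q = c' q) (hs : ∀ m, m < n → (m ∈ s ↔ m ∈ s')) :
    ∀ m, m ≤ n → S.st c s m = S.st c' s' m := by
  have h0 := S.int_st
  refine INat.ind (p := fun m => m ≤ n → S.st c s m = S.st c' s' m)
    (by (repeat' (first | with_reducible apply IntF.comp₃ h0 | with_reducible exact IntF.id | with_reducible exact IntF.fst' | with_reducible exact IntF.snd' | with_reducible exact IntF.const _ | with_reducible exact Int.const _ | assumption | with_reducible apply Int.and | with_reducible apply Int.or | with_reducible apply Int.not | with_reducible apply Int.imp | with_reducible apply Int.iff | with_reducible apply Int.ne | with_reducible apply Int.eq | with_reducible apply Int.mem | with_reducible apply Int.subset | with_reducible apply Int.ltN | with_reducible apply Int.leN | with_reducible_and_instances apply Int.le | with_reducible_and_instances apply Int.lt | with_reducible apply Int.all | with_reducible apply Int.ex | with_reducible apply IntF.fst | with_reducible apply IntF.snd |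 with_reducible apply IntF.app | with_reducible apply IntF.inl | with_reducible apply IntF.inr | with_reducible_and_instances apply IntF.mul | with_reducible_and_instances apply IntF.inv | with_reducible_and_instances apply IntF.add | with_reducible_and_instances apply IntF.sub | with_reducible_and_instances apply IntF.neg | with_reducible_and_instances apply IntF.smul | with_reducible apply Int.fin | with_reducible apply IntF.sep | with_reducible apply IntF.lam | with_reducible apply IntF.insert | with_reducible apply IntF.singleton | with_reducible apply IntF.union | with_reducible apply IntF.iimage | with_reducible apply IntF.ite | with_reducible apply IntF.the | with_reducible apply IntF.irec | with_reducible apply IntF.succ | with_reducible apply IntF.val | with_reducible apply IntF.mk | (with_reducible refine Int.comp ?_ ?_; assumption) | (with_reducible refine Int.comp₂ ?_ ?_ ?_; assumption) | (with_reducible refine Int.comp₃ ?_ ?_ ?_ ?_; assumption) | (with_reducible refine Int.comp₄ ?_ ?_ ?_ ?_ ?_; assumption) | (with_reducible refine IntF.comp ?_ ?_; assumption) | (with_reducible refine IntF.comp₂ ?_ ?_ ?_; assumption) | (with_reducible refine IntF.comp₃ ?_ ?_ ?_ ?_; assumption)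 | with_reducible apply IntF.pair))) ?_ ?_
  · intro _
    rw [st_zero, st_zero]
  · intro m ih hm
    have hm' : m < n := INat.succ_le_iff.1 hm
    have h1 := ih (le_of_lt hm')
    by_cases h2 : m ∈ s
    · rw [S.st_succ₂ c h2, S.st_succ₂ c' ((hs m hm').1 h2), ← h1, hc _ hm']
    · rw [S.st_succ₁ c h2, S.st_succ₁ c' fun h3 => h2 ((hs m hm').2 h3), ← h1, hc _ hm']

variable {S} {e : INat M × CF M α}

theorem st_mem (he : e ∈ S.Nd) (s : IPow M (INat M)) (m : INat M) : m ≤ e.1 →
    S.st e.2 s m ∈ S.Wl m := by
  have h0 := S.int_st
  have h1 := S.int_Wl
  refine INat.ind (p := fun m => m ≤ e.1 → S.st e.2 s m ∈ S.Wl m)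
    (by (repeat' (first | with_reducible apply IntF.comp₃ h0 | with_reducible apply IntF.comp h1 | with_reducible exact IntF.id | with_reducible exact IntF.fst' | with_reducible exact IntF.snd' | with_reducible exact IntF.const _ | with_reducible exact Int.const _ | assumption | with_reducible apply Int.and | with_reducible apply Int.or | with_reducible apply Int.not | with_reducible apply Int.imp | with_reducible apply Int.iff | with_reducible apply Int.ne | with_reducible apply Int.eq | with_reducible apply Int.mem | with_reducible apply Int.subset | with_reducible apply Int.ltN | with_reducible apply Int.leN | with_reducible_and_instances apply Int.le | with_reducible_and_instances apply Int.lt | with_reducible apply Int.all | with_reducible apply Int.ex | with_reducible apply IntF.fst | with_reducible apply IntF.snd | with_reducible apply IntF.app | with_reducible apply IntF.inl | with_reducible apply IntF.inr | with_reducible_and_instances apply IntF.mul | with_reducible_and_instances apply IntF.inv | with_reducible_and_instances apply IntF.add | with_reducible_and_instances apply IntF.sub | with_reducible_and_instances apply IntF.neg | with_reducible_and_instances apply IntF.smul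 | with_reducible apply Int.fin | with_reducible apply IntF.sep | with_reducible apply IntF.lam | with_reducible apply IntF.insert | with_reducible apply IntF.singleton | with_reducible apply IntF.union | with_reducible apply IntF.iimage | with_reducible apply IntF.ite | with_reducible apply IntF.the | with_reducible apply IntF.irec | with_reducible apply IntF.succ | with_reducible apply IntF.val | with_reducible apply IntF.mk | (with_reducible refine Int.comp ?_ ?_; assumption) | (with_reducible refine Int.comp₂ ?_ ?_ ?_; assumption) | (with_reducible refine Int.comp₃ ?_ ?_ ?_ ?_; assumption) | (with_reducible refine Int.comp₄ ?_ ?_ ?_ ?_ ?_; assumption) | (with_reducible refine IntF.comp ?_ ?_; assumption) | (with_reducible refine IntF.comp₂ ?_ ?_ ?_; assumption) | (with_reducible refine IntF.comp₃ ?_ ?_ ?_ ?_; assumption) | with_reducible apply IntF.pair))) ?_ ?_ m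
  · intro _
    rw [S.st_zero, S.Wl_zero, mem_singleton]
  · intro m ih hm
    have hm' : m < e.1 := INat.succ_le_iff.1 hm
    have h2 := ih (le_of_lt hm')
    have h3 := (S.mem_Nd.1 he).1 (m, S.st e.2 s m) (S.mem_Z.2 ⟨hm', h2⟩)
    refine S.mem_Wl_succ.2 ⟨_, h2, _, h3, ?_⟩
    by_cases h4 : m ∈ s
    · exact Or.inr (S.st_succ₂ _ h4)
    · exact Or.inl (S.st_succ₁ _ h4)

theorem st_adm (he : e ∈ S.Nd) (s : IPow M (INat M)) {m : INat M} (hm : m < e.1) :
    S.Adm (m, S.st e.2 s m) (e.2 (m, S.st e.2 s m)) :=
  (S.mem_Nd.1 he).1 _ (S.mem_Z.2 ⟨hm, st_mem he s m (le_of_lt hm)⟩)

theorem st_step (he : e ∈ S.Nd) (s : IPow M (INat M)) {m : INat M} (hm : m < e.1) :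
    (∀ x, x ∈ S.st e.2 s m.succ → x ∈ S.st e.2 s m) ∧ S.sm m (S.st e.2 s m.succ) := by
  obtain ⟨k, ⟨h1, -, -, h2, -⟩, -⟩ := st_adm he s hm
  by_cases h4 : m ∈ s
  · rw [S.st_succ₂ _ h4]
    exact ⟨h1.2, h2.2⟩
  · rw [S.st_succ₁ _ h4]
    exact ⟨h1.1, h2.1⟩

theorem st_anti (he : e ∈ S.Nd) (s : IPow M (INat M)) {m : INat M} (n : INat M) :
    m ≤ n → n ≤ e.1 → ∀ x, x ∈ S.st e.2 s n → x ∈ S.st e.2 s m := by
  have h0 := S.int_st
  refine INat.ind (p := fun n => m ≤ n → n ≤ e.1 → ∀ x, x ∈ S.st e.2 s n → x ∈ S.st e.2 s m)
    (by (repeat' (first | with_reducible apply IntF.comp₃ h0 | with_reducible exact IntF.id | with_reducible exact IntF.fst' | with_reducible exact IntF.snd' | with_reducible exact IntF.const _ | with_reducible exact Int.const _ | assumption | with_reducible apply Int.and | with_reducible apply Int.or | with_reducible apply Int.not | with_reducible apply Int.imp | with_reducible apply Int.iff | with_reducible apply Int.ne | with_reducible apply Int.eq | with_reducible apply Int.mem | with_reducible apply Int.subset | with_reducible apply Int.ltN | with_reducible apply Int.leN | with_reducible_and_instances apply Int.le | with_reducible_and_instances apply Int.lt | with_reducible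 apply Int.all | with_reducible apply Int.ex | with_reducible apply IntF.fst | with_reducible apply IntF.snd | with_reducible apply IntF.app | with_reducible apply IntF.inl | with_reducible apply IntF.inr | with_reducible_and_instances apply IntF.mul | with_reducible_and_instances apply IntF.inv | with_reducible_and_instances apply IntF.add | with_reducible_and_instances apply IntF.sub | with_reducible_and_instances apply IntF.neg | with_reducible_and_instances apply IntF.smul | with_reducible apply Int.fin | with_reducible apply IntF.sep | with_reducible apply IntF.lam | with_reducible apply IntF.insert | with_reducible apply IntF.singleton | with_reducible apply IntF.union | with_reducible apply IntF.iimage | with_reducible apply IntF.ite | with_reducible apply IntF.the | with_reducible apply IntF.irec | with_reducible apply IntF.succ | with_reducible apply IntF.val | with_reducible apply IntF.mk | (with_reducible refine Int.comp ?_ ?_; assumption) | (with_reducible refine Int.comp₂ ?_ ?_ ?_; assumption) | (with_reducible refine Int.comp₃ ?_ ?_ ?_ ?_; assumption) | (with_reducible refine Int.comp₄ ?_ ?_ ?_ ?_ ?_; assumption) | (with_reducible refine IntF.comp ?_ ?_; assumption) |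 (with_reducible refine IntF.comp₂ ?_ ?_ ?_; assumption) | (with_reducible refine IntF.comp₃ ?_ ?_ ?_ ?_; assumption) | with_reducible apply IntF.pair))) ?_ ?_ n
  · intro h1 _ x hx
    rw [le_antisymm h1 (INat.zero_le _)]
    exact hx
  · intro n ih h1 h2 x hx
    rcases le_iff_eq_or_lt.1 h1 with h3 | h3
    · rw [h3]
      exact hx
    · have h4 : n < e.1 := INat.succ_le_iff.1 h2
      exact ih (INat.lt_succ_iff.1 h3) (le_of_lt h4) x ((st_step he s h4).1 x hx)

theorem st_ne (he : e ∈ S.Nd) (s : IPow M (INat M)) {m : INat M} (hm : m ≤ e.1) :
    ∃ x, x ∈ S.st e.2 s m := (S.Wl_tr m (st_mem he s m hm)).1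

theorem trn_mem (he : e ∈ S.Nd) {m : INat M} (hm : m ≤ e.1) : (m, trn m e.2) ∈ S.Nd := by
  obtain ⟨h1, h2⟩ := S.mem_Nd.1 he
  refine S.mem_Nd.2 ⟨fun q hq => ?_, fun q hq => ?_⟩
  · have h3 := S.mem_Z.1 hq
    have h4 : q.1 < m := h3.1
    show S.Adm q (trn m e.2 q)
    rw [trn_lt h4]
    exact h1 q (S.mem_Z.2 ⟨lt_of_lt_of_le h4 hm, h3.2⟩)
  · show trn m e.2 q = (∅, ∅)
    by_cases h4 : q.1 < m
    · rw [trn_lt h4]
      refine h2 q fun h5 => hq (S.mem_Z.2 ⟨h4, (S.mem_Z.1 h5).2⟩)
    · exact trn_ge h4

theorem trn_trn {m n : INat M} (h : m ≤ n) (c : CF M α) : trn m (trn n c) = trn m c := by
  refine IFun.ext' fun q => ?_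
  by_cases h1 : q.1 < m
  · rw [trn_lt h1, trn_lt h1, trn_lt (lt_of_lt_of_le h1 h)]
  · rw [trn_ge h1, trn_ge h1]

theorem trn_self (he : e ∈ S.Nd) : trn e.1 e.2 = e.2 := by
  obtain ⟨h1, h2⟩ := S.mem_Nd.1 he
  refine IFun.ext' fun q => ?_
  by_cases h3 : q.1 < e.1
  · rw [trn_lt h3]
  · rw [trn_ge h3, h2 q fun h4 => h3 (S.mem_Z.1 h4).1]

variable (S)

/-- The level. -/
noncomputable def lev' : IFun M (INat M × CF M α) (INat M) := ⟨fun e => e.1, IntF.fst'⟩

/-- Restriction. -/
noncomputable def re' : IFun M (INat M × (INat M × CF M α)) (INat M × CF M α) :=
  ⟨fun w => (w.1, trn w.1 w.2.2), by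
    have h1 := int_trn (M := M) (α := α)
    (repeat' (first | with_reducible apply IntF.comp₂ h1 | with_reducible exact IntF.id | with_reducible exact IntF.fst' | with_reducible exact IntF.snd' | with_reducible exact IntF.const _ | with_reducible exact Int.const _ | assumption | with_reducible apply Int.and | with_reducible apply Int.or | with_reducible apply Int.not | with_reducible apply Int.imp | with_reducible apply Int.iff | with_reducible apply Int.ne | with_reducible apply Int.eq | with_reducible apply Int.mem | with_reducible apply Int.subset | with_reducible apply Int.ltN | with_reducible apply Int.leN | with_reducible_and_instances apply Int.le | with_reducible_and_instances apply Int.lt | with_reducible apply Int.all | with_reducible apply Int.ex | with_reducible apply IntF.fst | with_reducible apply IntF.snd | with_reducible apply IntF.app | with_reducible apply IntF.inl | with_reducible apply IntF.inr | with_reducible_and_instances apply IntF.mul | with_reducible_and_instances apply IntF.inv | with_reducible_and_instances apply IntF.add | with_reducible_and_instances apply IntF.sub | with_reducible_and_instances apply IntF.neg | with_reducible_and_instances apply IntF.smul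 | with_reducible apply Int.fin | with_reducible apply IntF.sep | with_reducible apply IntF.lam | with_reducible apply IntF.insert | with_reducible apply IntF.singleton | with_reducible apply IntF.union | with_reducible apply IntF.iimage | with_reducible apply IntF.ite | with_reducible apply IntF.the | with_reducible apply IntF.irec | with_reducible apply IntF.succ | with_reducible apply IntF.val | with_reducible apply IntF.mk | (with_reducible refine Int.comp ?_ ?_; assumption) | (with_reducible refine Int.comp₂ ?_ ?_ ?_; assumption) | (with_reducible refine Int.comp₃ ?_ ?_ ?_ ?_; assumption) | (with_reducible refine Int.comp₄ ?_ ?_ ?_ ?_ ?_; assumption) | (with_reducible refine IntF.comp ?_ ?_; assumption) | (with_reducible refine IntF.comp₂ ?_ ?_ ?_; assumption) | (with_reducible refine IntF.comp₃ ?_ ?_ ?_ ?_; assumption) | with_reducible apply IntF.pair))⟩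

/-- The closed sets. -/
noncomputable def K' : IFun M ((INat M × CF M α) × IPow M (INat M)) (IPow M α) :=
  ⟨fun w => S.cl (S.st w.1.2 w.2 w.1.1), by
    have h1 := S.int_st
    have h2 := S.int_cl
    (repeat' (first | with_reducible apply IntF.comp h2 | with_reducible apply IntF.comp₃ h1 | with_reducible exact IntF.id | with_reducible exact IntF.fst' | with_reducible exact IntF.snd' | with_reducible exact IntF.const _ | with_reducible exact Int.const _ | assumption | with_reducible apply Int.and | with_reducible apply Int.or | with_reducible apply Int.not | with_reducible apply Int.imp | with_reducible apply Int.iff | with_reducible apply Int.ne | with_reducible apply Int.eq | with_reducible apply Int.mem | with_reducible apply Int.subset | with_reducible apply Int.ltN | with_reducible apply Int.leN | with_reducible_and_instances apply Int.le | with_reducible_and_instances apply Int.lt | with_reducible apply Int.all | with_reducible apply Int.ex | with_reducible apply IntF.fst | with_reducible apply IntF.snd | with_reducible apply IntF.app | with_reducible apply IntF.inl | with_reducible apply IntF.inr | with_reducible_and_instances apply IntF.mul | with_reducible_and_instances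 apply IntF.inv | with_reducible_and_instances apply IntF.add | with_reducible_and_instances apply IntF.sub | with_reducible_and_instances apply IntF.neg | with_reducible_and_instances apply IntF.smul | with_reducible apply Int.fin | with_reducible apply IntF.sep | with_reducible apply IntF.lam | with_reducible apply IntF.insert | with_reducible apply IntF.singleton | with_reducible apply IntF.union | with_reducible apply IntF.iimage | with_reducible apply IntF.ite | with_reducible apply IntF.the | with_reducible apply IntF.irec | with_reducible apply IntF.succ | with_reducible apply IntF.val | with_reducible apply IntF.mk | (with_reducible refine Int.comp ?_ ?_; assumption) | (with_reducible refine Int.comp₂ ?_ ?_ ?_; assumption) | (with_reducible refine Int.comp₃ ?_ ?_ ?_ ?_; assumption) | (with_reducible refine Int.comp₄ ?_ ?_ ?_ ?_ ?_; assumption) | (with_reducible refine IntF.comp ?_ ?_; assumption) | (with_reducible refine IntF.comp₂ ?_ ?_ ?_; assumption) | (with_reducible refine IntF.comp₃ ?_ ?_ ?_ ?_; assumption) | with_reducible apply IntF.pair))⟩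

theorem ext' (he : e ∈ S.Nd) : ∃ e', e' ∈ S.Nd ∧ e'.1 = e.1.succ ∧ trn e.1 e'.2 = e.2 := by
  have h0 := S.int_Adm
  obtain ⟨h1, h2⟩ := S.mem_Nd.1 he
  obtain ⟨g, hg, hg'⟩ := fin_choice (R := fun q p => S.Adm q p) h0 (∅, ∅) (S.Z_fin e.1.succ)
    fun q hq => exists_Adm (S.Wl_tr _ (S.mem_Z.1 hq).2) q.1
  have ic : IntF M (fun q : INat M × IPow M α =>
      (sep M fun x => (q.1 < e.1 ∧ x ∈ (e.2 q).1) ∨ (¬ q.1 < e.1 ∧ x ∈ (g q).1),
      sep M fun x => (q.1 < e.1 ∧ x ∈ (e.2 q).2) ∨ (¬ q.1 < e.1 ∧ x ∈ (g q).2))) := by (repeat' (first | with_reducible exact IntF.id | with_reducible exact IntF.fst' | with_reducible exact IntF.snd' | with_reducible exact IntF.const _ | with_reducible exact Int.const _ | assumption | with_reducible apply Int.and | with_reducible apply Int.or | with_reducible apply Int.not | with_reducible apply Int.imp | with_reducible apply Int.iff | with_reducible apply Int.ne | with_reducible apply Int.eq | with_reducible apply Int.mem | with_reducible apply Int.subset | with_reducible apply Int.ltN | with_reducible apply Int.leN | with_reducible apply Int.fin | with_reducible apply Int.unique | with_reducible apply Int.all | with_reducible apply Int.ex | with_reducible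 apply IntF.fst | with_reducible apply IntF.snd | with_reducible apply IntF.app | with_reducible apply IntF.ite | with_reducible apply IntF.sep | with_reducible apply IntF.lam | with_reducible apply IntF.insert | with_reducible apply IntF.singleton | with_reducible apply IntF.union | with_reducible apply IntF.inter | with_reducible apply IntF.sdiff | with_reducible apply IntF.isUnion | with_reducible apply IntF.iimage | with_reducible apply IntF.the | with_reducible apply IntF.irec | with_reducible_and_instances apply IntF.add | with_reducible_and_instances apply IntF.mul | with_reducible apply IntF.succ | with_reducible apply IntF.val | (with_reducible refine Int.comp ?_ ?_; assumption) | (with_reducible refine Int.comp₂ ?_ ?_ ?_; assumption) | (with_reducible refine Int.comp₃ ?_ ?_ ?_ ?_; assumption) | (with_reducible refine IntF.comp ?_ ?_; assumption) | (with_reducible refine IntF.comp₂ ?_ ?_ ?_; assumption) | (with_reducible refine IntF.comp₃ ?_ ?_ ?_ ?_; assumption) | with_reducible apply IntF.pair))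
  obtain ⟨c, hc⟩ : ∃ c : CF M α, ∀ q, c q =
      (sep M fun x => (q.1 < e.1 ∧ x ∈ (e.2 q).1) ∨ (¬ q.1 < e.1 ∧ x ∈ (g q).1),
      sep M fun x => (q.1 < e.1 ∧ x ∈ (e.2 q).2) ∨ (¬ q.1 < e.1 ∧ x ∈ (g q).2)) :=
    ⟨lam M _, fun q => lam_apply ic q⟩
  have hc1 : ∀ q : INat M × IPow M α, q.1 < e.1 → c q = e.2 q := by
    intro q hq
    rw [hc q]
    refine Prod.ext (IPow.ext' fun x => ?_) (IPow.ext' fun x => ?_)
    · rw [mem_sep (by (repeat' (first | with_reducible exact IntF.id | with_reducible exact IntF.fst' | with_reducible exact IntF.snd' | with_reducible exact IntF.const _ | with_reducible exact Int.const _ | assumption | with_reducible apply Int.and | with_reducible apply Int.or | with_reducible apply Int.not | with_reducible apply Int.imp | with_reducible apply Int.iff | with_reducible apply Int.ne | with_reducible apply Int.eq | with_reducible apply Int.mem | with_reducible apply Int.subset | with_reducible apply Int.ltN | with_reducible apply Int.leN | with_reducible apply Int.fin | with_reducible apply Int.unique | with_reducible apply Int.all | with_reducible apply Int.ex | with_reducible apply IntF.fst | with_reducible apply IntF.snd | with_reducible apply IntF.app | with_reducible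 apply IntF.ite | with_reducible apply IntF.sep | with_reducible apply IntF.lam | with_reducible apply IntF.insert | with_reducible apply IntF.singleton | with_reducible apply IntF.union | with_reducible apply IntF.inter | with_reducible apply IntF.sdiff | with_reducible apply IntF.isUnion | with_reducible apply IntF.iimage | with_reducible apply IntF.the | with_reducible apply IntF.irec | with_reducible_and_instances apply IntF.add | with_reducible_and_instances apply IntF.mul | with_reducible apply IntF.succ | with_reducible apply IntF.val | (with_reducible refine Int.comp ?_ ?_; assumption) | (with_reducible refine Int.comp₂ ?_ ?_ ?_; assumption) | (with_reducible refine Int.comp₃ ?_ ?_ ?_ ?_; assumption) | (with_reducible refine IntF.comp ?_ ?_; assumption) | (with_reducible refine IntF.comp₂ ?_ ?_ ?_; assumption) | (with_reducible refine IntF.comp₃ ?_ ?_ ?_ ?_; assumption) | with_reducible apply IntF.pair)))]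
      exact ⟨fun h => h.elim (fun h => h.2) fun h => absurd hq h.1, fun h => Or.inl ⟨hq, h⟩⟩
    · rw [mem_sep (by (repeat' (first | with_reducible exact IntF.id | with_reducible exact IntF.fst' | with_reducible exact IntF.snd' | with_reducible exact IntF.const _ | with_reducible exact Int.const _ | assumption | with_reducible apply Int.and | with_reducible apply Int.or | with_reducible apply Int.not | with_reducible apply Int.imp | with_reducible apply Int.iff | with_reducible apply Int.ne | with_reducible apply Int.eq | with_reducible apply Int.mem | with_reducible apply Int.subset | with_reducible apply Int.ltN | with_reducible apply Int.leN | with_reducible apply Int.fin | with_reducible apply Int.unique | with_reducible apply Int.all | with_reducible apply Int.ex | with_reducible apply IntF.fst | with_reducible apply IntF.snd | with_reducible apply IntF.app | with_reducible apply IntF.ite | with_reducible apply IntF.sep | with_reducible apply IntF.lam | with_reducible apply IntF.insert | with_reducible apply IntF.singleton | with_reducible apply IntF.union | with_reducible apply IntF.inter | with_reducible apply IntF.sdiff | with_reducible apply IntF.isUnion | with_reducible apply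 IntF.iimage | with_reducible apply IntF.the | with_reducible apply IntF.irec | with_reducible_and_instances apply IntF.add | with_reducible_and_instances apply IntF.mul | with_reducible apply IntF.succ | with_reducible apply IntF.val | (with_reducible refine Int.comp ?_ ?_; assumption) | (with_reducible refine Int.comp₂ ?_ ?_ ?_; assumption) | (with_reducible refine Int.comp₃ ?_ ?_ ?_ ?_; assumption) | (with_reducible refine IntF.comp ?_ ?_; assumption) | (with_reducible refine IntF.comp₂ ?_ ?_ ?_; assumption) | (with_reducible refine IntF.comp₃ ?_ ?_ ?_ ?_; assumption) | with_reducible apply IntF.pair)))]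
      exact ⟨fun h => h.elim (fun h => h.2) fun h => absurd hq h.1, fun h => Or.inl ⟨hq, h⟩⟩
  have hc2 : ∀ q : INat M × IPow M α, ¬ q.1 < e.1 → c q = g q := by
    intro q hq
    rw [hc q]
    refine Prod.ext (IPow.ext' fun x => ?_) (IPow.ext' fun x => ?_)
    · rw [mem_sep (by (repeat' (first | with_reducible exact IntF.id | with_reducible exact IntF.fst' | with_reducible exact IntF.snd' | with_reducible exact IntF.const _ | with_reducible exact Int.const _ | assumption | with_reducible apply Int.and | with_reducible apply Int.or | with_reducible apply Int.not | with_reducible apply Int.imp | with_reducible apply Int.iff | with_reducible apply Int.ne | with_reducible apply Int.eq | with_reducible apply Int.mem | with_reducible apply Int.subset | with_reducible apply Int.ltN | with_reducible apply Int.leN | with_reducible apply Int.fin | with_reducible apply Int.unique | with_reducible apply Int.all | with_reducible apply Int.ex | with_reducible apply IntF.fst | with_reducible apply IntF.snd | with_reducible apply IntF.app | with_reducible apply IntF.ite | with_reducible apply IntF.sep | with_reducible apply IntF.lam | with_reducible apply IntF.insert | with_reducible apply IntF.singleton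 | with_reducible apply IntF.union | with_reducible apply IntF.inter | with_reducible apply IntF.sdiff | with_reducible apply IntF.isUnion | with_reducible apply IntF.iimage | with_reducible apply IntF.the | with_reducible apply IntF.irec | with_reducible_and_instances apply IntF.add | with_reducible_and_instances apply IntF.mul | with_reducible apply IntF.succ | with_reducible apply IntF.val | (with_reducible refine Int.comp ?_ ?_; assumption) | (with_reducible refine Int.comp₂ ?_ ?_ ?_; assumption) | (with_reducible refine Int.comp₃ ?_ ?_ ?_ ?_; assumption) | (with_reducible refine IntF.comp ?_ ?_; assumption) | (with_reducible refine IntF.comp₂ ?_ ?_ ?_; assumption) | (with_reducible refine IntF.comp₃ ?_ ?_ ?_ ?_; assumption) | with_reducible apply IntF.pair)))]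
      exact ⟨fun h => h.elim (fun h => absurd h.1 hq) fun h => h.2, fun h => Or.inr ⟨hq, h⟩⟩
    · rw [mem_sep (by (repeat' (first | with_reducible exact IntF.id | with_reducible exact IntF.fst' | with_reducible exact IntF.snd' | with_reducible exact IntF.const _ | with_reducible exact Int.const _ | assumption | with_reducible apply Int.and | with_reducible apply Int.or | with_reducible apply Int.not | with_reducible apply Int.imp | with_reducible apply Int.iff | with_reducible apply Int.ne | with_reducible apply Int.eq | with_reducible apply Int.mem | with_reducible apply Int.subset | with_reducible apply Int.ltN | with_reducible apply Int.leN | with_reducible apply Int.fin | with_reducible apply Int.unique | with_reducible apply Int.all | with_reducible apply Int.ex | with_reducible apply IntF.fst | with_reducible apply IntF.snd | with_reducible apply IntF.app | with_reducible apply IntF.ite | with_reducible apply IntF.sep | with_reducible apply IntF.lam | with_reducible apply IntF.insert | with_reducible apply IntF.singleton | with_reducible apply IntF.union | with_reducible apply IntF.inter | with_reducible apply IntF.sdiff | with_reducible apply IntF.isUnion | with_reducible apply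 IntF.iimage | with_reducible apply IntF.the | with_reducible apply IntF.irec | with_reducible_and_instances apply IntF.add | with_reducible_and_instances apply IntF.mul | with_reducible apply IntF.succ | with_reducible apply IntF.val | (with_reducible refine Int.comp ?_ ?_; assumption) | (with_reducible refine Int.comp₂ ?_ ?_ ?_; assumption) | (with_reducible refine Int.comp₃ ?_ ?_ ?_ ?_; assumption) | (with_reducible refine IntF.comp ?_ ?_; assumption) | (with_reducible refine IntF.comp₂ ?_ ?_ ?_; assumption) | (with_reducible refine IntF.comp₃ ?_ ?_ ?_ ?_; assumption) | with_reducible apply IntF.pair)))]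
      exact ⟨fun h => h.elim (fun h => absurd h.1 hq) fun h => h.2, fun h => Or.inr ⟨hq, h⟩⟩
  refine ⟨(e.1.succ, c), S.mem_Nd.2 ⟨fun q hq => ?_, fun q hq => ?_⟩, rfl,
    IFun.ext' fun q => ?_⟩
  · show S.Adm q (c q)
    by_cases h3 : q.1 < e.1
    · rw [hc1 q h3]
      exact h1 q (S.mem_Z.2 ⟨h3, (S.mem_Z.1 hq).2⟩)
    · rw [hc2 q h3]
      exact hg q hq
  · show c q = (∅, ∅)
    by_cases h3 : q.1 < e.1
    · rw [hc1 q h3]
      refine h2 q fun h4 => hq (S.mem_Z.2 ⟨lt_trans h3 (INat.lt_succ_self _), (S.mem_Z.1 h4).2⟩)
    · rw [hc2 q h3]
      exact hg' q hq
  · by_cases h3 : q.1 < e.1
    · rw [trn_lt h3]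
      exact hc1 q h3
    · rw [trn_ge h3]
      exact (h2 q fun h4 => h3 (S.mem_Z.1 h4).1).symm

/-- The set of the closed sets. -/
noncomputable def Cls : IPow M (IPow M α) := sep M fun C => icompl C ∈ S.Op

theorem mem_Cls {C : IPow M α} : C ∈ S.Cls ↔ icompl C ∈ S.Op := by
  unfold Cls
  exact mem_sep (Int.mem (IntF.icompl IntF.id) (IntF.const _))

/-- The tree of the space. -/
noncomputable def td : TD M α (INat M × CF M α) where
  Nd := S.Nd
  lev := lev'
  re := re'
  K := S.K'
  Cl := S.Cls
  F := S.F
  fin n := by
    have h1 := fin_pi (R := fun q p => S.Adm q p) S.int_Adm (∅, ∅) (S.Z_fin n)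
      fun q _ => finP_Adm q
    refine (h1.image (f := fun c => (n, c)) (by (repeat' (first | with_reducible exact IntF.id | with_reducible exact IntF.fst' | with_reducible exact IntF.snd' | with_reducible exact IntF.const _ | with_reducible exact Int.const _ | assumption | with_reducible apply Int.and | with_reducible apply Int.or | with_reducible apply Int.not | with_reducible apply Int.imp | with_reducible apply Int.iff | with_reducible apply Int.ne | with_reducible apply Int.eq | with_reducible apply Int.mem | with_reducible apply Int.subset | with_reducible apply Int.ltN | with_reducible apply Int.leN | with_reducible apply Int.fin | with_reducible apply Int.unique | with_reducible apply Int.all | with_reducible apply Int.ex | with_reducible apply IntF.fst | with_reducible apply IntF.snd | with_reducible apply IntF.app | with_reducible apply IntF.ite | with_reducible apply IntF.sep | with_reducible apply IntF.lam | with_reducible apply IntF.insert | with_reducible apply IntF.singleton | with_reducible apply IntF.union | with_reducible apply IntF.inter | with_reducible apply IntF.sdiff | with_reducible apply IntF.isUnion | with_reducible apply IntF.iimage | with_reducible apply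 IntF.the | with_reducible apply IntF.irec | with_reducible_and_instances apply IntF.add | with_reducible_and_instances apply IntF.mul | with_reducible apply IntF.succ | with_reducible apply IntF.val | (with_reducible refine Int.comp ?_ ?_; assumption) | (with_reducible refine Int.comp₂ ?_ ?_ ?_; assumption) | (with_reducible refine Int.comp₃ ?_ ?_ ?_ ?_; assumption) | (with_reducible refine IntF.comp ?_ ?_; assumption) | (with_reducible refine IntF.comp₂ ?_ ?_ ?_; assumption) | (with_reducible refine IntF.comp₃ ?_ ?_ ?_ ?_; assumption) | with_reducible apply IntF.pair)))).mono fun e he => ?_
    obtain ⟨he, hl⟩ := he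
    have hl' : e.1 = n := hl
    refine ⟨e.2, ?_, Prod.ext hl'.symm rfl⟩
    have h2 := S.mem_Nd.1 he
    rw [hl'] at h2
    exact h2
  re_nd m e he hm := ⟨trn_mem he hm, rfl⟩
  re_re m n e he hm hn := Prod.ext rfl (trn_trn hm e.2)
  re_self e he := Prod.ext rfl (trn_self he)
  root := by
    have h1 : IntF M (fun _ : INat M × IPow M α => ((∅, ∅) : IPow M α × IPow M α)) :=
      IntF.const _
    refine ⟨(0, lam M fun _ => (∅, ∅)), S.mem_Nd.2 ⟨fun q hq => ?_, fun q hq => ?_⟩, rfl⟩
    · exact absurd (S.mem_Z.1 hq).1 INat.not_lt_zero
    · exact lam_apply h1 q
  root_unique e e' he he' h0 h0' := by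
    have h0 : e.1 = 0 := h0
    have h0' : e'.1 = 0 := h0'
    refine Prod.ext (h0.trans h0'.symm) (IFun.ext' fun q => ?_)
    rw [(S.mem_Nd.1 he).2 q fun hq => ?_, (S.mem_Nd.1 he').2 q fun hq => ?_]
    · have := (S.mem_Z.1 hq).1
      rw [h0'] at this
      exact INat.not_lt_zero this
    · have := (S.mem_Z.1 hq).1
      rw [h0] at this
      exact INat.not_lt_zero this
  ext e he := by
    obtain ⟨e', h1, h2, h3⟩ := S.ext' he
    exact ⟨e', h1, h2, Prod.ext rfl h3⟩
  mono e he m hm s x hx := by
    show x ∈ S.cl (S.st (trn m e.2) s m)
    have h1 : S.st (trn m e.2) s m = S.st e.2 s m :=
      S.st_congr m (fun q hq => trn_lt hq) (fun _ _ => Iff.rfl) m le_rfl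
    rw [h1]
    exact S.cl_mono (st_anti he s e.1 hm le_rfl) hx
  dep e he s s' hs := by
    show S.cl (S.st e.2 s e.1) = S.cl (S.st e.2 s' e.1)
    rw [S.st_congr e.1 (fun _ _ => rfl) hs e.1 le_rfl]
  disj e he s s' m hm hne x hx hx' := by
    have iS := S.int_st
    obtain ⟨i, ⟨hi, hine⟩, hmin⟩ := INat.exists_least
      (p := fun i => i < e.1 ∧ ¬ (i ∈ s ↔ i ∈ s')) (by (repeat' (first | with_reducible exact IntF.id | with_reducible exact IntF.fst' | with_reducible exact IntF.snd' | with_reducible exact IntF.const _ | with_reducible exact Int.const _ | assumption | with_reducible apply Int.and | with_reducible apply Int.or | with_reducible apply Int.not | with_reducible apply Int.imp | with_reducible apply Int.iff | with_reducible apply Int.ne | with_reducible apply Int.eq | with_reducible apply Int.mem | with_reducible apply Int.subset | with_reducible apply Int.ltN | with_reducible apply Int.leN | with_reducible apply Int.fin | with_reducible apply Int.unique | with_reducible apply Int.all | with_reducible apply Int.ex | with_reducible apply IntF.fst | with_reducible apply IntF.snd | with_reducible apply IntF.app | with_reducible apply IntF.ite | with_reducible apply IntF.sep |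 with_reducible apply IntF.lam | with_reducible apply IntF.insert | with_reducible apply IntF.singleton | with_reducible apply IntF.union | with_reducible apply IntF.inter | with_reducible apply IntF.sdiff | with_reducible apply IntF.isUnion | with_reducible apply IntF.iimage | with_reducible apply IntF.the | with_reducible apply IntF.irec | with_reducible_and_instances apply IntF.add | with_reducible_and_instances apply IntF.mul | with_reducible apply IntF.succ | with_reducible apply IntF.val | (with_reducible refine Int.comp ?_ ?_; assumption) | (with_reducible refine Int.comp₂ ?_ ?_ ?_; assumption) | (with_reducible refine Int.comp₃ ?_ ?_ ?_ ?_; assumption) | (with_reducible refine IntF.comp ?_ ?_; assumption) | (with_reducible refine IntF.comp₂ ?_ ?_ ?_; assumption) | (with_reducible refine IntF.comp₃ ?_ ?_ ?_ ?_; assumption) | with_reducible apply IntF.pair))) ⟨m, hm, hne⟩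
    have hi' : i < e.1 := hi
    have h1 : S.st e.2 s i = S.st e.2 s' i := by
      refine S.st_congr i (fun _ _ => rfl) (fun j hj => ?_) i le_rfl
      by_contra h2
      exact absurd (hmin j ⟨lt_trans hj hi, h2⟩) (not_le_of_gt hj)
    obtain ⟨k, ⟨-, -, -, -, h3⟩, -⟩ := st_adm he s hi'
    have h4 := S.cl_mono (st_anti he s e.1 (INat.succ_le_iff.2 hi') le_rfl) hx
    have h5 := S.cl_mono (st_anti he s' e.1 (INat.succ_le_iff.2 hi') le_rfl) hx'
    by_cases h6 : i ∈ s
    · have h7 : ¬ i ∈ s' := fun h7 => hine ⟨fun _ => h7, fun _ => h6⟩
      rw [S.st_succ₂ _ h6] at h4
      rw [S.st_succ₁ _ h7, ← h1] at h5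
      exact h3 x h5 h4
    · have h7 : i ∈ s' := by
        by_contra h7
        exact hine ⟨fun h => absurd h h6, fun h => absurd h h7⟩
      rw [S.st_succ₁ _ h6] at h4
      rw [S.st_succ₂ _ h7, ← h1] at h5
      exact h3 x h4 h5
  small x y hxy := by
    obtain ⟨n, V, n', V', hV, hV', hxV, hyV', -, -, hd⟩ :=
      S.separate hxy S.univ (by simp) (by simp)
    refine ⟨(max n n').succ, fun e e' he he' hl hl' s hx hy z hz hz' => ?_⟩
    have hl : e.1 = (max n n').succ := hl
    have hl' : e'.1 = (max n n').succ := hl'
    have h1 : S.sm (max n n') (S.st e.2 s e.1) := by
      rw [hl]
      exact (st_step he s (by rw [hl]; exact INat.lt_succ_self _)).2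
    have h2 : S.sm (max n n') (S.st e'.2 s e'.1) := by
      rw [hl']
      exact (st_step he' s (by rw [hl']; exact INat.lt_succ_self _)).2
    have hx : x ∈ S.cl (S.st e.2 s e.1) := hx
    have hy : y ∈ S.cl (S.st e'.2 s e'.1) := hy
    have hz : z ∈ S.cl (S.st e.2 s e.1) := hz
    have hz' : z ∈ S.cl (S.st e'.2 s e'.1) := hz'
    have h3 : ∀ w, w ∈ S.st e.2 s e.1 → w ∈ V := by
      refine (h1 V (S.mem_Bc.2 ⟨n, le_max_left _ _, hV⟩)).resolve_right fun h => ?_
      obtain ⟨w, hw, hwV⟩ := S.mem_cl.1 hx V (S.Bop n V hV) hxV
      exact h w hw hwV
    have h4 : ∀ w, w ∈ S.st e'.2 s e'.1 → w ∈ V' := by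
      refine (h2 V' (S.mem_Bc.2 ⟨n', le_max_right _ _, hV'⟩)).resolve_right fun h => ?_
      obtain ⟨w, hw, hwV⟩ := S.mem_cl.1 hy V' (S.Bop n' V' hV') hyV'
      exact h w hw hwV
    exact hd z (S.cl_mono h3 hz) (S.cl_mono h4 hz')
  cl_K e he s := S.mem_Cls.2 (S.open_cl _)
  K_ne e he s := by
    obtain ⟨x, hx⟩ := st_ne he s (le_refl e.1)
    exact ⟨x, S.subset_cl hx⟩
  cl_union G hG h := S.mem_Cls.2
    (S.cl_union hG fun C hC => S.mem_Cls.1 (h C hC))
  comp C hC hne hmono := S.comp C (fun n => S.mem_Cls.1 (hC n)) hne hmono
  cl_inter C hC := S.mem_Cls.2
    (S.cl_inter C fun n => S.mem_Cls.1 (hC n))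
  F_spec C hC hne := S.F_spec C (S.mem_Cls.1 hC) hne

/-- The real numbers inject into the space. -/
theorem exists_inj (S : TS M α) : ∃ j : IFun M (IPow M (INat M)) α, ∀ t t', j t = j t' →
    t = t' := (td S).exists_inj

end TS

end Pool.Agent.H310
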