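import Pool.Agent.H310R3.W7
import Pool.Agent.H310R3.TopDefs
import Pool.Agent.H310R3.Bridge

/-!
# From a space in a model to the internal structure
-/

set_option maxHeartbeats 400000
set_option linter.all false
set_option synthInstance.maxSize 2000

namespace Pool.Agent.H310

open FirstOrder FirstOrder.Language
open Pool.Agent.Helper672.ZFA
open Pool.Agent.H310Cards
open Pool.Agent.H310Top

universe u u₁ u₂ u₃ u₄

section

attribute [local instance] Helper672.Plain.toL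

variable {M : Type u} [Helper672.Plain.LSet.Structure M] [hZ : Helper672.Plain.Zermelo M]
variable {α : Type u₁} {β : Type u₂}

local instance instModelL' : IsModel M := Helper672.Plain.isModel_toL

variable [ITy M α] [ITy M β]

/-- Sets of codes are codes of sets. -/
theorem exists_code_of {u : M} (h : ∀ z, Mem z u → ∃ a : α, code a = z) :
    ∃ U : IPow M α, code U = u := by
  have hs : Int M (fun a : α => Mem (code a) u) := ⟨u, fun a => Iff.rfl⟩
  refine ⟨⟨_, hs⟩, extM fun t => ?_⟩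
  refine (mem_code_pow (s := (⟨_, hs⟩ : IPow M α))).trans ⟨?_, fun ht => ?_⟩
  · rintro ⟨a, ha, rfl⟩
    exact ha
  · obtain ⟨a, rfl⟩ := h t ht
    exact ⟨a, ht, rfl⟩

theorem mem_codeU {U : IPow M α} {z : M} : Mem z (code (M := M) U) ↔ ∃ a, a ∈ U ∧ code a = z :=
  mem_code_pow (s := U)

theorem int_appMem (f : M) : Int M (fun q : α × β => ∃ u, App f (code q.1) u ∧
    Mem (code q.2) u) := by
  refine Int.of_D₂ (S := fun v => ∃ u, Mem (op (v 0) u) f ∧ Mem (v 1) u) ?_ fun a b => ?_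
  · exact D.ex (D.and (D.memf (DF.op (DF.var _) (DF.var _)) (DF.const _))
      (D.memf (DF.var _) (DF.var _)))
  · refine exists_congr fun u => and_congr_left fun _ => ?_
    exact app_iff.symm

theorem app_mem {f a b x y : M} (hf : IsFun f a b) (h : App f x y) : Mem x a ∧ Mem y b := by
  obtain ⟨q, h1, h2⟩ := h
  obtain ⟨x', y', h3, h4, h5⟩ := hf.1 q h2
  obtain ⟨rfl, rfl⟩ := op_inj ((ordPair_iff.1 h1).symm.trans (ordPair_iff.1 h5))
  exact ⟨h3, h4⟩

/-- The structure of a space. -/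
theorem exists_TS {x t b : M} (ht : IsTopology t x) (hb : IsBase b t) (hcuf : IsCuf b)
    (hc : H310Top.IsCompact t x) (hh : IsHausdorff t x) (hs : ¬ IsScattered t x)
    (hl : IsWeaklyLoeb t x) : Nonempty (TS M (El x)) := by
  have hx : ∀ z : M, Mem z x → ∃ a : El x, code a = z := fun z hz => ⟨⟨z, hz⟩, rfl⟩
  have hsub : ∀ {u : M}, Mem u t → ∃ U : IPow M (El x), code U = u := fun hu =>
    exists_code_of fun z hz => hx z (ht.sub _ hu z hz)
  have hmem : ∀ {U : IPow M (El x)} {a : El x}, Mem (code (M := M) a) (code (M := M) U) ↔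
      a ∈ U := mem_code_iff
  have hmemx : ∀ {U : IPow M (El x)} {z : M}, Mem z (code (M := M) U) → Mem z x := by
    intro U z hz
    obtain ⟨a, -, rfl⟩ := mem_codeU.1 hz
    exact a.2
  let Op : IPow M (IPow M (El x)) := ⟨fun U => Mem (code (M := M) U) t, ⟨t, fun _ => Iff.rfl⟩⟩
  have hOp : ∀ {U : IPow M (El x)}, U ∈ Op ↔ Mem (code (M := M) U) t := Iff.rfl
  -- finite sets
  have hfin : ∀ {γ : Type u} [ITy M γ] {y : M} (h : ∀ z, Mem z y → ∃ a : γ, code a = z),
      IsFinite y → ∀ {C : IPow M γ}, (∀ a, a ∈ C ↔ Mem (code (M := M) a) y) → IFin C := by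
    intro γ _ y h hy C hC
    have h1 : FinP M (fun a : γ => a ∈ C) := finP_of_finite (t := y) C.int_mem (fun z => by
      constructor
      · intro hz
        obtain ⟨a, rfl⟩ := h z hz
        exact ⟨a, (hC a).2 hz, rfl⟩
      · rintro ⟨a, ha, rfl⟩
        exact (hC a).1 ha) hy
    have h2 : sep M (fun a : γ => a ∈ C) = C := IPow.ext' fun a => mem_sep C.int_mem
    rw [← h2]
    exact h1.fin C.int_mem
  obtain ⟨A, hA⟩ : ∃ A : IPow M (El x), (∃ z, z ∈ A) ∧
      ∀ z U, z ∈ A → U ∈ Op → z ∈ U → ∃ y, y ∈ A ∧ y ∈ U ∧ y ≠ z := by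
    unfold IsScattered at hs
    push Not at hs
    obtain ⟨a, ha, ⟨z, hz⟩, hi⟩ := hs
    obtain ⟨A, rfl⟩ := exists_code_of (α := El x) fun z hz => hx z (ha z hz)
    refine ⟨A, ?_, fun z U hz hU hzU => ?_⟩
    · obtain ⟨z, hz', rfl⟩ := mem_codeU.1 hz
      exact ⟨z, hz'⟩
    · by_contra hcon
      push Not at hcon
      refine hi (code (M := M) z) ⟨hmem.2 hz, code (M := M) U, hU, hmem.2 hzU, fun y hy hyA => ?_⟩
      obtain ⟨y, hy', rfl⟩ := mem_codeU.1 hy
      rw [hcon y (hmem.1 hyA) hy']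
  -- the base
  obtain ⟨w, s, f, hw, hf, hsf, hbf⟩ := hcuf
  have iRB : Int M (fun q : INat M × IPow M (El x) => ∃ u, App f (code q.1) u ∧
    Mem (code q.2) u) := int_appMem f
  let B : IFun M (INat M) (IPow M (IPow M (El x))) :=
    ⟨fun n => sep M fun U => ∃ u, App f (code (M := M) n) u ∧ Mem (code (M := M) U) u,
      IntF.sep iRB⟩
  have hB : ∀ {n : INat M} {U : IPow M (El x)}, U ∈ B n ↔
      ∃ u, App f (code (M := M) n) u ∧ Mem (code (M := M) U) u := fun {n U} =>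
    mem_sep (Int.slice (p := fun (n : INat M) (U : IPow M (El x)) =>
      ∃ u, App f (code (M := M) n) u ∧ Mem (code (M := M) U) u) iRB n)
  have hBt : ∀ {n : M} {u z : M}, App f n u → Mem z u → Mem z t := fun h h' =>
    hb.1 _ ((hbf _).2 ⟨_, _, h, h'⟩)
  -- the choice function
  obtain ⟨k, s', g, hk, hg, hgs⟩ := hl
  have iRF : Int M (fun q : IPow M (El x) × El x => ∃ u, App g (code q.1) u ∧
    Mem (code q.2) u) := int_appMem g
  let F : IFun M (IPow M (El x)) (IPow M (El x)) :=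
    ⟨fun C => sep M fun a => ∃ u, App g (code (M := M) C) u ∧ Mem (code (M := M) a) u,
      IntF.sep iRF⟩
  have hF : ∀ {C : IPow M (El x)} {a : El x}, a ∈ F C ↔
      ∃ u, App g (code (M := M) C) u ∧ Mem (code (M := M) a) u := fun {C a} =>
    mem_sep (Int.slice (p := fun (C : IPow M (El x)) (a : El x) =>
      ∃ u, App g (code (M := M) C) u ∧ Mem (code (M := M) a) u) iRF C)
  refine ⟨{
    Op := Op
    A := A
    B := B
    F := F
    univ := ?_
    inter := ?_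
    union := ?_
    Bfin := ?_
    Bop := ?_
    base := ?_
    compact := ?_
    haus := ?_
    ne := hA.1
    noiso := fun z U hz hU hzU => hA.2 z U hz hU hzU
    F_spec := ?_ }⟩
  · rw [hOp]
    have h1 : code (M := M) (iuniv M (El x)) = x := extM fun z => by
      rw [mem_codeU]
      exact ⟨fun ⟨a, _, h⟩ => h ▸ a.2, fun hz => ⟨⟨z, hz⟩, by simp, rfl⟩⟩
    rw [h1]
    exact ht.univ
  · intro U V hU hV
    refine ht.inter (code (M := M) U) (code (M := M) V) _ hU hV fun z => ?_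
    refine mem_codeU.trans ?_
    constructor
    · rintro ⟨a, ha, rfl⟩
      exact ⟨hmem.2 (mem_inter.1 ha).1, hmem.2 (mem_inter.1 ha).2⟩
    · rintro ⟨h1, h2⟩
      obtain ⟨a, ha, rfl⟩ := mem_codeU.1 h1
      exact ⟨a, mem_inter.2 ⟨ha, hmem.1 h2⟩, rfl⟩
  · intro G hG
    refine ht.union (code (M := M) G) _ (fun u hu => ?_) fun z => ?_
    · obtain ⟨U, hU, rfl⟩ := mem_codeU.1 hu
      exact hG U hU
    · refine mem_codeU.trans ?_
      constructor
      · rintro ⟨a, ha, rfl⟩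
        obtain ⟨U, hU, haU⟩ := mem_isUnion.1 ha
        exact ⟨code (M := M) U, mem_codeU.2 ⟨U, hU, rfl⟩, hmem.2 haU⟩
      · rintro ⟨u, hu, hz⟩
        obtain ⟨U, hU, rfl⟩ := mem_codeU.1 hu
        obtain ⟨a, ha, rfl⟩ := mem_codeU.1 hz
        exact ⟨a, mem_isUnion.2 ⟨U, hU, ha⟩, rfl⟩
  · intro n
    obtain ⟨u, hu, huq⟩ := hf.2 (code (M := M) n) ((mem_omega hw).2 ⟨n, rfl⟩)
    refine hfin (y := u) (fun z hz => hsub (hBt hu hz)) (hsf u (app_mem hf hu).2) fun U => ?_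
    rw [hB]
    constructor
    · rintro ⟨u', hu', hU⟩
      rw [← huq u' hu']
      exact hU
    · exact fun hU => ⟨u, hu, hU⟩
  · intro n U hU
    obtain ⟨u, hu, hU⟩ := hB.1 hU
    exact hBt hu hU
  · intro U z hU hz
    obtain ⟨v, hv, hzv, hvU⟩ := hb.2 (code (M := M) U) (code (M := M) z) hU (hmem.2 hz)
    obtain ⟨n, u, hu, hvu⟩ := (hbf v).1 hv
    obtain ⟨n, rfl⟩ := (mem_omega hw).1 (app_mem hf hu).1
    obtain ⟨V, rfl⟩ := hsub (hb.1 v hv)
    exact ⟨n, V, hB.2 ⟨u, hu, hvu⟩, hmem.1 hzv, fun y hy => hmem.1 (hvU _ (hmem.2 hy))⟩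
  · intro G hG hcov
    obtain ⟨c', hc'f, hc's, hc'c⟩ := hc (code (M := M) G) (fun u hu => by
      obtain ⟨U, hU, rfl⟩ := mem_codeU.1 hu
      exact hG U hU) fun z hz => by
      obtain ⟨U, hU, hzU⟩ := hcov ⟨z, hz⟩
      exact ⟨code (M := M) U, mem_codeU.2 ⟨U, hU, rfl⟩, hmem.2 hzU⟩
    have h1 : ∀ z, Mem z c' → ∃ U : IPow M (El x), code U = z := fun z hz => by
      obtain ⟨U, -, h⟩ := mem_codeU.1 (hc's z hz)
      exact ⟨U, h⟩
    obtain ⟨H, rfl⟩ := exists_code_of h1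
    refine ⟨H, hfin h1 hc'f fun U => mem_code_iff.symm, fun U hU => ?_, fun a => ?_⟩
    · exact mem_code_iff.1 (hc's _ (mem_codeU.2 ⟨U, hU, rfl⟩))
    · obtain ⟨u, hu, hau⟩ := hc'c (code (M := M) a) a.2
      obtain ⟨U, hU, rfl⟩ := mem_codeU.1 hu
      exact ⟨U, hU, hmem.1 hau⟩
  · intro a b hab
    obtain ⟨u, v, hu, hv, hau, hbv, hd⟩ := hh (code (M := M) a) (code (M := M) b) a.2 b.2
      fun h => hab (ITy.inj h)
    obtain ⟨U, rfl⟩ := hsub hu
    obtain ⟨V, rfl⟩ := hsub hv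
    exact ⟨U, V, hu, hv, hmem.1 hau, hmem.1 hbv, fun z hz hz' => hd _ (hmem.2 hz) (hmem.2 hz')⟩
  · intro C hC hne
    obtain ⟨c, hc⟩ := hne
    have h1 : Mem (code (M := M) C) k := (hk _).2 ⟨⟨fun z hz => hmemx hz,
      code (M := M) (icompl C), hC, fun z => ?_⟩, ⟨code (M := M) c, hmem.2 hc⟩⟩
    · obtain ⟨u, hu, huq⟩ := hg.2 (code (M := M) C) h1
      obtain ⟨h2, ⟨z, hz⟩, h3⟩ := hgs _ _ hu
      refine ⟨hfin (y := u) (fun z hz => hx z (hmemx (h3 z hz))) h2 fun a => ?_, fun a ha => ?_,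
        ?_⟩
      · rw [hF]
        constructor
        · rintro ⟨u', hu', hU⟩
          rw [← huq u' hu']
          exact hU
        · exact fun hU => ⟨u, hu, hU⟩
      · obtain ⟨u', hu', hU⟩ := hF.1 ha
        exact hmem.1 ((hgs _ _ hu').2.2 _ hU)
      · obtain ⟨a, ha, rfl⟩ := mem_codeU.1 (h3 z hz)
        exact ⟨a, hF.2 ⟨u, hu, hz⟩⟩
    · constructor
      · intro hz
        obtain ⟨a, ha, rfl⟩ := mem_codeU.1 hz
        exact ⟨a.2, fun h => mem_icompl.1 ha (hmem.1 h)⟩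
      · rintro ⟨hz, hzC⟩
        exact mem_codeU.2 ⟨⟨z, hz⟩, mem_icompl.2 fun h => hzC (mem_codeU.2 ⟨_, h, rfl⟩), rfl⟩

/-- The theorem for a space in a model. -/
theorem exists_real_inj {x t b w p : M} (ht : IsTopology t x) (hb : IsBase b t)
    (hcuf : IsCuf b) (hc : H310Top.IsCompact t x) (hh : IsHausdorff t x)
    (hs : ¬ IsScattered t x) (hl : IsWeaklyLoeb t x) (hw : IsOmega w) (hp : IsPow p w) :
    ∃ j, IsInj j p x := by
  obtain ⟨S⟩ := exists_TS ht hb hcuf hc hh hs hl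
  obtain ⟨j, hj⟩ := S.exists_inj
  have hP : ∀ z : M, Mem z p ↔ ∃ s : IPow M (INat M), code s = z := fun z =>
    mem_pow (fun z => mem_omega hw) hp
  refine ⟨code (M := M) j, isFun_code j hP fun a => (j a).2, fun y y' z h h' => ?_⟩
  obtain ⟨a, rfl, h1⟩ := app_code.1 h
  obtain ⟨b, rfl, h2⟩ := app_code.1 h'
  rw [hj a b (ITy.inj (h1.trans h2.symm))]

end

end Pool.Agent.H310
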